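import Pool.Agent.Run7.h174.Dual

/-!
# Propagation of positivity
-/

set_option autoImplicit false
set_option linter.unusedSectionVars false

open Finset Matrix Function

universe u u'

namespace Pool.Agent.Run7.h174

section real

variable {B : Type} [Fintype B] [DecidableEq B]
  {J : Type} [Fintype J] {A C : J → Type} [∀ j, Fintype (A j)] [∀ j, DecidableEq (A j)]
  [∀ j, Fintype (C j)] [∀ j, DecidableEq (C j)] {P Q : Type}
  {a w : ∀ j, Ten ℂ B (A j) (C j)}

lemma Sp_real_le : (Sp ℝ w P Q : Set (Ten ℂ B P Q)) ⊆ Sp ℂ w P Q := by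
  intro x hx
  have : Sp ℝ w P Q ≤ (Sp ℂ w P Q).restrictScalars ℝ := by
    unfold Sp
    rw [Submodule.span_le]
    rintro _ ⟨t, rfl⟩
    exact ev_mem t
  exact this hx

lemma Sp_real_decomp {x : Ten ℂ B P Q} (hx : x ∈ Sp ℂ w P Q) :
    ∃ y ∈ Sp ℝ w P Q, ∃ z ∈ Sp ℝ w P Q, x = y + Complex.I • z := by
  unfold Sp at hx
  induction hx using Submodule.span_induction with
  | mem x hx =>
    obtain ⟨t, rfl⟩ := hx
    exact ⟨_, ev_mem t, 0, Submodule.zero_mem _, by rw [smul_zero, add_zero]⟩
  | zero => exact ⟨0, Submodule.zero_mem _, 0, Submodule.zero_mem _, by rw [smul_zero, add_zero]⟩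
  | add x x' _ _ hx hx' =>
    obtain ⟨y, hy, z, hz, rfl⟩ := hx
    obtain ⟨y', hy', z', hz', rfl⟩ := hx'
    exact ⟨y + y', Submodule.add_mem _ hy hy', z + z', Submodule.add_mem _ hz hz', by
      rw [smul_add]; abel⟩
  | smul c x _ hx =>
    obtain ⟨y, hy, z, hz, rfl⟩ := hx
    refine ⟨c.re • y - c.im • z, Submodule.sub_mem _ (Submodule.smul_mem _ _ hy)
      (Submodule.smul_mem _ _ hz), c.re • z + c.im • y, Submodule.add_mem _
      (Submodule.smul_mem _ _ hz) (Submodule.smul_mem _ _ hy), ?_⟩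
    funext u v
    simp only [Pi.smul_apply, Pi.add_apply, Pi.sub_apply, smul_eq_mul, Complex.real_smul]
    conv_lhs => rw [← Complex.re_add_im c]
    have := Complex.I_mul_I
    linear_combination (c.im * z u v : ℂ) * this

variable [Fintype P] [DecidableEq P] [Fintype Q] [DecidableEq Q]

/-- values of pairings of real combinations are real -/
lemma pair_real (hr : ∀ t : Net A C Empty Empty, starRingEnd ℂ (cv w t) = cv w t)
    {x : Ten ℂ B P Q} (hx : x ∈ Sp ℝ w P Q) {y : Ten ℂ B Q P} (hy : y ∈ Sp ℝ w Q P) :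
    starRingEnd ℂ (pairT x y) = pairT x y := by
  unfold Sp at hx hy
  induction hx using Submodule.span_induction with
  | mem x hx =>
    obtain ⟨s, rfl⟩ := hx
    induction hy using Submodule.span_induction with
    | mem y hy =>
      obtain ⟨t, rfl⟩ := hy
      obtain ⟨r, hr'⟩ := exists_pair.{0} (B := B) s t
      rw [← hr' ℂ w, hr]
    | zero => rw [pairT_zero_right, map_zero]
    | add a b _ _ ha hb => rw [pairT_add_right, map_add, ha, hb]
    | smul c a _ ha => rw [pairT_smul_right, Complex.real_smul, map_mul, ha, Complex.conj_ofReal]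
  | zero => rw [pairT_zero_left, map_zero]
  | add a b _ _ ha hb => rw [pairT_add_left, map_add, ha, hb]
  | smul c a _ ha => rw [pairT_smul_left, Complex.real_smul, map_mul, ha, Complex.conj_ofReal]

lemma isMin_conj (hr : ∀ t : Net A C Empty Empty, starRingEnd ℂ (cv a t) = cv a t)
    (hw : IsMin a w) : IsMin a (fun j => tconj (w j)) := by
  have h1 : Same (fun j => tconj (w j)) a := by
    intro t
    have h2 : cv (fun j => tconj (w j)) t = starRingEnd ℂ (cv w t) := cv_map _ w t
    rw [h2, hw.1 t, hr]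
  refine ⟨h1, fun w' hw' => ?_⟩
  have h2 : nsq (fun j => tconj (w j)) = nsq w := by
    unfold nsq nT tconj tmap
    simp only [RCLike.norm_conj]
  rw [h2]
  exact hw.2 w' hw'

lemma gram_real (hr : ∀ t : Net A C Empty Empty, starRingEnd ℂ (cv a t) = cv a t)
    (hw : IsMin a w) (s t : Net A C P Q) :
    starRingEnd ℂ (hT (ev w s) (ev w t)) = hT (ev w s) (ev w t) := by
  have h1 := gram_unique hw (isMin_conj hr hw) s t
  have h2 : ∀ r : Net A C P Q, ev (fun j => tconj (w j)) r = tconj (ev w r) := fun r =>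
    ev_map _ w r
  rw [h2, h2] at h1
  have h3 : ∀ x y : Ten ℂ B P Q, starRingEnd ℂ (hT x y) = hT (tconj x) (tconj y) := by
    intro x y
    unfold hT
    rw [← tmap_dotT]
    rfl
  rw [h3, ← h1]

/-- The Gram values of real combinations are real. -/
lemma gram_real_sp (hr : ∀ t : Net A C Empty Empty, starRingEnd ℂ (cv a t) = cv a t)
    (hw : IsMin a w) {x y : Ten ℂ B P Q} (hx : x ∈ Sp ℝ w P Q) (hy : y ∈ Sp ℝ w P Q) :
    starRingEnd ℂ (hT x y) = hT x y := by
  have hsr : ∀ (c : ℝ) (x y : Ten ℂ B P Q), hT x (c • y) = (c : ℂ) * hT x y := by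
    intro c x y
    have h1 : c • y = (c : ℂ) • y := by
      funext u v
      simp
    rw [h1, hT_smul_right, Complex.conj_ofReal]
  have hsl : ∀ (c : ℝ) (x y : Ten ℂ B P Q), hT (c • x) y = (c : ℂ) * hT x y := by
    intro c x y
    have h1 : c • x = (c : ℂ) • x := by
      funext u v
      simp
    rw [h1, hT_smul_left]
  unfold Sp at hx hy
  induction hx using Submodule.span_induction with
  | mem x hx =>
    obtain ⟨s, rfl⟩ := hx
    induction hy using Submodule.span_induction with
    | mem y hy =>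
      obtain ⟨t, rfl⟩ := hy
      exact gram_real hr hw s t
    | zero => rw [hT_zero_right, map_zero]
    | add a b _ _ ha hb => rw [hT_add_right, map_add, ha, hb]
    | smul c a _ ha => rw [hsr, map_mul, ha, Complex.conj_ofReal]
  | zero => rw [hT_zero_left, map_zero]
  | add a b _ _ ha hb => rw [hT_add_left, map_add, ha, hb]
  | smul c a _ ha => rw [hsl, map_mul, ha, Complex.conj_ofReal]

/-- The adjoint preserves the real combinations. -/
lemma tstar_real (hr : ∀ t : Net A C Empty Empty, starRingEnd ℂ (cv a t) = cv a t)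
    (hw : IsMin a w) {x : Ten ℂ B P Q} (hx : x ∈ Sp ℝ w P Q) : tstar x ∈ Sp ℝ w Q P := by
  have hrw : ∀ t : Net A C Empty Empty, starRingEnd ℂ (cv w t) = cv w t := by
    intro t
    rw [hw.1 t, hr]
  obtain ⟨y, hy, z, hz, hyz⟩ := Sp_real_decomp (hw.tstar_sp (Sp_real_le hx))
  have hz0 : z = 0 := by
    refine hw.nondeg (Sp_real_le hz) fun t => ?_
    have h1 := gram_real_sp hr hw (ev_mem t : ev w t ∈ Sp ℝ w P Q) hx
    rw [← pairT_tstar, hyz, pairT_add_right, pairT_smul_right, smul_eq_mul, map_add, map_mul,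
      pair_real hrw (ev_mem t) hy, pair_real hrw (ev_mem t) hz, Complex.conj_I] at h1
    have h2 : (2 * Complex.I) * pairT (ev w t) z = 0 := by linear_combination -h1
    rw [pairT_swap]
    rcases mul_eq_zero.1 h2 with h3 | h3
    · simp at h3
    · exact h3
  rw [hyz, hz0, smul_zero, add_zero]
  exact hy

end real

section main

variable {I : Type} [Fintype I] {L : I → Type} [∀ i, Fintype (L i)] [∀ i, DecidableEq (L i)]
  {i0 : I} (e0 : L i0 ≃ Option Unit) {B : Type} [Fintype B] [DecidableEq B]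

variable {a w : ∀ j, Ten ℂ B (UA L j) (LC L j)}

lemma nT_tswap {P Q : Type} [Fintype P] [DecidableEq P] [Fintype Q] [DecidableEq Q]
    (x : Ten ℂ B P Q) : nT (tswap x) = nT x := by
  unfold nT tswap
  exact Finset.sum_comm

lemma nsq_flip (w : ∀ j, Ten ℂ B (UA L j) (LC L j)) : nsq (flip w) = nsq w := by
  unfold nsq
  rw [Fintype.sum_prod_type, Fintype.sum_prod_type]
  refine Finset.sum_congr rfl fun i _ => ?_
  rw [Fintype.sum_bool, Fintype.sum_bool, add_comm]
  exact congrArg₂ (· + ·) (nT_tswap (w (i, true))) (nT_tswap (w (i, false)))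

/-- The relations of the metric. -/
structure Met {R : Type u} [CommRing R] (a : ∀ j, Ten R B (UA L j) (LC L j)) : Prop where
  one : (phM e0 a).transpose * psM e0 a = 1
  flp : ∀ j, flip a j = act (phM e0 a) (psM e0 a) (a j)

variable {e0}

/-- The relations of the metric hold for minimal tuples. -/
lemma Met.transfer (ha : Met e0 a) (hw : IsMin a w) : Met e0 w where
  one := by
    obtain ⟨t, ht⟩ := exists_unit.{0} (B := B) e0
    have h1 : ev a t = ev a Net.id := by
      funext u v
      rw [ht, ha.one]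
      change (1 : Matrix B B ℂ) _ _ = tid u v
      unfold tid
      rw [Matrix.one_apply]
      simp only [eq_comm]
    have h2 := hw.transfer h1
    ext b c
    have h3 := congrFun (congrFun h2 (fun _ => c)) (fun _ => b)
    rw [ht] at h3
    rw [h3]
    change tid _ _ = _
    unfold tid
    rw [Matrix.one_apply]
    simp only [eq_comm]
  flp := by
    intro j
    obtain ⟨t, ht⟩ := exists_low.{0} (B := B) e0 (Net.gen (A := UA L) (C := LC L) j)
    have h1 : ev a (dual (Net.gen j)) = ev a t := by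
      rw [ev_dual, ht]
      exact congrArg tswap (ha.flp j)
    have h2 := hw.transfer h1
    rw [ev_dual, ht] at h2
    exact congrArg tswap h2

lemma Met.ev_dual (ha : Met e0 a) {P Q : Type} [Fintype P] [DecidableEq P] [Fintype Q]
    [DecidableEq Q] (t : Net (UA L) (LC L) P Q) :
    ev a (dual t) = tswap (act (phM e0 a) (psM e0 a) (ev a t)) := by
  rw [Pool.Agent.Run7.h174.ev_dual]
  congr 1
  have : flip a = fun j => act (phM e0 a) (psM e0 a) (a j) := funext ha.flp
  rw [this]
  exact ev_act ha.one a t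

lemma Met.flp_isMin (hm : Met e0 w) (hw : IsMin a w) : IsMin a (flip w) := by
  have h1 : flip w = fun j => act (phM e0 w) (psM e0 w) (w j) := funext hm.flp
  refine ⟨?_, fun w' hw' => ?_⟩
  · refine Same.trans ?_ hw.1
    intro t
    rw [h1]
    exact cv_act hm.one w t
  · rw [nsq_flip]
    exact hw.2 w' hw'

variable {P Q : Type} [Fintype P] [DecidableEq P] [Fintype Q] [DecidableEq Q]

/-- The action of the metric is an isometry. -/
lemma Met.isom (hm : Met e0 w) (hw : IsMin a w) {x y : Ten ℂ B P Q} (hx : x ∈ Sp ℂ w P Q)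
    (hy : y ∈ Sp ℂ w P Q) :
    hT (act (phM e0 w) (psM e0 w) x) (act (phM e0 w) (psM e0 w) y) = hT x y := by
  have h1 : flip w = fun j => act (phM e0 w) (psM e0 w) (w j) := funext hm.flp
  unfold Sp at hx hy
  induction hx using Submodule.span_induction with
  | mem x hx =>
    obtain ⟨s, rfl⟩ := hx
    induction hy using Submodule.span_induction with
    | mem y hy =>
      obtain ⟨t, rfl⟩ := hy
      have h2 := gram_unique hw (hm.flp_isMin hw) s t
      rw [h1] at h2
      rw [h2]
      beta_reduce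
      rw [ev_act hm.one, ev_act hm.one]
    | zero => rw [act_zero, hT_zero_right, hT_zero_right]
    | add a b _ _ ha hb => rw [act_add, hT_add_right, hT_add_right, ha, hb]
    | smul c a _ ha => rw [act_smul, hT_smul_right, hT_smul_right, ha]
  | zero => rw [act_zero, hT_zero_left, hT_zero_left]
  | add a b _ _ ha hb => rw [act_add, hT_add_left, hT_add_left, ha, hb]
  | smul c a _ ha => rw [act_smul, hT_smul_left, hT_smul_left, ha]

/-- the transpose relation -/
lemma Met.one' (hm : Met e0 w) : (psM e0 w).transpose * phM e0 w = 1 := by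
  have := congrArg Matrix.transpose hm.one
  rwa [Matrix.transpose_mul, Matrix.transpose_transpose, Matrix.transpose_one] at this

/-- The double metric is trivial on the span. -/
lemma Met.double (hm : Met e0 w) {x : Ten ℂ B P Q} (hx : x ∈ Sp ℂ w P Q) :
    act (psM e0 w) (phM e0 w) (act (phM e0 w) (psM e0 w) x) = x := by
  have h0 : ∀ j, act (psM e0 w) (phM e0 w) (act (phM e0 w) (psM e0 w) (w j)) = w j := by
    intro j
    rw [← hm.flp j]
    rcases j with ⟨i, b⟩
    cases b
    · have h1 := hm.flp (i, true)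
      have h2 := congrArg tswap h1
      have h3 : tswap (act (phM e0 w) (psM e0 w) (w (i, true))) =
          act (psM e0 w) (phM e0 w) (tswap (w (i, true))) := tswap_act _ _ _
      exact (h2.trans h3).symm
    · have h1 := hm.flp (i, false)
      have h2 := congrArg tswap h1
      have h3 : tswap (act (phM e0 w) (psM e0 w) (w (i, false))) =
          act (psM e0 w) (phM e0 w) (tswap (w (i, false))) := tswap_act _ _ _
      exact (h2.trans h3).symm
  have hone : (psM e0 w * phM e0 w).transpose * (phM e0 w * psM e0 w) = 1 := by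
    rw [Matrix.transpose_mul, Matrix.mul_assoc, ← Matrix.mul_assoc (psM e0 w).transpose,
      hm.one', Matrix.one_mul, hm.one]
  unfold Sp at hx
  induction hx using Submodule.span_induction with
  | mem x hx =>
    obtain ⟨t, rfl⟩ := hx
    rw [act_act, ← ev_act hone]
    congr 1
    funext j
    rw [← act_act]
    exact h0 j
  | zero => rw [act_zero, act_zero]
  | add a b _ _ ha hb => rw [act_add, act_add, ha, hb]
  | smul c a _ ha => rw [act_smul, act_smul, ha]

/-- the lowered tensor is in the span -/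
lemma Met.low_mem (hm : Met e0 w) {S : Type*} [CommRing S] [Algebra S ℂ] {x : Ten ℂ B P Q}
    (hx : x ∈ Sp S w P Q) : tswap (act (phM e0 w) (psM e0 w) x) ∈ Sp S w Q P := by
  unfold Sp at hx
  induction hx using Submodule.span_induction with
  | mem x hx =>
    obtain ⟨t, rfl⟩ := hx
    rw [← hm.ev_dual]
    exact ev_mem _
  | zero =>
    rw [act_zero]
    exact Submodule.zero_mem _
  | add a b _ _ ha hb =>
    rw [act_add]
    exact Submodule.add_mem _ ha hb
  | smul c a _ ha =>
    rw [act_smul]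
    exact Submodule.smul_mem _ _ ha

/-- the involution -/
lemma Met.invol (hm : Met e0 w) (hw : IsMin a w) {y : Ten ℂ B P Q} (hy : y ∈ Sp ℂ w P Q) :
    tconj (act (phM e0 w) (psM e0 w) (tconj (act (phM e0 w) (psM e0 w) y))) = y := by
  set u : Ten ℂ B P Q → Ten ℂ B P Q := act (phM e0 w) (psM e0 w) with hu
  have hmem : ∀ z ∈ Sp ℂ w P Q, tconj (u z) ∈ Sp ℂ w P Q := fun z hz =>
    hw.tstar_sp (hm.low_mem hz)
  have hq := hmem y hy
  have hqq := hmem _ hq
  have key : ∀ x ∈ Sp ℂ w P Q, hT x (tconj (u (tconj (u y)))) = hT x y := by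
    intro x hx
    have h1 : dotT x (u (tconj (u y))) = dotT (tconj (u y)) (u x) := by
      conv_lhs => rw [← hm.double hx, dotT_comm]
      exact dotT_act_act hm.one hm.one' _ _
    unfold hT
    rw [tconj_tconj, h1, dotT_comm]
    exact hm.isom hw hx hy
  have h2 := key _ (Submodule.sub_mem _ hqq hy)
  have h3 : hT (tconj (u (tconj (u y))) - y) (tconj (u (tconj (u y))) - y) = 0 := by
    rw [sub_eq_add_neg (tconj (u (tconj (u y)))) y, ← neg_one_smul ℂ y, hT_add_right,
      hT_smul_right]
    rw [sub_eq_add_neg (tconj (u (tconj (u y)))) y, ← neg_one_smul ℂ y] at h2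
    rw [h2, map_neg, map_one]
    ring
  rw [hT_self] at h3
  exact sub_eq_zero.1 (nT_eq_zero (by exact_mod_cast h3))

/-- pairs of real combinations -/
lemma lowJ (ha : Met e0 a) (hw : Met e0 w) {X : Ten (ℂ × ℂ) B P Q}
    (hX : X ∈ Sp ℝ (fun j => pr (a j) (w j)) P Q) :
    ∃ Y ∈ Sp ℝ (fun j => pr (a j) (w j)) Q P, p1 Y = tswap (act (phM e0 a) (psM e0 a) (p1 X)) ∧
      p2 Y = tswap (act (phM e0 w) (psM e0 w) (p2 X)) := by
  unfold Sp at hX
  induction hX using Submodule.span_induction with
  | mem X hX =>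
    obtain ⟨t, rfl⟩ := hX
    refine ⟨_, ev_mem (dual t), ?_, ?_⟩
    · rw [p1_ev, p1_ev, ha.ev_dual]
    · rw [p2_ev, p2_ev, hw.ev_dual]
  | zero =>
    refine ⟨0, Submodule.zero_mem _, ?_, ?_⟩
    · rw [map_zero, map_zero, act_zero]
      rfl
    · rw [map_zero, map_zero, act_zero]
      rfl
  | add X X' _ _ hX hX' =>
    obtain ⟨Y, hY, h1, h2⟩ := hX
    obtain ⟨Y', hY', h1', h2'⟩ := hX'
    refine ⟨Y + Y', Submodule.add_mem _ hY hY', ?_, ?_⟩
    · rw [map_add, map_add, act_add, h1, h1']
      rfl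
    · rw [map_add, map_add, act_add, h2, h2']
      rfl
  | smul c X _ hX =>
    obtain ⟨Y, hY, h1, h2⟩ := hX
    refine ⟨c • Y, Submodule.smul_mem _ c hY, ?_, ?_⟩
    · have e1 : ∀ Z : Ten (ℂ × ℂ) B Q P, p1 (c • Z) = c • p1 Z := fun _ => rfl
      have e2 : ∀ Z : Ten (ℂ × ℂ) B P Q, p1 (c • Z) = c • p1 Z := fun _ => rfl
      rw [e1, e2, act_smul, h1]
      rfl
    · have e1 : ∀ Z : Ten (ℂ × ℂ) B Q P, p2 (c • Z) = c • p2 Z := fun _ => rfl
      have e2 : ∀ Z : Ten (ℂ × ℂ) B P Q, p2 (c • Z) = c • p2 Z := fun _ => rfl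
      rw [e1, e2, act_smul, h2]
      rfl

lemma JJR_le {X : Ten (ℂ × ℂ) B P Q} (hX : X ∈ Sp ℝ (fun j => pr (a j) (w j)) P Q) :
    X ∈ JJ a w P Q := by
  have : Sp ℝ (fun j => pr (a j) (w j)) P Q ≤ (JJ a w P Q).restrictScalars ℝ := by
    unfold Sp
    rw [Submodule.span_le]
    rintro _ ⟨t, rfl⟩
    exact ev_mem t
  exact this hX

lemma JJR_map1 {x : Ten ℂ B P Q} (hx : x ∈ Sp ℝ a P Q) :
    ∃ X ∈ Sp ℝ (fun j => pr (a j) (w j)) P Q, p1 X = x := by
  unfold Sp at hx
  induction hx using Submodule.span_induction with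
  | mem x hx =>
    obtain ⟨t, rfl⟩ := hx
    exact ⟨_, ev_mem t, p1_ev t⟩
  | zero => exact ⟨0, Submodule.zero_mem _, map_zero _⟩
  | add x y _ _ hx hy =>
    obtain ⟨X, hX, rfl⟩ := hx
    obtain ⟨Y, hY, rfl⟩ := hy
    exact ⟨X + Y, Submodule.add_mem _ hX hY, map_add _ _ _⟩
  | smul c x _ hx =>
    obtain ⟨X, hX, rfl⟩ := hx
    exact ⟨c • X, Submodule.smul_mem _ c hX, rfl⟩

lemma JJR_map2 {x : Ten ℂ B P Q} (hx : x ∈ Sp ℝ w P Q) :
    ∃ X ∈ Sp ℝ (fun j => pr (a j) (w j)) P Q, p2 X = x := by
  unfold Sp at hx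
  induction hx using Submodule.span_induction with
  | mem x hx =>
    obtain ⟨t, rfl⟩ := hx
    exact ⟨_, ev_mem t, p2_ev t⟩
  | zero => exact ⟨0, Submodule.zero_mem _, map_zero _⟩
  | add x y _ _ hx hy =>
    obtain ⟨X, hX, rfl⟩ := hx
    obtain ⟨Y, hY, rfl⟩ := hy
    exact ⟨X + Y, Submodule.add_mem _ hX hY, map_add _ _ _⟩
  | smul c x _ hx =>
    obtain ⟨X, hX, rfl⟩ := hx
    exact ⟨c • X, Submodule.smul_mem _ c hX, rfl⟩

lemma JJR_p1 {X : Ten (ℂ × ℂ) B P Q} (hX : X ∈ Sp ℝ (fun j => pr (a j) (w j)) P Q) :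
    p1 X ∈ Sp ℝ a P Q := by
  unfold Sp at hX
  induction hX using Submodule.span_induction with
  | mem X hX =>
    obtain ⟨t, rfl⟩ := hX
    rw [p1_ev]
    exact ev_mem t
  | zero => exact Submodule.zero_mem _
  | add x y _ _ hx hy => exact Submodule.add_mem _ hx hy
  | smul c x _ hx => exact Submodule.smul_mem _ c hx

/-- The form has the same values. -/
lemma form_same (hs : Same a w) (ha : Met e0 a) (hw : Met e0 w) {X : Ten (ℂ × ℂ) B P Q}
    (hX : X ∈ Sp ℝ (fun j => pr (a j) (w j)) P Q) :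
    dotT (p1 X) (act (phM e0 a) (psM e0 a) (p1 X)) =
      dotT (p2 X) (act (phM e0 w) (psM e0 w) (p2 X)) := by
  obtain ⟨Y, hY, h1, h2⟩ := lowJ ha hw hX
  have h3 := JJ_pair hs (JJR_le hX) (JJR_le hY)
  rw [h1, h2] at h3
  exact h3

/-- **Propagation of positivity.** -/
theorem positivity_all (hr : ∀ t : Net (UA L) (LC L) Empty Empty,
      starRingEnd ℂ (cv a t) = cv a t) (ha : Met e0 a)
    (hpos : ∀ i, ∀ x ∈ Sp ℝ a (L i) Empty,
      0 ≤ (dotT x (act (phM e0 a) (psM e0 a) x)).re) {x : Ten ℂ B P Q} (hx : x ∈ Sp ℝ a P Q) :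
    (∃ r : ℝ, 0 ≤ r ∧ dotT x (act (phM e0 a) (psM e0 a) x) = (r : ℂ)) ∧
      (dotT x (act (phM e0 a) (psM e0 a) x) = 0 →
        ∀ t : Net (UA L) (LC L) Q P, pairT x (ev a t) = 0) := by
  obtain ⟨w, hw⟩ := exists_min a
  have hm := ha.transfer hw
  have hs : Same a w := hw.1.symm
  -- the generators are fixed by the involution
  have hfix0 : ∀ i, tconj (act (phM e0 w) (psM e0 w) (w (i, false))) = w (i, false) := by
    intro i
    set y : Ten ℂ B (L i) Empty := w (i, false) with hy
    have hymem : y ∈ Sp ℝ w (L i) Empty := gen_mem (i, false)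
    have hlow := hm.low_mem hymem
    have hmem : tconj (act (phM e0 w) (psM e0 w) y) ∈ Sp ℝ w (L i) Empty :=
      tstar_real hr hw hlow
    set z : Ten ℂ B (L i) Empty := tconj (act (phM e0 w) (psM e0 w) y) with hz
    set d : Ten ℂ B (L i) Empty := y - z with hd
    have hdmem : d ∈ Sp ℝ w (L i) Empty := Submodule.sub_mem _ hymem hmem
    have h1 : tconj (act (phM e0 w) (psM e0 w) d) = -d := by
      have h2 : act (phM e0 w) (psM e0 w) d = act (phM e0 w) (psM e0 w) y -
          act (phM e0 w) (psM e0 w) z := map_sub (actL (phM e0 w) (psM e0 w)) y z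
      have h3 : ∀ p q : Ten ℂ B (L i) Empty, tconj (p - q) = tconj p - tconj q := by
        intro p q
        funext u v
        simp [tconj, tmap]
      rw [h2, h3, ← hz, hm.invol hw (Sp_real_le hymem), hd]
      abel
    have h4 : dotT d (act (phM e0 w) (psM e0 w) d) = ((-nT d : ℝ) : ℂ) := by
      have h5 : act (phM e0 w) (psM e0 w) d = tconj (-d) := by
        rw [← h1, tconj_tconj]
      rw [h5]
      change hT d (-d) = _
      rw [← neg_one_smul ℂ d, hT_smul_right, hT_self]
      push_cast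
      simp
    obtain ⟨X, hX, hXd⟩ := JJR_map2 (a := a) hdmem
    have h6 := form_same hs ha hm hX
    rw [hXd, h4] at h6
    have h7 := hpos i _ (JJR_p1 hX)
    rw [h6, Complex.ofReal_re] at h7
    have h8 : nT d = 0 := le_antisymm (by linarith) (nT_nonneg d)
    have h9 := nT_eq_zero h8
    rw [hd, sub_eq_zero] at h9
    exact h9.symm
  have hfix : ∀ j, tconj (act (phM e0 w) (psM e0 w) (w j)) = w j := by
    rintro ⟨i, b⟩
    cases b
    · exact hfix0 i
    · have h1 := hm.flp (i, true)
      have h2 := hm.flp (i, false)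
      rw [← h1]
      have h3 : tconj (flip w (i, true)) = tstar (w (i, false)) := rfl
      rw [h3]
      have h4 := congrArg tstar (hfix0 i)
      rw [← h2] at h4
      have h5 : tstar (tconj (flip w (i, false))) = w (i, true) := by
        funext u v
        simp [tstar, tconj, tmap, tswap, flip]
      exact h4.symm.trans h5
  have hall : ∀ t : Net (UA L) (LC L) P Q,
      tconj (act (phM e0 w) (psM e0 w) (ev w t)) = ev w t := by
    intro t
    rw [← ev_act hm.one]
    have h1 : tconj (ev (fun j => act (phM e0 w) (psM e0 w) (w j)) t) = _ :=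
      (ev_map (starRingEnd ℂ) (fun j => act (phM e0 w) (psM e0 w) (w j)) t).symm
    rw [h1]
    congr 1
    funext j
    exact hfix j
  have hall' : ∀ y ∈ Sp ℝ w P Q, tconj (act (phM e0 w) (psM e0 w) y) = y := by
    intro y hy
    unfold Sp at hy
    induction hy using Submodule.span_induction with
    | mem y hy =>
      obtain ⟨t, rfl⟩ := hy
      exact hall t
    | zero =>
      rw [act_zero]
      funext u v
      simp [tconj, tmap]
    | add a b _ _ ha hb => rw [act_add, tconj_add, ha, hb]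
    | smul c a _ ha =>
      rw [act_smul]
      conv_rhs => rw [← ha]
      funext u v
      simp [tconj, tmap]
  -- the end
  obtain ⟨X, hX, hXx⟩ := JJR_map1 (w := w) hx
  have hX2 : p2 X ∈ Sp ℝ w P Q := by
    have : ∀ X ∈ Sp ℝ (fun j => pr (a j) (w j)) P Q, p2 X ∈ Sp ℝ w P Q := by
      intro X hX
      unfold Sp at hX
      induction hX using Submodule.span_induction with
      | mem X hX =>
        obtain ⟨t, rfl⟩ := hX
        rw [p2_ev]
        exact ev_mem t
      | zero => exact Submodule.zero_mem _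
      | add x y _ _ hx hy => exact Submodule.add_mem _ hx hy
      | smul c x _ hx => exact Submodule.smul_mem _ c hx
    exact this X hX
  have h1 := form_same hs ha hm hX
  have h2 : dotT (p2 X) (act (phM e0 w) (psM e0 w) (p2 X)) = (nT (p2 X) : ℂ) := by
    have h5 := congrArg tconj (hall' _ hX2)
    rw [tconj_tconj] at h5
    rw [h5, ← hT_self]
    rfl
  rw [hXx] at h1
  rw [h1, h2]
  refine ⟨⟨_, nT_nonneg _, rfl⟩, fun h0 t => ?_⟩
  have h3 : p2 X = 0 := nT_eq_zero (by exact_mod_cast h0)
  have h4 := JJ_pair hs (JJR_le hX) (ev_mem t : ev (fun j => pr (a j) (w j)) t ∈ JJ a w Q P)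
  rw [hXx, p1_ev, h3, pairT_zero_left] at h4
  exact h4

end main

end Pool.Agent.Run7.h174
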