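import Mathlib

/-!
# The trace of an involution adapted to a nondegenerate form
-/

set_option autoImplicit false
set_option linter.unusedSectionVars false

open Finset Matrix

namespace Pool.Agent.Run7.h174

/-- The trace of an involution `A` for which the form `c` becomes positive after a twist by `A` is
the signature of the form. -/
theorem trace_of_sign {ι : Type} [Fintype ι] [DecidableEq ι] (A : Matrix ι ι ℝ) (hA : A * A = 1)
    (c : ι → ℝ) (hc : ∀ s, c s ≠ 0)
    (hpos : ∀ x : ι → ℝ, x ≠ 0 → 0 < ∑ s, c s * (x s * (A.mulVec x) s)) :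
    A.trace = ((univ.filter fun s => 0 < c s).card : ℝ) -
      ((univ.filter fun s => c s < 0).card : ℝ) := by
  set σ : (ι → ℝ) →ₗ[ℝ] (ι → ℝ) := A.mulVecLin with hσ
  have hσσ : ∀ x, σ (σ x) = x := by
    intro x
    rw [hσ, Matrix.mulVecLin_apply, Matrix.mulVecLin_apply, Matrix.mulVec_mulVec, hA,
      Matrix.one_mulVec]
  set Vp : Submodule ℝ (ι → ℝ) := LinearMap.ker (σ - LinearMap.id) with hVp
  set Vm : Submodule ℝ (ι → ℝ) := LinearMap.ker (σ + LinearMap.id) with hVm
  have mp : ∀ x, x ∈ Vp ↔ σ x = x := by
    intro x
    rw [hVp, LinearMap.mem_ker, LinearMap.sub_apply, LinearMap.id_apply, sub_eq_zero]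
  have mm : ∀ x, x ∈ Vm ↔ σ x = -x := by
    intro x
    rw [hVm, LinearMap.mem_ker, LinearMap.add_apply, LinearMap.id_apply, add_eq_zero_iff_eq_neg]
  set f : (ι → ℝ) →ₗ[ℝ] (ι → ℝ) := (1 / 2 : ℝ) • (LinearMap.id + σ) with hf
  set f' : (ι → ℝ) →ₗ[ℝ] (ι → ℝ) := (1 / 2 : ℝ) • (LinearMap.id - σ) with hf'
  have fa : ∀ x, f x = (1 / 2 : ℝ) • (x + σ x) := fun x => rfl
  have fa' : ∀ x, f' x = (1 / 2 : ℝ) • (x - σ x) := fun x => rfl
  have pf : LinearMap.IsProj Vp f := by
    refine ⟨fun x => ?_, fun x hx => ?_⟩
    · rw [mp, fa, map_smul, map_add, hσσ, add_comm]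
    · rw [mp] at hx
      rw [fa, hx, ← two_smul ℝ x, smul_smul]
      norm_num
  have pf' : LinearMap.IsProj Vm f' := by
    refine ⟨fun x => ?_, fun x hx => ?_⟩
    · rw [mm, fa', map_smul, map_sub, hσσ, ← smul_neg, neg_sub]
    · rw [mm] at hx
      rw [fa', hx, sub_neg_eq_add, ← two_smul ℝ x, smul_smul]
      norm_num
  have t1 := pf.trace
  have t2 := pf'.trace
  have t3 : LinearMap.trace ℝ (ι → ℝ) σ = A.trace := by
    rw [hσ, ← Matrix.toLin'_apply', Matrix.trace_toLin'_eq]
  have t4 : LinearMap.trace ℝ (ι → ℝ) LinearMap.id = (Fintype.card ι : ℝ) := by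
    rw [LinearMap.trace_id, Module.finrank_fintype_fun_eq_card]
  rw [hf, map_smul, map_add, t3, t4, smul_eq_mul] at t1
  rw [hf', map_smul, map_sub, t3, t4, smul_eq_mul] at t2
  -- the two inequalities
  have hp : (univ.filter fun s => 0 < c s).card ≤ Module.finrank ℝ Vp := by
    set E : ({s // 0 < c s} → ℝ) →ₗ[ℝ] (ι → ℝ) :=
      { toFun := fun x s => if h : 0 < c s then x ⟨s, h⟩ else 0
        map_add' := fun x y => by
          funext s
          by_cases h : 0 < c s <;> simp [h]
        map_smul' := fun r x => by
          funext s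
          by_cases h : 0 < c s <;> simp [h] } with hE
    have h1 : Function.Injective ((pf.codRestrict) ∘ₗ E) := by
      rw [← LinearMap.ker_eq_bot, LinearMap.ker_eq_bot']
      intro x hx
      have h2 : f (E x) = 0 := congrArg Subtype.val hx
      rw [fa, smul_eq_zero] at h2
      rcases h2 with h2 | h2
      · norm_num at h2
      have h3 : σ (E x) = -(E x) := by
        rw [add_comm] at h2
        exact add_eq_zero_iff_eq_neg.1 h2
      by_contra hx0
      have hE0 : E x ≠ 0 := by
        intro h0
        apply hx0
        funext s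
        have := congrFun h0 s.1
        change (if h : 0 < c s.1 then x ⟨s.1, h⟩ else 0) = 0 at this
        rwa [dif_pos s.2] at this
      have h4 := hpos (E x) hE0
      have h5 : A.mulVec (E x) = -(E x) := h3
      rw [h5] at h4
      have h6 : ∑ s, c s * (E x s * (-(E x)) s) ≤ 0 := by
        refine Finset.sum_nonpos fun s _ => ?_
        rw [Pi.neg_apply]
        by_cases h : 0 < c s
        · nlinarith [mul_self_nonneg (E x s), mul_nonneg h.le (mul_self_nonneg (E x s))]
        · have : E x s = 0 := dif_neg h
          rw [this]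
          simp
      linarith
    have h2 := LinearMap.finrank_le_finrank_of_injective h1
    rwa [Module.finrank_fintype_fun_eq_card, Fintype.card_subtype] at h2
  have hm : (univ.filter fun s => c s < 0).card ≤ Module.finrank ℝ Vm := by
    set E : ({s // c s < 0} → ℝ) →ₗ[ℝ] (ι → ℝ) :=
      { toFun := fun x s => if h : c s < 0 then x ⟨s, h⟩ else 0
        map_add' := fun x y => by
          funext s
          by_cases h : c s < 0 <;> simp [h]
        map_smul' := fun r x => by
          funext s
          by_cases h : c s < 0 <;> simp [h] } with hE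
    have h1 : Function.Injective ((pf'.codRestrict) ∘ₗ E) := by
      rw [← LinearMap.ker_eq_bot, LinearMap.ker_eq_bot']
      intro x hx
      have h2 : f' (E x) = 0 := congrArg Subtype.val hx
      rw [fa', smul_eq_zero] at h2
      rcases h2 with h2 | h2
      · norm_num at h2
      have h3 : σ (E x) = E x := (sub_eq_zero.1 h2).symm
      by_contra hx0
      have hE0 : E x ≠ 0 := by
        intro h0
        apply hx0
        funext s
        have := congrFun h0 s.1
        change (if h : c s.1 < 0 then x ⟨s.1, h⟩ else 0) = 0 at this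
        rwa [dif_pos s.2] at this
      have h4 := hpos (E x) hE0
      have h5 : A.mulVec (E x) = E x := h3
      rw [h5] at h4
      have h6 : ∑ s, c s * (E x s * (E x) s) ≤ 0 := by
        refine Finset.sum_nonpos fun s _ => ?_
        by_cases h : c s < 0
        · nlinarith [mul_self_nonneg (E x s), mul_nonneg (neg_pos.2 h).le
            (mul_self_nonneg (E x s))]
        · have : E x s = 0 := dif_neg h
          rw [this]
          simp
      linarith
    have h2 := LinearMap.finrank_le_finrank_of_injective h1
    rwa [Module.finrank_fintype_fun_eq_card, Fintype.card_subtype] at h2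
  have hcard : (univ.filter fun s => 0 < c s).card + (univ.filter fun s => c s < 0).card =
      Fintype.card ι := by
    rw [← Finset.card_univ, ← Finset.card_filter_add_card_filter_not (s := univ)
      (fun s => 0 < c s)]
    congr 2
    ext s
    simp only [mem_filter, mem_univ, true_and]
    constructor
    · intro h
      exact not_lt.2 h.le
    · intro h
      exact lt_of_le_of_ne (not_lt.1 h) (hc s)
  have hp' : ((univ.filter fun s => 0 < c s).card : ℝ) ≤ (Module.finrank ℝ Vp : ℝ) := by
    exact_mod_cast hp
  have hm' : ((univ.filter fun s => c s < 0).card : ℝ) ≤ (Module.finrank ℝ Vm : ℝ) := by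
    exact_mod_cast hm
  have hcard' : ((univ.filter fun s => 0 < c s).card : ℝ) +
      ((univ.filter fun s => c s < 0).card : ℝ) = (Fintype.card ι : ℝ) := by
    exact_mod_cast hcard
  linarith

end Pool.Agent.Run7.h174
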