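import Pool.Agent.Run7.h174.DimL
import Pool.Agent.Run7.h174.Sig

/-!
# The involution on the space of values of networks, and its trace
-/

set_option autoImplicit false
set_option linter.unusedSectionVars false

open Finset Matrix MeasureTheory Function

namespace Pool.Agent.Run7.h174

variable {B : Type} [Fintype B] [DecidableEq B]

section main

variable {I : Type} [Fintype I] {L : I → Type} [∀ i, Fintype (L i)] [∀ i, DecidableEq (L i)]
  {i0 : I} (e0 : L i0 ≃ Option Unit) {a w : ∀ j, Ten ℂ B (UA L j) (LC L j)}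
  {P Q : Type} [Fintype P] [DecidableEq P] [Fintype Q] [DecidableEq Q]

/-- the involution -/
noncomputable def sm (w : ∀ j, Ten ℂ B (UA L j) (LC L j)) (y : Ten ℂ B P Q) : Ten ℂ B P Q :=
  tconj (act (phM e0 w) (psM e0 w) y)

/-- the form -/
noncomputable def bw (w : ∀ j, Ten ℂ B (UA L j) (LC L j)) (y z : Ten ℂ B P Q) : ℂ :=
  dotT y (act (phM e0 w) (psM e0 w) z)

variable {e0}

lemma bw_eq_hT (y z : Ten ℂ B P Q) : bw e0 w y z = hT y (sm e0 w z) := by
  unfold bw sm hT
  rw [tconj_tconj]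

lemma sm_add (y z : Ten ℂ B P Q) : sm e0 w (y + z) = sm e0 w y + sm e0 w z := by
  unfold sm
  rw [act_add, tconj_add]

lemma sm_smul (r : ℝ) (y : Ten ℂ B P Q) : sm e0 w (r • y) = r • sm e0 w y := by
  unfold sm
  rw [act_smul]
  funext u v
  simp [tconj, tmap]

/-- the involution as a real linear map -/
noncomputable def smL (w : ∀ j, Ten ℂ B (UA L j) (LC L j)) : Ten ℂ B P Q →ₗ[ℝ] Ten ℂ B P Q where
  toFun := sm e0 w
  map_add' := sm_add
  map_smul' := sm_smul

lemma bw_add_left (x y z : Ten ℂ B P Q) : bw e0 w (x + y) z = bw e0 w x z + bw e0 w y z :=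
  dotT_add_left _ _ _

lemma bw_smul_left {S : Type*} [CommRing S] [Algebra S ℂ] (c : S) (x z : Ten ℂ B P Q) :
    bw e0 w (c • x) z = c • bw e0 w x z := dotT_smul_left _ _ _

lemma bw_add_right (x y z : Ten ℂ B P Q) : bw e0 w x (y + z) = bw e0 w x y + bw e0 w x z := by
  unfold bw
  rw [act_add, dotT_add_right]

lemma bw_smul_right {S : Type*} [CommRing S] [Algebra S ℂ] (c : S) (x z : Ten ℂ B P Q) :
    bw e0 w x (c • z) = c • bw e0 w x z := by
  unfold bw
  rw [act_smul, dotT_smul_right]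

lemma bw_zero_left (z : Ten ℂ B P Q) : bw e0 w 0 z = 0 := dotT_zero_left _

lemma bw_zero_right (z : Ten ℂ B P Q) : bw e0 w z 0 = 0 := by
  unfold bw
  rw [act_zero, dotT_zero_right]

lemma bw_sum_left {ι : Type} (s : Finset ι) (x : ι → Ten ℂ B P Q) (z : Ten ℂ B P Q) :
    bw e0 w (∑ i ∈ s, x i) z = ∑ i ∈ s, bw e0 w (x i) z := by
  classical
  induction s using Finset.induction_on with
  | empty => rw [Finset.sum_empty, Finset.sum_empty, bw_zero_left]
  | insert i s hi ih => rw [Finset.sum_insert hi, Finset.sum_insert hi, bw_add_left, ih]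

lemma bw_sum_right {ι : Type} (s : Finset ι) (x : ι → Ten ℂ B P Q) (z : Ten ℂ B P Q) :
    bw e0 w z (∑ i ∈ s, x i) = ∑ i ∈ s, bw e0 w z (x i) := by
  classical
  induction s using Finset.induction_on with
  | empty => rw [Finset.sum_empty, Finset.sum_empty, bw_zero_right]
  | insert i s hi ih => rw [Finset.sum_insert hi, Finset.sum_insert hi, bw_add_right, ih]

/-- The form of a pair. -/
lemma form_same2 (hs : Same a w) (ha : Met e0 a) (hw : Met e0 w) {X Y : Ten (ℂ × ℂ) B P Q}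
    (hX : X ∈ Sp ℝ (fun j => pr (a j) (w j)) P Q) (hY : Y ∈ Sp ℝ (fun j => pr (a j) (w j)) P Q) :
    bw e0 a (p1 X) (p1 Y) = bw e0 w (p2 X) (p2 Y) := by
  obtain ⟨Z, hZ, h1, h2⟩ := lowJ ha hw hY
  have h3 := JJ_pair hs (JJR_le hX) (JJR_le hZ)
  rw [h1, h2] at h3
  exact h3

lemma JJR_p2 {X : Ten (ℂ × ℂ) B P Q} (hX : X ∈ Sp ℝ (fun j => pr (a j) (w j)) P Q) :
    p2 X ∈ Sp ℝ w P Q := by
  unfold Sp at hX
  induction hX using Submodule.span_induction with
  | mem X hX =>
    obtain ⟨t, rfl⟩ := hX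
    rw [p2_ev]
    exact ev_mem t
  | zero => exact Submodule.zero_mem _
  | add x y _ _ hx hy => exact Submodule.add_mem _ hx hy
  | smul c x _ hx => exact Submodule.smul_mem _ c hx

lemma sm_mem (hr : ∀ t : Net (UA L) (LC L) Empty Empty, starRingEnd ℂ (cv a t) = cv a t)
    (hw : IsMin a w) (hm : Met e0 w) {y : Ten ℂ B P Q} (hy : y ∈ Sp ℝ w P Q) :
    sm e0 w y ∈ Sp ℝ w P Q := tstar_real hr hw (hm.low_mem hy)

lemma sm_sm (hw : IsMin a w) (hm : Met e0 w) {y : Ten ℂ B P Q} (hy : y ∈ Sp ℂ w P Q) :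
    sm e0 w (sm e0 w y) = y := hm.invol hw hy

lemma bw_sm (hw : IsMin a w) (hm : Met e0 w) {y : Ten ℂ B P Q} (hy : y ∈ Sp ℂ w P Q) :
    bw e0 w y (sm e0 w y) = (nT y : ℂ) := by
  rw [bw_eq_hT, sm_sm hw hm hy, hT_self]

/-- The involution is given by a unitary matrix. -/
theorem exists_g (hr : ∀ t : Net (UA L) (LC L) Empty Empty, starRingEnd ℂ (cv a t) = cv a t)
    (hw : IsMin a w) (hm : Met e0 w) : ∃ g : UU B, ∀ (P Q : Type) [Fintype P] [DecidableEq P]
      [Fintype Q] [DecidableEq Q] (y : Ten ℂ B P Q), y ∈ Sp ℝ w P Q →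
      uact (g : Matrix B B ℂ) y = sm e0 w y := by
  obtain ⟨k1, hk1⟩ := unitary_equiv hw (isMin_conj hr hw)
  obtain ⟨k2, hk2⟩ := unitary_equiv hw (hm.flp_isMin hw)
  have hk2c : cjm (k2 : Matrix B B ℂ) ∈ Matrix.unitaryGroup B ℂ := by
    rw [Matrix.mem_unitaryGroup_iff']
    have h1 := unitary_two k2.2
    have h2 : star (cjm (k2 : Matrix B B ℂ)) = (k2 : Matrix B B ℂ).transpose := by
      ext i j
      simp [cjm, Matrix.star_apply]
    rw [h2]
    exact unitary_one k2.2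
  refine ⟨⟨_, hk2c⟩ * k1, fun P Q _ _ _ _ y hy => ?_⟩
  have hmat : (((⟨_, hk2c⟩ * k1 : UU B)) : Matrix B B ℂ) =
    cjm (k2 : Matrix B B ℂ) * (k1 : Matrix B B ℂ) := rfl
  rw [hmat]
  have hlin : ∀ (r : ℝ) (z : Ten ℂ B P Q), uact (cjm (k2 : Matrix B B ℂ) *
      (k1 : Matrix B B ℂ)) (r • z) = r • uact (cjm (k2 : Matrix B B ℂ) *
      (k1 : Matrix B B ℂ)) z := fun r z => act_smul _ _ _ _
  unfold Sp at hy
  induction hy using Submodule.span_induction with
  | mem y hy =>
    obtain ⟨t, rfl⟩ := hy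
    beta_reduce
    have h1 : uact (k1 : Matrix B B ℂ) (ev w t) = tconj (ev w t) := by
      have e1 := ev_act (unitary_one k1.2) w t
      have e2 : (fun j => act (k1 : Matrix B B ℂ) (cjm (k1 : Matrix B B ℂ)) (w j)) =
          fun j => tconj (w j) := funext fun j => (hk1 j).symm
      rw [e2] at e1
      have e3 : ev (fun j => tconj (w j)) t = tconj (ev w t) := ev_map _ w t
      rw [e3] at e1
      exact e1.symm
    have h2 : uact (k2 : Matrix B B ℂ) (ev w t) = act (phM e0 w) (psM e0 w) (ev w t) := by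
      have e1 := ev_act (unitary_one k2.2) w t
      have e2 : (fun j => act (k2 : Matrix B B ℂ) (cjm (k2 : Matrix B B ℂ)) (w j)) =
          fun j => act (phM e0 w) (psM e0 w) (w j) :=
        funext fun j => (hk2 j).symm.trans (hm.flp j)
      rw [e2, ev_act hm.one] at e1
      exact e1.symm
    rw [uact_mul, h1]
    unfold sm
    rw [← h2]
    have h3 : tconj (uact (k2 : Matrix B B ℂ) (ev w t)) =
        uact (cjm (k2 : Matrix B B ℂ)) (tconj (ev w t)) := tconj_act _ _ _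
    exact h3.symm
  | zero =>
    have : uact (cjm (k2 : Matrix B B ℂ) * (k1 : Matrix B B ℂ)) (0 : Ten ℂ B P Q) = 0 :=
      act_zero _ _
    rw [this]
    exact ((smL (e0 := e0) (P := P) (Q := Q) w).map_zero).symm
  | add y z _ _ hy hz =>
    have : uact (cjm (k2 : Matrix B B ℂ) * (k1 : Matrix B B ℂ)) (y + z) =
      uact (cjm (k2 : Matrix B B ℂ) * (k1 : Matrix B B ℂ)) y +
      uact (cjm (k2 : Matrix B B ℂ) * (k1 : Matrix B B ℂ)) z := act_add _ _ _ _
    rw [this, hy, hz, sm_add]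
  | smul r y _ hy => rw [hlin, hy, sm_smul]

end main

end Pool.Agent.Run7.h174
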