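import Pool.Agent.Run7.h174.Abs

/-!
# The signature of the form on the values of networks
-/

set_option autoImplicit false
set_option linter.unusedSectionVars false

open Finset Matrix MeasureTheory Function

namespace Pool.Agent.Run7.h174

variable {B : Type} [Fintype B] [DecidableEq B]

section main

variable {I : Type} [Fintype I] {L : I → Type} [∀ i, Fintype (L i)] [∀ i, DecidableEq (L i)]
  {i0 : I} (e0 : L i0 ≃ Option Unit) {a w : ∀ j, Ten ℂ B (UA L j) (LC L j)}
  {P Q : Type} [Fintype P] [DecidableEq P] [Fintype Q] [DecidableEq Q]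

/-- A complete orthogonal family for the form. -/
structure OrF {ι : Type} [DecidableEq ι] (a : ∀ j, Ten ℂ B (UA L j) (LC L j))
    (x : ι → Ten ℂ B P Q) (c : ι → ℝ) : Prop where
  mem : ∀ s, x s ∈ Sp ℝ a P Q
  ne : ∀ s, c s ≠ 0
  form : ∀ s t, bw e0 a (x s) (x t) = if s = t then (c s : ℂ) else 0
  max : ∀ y ∈ Sp ℝ a P Q, (∀ s, bw e0 a y (x s) = 0) →
    ∀ t : Net (UA L) (LC L) Q P, pairT y (ev a t) = 0

variable {e0} {ι : Type} [Fintype ι] [DecidableEq ι]

/-- Transfer of a complete orthogonal family to a minimal tuple. -/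
lemma OrF.transfer (hw : IsMin a w) (ha : Met e0 a) (hm : Met e0 w) {x : ι → Ten ℂ B P Q}
    {c : ι → ℝ} (h : OrF e0 a x c) : ∃ y : ι → Ten ℂ B P Q, OrF e0 w y c := by
  have hs : Same a w := hw.1.symm
  choose X hX hX1 using fun s => JJR_map1 (w := w) (h.mem s)
  refine ⟨fun s => p2 (X s), fun s => JJR_p2 (hX s), h.ne, fun s t => ?_, fun y hy h0 t => ?_⟩
  · rw [← form_same2 hs ha hm (hX s) (hX t), hX1, hX1, h.form]
  · obtain ⟨Y, hY, rfl⟩ := JJR_map2 (a := a) hy
    have h1 := h.max (p1 Y) (JJR_p1 hY) (fun s => by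
      rw [← hX1, form_same2 hs ha hm hY (hX s)]
      exact h0 s) t
    have h2 := JJ_pair hs (JJR_le hY) (ev_mem t : ev (fun j => pr (a j) (w j)) t ∈ JJ a w Q P)
    rw [p1_ev, p2_ev, h1] at h2
    exact h2.symm

/-- Expansion in a complete orthogonal family. -/
lemma OrF.expand (hr : ∀ t : Net (UA L) (LC L) Empty Empty, starRingEnd ℂ (cv a t) = cv a t)
    (hw : IsMin a w) (hm : Met e0 w) {y : ι → Ten ℂ B P Q} {c : ι → ℝ} (h : OrF e0 w y c)
    {v : Ten ℂ B P Q} (hv : v ∈ Sp ℝ w P Q) :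
    v = ∑ s, ((bw e0 w v (y s)).re / c s) • y s := by
  have hreal : ∀ s, ((bw e0 w v (y s)).re : ℂ) = bw e0 w v (y s) := by
    intro s
    rw [bw_eq_hT]
    exact Complex.conj_eq_iff_re.1 (gram_real_sp hr hw hv (sm_mem hr hw hm (h.mem s)))
  set v' : Ten ℂ B P Q := v + (-1 : ℝ) • ∑ s, ((bw e0 w v (y s)).re / c s) • y s with hv'
  have hmem : v' ∈ Sp ℝ w P Q := Submodule.add_mem _ hv (Submodule.smul_mem _ _
    (Submodule.sum_mem _ fun s _ => Submodule.smul_mem _ _ (h.mem s)))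
  have h0 : ∀ s, bw e0 w v' (y s) = 0 := by
    intro s
    rw [hv', bw_add_left, bw_smul_left, bw_sum_left, Finset.sum_eq_single s]
    · rw [bw_smul_left, h.form, if_pos rfl, Complex.real_smul, Complex.real_smul,
        Complex.ofReal_div, hreal s]
      have : (c s : ℂ) ≠ 0 := by exact_mod_cast h.ne s
      rw [div_mul_cancel₀ _ this]
      push_cast
      ring
    · intro t _ ht
      rw [bw_smul_left, h.form, if_neg ht, smul_zero]
    · intro h; exact absurd (Finset.mem_univ _) h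
  have h1 := hw.nondeg (Sp_real_le hmem) (h.max v' hmem h0)
  rw [hv', neg_one_smul, ← sub_eq_add_neg, sub_eq_zero] at h1
  exact h1

/-- the matrix of the involution -/
noncomputable def mA (w : ∀ j, Ten ℂ B (UA L j) (LC L j)) (y : ι → Ten ℂ B P Q) (c : ι → ℝ) :
    Matrix ι ι ℝ := fun t s => (bw e0 w (sm e0 w (y s)) (y t)).re / c t

lemma OrF.sm_expand (hr : ∀ t : Net (UA L) (LC L) Empty Empty, starRingEnd ℂ (cv a t) = cv a t)
    (hw : IsMin a w) (hm : Met e0 w) {y : ι → Ten ℂ B P Q} {c : ι → ℝ} (h : OrF e0 w y c)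
    (s : ι) : sm e0 w (y s) = ∑ t, mA (e0 := e0) w y c t s • y t :=
  h.expand hr hw hm (sm_mem hr hw hm (h.mem s))

lemma OrF.sm_sum (hr : ∀ t : Net (UA L) (LC L) Empty Empty, starRingEnd ℂ (cv a t) = cv a t)
    (hw : IsMin a w) (hm : Met e0 w) {y : ι → Ten ℂ B P Q} {c : ι → ℝ} (h : OrF e0 w y c)
    (r : ι → ℝ) : sm e0 w (∑ s, r s • y s) =
      ∑ t, (mA (e0 := e0) w y c).mulVec r t • y t := by
  have h1 : sm e0 w (∑ s, r s • y s) = ∑ s, r s • sm e0 w (y s) := by
    have := map_sum (smL (e0 := e0) (P := P) (Q := Q) w) (fun s => r s • y s) Finset.univ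
    simp only [map_smul] at this
    exact this
  rw [h1]
  simp only [h.sm_expand hr hw hm, Finset.smul_sum, Matrix.mulVec, dotProduct, Finset.sum_smul]
  rw [Finset.sum_comm]
  refine Finset.sum_congr rfl fun t _ => Finset.sum_congr rfl fun s _ => ?_
  rw [smul_smul, mul_comm]

/-- Complex linear independence. -/
lemma OrF.indep {y : ι → Ten ℂ B P Q} {c : ι → ℝ} (h : OrF e0 w y c) {r : ι → ℂ}
    (h0 : ∑ s, r s • y s = 0) (t : ι) : r t = 0 := by
  have h1 := congrArg (fun z => bw e0 w z (y t)) h0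
  simp only [bw_sum_left, bw_smul_left, h.form, bw_zero_left] at h1
  rw [Finset.sum_eq_single t] at h1
  · rw [if_pos rfl, smul_eq_mul] at h1
    rcases mul_eq_zero.1 h1 with h2 | h2
    · exact h2
    · exact absurd (by exact_mod_cast h2) (h.ne t)
  · intro s _ hs
    rw [if_neg hs, smul_zero]
  · intro h; exact absurd (Finset.mem_univ _) h

lemma real_sum_cast (r : ι → ℝ) (y : ι → Ten ℂ B P Q) :
    ∑ s, r s • y s = ∑ s, (r s : ℂ) • y s := by
  refine Finset.sum_congr rfl fun s _ => ?_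
  funext u v
  simp

lemma OrF.indep_real {y : ι → Ten ℂ B P Q} {c : ι → ℝ} (h : OrF e0 w y c) {r r' : ι → ℝ}
    (h0 : ∑ s, r s • y s = ∑ s, r' s • y s) : r = r' := by
  funext t
  rw [real_sum_cast, real_sum_cast, ← sub_eq_zero, ← Finset.sum_sub_distrib] at h0
  simp only [← sub_smul] at h0
  have h1 := h.indep h0 t
  rw [sub_eq_zero] at h1
  exact_mod_cast h1

/-- **The trace of the matrix of the involution is the signature.** -/
theorem OrF.trace_mA (hr : ∀ t : Net (UA L) (LC L) Empty Empty,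
      starRingEnd ℂ (cv a t) = cv a t)
    (hw : IsMin a w) (hm : Met e0 w) {y : ι → Ten ℂ B P Q} {c : ι → ℝ} (h : OrF e0 w y c) :
    (mA (e0 := e0) w y c).trace = ((univ.filter fun s => 0 < c s).card : ℝ) -
      ((univ.filter fun s => c s < 0).card : ℝ) := by
  refine trace_of_sign _ ?_ c h.ne ?_
  · ext t s
    have h1 : sm e0 w (sm e0 w (y s)) = y s := sm_sm hw hm (Sp_real_le (h.mem s))
    rw [h.sm_expand hr hw hm, h.sm_sum hr hw hm] at h1
    have h2 : y s = ∑ t, (Pi.single s (1 : ℝ) : ι → ℝ) t • y t := by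
      rw [Finset.sum_eq_single s]
      · rw [Pi.single_eq_same, one_smul]
      · intro t _ ht
        rw [Pi.single_eq_of_ne ht, zero_smul]
      · intro h; exact absurd (Finset.mem_univ _) h
    rw [h2] at h1
    have h3 := congrFun (h.indep_real h1) t
    rw [Matrix.mul_apply]
    change ∑ j, mA (e0 := e0) w y c t j * mA (e0 := e0) w y c j s = _ at h3
    rw [h3, Matrix.one_apply, Pi.single_apply]
  · intro x hx
    set v : Ten ℂ B P Q := ∑ s, x s • y s with hv
    have hvm : v ∈ Sp ℝ w P Q :=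
      Submodule.sum_mem _ fun s _ => Submodule.smul_mem _ _ (h.mem s)
    have h1 := bw_sm hw hm (Sp_real_le hvm)
    have h2 : bw e0 w v (sm e0 w v) =
        ((∑ s, c s * (x s * ((mA (e0 := e0) w y c).mulVec x) s) : ℝ) : ℂ) := by
      rw [hv, h.sm_sum hr hw hm, bw_sum_left]
      push_cast
      refine Finset.sum_congr rfl fun s _ => ?_
      rw [bw_smul_left, bw_sum_right, Finset.sum_eq_single s]
      · rw [bw_smul_right, h.form, if_pos rfl, Complex.real_smul, Complex.real_smul]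
        ring
      · intro t _ ht
        rw [bw_smul_right, h.form, if_neg (Ne.symm ht), smul_zero]
      · intro h; exact absurd (Finset.mem_univ _) h
    rw [h2] at h1
    have h3 : ∑ s, c s * (x s * ((mA (e0 := e0) w y c).mulVec x) s) = nT v := by
      exact_mod_cast h1
    rw [h3]
    refine lt_of_le_of_ne (nT_nonneg v) fun h0 => hx ?_
    have h4 : v = 0 := nT_eq_zero h0.symm
    have h5 : ∑ s, x s • y s = ∑ s, (0 : ι → ℝ) s • y s := by
      rw [← hv, h4]
      simp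
    exact h.indep_real h5

/-- the basis -/
noncomputable def OrF.basis (hr : ∀ t : Net (UA L) (LC L) Empty Empty,
      starRingEnd ℂ (cv a t) = cv a t) (hw : IsMin a w) (hm : Met e0 w)
    {y : ι → Ten ℂ B P Q} {c : ι → ℝ} (h : OrF e0 w y c) :
    Module.Basis ι ℂ (Sp ℂ w P Q) :=
  Module.Basis.mk (v := fun s => (⟨y s, Sp_real_le (h.mem s)⟩ : Sp ℂ w P Q))
    (by
      rw [Fintype.linearIndependent_iff]
      intro r h0 t
      refine h.indep (r := r) ?_ t
      have := congrArg Subtype.val h0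
      simpa using this)
    (by
      rintro ⟨v, hv⟩ _
      obtain ⟨v1, h1, v2, h2, rfl⟩ := Sp_real_decomp hv
      have key : ∀ v (hv : v ∈ Sp ℝ w P Q), (⟨v, Sp_real_le hv⟩ : Sp ℂ w P Q) ∈
          Submodule.span ℂ (Set.range fun s => (⟨y s, Sp_real_le (h.mem s)⟩ : Sp ℂ w P Q)) := by
        intro v hv
        have e1 := h.expand hr hw hm hv
        rw [real_sum_cast] at e1
        have e2 : (⟨v, Sp_real_le hv⟩ : Sp ℂ w P Q) = ∑ s,
            (((bw e0 w v (y s)).re / c s : ℝ) : ℂ) •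
              (⟨y s, Sp_real_le (h.mem s)⟩ : Sp ℂ w P Q) := by
          apply Subtype.ext
          rw [Submodule.coe_sum]
          exact e1
        rw [e2]
        exact Submodule.sum_mem _ fun s _ => Submodule.smul_mem _ _
          (Submodule.subset_span ⟨s, rfl⟩)
      have e3 : (⟨v1 + Complex.I • v2, hv⟩ : Sp ℂ w P Q) = ⟨v1, Sp_real_le h1⟩ +
          Complex.I • ⟨v2, Sp_real_le h2⟩ := rfl
      rw [e3]
      exact Submodule.add_mem _ (key v1 h1) (Submodule.smul_mem _ _ (key v2 h2)))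

lemma OrF.basis_apply (hr : ∀ t : Net (UA L) (LC L) Empty Empty,
      starRingEnd ℂ (cv a t) = cv a t) (hw : IsMin a w) (hm : Met e0 w)
    {y : ι → Ten ℂ B P Q} {c : ι → ℝ} (h : OrF e0 w y c) (s : ι) :
    h.basis hr hw hm s = ⟨y s, Sp_real_le (h.mem s)⟩ := by
  unfold OrF.basis
  rw [Module.Basis.mk_apply]

end main

section fin

variable {I : Type} [Fintype I] {L : I → Type} [∀ i, Fintype (L i)] [∀ i, DecidableEq (L i)]
  {i0 : I} {e0 : L i0 ≃ Option Unit} {a w : ∀ j, Ten ℂ B (UA L j) (LC L j)}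
  {ι : Type} [Fintype ι] [DecidableEq ι]

/-- **The signature of the form on the tensors with `n` legs.** -/
theorem sig_bound (hr : ∀ t : Net (UA L) (LC L) Empty Empty, starRingEnd ℂ (cv a t) = cv a t)
    (ha : Met e0 a) {n : ℕ} {x : ι → Ten ℂ B (Fin n) Empty} {c : ι → ℝ} (h : OrF e0 a x c)
    {η : Ten ℂ B (Fin 1) Empty} (hη : η ∈ Sp ℝ a (Fin 1) Empty) (hη0 : 0 < (bw e0 a η η).re)
    {n0 : ℕ} (hn0 : 0 < n0) {ζ : Ten ℂ B (Fin n0) Empty} (hζ : ζ ∈ Sp ℝ a (Fin n0) Empty)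
    (hζ0 : (bw e0 a ζ ζ).re ≤ 0) (hζ1 : ∃ t : Net (UA L) (LC L) Empty (Fin n0),
      pairT ζ (ev a t) ≠ 0) :
    |((univ.filter fun s => 0 < c s).card : ℝ) - ((univ.filter fun s => c s < 0).card : ℝ)| ≤
      ((Fintype.card B : ℝ) - 2 / ((n0 : ℝ) ^ 2 * (1 + Real.sqrt (Fintype.card B)) ^ 2)) ^ n := by
  obtain ⟨w, hw⟩ := exists_min a
  have hm := ha.transfer hw
  have hs : Same a w := hw.1.symm
  obtain ⟨y, hy⟩ := h.transfer hw ha hm
  obtain ⟨g, hg⟩ := exists_g hr hw hm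
  -- the two eigenvectors
  obtain ⟨η', hη'0, hη'm, hη'⟩ : ∃ η' : Ten ℂ B (Fin 1) Empty, η' ≠ 0 ∧
      η' ∈ Sp ℝ w (Fin 1) Empty ∧ sm e0 w η' = η' := by
    obtain ⟨Y, hY, rfl⟩ := JJR_map1 (w := w) hη
    have hYm := JJR_p2 hY
    rw [form_same2 hs ha hm hY hY] at hη0
    refine ⟨p2 Y + sm e0 w (p2 Y), fun h0 => ?_, Submodule.add_mem _ hYm (sm_mem hr hw hm hYm),
      ?_⟩
    · have h1 : sm e0 w (p2 Y) = (-1 : ℝ) • p2 Y := by
        rw [neg_one_smul]
        exact (neg_eq_of_add_eq_zero_right h0).symm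
      have h2 : hT (p2 Y) (sm e0 w (p2 Y)) = ((-nT (p2 Y) : ℝ) : ℂ) := by
        rw [h1, show (-1 : ℝ) • p2 Y = (-1 : ℂ) • p2 Y by
          rw [neg_one_smul, neg_one_smul], hT_smul_right, hT_self]
        simp
      rw [bw_eq_hT, h2, Complex.ofReal_re] at hη0
      linarith [nT_nonneg (p2 Y)]
    · rw [sm_add, sm_sm hw hm (Sp_real_le hYm), add_comm]
  obtain ⟨ζ', hζ'0, hζ'm, hζ'⟩ : ∃ ζ' : Ten ℂ B (Fin n0) Empty, ζ' ≠ 0 ∧
      ζ' ∈ Sp ℝ w (Fin n0) Empty ∧ sm e0 w ζ' = (-1 : ℝ) • ζ' := by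
    obtain ⟨Y, hY, rfl⟩ := JJR_map1 (w := w) hζ
    have hYm := JJR_p2 hY
    rw [form_same2 hs ha hm hY hY] at hζ0
    have hne : p2 Y ≠ 0 := by
      intro h0
      obtain ⟨t, ht⟩ := hζ1
      apply ht
      have h2 := JJ_pair hs (JJR_le hY) (ev_mem t : ev (fun j => pr (a j) (w j)) t ∈
        JJ a w Empty (Fin n0))
      rw [p1_ev, h0, pairT_zero_left] at h2
      exact h2
    refine ⟨p2 Y + (-1 : ℝ) • sm e0 w (p2 Y), fun h0 => ?_, Submodule.add_mem _ hYm
      (Submodule.smul_mem _ _ (sm_mem hr hw hm hYm)), ?_⟩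
    · have h1 : sm e0 w (p2 Y) = p2 Y := by
        rw [neg_one_smul, ← sub_eq_add_neg, sub_eq_zero] at h0
        exact h0.symm
      rw [bw_eq_hT, h1, hT_self, Complex.ofReal_re] at hζ0
      exact hne (nT_eq_zero (le_antisymm hζ0 (nT_nonneg _)))
    · rw [sm_add, sm_smul, sm_sm hw hm (Sp_real_le hYm), smul_add, smul_smul]
      norm_num
      rw [add_comm]
  -- the group elements
  have hbound : ∀ k : stb w, ‖((g : Matrix B B ℂ) * mk w k).trace‖ ≤
      (Fintype.card B : ℝ) - 2 / ((n0 : ℝ) ^ 2 * (1 + Real.sqrt (Fintype.card B)) ^ 2) := by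
    intro k
    refine trace_bound (η := η') (ζ := ζ') (Submonoid.mul_mem _ g.2 k.1.2) hη'0 ?_ hn0 hζ'0 ?_
    · rw [uact_mul, uact_sp k.2 (Sp_real_le hη'm), hg _ _ _ hη'm, hη']
    · rw [uact_mul, uact_sp k.2 (Sp_real_le hζ'm), hg _ _ _ hζ'm, hζ', neg_one_smul,
        neg_one_smul]
  -- the trace
  have hgm : ∀ v ∈ Sp ℂ w (Fin n) Empty, actL (g : Matrix B B ℂ) (cjm (g : Matrix B B ℂ)) v ∈
      Sp ℂ w (Fin n) Empty := by
    intro v hv
    obtain ⟨v1, h1, v2, h2, rfl⟩ := Sp_real_decomp hv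
    rw [map_add, map_smul]
    have e : ∀ v ∈ Sp ℝ w (Fin n) Empty, actL (g : Matrix B B ℂ) (cjm (g : Matrix B B ℂ)) v ∈
        Sp ℂ w (Fin n) Empty := by
      intro v hv
      change uact (g : Matrix B B ℂ) v ∈ _
      rw [hg _ _ v hv]
      exact Sp_real_le (sm_mem hr hw hm hv)
    exact Submodule.add_mem _ (e v1 h1) (Submodule.smul_mem _ _ (e v2 h2))
  have h1 := trace_formula hw (g : Matrix B B ℂ) n hgm
  have h2 : LinearMap.trace ℂ (Sp ℂ w (Fin n) Empty)
      ((actL (g : Matrix B B ℂ) (cjm (g : Matrix B B ℂ))).restrict hgm) =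
      ((mA (e0 := e0) w y c).trace : ℂ) := by
    rw [LinearMap.trace_eq_matrix_trace ℂ (hy.basis hr hw hm), Matrix.trace, Matrix.trace,
      Complex.ofReal_sum]
    refine Finset.sum_congr rfl fun s _ => ?_
    rw [Matrix.diag_apply, Matrix.diag_apply, LinearMap.toMatrix_apply]
    have h3 : ((actL (g : Matrix B B ℂ) (cjm (g : Matrix B B ℂ))).restrict hgm)
        (hy.basis hr hw hm s) = ∑ t, ((mA (e0 := e0) w y c t s : ℝ) : ℂ) •
          hy.basis hr hw hm t := by
      apply Subtype.ext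
      rw [Submodule.coe_sum]
      simp only [OrF.basis_apply]
      change uact (g : Matrix B B ℂ) (y s) = ∑ t, ((mA (e0 := e0) w y c t s : ℝ) : ℂ) • y t
      rw [hg _ _ _ (hy.mem s), hy.sm_expand hr hw hm s, real_sum_cast]
    rw [h3, Module.Basis.repr_sum_self]
  rw [h2, hy.trace_mA hr hw hm] at h1
  have h3 : |((univ.filter fun s => 0 < c s).card : ℝ) -
      ((univ.filter fun s => c s < 0).card : ℝ)| =
      ‖∫ k : stb w, ((g : Matrix B B ℂ) * mk w k).trace ^ n ∂(muK w)‖ := by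
    rw [← h1, Complex.norm_real, Real.norm_eq_abs]
  rw [h3]
  have h4 := norm_integral_le_of_norm_le_const (μ := muK w) (f := fun k : stb w =>
    ((g : Matrix B B ℂ) * mk w k).trace ^ n) (Filter.Eventually.of_forall fun k => by
      rw [norm_pow]
      exact pow_le_pow_left₀ (norm_nonneg _) (hbound k) n)
  rw [probReal_univ, mul_one] at h4
  exact h4

/-- **The rank of the form on the tensors with `n` legs.** -/
theorem rank_bound (hr : ∀ t : Net (UA L) (LC L) Empty Empty, starRingEnd ℂ (cv a t) = cv a t)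
    (ha : Met e0 a) {n : ℕ} (hn : 0 < n) {x : ι → Ten ℂ B (Fin n) Empty} {c : ι → ℝ}
    (h : OrF e0 a x c) {η : Ten ℂ B (Fin 1) Empty} (hη : η ∈ Sp ℝ a (Fin 1) Empty)
    (hη0 : 0 < (bw e0 a η η).re) :
    (Fintype.card B : ℝ) ^ n ≤ 2 * (Fintype.card B : ℝ) * (2 * dC B * n) ^ dE B *
      Fintype.card ι := by
  obtain ⟨w, hw⟩ := exists_min a
  have hm := ha.transfer hw
  have hs : Same a w := hw.1.symm
  obtain ⟨y, hy⟩ := h.transfer hw ha hm
  obtain ⟨Y, hY, rfl⟩ := JJR_map1 (w := w) hη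
  have hYm := JJR_p2 hY
  rw [form_same2 hs ha hm hY hY] at hη0
  have hne : p2 Y ≠ 0 := by
    intro h0
    rw [h0, bw_zero_left] at hη0
    simp at hη0
  have h1 := dim_lower hw hm hne (Sp_real_le hYm) hn
  rwa [Module.finrank_eq_card_basis (hy.basis hr hw hm)] at h1

end fin

end Pool.Agent.Run7.h174
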