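import Pool.Agent.Run7.h174.Ops

/-!
# The action of matrices on tensors
-/

set_option autoImplicit false
set_option linter.unusedSectionVars false

open Finset

universe u u'

namespace Pool.Agent.Run7.h174

section act

variable {R : Type u} [CommRing R] {B P Q P' Q' : Type} [Fintype B] [DecidableEq B]
  [Fintype P] [DecidableEq P] [Fintype Q] [DecidableEq Q]

/-- The action of the matrix `g` on the upper and of `g'` on the lower legs. -/
def act (g g' : Matrix B B R) (x : Ten R B P Q) : Ten R B P Q :=
  fun u v => ∑ a : P → B, ∑ c : Q → B,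
    (∏ p, g (u p) (a p)) * (∏ q, g' (v q) (c q)) * x a c

lemma sum_prod_mat {S : Type} [Fintype S] [DecidableEq S] (g h : Matrix B B R) (u v : S → B) :
    ∑ a : S → B, (∏ p, g (u p) (a p)) * (∏ p, h (a p) (v p)) = ∏ p, (g * h) (u p) (v p) := by
  simp only [← Finset.prod_mul_distrib, Matrix.mul_apply]
  rw [Finset.prod_univ_sum, Fintype.piFinset_univ]

lemma prod_one_apply {S : Type} [Fintype S] (u v : S → B) :
    ∏ p, (1 : Matrix B B R) (u p) (v p) = if u = v then 1 else 0 := by
  classical
  by_cases h : u = v
  · subst h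
    simp
  · rw [if_neg h]
    obtain ⟨p, hp⟩ := Function.ne_iff.1 h
    exact Finset.prod_eq_zero (Finset.mem_univ p) (Matrix.one_apply_ne hp)

lemma act_add (g g' : Matrix B B R) (x y : Ten R B P Q) :
    act g g' (x + y) = act g g' x + act g g' y := by
  funext u v
  simp [act, mul_add, Finset.sum_add_distrib]

lemma act_smul {S : Type*} [CommRing S] [Algebra S R] (g g' : Matrix B B R) (c : S)
    (x : Ten R B P Q) : act g g' (c • x) = c • act g g' x := by
  funext u v
  simp [act, Finset.smul_sum]

lemma act_zero (g g' : Matrix B B R) : act g g' (0 : Ten R B P Q) = 0 := by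
  funext u v
  simp [act]

/-- the action as a linear map -/
def actL (g g' : Matrix B B R) : Ten R B P Q →ₗ[R] Ten R B P Q where
  toFun := act g g'
  map_add' := act_add g g'
  map_smul' := act_smul g g'

lemma act_act (g g' h h' : Matrix B B R) (x : Ten R B P Q) :
    act g g' (act h h' x) = act (g * h) (g' * h') x := by
  funext u v
  unfold act
  calc ∑ a : P → B, ∑ c : Q → B, (∏ p, g (u p) (a p)) * (∏ q, g' (v q) (c q)) *
        ∑ a' : P → B, ∑ c' : Q → B, (∏ p, h (a p) (a' p)) * (∏ q, h' (c q) (c' q)) * x a' c'
      = ∑ a : P → B, ∑ c : Q → B, ∑ a' : P → B, ∑ c' : Q → B,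
        (∏ p, g (u p) (a p)) * (∏ p, h (a p) (a' p)) *
        ((∏ q, g' (v q) (c q)) * (∏ q, h' (c q) (c' q))) * x a' c' := by
        refine Finset.sum_congr rfl fun a _ => Finset.sum_congr rfl fun c _ => ?_
        rw [Finset.mul_sum]
        refine Finset.sum_congr rfl fun a' _ => ?_
        rw [Finset.mul_sum]
        refine Finset.sum_congr rfl fun c' _ => ?_
        ring
    _ = ∑ a' : P → B, ∑ c' : Q → B, ∑ a : P → B, ∑ c : Q → B,
        (∏ p, g (u p) (a p)) * (∏ p, h (a p) (a' p)) *
        ((∏ q, g' (v q) (c q)) * (∏ q, h' (c q) (c' q))) * x a' c' := by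
        have h1 : ∀ a : P → B, ∑ c : Q → B, ∑ a' : P → B, ∑ c' : Q → B,
            (∏ p, g (u p) (a p)) * (∏ p, h (a p) (a' p)) *
            ((∏ q, g' (v q) (c q)) * (∏ q, h' (c q) (c' q))) * x a' c' =
            ∑ a' : P → B, ∑ c' : Q → B, ∑ c : Q → B, (∏ p, g (u p) (a p)) *
            (∏ p, h (a p) (a' p)) *
            ((∏ q, g' (v q) (c q)) * (∏ q, h' (c q) (c' q))) * x a' c' := by
          intro a
          rw [Finset.sum_comm]
          refine Finset.sum_congr rfl fun a' _ => ?_
          rw [Finset.sum_comm]
        rw [Finset.sum_congr rfl fun a _ => h1 a, Finset.sum_comm]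
        refine Finset.sum_congr rfl fun a' _ => ?_
        rw [Finset.sum_comm]
    _ = ∑ a' : P → B, ∑ c' : Q → B, (∏ p, (g * h) (u p) (a' p)) *
        (∏ q, (g' * h') (v q) (c' q)) * x a' c' := by
        refine Finset.sum_congr rfl fun a' _ => Finset.sum_congr rfl fun c' _ => ?_
        rw [← sum_prod_mat, ← sum_prod_mat, Finset.sum_mul_sum, Finset.sum_mul]
        refine Finset.sum_congr rfl fun a _ => ?_
        rw [Finset.sum_mul]

lemma act_one (x : Ten R B P Q) : act 1 1 x = x := by
  funext u v
  unfold act
  rw [Finset.sum_eq_single u]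
  · rw [Finset.sum_eq_single v]
    · simp
    · intro c _ hc
      rw [prod_one_apply v c, if_neg (Ne.symm hc)]
      ring
    · intro h; exact absurd (Finset.mem_univ _) h
  · intro a _ ha
    refine Finset.sum_eq_zero fun c _ => ?_
    rw [prod_one_apply u a, if_neg (Ne.symm ha)]
    ring
  · intro h; exact absurd (Finset.mem_univ _) h

variable [Fintype P'] [DecidableEq P'] [Fintype Q'] [DecidableEq Q']

lemma act_tmul (g g' : Matrix B B R) (x : Ten R B P Q) (y : Ten R B P' Q') :
    act g g' (tmul x y) = tmul (act g g' x) (act g g' y) := by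
  funext u v
  unfold act tmul
  rw [Fintype.sum_equiv (Equiv.sumArrowEquivProdArrow P P' B) _
    (fun z : (P → B) × (P' → B) => ∑ c : (Q ⊕ Q') → B,
      ((∏ p, g (u (Sum.inl p)) (z.1 p)) * (∏ p, g (u (Sum.inr p)) (z.2 p))) *
      (∏ q, g' (v q) (c q)) * (x z.1 (fun q => c (Sum.inl q)) * y z.2 (fun q => c (Sum.inr q)))),
    Fintype.sum_prod_type, Finset.sum_mul_sum]
  · refine Finset.sum_congr rfl fun a _ => Finset.sum_congr rfl fun a' _ => ?_
    rw [Fintype.sum_equiv (Equiv.sumArrowEquivProdArrow Q Q' B) _
      (fun z : (Q → B) × (Q' → B) => 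
        ((∏ p, g (u (Sum.inl p)) (a p)) * (∏ p, g (u (Sum.inr p)) (a' p))) *
        ((∏ q, g' (v (Sum.inl q)) (z.1 q)) * (∏ q, g' (v (Sum.inr q)) (z.2 q))) *
        (x a z.1 * y a' z.2)),
      Fintype.sum_prod_type, Finset.sum_mul_sum]
    · refine Finset.sum_congr rfl fun c _ => Finset.sum_congr rfl fun c' _ => ?_
      ring
    · intro c
      rw [Fintype.prod_sum_type]
      rfl
  · intro a
    refine Finset.sum_congr rfl fun c _ => ?_
    rw [Fintype.prod_sum_type]
    rfl

lemma act_trel (g g' : Matrix B B R) (e : P ≃ P') (f : Q ≃ Q') (x : Ten R B P Q) :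
    act g g' (trel e f x) = trel e f (act g g' x) := by
  funext u v
  unfold act trel
  refine Fintype.sum_equiv (Equiv.arrowCongr e.symm (Equiv.refl B)) _ _ fun a => ?_
  refine Fintype.sum_equiv (Equiv.arrowCongr f.symm (Equiv.refl B)) _ _ fun c => ?_
  congr 1
  congr 1
  · exact (Fintype.prod_equiv e _ _ fun p => by
      simp [Equiv.arrowCongr]).symm
  · exact (Fintype.prod_equiv f _ _ fun p => by
      simp [Equiv.arrowCongr]).symm

lemma act_tid {g g' : Matrix B B R} (h : g.transpose * g' = 1) :
    act g g' (tid : Ten R B Unit Unit) = tid := by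
  have h1 : g * g'.transpose = 1 := by
    have := mul_eq_one_comm.1 h
    have h2 := congrArg Matrix.transpose this
    rwa [Matrix.transpose_mul, Matrix.transpose_transpose, Matrix.transpose_one] at h2
  funext u v
  have h2 : ∀ (F : (Unit → B) → R), ∑ a, F a = ∑ b, F (fun _ => b) := fun F =>
    Fintype.sum_equiv (Equiv.funUnique Unit B) _ _ fun a => by
      congr 1
  unfold act tid
  rw [h2]
  simp only [h2, Finset.univ_unique, Finset.prod_singleton, mul_ite, mul_one, mul_zero,
    Finset.sum_ite_eq, Finset.mem_univ, if_true]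
  have h3 := congrFun (congrFun h1 (u ())) (v ())
  rw [Matrix.mul_apply, Matrix.one_apply] at h3
  exact h3

lemma act_tone (g g' : Matrix B B R) : act g g' (tone : Ten R B Empty Empty) = tone := by
  funext u v
  unfold act tone
  simp

omit [Fintype B] [DecidableEq B] [Fintype P] [DecidableEq P] [Fintype Q] [DecidableEq Q] in
lemma prod_inst {S : Type} (i j : Fintype S) (F : S → R) :
    @Finset.prod _ _ _ (@Finset.univ _ i) F = @Finset.prod _ _ _ (@Finset.univ _ j) F := by
  obtain rfl : i = j := Subsingleton.elim _ _
  rfl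

omit [Fintype P] [DecidableEq P] [Fintype Q] [DecidableEq Q] in
lemma act_inst (i1 j1 : Fintype P) (i2 j2 : DecidableEq P) (i3 j3 : Fintype Q)
    (i4 j4 : DecidableEq Q) (g g' : Matrix B B R) (x : Ten R B P Q) :
    (letI := i1; letI := i2; letI := i3; letI := i4; act g g' x) =
      (letI := j1; letI := j2; letI := j3; letI := j4; act g g' x) := by
  obtain rfl : i1 = j1 := Subsingleton.elim _ _
  obtain rfl : i2 = j2 := Subsingleton.elim _ _
  obtain rfl : i3 = j3 := Subsingleton.elim _ _
  obtain rfl : i4 = j4 := Subsingleton.elim _ _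
  rfl

lemma act_tcon {g g' : Matrix B B R} (h : g.transpose * g' = 1)
    (x : Ten R B (Option P) (Option Q)) [Fintype (Option P)] [DecidableEq (Option P)]
    [Fintype (Option Q)] [DecidableEq (Option Q)] :
    act g g' (tcon x) = tcon (act g g' x) := by
  funext u v
  have h2 : ∀ c d, ∑ b, g b c * g' b d = if c = d then 1 else 0 := by
    intro c d
    have h3 := congrFun (congrFun h c) d
    rw [Matrix.mul_apply, Matrix.one_apply] at h3
    exact h3
  have key : ∀ b, act g g' x (oext b u) (oext b v) = ∑ a : P → B, ∑ c : Q → B, ∑ i, ∑ j,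
      (g b i * g' b j) * ((∏ p, g (u p) (a p)) * (∏ q, g' (v q) (c q)) *
        x (oext i a) (oext j c)) := by
    intro b
    unfold act
    rw [Fintype.sum_equiv (Equiv.piOptionEquivProd (β := fun _ : Option P => B)) _
      (fun z : B × (P → B) => ∑ c : Option Q → B, (∏ p, g (oext b u p) (oext z.1 z.2 p)) *
        (∏ q, g' (oext b v q) (c q)) * x (oext z.1 z.2) c), Fintype.sum_prod_type_right]
    · refine Finset.sum_congr rfl fun a _ => ?_
      have h4 : ∀ i, ∑ c : Option Q → B, (∏ p, g (oext b u p) (oext i a p)) *
          (∏ q, g' (oext b v q) (c q)) * x (oext i a) c = ∑ j, ∑ c : Q → B,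
          (g b i * g' b j) * ((∏ p, g (u p) (a p)) * (∏ q, g' (v q) (c q)) *
            x (oext i a) (oext j c)) := by
        intro i
        rw [Fintype.sum_equiv (Equiv.piOptionEquivProd (β := fun _ : Option Q => B)) _
          (fun z : B × (Q → B) => (∏ p, g (oext b u p) (oext i a p)) *
            (∏ q, g' (oext b v q) (oext z.1 z.2 q)) * x (oext i a) (oext z.1 z.2)),
          Fintype.sum_prod_type]
        · refine Finset.sum_congr rfl fun j _ => Finset.sum_congr rfl fun c _ => ?_
          have e1 : ∏ p, g (oext b u p) (oext i a p) = g b i * ∏ p, g (u p) (a p) := by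
            rw [prod_inst _ (instFintypeOption) (fun p => g (oext b u p) (oext i a p)),
              Fintype.prod_option]
            rfl
          have e2 : ∏ q, g' (oext b v q) (oext j c q) = g' b j * ∏ q, g' (v q) (c q) := by
            rw [prod_inst _ (instFintypeOption) (fun q => g' (oext b v q) (oext j c q)),
              Fintype.prod_option]
            rfl
          rw [e1, e2]
          ring
        · intro c
          have : c = oext (c none) (fun q => c (some q)) := by
            funext o
            rcases o with _ | o <;> rfl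
          conv_lhs => rw [this]
          rfl
      rw [Finset.sum_congr rfl fun i _ => h4 i]
      calc ∑ i, ∑ j, ∑ c : Q → B, (g b i * g' b j) * ((∏ p, g (u p) (a p)) *
            (∏ q, g' (v q) (c q)) * x (oext i a) (oext j c))
          = ∑ i, ∑ c : Q → B, ∑ j, (g b i * g' b j) * ((∏ p, g (u p) (a p)) *
            (∏ q, g' (v q) (c q)) * x (oext i a) (oext j c)) :=
            Finset.sum_congr rfl fun i _ => Finset.sum_comm
        _ = _ := Finset.sum_comm
    · intro c
      have : c = oext (c none) (fun q => c (some q)) := by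
        funext o
        rcases o with _ | o <;> rfl
      conv_lhs => rw [this]
      rfl
  unfold tcon
  rw [Finset.sum_congr rfl fun b _ => key b, Finset.sum_comm]
  unfold act
  refine Finset.sum_congr rfl fun a _ => ?_
  rw [Finset.sum_comm]
  refine Finset.sum_congr rfl fun c _ => ?_
  rw [Finset.mul_sum, Finset.sum_comm]
  refine Finset.sum_congr rfl fun i _ => ?_
  rw [Finset.sum_comm]
  rw [Finset.sum_eq_single i]
  · rw [← Finset.sum_mul, h2, if_pos rfl, one_mul]
  · intro j _ hj
    rw [← Finset.sum_mul, h2, if_neg (Ne.symm hj), zero_mul]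
  · intro h; exact absurd (Finset.mem_univ _) h

end act

section clo

variable {R : Type u} [CommRing R] {B : Type} [Fintype B] [DecidableEq B]

/-- The action is compatible with the operations. -/
lemma act_clo {g g' : Matrix B B R} (h : g.transpose * g' = 1) :
    Clo (B := B) (R := R) (R' := R) (fun P Q x x' => ∀ (_ : Fintype P) (_ : DecidableEq P)
      (_ : Fintype Q) (_ : DecidableEq Q), x' = act g g' x) where
  one := fun i1 i2 i3 i4 => (act_tone (B := B) g g').symm.trans
    (act_inst _ i1 _ i2 _ i3 _ i4 g g' _)
  id := fun i1 i2 i3 i4 => (act_tid (B := B) h).symm.trans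
    (act_inst _ i1 _ i2 _ i3 _ i4 g g' _)
  mul := by
    intro P Q P' Q' _ _ _ _ x x' y y' hx hy i1 i2 i3 i4
    classical
    have j1 := Fintype.ofFinite P
    have j2 := Fintype.ofFinite Q
    have j3 := Fintype.ofFinite P'
    have j4 := Fintype.ofFinite Q'
    rw [hx inferInstance inferInstance inferInstance inferInstance,
      hy inferInstance inferInstance inferInstance inferInstance, ← act_tmul]
    exact act_inst _ i1 _ i2 _ i3 _ i4 g g' _
  rel := by
    intro P Q P' Q' _ _ e f x x' hx i1 i2 i3 i4
    classical
    have j1 := Fintype.ofFinite P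
    have j2 := Fintype.ofFinite Q
    rw [hx inferInstance inferInstance inferInstance inferInstance, ← act_trel]
  con := by
    intro P Q _ _ x x' hx i1 i2 i3 i4
    rw [hx inferInstance inferInstance inferInstance inferInstance, ← act_tcon h]

variable {J : Type} {A C : J → Type} [∀ j, Fintype (A j)] [∀ j, DecidableEq (A j)]
  [∀ j, Fintype (C j)] [∀ j, DecidableEq (C j)]

/-- The values of networks at transformed tensors. -/
lemma ev_act {g g' : Matrix B B R} (h : g.transpose * g' = 1) (w : ∀ j, Ten R B (A j) (C j))
    {P Q : Type} [Fintype P] [DecidableEq P] [Fintype Q] [DecidableEq Q] (t : Net A C P Q) :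
    ev (fun j => act g g' (w j)) t = act g g' (ev w t) :=
  (act_clo h).ev (fun j => inferInstance) (fun j => inferInstance) (w := w)
    (w' := fun j => act g g' (w j)) (fun j i1 i2 i3 i4 => act_inst _ i1 _ i2 _ i3 _ i4 g g' _) t
    inferInstance inferInstance
    inferInstance inferInstance

lemma act_empty (g g' : Matrix B B R) (x : Ten R B Empty Empty) : act g g' x = x := by
  funext u v
  unfold act
  rw [Fintype.sum_unique, Fintype.sum_unique]
  simp only [Finset.univ_eq_empty, Finset.prod_empty, one_mul]
  congr 1
  · exact Subsingleton.elim _ _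
  · exact Subsingleton.elim _ _

/-- The values of closed networks are invariant. -/
lemma cv_act {g g' : Matrix B B R} (h : g.transpose * g' = 1) (w : ∀ j, Ten R B (A j) (C j))
    (t : Net A C Empty Empty) : cv (fun j => act g g' (w j)) t = cv w t := by
  unfold cv
  rw [ev_act h, act_empty]

end clo

end Pool.Agent.Run7.h174
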