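import Mathlib

/-!
# Tensor networks

Mixed tensors with legs indexed by arbitrary finite types, expressions for networks, and their
values.
-/

set_option autoImplicit false
set_option linter.unusedSectionVars false

open Finset

universe u u'

namespace Pool.Agent.Run7.h174

/-- Mixed tensors with the upper legs `P` and the lower legs `Q`, in coordinates. -/
abbrev Ten (R : Type u) (B P Q : Type) := (P → B) → (Q → B) → R

section ops

variable {R : Type u} [CommRing R] {B P Q P' Q' : Type}

/-- the unit -/
def tone : Ten R B Empty Empty := fun _ _ => 1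

/-- the identity -/
def tid [DecidableEq B] : Ten R B Unit Unit := fun u v => if u () = v () then 1 else 0

/-- the tensor product -/
def tmul (x : Ten R B P Q) (y : Ten R B P' Q') : Ten R B (P ⊕ P') (Q ⊕ Q') :=
  fun u v => x (fun p => u (Sum.inl p)) (fun q => v (Sum.inl q)) *
    y (fun p => u (Sum.inr p)) (fun q => v (Sum.inr q))

/-- renaming of the legs -/
def trel (e : P ≃ P') (f : Q ≃ Q') (x : Ten R B P Q) : Ten R B P' Q' :=
  fun u v => x (fun p => u (e p)) (fun q => v (f q))

/-- one more index -/
def oext (b : B) (u : P → B) : Option P → B := fun o => o.elim b u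

/-- the contraction of an upper and a lower leg -/
def tcon [Fintype B] (x : Ten R B (Option P) (Option Q)) : Ten R B P Q :=
  fun u v => ∑ b, x (oext b u) (oext b v)

end ops

/-- Expressions for networks, built from generators with the upper legs `A j` and the lower legs
`C j`. -/
inductive Net {J : Type} (A C : J → Type) : Type → Type → Type 1
  | one : Net A C Empty Empty
  | id : Net A C Unit Unit
  | gen (j : J) : Net A C (A j) (C j)
  | mul {P Q P' Q' : Type} : Net A C P Q → Net A C P' Q' → Net A C (P ⊕ P') (Q ⊕ Q')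
  | rel {P Q P' Q' : Type} (e : P ≃ P') (f : Q ≃ Q') : Net A C P Q → Net A C P' Q'
  | con {P Q : Type} : Net A C (Option P) (Option Q) → Net A C P Q

section ev

variable {J : Type} {A C : J → Type} {B : Type} [Fintype B] [DecidableEq B]

/-- The value of a network. -/
def ev {R : Type u} [CommRing R] (w : ∀ j, Ten R B (A j) (C j)) :
    ∀ {P Q : Type}, Net A C P Q → Ten R B P Q
  | _, _, .one => tone
  | _, _, .id => tid
  | _, _, .gen j => w j
  | _, _, .mul s t => tmul (ev w s) (ev w t)
  | _, _, .rel e f t => trel e f (ev w t)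
  | _, _, .con t => tcon (ev w t)

lemma Net.finite (hA : ∀ j, Finite (A j)) (hC : ∀ j, Finite (C j)) {P Q : Type}
    (t : Net A C P Q) : Finite P ∧ Finite Q := by
  induction t with
  | one => exact ⟨inferInstance, inferInstance⟩
  | id => exact ⟨inferInstance, inferInstance⟩
  | gen j => exact ⟨hA j, hC j⟩
  | mul s t ihs iht =>
    have := ihs.1
    have := ihs.2
    have := iht.1
    have := iht.2
    exact ⟨inferInstance, inferInstance⟩
  | rel e f t ih =>
    have := ih.1
    have := ih.2
    exact ⟨Finite.of_equiv _ e, Finite.of_equiv _ f⟩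
  | con t ih =>
    have := ih.1
    have := ih.2
    exact ⟨Finite.of_injective _ (Option.some_injective _),
      Finite.of_injective _ (Option.some_injective _)⟩

/-- A relation between tensors which is compatible with the operations. -/
structure Clo {R : Type u} [CommRing R] {R' : Type u'} [CommRing R']
    (Rel : ∀ P Q : Type, Ten R B P Q → Ten R' B P Q → Prop) : Prop where
  one : Rel _ _ tone tone
  id : Rel _ _ tid tid
  mul : ∀ {P Q P' Q' : Type} [Finite P] [Finite Q] [Finite P'] [Finite Q'] {x : Ten R B P Q}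
    {x' : Ten R' B P Q} {y : Ten R B P' Q'} {y' : Ten R' B P' Q'}, Rel _ _ x x' → Rel _ _ y y' →
    Rel _ _ (tmul x y) (tmul x' y')
  rel : ∀ {P Q P' Q' : Type} [Finite P] [Finite Q] (e : P ≃ P') (f : Q ≃ Q') {x : Ten R B P Q}
    {x' : Ten R' B P Q}, Rel _ _ x x' → Rel _ _ (trel e f x) (trel e f x')
  con : ∀ {P Q : Type} [Finite P] [Finite Q] {x : Ten R B (Option P) (Option Q)}
    {x' : Ten R' B (Option P) (Option Q)}, Rel _ _ x x' → Rel _ _ (tcon x) (tcon x')

variable {R : Type u} [CommRing R] {R' : Type u'} [CommRing R']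

/-- The values of a network at related tensors are related. -/
lemma Clo.ev (hA : ∀ j, Finite (A j)) (hC : ∀ j, Finite (C j))
    {Rel : ∀ P Q : Type, Ten R B P Q → Ten R' B P Q → Prop} (h : Clo Rel)
    {w : ∀ j, Ten R B (A j) (C j)} {w' : ∀ j, Ten R' B (A j) (C j)}
    (hg : ∀ j, Rel _ _ (w j) (w' j)) {P Q : Type} (t : Net A C P Q) :
    Rel _ _ (ev w t) (ev w' t) := by
  induction t with
  | one => exact h.one
  | id => exact h.id
  | gen j => exact hg j
  | mul s t ihs iht =>
    have := (s.finite hA hC).1
    have := (s.finite hA hC).2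
    have := (t.finite hA hC).1
    have := (t.finite hA hC).2
    exact h.mul ihs iht
  | rel e f t ih =>
    have := (t.finite hA hC).1
    have := (t.finite hA hC).2
    exact h.rel e f ih
  | con t ih =>
    have := ((Net.con t).finite hA hC).1
    have := ((Net.con t).finite hA hC).2
    exact h.con ih

/-- A property of tensors which is compatible with the operations. -/
structure Clo1 (Pr : ∀ P Q : Type, Ten R B P Q → Prop) : Prop where
  one : Pr _ _ tone
  id : Pr _ _ tid
  mul : ∀ {P Q P' Q' : Type} [Finite P] [Finite Q] [Finite P'] [Finite Q'] {x : Ten R B P Q}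
    {y : Ten R B P' Q'}, Pr _ _ x → Pr _ _ y → Pr _ _ (tmul x y)
  rel : ∀ {P Q P' Q' : Type} [Finite P] [Finite Q] (e : P ≃ P') (f : Q ≃ Q') {x : Ten R B P Q},
    Pr _ _ x → Pr _ _ (trel e f x)
  con : ∀ {P Q : Type} [Finite P] [Finite Q] {x : Ten R B (Option P) (Option Q)},
    Pr _ _ x → Pr _ _ (tcon x)

lemma Clo1.ev (hA : ∀ j, Finite (A j)) (hC : ∀ j, Finite (C j))
    {Pr : ∀ P Q : Type, Ten R B P Q → Prop} (h : Clo1 Pr)
    {w : ∀ j, Ten R B (A j) (C j)} (hg : ∀ j, Pr _ _ (w j)) {P Q : Type} (t : Net A C P Q) :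
    Pr _ _ (ev w t) :=
  Clo.ev (R' := R) hA hC (Rel := fun P Q x _ => Pr P Q x)
    ⟨h.one, h.id, fun hx hy => h.mul hx hy, fun e f _ _ hx => h.rel e f hx, fun hx => h.con hx⟩
    (w' := w) hg t

/-! ### The span of the values -/

variable (S : Type*) [CommRing S] [Algebra S R]

/-- The span of the values of the networks. -/
def Sp (w : ∀ j, Ten R B (A j) (C j)) (P Q : Type) : Submodule S (Ten R B P Q) :=
  Submodule.span S (Set.range fun t : Net A C P Q => ev w t)

variable {S} {w : ∀ j, Ten R B (A j) (C j)} {P Q P' Q' : Type}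

lemma ev_mem (t : Net A C P Q) : ev w t ∈ Sp S w P Q := Submodule.subset_span ⟨t, rfl⟩

lemma gen_mem (j : J) : w j ∈ Sp S w (A j) (C j) := ev_mem (Net.gen j)

lemma tone_mem : (tone : Ten R B Empty Empty) ∈ Sp S w Empty Empty := ev_mem Net.one

lemma tid_mem : (tid : Ten R B Unit Unit) ∈ Sp S w Unit Unit := ev_mem Net.id

lemma tmul_add (x : Ten R B P Q) (y z : Ten R B P' Q') :
    tmul x (y + z) = tmul x y + tmul x z := by
  funext u v
  simp [tmul, mul_add]

lemma add_tmul (x y : Ten R B P Q) (z : Ten R B P' Q') :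
    tmul (x + y) z = tmul x z + tmul y z := by
  funext u v
  simp [tmul, add_mul]

lemma tmul_smul (c : S) (x : Ten R B P Q) (y : Ten R B P' Q') :
    tmul x (c • y) = c • tmul x y := by
  funext u v
  simp [tmul]

lemma smul_tmul' (c : S) (x : Ten R B P Q) (y : Ten R B P' Q') :
    tmul (c • x) y = c • tmul x y := by
  funext u v
  simp [tmul]

lemma tmul_zero (x : Ten R B P Q) : tmul x (0 : Ten R B P' Q') = 0 := by
  funext u v
  simp [tmul]

lemma zero_tmul (y : Ten R B P' Q') : tmul (0 : Ten R B P Q) y = 0 := by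
  funext u v
  simp [tmul]

/-- renaming as a linear map -/
def trelL (e : P ≃ P') (f : Q ≃ Q') : Ten R B P Q →ₗ[S] Ten R B P' Q' where
  toFun := trel e f
  map_add' _ _ := rfl
  map_smul' _ _ := rfl

/-- contraction as a linear map -/
def tconL : Ten R B (Option P) (Option Q) →ₗ[S] Ten R B P Q where
  toFun := tcon
  map_add' x y := by
    funext u v
    simp [tcon, Finset.sum_add_distrib]
  map_smul' c x := by
    funext u v
    simp [tcon, Finset.smul_sum]

lemma tmul_mem {x : Ten R B P Q} {y : Ten R B P' Q'} (hx : x ∈ Sp S w P Q)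
    (hy : y ∈ Sp S w P' Q') : tmul x y ∈ Sp S w (P ⊕ P') (Q ⊕ Q') := by
  unfold Sp at hx hy
  induction hx using Submodule.span_induction with
  | mem x hx =>
    obtain ⟨s, rfl⟩ := hx
    induction hy using Submodule.span_induction with
    | mem y hy =>
      obtain ⟨t, rfl⟩ := hy
      exact ev_mem (Net.mul s t)
    | zero => rw [tmul_zero]; exact Submodule.zero_mem _
    | add a b _ _ ha hb => rw [tmul_add]; exact Submodule.add_mem _ ha hb
    | smul c a _ ha => rw [tmul_smul]; exact Submodule.smul_mem _ _ ha
  | zero => rw [zero_tmul]; exact Submodule.zero_mem _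
  | add a b _ _ ha hb => rw [add_tmul]; exact Submodule.add_mem _ ha hb
  | smul c a _ ha => rw [smul_tmul']; exact Submodule.smul_mem _ _ ha

lemma trel_mem (e : P ≃ P') (f : Q ≃ Q') {x : Ten R B P Q} (hx : x ∈ Sp S w P Q) :
    trel e f x ∈ Sp S w P' Q' := by
  unfold Sp at hx
  induction hx using Submodule.span_induction with
  | mem x hx =>
    obtain ⟨s, rfl⟩ := hx
    exact ev_mem (Net.rel e f s)
  | zero => exact Submodule.zero_mem _
  | add a b _ _ ha hb => exact Submodule.add_mem _ ha hb
  | smul c a _ ha => exact Submodule.smul_mem _ _ ha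

lemma tcon_mem {x : Ten R B (Option P) (Option Q)} (hx : x ∈ Sp S w (Option P) (Option Q)) :
    tcon x ∈ Sp S w P Q := by
  unfold Sp at hx
  induction hx using Submodule.span_induction with
  | mem x hx =>
    obtain ⟨s, rfl⟩ := hx
    exact ev_mem (Net.con s)
  | zero => rw [show tcon (0 : Ten R B (Option P) (Option Q)) = 0 from (tconL (S := S)).map_zero]
            exact Submodule.zero_mem _
  | add a b _ _ ha hb =>
    rw [show tcon (a + b) = tcon a + tcon b from (tconL (S := S)).map_add a b]
    exact Submodule.add_mem _ ha hb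
  | smul c a _ ha =>
    rw [show tcon (c • a) = c • tcon a from (tconL (S := S)).map_smul c a]
    exact Submodule.smul_mem _ _ ha

end ev

end Pool.Agent.Run7.h174
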