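import Pool.Agent.Run7.h174.BhDefs

/-!
# Homologically trivial classes on the exceptional divisor of a blow-up
-/

set_option autoImplicit false

open CategoryTheory AlgebraicGeometry Finset

universe u v w

namespace Pool.Agent.Run7.h174.BH

open Pool.Agent.H914 Pool.Agent.H914.VarClass Pool.Agent.H914.VarClass.Obj Pool.Agent.R903

variable {k : Type u} [Field k] {𝒱 : VarClass k} {C : ChowTheory.{u, v} 𝒱}

lemma one_mem (X : 𝒱.Obj) : (1 : C.CH X) ∈ C.gr X 0 :=
  (C.isChowRing X).mem_gr.2 ⟨_, X.V.fundCycle_mem, (C.isChowRing X).cls_fund⟩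

lemma push_mul {X Y : 𝒱.Obj} (f : X ⟶ Y) (x : C.CH X) (y : C.CH Y) :
    C.push f (x * C.pull f y) = C.push f x * y := (C.isPullPush f).push_mul x y

lemma push_mul' {X Y : 𝒱.Obj} (f : X ⟶ Y) (x : C.CH X) (y : C.CH Y) :
    C.push f (C.pull f y * x) = y * C.push f x := by rw [mul_comm, push_mul, mul_comm]

lemma mem_pow {X : 𝒱.Obj} {D : C.CH X} (hD : D ∈ C.gr X 1) (n : ℕ) : D ^ n ∈ C.gr X n := by
  induction n with
  | zero => rw [pow_zero]; exact one_mem X
  | succ n ih => rw [pow_succ]; exact (C.isChowRing X).mul_mem ih hD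

lemma mem_mul {X : 𝒱.Obj} {p q : ℕ} {x y : C.CH X} (hx : x ∈ C.gr X p) (hy : y ∈ C.gr X q) :
    x * y ∈ C.gr X (p + q) := (C.isChowRing X).mul_mem hx hy

lemma gr_zero {X : 𝒱.Obj} {n : ℕ} (hn : X.dim < n) {x : C.CH X} (hx : x ∈ C.gr X n) : x = 0 := by
  rw [(C.isChowRing X).gr_eq_bot n hn] at hx
  exact (Submodule.mem_bot _).1 hx

section

variable {Z R Y : 𝒱.Obj} {b : Square C Z R Y} {c : ℕ} {T : C.CH Y} {a : ℕ → ℚ}

lemma IsBlowUp.mem_ξ (hb : IsBlowUp b c T a) :
    b.ξ ∈ C.gr b.E 1 := hb.deg_ξ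

lemma IsBlowUp.relation (hb : IsBlowUp b c T a) :
    ∑ k ∈ range (c + 1), a k • (C.pull b.g T ^ k * b.ξ ^ (c - k)) = 0 := hb.isBundle.relation

lemma IsBlowUp.bundle (hb : IsBlowUp b c T a) :
    C.push b.g (b.ξ ^ (c - 1)) = 1 := hb.isBundle.bundle

lemma IsBlowUp.normal (hb : IsBlowUp b c T a) (y : C.CH b.E) :
    C.pull b.j (C.push b.j y) = -(b.ξ * y) := hb.isNormal y

lemma IsBlowUp.key (hb : IsBlowUp b c T a) (w : C.CH Y) :
    C.pull b.π (C.push b.i w) = C.push b.j ((∑ k ∈ range c,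
      a k • (C.pull b.g T ^ k * b.ξ ^ (c - 1 - k))) * C.pull b.g w) := hb.isKey w

lemma IsBlowUp.key' (hb : IsBlowUp b c T a) (z : C.CH Z) :
    C.pull b.i (C.push b.π z) = C.push b.g ((∑ k ∈ range c,
      a k • (C.pull b.g T ^ k * b.ξ ^ (c - 1 - k))) * C.pull b.j z) := hb.isExcess z

/-- The divisor class `N π^* A - E` on the blow-up. -/
noncomputable def blowDiv (b : Square C Z R Y) (A : C.CH R) (N : ℕ) : C.CH Z :=
  (N : ℚ) • C.pull b.π A - C.push b.j 1

lemma xi_push (hb : IsBlowUp b c T a) (x : C.CH b.E) :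
    C.push b.j 1 * C.push b.j x = -C.push b.j (b.ξ * x) := by
  rw [← push_mul', hb.normal, mul_one, neg_mul, map_neg]

lemma xi_push_zero (hb : IsBlowUp b c T a) {x : C.CH b.E} (hx : C.push b.j x = 0) (l : ℕ) :
    C.push b.j (b.ξ ^ l * x) = 0 := by
  induction l with
  | zero => rw [pow_zero, one_mul, hx]
  | succ l ih =>
    have h1 := xi_push hb (b.ξ ^ l * x)
    rw [ih, mul_zero] at h1
    rw [pow_succ', mul_assoc]
    exact neg_eq_zero.1 h1.symm

/-- The restriction of `N π^* A - E` to `E`. -/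
lemma pull_H (hb : IsBlowUp b c T a) {A : C.CH R} (hA : C.pull b.i A = T) (N : ℕ) :
    C.pull b.j (blowDiv b A N) = (N : ℚ) • C.pull b.g T + b.ξ := by
  have h1 : C.pull b.j (C.pull b.π A) = C.pull b.g (C.pull b.i A) := by
    have h2 := C.pullFunctorial.pull_comp b.j b.π
    have h3 := C.pullFunctorial.pull_comp b.g b.i
    have h4 := congrArg (fun f => f A) h2
    have h5 := congrArg (fun f => f A) h3
    simp only [AlgHom.comp_apply] at h4 h5
    rw [← h4, ← h5, hb.comm]
  rw [blowDiv, map_sub, map_smul, h1, hA, hb.normal, mul_one, sub_neg_eq_add]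

lemma H_pow_push (hb : IsBlowUp b c T a) {A : C.CH R} (hA : C.pull b.i A = T) (N e : ℕ)
    (x : C.CH b.E) : blowDiv b A N ^ e * C.push b.j x =
      C.push b.j (((N : ℚ) • C.pull b.g T + b.ξ) ^ e * x) := by
  rw [← push_mul', map_pow, pull_H hb hA]

/-- The binomial formula. -/
lemma binom_g (b : Square C Z R Y) (T : C.CH Y) (N e : ℕ) :
    ((N : ℚ) • C.pull b.g T + b.ξ) ^ e =
      ∑ k ∈ range (e + 1), ((e.choose k : ℚ) * (N : ℚ) ^ k) • (b.ξ ^ (e - k) * C.pull b.g (T ^ k)) := by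
  rw [add_pow]
  refine Finset.sum_congr rfl fun k _ => ?_
  rw [smul_pow, map_pow, smul_mul_assoc, smul_mul_assoc, mul_comm (C.pull b.g T ^ k),
    mul_comm _ ((e.choose k : ℕ) : C.CH b.E), mul_smul, smul_comm, ← nsmul_eq_mul,
    ← Nat.cast_smul_eq_nsmul ℚ]

lemma segre0 (hb : IsBlowUp b c T a) {n : ℕ} (hn : n < c - 1) : C.push b.g (b.ξ ^ n) = 0 :=
  (C.isPullPush b.g).push_eq_zero (mem_pow hb.mem_ξ n) (by
    have := hb.dim_E
    have := hb.dim_Z
    have := hb.dim_R
    omega)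

/-- The Segre classes of the normal bundle. -/
lemma segre (hb : IsBlowUp b c T a) :
    ∃ σ : ℕ → ℚ, σ 0 = 1 ∧ ∀ l, C.push b.g (b.ξ ^ (c - 1 + l)) = σ l • T ^ l := by
  have h : ∀ l, ∃ β : ℚ, (l = 0 → β = 1) ∧ C.push b.g (b.ξ ^ (c - 1 + l)) = β • T ^ l := by
    intro l
    induction l using Nat.strong_induction_on with
    | _ l ih =>
      rcases Nat.eq_zero_or_pos l with rfl | hl
      · exact ⟨1, fun _ => rfl, by rw [add_zero, hb.bundle, pow_zero, one_smul]⟩
      · choose! β _ hβ using ih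
        refine ⟨-∑ k ∈ range c, if k + 1 ≤ l then a (k + 1) * β (l - (k + 1)) else 0,
          fun h => absurd h hl.ne', ?_⟩
        have h1 : b.ξ ^ (c - 1 + l) = b.ξ ^ (l - 1) * b.ξ ^ c := by
          rw [← pow_add]
          congr 1
          have := hb.two_le
          omega
        have h2 : b.ξ ^ c = -∑ k ∈ range c, a (k + 1) •
            (C.pull b.g T ^ (k + 1) * b.ξ ^ (c - (k + 1))) := by
          have h3 := hb.relation
          rw [Finset.sum_range_succ', hb.a_zero, one_smul, pow_zero, one_mul, Nat.sub_zero] at h3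
          exact eq_neg_of_add_eq_zero_right h3
        rw [h1, h2, mul_neg, map_neg, Finset.mul_sum, map_sum, neg_smul, Finset.sum_smul]
        congr 1
        refine Finset.sum_congr rfl fun k hk => ?_
        rw [Finset.mem_range] at hk
        rw [mul_smul_comm, map_smul, mul_left_comm, ← pow_add, ← map_pow, push_mul']
        by_cases hkl : k + 1 ≤ l
        · rw [show l - 1 + (c - (k + 1)) = c - 1 + (l - (k + 1)) by omega,
            hβ (l - (k + 1)) (by omega), if_pos hkl, mul_smul_comm, ← pow_add, smul_smul]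
          congr 2
          omega
        · rw [segre0 hb (show l - 1 + (c - (k + 1)) < c - 1 by omega), mul_zero, smul_zero,
            if_neg hkl, zero_smul]
  choose σ h0 hσ using h
  exact ⟨σ, h0 0 rfl, hσ⟩

/-- The push-forward of `ξ (N T + ξ) ^ (s + c - 2)`. -/
lemma push_P (hb : IsBlowUp b c T a) : ∃ σ : ℕ → ℚ, σ 0 = 1 ∧ ∀ N s : ℕ,
    C.push b.g (b.ξ * ((N : ℚ) • C.pull b.g T + b.ξ) ^ (s + c - 2)) =
      (∑ k ∈ range (s + 1), ((s + c - 2).choose k : ℚ) * σ (s - k) * (N : ℚ) ^ k) • T ^ s := by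
  obtain ⟨σ, h0, hσ⟩ := segre hb
  refine ⟨σ, h0, fun N s => ?_⟩
  have hc := hb.two_le
  rw [binom_g, Finset.mul_sum, map_sum]
  have hsub : range (s + 1) ⊆ range (s + c - 2 + 1) := by
    intro x hx
    rw [Finset.mem_range] at hx ⊢
    omega
  rw [← Finset.sum_subset hsub]
  · rw [Finset.sum_smul]
    refine Finset.sum_congr rfl fun k hk => ?_
    rw [Finset.mem_range] at hk
    rw [mul_smul_comm, map_smul, ← mul_assoc, ← pow_succ', push_mul,
      show s + c - 2 - k + 1 = c - 1 + (s - k) by omega, hσ, smul_mul_assoc, ← pow_add,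
      show s - k + k = s by omega, smul_smul]
    congr 1
    ring
  · intro k hk hk'
    rw [Finset.mem_range] at hk
    rw [Finset.mem_range, not_lt] at hk'
    rw [mul_smul_comm, map_smul, ← mul_assoc, ← pow_succ', push_mul,
      segre0 hb (show s + c - 2 - k + 1 < c - 1 by omega), zero_mul, smul_zero]

/-- Vanishing of the classes of large degree. -/
lemma van (hb : IsBlowUp b c T a) {u : C.CH Y} {s : ℕ} (hu : T ^ s * u = 0)
    (hi : ∀ n, C.push b.i (T ^ n * u) = 0) :
    ∀ l m, s ≤ m + l + 1 → C.push b.j (b.ξ ^ (c - 1 + l) * C.pull b.g (T ^ m * u)) = 0 := by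
  intro l
  induction l using Nat.strong_induction_on with
  | _ l ih =>
    intro m hm
    have hc := hb.two_le
    have h1 := hb.key (T ^ m * u)
    rw [hi, map_zero] at h1
    have h2 := xi_push_zero hb h1.symm l
    have h5 : b.ξ ^ l * ((∑ k ∈ range c, a k • (C.pull b.g T ^ k * b.ξ ^ (c - 1 - k))) *
        C.pull b.g (T ^ m * u)) =
        ∑ k ∈ range c, a k • (b.ξ ^ (c - 1 - k + l) * C.pull b.g (T ^ (m + k) * u)) := by
      rw [Finset.sum_mul, Finset.mul_sum]
      refine Finset.sum_congr rfl fun k _ => ?_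
      rw [smul_mul_assoc, mul_smul_comm]
      congr 1
      rw [pow_add b.ξ, pow_add T, map_mul, map_mul, map_mul, map_pow, map_pow]
      ring
    rw [h5, map_sum] at h2
    have hc' : c = (c - 1) + 1 := by omega
    rw [hc', Finset.sum_range_succ', Finset.sum_eq_zero, zero_add, map_smul, hb.a_zero] at h2
    · rw [one_smul, Nat.add_sub_cancel, Nat.sub_zero, add_zero] at h2
      exact h2
    · intro k hk
      rw [Finset.mem_range] at hk
      rw [map_smul]
      by_cases hkl : k + 1 ≤ l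
      · have h6 := ih (l - (k + 1)) (by omega) (m + (k + 1)) (by omega)
        rw [show c - 1 + 1 - 1 - (k + 1) + l = c - 1 + (l - (k + 1)) by omega, h6, smul_zero]
      · have h7 : T ^ (m + (k + 1)) * u = 0 := by
          rw [show m + (k + 1) = m + (k + 1) - s + s by omega, pow_add, mul_assoc, hu, mul_zero]
        rw [h7, map_zero (C.pull b.g), mul_zero, map_zero, smul_zero]

/-- The class `j_* g^* u` is annihilated by the power of `N π^* A - E`. -/
lemma prim (hb : IsBlowUp b c T a) {A : C.CH R} (hA : C.pull b.i A = T) {u : C.CH Y} {s : ℕ}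
    (hu : T ^ s * u = 0) (hi : ∀ n, C.push b.i (T ^ n * u) = 0) (N : ℕ) {e : ℕ}
    (he : s + c ≤ e + 2) : blowDiv b A N ^ e * C.push b.j (C.pull b.g u) = 0 := by
  have hc := hb.two_le
  rw [H_pow_push hb hA, binom_g, Finset.sum_mul, map_sum]
  refine Finset.sum_eq_zero fun k hk => ?_
  rw [Finset.mem_range] at hk
  rw [smul_mul_assoc, map_smul, mul_assoc, ← map_mul (C.pull b.g)]
  by_cases hks : s ≤ k
  · rw [show T ^ k * u = 0 by
      rw [show k = k - s + s by omega, pow_add, mul_assoc, hu, mul_zero], map_zero (C.pull b.g),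
      mul_zero, map_zero, smul_zero]
  · have h1 := van hb hu hi (e - k - (c - 1)) k (by omega)
    rw [show c - 1 + (e - k - (c - 1)) = e - k by omega] at h1
    rw [h1, smul_zero]

/-- The class `j_* g^* u` determines `u`. -/
lemma exc_eq_zero (hb : IsBlowUp b c T a) {u : C.CH Y} (h : C.push b.j (C.pull b.g u) = 0) :
    u = 0 := by
  have hc := hb.two_le
  have h1 := hb.normal (C.pull b.g u)
  rw [h, map_zero] at h1
  have h2 : b.ξ * C.pull b.g u = 0 := neg_eq_zero.1 h1.symm
  have h3 : b.ξ ^ (c - 1) * C.pull b.g u = 0 := by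
    rw [show c - 1 = c - 2 + 1 by omega, pow_succ, mul_assoc, h2, mul_zero]
  have h4 := push_mul b.g (b.ξ ^ (c - 1)) u
  rw [h3, map_zero, hb.bundle, one_mul] at h4
  exact h4.symm

end

end Pool.Agent.Run7.h174.BH
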