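import Pool.Agent.Run7.h174.BhA

/-!
# Both conjectures for the centre follow from those for the blow-up
-/

set_option autoImplicit false

open CategoryTheory AlgebraicGeometry Finset

universe u v w

namespace Pool.Agent.Run7.h174.BH

open Pool.Agent.H914 Pool.Agent.H914.VarClass Pool.Agent.H914.VarClass.Obj Pool.Agent.R903

variable {k : Type u} [Field k] {𝒱 : VarClass k} {C : ChowTheory.{u, v} 𝒱}
  {W : WeilTheory.{u, v, w} C}

/-- The homologically trivial classes. -/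
noncomputable def hom0 (W : WeilTheory.{u, v, w} C) (X : 𝒱.Obj) : Submodule ℚ (C.CH X) where
  carrier := {x | W.cl X x = 0}
  zero_mem' := map_zero _
  add_mem' {x y} hx hy := by
    change W.cl X x = 0 at hx
    change W.cl X y = 0 at hy
    change W.cl X (x + y) = 0
    rw [map_add, hx, hy, add_zero]
  smul_mem' c x hx := by
    change W.cl X x = 0 at hx
    change W.cl X (c • x) = 0
    rw [Algebra.smul_def, map_mul, hx, mul_zero]

/-- `CH^i(X)^0`: the homologically trivial classes of codimension `i`. -/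
noncomputable def ch0 (W : WeilTheory.{u, v, w} C) (X : 𝒱.Obj) (i : ℕ) : Submodule ℚ (C.CH X) :=
  hom0 W X ⊓ C.gr X i

lemma hom0_pull {X Y : 𝒱.Obj} (f : X ⟶ Y) {x : C.CH Y} (hx : x ∈ hom0 W Y) :
    C.pull f x ∈ hom0 W X := by
  change W.cl X (C.pull f x) = 0
  rw [(W.isClassFunctorial f).cl_pull, show W.cl Y x = 0 from hx, map_zero]

lemma hom0_push {X Y : 𝒱.Obj} (f : X ⟶ Y) {x : C.CH X} (hx : x ∈ hom0 W X) :
    C.push f x ∈ hom0 W Y := by
  change W.cl Y (C.push f x) = 0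
  rw [(W.isClassFunctorial f).cl_push, show W.cl X x = 0 from hx, map_zero]

lemma hom0_mul {X : 𝒱.Obj} (α : C.CH X) {x : C.CH X} (hx : x ∈ hom0 W X) :
    α * x ∈ hom0 W X := by
  change W.cl X (α * x) = 0
  rw [map_mul, show W.cl X x = 0 from hx, mul_zero]

lemma ht_pull (h : Heights W) {X Y : 𝒱.Obj} (f : X ⟶ Y) {x : C.CH Y} {y : C.CH X}
    (hx : x ∈ hom0 W Y) (hy : y ∈ hom0 W X) : h.ht X (C.pull f x) y = h.ht Y x (C.push f y) :=
  h.pull_push f x y hx hy

lemma ht_mul (h : Heights W) {X : 𝒱.Obj} (α : C.CH X) {x y : C.CH X}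
    (hx : x ∈ hom0 W X) (hy : y ∈ hom0 W X) : h.ht X (α * x) y = h.ht X x (α * y) :=
  (h.isHeight X).mul α x y hx hy

lemma ht_smul (h : Heights W) {X : 𝒱.Obj} (q : ℚ) {x y : C.CH X}
    (hx : x ∈ hom0 W X) (hy : y ∈ hom0 W X) : h.ht X x (q • y) = q * h.ht X x y :=
  (h.isHeight X).smul q x y hx hy

section

variable {Z R Y : 𝒱.Obj} {b : Square C Z R Y} {c : ℕ} {T : C.CH Y} {a : ℕ → ℚ}

/-- The class `j_* g^* x`. -/
noncomputable def exc (b : Square C Z R Y) (x : C.CH Y) : C.CH Z := C.push b.j (C.pull b.g x)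

lemma exc_hom {x : C.CH Y} (hx : x ∈ hom0 W Y) : exc b x ∈ hom0 W Z :=
  hom0_push _ (hom0_pull _ hx)

lemma exc_mem (hb : IsBlowUp b c T a) {x : C.CH Y} {p : ℕ} (hx : x ∈ C.gr Y p) :
    exc b x ∈ C.gr Z (p + 1) :=
  (C.isPullPush _).push_mem ((C.isPullPush _).pull_mem hx) (by have := hb.dim_E; omega)

lemma exc_ne (hb : IsBlowUp b c T a) {x : C.CH Y} (hx : x ≠ 0) : exc b x ≠ 0 :=
  fun h => hx (exc_eq_zero hb h)

/-- The square of the class `j_* g^* x`. -/
lemma square (h : Heights W) (hb : IsBlowUp b c T a) :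
    ∃ σ : ℕ → ℚ, σ 0 = 1 ∧ ∀ (A : C.CH R), C.pull b.i A = T → ∀ (N s : ℕ), ∀ x ∈ hom0 W Y,
      h.ht Z (exc b x) (blowDiv b A N ^ (s + c - 2) * exc b x) =
        -((∑ k ∈ range (s + 1), ((s + c - 2).choose k : ℚ) * σ (s - k) * (N : ℚ) ^ k : ℚ) : ℝ) *
          h.ht Y x (T ^ s * x) := by
  obtain ⟨σ, h0, hσ⟩ := push_P hb
  refine ⟨σ, h0, fun A hA N s x hx => ?_⟩
  have hgx : C.pull b.g x ∈ hom0 W b.E := hom0_pull _ hx
  set B := ((N : ℚ) • C.pull b.g T + b.ξ) ^ (s + c - 2) with hB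
  have h1 : blowDiv b A N ^ (s + c - 2) * exc b x = C.push b.j (B * C.pull b.g x) :=
    H_pow_push hb hA N (s + c - 2) (C.pull b.g x)
  have h2 : C.pull b.j (exc b x) = -b.ξ * C.pull b.g x := by
    rw [exc, hb.normal, neg_mul]
  have h3 : C.push b.g (-b.ξ * (B * C.pull b.g x)) =
      (-(∑ k ∈ range (s + 1), ((s + c - 2).choose k : ℚ) * σ (s - k) * (N : ℚ) ^ k)) •
        (T ^ s * x) := by
    rw [← mul_assoc, push_mul, neg_mul, map_neg, hB, hσ, neg_mul, smul_mul_assoc, neg_smul]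
  rw [h1, ← ht_pull h b.j (exc_hom hx) (hom0_mul _ hgx), h2, ht_mul h _ hgx (hom0_mul _ hgx),
    ht_pull h b.g hx (hom0_mul _ (hom0_mul _ hgx)), h3, ht_smul h _ hx (hom0_mul _ hx)]
  push_cast
  ring

/-- A polynomial with positive leading coefficient is positive for large numbers. -/
lemma pos_large (f : ℕ → ℚ) (s : ℕ) (hf : 0 < f s) :
    ∃ N₁ : ℕ, ∀ N : ℕ, N₁ ≤ N → 0 < ∑ k ∈ range (s + 1), f k * (N : ℚ) ^ k := by
  obtain ⟨M, hM⟩ := exists_nat_gt ((∑ k ∈ range s, |f k|) / f s)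
  refine ⟨M + 1, fun N hN => ?_⟩
  have hN1 : (1 : ℚ) ≤ N := by exact_mod_cast (by omega : 1 ≤ N)
  have hNM : (M : ℚ) < N := by exact_mod_cast (by omega : M < N)
  rw [Finset.sum_range_succ]
  rcases Nat.eq_zero_or_pos s with rfl | hs
  · simpa using hf
  have h1 : |∑ k ∈ range s, f k * (N : ℚ) ^ k| ≤ (∑ k ∈ range s, |f k|) * (N : ℚ) ^ (s - 1) := by
    refine (Finset.abs_sum_le_sum_abs _ _).trans ?_
    rw [Finset.sum_mul]
    refine Finset.sum_le_sum fun k hk => ?_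
    rw [Finset.mem_range] at hk
    rw [abs_mul, abs_of_nonneg (pow_nonneg (by linarith : (0 : ℚ) ≤ N) k)]
    exact mul_le_mul_of_nonneg_left (pow_le_pow_right₀ hN1 (by omega)) (abs_nonneg _)
  have h2 : (∑ k ∈ range s, |f k|) < f s * N := by
    have h3 : (∑ k ∈ range s, |f k|) / f s < N := hM.trans hNM
    rw [div_lt_iff₀ hf] at h3
    linarith
  have h4 : (∑ k ∈ range s, |f k|) * (N : ℚ) ^ (s - 1) < f s * (N : ℚ) ^ s := by
    have h5 : (N : ℚ) ^ s = N * (N : ℚ) ^ (s - 1) := by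
      rw [← pow_succ']
      congr 1
      omega
    rw [h5, ← mul_assoc]
    exact mul_lt_mul_of_pos_right h2 (pow_pos (by linarith) _)
  have h6 := neg_abs_le (∑ k ∈ range s, f k * (N : ℚ) ^ k)
  linarith

/-- **Question 2.** The conjecture for the blow-up implies the conjecture for the centre. -/
theorem hodgeIndex_centre (h : Heights W) {P : Pol C} {b : Square C Z R P.X} {A : C.CH R}
    (hb : IsBlowUp b c (C.pull b.i A) a) (hR : ∀ x, W.cl R x = 0 → x = 0) {lam : ℚ}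
    (hlam : 0 < lam) (hres : C.pull b.i A = lam • P.D)
    (hZ : ∃ N₀ : ℕ, ∀ N ≥ N₀, HodgeIndex h (blowPol b A N)) : HodgeIndex h P := by
  intro i hi x hx hx0 hprim
  obtain ⟨N₀, hN₀⟩ := hZ
  obtain ⟨σ, h0, hσ⟩ := square h hb
  have hc := hb.two_le
  have hx1 : x ∈ hom0 W P.X := hx.1
  set s := P.X.dim + 1 - 2 * i with hs
  obtain ⟨N₁, hN₁⟩ : ∃ N₁ : ℕ, ∀ N : ℕ, N₁ ≤ N → 0 < ∑ k ∈ range (s + 1),
      ((s + c - 2).choose k : ℚ) * σ (s - k) * (N : ℚ) ^ k :=
    pos_large (fun k => ((s + c - 2).choose k : ℚ) * σ (s - k)) s (by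
      rw [Nat.sub_self, h0, mul_one]
      exact_mod_cast Nat.choose_pos (show s ≤ s + c - 2 by omega))
  set N := max N₀ N₁ with hN
  have hpos := hN₁ N (le_max_right _ _)
  have hdZ : Z.dim = P.X.dim + c := by rw [hb.dim_Z, hb.dim_R]
  have hT : ∀ n, C.pull b.i A ^ n * x = lam ^ n • (P.D ^ n * x) := fun n => by
    rw [hres, smul_pow, smul_mul_assoc]
  have hT1 : C.pull b.i A ^ (s + 1) * x = 0 := by
    rw [hT, show s + 1 = P.X.dim + 2 - 2 * i by omega, hprim, smul_zero]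
  have hi0 : ∀ n, C.push b.i (C.pull b.i A ^ n * x) = 0 := fun n =>
    hR _ (hom0_push b.i (hom0_mul _ hx1))
  have h1 := hN₀ N (le_max_left _ _) (i + 1) (by
    change 2 * (i + 1) ≤ Z.dim + 1
    omega) (exc b x) ⟨exc_hom hx1, exc_mem hb hx.2⟩ (exc_ne hb hx0) (by
    change blowDiv b A N ^ (Z.dim + 2 - 2 * (i + 1)) * _ = 0
    exact prim hb rfl hT1 hi0 N (by omega))
  change 0 < (-1 : ℝ) ^ (i + 1) * h.ht Z (exc b x)
    (blowDiv b A N ^ (Z.dim + 1 - 2 * (i + 1)) * exc b x) at h1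
  rw [show Z.dim + 1 - 2 * (i + 1) = s + c - 2 by omega, hσ A rfl N s x hx1, hT,
    ht_smul h _ hx1 (hom0_mul _ hx1)] at h1
  have h3 : (0 : ℝ) < ((lam ^ s : ℚ) : ℝ) := by exact_mod_cast pow_pos hlam s
  have h4 : (0 : ℝ) < ((∑ k ∈ range (s + 1),
      ((s + c - 2).choose k : ℚ) * σ (s - k) * (N : ℚ) ^ k : ℚ) : ℝ) := by exact_mod_cast hpos
  have h5 : ∀ P' L H : ℝ, (-1 : ℝ) ^ (i + 1) * (-P' * (L * H)) = (P' * L) * ((-1 : ℝ) ^ i * H) :=
    fun P' L H => by rw [pow_succ]; ring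
  rw [h5] at h1
  exact (mul_pos_iff_of_pos_left (mul_pos h4 h3)).1 h1

/-- The relation between the classes `g_* (ξ ^ r j^* z)` for a homologically trivial class `z`. -/
lemma rel (hb : IsBlowUp b c T a) (hR : ∀ x, W.cl R x = 0 → x = 0) {z : C.CH Z}
    (hz : z ∈ hom0 W Z) (l : ℕ) : ∑ k ∈ range c,
      a k • (T ^ k * C.push b.g (b.ξ ^ (c - 1 - k + l) * C.pull b.j z)) = 0 := by
  have h1 : ∀ l : ℕ, ∃ z' ∈ hom0 W Z, C.pull b.j z' = b.ξ ^ l * C.pull b.j z := by
    intro l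
    induction l with
    | zero => exact ⟨z, hz, by rw [pow_zero, one_mul]⟩
    | succ l ih =>
      obtain ⟨z', hz', h'⟩ := ih
      refine ⟨-C.push b.j 1 * z', hom0_mul _ hz', ?_⟩
      rw [map_mul, map_neg, hb.normal, h', mul_one, neg_neg, pow_succ', mul_assoc]
  obtain ⟨z', hz', h'⟩ := h1 l
  have h2 := hb.key' z'
  rw [hR _ (hom0_push b.π hz'), map_zero, h', Finset.sum_mul, map_sum] at h2
  rw [h2]
  refine Finset.sum_congr rfl fun k _ => ?_
  rw [smul_mul_assoc, map_smul, mul_assoc, ← map_pow, push_mul', ← mul_assoc, ← pow_add]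

/-- The classes `T ^ m g_* (ξ ^ r j^* z)` are multiples of powers of `T`. -/
lemma mult (hb : IsBlowUp b c T a) (hT : T ∈ C.gr Y 1) (hR : ∀ x, W.cl R x = 0 → x = 0) {i : ℕ}
    {z : C.CH Z} (hz : z ∈ ch0 W Z (i + 1)) : ∀ r m, c - 2 ≤ m + r → ∃ x ∈ ch0 W Y i,
      T ^ m * C.push b.g (b.ξ ^ r * C.pull b.j z) = T ^ (m + r - (c - 2)) * x := by
  have hc := hb.two_le
  have hdE := hb.dim_E
  have hdZ := hb.dim_Z
  have hdR := hb.dim_R
  intro r
  induction r using Nat.strong_induction_on with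
  | _ r ih =>
    intro m hm
    rcases Nat.lt_or_ge (c - 2) r with hr | hr
    · -- use the relation
      obtain ⟨l, rfl⟩ := Nat.exists_eq_add_of_le (show c - 1 ≤ r by omega)
      have h1 := rel hb hR hz.1 l
      have hc' : c = (c - 1) + 1 := by omega
      rw [hc', Finset.sum_range_succ', hb.a_zero, one_smul, pow_zero, one_mul, Nat.add_sub_cancel,
        Nat.sub_zero] at h1
      have h2 := eq_neg_of_add_eq_zero_right h1
      have h3 : ∀ k ∈ range (c - 1), ∃ x ∈ ch0 W Y i, T ^ m * (a (k + 1) •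
          (T ^ (k + 1) * C.push b.g (b.ξ ^ (c - 1 - (k + 1) + l) * C.pull b.j z))) =
          T ^ (m + (c - 1 + l) - (c - 2)) * x := by
        intro k hk
        rw [Finset.mem_range] at hk
        obtain ⟨x, hx, hx'⟩ := ih (c - 1 - (k + 1) + l) (by omega) (m + (k + 1)) (by omega)
        refine ⟨a (k + 1) • x, Submodule.smul_mem _ _ hx, ?_⟩
        rw [mul_smul_comm, mul_smul_comm, ← mul_assoc, ← pow_add, hx']
        congr 3
        omega
      choose! x hx hx' using h3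
      refine ⟨-∑ k ∈ range (c - 1), x k, Submodule.neg_mem _ (Submodule.sum_mem _ hx), ?_⟩
      rw [h2, mul_neg, mul_neg, Finset.mul_sum, Finset.mul_sum]
      congr 1
      exact Finset.sum_congr rfl hx'
    · refine ⟨T ^ (c - 2 - r) * C.push b.g (b.ξ ^ r * C.pull b.j z),
        ⟨hom0_mul _ (hom0_push _ (hom0_mul _ (hom0_pull _ hz.1))), ?_⟩, ?_⟩
      · have h1 : b.ξ ^ r * C.pull b.j z ∈ C.gr b.E (r + (i + 1)) :=
          mem_mul (mem_pow hb.mem_ξ r) ((C.isPullPush _).pull_mem hz.2)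
        rcases Nat.lt_or_ge (i + 2 + r) c with h2 | h2
        · rw [(C.isPullPush b.g).push_eq_zero h1 (by omega), mul_zero]
          exact Submodule.zero_mem _
        · have h3 := (C.isPullPush b.g).push_mem (q := i + 2 + r - c) h1 (by omega)
          have h4 := mem_mul (mem_pow hT (c - 2 - r)) h3
          rwa [show c - 2 - r + (i + 2 + r - c) = i by omega] at h4
      · rw [← mul_assoc, ← pow_add]
        congr 2
        omega

/-- **Question 1.** The conjecture for the blow-up implies the conjecture for the centre. -/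
theorem lefschetz_centre {P : Pol C} {b : Square C Z R P.X} {A : C.CH R}
    (hb : IsBlowUp b c (C.pull b.i A) a) (hA : A ∈ C.gr R 1)
    (hR : ∀ x, W.cl R x = 0 → x = 0) {lam : ℚ} (hres : C.pull b.i A = lam • P.D) {N : ℕ}
    (hZ : Lefschetz W (blowPol b A N)) : Lefschetz W P := by
  intro i hi
  have hc := hb.two_le
  have hdE := hb.dim_E
  have hdZ : Z.dim = P.X.dim + c := by rw [hb.dim_Z, hb.dim_R]
  set s := P.X.dim + 1 - 2 * i with hs
  have hT : ∀ (n : ℕ) (x : C.CH P.X), C.pull b.i A ^ n * x = lam ^ n • (P.D ^ n * x) :=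
    fun n x => by rw [hres, smul_pow, smul_mul_assoc]
  have hTm : C.pull b.i A ∈ C.gr P.X 1 := (C.isPullPush _).pull_mem hA
  have hZi := hZ (i + 1) (by
    change 2 * (i + 1) ≤ Z.dim + 1
    omega)
  change (∀ x ∈ ch0 W Z (i + 1), blowDiv b A N ^ (Z.dim + 1 - 2 * (i + 1)) * x = 0 → x = 0) ∧
    (∀ y ∈ ch0 W Z (Z.dim + 1 - (i + 1)), ∃ x ∈ ch0 W Z (i + 1),
      blowDiv b A N ^ (Z.dim + 1 - 2 * (i + 1)) * x = y) at hZi
  rw [show Z.dim + 1 - 2 * (i + 1) = s + c - 2 by omega] at hZi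
  constructor
  · intro x hx hprim
    have hT1 : C.pull b.i A ^ s * x = 0 := by rw [hT, hprim, smul_zero]
    have hi0 : ∀ n, C.push b.i (C.pull b.i A ^ n * x) = 0 := fun n =>
      hR _ (hom0_push b.i (hom0_mul _ hx.1))
    exact exc_eq_zero hb (hZi.1 _ ⟨exc_hom hx.1, exc_mem hb hx.2⟩
      (prim hb rfl hT1 hi0 N (by omega)))
  · intro y hy
    obtain ⟨z, hz, hzw⟩ := hZi.2 (C.push b.j (b.ξ ^ (c - 2) * C.pull b.g y))
      ⟨hom0_push _ (hom0_mul _ (hom0_pull _ hy.1)),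
        (C.isPullPush _).push_mem (mem_mul (mem_pow hb.mem_ξ (c - 2))
          ((C.isPullPush _).pull_mem hy.2)) (by omega)⟩
    have h1 := congrArg (fun x => C.push b.g (C.pull b.j x)) hzw
    rw [hb.normal, map_neg, ← mul_assoc, ← pow_succ', push_mul,
      show c - 2 + 1 = c - 1 by omega, hb.bundle, one_mul, map_mul, map_pow,
      pull_H hb rfl, binom_g, Finset.sum_mul, map_sum] at h1
    have h2 : ∀ k ∈ range (s + c - 2 + 1), ∃ x ∈ ch0 W P.X i, C.push b.g
        ((((s + c - 2).choose k : ℚ) * (N : ℚ) ^ k) • (b.ξ ^ (s + c - 2 - k) *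
          C.pull b.g (C.pull b.i A ^ k)) * C.pull b.j z) = C.pull b.i A ^ s * x := by
      intro k hk
      rw [Finset.mem_range] at hk
      obtain ⟨x, hx, hx'⟩ := mult hb hTm hR hz (s + c - 2 - k) k (by omega)
      refine ⟨(((s + c - 2).choose k : ℚ) * (N : ℚ) ^ k) • x, Submodule.smul_mem _ _ hx, ?_⟩
      rw [smul_mul_assoc, map_smul, mul_comm (b.ξ ^ (s + c - 2 - k)), mul_assoc, push_mul', hx',
        mul_smul_comm]
      congr 3
      omega
    choose! x hx hx' using h2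
    refine ⟨lam ^ s • -∑ k ∈ range (s + c - 2 + 1), x k,
      Submodule.smul_mem _ _ (Submodule.neg_mem _ (Submodule.sum_mem _ hx)), ?_⟩
    rw [Finset.sum_congr rfl hx', ← Finset.mul_sum] at h1
    rw [mul_smul_comm, ← hT, mul_neg, h1, neg_neg]

end

end Pool.Agent.Run7.h174.BH
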