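import Pool.Agent.Run7.h174.BhB

/-!
# From the middle of a product to all codimensions
-/

set_option autoImplicit false

open CategoryTheory AlgebraicGeometry Finset

universe u v w

namespace Pool.Agent.Run7.h174.BH

open Pool.Agent.H914 Pool.Agent.H914.VarClass Pool.Agent.H914.VarClass.Obj Pool.Agent.R903

variable {k : Type u} [Field k] {𝒱 : VarClass k} {C : ChowTheory.{u, v} 𝒱}
  {W : WeilTheory.{u, v, w} C}

section

variable {F P : Pol C} {m : ℕ}

/-- The sum `∑ (-1) ^ l D ^ l h ^ (m - l)` on `F × X`. -/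
noncomputable def alt (F P : Pol C) (m : ℕ) : C.CH (F.X.prod P.X) :=
  ∑ l ∈ range (m + 1), (-C.pull (snd F.X P.X) P.D) ^ l *
    C.pull (fst F.X P.X) F.D ^ (m + 1 - 1 - l)

lemma alt_mul (F P : Pol C) (m : ℕ) :
    (C.pull (fst F.X P.X) F.D + C.pull (snd F.X P.X) P.D) * alt F P m =
    C.pull (fst F.X P.X) F.D ^ (m + 1) - (-C.pull (snd F.X P.X) P.D) ^ (m + 1) := by
  have h1 := (Commute.all (-C.pull (snd F.X P.X) P.D) (C.pull (fst F.X P.X) F.D)).mul_geom_sum₂
    (m + 1)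
  rw [alt]
  linear_combination -h1

lemma h_top {X : 𝒱.Obj} {D : C.CH X} (hD : D ∈ C.gr X 1) {n : ℕ} (hn : X.dim < n) :
    D ^ n = 0 := gr_zero hn (mem_pow hD n)

/-- The class `w = ∑ (-1) ^ l D ^ l x × h ^ (m - l)` is annihilated by the polarization. -/
lemma pol_alt (hF1 : F.D ∈ C.gr F.X 1) (hm : F.X.dim = m) {x : C.CH P.X} (hx : P.D ^ (m + 1) * x = 0) :
    (C.pull (fst F.X P.X) F.D + C.pull (snd F.X P.X) P.D) *
      (alt F P m * C.pull (snd F.X P.X) x) = 0 := by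
  rw [← mul_assoc, alt_mul, ← map_pow, h_top hF1 (by omega), map_zero, zero_sub, neg_pow,
    ← map_pow, neg_mul, mul_assoc, ← map_mul, hx, map_zero, mul_zero, neg_zero]

lemma alt_sq (hF1 : F.D ∈ C.gr F.X 1) (hm : F.X.dim = m) {x : C.CH P.X} (hx : P.D ^ (m + 1) * x = 0) :
    alt F P m * (alt F P m * C.pull (snd F.X P.X) x) = ((m + 1 : ℕ) * (-1 : ℚ) ^ m) •
      (C.pull (fst F.X P.X) (F.D ^ m) * C.pull (snd F.X P.X) (P.D ^ m * x)) := by
  set a := C.pull (snd F.X P.X) P.D with ha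
  set b := C.pull (fst F.X P.X) F.D with hb
  set w := alt F P m * C.pull (snd F.X P.X) x with hw
  have h1 : (b + a) * w = 0 := pol_alt hF1 hm hx
  have h3 : ∀ l, (-a) ^ l * w = b ^ l * w := by
    intro l
    induction l with
    | zero => rw [pow_zero, pow_zero]
    | succ l ih =>
      rw [pow_succ', mul_assoc, ih]
      linear_combination -(b ^ l) * h1
  have h4 : alt F P m * w = ((m + 1 : ℕ) : ℚ) • (b ^ m * w) := by
    rw [alt, Finset.sum_mul]
    have h5 : ∀ l ∈ range (m + 1), (-C.pull (snd F.X P.X) P.D) ^ l *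
        C.pull (fst F.X P.X) F.D ^ (m + 1 - 1 - l) * w = b ^ m * w := by
      intro l hl
      rw [Finset.mem_range] at hl
      rw [← ha, ← hb, mul_comm ((-a) ^ l), mul_assoc, h3, ← mul_assoc, ← pow_add,
        show m + 1 - 1 - l + l = m by omega]
    rw [Finset.sum_congr rfl h5, Finset.sum_const, Finset.card_range, ← Nat.cast_smul_eq_nsmul ℚ]
  have h6 : b ^ m * alt F P m = (-a) ^ m * b ^ m := by
    rw [alt, Finset.mul_sum, Finset.sum_eq_single m]
    · rw [← ha, ← hb, show m + 1 - 1 - m = 0 by omega, pow_zero, mul_one, mul_comm]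
    · intro l hl hlm
      rw [Finset.mem_range] at hl
      rw [← ha, ← hb, mul_left_comm, ← pow_add, hb, ← map_pow, h_top hF1 (by omega), map_zero,
        mul_zero]
    · intro hm'
      exact absurd (Finset.mem_range.2 (Nat.lt_succ_self m)) hm'
  rw [h4, hw, ← mul_assoc, h6, map_mul, map_pow, map_pow, ← ha, ← hb, neg_pow, mul_smul]
  congr 1
  rcases neg_one_pow_eq_or ℚ m with h8 | h8 <;> rcases Nat.even_or_odd m with h' | h'
  · rw [h8, h'.neg_one_pow, one_smul]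
    ring
  · exfalso
    rw [h'.neg_one_pow] at h8
    norm_num at h8
  · exfalso
    rw [h'.neg_one_pow] at h8
    norm_num at h8
  · rw [h8, h'.neg_one_pow, neg_one_smul]
    ring

lemma push_snd (F P : Pol C) (α : C.CH F.X) (x : C.CH P.X) :
    C.push (snd F.X P.X) (C.pull (fst F.X P.X) α * C.pull (snd F.X P.X) x) =
      C.deg F.X α • x := by
  rw [push_mul, C.degreeFormula F.X P.X α, ← Algebra.smul_def]

lemma push_small (P : Pol C) (hF1 : F.D ∈ C.gr F.X 1) {n : ℕ} (hn : n < F.X.dim) (x : C.CH P.X) :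
    C.push (snd F.X P.X) (C.pull (fst F.X P.X) F.D ^ n * C.pull (snd F.X P.X) x) = 0 := by
  rw [push_mul, ← map_pow, (C.isPullPush (snd F.X P.X)).push_eq_zero
    ((C.isPullPush _).pull_mem (mem_pow hF1 n)) (by rw [dim_prod]; omega), zero_mul]

/-- The class `w` determines `x`. -/
lemma push_alt (hF1 : F.D ∈ C.gr F.X 1) (hm : F.X.dim = m) (x : C.CH P.X) :
    C.push (snd F.X P.X) (alt F P m * C.pull (snd F.X P.X) x) = C.deg F.X (F.D ^ m) • x := by
  rw [alt, Finset.sum_mul, map_sum, Finset.sum_eq_single 0]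
  · rw [pow_zero, one_mul, show m + 1 - 1 - 0 = m by omega, ← map_pow, push_snd]
  · intro l hl hl0
    rw [Finset.mem_range] at hl
    rw [mul_comm ((-C.pull (snd F.X P.X) P.D) ^ l), mul_assoc, ← map_neg, ← map_pow (C.pull (snd F.X P.X)),
      ← map_mul (C.pull (snd F.X P.X)), push_small P hF1 (by omega)]
  · intro h'
    exact absurd (Finset.mem_range.2 (Nat.succ_pos m)) h'

lemma alt_mem (hF1 : F.D ∈ C.gr F.X 1) (hP1 : P.D ∈ C.gr P.X 1) (n : ℕ) :
    alt F P n ∈ C.gr (F.X.prod P.X) n := by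
  refine Submodule.sum_mem _ fun l hl => ?_
  rw [Finset.mem_range] at hl
  have h1 := mem_mul (mem_pow (Submodule.neg_mem _ ((C.isPullPush (snd F.X P.X)).pull_mem hP1)) l)
    (mem_pow ((C.isPullPush (fst F.X P.X)).pull_mem hF1) (n + 1 - 1 - l))
  rwa [show l + (n + 1 - 1 - l) = n by omega] at h1

end

/-- **Question 2 in the middle of a product implies Question 2.** -/
theorem hodgeIndex_of_middle (h : Heights W) {P : Pol C} (hP1 : P.D ∈ C.gr P.X 1)
    (hM : ∀ m, ∃ F : Pol C, IsPos F m ∧ MiddleHodgeIndex h (F.prod P)) : HodgeIndex h P := by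
  intro i hi x hx hx0 hprim
  obtain ⟨F, ⟨hm, hF1, hdeg⟩, hF⟩ := hM (P.X.dim + 1 - 2 * i)
  set m := P.X.dim + 1 - 2 * i with hmdef
  change F.D ∈ C.gr F.X 1 at hF1
  change 0 < C.deg F.X (F.D ^ m) at hdeg
  rw [show P.X.dim + 2 - 2 * i = m + 1 by omega] at hprim
  have hx1 : x ∈ hom0 W P.X := hx.1
  -- the class
  set w : C.CH (F.X.prod P.X) := alt F P m * C.pull (snd F.X P.X) x with hw
  have hsx : C.pull (snd F.X P.X) x ∈ hom0 W (F.X.prod P.X) := hom0_pull _ hx1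
  have hw1 : w ∈ hom0 W (F.X.prod P.X) := hom0_mul _ hsx
  have hw0 : w ≠ 0 := by
    intro h0
    have h2 := push_alt (P := P) hF1 hm x
    rw [← hw, h0, map_zero] at h2
    exact hx0 ((smul_eq_zero.1 h2.symm).resolve_left hdeg.ne')
  have h1 : 0 < (-1 : ℝ) ^ (m + i) * h.ht (F.X.prod P.X) w w := hF (m + i) (by
    change (F.X.prod P.X).dim + 1 = _
    rw [dim_prod]
    omega) w ⟨hw1, mem_mul (alt_mem hF1 hP1 m) ((C.isPullPush _).pull_mem hx.2)⟩ hw0
    (pol_alt hF1 hm hprim)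
  have h2 : h.ht (F.X.prod P.X) w w = ((m + 1 : ℕ) * (-1 : ℝ) ^ m) *
      ((C.deg F.X (F.D ^ m) : ℝ) * h.ht P.X x (P.D ^ m * x)) := by
    have h3 : C.push (snd F.X P.X) (alt F P m * w) =
        (((m + 1 : ℕ) * (-1 : ℚ) ^ m) * C.deg F.X (F.D ^ m)) • (P.D ^ m * x) := by
      rw [hw, alt_sq hF1 hm hprim, map_smul, push_snd, smul_smul]
    have h4 : h.ht (F.X.prod P.X) w w = h.ht (F.X.prod P.X) (C.pull (snd F.X P.X) x)
        (alt F P m * w) := by
      conv_lhs => rw [hw]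
      rw [← hw, ht_mul h _ hsx hw1]
    rw [h4, ht_pull h _ hx1 (hom0_mul _ hw1), h3, ht_smul h _ hx1 (hom0_mul _ hx1)]
    push_cast
    ring
  rw [h2] at h1
  have h6 : (-1 : ℝ) ^ m * (-1 : ℝ) ^ m = 1 := by
    rw [← mul_pow]; norm_num
  have h7 : (-1 : ℝ) ^ (m + i) * (((m + 1 : ℕ) * (-1 : ℝ) ^ m) *
      ((C.deg F.X (F.D ^ m) : ℝ) * h.ht P.X x (P.D ^ m * x))) =
      ((m + 1 : ℕ) * (C.deg F.X (F.D ^ m) : ℝ)) *
        ((-1 : ℝ) ^ i * h.ht P.X x (P.D ^ m * x)) := by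
    rw [pow_add]
    linear_combination ((-1 : ℝ) ^ i * (m + 1 : ℕ) *
      ((C.deg F.X (F.D ^ m) : ℝ) * h.ht P.X x (P.D ^ m * x))) * h6
  rw [h7] at h1
  exact (mul_pos_iff_of_pos_left (mul_pos (by exact_mod_cast Nat.succ_pos m)
    (by exact_mod_cast hdeg))).1 h1

/-- **Question 1 in the middle of a product implies Question 1.** -/
theorem lefschetz_of_middle {P : Pol C} (hP1 : P.D ∈ C.gr P.X 1)
    (hM : ∀ m, ∃ F : Pol C, IsPos F m ∧ MiddleLefschetz W (F.prod P)) : Lefschetz W P := by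
  intro i hi
  rcases Nat.eq_zero_or_pos (P.X.dim + 1 - 2 * i) with hs | hs
  · rw [hs, show P.X.dim + 1 - i = i by omega]
    exact ⟨fun x _ h => by rwa [pow_zero, one_mul] at h, fun y hy => ⟨y, hy, by rw [pow_zero, one_mul]⟩⟩
  obtain ⟨F, ⟨hm, hF1, hdeg⟩, hF⟩ := hM (P.X.dim + 1 - 2 * i - 1)
  set m := P.X.dim + 1 - 2 * i - 1 with hmdef
  change F.D ∈ C.gr F.X 1 at hF1
  change 0 < C.deg F.X (F.D ^ m) at hdeg
  have hs' : P.X.dim + 1 - 2 * i = m + 1 := by omega
  rw [hs']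
  have hF' : (∀ x ∈ ch0 W (F.X.prod P.X) (m + i),
      (C.pull (fst F.X P.X) F.D + C.pull (snd F.X P.X) P.D) * x = 0 → x = 0) ∧
      (∀ y ∈ ch0 W (F.X.prod P.X) (m + i + 1), ∃ x ∈ ch0 W (F.X.prod P.X) (m + i),
        (C.pull (fst F.X P.X) F.D + C.pull (snd F.X P.X) P.D) * x = y) := hF (m + i) (by
    change (F.X.prod P.X).dim = _
    rw [dim_prod]
    omega)
  constructor
  · intro x hx hprim
    have h1 := hF'.1 (alt F P m * C.pull (snd F.X P.X) x)
      ⟨hom0_mul _ (hom0_pull _ hx.1), mem_mul (alt_mem hF1 hP1 m) ((C.isPullPush _).pull_mem hx.2)⟩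
      (pol_alt hF1 hm hprim)
    have h2 := push_alt (P := P) hF1 hm x
    rw [h1, map_zero] at h2
    exact (smul_eq_zero.1 h2.symm).resolve_left hdeg.ne'
  · intro y hy
    obtain ⟨w, hw, hwy⟩ := hF'.2 (C.pull (snd F.X P.X) y) ⟨hom0_pull _ hy.1, by
      have h1 := (C.isPullPush (snd F.X P.X)).pull_mem hy.2
      rwa [show P.X.dim + 1 - i = m + i + 1 by omega] at h1⟩
    set a := C.pull (snd F.X P.X) P.D with ha
    set b := C.pull (fst F.X P.X) F.D with hb
    have hwy' : (b + a) * w = C.pull (snd F.X P.X) y := hwy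
    -- the classes `v l = pr_* (h ^ l w)`
    have hv : ∀ l, P.D * C.push (snd F.X P.X) (b ^ l * w) + C.push (snd F.X P.X) (b ^ (l + 1) * w) =
        C.push (snd F.X P.X) (b ^ l * C.pull (snd F.X P.X) y) := by
      intro l
      rw [← hwy', ← push_mul', ← map_add]
      congr 1
      rw [← ha]
      ring
    have hv0 : ∀ l, l ≤ m → C.push (snd F.X P.X) (b ^ l * w) =
        (-P.D) ^ l * C.push (snd F.X P.X) w := by
      intro l
      induction l with
      | zero => intro _; rw [pow_zero, pow_zero, one_mul, one_mul]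
      | succ l ih =>
        intro hl
        have h1 := hv l
        rw [hb, push_small P hF1 (by omega), ← hb, ih (by omega)] at h1
        rw [eq_neg_of_add_eq_zero_right h1, pow_succ]
        ring
    have h1 := hv m
    rw [hv0 m le_rfl] at h1
    have h2 : b ^ (m + 1) * w = 0 := by
      rw [hb, ← map_pow, h_top hF1 (by omega), map_zero, zero_mul]
    rw [h2, map_zero, add_zero, hb, ← map_pow, push_snd] at h1
    refine ⟨((C.deg F.X (F.D ^ m))⁻¹ * (-1 : ℚ) ^ m) • C.push (snd F.X P.X) w, ?_, ?_⟩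
    · change _ ∈ ch0 W P.X i
      exact Submodule.smul_mem _ _ ⟨hom0_push _ hw.1,
        (C.isPullPush (snd F.X P.X)).push_mem hw.2 (by rw [dim_prod]; omega)⟩
    · have h3 : C.deg F.X (F.D ^ m) ≠ 0 := hdeg.ne'
      have h4 : y = (C.deg F.X (F.D ^ m))⁻¹ • (P.D * ((-P.D) ^ m *
          C.push (snd F.X P.X) w)) := by
        rw [h1, smul_smul, inv_mul_cancel₀ h3, one_smul]
      rw [h4, mul_smul_comm, mul_smul]
      congr 1
      rw [neg_pow P.D]
      rcases neg_one_pow_eq_or ℚ m with h8 | h8 <;> rcases Nat.even_or_odd m with h' | h'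
      · rw [h8, h'.neg_one_pow, one_smul]
        ring
      · exfalso
        rw [h'.neg_one_pow] at h8
        norm_num at h8
      · exfalso
        rw [h'.neg_one_pow] at h8
        norm_num at h8
      · rw [h8, h'.neg_one_pow, neg_one_smul]
        ring

lemma blowPol_mem {Z R : 𝒱.Obj} {P : Pol C} {b : Square C Z R P.X} {c : ℕ} {A : C.CH R}
    {a : ℕ → ℚ} (hb : IsBlowUp b c (C.pull b.i A) a) (hA : A ∈ C.gr R 1) (N : ℕ) :
    (blowPol b A N).D ∈ C.gr (blowPol b A N).X 1 :=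
  Submodule.sub_mem _ (Submodule.smul_mem _ _ ((C.isPullPush _).pull_mem hA))
    ((C.isPullPush _).push_mem (one_mem _) (by
      have := hb.dim_E
      change 0 + Z.dim = 1 + b.E.dim
      omega))

/-- **Both conjectures follow from the test varieties.** -/
theorem main {Pols S : Set (Pol C)} (hS : S ⊆ Pols)
    (hτ : ∀ P ∈ Pols, Nonempty (Test W S P)) :
    ((∀ P ∈ Pols, Lefschetz W P) ↔ ∀ T ∈ S, MiddleLefschetz W T) ∧
      ∀ h : Heights W, (∀ P ∈ Pols, HodgeIndex h P) ↔ ∀ T ∈ S, MiddleHodgeIndex h T := by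
  have hR : ∀ {P : Pol C} (τ : Test W S P) (x : C.CH τ.R), W.cl τ.R x = 0 → x = 0 :=
    fun τ x hx => τ.trivial_R (by rw [hx, map_zero])
  refine ⟨⟨fun hL T hT q hq => ?_, fun hM P hP => ?_⟩,
    fun h => ⟨fun hL T hT q hq x hx hx0 hD => ?_, fun hM P hP => ?_⟩⟩
  · have h1 := hL T (hS hT) q (by omega)
    rw [show T.X.dim + 1 - 2 * q = 1 by omega, show T.X.dim + 1 - q = q + 1 by omega] at h1
    simpa only [pow_one] using h1
  · obtain ⟨τ⟩ := hτ P hP
    obtain ⟨N₀, hN₀⟩ := τ.mem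
    refine lefschetz_centre τ.blow τ.deg_A (hR τ) τ.restrict (N := N₀)
      (lefschetz_of_middle (blowPol_mem τ.blow τ.deg_A N₀) fun m => ?_)
    obtain ⟨F, hF, hFS⟩ := hN₀ N₀ le_rfl m
    exact ⟨F, hF, hM _ hFS⟩
  · have h1 := hL T (hS hT) q (by omega) x hx hx0 (by
      rw [show T.X.dim + 2 - 2 * q = 1 by omega, pow_one, hD])
    rwa [show T.X.dim + 1 - 2 * q = 0 by omega, pow_zero, one_mul] at h1
  · obtain ⟨τ⟩ := hτ P hP
    obtain ⟨N₀, hN₀⟩ := τ.mem
    refine hodgeIndex_centre h τ.blow (hR τ) τ.lam_pos τ.restrict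
      ⟨N₀, fun N hN => hodgeIndex_of_middle h (blowPol_mem τ.blow τ.deg_A N) fun m => ?_⟩
    obtain ⟨F, hF, hFS⟩ := hN₀ N hN m
    exact ⟨F, hF, hM _ hFS⟩

end Pool.Agent.Run7.h174.BH
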