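import Pool.Agent.R903.Chow

/-!
# Height pairings of homologically trivial cycles and rational varieties: definitions

`VarClass` is that of the starting files `Pool/Agent/H914R2`, and `ChowTheory` and `WeilTheory` are
those of the starting file `Pool/Agent/R903/Chow.lean`.
-/

set_option autoImplicit false

open CategoryTheory AlgebraicGeometry Finset

universe u v w

namespace Pool.Agent.Run7.h174.BH

open Pool.Agent.H914 Pool.Agent.H914.VarClass Pool.Agent.H914.VarClass.Obj Pool.Agent.R903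

section Alg

variable {A : Type v} [CommRing A] [Algebra ℚ A] {B : Type v} [CommRing B] [Algebra ℚ B]
  {D : Type v} [CommRing D] [Algebra ℚ D] {E : Type v} [CommRing E] [Algebra ℚ E]
  {HA : Type w} [Ring HA] {HB : Type w} [Ring HB]

/-- The class `x` has codimension `p`. -/
def InGr (gr : ℕ → Submodule ℚ A) (p : ℕ) (x : A) : Prop := x ∈ gr p

/-- The class `x` has codimension `p` and is homologically trivial. -/
def HT (cl : A →+* HA) (gr : ℕ → Submodule ℚ A) (p : ℕ) (x : A) : Prop := cl x = 0 ∧ x ∈ gr p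

/-- For `2 i ≤ n + 1` the multiplication by `t ^ (n + 1 - 2 i)` is an isomorphism of the
homologically trivial classes of codimension `i` and `n + 1 - i`. -/
def LefAlg (cl : A →+* HA) (gr : ℕ → Submodule ℚ A) (n : ℕ) (t : A) : Prop :=
  ∀ i, 2 * i ≤ n + 1 →
    (∀ x, HT cl gr i x → t ^ (n + 1 - 2 * i) * x = 0 → x = 0) ∧
    (∀ y, HT cl gr (n + 1 - i) y → ∃ x, HT cl gr i x ∧ t ^ (n + 1 - 2 * i) * x = y)

/-- For `n = 2 q` the multiplication by `t` is an isomorphism of the homologically trivial classes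
of codimension `q` and `q + 1`. -/
def MidLefAlg (cl : A →+* HA) (gr : ℕ → Submodule ℚ A) (n : ℕ) (t : A) : Prop :=
  ∀ q, n = 2 * q →
    (∀ x, HT cl gr q x → t * x = 0 → x = 0) ∧
    (∀ y, HT cl gr (q + 1) y → ∃ x, HT cl gr q x ∧ t * x = y)

/-- For `2 i ≤ n + 1` and each homologically trivial class `x ≠ 0` of codimension `i` with
`t ^ (n + 2 - 2 i) x = 0` the number `(-1) ^ i (x, t ^ (n + 1 - 2 i) x)` is positive. -/
def IndexAlg (cl : A →+* HA) (gr : ℕ → Submodule ℚ A) (h : A → A → ℝ) (n : ℕ) (t : A) : Prop :=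
  ∀ i, 2 * i ≤ n + 1 → ∀ x, HT cl gr i x → x ≠ 0 → t ^ (n + 2 - 2 * i) * x = 0 →
    0 < (-1 : ℝ) ^ i * h x (t ^ (n + 1 - 2 * i) * x)

/-- For `n + 1 = 2 q` and each homologically trivial class `x ≠ 0` of codimension `q` with
`t x = 0` the number `(-1) ^ q (x, x)` is positive. -/
def MidIndexAlg (cl : A →+* HA) (gr : ℕ → Submodule ℚ A) (h : A → A → ℝ) (n : ℕ) (t : A) : Prop :=
  ∀ q, n + 1 = 2 * q → ∀ x, HT cl gr q x → x ≠ 0 → t * x = 0 → 0 < (-1 : ℝ) ^ q * h x x

/-- The function `h` is a symmetric bilinear form on the homologically trivial classes, and the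
multiplication by each class is self-adjoint. -/
structure IsHeight (cl : A →+* HA) (h : A → A → ℝ) : Prop where
  symm : ∀ x y, cl x = 0 → cl y = 0 → h x y = h y x
  add : ∀ x y z, cl x = 0 → cl y = 0 → cl z = 0 → h x (y + z) = h x y + h x z
  smul : ∀ (c : ℚ) x y, cl x = 0 → cl y = 0 → h x (c • y) = c * h x y
  mul : ∀ a x y, cl x = 0 → cl y = 0 → h (a * x) y = h x (a * y)

/-- The projection formula `(f^* x, y) = (x, f_* y)` for homologically trivial classes. -/
def IsAdj (clA : A →+* HA) (clB : B →+* HB) (pull : B →ₐ[ℚ] A) (push : A →ₗ[ℚ] B)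
    (hA : A → A → ℝ) (hB : B → B → ℝ) : Prop :=
  ∀ x y, clB x = 0 → clA y = 0 → hA (pull x) y = hB x (push y)

/-- The class `p(a) + q(b)`. -/
def sumPull (p : A →ₐ[ℚ] D) (q : B →ₐ[ℚ] D) (a : A) (b : B) : D := p a + q b

/-- The class `N π^* a - j_* 1`. -/
noncomputable def blowAlg (pπ : A →ₐ[ℚ] D) (sj : E →ₗ[ℚ] D) (a : A) (N : ℕ) : D := (N : ℚ) • pπ a - sj 1

/-- The sum `ξ ^ (c - 1) + a₁ T ξ ^ (c - 2) + ⋯ + a_(c - 1) T ^ (c - 1)`: the Chern class of degree
`c - 1` of the excess normal bundle. -/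
def excess (ξ T : E) (c : ℕ) (a : ℕ → ℚ) : E :=
  ∑ k ∈ range c, a k • (T ^ k * ξ ^ (c - 1 - k))

/-- The relation `ξ ^ c + a₁ T ξ ^ (c - 1) + ⋯ + a_c T ^ c = 0` of Grothendieck, and
`g_* (ξ ^ (c - 1)) = 1`. -/
structure IsBundle (pg : B →ₐ[ℚ] E) (sg : E →ₗ[ℚ] B) (ξ : E) (c : ℕ) (T : B) (a : ℕ → ℚ) :
    Prop where
  relation : ∑ k ∈ range (c + 1), a k • (pg T ^ k * ξ ^ (c - k)) = 0
  bundle : sg (ξ ^ (c - 1)) = 1

/-- The formula `j^* j_* y = - ξ y`. -/
def IsNormal (pj : D →ₐ[ℚ] E) (sj : E →ₗ[ℚ] D) (ξ : E) : Prop := ∀ y, pj (sj y) = -(ξ * y)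

/-- The key formula `π^* i_* w = j_* (e g^* w)`. -/
def IsKey (pπ : A →ₐ[ℚ] D) (si : B →ₗ[ℚ] A) (sj : E →ₗ[ℚ] D) (pg : B →ₐ[ℚ] E) (e : E) : Prop :=
  ∀ w, pπ (si w) = sj (e * pg w)

/-- The excess intersection formula `i^* π_* z = g_* (e j^* z)`. -/
def IsExcess (pi : A →ₐ[ℚ] B) (sπ : D →ₗ[ℚ] A) (sg : E →ₗ[ℚ] B) (pj : D →ₐ[ℚ] E) (e : E) : Prop :=
  ∀ z, pi (sπ z) = sg (e * pj z)

/-- The pull-back of `a` is `lam` times `t`. -/
def Restricts (pi : A →ₐ[ℚ] B) (a : A) (lam : ℚ) (t : B) : Prop := pi a = lam • t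

/-- The degree of `t ^ m` is positive. -/
def PosDeg (deg : A →ₗ[ℚ] ℚ) (t : A) (m : ℕ) : Prop := 0 < deg (t ^ m)

end Alg

variable {k : Type u} [Field k] {𝒱 : VarClass k} {C : ChowTheory.{u, v} 𝒱}

/-- Height pairings of homologically trivial cycles on the varieties of the class: symmetric
bilinear forms `(x, y)` on the homologically trivial classes which satisfy the projection formula
`(f^* x, y) = (x, f_* y)` for the morphisms `f`, and `(a x, y) = (x, a y)` for all classes `a` of
cycles. (The height pairing of `CH^i(X)^0` and `CH^j(X)^0`, `i + j = dim X + 1`, is extended by zero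
to all `i`, `j`; the values on the other classes are irrelevant.) -/
structure Heights (W : WeilTheory.{u, v, w} C) where
  /-- the pairing -/
  ht : ∀ X : 𝒱.Obj, C.CH X → C.CH X → ℝ
  isHeight : ∀ X : 𝒱.Obj, IsHeight (W.cl X) (ht X)
  pull_push : ∀ {X Y : 𝒱.Obj} (f : X ⟶ Y),
    IsAdj (W.cl X) (W.cl Y) (C.pull f) (C.push f) (ht X) (ht Y)

/-- A variety with a class (in the intended use: of an ample divisor). -/
structure Pol (C : ChowTheory.{u, v} 𝒱) where
  /-- the variety -/
  X : 𝒱.Obj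
  /-- the divisor class -/
  D : C.CH X

/-- The product `F × X` with the class `D_F × 1 + 1 × D`. -/
noncomputable def Pol.prod (F P : Pol C) : Pol C where
  X := F.X.prod P.X
  D := sumPull (C.pull (fst F.X P.X)) (C.pull (snd F.X P.X)) F.D P.D

/-- Question 1 for `X` and the class `D`: if `2 i ≤ n + 1`, where `n` is the dimension, the
multiplication by `D ^ (n + 1 - 2 i)` from `CH^i(X)^0` to `CH^(n+1-i)(X)^0` is an isomorphism. -/
def Lefschetz (W : WeilTheory.{u, v, w} C) (P : Pol C) : Prop :=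
  LefAlg (W.cl P.X) (C.gr P.X) P.X.dim P.D

/-- Question 2 for `X` and the class `D`: if `2 i ≤ n + 1`, then
`(-1) ^ i (x, D ^ (n + 1 - 2 i) x) > 0` for all nonzero `x` in `CH^i(X)^0` with
`D ^ (n + 2 - 2 i) x = 0`. -/
def HodgeIndex {W : WeilTheory.{u, v, w} C} (h : Heights W) (P : Pol C) : Prop :=
  IndexAlg (W.cl P.X) (C.gr P.X) (h.ht P.X) P.X.dim P.D

/-- Question 1 in the middle, for the varieties of even dimension `2 q`: the multiplication by `D`
from `CH^q(X)^0` to `CH^(q+1)(X)^0` is an isomorphism. -/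
def MiddleLefschetz (W : WeilTheory.{u, v, w} C) (P : Pol C) : Prop :=
  MidLefAlg (W.cl P.X) (C.gr P.X) P.X.dim P.D

/-- Question 2 in the middle, for the varieties of odd dimension `2 q - 1`: `(-1) ^ q (x, x) > 0`
for all nonzero `x` in `CH^q(X)^0` with `D x = 0`. -/
def MiddleHodgeIndex {W : WeilTheory.{u, v, w} C} (h : Heights W) (P : Pol C) : Prop :=
  MidIndexAlg (W.cl P.X) (C.gr P.X) (h.ht P.X) P.X.dim P.D

/-- The varieties and morphisms of a blow-up: the blow-up `π : Z ⟶ R` with the centre `i : Y ⟶ R`,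
the exceptional divisor `j : E ⟶ Z` with its projection `g : E ⟶ Y` to the centre (the bundle of
the lines in the normal bundle), and the relative hyperplane class `ξ` on `E`. -/
structure Square (C : ChowTheory.{u, v} 𝒱) (Z R Y : 𝒱.Obj) where
  /-- the exceptional divisor -/
  E : 𝒱.Obj
  /-- the blow-up -/
  π : Z ⟶ R
  /-- the centre -/
  i : Y ⟶ R
  /-- the inclusion of the exceptional divisor -/
  j : E ⟶ Z
  /-- the projection to the centre -/
  g : E ⟶ Y
  /-- the relative hyperplane class -/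
  ξ : C.CH E

/-- The class `ξ ^ (c - 1) + a₁ T ξ ^ (c - 2) + ⋯ + a_(c - 1) T ^ (c - 1)` on `E`. -/
def Square.e {Z R Y : 𝒱.Obj} (b : Square C Z R Y) (c : ℕ) (T : C.CH Y) (a : ℕ → ℚ) :
    C.CH b.E := excess b.ξ (C.pull b.g T) c a

/-- `Z` is the blow-up of `R` along the subvariety `Y` of codimension `c`, and the Chern classes of
the normal bundle of `Y` are `a k • T ^ k`, with rational numbers `a k`: the standard formulas for
the Chow groups. -/
structure IsBlowUp {Z R Y : 𝒱.Obj} (b : Square C Z R Y) (c : ℕ) (T : C.CH Y) (a : ℕ → ℚ) :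
    Prop where
  dim_Z : Z.dim = R.dim
  dim_R : R.dim = Y.dim + c
  dim_E : b.E.dim + 1 = Z.dim
  two_le : 2 ≤ c
  comm : b.j ≫ b.π = b.g ≫ b.i
  deg_ξ : InGr (C.gr b.E) 1 b.ξ
  a_zero : a 0 = 1
  isBundle : IsBundle (C.pull b.g) (C.push b.g) b.ξ c T a
  isNormal : IsNormal (C.pull b.j) (C.push b.j) b.ξ
  isKey : IsKey (C.pull b.π) (C.push b.i) (C.push b.j) (C.pull b.g) (b.e c T a)
  isExcess : IsExcess (C.pull b.i) (C.push b.π) (C.push b.g) (C.pull b.j) (b.e c T a)

/-- The blow-up `Z` with the divisor class `N π^* A - E`. It is ample if `A` is ample and `N` is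
large. -/
noncomputable def blowPol {Z R Y : 𝒱.Obj} (b : Square C Z R Y) (A : C.CH R) (N : ℕ) : Pol C :=
  ⟨Z, blowAlg (C.pull b.π) (C.push b.j) A N⟩

/-- `F` has dimension `m` and its class has codimension one and positive degree. -/
structure IsPos (F : Pol C) (m : ℕ) : Prop where
  dim : F.X.dim = m
  mem : InGr (C.gr F.X) 1 F.D
  pos : PosDeg (C.deg F.X) F.D m

/-- A test variety for `P = (X, D)`: the blow-up `Z` of a variety `R` along `X`, and a divisor class
`A` on `R`, such that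

* `R` has no homologically trivial classes except `0`;
* `A` restricts to a positive multiple of `D` on `X`;
* the Chern classes of the normal bundle of `X` are rational multiples of the powers of the
  restriction of `A` (`blow`);
* for all large `N` and all `m` there is a variety `F` of dimension `m`, with a divisor class of
  positive degree, such that the product of `F` and of `Z` with `N π^* A - E` belongs to `S`. -/
structure Test (W : WeilTheory.{u, v, w} C) (S : Set (Pol C)) (P : Pol C) where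
  /-- the ambient variety -/
  R : 𝒱.Obj
  /-- the divisor class on the ambient variety -/
  A : C.CH R
  /-- the blow-up -/
  Z : 𝒱.Obj
  /-- the maps of the blow-up -/
  b : Square C Z R P.X
  /-- the codimension of the centre -/
  c : ℕ
  /-- the factor of the restriction of `A` -/
  lam : ℚ
  /-- the coefficients of the Chern classes -/
  a : ℕ → ℚ
  deg_D : InGr (C.gr P.X) 1 P.D
  deg_A : InGr (C.gr R) 1 A
  trivial_R : Function.Injective (W.cl R)
  lam_pos : 0 < lam
  restrict : Restricts (C.pull b.i) A lam P.D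
  blow : IsBlowUp b c (C.pull b.i A) a
  mem : ∃ N₀ : ℕ, ∀ N ≥ N₀, ∀ m, ∃ F : Pol C, IsPos F m ∧ F.prod (blowPol b A N) ∈ S

end Pool.Agent.Run7.h174.BH
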