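import Pool.Agent.Run7.h174.KW

/-!
# A bound for the trace of a unitary matrix with given eigenvalues on tensors
-/

set_option autoImplicit false
set_option linter.unusedSectionVars false

open Finset Matrix MeasureTheory Function

namespace Pool.Agent.Run7.h174

variable {B : Type} [Fintype B] [DecidableEq B]

section nrm

variable {P Q : Type} [Fintype P] [DecidableEq P] [Fintype Q] [DecidableEq Q]

/-- the norm of a tensor -/
noncomputable def nrm (x : Ten ℂ B P Q) : ℝ := ‖eu x‖

lemma nrm_sq (x : Ten ℂ B P Q) : nrm x ^ 2 = nT x := by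
  unfold nrm
  have h1 := inner_self_eq_norm_sq_to_K (𝕜 := ℂ) (eu x)
  rw [inner_eu, hT_self] at h1
  refine Complex.ofReal_injective ?_
  rw [Complex.ofReal_pow]
  exact h1.symm

lemma nrm_nonneg (x : Ten ℂ B P Q) : 0 ≤ nrm x := norm_nonneg _

lemma nrm_add_le (x y : Ten ℂ B P Q) : nrm (x + y) ≤ nrm x + nrm y := by
  unfold nrm
  rw [map_add]
  exact norm_add_le _ _

lemma nrm_smul (c : ℂ) (x : Ten ℂ B P Q) : nrm (c • x) = ‖c‖ * nrm x := by
  unfold nrm
  rw [map_smul, norm_smul]

lemma nrm_le_of_sq {x : Ten ℂ B P Q} {r : ℝ} (hr : 0 ≤ r) (h : nT x ≤ r ^ 2) : nrm x ≤ r := by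
  rw [← nrm_sq] at h
  exact abs_le_of_sq_le_sq' h hr |>.2

lemma nrm_uact {k : Matrix B B ℂ} (hk : k ∈ Matrix.unitaryGroup B ℂ) (x : Ten ℂ B P Q) :
    nrm (uact k x) = nrm x := by
  have h1 := nT_uact hk x
  rw [← nrm_sq, ← nrm_sq] at h1
  exact (pow_left_inj₀ (nrm_nonneg _) (nrm_nonneg _) two_ne_zero).1 h1

end nrm

/-- the matrix as a tensor -/
def mten (M : Matrix B B ℂ) : Ten ℂ B Unit Unit := fun u v => M (u ()) (v ())

/-- the square of the Hilbert–Schmidt norm -/
noncomputable def hs (M : Matrix B B ℂ) : ℝ := ∑ i, ∑ j, ‖M i j‖ ^ 2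

lemma nT_mten (M : Matrix B B ℂ) : nT (mten M) = hs M := by
  unfold nT hs mten
  rw [← Equiv.sum_comp (Equiv.funUnique Unit B).symm]
  refine Finset.sum_congr rfl fun i _ => ?_
  rw [← Equiv.sum_comp (Equiv.funUnique Unit B).symm]
  rfl

lemma hs_nonneg (M : Matrix B B ℂ) : 0 ≤ hs M := by
  unfold hs
  positivity

lemma hs_one : hs (1 : Matrix B B ℂ) = Fintype.card B := by
  unfold hs
  have h1 : ∀ i j : B, ‖(1 : Matrix B B ℂ) i j‖ ^ 2 = if i = j then 1 else 0 := by
    intro i j
    rw [Matrix.one_apply]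
    split_ifs <;> simp
  simp only [h1, Finset.sum_ite_eq, Finset.mem_univ, if_true, Finset.sum_const, Finset.card_univ]
  simp

/-- The distance of a unitary matrix from a scalar. -/
lemma hs_sub_scalar {h : Matrix B B ℂ} (hh : h ∈ Matrix.unitaryGroup B ℂ) {c : ℂ}
    (hc : ‖c‖ = 1) :
    hs (h - c • (1 : Matrix B B ℂ)) = 2 * Fintype.card B - 2 * (starRingEnd ℂ c * h.trace).re := by
  have h1 : ∀ i j : B, ‖(h - c • (1 : Matrix B B ℂ)) i j‖ ^ 2 = ‖h i j‖ ^ 2 +
      (if i = j then 1 - 2 * (starRingEnd ℂ c * h i j).re else 0) := by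
    intro i j
    rw [Matrix.sub_apply, Matrix.smul_apply, Matrix.one_apply, smul_eq_mul]
    by_cases hij : i = j
    · rw [if_pos hij, if_pos hij, mul_one]
      have h2 : ‖c‖ ^ 2 = 1 := by rw [hc]; norm_num
      rw [Complex.sq_norm, Complex.sq_norm, Complex.normSq_apply, Complex.normSq_apply]
      rw [Complex.sq_norm, Complex.normSq_apply] at h2
      simp only [Complex.sub_re, Complex.sub_im, Complex.mul_re, Complex.conj_re, Complex.conj_im]
      nlinarith
    · rw [if_neg hij, if_neg hij, mul_zero, sub_zero, add_zero]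
  have h2 : ∑ i, ∑ j, ‖h i j‖ ^ 2 = (Fintype.card B : ℝ) := by
    have h3 := (Matrix.mem_unitaryGroup_iff).1 hh
    have h4 := congrArg Matrix.trace h3
    rw [Matrix.trace_one, Matrix.trace] at h4
    have h5 : ∀ i, (h * star h).diag i = ((∑ j, ‖h i j‖ ^ 2 : ℝ) : ℂ) := by
      intro i
      rw [Matrix.diag_apply, Matrix.mul_apply, Complex.ofReal_sum]
      refine Finset.sum_congr rfl fun j _ => ?_
      rw [Matrix.star_apply]
      change h i j * starRingEnd ℂ (h i j) = _
      rw [Complex.mul_conj']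
      push_cast
      rfl
    simp only [h5] at h4
    exact_mod_cast h4
  unfold hs
  simp only [h1, Finset.sum_add_distrib, h2, Finset.sum_ite_eq, Finset.mem_univ, if_true]
  rw [Finset.sum_sub_distrib, Matrix.trace, Finset.mul_sum, Complex.re_sum, Finset.mul_sum]
  simp only [Finset.sum_const, Finset.card_univ, Matrix.diag_apply, nsmul_eq_mul, mul_one]
  ring

/-- Cauchy–Schwarz. -/
lemma cs_mul {ι : Type} (s : Finset ι) (f g : ι → ℂ) :
    ‖∑ i ∈ s, f i * g i‖ ^ 2 ≤ (∑ i ∈ s, ‖f i‖ ^ 2) * ∑ i ∈ s, ‖g i‖ ^ 2 := by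
  have h1 : ‖∑ i ∈ s, f i * g i‖ ≤ ∑ i ∈ s, ‖f i‖ * ‖g i‖ := by
    refine (norm_sum_le _ _).trans (le_of_eq ?_)
    exact Finset.sum_congr rfl fun i _ => norm_mul _ _
  exact (pow_le_pow_left₀ (norm_nonneg _) h1 2).trans (Finset.sum_mul_sq_le_sq_mul_sq s _ _)

/-- the slices -/
def sl {n : ℕ} (x : Ten ℂ B (Fin (n + 1)) Empty) (b : B) : Ten ℂ B (Fin n) Empty :=
  fun u v => x (Fin.cons b u) v

lemma nT_sl {n : ℕ} (x : Ten ℂ B (Fin (n + 1)) Empty) : nT x = ∑ b, nT (sl x b) := by
  unfold nT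
  rw [← Equiv.sum_comp (Fin.consEquiv (fun _ : Fin (n + 1) => B)), Fintype.sum_prod_type]
  rfl

lemma uact_sl (h : Matrix B B ℂ) {n : ℕ} (x : Ten ℂ B (Fin (n + 1)) Empty) (b : B)
    (u : Fin n → B) (v : Empty → B) :
    uact h x (Fin.cons b u) v = ∑ c, h b c * uact h (sl x c) u v := by
  unfold uact act
  rw [← Equiv.sum_comp (Fin.consEquiv (fun _ : Fin (n + 1) => B)), Fintype.sum_prod_type]
  refine Finset.sum_congr rfl fun c _ => ?_
  rw [Finset.mul_sum]
  refine Finset.sum_congr rfl fun a _ => ?_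
  rw [Finset.mul_sum]
  refine Finset.sum_congr rfl fun e _ => ?_
  rw [Fin.prod_univ_succ]
  change (h b c * ∏ p, h (u p) (a p)) * _ * x (Fin.cons c a) e = _
  unfold sl
  ring

/-- The action on tensors of a matrix near the identity. -/
lemma nrm_uact_sub {h : Matrix B B ℂ} (hh : h ∈ Matrix.unitaryGroup B ℂ) {δ : ℝ} (hδ : 0 ≤ δ)
    (hd : hs (h - 1) ≤ δ ^ 2) (n : ℕ) : ∀ x : Ten ℂ B (Fin n) Empty,
      nrm (uact h x + (-1 : ℂ) • x) ≤ n * δ * nrm x := by
  induction n with
  | zero =>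
    intro x
    have h1 : uact h x = x := by
      funext u v
      unfold uact act
      rw [Fintype.sum_unique, Fintype.sum_unique]
      simp only [Finset.univ_eq_empty, Finset.prod_empty, one_mul]
      congr 1
      · exact Subsingleton.elim _ _
      · exact Subsingleton.elim _ _
    rw [h1]
    have h2 : x + (-1 : ℂ) • x = 0 := by
      rw [neg_one_smul, add_neg_cancel]
    rw [h2]
    unfold nrm
    rw [map_zero, norm_zero]
    simp
  | succ n ih =>
    intro x
    -- the intermediate tensor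
    set y : Ten ℂ B (Fin (n + 1)) Empty := fun u v => uact h (sl x (u 0)) (fun i => u i.succ) v
      with hy
    have hysl : ∀ b, sl y b = uact h (sl x b) := by
      intro b
      funext u v
      rfl
    have hyn : nT y = nT x := by
      rw [nT_sl y, nT_sl x]
      exact Finset.sum_congr rfl fun b _ => by rw [hysl, nT_uact hh]
    have e1 : uact h x + (-1 : ℂ) • x = (uact h x + (-1 : ℂ) • y) + (y + (-1 : ℂ) • x) := by
      rw [neg_one_smul, neg_one_smul]
      abel
    have h1 : nrm (uact h x + (-1 : ℂ) • y) ≤ δ * nrm x := by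
      refine nrm_le_of_sq (mul_nonneg hδ (nrm_nonneg x)) ?_
      rw [mul_pow, nrm_sq]
      have h2 : nT (uact h x + (-1 : ℂ) • y) ≤ hs (h - 1) * nT x := by
        rw [← hyn, nT_sl y, nT_sl]
        have h3 : ∀ b, nT (sl (uact h x + (-1 : ℂ) • y) b) ≤
            ∑ u : Fin n → B, ∑ v : Empty → B, (∑ c, ‖(h - 1) b c‖ ^ 2) *
              ∑ c, ‖sl y c u v‖ ^ 2 := by
          intro b
          unfold nT
          refine Finset.sum_le_sum fun u _ => Finset.sum_le_sum fun v _ => ?_
          have h4 : sl (uact h x + (-1 : ℂ) • y) b u v = ∑ c, (h - 1) b c * sl y c u v := by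
            change uact h x (Fin.cons b u) v + (-1 : ℂ) * y (Fin.cons b u) v = _
            rw [uact_sl]
            have h5 : y (Fin.cons b u) v = ∑ c, (1 : Matrix B B ℂ) b c * sl y c u v := by
              simp only [Matrix.one_apply, ite_mul, one_mul, zero_mul, Finset.sum_ite_eq,
                Finset.mem_univ, if_true]
              rfl
            rw [h5, Finset.mul_sum, ← Finset.sum_add_distrib]
            refine Finset.sum_congr rfl fun c _ => ?_
            rw [hysl, Matrix.sub_apply]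
            ring
          rw [h4]
          exact cs_mul _ _ _
        refine (Finset.sum_le_sum fun b _ => h3 b).trans (le_of_eq ?_)
        unfold hs nT
        rw [Finset.sum_mul]
        refine Finset.sum_congr rfl fun b _ => ?_
        rw [Finset.mul_sum]
        have h6 : ∀ u : Fin n → B, (∑ v : Empty → B, (∑ c, ‖(h - 1) b c‖ ^ 2) *
            ∑ c, ‖sl y c u v‖ ^ 2) = (∑ c, ‖(h - 1) b c‖ ^ 2) *
            ∑ c, ∑ v : Empty → B, ‖sl y c u v‖ ^ 2 := by
          intro u
          rw [← Finset.mul_sum, Finset.sum_comm]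
        rw [Finset.sum_congr rfl fun u _ => h6 u, ← Finset.mul_sum, Finset.sum_comm,
          Finset.mul_sum]
      refine h2.trans (mul_le_mul_of_nonneg_right hd (nT_nonneg x))
    have h2 : nrm (y + (-1 : ℂ) • x) ≤ n * δ * nrm x := by
      refine nrm_le_of_sq (by have := nrm_nonneg x; positivity) ?_
      rw [nT_sl, mul_pow, nrm_sq, nT_sl x, Finset.mul_sum]
      refine Finset.sum_le_sum fun b _ => ?_
      have h3 := ih (sl x b)
      have h4 : sl (y + (-1 : ℂ) • x) b = uact h (sl x b) + (-1 : ℂ) • sl x b := by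
        rw [← hysl]
        rfl
      rw [h4, ← nrm_sq, ← nrm_sq, ← mul_pow]
      exact pow_le_pow_left₀ (nrm_nonneg _) h3 2
    rw [e1]
    refine (nrm_add_le _ _).trans ((add_le_add h1 h2).trans (le_of_eq ?_))
    push_cast
    ring

/-- **A bound for the trace.** -/
theorem trace_bound {h : Matrix B B ℂ} (hh : h ∈ Matrix.unitaryGroup B ℂ)
    {η : Ten ℂ B (Fin 1) Empty} (hη0 : η ≠ 0) (hη : uact h η = η) {n : ℕ} (hn : 0 < n)
    {ζ : Ten ℂ B (Fin n) Empty} (hζ0 : ζ ≠ 0) (hζ : uact h ζ = (-1 : ℂ) • ζ) :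
    ‖h.trace‖ ≤ (Fintype.card B : ℝ) -
      2 / ((n : ℝ) ^ 2 * (1 + Real.sqrt (Fintype.card B)) ^ 2) := by
  set d : ℝ := ((Fintype.card B : ℕ) : ℝ) with hd
  have hd0 : 0 ≤ d := Nat.cast_nonneg _
  have hnr : (0 : ℝ) < n := by exact_mod_cast hn
  obtain ⟨c, hc, hc'⟩ : ∃ c : ℂ, ‖c‖ = 1 ∧ (starRingEnd ℂ c * h.trace).re = ‖h.trace‖ := by
    by_cases h0 : h.trace = 0
    · exact ⟨1, norm_one, by rw [h0]; simp⟩
    · refine ⟨h.trace / ‖h.trace‖, ?_, ?_⟩
      · rw [norm_div, Complex.norm_real, norm_norm, div_self (norm_ne_zero_iff.2 h0)]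
      · rw [map_div₀, Complex.conj_ofReal, div_mul_eq_mul_div, mul_comm, Complex.mul_conj',
          ← Complex.ofReal_pow, ← Complex.ofReal_div, Complex.ofReal_re, sq,
          mul_div_assoc, div_self (norm_ne_zero_iff.2 h0), mul_one]
  set X : ℝ := nrm (mten (h - c • (1 : Matrix B B ℂ))) with hX
  have hX0 : 0 ≤ X := nrm_nonneg _
  have hX2 : X ^ 2 = 2 * d - 2 * ‖h.trace‖ := by
    rw [hX, nrm_sq, nT_mten, hs_sub_scalar hh hc, hc']
  -- the eigenvalue one
  have h1 : ‖1 - c‖ ≤ X := by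
    set v : B → ℂ := fun b => η (fun _ => b) (fun e => e.elim) with hv
    have hv0 : 0 < ∑ b, ‖v b‖ ^ 2 := by
      have h2 : v ≠ 0 := by
        intro h0
        apply hη0
        funext u e
        have h3 := congrFun h0 (u 0)
        have h4 : (fun _ : Fin 1 => u 0) = u := by
          funext i
          rw [Fin.eq_zero i]
        have h5 : (fun e : Empty => (e.elim : B)) = e := Subsingleton.elim _ _
        change η (fun _ => u 0) (fun e => e.elim) = 0 at h3
        rw [h4, h5] at h3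
        exact h3
      obtain ⟨b, hb⟩ := Function.ne_iff.1 h2
      exact Finset.sum_pos' (fun b _ => by positivity) ⟨b, Finset.mem_univ _, by
        have : 0 < ‖v b‖ := norm_pos_iff.2 hb
        positivity⟩
    have hv1 : ∀ b, ∑ c, h b c * v c = v b := by
      intro b
      have h2 := congrFun (congrFun hη (fun _ => b)) (fun e => e.elim)
      have h3 : (fun _ : Fin 1 => b) = Fin.cons b (fun i => i.elim0) := by
        funext i
        rw [Fin.eq_zero i]
        rfl
      change uact h η (fun _ => b) (fun e => e.elim) = v b at h2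
      rw [← h2, h3, uact_sl]
      refine Finset.sum_congr rfl fun c _ => ?_
      congr 1
      unfold uact act
      rw [Fintype.sum_unique, Fintype.sum_unique]
      simp only [Finset.univ_eq_empty, Finset.prod_empty, one_mul]
      unfold sl
      have h4 : (fun _ : Fin 1 => c) = Fin.cons c default := by
        funext i
        rw [Fin.eq_zero i]
        rfl
      change η (fun _ => c) (fun e => e.elim) = _
      rw [h4]
      congr 1
      exact Subsingleton.elim _ _
    have h2 : ∑ b, ‖(1 - c) * v b‖ ^ 2 ≤ X ^ 2 * ∑ b, ‖v b‖ ^ 2 := by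
      rw [hX, nrm_sq, nT_mten]
      unfold hs
      rw [Finset.sum_mul]
      refine Finset.sum_le_sum fun b _ => ?_
      have h3 : (1 - c) * v b = ∑ j, (h - c • (1 : Matrix B B ℂ)) b j * v j := by
        simp only [Matrix.sub_apply, sub_mul, Finset.sum_sub_distrib, hv1, Matrix.smul_apply,
          Matrix.one_apply, smul_eq_mul, mul_ite, mul_one, mul_zero, ite_mul, zero_mul,
          Finset.sum_ite_eq, Finset.mem_univ, if_true, one_mul]
      rw [h3]
      exact cs_mul _ _ _
    have h3 : ∑ b, ‖(1 - c) * v b‖ ^ 2 = ‖1 - c‖ ^ 2 * ∑ b, ‖v b‖ ^ 2 := by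
      rw [Finset.mul_sum]
      exact Finset.sum_congr rfl fun b _ => by rw [norm_mul, mul_pow]
    rw [h3] at h2
    exact abs_le_of_sq_le_sq' (le_of_mul_le_mul_right h2 hv0) hX0 |>.2
  -- the distance from one
  have h2 : nrm (mten (h - 1)) ≤ X * (1 + Real.sqrt d) := by
    have e1 : mten (h - 1) = mten (h - c • (1 : Matrix B B ℂ)) +
        (c - 1) • mten (1 : Matrix B B ℂ) := by
      funext u v
      simp only [mten, Matrix.sub_apply, Matrix.smul_apply, Pi.add_apply, Pi.smul_apply,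
        smul_eq_mul]
      ring
    have e2 : nrm (mten (1 : Matrix B B ℂ)) = Real.sqrt d := by
      have := nrm_sq (mten (1 : Matrix B B ℂ))
      rw [nT_mten, hs_one] at this
      rw [hd, ← this, Real.sqrt_sq (nrm_nonneg _)]
    rw [e1]
    refine (nrm_add_le _ _).trans ?_
    rw [nrm_smul, e2, norm_sub_rev]
    have := mul_le_mul_of_nonneg_right h1 (Real.sqrt_nonneg d)
    linarith
  have h3 : hs (h - 1) ≤ (nrm (mten (h - 1))) ^ 2 := by
    rw [nrm_sq, nT_mten]
  have h4 := nrm_uact_sub hh (nrm_nonneg _) h3 n ζ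
  have h5 : uact h ζ + (-1 : ℂ) • ζ = (-2 : ℂ) • ζ := by
    rw [hζ, ← add_smul]
    norm_num
  rw [h5, nrm_smul] at h4
  have hζn : 0 < nrm ζ := by
    refine lt_of_le_of_ne (nrm_nonneg _) fun h0 => hζ0 (nT_eq_zero ?_)
    rw [← nrm_sq, ← h0]
    norm_num
  have h6 : (2 : ℝ) ≤ n * (X * (1 + Real.sqrt d)) := by
    have h7 : ‖(-2 : ℂ)‖ = 2 := by simp
    rw [h7] at h4
    have h8 := le_of_mul_le_mul_right h4 hζn
    exact h8.trans (mul_le_mul_of_nonneg_left h2 hnr.le)
  have h7 : (0 : ℝ) < n * (1 + Real.sqrt d) := by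
    have := Real.sqrt_nonneg d
    positivity
  have h8 : 2 / ((n : ℝ) * (1 + Real.sqrt d)) ≤ X := by
    rw [div_le_iff₀ h7]
    linarith
  have h9 := pow_le_pow_left₀ (by positivity) h8 2
  rw [hX2, div_pow, mul_pow] at h9
  have h10 : (2 : ℝ) / ((n : ℝ) ^ 2 * (1 + Real.sqrt d) ^ 2) =
      (2 ^ 2 / ((n : ℝ) ^ 2 * (1 + Real.sqrt d) ^ 2)) / 2 := by ring
  rw [h10]
  linarith

end Pool.Agent.Run7.h174
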