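import Pool.Agent.Run7.h174.CmDefs

/-!
# Correspondences on surfaces dominated by products of curves: algebra
-/

set_option autoImplicit false

namespace Run7.h174.Cm

/-- A semisimple ring is von Neumann regular. -/
theorem exists_regular {R : Type} [Ring R] [IsSemisimpleRing R] (b : R) :
    ∃ y : R, b * (y * b) = b := by
  obtain ⟨J, hJ⟩ := exists_isCompl (Ideal.span {b} : Ideal R)
  have h1 : (1 : R) ∈ Ideal.span {b} ⊔ J := by rw [hJ.sup_eq_top]; trivial
  obtain ⟨u, hu, v, hv, huv⟩ := Submodule.mem_sup.1 h1
  obtain ⟨y, rfl⟩ := Ideal.mem_span_singleton'.1 hu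
  refine ⟨y, ?_⟩
  have h2 : b * v ∈ J := J.mul_mem_left b hv
  have h3 : b * v = b - b * (y * b) := by
    have : b * (y * b + v) = b := by rw [huv, mul_one]
    rw [mul_add] at this
    exact eq_sub_of_add_eq' this
  have h4 : b * v ∈ (Ideal.span {b} : Ideal R) := by
    rw [h3]
    refine Ideal.sub_mem _ (Ideal.mem_span_singleton_self b) ?_
    rw [← mul_assoc]
    exact Ideal.mul_mem_left _ _ (Ideal.mem_span_singleton_self b)
  have h5 : b * v = 0 := by
    have := hJ.disjoint.le_bot (show b * v ∈ (Ideal.span {b} : Ideal R) ⊓ J from ⟨h4, h2⟩)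
    simpa using this
  rw [h3, sub_eq_zero] at h5
  exact h5.symm

/-- Compositions of null endomorphisms along idempotents without closed paths. -/
theorem path {L : Type} [Field L] {T : Type} [AddCommGroup T] [Module L T] {R : Type} [Ring R]
    (ρ : R →* Module.End L T) (Null : R → Prop) (hNull : ∀ r w, Null w → Null (r * w))
    {I : Type} [Fintype I] [DecidableEq I] (E : I → R) (hsum : ∀ t, ∑ i, ρ (E i) t = t)
    (hE : ∀ i w, Null w → ρ (E i * w * E i) = 0) (n : ℕ) :
    ∀ (S : Finset I) (U : Submodule L T), S.card = n →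
      (∀ r : R, ∀ u ∈ U, ρ r u ∈ U) → (∀ u ∈ U, ∀ i, i ∉ S → ρ (E i) u = 0) →
      ∀ l : List R, (∀ w ∈ l, Null w) → n ≤ l.length → ∀ u ∈ U, ρ l.prod u = 0 := by
  induction n with
  | zero =>
    intro S U hS _ hU l _ _ u hu
    have h0 : u = 0 := by
      rw [← hsum u]
      refine Finset.sum_eq_zero fun i _ => hU u hu i ?_
      rw [Finset.card_eq_zero.1 hS]
      simp
    rw [h0, map_zero]
  | succ n ih =>
    intro S U hS hst hU l hl hlen u hu
    rcases List.eq_nil_or_concat' l with rfl | ⟨l', W, rfl⟩
    · simp at hlen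
    have hW : Null W := hl W (by simp)
    have hl' : ∀ w ∈ l', Null w := fun W' h' => hl W' (by simp [h'])
    have hlen' : n ≤ l'.length := by simpa using hlen
    rw [List.prod_append, List.prod_singleton, map_mul, Module.End.mul_apply]
    have h1 : ρ W u = ∑ i, ρ W (ρ (E i) u) := by
      rw [← map_sum, hsum]
    rw [h1, map_sum]
    refine Finset.sum_eq_zero fun i _ => ?_
    by_cases hi : i ∈ S
    · set U' : Submodule L T := Submodule.span L
        {t | ∃ w : R, Null w ∧ ∃ u' ∈ U, ρ w (ρ (E i) u') = t} with hU'
      have hsub : U' ≤ U := by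
        rw [hU', Submodule.span_le]
        rintro _ ⟨W', _, u', hu', rfl⟩
        exact hst _ _ (hst _ _ hu')
      refine ih (S.erase i) U' (by rw [Finset.card_erase_of_mem hi, hS]; rfl) ?_ ?_ l' hl' hlen' _
        (Submodule.subset_span ⟨W, hW, u, hu, rfl⟩)
      · intro r v hv
        refine Submodule.span_induction (p := fun v _ => ρ r v ∈ U') ?_ ?_ ?_ ?_ hv
        · rintro _ ⟨W', hW', u', hu', rfl⟩
          refine Submodule.subset_span ⟨r * W', hNull r W' hW', u', hu', ?_⟩
          rw [map_mul, Module.End.mul_apply]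
        · rw [map_zero]; exact U'.zero_mem
        · intro x y _ _ hx hy
          rw [map_add]; exact U'.add_mem hx hy
        · intro c x _ hx
          rw [map_smul]; exact U'.smul_mem c hx
      · intro v hv j hj
        by_cases hji : j = i
        · subst hji
          refine Submodule.span_induction (p := fun v _ => ρ (E j) v = 0) ?_ ?_ ?_ ?_ hv
          · rintro _ ⟨W', hW', u', hu', rfl⟩
            have := hE j W' hW'
            rw [map_mul, map_mul] at this
            exact LinearMap.congr_fun this u'
          · rw [map_zero]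
          · intro x y _ _ hx hy
            rw [map_add, hx, hy, add_zero]
          · intro c x _ hx
            rw [map_smul, hx, smul_zero]
        · refine hU v (hsub hv) j fun hjS => hj ?_
          exact Finset.mem_erase.2 ⟨hji, hjS⟩
    · rw [hU u hu i hi, map_zero, map_zero]

end Run7.h174.Cm
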