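import Pool.Agent.Run7.h174.CmA

/-!
# Motives of curves with complex multiplication: null endomorphisms
-/

set_option autoImplicit false

namespace Run7.h174.Cm

open CategoryTheory MonoidalCategory

variable {L : Type} [Field L] {𝓜 : Type} [Category.{0} 𝓜] [MonoidalCategory 𝓜]

/-- The tensor product with an invertible object is full. -/
theorem IsInvertible.full {U : 𝓜} (hU : IsInvertible U) {A B : 𝓜} (f : U ⊗ A ⟶ U ⊗ B) :
    ∃ g : A ⟶ B, U ◁ g = f := by
  obtain ⟨V, ⟨i⟩, ⟨j⟩⟩ := hU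
  have η : 𝟭 𝓜 ≅ tensorLeft U ⋙ tensorLeft V :=
    (leftUnitorNatIso 𝓜).symm ≪≫ ((curriedTensor 𝓜).mapIso j).symm ≪≫ tensorLeftTensor V U
  have ε : tensorLeft V ⋙ tensorLeft U ≅ 𝟭 𝓜 :=
    (tensorLeftTensor U V).symm ≪≫ (curriedTensor 𝓜).mapIso i ≪≫ leftUnitorNatIso 𝓜
  have hfull : (tensorLeft U).Full := (CategoryTheory.Equivalence.mk _ _ η ε).full_functor
  obtain ⟨g, hg⟩ := hfull.map_surjective (X := A) (Y := B) f
  exact ⟨g, hg⟩

variable [Preadditive 𝓜] [Linear L 𝓜] [MonoidalPreadditive 𝓜] [MonoidalLinear L 𝓜]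

/-- The tensor product of endomorphisms. -/
noncomputable def corrLin (L : Type) [Field L] [Linear L 𝓜] [MonoidalLinear L 𝓜] (A B : 𝓜) :
    TensorProduct L (End A) (End B) →ₗ[L] End (A ⊗ B) :=
  TensorProduct.lift (LinearMap.mk₂ L (fun (a : End A) (b : End B) => (a ⊗ₘ b : A ⊗ B ⟶ A ⊗ B))
    (fun a a' b => MonoidalPreadditive.add_tensor a a' b)
    (fun c a b => by
      simp only [MonoidalCategory.tensorHom_def]
      erw [MonoidalLinear.smul_whiskerRight]
      rw [Linear.smul_comp])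
    (fun a b b' => MonoidalPreadditive.tensor_add a b b')
    (fun c a b => by
      simp only [MonoidalCategory.tensorHom_def]
      erw [MonoidalLinear.whiskerLeft_smul]
      rw [Linear.comp_smul]))

theorem corrLin_tmul (A B : 𝓜) (a : End A) (b : End B) :
    corrLin L A B (TensorProduct.tmul L a b) = (a ⊗ₘ b : A ⊗ B ⟶ A ⊗ B) := by
  simp [corrLin]

theorem corrLin_mul (A B : 𝓜) (b c : TensorProduct L (End A) (End B)) :
    corrLin L A B (b * c) = corrLin L A B b * corrLin L A B c := by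
  induction b using TensorProduct.induction_on with
  | zero => simp
  | add x y hx hy => rw [add_mul, map_add, map_add, hx, hy, add_mul]
  | tmul α β =>
    induction c using TensorProduct.induction_on with
    | zero => simp
    | add x y hx hy => rw [mul_add, map_add, map_add, hx, hy, mul_add]
    | tmul α' β' =>
      rw [Algebra.TensorProduct.tmul_mul_tmul, corrLin_tmul, corrLin_tmul, corrLin_tmul,
        End.mul_def, End.mul_def, End.mul_def, tensorHom_comp_tensorHom]

variable {hC hD : 𝓜} {I : Type} [Fintype I] (E : CMData hC I)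

/-- The endomorphisms of a sum of copies of an invertible object, tensored with `hD`. -/
theorem CMData.corner (i : I) (W : End (hC ⊗ hD)) :
    ∃ b : TensorProduct L (End hC) (End hD),
      (E.e i ▷ hD : hC ⊗ hD ⟶ hC ⊗ hD) ≫ W ≫ (E.e i ▷ hD) = corrLin L hC hD b := by
  have h1 : ∀ n k : E.N i, ∃ g : hD ⟶ hD,
      E.U i ◁ g = (E.inc i n ▷ hD) ≫ W ≫ (E.prj i k ▷ hD) := fun n k =>
    (E.invertible i).full _
  choose g hg using h1
  refine ⟨∑ n, ∑ k, TensorProduct.tmul L (E.prj i n ≫ E.inc i k : End hC) (g n k : End hD), ?_⟩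
  have h2 : (E.e i ▷ hD : hC ⊗ hD ⟶ hC ⊗ hD) =
      ∑ n, (E.prj i n ▷ hD) ≫ (E.inc i n ▷ hD) := by
    show (tensorRight hD).map (E.e i) = _
    rw [CMData.e]
    erw [Functor.map_sum]
    refine Finset.sum_congr rfl fun n _ => ?_
    rw [Functor.map_comp]
    rfl
  rw [h2, map_sum, Preadditive.sum_comp]
  refine Finset.sum_congr rfl fun n _ => ?_
  rw [map_sum, Preadditive.comp_sum, Preadditive.comp_sum]
  refine Finset.sum_congr rfl fun k _ => ?_
  rw [corrLin_tmul]
  have h3 : ((E.prj i n ▷ hD) ≫ (E.inc i n ▷ hD)) ≫ W ≫ (E.prj i k ▷ hD) ≫ (E.inc i k ▷ hD) =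
      (E.prj i n ▷ hD) ≫ (E.U i ◁ g n k) ≫ (E.inc i k ▷ hD) := by
    rw [hg]
    simp only [Category.assoc]
  rw [h3, ← Category.assoc, ← MonoidalCategory.tensorHom_def, ← tensorHom_id, tensorHom_comp_tensorHom,
    Category.comp_id]

omit [MonoidalPreadditive 𝓜] in
theorem CMData.sum_e : ∑ i, E.e i = 1 := E.sum_eq

omit [MonoidalPreadditive 𝓜] in
theorem CMData.e_mul_e (i : I) : E.e i * E.e i = E.e i := by
  classical
  show E.e i ≫ E.e i = E.e i
  unfold CMData.e
  rw [Preadditive.sum_comp]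
  refine Finset.sum_congr rfl fun n _ => ?_
  rw [Preadditive.comp_sum, Finset.sum_eq_single n]
  · rw [Category.assoc, ← Category.assoc (E.inc i n), E.inc_prj, Category.id_comp]
  · intro k _ hk
    have h1 := E.orth ⟨i, n⟩ ⟨i, k⟩ (by
      intro h
      exact hk (by simpa using h.symm))
    rw [Category.assoc, ← Category.assoc (E.inc i n)]
    simp only at h1
    rw [h1, Limits.zero_comp, Limits.comp_zero]
  · intro h
    exact absurd (Finset.mem_univ n) h

end Run7.h174.Cm
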