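import Pool.Agent.Run7.h174.CmB

/-!
# Motives of curves with complex multiplication: the theorem
-/

set_option autoImplicit false

namespace Run7.h174.Cm

open CategoryTheory MonoidalCategory

variable {L : Type} [Field L] {𝓜 : Type} [Category.{0} 𝓜] [MonoidalCategory 𝓜]

/-- The action of the endomorphisms of `A` on `F A`. -/
def act (F : 𝓜 ⥤ ModuleCat.{0} L) (A : 𝓜) : End A →* Module.End L (F.obj A) where
  toFun W := (F.map W).hom
  map_one' := by
    show (F.map (𝟙 A)).hom = 1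
    rw [F.map_id]
    rfl
  map_mul' a b := by
    show (F.map (b ≫ a)).hom = _
    rw [F.map_comp]
    rfl

omit [MonoidalCategory 𝓜] in
theorem act_eq_zero {F : 𝓜 ⥤ ModuleCat.{0} L} {A : 𝓜} {W : End A} :
    act F A W = 0 ↔ ActsAsZero F W := by
  constructor
  · intro h
    exact ModuleCat.hom_ext h
  · intro h
    show (F.map W).hom = 0
    rw [show F.map W = 0 from h]
    rfl

variable [Preadditive 𝓜] [Linear L 𝓜] [MonoidalPreadditive 𝓜] [MonoidalLinear L 𝓜]
  {F G : 𝓜 ⥤ ModuleCat.{0} L}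

omit [MonoidalCategory 𝓜] [Preadditive 𝓜] [Linear L 𝓜] [MonoidalPreadditive 𝓜]
  [MonoidalLinear L 𝓜] in
theorem IsNull.comp_left {A B : 𝓜} {W : End A} (hW : IsNull G W) (f : B ⟶ A) (g : A ⟶ B) :
    G.map (f ≫ W ≫ g) = 0 := by
  rw [G.map_comp, G.map_comp, show G.map W = 0 from hW, Limits.zero_comp, Limits.comp_zero]

variable {hC hD : 𝓜} {I : Type} [Fintype I] (E : CMData hC I)

/-- A null element of the semisimple algebra acts as zero. -/
theorem corr_null (hss : IsSemisimpleRing (TensorProduct L (End hC) (End hD)))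
    (hK : ∀ W : End (hC ⊗ hD), IsNull G W → ∃ n : ℕ, ActsAsZero F (W ^ n))
    (b : TensorProduct L (End hC) (End hD)) (hb : IsNull G (corrLin L hC hD b)) :
    ActsAsZero F (corrLin L hC hD b) := by
  obtain ⟨y, hy⟩ := exists_regular b
  have he : (y * b) * (y * b) = y * b := by rw [mul_assoc, hy]
  have hn : IsNull G (corrLin L hC hD (y * b)) := by
    show G.map _ = 0
    rw [corrLin_mul, End.mul_def, G.map_comp, show G.map (corrLin L hC hD b) = 0 from hb,
      Limits.zero_comp]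
  obtain ⟨n, hn⟩ := hK _ hn
  rw [← act_eq_zero] at hn ⊢
  rw [map_pow] at hn
  have hi : act F _ (corrLin L hC hD (y * b)) * act F _ (corrLin L hC hD (y * b)) =
      act F _ (corrLin L hC hD (y * b)) := by
    rw [← map_mul, ← corrLin_mul, he]
  have h0 : act F _ (corrLin L hC hD (y * b)) = 0 := by
    rcases Nat.eq_zero_or_pos n with rfl | hpos
    · rw [pow_zero] at hn
      rw [← mul_one (act F _ (corrLin L hC hD (y * b))), hn, mul_zero]
    · rw [← hn]
      exact (IsIdempotentElem.pow_eq (n := n) (h := hi) (by omega)).symm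
  rw [← hy, corrLin_mul, map_mul, h0, mul_zero]

/-- Null endomorphisms have no diagonal part. -/
theorem CMData.corner_null (hss : IsSemisimpleRing (TensorProduct L (End hC) (End hD)))
    (hK : ∀ W : End (hC ⊗ hD), IsNull G W → ∃ n : ℕ, ActsAsZero F (W ^ n)) (i : I)
    (W : End (hC ⊗ hD)) (hW : IsNull G W) :
    F.map ((E.e i ▷ hD : hC ⊗ hD ⟶ hC ⊗ hD) ≫ W ≫ (E.e i ▷ hD)) = 0 := by
  obtain ⟨b, hb⟩ := E.corner (L := L) (hD := hD) i W
  rw [hb]
  refine corr_null hss hK b ?_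
  show G.map _ = 0
  rw [← hb]
  exact hW.comp_left _ _

omit [Linear L 𝓜] [MonoidalLinear L 𝓜] in
theorem CMData.sum_act [F.Additive] (t : F.obj (hC ⊗ hD)) :
    ∑ i, act F (hC ⊗ hD) (E.e i ▷ hD : hC ⊗ hD ⟶ hC ⊗ hD) t = t := by
  have h1 : ∑ i, (E.e i ▷ hD : hC ⊗ hD ⟶ hC ⊗ hD) = 𝟙 _ := by
    have h2 : ∑ i, (tensorRight hD).map (E.e i) = (tensorRight hD).map (∑ i, E.e i) := by
      erw [Functor.map_sum]
    show ∑ i, (tensorRight hD).map (E.e i) = _
    rw [h2, show ∑ i, E.e i = 𝟙 hC from E.sum_eq]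
    exact (tensorRight hD).map_id hC
  have h3 : ∑ i, F.map (E.e i ▷ hD : hC ⊗ hD ⟶ hC ⊗ hD) = 𝟙 _ := by
    rw [← F.map_sum, h1, F.map_id]
  have h4 := congrArg (fun f => f.hom t) h3
  simp only [ModuleCat.hom_sum, LinearMap.sum_apply] at h4
  exact h4

include E in
/-- The first part. -/
theorem products [F.Additive] (hss : IsSemisimpleRing (TensorProduct L (End hC) (End hD)))
    (hK : ∀ W : End (hC ⊗ hD), IsNull G W → ∃ n : ℕ, ActsAsZero F (W ^ n)) {t : 𝓜}
    (R : Retract t (hC ⊗ hD)) (l : List (End t)) (hl : ∀ Γ ∈ l, IsNull G Γ)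
    (hlen : Fintype.card I ≤ l.length) : ActsAsZero F l.prod := by
  classical
  set lift : End t → End (hC ⊗ hD) := fun Γ => R.r ≫ Γ ≫ R.i with hlift
  have h1 : ∀ l : List (End t), R.i ≫ ((l.map lift).prod : End (hC ⊗ hD)) ≫ R.r = l.prod := by
    intro l
    induction l with
    | nil =>
      show R.i ≫ 𝟙 _ ≫ R.r = 𝟙 _
      rw [Category.id_comp, R.retract]
    | cons Γ l ih =>
      rw [List.map_cons, List.prod_cons, List.prod_cons, End.mul_def, End.mul_def, ← ih]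
      simp only [hlift, Category.assoc, R.retract, Category.comp_id]
  have h2 : ∀ x, act F (hC ⊗ hD) (l.map lift).prod x = 0 := fun x =>
    path (act F (hC ⊗ hD)) (fun W => IsNull G W)
      (fun r w hw => by
        show G.map (w ≫ r) = 0
        rw [G.map_comp, show G.map w = 0 from hw, Limits.zero_comp])
      (fun i => (E.e i ▷ hD : hC ⊗ hD ⟶ hC ⊗ hD)) E.sum_act
      (fun i w hw => act_eq_zero.2 (E.corner_null hss hK i w hw))
      (Fintype.card I) Finset.univ ⊤ rfl (fun _ _ _ => trivial)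
      (fun _ _ i hi => absurd (Finset.mem_univ i) hi) (l.map lift)
      (by
        intro w hw
        obtain ⟨Γ, hΓ, rfl⟩ := List.mem_map.1 hw
        exact (hl Γ hΓ).comp_left R.r R.i)
      (by rw [List.length_map]; exact hlen) x trivial
  have h3 : ActsAsZero F ((l.map lift).prod : End (hC ⊗ hD)) :=
    act_eq_zero.1 (LinearMap.ext h2)
  show F.map _ = 0
  rw [← h1 l, F.map_comp, F.map_comp,
    show F.map ((l.map lift).prod : End (hC ⊗ hD)) = 0 from h3, Limits.zero_comp,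
    Limits.comp_zero]

/-- The second part. -/
theorem commuting [F.Additive] [F.Linear L]
    (hss : IsSemisimpleRing (TensorProduct L (End hC) (End hD)))
    (hK : ∀ W : End (hC ⊗ hD), IsNull G W → ∃ n : ℕ, ActsAsZero F (W ^ n)) {t : 𝓜}
    (R : Retract t (hC ⊗ hD)) (Z : Set (End hC)) (hZ : ∀ i, E.e i ∈ Algebra.adjoin L Z)
    (φ : End hC → End t)
    (hφ : ∀ z ∈ Z, F.map (R.r ≫ φ z) = F.map ((z ▷ hD : hC ⊗ hD ⟶ hC ⊗ hD) ≫ R.r))
    (Γ : End t) (hΓ : IsNull G Γ) (hc : ∀ z ∈ Z, F.map (φ z ≫ Γ) = F.map (Γ ≫ φ z)) :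
    ActsAsZero F Γ := by
  have key : ∀ a ∈ Algebra.adjoin L Z, ∃ f : F.obj t ⟶ F.obj t,
      f ≫ F.map Γ = F.map Γ ≫ f ∧
      F.map R.r ≫ f = F.map ((a ▷ hD : hC ⊗ hD ⟶ hC ⊗ hD) ≫ R.r) := by
    intro a ha
    induction ha using Algebra.adjoin_induction with
    | mem z hz =>
      exact ⟨F.map (φ z), by rw [← F.map_comp, ← F.map_comp, hc z hz],
        by rw [← F.map_comp, hφ z hz]⟩
    | algebraMap r =>
      refine ⟨r • 𝟙 _, by simp, ?_⟩
      rw [Algebra.algebraMap_eq_smul_one]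
      have h1 : ((r • (1 : End hC) : End hC) ▷ hD : hC ⊗ hD ⟶ hC ⊗ hD) = r • 𝟙 _ := by
        erw [MonoidalLinear.smul_whiskerRight]
        rw [show ((1 : End hC) ▷ hD : hC ⊗ hD ⟶ hC ⊗ hD) = 𝟙 _ from id_whiskerRight hC hD]
      rw [h1, Linear.smul_comp, Category.id_comp, F.map_smul, Linear.comp_smul, Category.comp_id]
    | add x y _ _ hx hy =>
      obtain ⟨f, hf, hf'⟩ := hx
      obtain ⟨g, hg, hg'⟩ := hy
      refine ⟨f + g, by rw [Preadditive.add_comp, Preadditive.comp_add, hf, hg], ?_⟩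
      have h1 : ((x + y : End hC) ▷ hD : hC ⊗ hD ⟶ hC ⊗ hD) = x ▷ hD + y ▷ hD :=
        MonoidalPreadditive.add_whiskerRight _ _
      rw [h1, Preadditive.add_comp, F.map_add, Preadditive.comp_add, hf', hg']
    | mul x y _ _ hx hy =>
      obtain ⟨f, hf, hf'⟩ := hx
      obtain ⟨g, hg, hg'⟩ := hy
      refine ⟨g ≫ f, by rw [Category.assoc, hf, ← Category.assoc, hg, Category.assoc], ?_⟩
      have h1 : ((x * y : End hC) ▷ hD : hC ⊗ hD ⟶ hC ⊗ hD) = y ▷ hD ≫ x ▷ hD := by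
        rw [End.mul_def]
        exact comp_whiskerRight _ _ _
      rw [h1, ← Category.assoc, hg', F.map_comp, Category.assoc, hf', ← F.map_comp,
        Category.assoc]
  have main : ∀ i : I, F.map (((E.e i ▷ hD : hC ⊗ hD ⟶ hC ⊗ hD) ≫ R.r) ≫ Γ) = 0 := by
    intro i
    obtain ⟨f, hf, hf'⟩ := key (E.e i) (hZ i)
    have hidem : (E.e i ▷ hD : hC ⊗ hD ⟶ hC ⊗ hD) ≫ (E.e i ▷ hD) = E.e i ▷ hD := by
      rw [← comp_whiskerRight]
      have := E.e_mul_e i
      rw [End.mul_def] at this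
      rw [this]
    -- `e r Γ = e e r Γ = e r f Γ = e r Γ f = e r Γ i r f = e (r Γ i) e r`
    have h1 : F.map (((E.e i ▷ hD : hC ⊗ hD ⟶ hC ⊗ hD) ≫ R.r) ≫ Γ) =
        F.map (E.e i ▷ hD : hC ⊗ hD ⟶ hC ⊗ hD) ≫ (F.map R.r ≫ f) ≫ F.map Γ := by
      rw [hf', ← F.map_comp, ← F.map_comp]
      congr 1
      simp only [← Category.assoc]
      rw [hidem]
    have h2 : F.map (E.e i ▷ hD : hC ⊗ hD ⟶ hC ⊗ hD) ≫ (F.map R.r ≫ f) ≫ F.map Γ =
        F.map ((E.e i ▷ hD : hC ⊗ hD ⟶ hC ⊗ hD) ≫ (R.r ≫ Γ ≫ R.i) ≫ (E.e i ▷ hD)) ≫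
          F.map R.r := by
      rw [Category.assoc, hf]
      have h3 : F.map Γ ≫ f = F.map (Γ ≫ R.i) ≫ F.map R.r ≫ f := by
        rw [← Category.assoc, ← F.map_comp, Category.assoc, R.retract, Category.comp_id]
      rw [h3, hf', ← F.map_comp, ← F.map_comp, ← F.map_comp, ← F.map_comp]
      congr 1
      simp only [Category.assoc]
    rw [h1, h2, E.corner_null hss hK i _ (hΓ.comp_left R.r R.i), Limits.zero_comp]
  have h4 : F.map (R.r ≫ Γ) = 0 := by
    have h5 : ∑ i, (E.e i ▷ hD : hC ⊗ hD ⟶ hC ⊗ hD) = 𝟙 _ := by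
      have h2 : ∑ i, (tensorRight hD).map (E.e i) = (tensorRight hD).map (∑ i, E.e i) := by
        erw [Functor.map_sum]
      show ∑ i, (tensorRight hD).map (E.e i) = _
      rw [h2, show ∑ i, E.e i = 𝟙 hC from E.sum_eq]
      exact (tensorRight hD).map_id hC
    have h6 : R.r ≫ Γ = ∑ i, ((E.e i ▷ hD : hC ⊗ hD ⟶ hC ⊗ hD) ≫ R.r) ≫ Γ := by
      rw [← Preadditive.sum_comp, ← Preadditive.sum_comp, h5, Category.id_comp]
    rw [h6, F.map_sum]
    exact Finset.sum_eq_zero fun i _ => main i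
  show F.map Γ = 0
  have h7 : Γ = R.i ≫ (R.r ≫ Γ) := by rw [← Category.assoc, R.retract, Category.id_comp]
  rw [h7, F.map_comp, h4, Limits.comp_zero]

end Run7.h174.Cm
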