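import Mathlib

/-!
# Motives of curves with complex multiplication: definitions
-/

set_option autoImplicit false

namespace Run7.h174.Cm

open CategoryTheory MonoidalCategory

variable {𝓜 : Type} [Category.{0} 𝓜] [MonoidalCategory 𝓜]

/-- The object `U` of the tensor category is invertible. -/
def IsInvertible (U : 𝓜) : Prop :=
  ∃ V : 𝓜, Nonempty (U ⊗ V ≅ 𝟙_ 𝓜) ∧ Nonempty (V ⊗ U ≅ 𝟙_ 𝓜)

/-- The object `h` is the direct sum of copies of the invertible objects `U i`, `i ∈ I`: the copies of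
`U i` are given by the inclusions `inc i n : U i ⟶ h` and the projections `prj i n : h ⟶ U i`. -/
structure CMData [Preadditive 𝓜] (h : 𝓜) (I : Type) [Fintype I] where
  U : I → 𝓜
  invertible : ∀ i, IsInvertible (U i)
  N : I → Type
  [fin : ∀ i, Fintype (N i)]
  inc : ∀ i, N i → (U i ⟶ h)
  prj : ∀ i, N i → (h ⟶ U i)
  sum_eq : ∑ i, ∑ n, prj i n ≫ inc i n = 𝟙 h
  inc_prj : ∀ i n, inc i n ≫ prj i n = 𝟙 (U i)
  orth : ∀ x y : (i : I) × N i, x ≠ y → inc x.1 x.2 ≫ prj y.1 y.2 = 0

attribute [instance] CMData.fin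

/-- The projector of `h` to the sum of the copies of `U i`. -/
def CMData.e [Preadditive 𝓜] {h : 𝓜} {I : Type} [Fintype I] (E : CMData h I) (i : I) : End h :=
  ∑ n, E.prj i n ≫ E.inc i n

variable {L : Type} [Field L]

/-- The endomorphism `Γ` acts as zero on `H^{2,0}`, the value of the functor `G`. -/
def IsNull (G : 𝓜 ⥤ ModuleCat.{0} L) {t : 𝓜} (Γ : End t) : Prop := G.map Γ = 0

/-- The endomorphism `Γ` acts as zero on the Albanese kernel, the value of the functor `F = CH²`. -/
def ActsAsZero (F : 𝓜 ⥤ ModuleCat.{0} L) {t : 𝓜} (Γ : End t) : Prop := F.map Γ = 0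

end Run7.h174.Cm
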