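import Pool.Agent.Run7.h174.NtAS
import Pool.Agent.Run7.h174.Abs2

/-!
# The complex tuple of the coordinates of algebraic classes
-/

set_option autoImplicit false
set_option linter.unusedSectionVars false

open CategoryTheory AlgebraicGeometry Finset

universe u v u'

namespace Pool.Agent.Run7.h174

open Pool.Agent.H914 Pool.Agent.H914.VarClass Pool.Agent.H914.VarClass.Obj
  Pool.Agent.H914.WeilCohomology Pool.Agent.H281R3.HT Pool.Agent.W552 Pool.Agent.W539.Ker

/-- A tuple over a field of characteristic zero with rational values of the closed networks has a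
complex companion. -/
lemma exists_complex {K : Type v} [Field K] [CharZero K] {B : Type} [Fintype B] [DecidableEq B]
    {I : Type} [Fintype I] {L : I → Type} [∀ i, Fintype (L i)] [∀ i, DecidableEq (L i)] {i0 : I}
    {e0 : L i0 ≃ Option Unit} (w : ∀ j, Ten K B (UA L j) (LC L j)) (hw : Met e0 w) :
    ∃ a : ∀ j, Ten ℂ B (UA L j) (LC L j), Met e0 a ∧
      ∀ (t : Net (UA L) (LC L) Empty Empty) (q : ℚ), cv w t = q → cv a t = q := by
  classical
  set S : Set K := ⋃ j : I × Bool, ⋃ u : UA L j → B, ⋃ v : LC L j → B, {w j u v} with hS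
  have hSc : S.Countable := Set.countable_iUnion fun j => Set.countable_iUnion fun u =>
    Set.countable_iUnion fun v => Set.countable_singleton _
  obtain ⟨F, σ, hF⟩ := exists_subfield_hom S hSc
  have hmem : ∀ j u v, w j u v ∈ F := fun j u v => hF (Set.mem_iUnion.2 ⟨j, Set.mem_iUnion.2
    ⟨u, Set.mem_iUnion.2 ⟨v, rfl⟩⟩⟩)
  set wF : ∀ j, Ten F B (UA L j) (LC L j) := fun j u v => ⟨w j u v, hmem j u v⟩ with hwF
  have h1 : (fun j => tmap F.subtype (wF j)) = w := by
    funext j u v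
    rfl
  have h2 : Met e0 wF := by
    refine Met.of_map (σ := F.subtype) Subtype.val_injective ?_
    rw [h1]
    exact hw
  refine ⟨fun j => tmap σ (wF j), h2.map σ, fun t q hq => ?_⟩
  rw [← h1, cv_map] at hq
  have h3 : cv wF t = (q : F) := by
    apply Subtype.ext
    rw [show ((cv wF t : F) : K) = F.subtype (cv wF t) from rfl, hq]
    simp
  rw [cv_map, h3]
  simp

section two

variable {I : Type} {L : I → Type} [∀ i, Fintype (L i)] [∀ i, DecidableEq (L i)] {i0 : I}
  (e0 : L i0 ≃ Option Unit) {B : Type} [Fintype B] [DecidableEq B]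

/-- the lift of a complex tuple -/
def upl (w : ∀ j, Ten ℂ B (UA L j) (LC L j)) : ∀ j, Ten (ULift.{v} ℂ) B (UA L j) (LC L j) :=
  fun j u v => ULift.up (w j u v)

lemma upl_down (w : ∀ j, Ten ℂ B (UA L j) (LC L j)) :
    (fun j => tmap (ULift.ringEquiv.{0, v} (R := ℂ)).toRingHom (upl.{v} w j)) = w := rfl

/-- Lowering, in two universes. -/
lemma exists_low2 {P Q : Type} [Fintype P] [DecidableEq P] [Fintype Q] [DecidableEq Q]
    (t : Net (UA L) (LC L) P Q) : ∃ t' : Net (UA L) (LC L) Q P,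
    (∀ (R : Type v) [CommRing R] (w : ∀ j, Ten R B (UA L j) (LC L j)),
      ev w t' = tswap (act (phM e0 w) (psM e0 w) (ev w t))) ∧
    ∀ (w : ∀ j, Ten ℂ B (UA L j) (LC L j)),
      ev w t' = tswap (act (phM e0 w) (psM e0 w) (ev w t)) := by
  obtain ⟨t', ht'⟩ := exists_low.{v} (B := B) e0 t
  refine ⟨t', ht', fun w => ?_⟩
  have h1 := ev_map (ULift.ringEquiv.{0, v} (R := ℂ)).toRingHom (upl.{v} w) t'
  rw [upl_down, ht'] at h1
  have h2 := tmap_act (ULift.ringEquiv.{0, v} (R := ℂ)).toRingHom (phM e0 (upl.{v} w))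
    (psM e0 (upl.{v} w)) (ev (upl.{v} w) t)
  have h3 := ev_map (ULift.ringEquiv.{0, v} (R := ℂ)).toRingHom (upl.{v} w) t
  rw [upl_down] at h3
  rw [← h3] at h2
  rw [h1]
  exact congrArg tswap h2

/-- Pairings, in two universes. -/
lemma exists_pair2 {P Q : Type} [Fintype P] [DecidableEq P] [Fintype Q] [DecidableEq Q]
    (s : Net (UA L) (LC L) P Q) (t : Net (UA L) (LC L) Q P) :
    ∃ t' : Net (UA L) (LC L) Empty Empty,
      (∀ (R : Type v) [CommRing R] (w : ∀ j, Ten R B (UA L j) (LC L j)),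
        cv w t' = pairT (ev w s) (ev w t)) ∧
      ∀ (w : ∀ j, Ten ℂ B (UA L j) (LC L j)), cv w t' = pairT (ev w s) (ev w t) := by
  obtain ⟨t', ht'⟩ := exists_pair.{v} (B := B) s t
  refine ⟨t', ht', fun w => ?_⟩
  have h1 := cv_map (ULift.ringEquiv.{0, v} (R := ℂ)).toRingHom (upl.{v} w) t'
  have h2 := ev_map (ULift.ringEquiv.{0, v} (R := ℂ)).toRingHom (upl.{v} w) s
  have h3 := ev_map (ULift.ringEquiv.{0, v} (R := ℂ)).toRingHom (upl.{v} w) t
  rw [upl_down, ht'] at h1
  rw [upl_down] at h2 h3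
  rw [h1, h2, h3]
  unfold pairT tmap
  simp only [map_sum, map_mul]

end two

variable {k : Type u} [Field k] {𝒱 : VarClass k} {ops : CycleOps 𝒱}
  {W : WeilCohomology.{u, v} ops} {P : Polarized 𝒱}
  {f : Module.End W.K (W.H P.X)} {bX : HB W P.X} {e' : Fin bX.N → W.H P.X}

section link

variable {I : Type} [Fintype I] {m : I → ℕ} {i0 : I} {e0 : LI m i0 ≃ Option Unit}
  {z : ∀ i, W.H (NP ops P (m i)).X} {ps : Matrix (Fin bX.N) (Fin bX.N) W.K}
  {a : ∀ j, Ten ℂ (Fin bX.N) (UA (LI m) j) (LC (LI m) j)}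

/-- The values of the form are the same. -/
lemma bw_link (F : Fr W P.X P.D f)
    (hphi : phM e0 (tup bX f ps m z) = phG bX f)
    (hlink : ∀ (t : Net (UA (LI m)) (LC (LI m)) Empty Empty) (q : ℚ),
      cv (tup bX f ps m z) t = q → cv a t = q) {n : ℕ}
    (t t' : Net (UA (LI m)) (LC (LI m)) (Fin (n + 1)) Empty) {q : ℚ}
    (hq : bf W (NP ops P n).X (NP ops P n).D (fN W P f n) (nt bX n (ev (tup bX f ps m z) t))
      (nt bX n (ev (tup bX f ps m z) t')) = q) :
    bw e0 a (ev a t) (ev a t') = q := by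
  obtain ⟨s, hs, hs'⟩ := exists_low2.{v} (B := Fin bX.N) e0 t'
  obtain ⟨r, hr, hr'⟩ := exists_pair2.{v} (B := Fin bX.N) t s
  have h1 : cv (tup bX f ps m z) r = q := by
    rw [hr, hs, ← hq, bf_nt F bX n (psM e0 (tup bX f ps m z)), hphi]
    rfl
  have h2 := hlink r q h1
  rw [hr', hs'] at h2
  exact h2

end link

end Pool.Agent.Run7.h174
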