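import Pool.Agent.Run7.h174.Cx

/-!
# Complete families of algebraic classes and complete families of tensors
-/

set_option autoImplicit false
set_option linter.unusedSectionVars false

open CategoryTheory AlgebraicGeometry Finset

universe u v u'

namespace Pool.Agent.Run7.h174

open Pool.Agent.H914 Pool.Agent.H914.VarClass Pool.Agent.H914.VarClass.Obj
  Pool.Agent.H914.WeilCohomology Pool.Agent.H281R3.HT Pool.Agent.W552 Pool.Agent.W539.Ker

variable {k : Type u} [Field k] {𝒱 : VarClass k} {ops : CycleOps 𝒱}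
  {W : WeilCohomology.{u, v} ops} {P : Polarized 𝒱}
  {f : Module.End W.K (W.H P.X)} {bX : HB W P.X} {e' : Fin bX.N → W.H P.X}

/-- A complete orthogonal family of algebraic classes. -/
structure CF (W : WeilCohomology.{u, v} ops) (X : 𝒱.Obj) (D : X.Cycles)
    (g : Module.End W.K (W.H X)) {ι : Type} [DecidableEq ι] (x : ι → W.H X) (c : ι → ℚ) :
    Prop where
  as : ∀ s, AS W X (x s)
  ne : ∀ s, c s ≠ 0
  form : ∀ s t, bf W X D g (x s) (x t) = if s = t then (c s : W.K) else 0
  max : ∀ v, AS W X v → (∀ s, bf W X D g v (x s) = 0) → ∀ v', AS W X v' → bf W X D g v v' = 0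

variable {I : Type} [Fintype I] {m : I → ℕ} {i0 : I} {e0 : LI m i0 ≃ Option Unit}
  {z : ∀ i, W.H (NP ops P (m i)).X} {ps : Matrix (Fin bX.N) (Fin bX.N) W.K}
  {a : ∀ j, Ten ℂ (Fin bX.N) (UA (LI m) j) (LC (LI m) j)}

/-- Complete families of classes give complete families of tensors. -/
theorem orf_of_cf (G : Gd W P.X P.D f) (hd : IsDual bX e') (hz : ∀ i, AS W _ (z i))
    (hphi : phM e0 (tup bX f ps m z) = phG bX f) (hmet : Met e0 a)
    (hlink : ∀ (t : Net (UA (LI m)) (LC (LI m)) Empty Empty) (q : ℚ),
      cv (tup bX f ps m z) t = q → cv a t = q) {n : ℕ} {ι : Type} [Fintype ι] [DecidableEq ι]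
    {x : ι → W.H (NP ops P n).X} {c : ι → ℚ}
    (h : CF W (NP ops P n).X (NP ops P n).D (fN W P f n) x c)
    (ts : ι → Net (UA (LI m)) (LC (LI m)) (Fin (n + 1)) Empty)
    (hts : ∀ s, nt bX n (ev (tup bX f ps m z) (ts s)) = x s) :
    OrF e0 a (fun s => ev a (ts s)) (fun s => (c s : ℝ)) := by
  have F := fr_N G.fr (ops := ops) n
  have hAS : ∀ t : Net (UA (LI m)) (LC (LI m)) (Fin (n + 1)) Empty,
      AS W _ (nt bX n (ev (tup bX f ps m z) t)) := fun t => nt_AS (good_ev G hd hz ps t)
  have hbwlow : ∀ (y : Ten ℂ (Fin bX.N) (Fin (n + 1)) Empty)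
      (t : Net (UA (LI m)) (LC (LI m)) (Fin (n + 1)) Empty),
      (∀ s : Net (UA (LI m)) (LC (LI m)) Empty (Fin (n + 1)), pairT y (ev a s) = 0) →
      bw e0 a y (ev a t) = 0 := by
    intro y t hy
    obtain ⟨s, _, hs⟩ := exists_low2.{v} (B := Fin bX.N) e0 t
    have h1 := hy s
    rw [hs] at h1
    exact h1
  -- the decomposition
  have key : ∀ y ∈ Sp ℝ a (Fin (n + 1)) Empty, ∃ (y0 : Ten ℂ (Fin bX.N) (Fin (n + 1)) Empty)
      (ρ : ι → ℝ), (∀ s : Net (UA (LI m)) (LC (LI m)) Empty (Fin (n + 1)),
        pairT y0 (ev a s) = 0) ∧ y = y0 + ∑ s, ρ s • ev a (ts s) := by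
    intro y hy
    unfold Sp at hy
    induction hy using Submodule.span_induction with
    | mem y hy =>
      obtain ⟨t, rfl⟩ := hy
      set v := nt bX n (ev (tup bX f ps m z) t) with hv
      choose r hr using fun s => F.bf_rat (hAS t) (h.as s)
      refine ⟨ev a t + (-1 : ℝ) • ∑ s, ((r s / c s : ℚ) : ℝ) • ev a (ts s),
        fun s => ((r s / c s : ℚ) : ℝ), fun t'' => ?_, ?_⟩
      · -- the class
        set v' := v + (-1 : W.K) • ∑ s, ((r s / c s : ℚ) : W.K) • x s with hv'
        have hv'AS : AS W _ v' := by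
          have h1 := (AS.ratSub (W := W) (X := (NP ops P n).X)).sum (Finset.univ : Finset ι)
            (f := fun s => ((r s / c s : ℚ) : W.K) • x s) (fun s _ => (h.as s).smul _)
          have h2 := h1.smul (-1)
          push_cast at h2
          exact (hAS t).add (by simpa using h2)
        have hv'0 : ∀ s, bf W (NP ops P n).X (NP ops P n).D (fN W P f n) v' (x s) = 0 := by
          intro s
          rw [hv', map_add, LinearMap.add_apply, map_smul, LinearMap.smul_apply,
            map_sum (bf W (NP ops P n).X (NP ops P n).D (fN W P f n)), LinearMap.sum_apply,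
            Finset.sum_eq_single s]
          · rw [map_smul, LinearMap.smul_apply, h.form, if_pos rfl, hr, smul_eq_mul, smul_eq_mul]
            have h3 : (c s : W.K) ≠ 0 := by exact_mod_cast h.ne s
            push_cast
            rw [div_mul_cancel₀ _ h3]
            ring
          · intro s' _ hs'
            rw [map_smul, LinearMap.smul_apply, h.form, if_neg hs', smul_zero]
          · intro h; exact absurd (Finset.mem_univ _) h
        obtain ⟨t3, _, ht3⟩ := exists_low2.{v} (B := Fin bX.N) e0 t''
        have e1 : ev a t'' = tswap (act (phM e0 a) (psM e0 a) (ev a t3)) := by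
          rw [ht3, tswap_act, tswap_tswap, hmet.double (ev_mem t'')]
        have h1 := h.max v' hv'AS hv'0 _ (hAS t3)
        obtain ⟨p, hp⟩ := F.bf_rat (hAS t) (hAS t3)
        choose p' hp' using fun s => F.bf_rat (h.as s) (hAS t3)
        rw [hv', map_add, LinearMap.add_apply, map_smul, LinearMap.smul_apply,
          map_sum (bf W (NP ops P n).X (NP ops P n).D (fN W P f n)), LinearMap.sum_apply, hp] at h1
        have h2 : p - ∑ s, r s / c s * p' s = 0 := by
          have h3 : ((p - ∑ s, r s / c s * p' s : ℚ) : W.K) = 0 := by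
            rw [← h1]
            push_cast
            rw [neg_one_smul, ← sub_eq_add_neg]
            congr 1
            refine Finset.sum_congr rfl fun s _ => ?_
            rw [map_smul, LinearMap.smul_apply, hp', smul_eq_mul]
          exact_mod_cast h3
        have h4 : bw e0 a (ev a t + (-1 : ℝ) • ∑ s, ((r s / c s : ℚ) : ℝ) • ev a (ts s))
            (ev a t3) = ((p - ∑ s, r s / c s * p' s : ℚ) : ℂ) := by
          rw [bw_add_left, bw_smul_left, bw_sum_left,
            bw_link G.fr hphi hlink t t3 (q := p) hp]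
          push_cast
          rw [neg_one_smul, ← sub_eq_add_neg]
          congr 1
          refine Finset.sum_congr rfl fun s _ => ?_
          rw [bw_smul_left, bw_link G.fr hphi hlink (ts s) t3 (q := p' s)
            (by rw [hts]; exact hp' s), Complex.real_smul]
          push_cast
          ring
        rw [e1]
        change bw e0 a _ (ev a t3) = 0
        rw [h4, h2]
        simp
      · beta_reduce
        rw [neg_one_smul]
        abel
    | zero => exact ⟨0, 0, fun s => pairT_zero_left _, by simp⟩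
    | add y y' _ _ hy hy' =>
      obtain ⟨y0, ρ, h1, rfl⟩ := hy
      obtain ⟨y0', ρ', h1', rfl⟩ := hy'
      refine ⟨y0 + y0', ρ + ρ', fun s => by rw [pairT_add_left, h1, h1', add_zero], ?_⟩
      simp only [Pi.add_apply, add_smul, Finset.sum_add_distrib]
      abel
    | smul r y _ hy =>
      obtain ⟨y0, ρ, h1, rfl⟩ := hy
      refine ⟨r • y0, r • ρ, fun s => by rw [pairT_smul_left, h1, smul_zero], ?_⟩
      simp only [Pi.smul_apply, smul_add, Finset.smul_sum, smul_smul, smul_eq_mul]
  have hform : ∀ s t, bw e0 a (ev a (ts s)) (ev a (ts t)) =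
      if s = t then ((c s : ℝ) : ℂ) else 0 := by
    intro s t
    have h1 : bw e0 a (ev a (ts s)) (ev a (ts t)) = ((if s = t then c s else 0 : ℚ) : ℂ) := by
      refine bw_link G.fr hphi hlink (ts s) (ts t) ?_
      rw [hts, hts, h.form]
      split_ifs <;> simp
    rw [h1]
    split_ifs <;> simp
  refine ⟨fun s => ev_mem _, fun s => by exact_mod_cast h.ne s, hform, fun y hy h0 t => ?_⟩
  obtain ⟨y0, ρ, h1, rfl⟩ := key y hy
  have hρ : ∀ s, ρ s = 0 := by
    intro s
    have h2 := h0 s
    rw [bw_add_left, hbwlow y0 (ts s) h1, zero_add, bw_sum_left, Finset.sum_eq_single s] at h2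
    · rw [bw_smul_left, hform, if_pos rfl, Complex.real_smul] at h2
      have h3 : ρ s * (c s : ℝ) = 0 := by exact_mod_cast h2
      rcases mul_eq_zero.1 h3 with h4 | h4
      · exact h4
      · exact absurd (by exact_mod_cast h4) (h.ne s)
    · intro s' _ hs'
      rw [bw_smul_left, hform, if_neg hs', smul_zero]
    · intro h; exact absurd (Finset.mem_univ _) h
  have e2 : ∑ s, ρ s • ev a (ts s) = 0 := Finset.sum_eq_zero fun s _ => by
    rw [hρ, zero_smul]
  rw [e2, add_zero]
  exact h1 t

end Pool.Agent.Run7.h174
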