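import Pool.Agent.Run7.h174.Bnd
import Pool.Agent.Run7.h174.AT

/-!
# A lower bound for the dimension of the space of values of networks
-/

set_option autoImplicit false
set_option linter.unusedSectionVars false

open Finset Matrix MeasureTheory Function

namespace Pool.Agent.Run7.h174

variable {B : Type} [Fintype B] [DecidableEq B]

/-- the matrix of a tensor with two legs -/
def mx (x : Ten ℂ B (Option Unit) Empty) : Matrix B B ℂ := fun b c =>
  x (oext b (fun _ => c)) (fun e => e.elim)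

lemma mx_act (g g' : Matrix B B ℂ) (x : Ten ℂ B (Option Unit) Empty) :
    mx (act g g' x) = g * mx x * g.transpose := by
  have hu : ∀ F : (Unit → B) → ℂ, ∑ u, F u = ∑ j, F (fun _ => j) := fun F =>
    (Equiv.sum_comp (Equiv.funUnique Unit B).symm F).symm
  ext b c
  rw [Matrix.mul_apply]
  have h1 : ∀ j, (g * mx x) b j * g.transpose j c = ∑ i, g b i * g c j * mx x i j := by
    intro j
    rw [Matrix.mul_apply, Finset.sum_mul]
    refine Finset.sum_congr rfl fun i _ => ?_
    rw [Matrix.transpose_apply]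
    ring
  rw [Finset.sum_congr rfl fun j _ => h1 j, Finset.sum_comm]
  unfold mx act
  rw [← Equiv.sum_comp (Equiv.piOptionEquivProd (β := fun _ : Option Unit => B)).symm,
    Fintype.sum_prod_type]
  refine Finset.sum_congr rfl fun i _ => ?_
  rw [hu]
  refine Finset.sum_congr rfl fun j _ => ?_
  rw [Fintype.sum_unique, Fintype.prod_option]
  simp only [Finset.univ_eq_empty, Finset.prod_empty, mul_one, Finset.univ_unique,
    Finset.prod_singleton]
  have e1 : (Equiv.piOptionEquivProd (β := fun _ : Option Unit => B)).symm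
      (i, fun _ => j) = oext i (fun _ => j) := by
    funext o
    rcases o with _ | o <;> rfl
  rw [e1, show (default : Empty → B) = fun e => e.elim from Subsingleton.elim _ _]
  rfl

section main

variable {I : Type} [Fintype I] {L : I → Type} [∀ i, Fintype (L i)] [∀ i, DecidableEq (L i)]
  {i0 : I} {e0 : L i0 ≃ Option Unit} {a w : ∀ j, Ten ℂ B (UA L j) (LC L j)}

lemma mx_psN : mx (ev w (psN e0)) = psM e0 w := by
  ext b c
  unfold mx
  rw [ev_psN]
  rfl

/-- The elements of the stabilizer have real traces. -/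
lemma trace_real (hm : Met e0 w) {k : UU B}
    (hk : ∀ j, uact (k : Matrix B B ℂ) (w j) = w j) :
    starRingEnd ℂ (k : Matrix B B ℂ).trace = (k : Matrix B B ℂ).trace := by
  have h1 := uact_sp hk (ev_mem (psN e0) : ev w (psN e0) ∈ Sp ℂ w (Option Unit) Empty)
  have h2 := congrArg mx h1
  unfold uact at h2
  rw [mx_act, mx_psN] at h2
  have h3 : (k : Matrix B B ℂ) * psM e0 w = psM e0 w * cjm (k : Matrix B B ℂ) := by
    conv_rhs => rw [← h2]
    rw [Matrix.mul_assoc, unitary_one k.2, Matrix.mul_one]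
  have h4 : psM e0 w * (phM e0 w).transpose = 1 := mul_eq_one_comm.1 hm.one
  have h5 : (k : Matrix B B ℂ).trace = (cjm (k : Matrix B B ℂ)).trace := by
    calc (k : Matrix B B ℂ).trace = ((k : Matrix B B ℂ) * (psM e0 w *
          (phM e0 w).transpose)).trace := by rw [h4, Matrix.mul_one]
      _ = (psM e0 w * (cjm (k : Matrix B B ℂ) * (phM e0 w).transpose)).trace := by
          rw [← Matrix.mul_assoc, h3, Matrix.mul_assoc]
      _ = ((cjm (k : Matrix B B ℂ) * (phM e0 w).transpose) * psM e0 w).trace :=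
          Matrix.trace_mul_comm _ _
      _ = _ := by rw [Matrix.mul_assoc, hm.one, Matrix.mul_one]
  conv_rhs => rw [h5]
  unfold Matrix.trace
  rw [map_sum]
  refine Finset.sum_congr rfl fun i _ => ?_
  simp [cjm]

/-- the exponent -/
noncomputable def dE (B : Type) [Fintype B] : ℕ := Fintype.card ((B × B) × Bool)

/-- the constant -/
noncomputable def dC (B : Type) [Fintype B] : ℝ := 9 * (Fintype.card B : ℝ) ^ 2 + 1

/-- The volume of neighbourhoods of the identity in the stabilizer. -/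
lemma vol_stb (w : ∀ j, Ten ℂ B (UA L j) (LC L j)) (n : ℕ) (hn : 0 < n) :
    ((n : ℝ) ^ dE B)⁻¹ ≤ (muK w).real {k : stb w |
      (Fintype.card B : ℝ) - (mk w k).trace.re ≤ dC B / (n : ℝ) ^ 2} := by
  classical
  set g : (B × B) × Bool → stb w → ℝ := fun i k => bif i.2 then
    (mk w k i.1.1 i.1.2).im else (mk w k i.1.1 i.1.2).re with hg
  have h1 := volume_bound (μ := muK w) (g := g) (R := 1) (C := (Fintype.card B : ℝ) ^ 2)
    (a := fun k : stb w => (Fintype.card B : ℝ) - (mk w k).trace.re) zero_le_one ?_ ?_ n hn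
  · have h2 : (Fintype.card B : ℝ) ^ 2 * (2 * 1 + 1) ^ 2 + 1 = dC B := by
      unfold dC
      ring
    rw [h2] at h1
    exact h1
  · rintro ⟨⟨i, j⟩, b⟩ k
    have h2 := entry_le_one k.1.2 i j
    cases b
    · exact (Complex.abs_re_le_norm _).trans h2
    · exact (Complex.abs_im_le_norm _).trans h2
  · intro δ hδ k l h
    have hsum : ∀ m : UU B, ∑ i, ∑ j, ‖(m : Matrix B B ℂ) i j‖ ^ 2 = (Fintype.card B : ℝ) := by
      intro m
      have h3 := (Matrix.mem_unitaryGroup_iff).1 m.2
      have h4 := congrArg Matrix.trace h3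
      rw [Matrix.trace_one, Matrix.trace] at h4
      have h5 : ∀ i, ((m : Matrix B B ℂ) * star (m : Matrix B B ℂ)).diag i =
          ((∑ j, ‖(m : Matrix B B ℂ) i j‖ ^ 2 : ℝ) : ℂ) := by
        intro i
        rw [Matrix.diag_apply, Matrix.mul_apply, Complex.ofReal_sum]
        refine Finset.sum_congr rfl fun j _ => ?_
        rw [Matrix.star_apply]
        change (m : Matrix B B ℂ) i j * starRingEnd ℂ ((m : Matrix B B ℂ) i j) = _
        rw [Complex.mul_conj']
        push_cast
        rfl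
      simp only [h5] at h4
      exact_mod_cast h4
    have htr : (mk w (k⁻¹ * l)).trace = ∑ i, ∑ j, starRingEnd ℂ (mk w k j i) * mk w l j i := by
      have e1 : mk w (k⁻¹ * l) = star (mk w k) * mk w l := rfl
      rw [e1, Matrix.trace]
      refine Finset.sum_congr rfl fun i _ => ?_
      rw [Matrix.diag_apply, Matrix.mul_apply]
      refine Finset.sum_congr rfl fun j _ => ?_
      rw [Matrix.star_apply]
      rfl
    have h3 : ∀ i j, ‖mk w l i j - mk w k i j‖ ^ 2 ≤ 2 * δ ^ 2 := by
      intro i j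
      have h2' := h ((i, j), false)
      have h3' := h ((i, j), true)
      have h2'' : |(mk w k i j).re - (mk w l i j).re| ≤ δ := h2'
      have h3'' : |(mk w k i j).im - (mk w l i j).im| ≤ δ := h3'
      rw [Complex.sq_norm, Complex.normSq_apply]
      simp only [Complex.sub_re, Complex.sub_im]
      have h4 := sq_le_sq' (abs_le.1 h2'').1 (abs_le.1 h2'').2
      have h5 := sq_le_sq' (abs_le.1 h3'').1 (abs_le.1 h3'').2
      nlinarith
    have h4 : ∑ i, ∑ j, ‖mk w l i j - mk w k i j‖ ^ 2 =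
        2 * (Fintype.card B : ℝ) - 2 * (mk w (k⁻¹ * l)).trace.re := by
      have h5 : ∀ i j, ‖mk w l i j - mk w k i j‖ ^ 2 = ‖mk w l i j‖ ^ 2 + ‖mk w k i j‖ ^ 2 -
          2 * (starRingEnd ℂ (mk w k i j) * mk w l i j).re := by
        intro i j
        rw [Complex.sq_norm, Complex.sq_norm, Complex.sq_norm, Complex.normSq_apply,
          Complex.normSq_apply, Complex.normSq_apply]
        simp only [Complex.sub_re, Complex.sub_im, Complex.mul_re, Complex.conj_re,
          Complex.conj_im]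
        ring
      simp only [h5, Finset.sum_sub_distrib, Finset.sum_add_distrib]
      have h6 := hsum l.1
      have h7 := hsum k.1
      have htr2 : (mk w (k⁻¹ * l)).trace = ∑ i, ∑ j, starRingEnd ℂ (mk w k i j) * mk w l i j := by
        rw [htr, Finset.sum_comm]
      rw [htr2, Complex.re_sum]
      simp only [Complex.re_sum, Finset.mul_sum]
      rw [show (∑ i, ∑ j, ‖mk w l i j‖ ^ 2) = (Fintype.card B : ℝ) from h6,
        show (∑ i, ∑ j, ‖mk w k i j‖ ^ 2) = (Fintype.card B : ℝ) from h7]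
      ring
    have h5 : ∑ i, ∑ j, ‖mk w l i j - mk w k i j‖ ^ 2 ≤ ∑ _i : B, ∑ _j : B, 2 * δ ^ 2 :=
      Finset.sum_le_sum fun i _ => Finset.sum_le_sum fun j _ => h3 i j
    rw [h4] at h5
    simp only [Finset.sum_const, Finset.card_univ, nsmul_eq_mul] at h5
    beta_reduce
    nlinarith

/-- Even tensors. -/
lemma dim_even (hw : IsMin a w) (hm : Met e0 w) (hB : 0 < Fintype.card B) {m : ℕ}
    (hm0 : 0 < m) :
    (Fintype.card B : ℝ) ^ (2 * m) ≤ 2 * (2 * dC B * m) ^ dE B *
      Module.finrank ℂ (Sp ℂ w (Fin (2 * m)) Empty) := by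
  set d : ℝ := ((Fintype.card B : ℕ) : ℝ) with hd
  have hd1 : 1 ≤ d := by
    rw [hd]
    exact_mod_cast hB
  set N : ℕ := 2 * (9 * Fintype.card B ^ 2 + 1) * m with hN
  have hNr : (N : ℝ) = 2 * dC B * m := by
    rw [hN]
    unfold dC
    push_cast
    ring
  have hN0 : 0 < N := by positivity
  have hNr0 : (0 : ℝ) < N := by exact_mod_cast hN0
  have hmr : (1 : ℝ) ≤ m := by exact_mod_cast hm0
  have hC : dC B = 9 * d ^ 2 + 1 := rfl
  have hC0 : 0 < dC B := by rw [hC]; positivity
  set S : Set (stb w) := {k | d - (mk w k).trace.re ≤ dC B / (N : ℝ) ^ 2} with hS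
  have hcont : Continuous fun k : stb w => (mk w k).trace := by
    unfold Matrix.trace
    refine continuous_finsetSum _ fun i _ => ?_
    exact (continuous_entry i i).comp continuous_subtype_val
  have hSm : MeasurableSet S := by
    refine IsClosed.measurableSet ?_
    exact isClosed_le (continuous_const.sub (Complex.continuous_re.comp hcont)) continuous_const
  have hvol := vol_stb w N hN0
  -- the integral
  have h1 : (Module.finrank ℂ (Sp ℂ w (Fin (2 * m)) Empty) : ℝ) =
      ∫ k : stb w, ‖(mk w k).trace‖ ^ (2 * m) ∂(muK w) := by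
    have h2 := dim_formula hw (2 * m)
    have h3 : ∀ k : stb w, (mk w k).trace ^ (2 * m) =
        ((‖(mk w k).trace‖ ^ (2 * m) : ℝ) : ℂ) := by
      intro k
      have h4 := trace_real hm k.2
      rw [pow_mul, pow_mul]
      push_cast
      congr 1
      rw [← Complex.mul_conj', h4, sq]
    simp only [h3] at h2
    rw [integral_complex_ofReal] at h2
    exact_mod_cast h2
  have hkey : ∀ k ∈ S, d ^ (2 * m) / 2 ≤ ‖(mk w k).trace‖ ^ (2 * m) := by
    intro k hk
    have h2 : d - dC B / (N : ℝ) ^ 2 ≤ (mk w k).trace.re := by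
      have : d - (mk w k).trace.re ≤ dC B / (N : ℝ) ^ 2 := hk
      linarith
    have h3 : (mk w k).trace.re ≤ ‖(mk w k).trace‖ := Complex.re_le_norm _
    set ε : ℝ := dC B / (d * (N : ℝ) ^ 2) with hε
    have hε0 : 0 ≤ ε := by positivity
    have hmε : 2 * (m : ℝ) * ε ≤ 1 / 2 := by
      rw [hε, ← mul_div_assoc, div_le_iff₀ (by positivity), hNr]
      have h4 : 1 ≤ dC B := by rw [hC]; nlinarith
      have h5 : 0 ≤ (m : ℝ) * dC B := by positivity
      have h6 : (1 : ℝ) ≤ d * (m * dC B) := by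
        have : (1 : ℝ) ≤ m * dC B := by nlinarith
        nlinarith
      nlinarith [mul_le_mul_of_nonneg_left h6 h5]
    have hε1 : ε ≤ 1 := by nlinarith
    have h4 : d * (1 - ε) ≤ ‖(mk w k).trace‖ := by
      have h5 : d * (1 - ε) = d - dC B / (N : ℝ) ^ 2 := by
        rw [hε]
        field_simp
      rw [h5]
      linarith
    have h5 : d ^ (2 * m) / 2 ≤ (d * (1 - ε)) ^ (2 * m) := by
      rw [mul_pow]
      have h6 := one_add_mul_le_pow (a := -ε) (by linarith) (2 * m)
      push_cast at h6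
      have h7 : (1 : ℝ) / 2 ≤ (1 - ε) ^ (2 * m) := by
        have : (1 + -ε) ^ (2 * m) = (1 - ε) ^ (2 * m) := by ring_nf
        rw [this] at h6
        linarith
      have h8 : 0 ≤ d ^ (2 * m) := by positivity
      nlinarith
    refine h5.trans (pow_le_pow_left₀ ?_ h4 _)
    exact mul_nonneg (by linarith) (by linarith)
  have h2 : (muK w).real S * (d ^ (2 * m) / 2) ≤
      ∫ k : stb w, ‖(mk w k).trace‖ ^ (2 * m) ∂(muK w) := by
    have e2 : ∫ k : stb w, S.indicator (fun _ => d ^ (2 * m) / 2) k ∂(muK w) =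
        (muK w).real S * (d ^ (2 * m) / 2) := by
      rw [integral_indicator_const _ hSm, smul_eq_mul]
    rw [← e2]
    refine integral_mono ((integrable_const _).indicator hSm)
      (integrable_cont (hcont.norm.pow (2 * m))) fun k => ?_
    by_cases hk : k ∈ S
    · rw [Set.indicator_of_mem hk]
      exact hkey k hk
    · rw [Set.indicator_of_notMem hk]
      beta_reduce
      positivity
  rw [← h1] at h2
  have h3 : ((N : ℝ) ^ dE B)⁻¹ * (d ^ (2 * m) / 2) ≤
      (Module.finrank ℂ (Sp ℂ w (Fin (2 * m)) Empty) : ℝ) :=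
    (mul_le_mul_of_nonneg_right hvol (by positivity)).trans h2
  have hNp : (0 : ℝ) < (N : ℝ) ^ dE B := by positivity
  rw [inv_mul_le_iff₀ hNp] at h3
  rw [← hNr]
  linarith

/-- multiplication with a tensor with one leg -/
def mulE {n : ℕ} (η : Ten ℂ B (Fin 1) Empty) :
    Ten ℂ B (Fin n) Empty →ₗ[ℂ] Ten ℂ B (Fin (n + 1)) Empty where
  toFun x := trel finSumFinEquiv (Equiv.sumEmpty Empty Empty) (tmul x η)
  map_add' x y := by
    rw [add_tmul]
    rfl
  map_smul' c x := by
    rw [smul_tmul']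
    rfl

lemma mulE_inj {n : ℕ} {η : Ten ℂ B (Fin 1) Empty} (hη : η ≠ 0) :
    Function.Injective (mulE (n := n) η) := by
  rw [← LinearMap.ker_eq_bot, LinearMap.ker_eq_bot']
  intro x hx
  obtain ⟨u0, hu0⟩ := Function.ne_iff.1 hη
  obtain ⟨v0, hv0⟩ := Function.ne_iff.1 hu0
  funext u v
  have h1 := congrFun (congrFun hx (fun p => Sum.elim u u0 (finSumFinEquiv.symm p))) v
  change x _ _ * η _ _ = 0 at h1
  simp only [Equiv.symm_apply_apply, Sum.elim_inl, Sum.elim_inr] at h1
  have e1 : (fun q : Empty => v ((Equiv.sumEmpty Empty Empty) (Sum.inl q))) = v :=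
    Subsingleton.elim _ _
  have e2 : (fun q : Empty => v ((Equiv.sumEmpty Empty Empty) (Sum.inr q))) = v0 :=
    Subsingleton.elim _ _
  rw [e1, e2] at h1
  rcases mul_eq_zero.1 h1 with h2 | h2
  · exact h2
  · exact absurd h2 hv0

/-- One more leg. -/
lemma dim_succ {η : Ten ℂ B (Fin 1) Empty} (hη : η ≠ 0) (hηm : η ∈ Sp ℂ w (Fin 1) Empty)
    (n : ℕ) : Module.finrank ℂ (Sp ℂ w (Fin n) Empty) ≤
      Module.finrank ℂ (Sp ℂ w (Fin (n + 1)) Empty) := by
  have h1 : ∀ x ∈ Sp ℂ w (Fin n) Empty, mulE η x ∈ Sp ℂ w (Fin (n + 1)) Empty :=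
    fun x hx => trel_mem _ _ (tmul_mem hx hηm)
  refine LinearMap.finrank_le_finrank_of_injective (f := (mulE η).restrict h1) ?_
  intro x y hxy
  apply Subtype.ext
  exact mulE_inj hη (congrArg Subtype.val hxy)

/-- **The lower bound for the dimension.** -/
theorem dim_lower (hw : IsMin a w) (hm : Met e0 w) {η : Ten ℂ B (Fin 1) Empty} (hη : η ≠ 0)
    (hηm : η ∈ Sp ℂ w (Fin 1) Empty) {n : ℕ} (hn : 0 < n) :
    (Fintype.card B : ℝ) ^ n ≤ 2 * (Fintype.card B : ℝ) * (2 * dC B * n) ^ dE B *
      Module.finrank ℂ (Sp ℂ w (Fin n) Empty) := by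
  have hB : 0 < Fintype.card B := by
    rw [Fintype.card_pos_iff]
    by_contra hcon
    rw [not_nonempty_iff] at hcon
    apply hη
    funext u v
    exact (hcon.false (u 0)).elim
  set d : ℝ := ((Fintype.card B : ℕ) : ℝ) with hd
  have hd1 : 1 ≤ d := by
    rw [hd]
    exact_mod_cast hB
  have hC1 : 1 ≤ dC B := by
    unfold dC
    nlinarith [sq_nonneg (Fintype.card B : ℝ)]
  have hnr : (1 : ℝ) ≤ n := by exact_mod_cast hn
  have hbase : (1 : ℝ) ≤ 2 * dC B * n := by nlinarith
  have hone : (1 : ℝ) ≤ (2 * dC B * n) ^ dE B := one_le_pow₀ hbase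
  -- monotonicity
  have hmono : ∀ k l : ℕ, k ≤ l → Module.finrank ℂ (Sp ℂ w (Fin k) Empty) ≤
      Module.finrank ℂ (Sp ℂ w (Fin l) Empty) := by
    intro k l hkl
    induction l, hkl using Nat.le_induction with
    | base => exact le_rfl
    | succ l _ ih => exact ih.trans (dim_succ hη hηm l)
  rcases Nat.lt_or_ge n 2 with h2 | h2
  · have hn1 : n = 1 := by omega
    subst hn1
    have h3 : (1 : ℝ) ≤ Module.finrank ℂ (Sp ℂ w (Fin 1) Empty) := by
      have h4 : 0 < Module.finrank ℂ (Sp ℂ w (Fin 1) Empty) := by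
        have : Nontrivial (Sp ℂ w (Fin 1) Empty) :=
          ⟨⟨⟨η, hηm⟩, 0, fun h => hη (congrArg Subtype.val h)⟩⟩
        exact Module.finrank_pos
      exact_mod_cast h4
    rw [pow_one]
    have h4 : (1 : ℝ) ≤ (2 * dC B * ((1 : ℕ) : ℝ)) ^ dE B *
        Module.finrank ℂ (Sp ℂ w (Fin 1) Empty) := by nlinarith
    have h5 : 2 * d * (2 * dC B * ((1 : ℕ) : ℝ)) ^ dE B *
        (Module.finrank ℂ (Sp ℂ w (Fin 1) Empty) : ℝ) = 2 * d * ((2 * dC B * ((1 : ℕ) : ℝ)) ^ dE B *
        Module.finrank ℂ (Sp ℂ w (Fin 1) Empty)) := by ring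
    rw [h5]
    nlinarith
  · set m : ℕ := n / 2 with hmm
    have hm0 : 0 < m := by omega
    have h3 := dim_even hw hm hB hm0
    have h4 : (Module.finrank ℂ (Sp ℂ w (Fin (2 * m)) Empty) : ℝ) ≤
        Module.finrank ℂ (Sp ℂ w (Fin n) Empty) := by
      exact_mod_cast hmono (2 * m) n (by omega)
    have hmn : (m : ℝ) ≤ n := by
      have : m ≤ n := by omega
      exact_mod_cast this
    have h5 : d ^ n ≤ d * d ^ (2 * m) := by
      rw [← pow_succ']
      exact pow_le_pow_right₀ hd1 (by omega)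
    have h6 : (2 * dC B * m) ^ dE B ≤ (2 * dC B * n) ^ dE B := by
      refine pow_le_pow_left₀ (by positivity) ?_ _
      exact mul_le_mul_of_nonneg_left hmn (by linarith)
    have h7 : (0 : ℝ) ≤ Module.finrank ℂ (Sp ℂ w (Fin (2 * m)) Empty) := Nat.cast_nonneg _
    calc d ^ n ≤ d * d ^ (2 * m) := h5
      _ ≤ d * (2 * (2 * dC B * m) ^ dE B * Module.finrank ℂ (Sp ℂ w (Fin (2 * m)) Empty)) :=
        mul_le_mul_of_nonneg_left h3 (by linarith)
      _ ≤ d * (2 * (2 * dC B * n) ^ dE B * Module.finrank ℂ (Sp ℂ w (Fin n) Empty)) := by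
        refine mul_le_mul_of_nonneg_left ?_ (by linarith)
        exact mul_le_mul (mul_le_mul_of_nonneg_left h6 (by norm_num)) h4 h7 (by positivity)
      _ = _ := by ring

end main

end Pool.Agent.Run7.h174
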