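import Pool.Agent.Run7.h174.LemD

/-!
# Dual networks, and the networks which lower and raise all legs
-/

set_option autoImplicit false
set_option linter.unusedSectionVars false

open Finset Matrix Function

universe u u'

namespace Pool.Agent.Run7.h174

section legs

variable {I : Type}

/-- the upper legs of the generators -/
def UA (L : I → Type) : I × Bool → Type
  | (i, false) => L i
  | (_, true) => Empty

/-- the lower legs of the generators -/
def LC (L : I → Type) : I × Bool → Type
  | (_, false) => Empty
  | (i, true) => L i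

variable (L : I → Type)

instance [∀ i, Fintype (L i)] : ∀ j, Fintype (UA L j)
  | (i, false) => inferInstanceAs (Fintype (L i))
  | (_, true) => inferInstanceAs (Fintype Empty)

instance [∀ i, Fintype (L i)] : ∀ j, Fintype (LC L j)
  | (i, true) => inferInstanceAs (Fintype (L i))
  | (_, false) => inferInstanceAs (Fintype Empty)

instance [∀ i, DecidableEq (L i)] : ∀ j, DecidableEq (UA L j)
  | (i, false) => inferInstanceAs (DecidableEq (L i))
  | (_, true) => inferInstanceAs (DecidableEq Empty)

instance [∀ i, DecidableEq (L i)] : ∀ j, DecidableEq (LC L j)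
  | (i, true) => inferInstanceAs (DecidableEq (L i))
  | (_, false) => inferInstanceAs (DecidableEq Empty)

variable {L}

/-- The dual network. -/
def dual : ∀ {P Q : Type}, Net (UA L) (LC L) P Q → Net (UA L) (LC L) Q P
  | _, _, .one => .one
  | _, _, .id => .id
  | _, _, .gen (i, false) => .gen (i, true)
  | _, _, .gen (i, true) => .gen (i, false)
  | _, _, .mul s t => .mul (dual s) (dual t)
  | _, _, .rel e f t => .rel f e (dual t)
  | _, _, .con t => .con (dual t)

/-- The dual tuple. -/
def flip {R : Type u} {B : Type} (w : ∀ j, Ten R B (UA L j) (LC L j)) :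
    ∀ j, Ten R B (UA L j) (LC L j)
  | (i, false) => fun u v => w (i, true) v u
  | (i, true) => fun u v => w (i, false) v u

variable {R : Type u} [CommRing R] {B : Type} [Fintype B] [DecidableEq B]

lemma ev_dual (w : ∀ j, Ten R B (UA L j) (LC L j)) {P Q : Type} (t : Net (UA L) (LC L) P Q) :
    ev w (dual t) = tswap (ev (flip w) t) := by
  induction t with
  | one => rfl
  | id =>
    funext u v
    change tid u v = tid v u
    unfold tid
    simp only [eq_comm]
  | gen j =>
    rcases j with ⟨i, b⟩
    cases b <;> rfl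
  | mul s t ihs iht =>
    change tmul (ev w (dual s)) (ev w (dual t)) = _
    rw [ihs, iht]
    rfl
  | rel e f t ih =>
    change trel f e (ev w (dual t)) = _
    rw [ih]
    rfl
  | con t ih =>
    change tcon (ev w (dual t)) = _
    rw [ih]
    rfl

lemma flip_flip (w : ∀ j, Ten R B (UA L j) (LC L j)) : flip (flip w) = w := by
  funext j
  rcases j with ⟨i, b⟩
  cases b <;> rfl

end legs

section metric

variable {I : Type} {L : I → Type} {i0 : I} (e0 : L i0 ≃ Option Unit)
  {B : Type} [Fintype B] [DecidableEq B]

/-- the matrix of the upper generator -/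
def psM {R : Type u} (w : ∀ j, Ten R B (UA L j) (LC L j)) : Matrix B B R :=
  fun b c => w (i0, false) (fun p => oext b (fun _ => c) (e0 p)) (fun e => Empty.elim e)

/-- the matrix of the lower generator -/
def phM {R : Type u} (w : ∀ j, Ten R B (UA L j) (LC L j)) : Matrix B B R :=
  fun b c => w (i0, true) (fun e => Empty.elim e) (fun p => oext b (fun _ => c) (e0 p))

/-- the network of the lower generator -/
def phN : Net (UA L) (LC L) Empty (Option Unit) :=
  Net.rel (Equiv.refl Empty) e0 (Net.gen (i0, true))

/-- the network of the upper generator -/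
def psN : Net (UA L) (LC L) (Option Unit) Empty :=
  Net.rel e0 (Equiv.refl Empty) (Net.gen (i0, false))

lemma ev_phN {R : Type u} [CommRing R] (w : ∀ j, Ten R B (UA L j) (LC L j))
    (u : Empty → B) (v : Option Unit → B) :
    ev w (phN e0) u v = phM e0 w (v none) (v (some ())) := by
  change w (i0, true) _ _ = w (i0, true) _ _
  congr 1
  · funext e
    exact Empty.elim e
  · funext p
    rcases h : e0 p with _ | ⟨⟩
    · simp [oext]
    · simp [oext]

lemma ev_psN {R : Type u} [CommRing R] (w : ∀ j, Ten R B (UA L j) (LC L j))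
    (u : Option Unit → B) (v : Empty → B) :
    ev w (psN e0) u v = psM e0 w (u none) (u (some ())) := by
  change w (i0, false) _ _ = w (i0, false) _ _
  congr 1
  · funext p
    rcases h : e0 p with _ | ⟨⟩
    · simp [oext]
    · simp [oext]
  · funext e
    exact Empty.elim e

/-- two legs for each element -/
def twoE (S : Type) : (Option Unit ⊕ (S ⊕ S)) ≃ (Option S ⊕ Option S) where
  toFun
    | .inl none => .inr none
    | .inl (some _) => .inl none
    | .inr (.inl s) => .inl (some s)
    | .inr (.inr s) => .inr (some s)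
  invFun
    | .inr none => .inl none
    | .inl none => .inl (some ())
    | .inl (some s) => .inr (.inl s)
    | .inr (some s) => .inr (.inr s)
  left_inv := by rintro ((_ | ⟨⟩) | (s | s)) <;> rfl
  right_inv := by rintro ((_ | s) | (_ | s)) <;> rfl

/-- The product of the lower generators. -/
lemma exists_F (S : Type) [Finite S] : ∃ t : Net (UA L) (LC L) Empty (S ⊕ S),
    ∀ (R : Type u) [CommRing R] (w : ∀ j, Ten R B (UA L j) (LC L j)) [Fintype S] (u : Empty → B)
      (v : S ⊕ S → B), ev w t u v = ∏ s, phM e0 w (v (Sum.inr s)) (v (Sum.inl s)) := by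
  classical
  induction S using Finite.induction_empty_option with
  | @of_equiv S S' e ih =>
    obtain ⟨t, ht⟩ := ih
    refine ⟨t.rel (Equiv.refl _) (Equiv.sumCongr e e), fun R _ w _ u v => ?_⟩
    have := Fintype.ofEquiv _ e.symm
    change ev w t _ _ = _
    rw [ht]
    exact Fintype.prod_equiv e _ _ fun s => rfl
  | h_empty =>
    refine ⟨Net.one.rel (Equiv.refl _) (Equiv.equivOfIsEmpty _ _), fun R _ w _ u v => ?_⟩
    change (1 : R) = _
    rw [Fintype.prod_empty]
  | @h_option S _ ih =>
    obtain ⟨t, ht⟩ := ih
    refine ⟨((phN e0).mul t).rel (Equiv.emptySum Empty Empty) (twoE S), fun R _ w i u v => ?_⟩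
    have := Fintype.ofFinite S
    change ev w (phN e0) _ _ * ev w t _ _ = _
    rw [ht, ev_phN, show i = instFintypeOption from Subsingleton.elim _ _, Fintype.prod_option]
    rfl

/-- The product of the upper generators. -/
lemma exists_G (S : Type) [Finite S] : ∃ t : Net (UA L) (LC L) (S ⊕ S) Empty,
    ∀ (R : Type u) [CommRing R] (w : ∀ j, Ten R B (UA L j) (LC L j)) [Fintype S]
      (u : S ⊕ S → B) (v : Empty → B),
      ev w t u v = ∏ s, psM e0 w (u (Sum.inr s)) (u (Sum.inl s)) := by
  classical
  induction S using Finite.induction_empty_option with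
  | @of_equiv S S' e ih =>
    obtain ⟨t, ht⟩ := ih
    refine ⟨t.rel (Equiv.sumCongr e e) (Equiv.refl _), fun R _ w _ u v => ?_⟩
    have := Fintype.ofEquiv _ e.symm
    change ev w t _ _ = _
    rw [ht]
    exact Fintype.prod_equiv e _ _ fun s => rfl
  | h_empty =>
    refine ⟨Net.one.rel (Equiv.equivOfIsEmpty _ _) (Equiv.refl _), fun R _ w _ u v => ?_⟩
    change (1 : R) = _
    rw [Fintype.prod_empty]
  | @h_option S _ ih =>
    obtain ⟨t, ht⟩ := ih
    refine ⟨((psN e0).mul t).rel (twoE S) (Equiv.emptySum Empty Empty), fun R _ w i u v => ?_⟩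
    have := Fintype.ofFinite S
    change ev w (psN e0) _ _ * ev w t _ _ = _
    rw [ht, ev_psN, show i = instFintypeOption from Subsingleton.elim _ _, Fintype.prod_option]
    rfl

/-- The network which lowers the upper and raises the lower legs. -/
lemma exists_low {P Q : Type} [Fintype P] [DecidableEq P] [Fintype Q] [DecidableEq Q]
    (t : Net (UA L) (LC L) P Q) : ∃ t' : Net (UA L) (LC L) Q P,
    ∀ (R : Type u) [CommRing R] (w : ∀ j, Ten R B (UA L j) (LC L j)),
      ev w t' = tswap (act (phM e0 w) (psM e0 w) (ev w t)) := by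
  obtain ⟨f, hf⟩ := exists_F.{u} (B := B) e0 P
  obtain ⟨g, hg⟩ := exists_G.{u} (B := B) e0 Q
  obtain ⟨t', ht'⟩ := exists_contr.{u} (B := B) t ((g.mul f).rel (Equiv.sumEmpty (Q ⊕ Q) Empty)
    (Equiv.emptySum Empty (P ⊕ P)))
  refine ⟨t', fun R _ w => ?_⟩
  rw [ht']
  funext u v
  unfold contr tswap act
  refine Finset.sum_congr rfl fun a _ => Finset.sum_congr rfl fun c _ => ?_
  change ev w t a c * (ev w g _ _ * ev w f _ _) = _
  rw [hf, hg]
  simp only [Equiv.sumEmpty, Equiv.emptySum]
  change ev w t a c * ((∏ s, psM e0 w (u s) (c s)) * (∏ s, phM e0 w (v s) (a s))) = _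
  ring

/-- The network for the product of the matrices. -/
lemma exists_unit : ∃ t : Net (UA L) (LC L) Unit Unit,
    ∀ (R : Type u) [CommRing R] (w : ∀ j, Ten R B (UA L j) (LC L j)) (u v : Unit → B),
      ev w t u v = ((phM e0 w).transpose * psM e0 w) (v ()) (u ()) := by
  refine ⟨(((psN e0).mul (phN e0)).rel (Equiv.sumEmpty (Option Unit) Empty)
    (Equiv.emptySum Empty (Option Unit))).con, fun R _ w u v => ?_⟩
  change ∑ b, ev w (psN e0) _ _ * ev w (phN e0) _ _ = _
  rw [Matrix.mul_apply]
  refine Finset.sum_congr rfl fun b _ => ?_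
  rw [ev_psN, ev_phN, Matrix.transpose_apply]
  change psM e0 w b (u ()) * phM e0 w b (v ()) = _
  ring

end metric

end Pool.Agent.Run7.h174
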