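import Pool.Agent.W539.Ker.Defs

/-!
# The numbers of positive and of negative squares
-/

set_option autoImplicit false

open CategoryTheory AlgebraicGeometry

universe u v

namespace Pool.Agent.Run7.h174

open Pool.Agent.H914 Pool.Agent.H914.VarClass Pool.Agent.H914.VarClass.Obj
  Pool.Agent.H281R3.HT Pool.Agent.W539.Ker

variable {k : Type u} [Field k] {𝒱 : VarClass k} {ops : CycleOps 𝒱}

/-- The largest number of pairwise orthogonal primitive cycles of codimension `n` on `X` with
positive squares, for the pairing `(-1) ^ n deg (z · D ^ (d - 2 n) · w)`. -/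
noncomputable def posN (W : WeilCohomology.{u, v} ops) (X : 𝒱.Obj) (D : X.Cycles) (n : ℕ) : ℕ :=
  sSup {r | HasFamily W X D n 1 r}

/-- The largest number of pairwise orthogonal primitive cycles of codimension `n` on `X` with
negative squares. -/
noncomputable def negN (W : WeilCohomology.{u, v} ops) (X : 𝒱.Obj) (D : X.Cycles) (n : ℕ) : ℕ :=
  sSup {r | HasFamily W X D n (-1) r}

/-- The number of positive squares of the pairings on all algebraic classes: the sum over
`n ≤ d / 2`, `d = dim X`, of `(d - 2 n + 1)` (the number of the classes `D ^ r · z`, `r ≤ d - 2 n`,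
for a primitive class `z` of codimension `n`) times the number of positive squares on the primitive
classes of codimension `n`. -/
noncomputable def posT (W : WeilCohomology.{u, v} ops) (X : 𝒱.Obj) (D : X.Cycles) : ℕ :=
  ∑ n ∈ Finset.range (X.dim / 2 + 1), (X.dim - 2 * n + 1) * posN W X D n

/-- The number of negative squares of the pairings on all algebraic classes. -/
noncomputable def negT (W : WeilCohomology.{u, v} ops) (X : 𝒱.Obj) (D : X.Cycles) : ℕ :=
  ∑ n ∈ Finset.range (X.dim / 2 + 1), (X.dim - 2 * n + 1) * negN W X D n

end Pool.Agent.Run7.h174
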