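import Pool.Agent.Run7.h174.Fam2
import Pool.Agent.Run7.h174.Cx2

/-!
# A complete orthogonal family of all algebraic classes, with the numbers of squares
-/

set_option autoImplicit false
set_option linter.unusedSectionVars false

open CategoryTheory AlgebraicGeometry Finset

universe u v

namespace Pool.Agent.Run7.h174

open Pool.Agent.H914 Pool.Agent.H914.VarClass Pool.Agent.H914.VarClass.Obj
  Pool.Agent.H914.WeilCohomology Pool.Agent.H281R3.HT Pool.Agent.W552 Pool.Agent.W539.Ker

lemma sum_wsumN (d : ℕ) (σ : ℕ → ℕ) :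
    ∑ l : Fin (d + 1), wsumN d σ (2 * (l : ℕ) - d) =
      ∑ n ∈ range (d / 2 + 1), (d - 2 * n + 1) * σ n := by
  unfold wsumN
  rw [Finset.sum_comm]
  refine Finset.sum_congr rfl fun n hn => ?_
  rw [Finset.mem_range] at hn
  rw [← Finset.sum_filter, Finset.sum_const, smul_eq_mul]
  congr 1
  have h1 : (univ.filter fun l : Fin (d + 1) => |2 * ((l : ℕ) : ℤ) - d| ≤ (d : ℤ) - 2 * n ∧
      (2 : ℤ) ∣ d + (2 * ((l : ℕ) : ℤ) - d)).card = (Finset.Icc n (d - n)).card := by
    refine Finset.card_bij (fun l _ => (l : ℕ)) ?_ ?_ ?_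
    · intro l hl
      rw [Finset.mem_filter] at hl
      have h2 := abs_le.1 hl.2.1
      rw [Finset.mem_Icc]
      omega
    · intro l _ l' _ h
      exact Fin.ext h
    · intro b hb
      rw [Finset.mem_Icc] at hb
      refine ⟨⟨b, by omega⟩, ?_, rfl⟩
      rw [Finset.mem_filter]
      refine ⟨Finset.mem_univ _, abs_le.2 ⟨?_, ?_⟩, ?_⟩
      · change -((d : ℤ) - 2 * n) ≤ 2 * (b : ℤ) - d
        omega
      · change 2 * (b : ℤ) - d ≤ (d : ℤ) - 2 * n
        omega
      · change (2 : ℤ) ∣ d + (2 * (b : ℤ) - d)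
        omega
  rw [h1, Nat.card_Icc]
  omega

variable {k : Type u} [Field k] {𝒱 : VarClass k} {ops : CycleOps 𝒱}
  {W : WeilCohomology.{u, v} ops} {X Y : 𝒱.Obj} {D : X.Cycles} {f : Module.End W.K (W.H X)}

lemma bf_symm_AS (hS : Sy W X D f) {x y : W.H X} (hy : AS W X y) :
    bf W X D f x y = bf W X D f y x := by
  rw [hS x y, par_AS hy]

/-- Polarization. -/
lemma cf_of_self (F : Fr W X D f) (hS : Sy W X D f) {ι : Type} [Fintype ι] [DecidableEq ι]
    {x : ι → W.H X} {c : ι → ℚ} (has : ∀ s, AS W X (x s)) (hne : ∀ s, c s ≠ 0)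
    (hform : ∀ s t, bf W X D f (x s) (x t) = if s = t then (c s : W.K) else 0)
    (hmax : ∀ v, AS W X v → (∀ s, bf W X D f v (x s) = 0) → bf W X D f v v = 0) :
    CF W X D f x c := by
  refine ⟨has, hne, hform, fun v hv h0 v' hv' => ?_⟩
  choose r hr using fun s => F.bf_rat hv' (has s)
  set v'' := v' + (-1 : W.K) • ∑ s, ((r s / c s : ℚ) : W.K) • x s with hv''
  have hAS : AS W X v'' := by
    have h1 := (AS.ratSub (W := W) (X := X)).sum (Finset.univ : Finset ι)
      (f := fun s => ((r s / c s : ℚ) : W.K) • x s) (fun s _ => (has s).smul _)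
    have h2 := h1.smul (-1)
    push_cast at h2
    exact hv'.add (by simpa using h2)
  have h0'' : ∀ s, bf W X D f v'' (x s) = 0 := by
    intro s
    rw [hv'', map_add, LinearMap.add_apply, map_smul, LinearMap.smul_apply,
      map_sum (bf W X D f), LinearMap.sum_apply, Finset.sum_eq_single s]
    · rw [map_smul, LinearMap.smul_apply, hform, if_pos rfl, hr, smul_eq_mul, smul_eq_mul]
      have h3 : (c s : W.K) ≠ 0 := by exact_mod_cast hne s
      push_cast
      rw [div_mul_cancel₀ _ h3]
      ring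
    · intro s' _ hs'
      rw [map_smul, LinearMap.smul_apply, hform, if_neg hs', smul_zero]
    · intro h; exact absurd (Finset.mem_univ _) h
  have h1 := hmax v hv h0
  have h2 := hmax v'' hAS h0''
  have h3 := hmax (v + v'') (hv.add hAS) (fun s => by
    rw [map_add, LinearMap.add_apply, h0, h0'', add_zero])
  rw [map_add, map_add, LinearMap.add_apply, LinearMap.add_apply, h1, h2,
    bf_symm_AS hS (x := v'') hv, zero_add, add_zero, ← two_mul] at h3
  have h4 : bf W X D f v v'' = 0 := by
    rcases mul_eq_zero.1 h3 with h5 | h5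
    · exact absurd h5 two_ne_zero
    · exact h5
  rw [hv'', map_add, map_smul, map_sum] at h4
  have h5 : ∑ s, bf W X D f v (((r s / c s : ℚ) : W.K) • x s) = 0 :=
    Finset.sum_eq_zero fun s _ => by rw [map_smul, h0, smul_zero]
  rwa [h5, smul_zero, add_zero] at h4

/-- **A complete orthogonal family of the algebraic classes.** -/
theorem exists_cf (F : Fr W X D f) (hS : Sy W X D f) :
    ∃ (ι : Type) (_ : Fintype ι) (_ : DecidableEq ι) (x : ι → W.H X) (c : ι → ℚ),
      CF W X D f x c ∧ (univ.filter fun i => 0 < c i).card = posT W X D ∧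
      (univ.filter fun i => c i < 0).card = negT W X D := by
  classical
  choose ι hι y s h1 h2 h3 h4 h5 h6 h7 h8 h9 using fun l : Fin (X.dim + 1) =>
    exists_fam2 F (W := W) (2 * ((l : ℕ) : ℤ) - X.dim)
  have hgr : ∀ (l : Fin (X.dim + 1)) (i : ι l), y l i ∈ W.gr X (2 * (l : ℕ)) := fun l i =>
    alg_gr (h7 l l (by ring) i)
  refine ⟨Σ l, ι l, inferInstance, inferInstance, fun p => y p.1 p.2, fun p => s p.1 p.2,
    cf_of_self F hS (fun p => h1 _ _) (fun p => h3 _ _) ?_ ?_, ?_, ?_⟩
  · rintro ⟨l, i⟩ ⟨l', i'⟩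
    by_cases hl : l = l'
    · subst hl
      by_cases hi : i = i'
      · subst hi
        rw [if_pos rfl]
        exact h4 l i
      · rw [if_neg (fun h => hi (by simpa using h))]
        exact h5 l i i' hi
    · rw [if_neg (fun h => hl (congrArg Sigma.fst h))]
      refine F.bf_deg (hgr l i) (hgr l' i') fun h => hl (Fin.ext ?_)
      omega
  · intro v hv h0
    have hdec := Fr.AS_sum hv
    have hself : ∀ j ∈ range (X.dim + 1), bf W X D f (proj (W.isInternal X) (2 * j) v)
        (proj (W.isInternal X) (2 * j) v) = 0 := by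
      intro j hj
      rw [Finset.mem_range] at hj
      have hm := hv.proj j
      refine h6 ⟨j, hj⟩ _ (AS.of hm) ?_ fun i => ?_
      · rw [Fr.wt_gr (alg_gr hm)]
        push_cast
        rfl
      · have e1 := h0 ⟨⟨j, hj⟩, i⟩
        beta_reduce at e1
        rw [hdec, map_sum (bf W X D f), LinearMap.sum_apply, Finset.sum_eq_single j] at e1
        · exact e1
        · intro j' _ hj'
          refine F.bf_deg (proj_mem _ _ _) (hgr ⟨j, hj⟩ i) ?_
          change 2 * j' ≠ 2 * j
          omega
        · intro h; exact absurd (Finset.mem_range.2 hj) h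
    have e2 : bf W X D f v v = bf W X D f
        (∑ j ∈ range (X.dim + 1), proj (W.isInternal X) (2 * j) v)
        (∑ j ∈ range (X.dim + 1), proj (W.isInternal X) (2 * j) v) := by
      rw [← hdec]
    rw [e2, map_sum (bf W X D f), LinearMap.sum_apply]
    refine Finset.sum_eq_zero fun j hj => ?_
    rw [map_sum, Finset.sum_eq_single j, hself j hj]
    · intro i _ hi
      exact F.bf_deg (proj_mem _ _ _) (proj_mem _ _ _) (by omega)
    · intro h; exact absurd hj h
  · rw [Finset.card_filter, Fintype.sum_sigma, posT, ← sum_wsumN]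
    refine Finset.sum_congr rfl fun l _ => ?_
    rw [← Finset.card_filter, h8]
  · rw [Finset.card_filter, Fintype.sum_sigma, negT, ← sum_wsumN]
    refine Finset.sum_congr rfl fun l _ => ?_
    rw [← Finset.card_filter, h9]

end Pool.Agent.Run7.h174
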