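import Pool.Agent.Run7.h174.Haar
import Pool.Agent.Y130.Fft

/-!
# Tensors invariant under the unitary group
-/

set_option autoImplicit false
set_option linter.unusedSectionVars false

open Finset Matrix MeasureTheory Function

namespace Pool.Agent.Run7.h174

section deriv

variable {B P Q : Type} [Fintype B] [DecidableEq B] [Fintype P] [DecidableEq P] [Fintype Q]
  [DecidableEq Q]

/-- the derivative of the action -/
def dact (X X' : Matrix B B ℂ) (x : Ten ℂ B P Q) : Ten ℂ B P Q := fun u v =>
  ∑ p, ∑ c, X (u p) c * x (update u p c) v + ∑ q, ∑ c, X' (v q) c * x u (update v q c)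

lemma sum_erase_prod {S : Type} [Fintype S] [DecidableEq S] (u : S → B) (p : S)
    (G : (S → B) → ℂ) : ∑ a : S → B, (∏ p' ∈ Finset.univ.erase p,
      (1 : Matrix B B ℂ) (u p') (a p')) * G a = ∑ c, G (update u p c) := by
  have h1 : ∑ c, G (update u p c) = ∑ a ∈ Finset.univ.image (fun c => update u p c), G a := by
    rw [Finset.sum_image]
    intro c _ c' _ h
    have := congrFun h p
    simpa using this
  rw [h1]
  symm
  have h2 : ∑ a ∈ Finset.univ.image (fun c => update u p c), G a =
      ∑ a ∈ Finset.univ.image (fun c => update u p c), (∏ p' ∈ Finset.univ.erase p,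
      (1 : Matrix B B ℂ) (u p') (a p')) * G a := by
    refine Finset.sum_congr rfl fun a ha => ?_
    rw [Finset.mem_image] at ha
    obtain ⟨c, _, rfl⟩ := ha
    rw [Finset.prod_eq_one, one_mul]
    intro p' hp'
    rw [update_of_ne (Finset.mem_erase.1 hp').1, Matrix.one_apply_eq]
  rw [h2]
  refine Finset.sum_subset (Finset.subset_univ _) fun a _ ha => ?_
  have h3 : ∃ p' ∈ Finset.univ.erase p, u p' ≠ a p' := by
    by_contra hcon
    push Not at hcon
    apply ha
    rw [Finset.mem_image]
    refine ⟨a p, Finset.mem_univ _, ?_⟩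
    funext s
    by_cases hs : s = p
    · rw [hs, update_self]
    · rw [update_of_ne hs]
      exact hcon s (Finset.mem_erase.2 ⟨hs, Finset.mem_univ _⟩)
  obtain ⟨p', hp', hne⟩ := h3
  have h5 : ∏ p' ∈ Finset.univ.erase p, (1 : Matrix B B ℂ) (u p') (a p') = 0 :=
    Finset.prod_eq_zero hp' (Matrix.one_apply_ne hne)
  rw [h5, zero_mul]

lemma hasDeriv_act {g g' : ℝ → Matrix B B ℂ} {X X' : Matrix B B ℂ} (hg0 : g 0 = 1)
    (hg0' : g' 0 = 1) (hg : ∀ i j, HasDerivAt (fun s => g s i j) (X i j) 0)
    (hg' : ∀ i j, HasDerivAt (fun s => g' s i j) (X' i j) 0) (x : Ten ℂ B P Q) (u : P → B)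
    (v : Q → B) : HasDerivAt (fun s => act (g s) (g' s) x u v) (dact X X' x u v) 0 := by
  have h1 : ∀ a : P → B, HasDerivAt (fun s => ∏ p, g s (u p) (a p))
      (∑ p, (∏ p' ∈ Finset.univ.erase p, (1 : Matrix B B ℂ) (u p') (a p')) * X (u p) (a p)) 0 := by
    intro a
    have := HasDerivAt.fun_finsetProd (u := Finset.univ) (f := fun p s => g s (u p) (a p))
      (f' := fun p => X (u p) (a p)) (x := (0 : ℝ)) (fun p _ => hg _ _)
    simpa only [hg0, smul_eq_mul] using this
  have h2 : ∀ c : Q → B, HasDerivAt (fun s => ∏ q, g' s (v q) (c q))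
      (∑ q, (∏ q' ∈ Finset.univ.erase q, (1 : Matrix B B ℂ) (v q') (c q')) * X' (v q) (c q)) 0 := by
    intro c
    have := HasDerivAt.fun_finsetProd (u := Finset.univ) (f := fun q s => g' s (v q) (c q))
      (f' := fun q => X' (v q) (c q)) (x := (0 : ℝ)) (fun q _ => hg' _ _)
    simpa only [hg0', smul_eq_mul] using this
  have h3 : HasDerivAt (fun s => act (g s) (g' s) x u v) (∑ a : P → B, ∑ c : Q → B,
      ((∑ p, (∏ p' ∈ Finset.univ.erase p, (1 : Matrix B B ℂ) (u p') (a p')) * X (u p) (a p)) *
        (∏ q, g' 0 (v q) (c q)) + (∏ p, g 0 (u p) (a p)) *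
        (∑ q, (∏ q' ∈ Finset.univ.erase q, (1 : Matrix B B ℂ) (v q') (c q')) * X' (v q) (c q))) *
        x a c) 0 := by
    unfold act
    refine HasDerivAt.fun_sum fun a _ => HasDerivAt.fun_sum fun c _ => ?_
    exact ((h1 a).mul (h2 c)).mul_const _
  convert h3 using 1
  rw [hg0, hg0']
  simp only [prod_one_apply, add_mul, Finset.sum_add_distrib]
  unfold dact
  congr 1
  · have e1 : ∀ a : P → B, ∑ c : Q → B, (∑ p, (∏ p' ∈ Finset.univ.erase p,
        (1 : Matrix B B ℂ) (u p') (a p')) * X (u p) (a p)) * (if v = c then 1 else 0) * x a c =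
        ∑ p, (∏ p' ∈ Finset.univ.erase p, (1 : Matrix B B ℂ) (u p') (a p')) *
          (X (u p) (a p) * x a v) := by
      intro a
      rw [Finset.sum_eq_single v]
      · rw [if_pos rfl, mul_one, Finset.sum_mul]
        exact Finset.sum_congr rfl fun p _ => by ring
      · intro c _ hc
        rw [if_neg (Ne.symm hc)]
        ring
      · intro h; exact absurd (Finset.mem_univ _) h
    refine Eq.trans ?_ (Finset.sum_congr rfl fun a _ => (e1 a).symm)
    refine Eq.trans ?_ Finset.sum_comm
    refine Finset.sum_congr rfl fun p _ => ?_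
    rw [sum_erase_prod u p (fun a => X (u p) (a p) * x a v)]
    refine Finset.sum_congr rfl fun c _ => ?_
    rw [update_self]
  · have e1 : ∀ a : P → B, ∑ c : Q → B, (if u = a then 1 else 0) * (∑ q, (∏ q' ∈
        Finset.univ.erase q, (1 : Matrix B B ℂ) (v q') (c q')) * X' (v q) (c q)) * x a c =
        if u = a then ∑ q, ∑ c, X' (v q) c * x u (update v q c) else 0 := by
      intro a
      by_cases h : u = a
      · subst h
        simp only [if_true, one_mul, Finset.sum_mul]
        rw [Finset.sum_comm]
        refine Finset.sum_congr rfl fun q _ => ?_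
        have := sum_erase_prod v q (fun c => X' (v q) (c q) * x u c)
        simp only [update_self] at this
        rw [← this]
        exact Finset.sum_congr rfl fun c _ => by ring
      · simp [if_neg h]
    rw [Finset.sum_congr rfl fun a _ => e1 a, Finset.sum_ite_eq]
    simp

/-- The derivative of the action vanishes on invariant tensors. -/
lemma dact_skew {x : Ten ℂ B P Q} (hx : ∀ k : UU B, uact (k : Matrix B B ℂ) x = x)
    {X : Matrix B B ℂ} (hX : Xᴴ = -X) : dact X (cjm X) x = 0 := by
  set g : ℝ → Matrix B B ℂ := fun s => NormedSpace.exp (s • X) with hg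
  have hg0 : g 0 = 1 := by
    rw [hg]
    simp [NormedSpace.exp_zero]
  have hgu : ∀ s, g s ∈ Matrix.unitaryGroup B ℂ := by
    intro s
    rw [Matrix.mem_unitaryGroup_iff, Matrix.star_eq_conjTranspose, hg]
    beta_reduce
    rw [← Matrix.exp_conjTranspose, Matrix.conjTranspose_smul, hX, star_trivial, smul_neg,
      Matrix.exp_neg]
    refine Matrix.mul_nonsing_inv _ ?_
    exact (Matrix.isUnit_iff_isUnit_det _).1 (Matrix.isUnit_exp _)
  have hgd : ∀ i j, HasDerivAt (fun s => g s i j) (X i j) 0 := by
    intro i j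
    let _ : NormedRing (Matrix B B ℂ) := Matrix.linftyOpNormedRing
    let _ : NormedAlgebra ℝ (Matrix B B ℂ) := Matrix.linftyOpNormedAlgebra
    have h1 := hasDerivAt_exp_smul_const (𝕂 := ℝ) X (0 : ℝ)
    rw [zero_smul, NormedSpace.exp_zero, one_mul] at h1
    have h2 := hasDerivAt_pi.1 (hasDerivAt_pi.1 h1 i) j
    exact h2
  have hgd' : ∀ i j, HasDerivAt (fun s => cjm (g s) i j) (cjm X i j) 0 := by
    intro i j
    have := (hgd i j).star
    exact this
  funext u v
  have h3 := hasDeriv_act hg0 (by rw [hg0]; exact Matrix.map_one _ (map_zero _) (map_one _)) hgd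
    hgd' x u v
  have h4 : (fun s => act (g s) (cjm (g s)) x u v) = fun _ => x u v := by
    funext s
    exact congrFun (congrFun (hx ⟨g s, hgu s⟩) u) v
  rw [h4] at h3
  exact h3.unique (hasDerivAt_const _ _)

lemma dact_add (X Y X' Y' : Matrix B B ℂ) (x : Ten ℂ B P Q) :
    dact (X + Y) (X' + Y') x = dact X X' x + dact Y Y' x := by
  funext u v
  simp only [dact, Pi.add_apply, Matrix.add_apply, add_mul, Finset.sum_add_distrib]
  ring

lemma dact_smul (a : ℂ) (X X' : Matrix B B ℂ) (x : Ten ℂ B P Q) :
    dact (a • X) (a • X') x = a • dact X X' x := by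
  funext u v
  simp only [dact, Pi.smul_apply, Matrix.smul_apply, smul_eq_mul, mul_add, Finset.mul_sum,
    mul_assoc]

/-- Tensors invariant under the unitary group are killed by all matrices. -/
lemma dact_all {x : Ten ℂ B P Q} (hx : ∀ k : UU B, uact (k : Matrix B B ℂ) x = x)
    (X : Matrix B B ℂ) : dact X (-X.transpose) x = 0 := by
  set Y : Matrix B B ℂ := (1 / 2 : ℂ) • (X - Xᴴ) with hY
  set Z : Matrix B B ℂ := (-Complex.I / 2) • (X + Xᴴ) with hZ
  have hYs : Yᴴ = -Y := by
    rw [hY, Matrix.conjTranspose_smul, Matrix.conjTranspose_sub, Matrix.conjTranspose_conjTranspose,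
      ← smul_neg, neg_sub]
    congr 1
    simp
  have hZs : Zᴴ = -Z := by
    rw [hZ, Matrix.conjTranspose_smul, Matrix.conjTranspose_add, Matrix.conjTranspose_conjTranspose,
      ← neg_smul, add_comm]
    congr 1
    simp
    ring
  have hX : X = Y + Complex.I • Z := by
    rw [hY, hZ, smul_smul]
    have : Complex.I * (-Complex.I / 2) = 1 / 2 := by
      rw [mul_div_assoc', mul_neg, Complex.I_mul_I]
      norm_num
    rw [this, ← smul_add]
    have h2 : X - Xᴴ + (X + Xᴴ) = (2 : ℂ) • X := by
      rw [two_smul]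
      abel
    rw [h2, smul_smul]
    norm_num
  have hcj : ∀ W : Matrix B B ℂ, Wᴴ = -W → cjm W = -W.transpose := by
    intro W hW
    have h1 : Wᴴ.transpose = (-W).transpose := by rw [hW]
    rw [Matrix.transpose_neg] at h1
    rw [← h1]
    rfl
  have e1 := dact_skew hx hYs
  have e2 := dact_skew hx hZs
  rw [hcj Y hYs] at e1
  rw [hcj Z hZs] at e2
  have e3 : -X.transpose = -Y.transpose + Complex.I • (-Z.transpose) := by
    conv_lhs => rw [hX]
    rw [Matrix.transpose_add, Matrix.transpose_smul]
    ext i j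
    simp
    ring
  rw [e3]
  conv_lhs => rw [hX]
  rw [dact_add, dact_smul, e1, e2, smul_zero, add_zero]

lemma dact_elem {x : Ten ℂ B P Q} (hx : ∀ k : UU B, uact (k : Matrix B B ℂ) x = x) (a b : B)
    (u : P → B) (v : Q → B) :
    ∑ p, (if b = u p then x (update u p a) v else 0) -
      ∑ q, (if a = v q then x u (update v q b) else 0) = 0 := by
  have h1 := congrFun (congrFun (dact_all hx (Matrix.single b a (1 : ℂ))) u) v
  rw [Pi.zero_apply, Pi.zero_apply] at h1
  refine Eq.trans ?_ h1
  unfold dact
  rw [sub_eq_add_neg, ← Finset.sum_neg_distrib]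
  congr 1
  · refine Finset.sum_congr rfl fun p _ => ?_
    rw [Finset.sum_eq_single a]
    · by_cases h : b = u p
      · rw [if_pos h, Matrix.single_apply, if_pos ⟨h, rfl⟩, one_mul]
      · rw [if_neg h, Matrix.single_apply, if_neg (fun h' => h h'.1), zero_mul]
    · intro c _ hc
      rw [Matrix.single_apply, if_neg (fun h' => hc h'.2.symm), zero_mul]
    · intro h; exact absurd (Finset.mem_univ _) h
  · refine Finset.sum_congr rfl fun q _ => ?_
    rw [Finset.sum_eq_single b]
    · rw [Matrix.neg_apply, Matrix.transpose_apply]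
      by_cases h : a = v q
      · rw [if_pos h, Matrix.single_apply, if_pos ⟨rfl, h⟩]
        ring
      · rw [if_neg h, Matrix.single_apply, if_neg (fun h' => h h'.2)]
        ring
    · intro c _ hc
      rw [Matrix.neg_apply, Matrix.transpose_apply, Matrix.single_apply,
        if_neg (fun h' => hc h'.1.symm)]
      ring
    · intro h; exact absurd (Finset.mem_univ _) h

end deriv

section fft

open Pool.Agent.TH125.Nod Pool.Agent.Y130

variable {B P Q : Type} [Fintype B] [DecidableEq B] [Fintype P] [DecidableEq P] [Fintype Q]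
  [DecidableEq Q]

/-- the colour of an index -/
def kap (B : Type) : B ⊕ B → Bool := Sum.elim (fun _ => false) (fun _ => true)

/-- the colour of a leg -/
def cab (P Q : Type) : P ⊕ Q → Bool := Sum.elim (fun _ => false) (fun _ => true)

/-- the form -/
def Qm (B : Type) [DecidableEq B] : Matrix (B ⊕ B) (B ⊕ B) ℂ := fun x y =>
  match x, y with
  | Sum.inl a, Sum.inr b => if a = b then 1 else 0
  | Sum.inr a, Sum.inl b => if a = b then 1 else 0
  | _, _ => 0

lemma Qm_symm (x y : B ⊕ B) : Qm B x y = Qm B y x := by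
  rcases x with a | a <;> rcases y with b | b <;> simp [Qm, eq_comm]

lemma Qm_ll (a b : B) : Qm B (Sum.inl a) (Sum.inl b) = 0 := rfl

lemma Qm_rr (a b : B) : Qm B (Sum.inr a) (Sum.inr b) = 0 := rfl

lemma Qm_lr (a b : B) : Qm B (Sum.inl a) (Sum.inr b) = if a = b then 1 else 0 := rfl

lemma Qm_rl (a b : B) : Qm B (Sum.inr a) (Sum.inl b) = if a = b then 1 else 0 := rfl

lemma Qm_mul : Qm B * Qm B = 1 := by
  ext x y
  rw [Matrix.mul_apply, Fintype.sum_sum_type, Matrix.one_apply]
  rcases x with a | a <;> rcases y with b | b <;> simp [Qm]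

/-- the multilinear function of a tensor -/
noncomputable def fx (x : Ten ℂ B P Q) : (P ⊕ Q → B ⊕ B) → ℂ := fun J =>
  if ∀ j, kap B (J j) = cab P Q j then
    x (fun p => Sum.elim id id (J (Sum.inl p))) (fun q => Sum.elim id id (J (Sum.inr q))) else 0

lemma fx_apply (x : Ten ℂ B P Q) (u : P → B) (v : Q → B) :
    fx x (Sum.elim (fun p => Sum.inl (u p)) (fun q => Sum.inr (v q))) = x u v := by
  unfold fx
  rw [if_pos]
  · rfl
  · rintro (p | q) <;> rfl

lemma pattern {J : P ⊕ Q → B ⊕ B} (h : ∀ j, kap B (J j) = cab P Q j) :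
    ∃ (u : P → B) (v : Q → B),
      J = Sum.elim (fun p => Sum.inl (u p)) (fun q => Sum.inr (v q)) := by
  refine ⟨fun p => Sum.elim id id (J (Sum.inl p)), fun q => Sum.elim id id (J (Sum.inr q)), ?_⟩
  funext j
  rcases j with p | q
  · have := h (Sum.inl p)
    rcases hj : J (Sum.inl p) with b | b
    · simp [hj]
    · rw [hj] at this
      simp [kap, cab] at this
  · have := h (Sum.inr q)
    rcases hj : J (Sum.inr q) with b | b
    · rw [hj] at this
      simp [kap, cab] at this
    · simp [hj]

lemma update_inl (u : P → B) (v : Q → B) (p : P) (a : B) :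
    update (Sum.elim (fun p => (Sum.inl (u p) : B ⊕ B)) (fun q => Sum.inr (v q))) (Sum.inl p)
      (Sum.inl a) = Sum.elim (fun p' => Sum.inl (update u p a p')) (fun q => Sum.inr (v q)) := by
  funext j
  rcases j with p' | q
  · by_cases h : p' = p
    · subst h
      simp
    · rw [update_of_ne (fun h' => h (Sum.inl_injective h'))]
      simp [update_of_ne h]
  · rw [update_of_ne (by simp)]
    rfl

lemma update_inr (u : P → B) (v : Q → B) (q : Q) (a : B) :
    update (Sum.elim (fun p => (Sum.inl (u p) : B ⊕ B)) (fun q => Sum.inr (v q))) (Sum.inr q)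
      (Sum.inr a) = Sum.elim (fun p' => Sum.inl (u p')) (fun q' => Sum.inr (update v q a q')) := by
  funext j
  rcases j with p' | q'
  · rw [update_of_ne (by simp)]
    rfl
  · by_cases h : q' = q
    · subst h
      simp
    · rw [update_of_ne (fun h' => h (Sum.inr_injective h'))]
      simp [update_of_ne h]

lemma fx_inv {x : Ten ℂ B P Q} (hx : ∀ k : UU B, uact (k : Matrix B B ℂ) x = x) :
    InvS (kap B) (Qm B) not (((1 : ℤ) : ℂ)) (fx x) := by
  intro u v huv J
  by_cases hJ : ∀ j, kap B (J j) = cab P Q j
  · obtain ⟨u', v', rfl⟩ := pattern hJ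
    rw [Fintype.sum_sum_type]
    rcases u with a | a <;> rcases v with b | b
    · simp [kap] at huv
    · have h1 := dact_elem hx a b u' v'
      rw [← h1, sub_eq_add_neg, ← Finset.sum_neg_distrib]
      congr 1
      · refine Finset.sum_congr rfl fun p _ => ?_
        rw [update_inl, fx_apply, Sum.elim_inl, Qm_rl, Qm_ll, mul_zero, zero_smul, sub_zero,
          ite_smul, one_smul, zero_smul]
      · refine Finset.sum_congr rfl fun p _ => ?_
        rw [update_inr u' v' p b, fx_apply, Sum.elim_inr, Qm_rr, Qm_lr, zero_smul, zero_sub,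
          Int.cast_one, one_mul, ite_smul, one_smul, zero_smul]
    · have h1 := dact_elem hx b a u' v'
      have h2 := congrArg Neg.neg h1
      rw [neg_zero, neg_sub, sub_eq_add_neg, ← Finset.sum_neg_distrib, add_comm] at h2
      rw [← h2]
      congr 1
      · refine Finset.sum_congr rfl fun p _ => ?_
        rw [update_inl u' v' p b, fx_apply, Sum.elim_inl, Qm_ll, Qm_rl, zero_smul, zero_sub,
          Int.cast_one, one_mul, ite_smul, one_smul, zero_smul]
      · refine Finset.sum_congr rfl fun p _ => ?_
        rw [update_inr u' v' p a, fx_apply, Sum.elim_inr, Qm_lr, Qm_rr, mul_zero, zero_smul,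
          sub_zero, ite_smul, one_smul, zero_smul]
    · simp [kap] at huv
  · refine Finset.sum_eq_zero fun j _ => ?_
    have hz : ∀ y z : B ⊕ B, Qm B y (J j) ≠ 0 → kap B z = ! (kap B y) →
        fx x (update J j z) = 0 := by
      intro y z hy hyz
      unfold fx
      rw [if_neg]
      intro h
      apply hJ
      intro i
      by_cases hi : i = j
      · have h3 := h j
        rw [update_self] at h3
        rw [hi, ← h3, hyz]
        rcases y with y | y <;> rcases hJj : J j with b | b
        · rw [hJj] at hy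
          simp [Qm] at hy
        · rfl
        · rfl
        · rw [hJj] at hy
          simp [Qm] at hy
      · have h3 := h i
        rwa [update_of_ne hi] at h3
    have h1 : Qm B v (J j) • fx x (update J j u) = 0 := by
      by_cases h : Qm B v (J j) = 0
      · rw [h, zero_smul]
      · rw [hz v u h (by rw [huv, Bool.not_not]), smul_zero]
    have h2 : (((1 : ℤ) : ℂ) * Qm B u (J j)) • fx x (update J j v) = 0 := by
      by_cases h : Qm B u (J j) = 0
      · rw [h, mul_zero, zero_smul]
      · rw [hz u v h huv, smul_zero]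
    rw [h1, h2, sub_zero]

/-- A partition of the legs into pairs which are mixed gives a bijection. -/
lemma exists_mixed {m : ℕ} (e : Fin m × Fin 2 ≃ P ⊕ Q)
    (hm : ∀ l, cab P Q (e (l, 0)) ≠ cab P Q (e (l, 1))) :
    ∃ π : P ≃ Q, ∀ (u : P → B) (v : Q → B),
      ∏ l, Qm B (Sum.elim (fun p => Sum.inl (u p)) (fun q => Sum.inr (v q)) (e (l, 0)))
        (Sum.elim (fun p => Sum.inl (u p)) (fun q => Sum.inr (v q)) (e (l, 1))) =
      dten π u v := by
  set τ : P ⊕ Q → P ⊕ Q := fun s => e ((e.symm s).1, (e.symm s).2.rev) with hτ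
  have hττ : ∀ s, τ (τ s) = s := by
    intro s
    simp [hτ]
  have hτe0 : ∀ l, τ (e (l, 0)) = e (l, 1) := fun l => by simp [hτ]
  have hτe1 : ∀ l, τ (e (l, 1)) = e (l, 0) := fun l => by simp [hτ]
  have hmix : ∀ s, cab P Q (τ s) ≠ cab P Q s := by
    intro s
    obtain ⟨⟨l, i⟩, rfl⟩ := e.surjective s
    fin_cases i
    · change cab P Q (τ (e (l, 0))) ≠ cab P Q (e (l, 0))
      rw [hτe0]
      exact (hm l).symm
    · change cab P Q (τ (e (l, 1))) ≠ cab P Q (e (l, 1))
      rw [hτe1]
      exact hm l
  have hPQ : ∀ p : P, ∃ q : Q, τ (Sum.inl p) = Sum.inr q := by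
    intro p
    rcases h : τ (Sum.inl p) with q | q
    · exact absurd (by rw [h]; rfl) (hmix (Sum.inl p))
    · exact ⟨q, rfl⟩
  have hQP : ∀ q : Q, ∃ p : P, τ (Sum.inr q) = Sum.inl p := by
    intro p
    rcases h : τ (Sum.inr p) with q | q
    · exact ⟨q, rfl⟩
    · exact absurd (by rw [h]; rfl) (hmix (Sum.inr p))
  choose f hf using hPQ
  choose g hg using hQP
  have hgf : ∀ p, g (f p) = p := by
    intro p
    have h1 := hg (f p)
    rw [← hf p, hττ] at h1
    exact (Sum.inl_injective h1).symm
  have hfg : ∀ q, f (g q) = q := by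
    intro p
    have h1 := hf (g p)
    rw [← hg p, hττ] at h1
    exact (Sum.inr_injective h1).symm
  refine ⟨⟨f, g, hgf, hfg⟩, fun u v => ?_⟩
  set lam : P → Fin m := fun p => (e.symm (Sum.inl p)).1 with hlam
  have hbij : Function.Bijective lam := by
    constructor
    · intro p p' h
      by_contra hne
      have h1 : (e.symm (Sum.inl p)).2 ≠ (e.symm (Sum.inl p')).2 := by
        intro h2
        apply hne
        have h3 := e.symm.injective (Prod.ext h h2)
        exact Sum.inl_injective h3
      have h4 : τ (Sum.inl p) = Sum.inl p' := by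
        have h5 : (e.symm (Sum.inl p)).2.rev = (e.symm (Sum.inl p')).2 := by
          revert h1
          generalize (e.symm (Sum.inl p)).2 = i
          generalize (e.symm (Sum.inl p')).2 = i'
          revert i i'
          decide
        simp only [hτ]
        rw [h5, show (e.symm (Sum.inl p)).1 = (e.symm (Sum.inl p')).1 from h]
        exact e.apply_symm_apply _
      rw [hf] at h4
      exact absurd h4 (by simp)
    · intro l
      rcases h0 : e (l, 0) with p | q
      · exact ⟨p, by simp only [hlam]; rw [← h0, Equiv.symm_apply_apply]⟩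
      · rcases h1 : e (l, 1) with p | q'
        · exact ⟨p, by simp only [hlam]; rw [← h1, Equiv.symm_apply_apply]⟩
        · exact absurd (by rw [h0, h1]; rfl) (hm l)
  rw [← hbij.prod_comp]
  unfold dten
  refine Finset.prod_congr rfl fun p _ => ?_
  have h2 : ∀ i : Fin 2, e.symm (Sum.inl p) = (lam p, i) → Qm B
      (Sum.elim (fun p => Sum.inl (u p)) (fun q => Sum.inr (v q)) (e (lam p, 0)))
      (Sum.elim (fun p => Sum.inl (u p)) (fun q => Sum.inr (v q)) (e (lam p, 1))) =
      Qm B (Sum.inl (u p)) (Sum.inr (v (f p))) := by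
    intro i hi
    have h3 : e (lam p, i) = Sum.inl p := by rw [← hi, Equiv.apply_symm_apply]
    have h4 := hf p
    fin_cases i
    · change e (lam p, 0) = Sum.inl p at h3
      rw [← h3, hτe0] at h4
      rw [h3, h4]
      rfl
    · change e (lam p, 1) = Sum.inl p at h3
      rw [← h3, hτe1] at h4
      rw [h3, h4, Qm_symm]
      rfl
  rw [h2 _ (Prod.ext rfl rfl)]
  rfl

/-- **The first fundamental theorem** for the unitary group and mixed tensors. -/
theorem inv_mem_span {x : Ten ℂ B P Q} (hx : ∀ k : UU B, uact (k : Matrix B B ℂ) x = x) :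
    x ∈ Submodule.span ℂ (Set.range fun π : P ≃ Q => (dten π : Ten ℂ B P Q)) := by
  have h1 : fx x ∈ Gen (kap B) (Qm B) (cab P Q) := by
    refine fftS (K := ℂ) (κ := kap B) (Q := Qm B) (R := Qm B) (star := not) (s := 1)
      (Or.inl rfl) (fun i => Bool.not_not i) ?_ ?_ ?_ Qm_mul _ _ _ _ rfl ?_ (fx_inv hx) ?_
    · intro a b h
      rcases a with a | a <;> rcases b with b | b
      · rfl
      · exact absurd rfl h
      · exact absurd rfl h
      · rfl
    · intro a b h
      rcases a with a | a <;> rcases b with b | b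
      · rfl
      · exact absurd rfl h
      · exact absurd rfl h
      · rfl
    · intro a b
      rw [Qm_symm]
      simp
    · intro J hJ
      unfold fx
      rw [if_neg hJ]
    · intro i _ hi
      exact absurd hi (by cases i <;> simp)
  have h2 : ∀ f ∈ Gen (M := ℂ) (kap B) (Qm B) (cab P Q), (fun u v => f (Sum.elim
      (fun p => Sum.inl (u p)) (fun q => Sum.inr (v q))) : Ten ℂ B P Q) ∈
      Submodule.span ℂ (Set.range fun π : P ≃ Q => (dten π : Ten ℂ B P Q)) := by
    intro f hf
    unfold Gen at hf
    induction hf using Submodule.span_induction with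
    | mem f hf =>
      obtain ⟨m, e, w, rfl⟩ := hf
      by_cases hm : ∀ l, cab P Q (e (l, 0)) ≠ cab P Q (e (l, 1))
      · obtain ⟨π, hπ⟩ := exists_mixed (B := B) e hm
        have h3 : (fun u v => gen (kap B) (Qm B) (cab P Q) e w (Sum.elim
            (fun p => Sum.inl (u p)) (fun q => Sum.inr (v q))) : Ten ℂ B P Q) =
            w • dten π := by
          funext u v
          unfold gen
          rw [if_pos (by rintro (p | q) <;> rfl), hπ, Pi.smul_apply, Pi.smul_apply, smul_eq_mul,
            smul_eq_mul, mul_comm]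
        rw [h3]
        exact Submodule.smul_mem _ _ (Submodule.subset_span ⟨π, rfl⟩)
      · push Not at hm
        obtain ⟨l, hl⟩ := hm
        have h3 : (fun u v => gen (kap B) (Qm B) (cab P Q) e w (Sum.elim
            (fun p => Sum.inl (u p)) (fun q => Sum.inr (v q))) : Ten ℂ B P Q) = 0 := by
          funext u v
          unfold gen
          rw [if_pos (by rintro (p | q) <;> rfl)]
          rw [Finset.prod_eq_zero (Finset.mem_univ l), zero_smul]
          · rfl
          · revert hl
            rcases e (l, 0) with p | q <;> rcases e (l, 1) with p' | q' <;> intro hl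
            · rfl
            · simp [cab] at hl
            · simp [cab] at hl
            · rfl
        rw [h3]
        exact Submodule.zero_mem _
    | zero => exact Submodule.zero_mem _
    | add f g _ _ hf hg => exact Submodule.add_mem _ hf hg
    | smul c f _ hf => exact Submodule.smul_mem _ _ hf
  have h4 := h2 _ h1
  simp only [fx_apply] at h4
  exact h4

end fft

end Pool.Agent.Run7.h174
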