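import Pool.Agent.Run7.h174.Par

/-!
# The coordinates of algebraic classes are algebraic tensors
-/

set_option autoImplicit false
set_option linter.unusedSectionVars false

open CategoryTheory AlgebraicGeometry Finset

universe u v

namespace Pool.Agent.Run7.h174

open Pool.Agent.H914 Pool.Agent.H914.VarClass Pool.Agent.H914.VarClass.Obj
  Pool.Agent.H914.WeilCohomology Pool.Agent.H281R3.HT Pool.Agent.W552 Pool.Agent.W539.Ker

variable {k : Type u} [Field k] {𝒱 : VarClass k} {ops : CycleOps 𝒱}
  {W : WeilCohomology.{u, v} ops} {Y : 𝒱.Obj} {P : Polarized 𝒱}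
  {f : Module.End W.K (W.H P.X)} {bX : HB W P.X} {e' : Fin bX.N → W.H P.X}

/-- The operator on external products of elements of the basis. -/
lemma opN_pi (m : ℕ) (ε : Fin (m + 1) → Bool) (r : Fin (m + 1) → Fin bX.N) :
    opN W P m (fun a => piE W P.X (ε a)) (monV W P m (fun a => bX.e (r a))) =
      if (∀ a, bt bX (r a) = ε a) then monV W P m (fun a => bX.e (r a)) else 0 := by
  rw [opN_monV]
  split_ifs with h
  · congr 1
    funext a
    rw [piE_basis, if_pos (h a)]
  · push Not at h
    obtain ⟨a, ha⟩ := h
    refine monV_zero m _ (a := a) ?_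
    rw [piE_basis, if_neg ha]

/-- **The coordinates of an algebraic class form an algebraic tensor.** -/
lemma good_up (hd : IsDual bX e') (hp : AOp W P.X P.X (H914.par (W.isInternal P.X))) (m : ℕ)
    {z : W.H (NP ops P m).X} (hz : AS W _ z) :
    Good bX e' (Fin (m + 1)) Empty (tn bX m z) := by
  classical
  refine good_of_one hd fun Y g ε => ⟨(List.finRange (m + 1)).map Sum.inl, ?_, ?_, ?_⟩
  · exact (List.nodup_finRange _).map Sum.inl_injective
  · rintro (a | a)
    · exact List.mem_map.2 ⟨a, List.mem_finRange a, rfl⟩
    · exact a.elim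
  · have key : cls (bt bX) (tn bX m z) (famG bX e' g) ε ((List.finRange (m + 1)).map Sum.inl) =
        W.map (nestLift ops P m (fun a => g (Sum.inl a)))
          (opN W P m (fun a => piE W P.X (ε (Sum.inl a))) z) := by
      conv_rhs => rw [← nt_tn bX m z]
      unfold nt cls
      rw [map_sum, map_sum]
      set E : (Fin (m + 1) ⊕ Empty → Fin bX.N) ≃ (Fin (m + 1) → Fin bX.N) :=
        { toFun := fun r a => r (Sum.inl a)
          invFun := fun r => Sum.elim r (fun e => e.elim)
          left_inv := fun r => by
            funext a
            rcases a with a | a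
            · rfl
            · exact a.elim
          right_inv := fun r => rfl } with hE
      rw [← Equiv.sum_comp E.symm]
      refine Finset.sum_congr rfl fun r _ => ?_
      rw [map_smul, map_smul, bN_apply, opN_pi]
      have hpat : Pat (bt bX) ε (E.symm r) ↔ ∀ a, bt bX (r a) = ε (Sum.inl a) := by
        constructor
        · intro h a
          exact h (Sum.inl a)
        · rintro h (a | a)
          · exact h a
          · exact a.elim
      by_cases h : ∀ a, bt bX (r a) = ε (Sum.inl a)
      · rw [if_pos (hpat.2 h), if_pos h, map_nestLift, LP_map]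
        unfold LP
        have e1 : (fun q : Empty => E.symm r (Sum.inr q)) = fun e => Empty.elim e :=
          Subsingleton.elim _ _
        rw [e1]
        rfl
      · rw [if_neg (fun h' => h (hpat.1 h')), if_neg h, map_zero, smul_zero]
    rw [key]
    exact ((opN_aop m fun a => piE_aop hp _).apply hz).map _

/-- the parity of the dual basis -/
lemma piE_dual (hd : IsDual bX e') (δ : Bool) (s : Fin bX.N) :
    piE W P.X δ (e' s) = if bt bX s = δ then e' s else 0 := by
  obtain ⟨i, hi, hi'⟩ := hd.hom s
  rw [piE_apply δ hi]
  have h1 : decide (¬ Even i) = bt bX s := by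
    unfold bt
    simp only [hi']
  rw [h1]

lemma par_dual (hd : IsDual bX e') (s : Fin bX.N) :
    H914.par (W.isInternal P.X) (e' s) = sgB W.K (bt bX s) • e' s := by
  obtain ⟨i, hi, hi'⟩ := hd.hom s
  rw [H914.par, scal_apply _ _ hi]
  congr 1
  have := neg_one_pow_sgB (W := W) (bX := bX) (b := s) (c := s) (i := i) (j := i) hi' hi'
  rw [Bool.and_self] at this
  rw [← this]
  by_cases h5 : Even i
  · rw [h5.neg_one_pow, (h5.mul_left _).neg_one_pow]
  · rw [(Nat.not_even_iff_odd.1 h5).neg_one_pow,
      ((Nat.not_even_iff_odd.1 h5).mul (Nat.not_even_iff_odd.1 h5)).neg_one_pow]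

/-- The lowering operator in coordinates. -/
lemma low_apply (G : Gd W P.X P.D f) (hd : IsDual bX e') (δ : Bool) (r : Fin bX.N) :
    (piE W P.X δ * H914.par (W.isInternal P.X) * st W P.X P.D f) (bX.e r) =
      ∑ s, (if bt bX s = δ then phG bX f s r else 0) • e' s := by
  have ha : bX.dg r ≤ 2 * P.X.dim := by
    by_contra hcon
    have h2 := bX.mem r
    rw [W.gr_eq_bot P.X _ (by omega)] at h2
    exact bX.e.ne_zero r ((Submodule.mem_bot _).1 h2)
  have hst : st W P.X P.D f (bX.e r) ∈ W.gr P.X (2 * P.X.dim - bX.dg r) :=
    G.ls.star_mem ha (bX.mem r)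
  rw [Module.End.mul_apply, Module.End.mul_apply]
  conv_lhs => rw [hd.expand (st W P.X P.D f (bX.e r))]
  rw [map_sum, map_sum]
  refine Finset.sum_congr rfl fun s _ => ?_
  rw [map_smul, map_smul, par_dual hd, map_smul, piE_dual hd]
  have h1 : W.tr P.X (st W P.X P.D f (bX.e r) * bX.e s) =
      sgB W.K (bt bX s) * phG bX f s r := by
    rw [W.comm hst (bX.mem s), map_smul, smul_eq_mul]
    change _ * phG bX f s r = _
    by_cases h2 : bX.dg s = bX.dg r
    · congr 1
      refine (neg_one_pow_sgB (W := W) (bX := bX) (b := s) (c := s) ?_ Iff.rfl).trans ?_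
      · rw [Nat.even_sub ha, h2]
        simp
      · rw [Bool.and_self]
    · have h3 : phG bX f s r = 0 := G.fr.bf_deg (bX.mem s) (bX.mem r) h2
      rw [h3, mul_zero, mul_zero]
  rw [h1]
  split_ifs
  · rw [smul_smul]
    congr 1
    have := sgB_mul_self (K := W.K) (bt bX s)
    linear_combination (phG bX f s r) * this
  · rw [smul_zero, smul_zero, zero_smul]

/-- **The lowered coordinates of an algebraic class form an algebraic tensor.** -/
lemma good_low (G : Gd W P.X P.D f) (hd : IsDual bX e') (m : ℕ)
    {z : W.H (NP ops P m).X} (hz : AS W _ z) (ps : Matrix (Fin bX.N) (Fin bX.N) W.K) :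
    Good bX e' Empty (Fin (m + 1)) (tswap (act (phG bX f) ps (tn bX m z))) := by
  classical
  refine good_of_one hd fun Y g ε => ⟨(List.finRange (m + 1)).map Sum.inr, ?_, ?_, ?_⟩
  · exact (List.nodup_finRange _).map Sum.inr_injective
  · rintro (a | a)
    · exact a.elim
    · exact List.mem_map.2 ⟨a, List.mem_finRange a, rfl⟩
  · have key : cls (bt bX) (tswap (act (phG bX f) ps (tn bX m z))) (famG bX e' g) ε
        ((List.finRange (m + 1)).map Sum.inr) =
        W.map (nestLift ops P m (fun a => g (Sum.inr a)))
          (opN W P m (fun a => piE W P.X (ε (Sum.inr a)) * H914.par (W.isInternal P.X) *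
            st W P.X P.D f) z) := by
      conv_rhs => rw [← nt_tn bX m z]
      unfold nt
      rw [map_sum, map_sum]
      have h1 : ∀ r : Fin (m + 1) → Fin bX.N,
          W.map (nestLift ops P m (fun a => g (Sum.inr a)))
          (opN W P m (fun a => piE W P.X (ε (Sum.inr a)) * H914.par (W.isInternal P.X) *
            st W P.X P.D f) (tn bX m z r (fun e => Empty.elim e) • bN bX m r)) =
          ∑ s : Fin (m + 1) → Fin bX.N, if (∀ a, bt bX (s a) = ε (Sum.inr a)) then
            ((∏ a, phG bX f (s a) (r a)) * tn bX m z r (fun e => Empty.elim e)) •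
              ((List.finRange (m + 1)).map fun a => W.map (g (Sum.inr a)) (e' (s a))).prod
            else 0 := by
        intro r
        rw [map_smul, bN_apply, opN_monV]
        have h2 : (fun i => (piE W P.X (ε (Sum.inr i)) * H914.par (W.isInternal P.X) *
            st W P.X P.D f) (bX.e (r i))) = fun i => ∑ s, (if bt bX s = ε (Sum.inr i) then
              phG bX f s (r i) else 0) • e' s := by
          funext i
          exact low_apply G hd _ _
        rw [h2, monV_sum m (fun i s => if bt bX s = ε (Sum.inr i) then phG bX f s (r i) else 0)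
          (fun _ s => e' s), Finset.smul_sum, map_sum]
        refine Finset.sum_congr rfl fun s _ => ?_
        rw [map_smul, map_smul, map_nestLift]
        split_ifs with h
        · rw [smul_smul, Finset.prod_congr rfl fun a _ => if_pos (h a), mul_comm]
        · push Not at h
          obtain ⟨a, ha⟩ := h
          rw [Finset.prod_eq_zero (Finset.mem_univ a) (if_neg ha), zero_smul, smul_zero]
      rw [Finset.sum_congr rfl fun r _ => h1 r, Finset.sum_comm]
      unfold cls
      set E : (Empty ⊕ Fin (m + 1) → Fin bX.N) ≃ (Fin (m + 1) → Fin bX.N) :=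
        { toFun := fun r a => r (Sum.inr a)
          invFun := fun r => Sum.elim (fun e => e.elim) r
          left_inv := fun r => by
            funext a
            rcases a with a | a
            · exact a.elim
            · rfl
          right_inv := fun r => rfl } with hE
      rw [← Equiv.sum_comp E.symm]
      refine Finset.sum_congr rfl fun s _ => ?_
      have hpat : Pat (bt bX) ε (E.symm s) ↔ ∀ a, bt bX (s a) = ε (Sum.inr a) := by
        constructor
        · intro h a
          exact h (Sum.inr a)
        · rintro h (a | a)
          · exact a.elim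
          · exact h a
      by_cases h : ∀ a, bt bX (s a) = ε (Sum.inr a)
      · rw [if_pos (hpat.2 h)]
        simp only [if_pos h]
        rw [← Finset.sum_smul, LP_map]
        congr 1
        have h3 : tswap (act (phG bX f) ps (tn bX m z)) (fun p => E.symm s (Sum.inl p))
            (fun q => E.symm s (Sum.inr q)) = act (phG bX f) ps (tn bX m z) s
              (fun e => Empty.elim e) := by
          change act (phG bX f) ps (tn bX m z) _ _ = _
          congr 1
        rw [h3]
        unfold act
        refine Finset.sum_congr rfl fun r _ => ?_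
        rw [Fintype.sum_unique, Fintype.prod_empty (fun q : Empty =>
          ps (Empty.elim q) ((default : Empty → Fin bX.N) q)), mul_one,
          show (default : Empty → Fin bX.N) = fun e => Empty.elim e from Subsingleton.elim _ _]
      · rw [if_neg (fun h' => h (hpat.1 h'))]
        simp only [if_neg h, Finset.sum_const_zero]
    rw [key]
    exact ((opN_aop m fun a => ((piE_aop G.pa _).mul G.pa).mul G.sa).apply hz).map _

end Pool.Agent.Run7.h174
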