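import Pool.Agent.Run7.h174.LP
import Pool.Agent.W552.Main

/-!
# Algebraic tensors
-/

set_option autoImplicit false
set_option linter.unusedSectionVars false

open CategoryTheory AlgebraicGeometry Finset

universe u v

namespace Pool.Agent.Run7.h174

open Pool.Agent.H914 Pool.Agent.H914.VarClass Pool.Agent.H914.VarClass.Obj
  Pool.Agent.H914.WeilCohomology Pool.Agent.H281R3.HT Pool.Agent.W552

variable {k : Type u} [Field k] {𝒱 : VarClass k} {ops : CycleOps 𝒱}
  {W : WeilCohomology.{u, v} ops} {X Y Z : 𝒱.Obj}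

/-- the parity of the elements of the basis -/
def bt (bX : HB W X) (b : Fin bX.N) : Bool := decide (¬ Even (bX.dg b))

lemma bt_true {bX : HB W X} {b : Fin bX.N} : bt bX b = true ↔ ¬ Even (bX.dg b) := by
  simp [bt]

lemma bt_false {bX : HB W X} {b : Fin bX.N} : bt bX b = false ↔ Even (bX.dg b) := by
  simp [bt]

/-- The dual basis. -/
lemma exists_dual (bX : HB W X) : ∃ e' : Fin bX.N → W.H X,
    (∀ c b, W.tr X (e' c * bX.e b) = if c = b then 1 else 0) ∧
    (∀ y, y = ∑ b, W.tr X (y * bX.e b) • e' b) ∧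
    ∀ c, ∃ i, e' c ∈ W.gr X i ∧ (Even i ↔ Even (bX.dg c)) := by
  classical
  set Bf : LinearMap.BilinForm W.K (W.H X) := bil W X with hBf
  have hnd : Bf.Nondegenerate := by
    refine ⟨fun a h => W.nondeg a h, fun a h => ?_⟩
    refine W.nondeg a fun b => ?_
    refine gr_induction (W.isInternal X) (p := fun b => W.tr X (a * b) = 0) ?_ ?_ b
    · intro i b hb
      have h1 : ∀ a : W.H X, (∀ b, W.tr X (b * a) = 0) → W.tr X (a * b) = 0 := by
        intro a h0
        have h2 : W.tr X (proj (W.isInternal X) (2 * X.dim - i) a * b) = W.tr X (a * b) ∨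
            2 * X.dim < i := by
          by_cases hi : 2 * X.dim < i
          · exact Or.inr hi
          · left
            refine gr_induction (W.isInternal X)
              (p := fun a => W.tr X (proj (W.isInternal X) (2 * X.dim - i) a * b) =
                W.tr X (a * b)) ?_ ?_ a
            · intro j a ha
              by_cases hj : j = 2 * X.dim - i
              · subst hj
                rw [proj_same _ ha]
              · rw [proj_ne _ ha hj, zero_mul, map_zero, W.tr_eq_zero (W.mul_mem ha hb)]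
                omega
            · intro a a' h h'
              rw [map_add, add_mul, map_add, h, h', add_mul, map_add]
        have h3 : W.tr X (b * proj (W.isInternal X) (2 * X.dim - i) a) = W.tr X (b * a) ∨
            2 * X.dim < i := by
          by_cases hi : 2 * X.dim < i
          · exact Or.inr hi
          · left
            refine gr_induction (W.isInternal X)
              (p := fun a => W.tr X (b * proj (W.isInternal X) (2 * X.dim - i) a) =
                W.tr X (b * a)) ?_ ?_ a
            · intro j a ha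
              by_cases hj : j = 2 * X.dim - i
              · subst hj
                rw [proj_same _ ha]
              · rw [proj_ne _ ha hj, mul_zero, map_zero, W.tr_eq_zero (W.mul_mem hb ha)]
                omega
            · intro a a' h h'
              rw [map_add, mul_add, map_add, h, h', mul_add, map_add]
        rcases h2 with h2 | h2
        · rcases h3 with h3 | h3
          · rw [← h2, W.comm (proj_mem _ _ _) hb, map_smul, h3, h0, smul_zero]
          · rw [W.gr_eq_bot X i h3] at hb
            rw [(Submodule.mem_bot _).1 hb, mul_zero, map_zero]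
        · rw [W.gr_eq_bot X i h2] at hb
          rw [(Submodule.mem_bot _).1 hb, mul_zero, map_zero]
      exact h1 a fun b => h b
    · intro b b' hb hb'
      rw [mul_add, map_add, hb, hb', add_zero]
  set e' : Module.Basis (Fin bX.N) W.K (W.H X) := Bf.dualBasis hnd bX.e with he'
  have h1 : ∀ c b, W.tr X (e' c * bX.e b) = if c = b then 1 else 0 := by
    intro c b
    have := LinearMap.BilinForm.apply_dualBasis_left hnd bX.e c b
    rw [← he'] at this
    change Bf (e' c) (bX.e b) = _
    rw [this]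
    simp only [eq_comm]
  refine ⟨e', h1, fun y => ?_, fun c => ?_⟩
  · conv_lhs => rw [← e'.sum_repr y]
    refine Finset.sum_congr rfl fun b _ => ?_
    congr 1
    conv_rhs => rw [← e'.sum_repr y]
    rw [Finset.sum_mul, map_sum, Finset.sum_eq_single b]
    · rw [smul_mul_assoc, map_smul, h1, if_pos rfl, smul_eq_mul, mul_one]
    · intro c _ hc
      rw [smul_mul_assoc, map_smul, h1, if_neg hc, smul_zero]
    · intro h; exact absurd (Finset.mem_univ _) h
  · by_cases hc : bX.dg c ≤ 2 * X.dim
    · refine ⟨2 * X.dim - bX.dg c, ?_, by rw [Nat.even_sub hc]; simp⟩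
      have h2 : proj (W.isInternal X) (2 * X.dim - bX.dg c) (e' c) = e' c := by
        apply W.tr_ext
        intro x
        conv_lhs => rw [← bX.e.sum_repr x]
        conv_rhs => rw [← bX.e.sum_repr x]
        rw [Finset.mul_sum, Finset.mul_sum, map_sum, map_sum]
        refine Finset.sum_congr rfl fun b _ => ?_
        rw [mul_smul_comm, mul_smul_comm, map_smul, map_smul]
        congr 1
        by_cases hb : bX.dg b = bX.dg c
        · refine gr_induction (W.isInternal X)
            (p := fun a => W.tr X (proj (W.isInternal X) (2 * X.dim - bX.dg c) a * bX.e b) =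
              W.tr X (a * bX.e b)) ?_ ?_ (e' c)
          · intro j a ha
            by_cases hj : j = 2 * X.dim - bX.dg c
            · subst hj
              rw [proj_same _ ha]
            · rw [proj_ne _ ha hj, zero_mul, map_zero,
                W.tr_eq_zero (W.mul_mem ha (bX.mem b))]
              omega
          · intro a a' h h'
            rw [map_add, add_mul, map_add, h, h', add_mul, map_add]
        · rw [W.tr_eq_zero (W.mul_mem (proj_mem _ _ _) (bX.mem b)) (by omega), h1, if_neg]
          intro h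
          rw [h] at hb
          exact hb rfl
      rw [← h2]
      exact proj_mem _ _ _
    · have h2 := bX.mem c
      rw [W.gr_eq_bot X _ (by omega)] at h2
      exact absurd ((Submodule.mem_bot _).1 h2) (bX.e.ne_zero c)

/-- the families for legs -/
noncomputable def famG {P Q : Type} (bX : HB W X) (e' : Fin bX.N → W.H X)
    (g : P ⊕ Q → (Y ⟶ X)) : P ⊕ Q → Fin bX.N → W.H Y
  | Sum.inl p => fun b => W.map (g (Sum.inl p)) (bX.e b)
  | Sum.inr q => fun b => W.map (g (Sum.inr q)) (e' b)

/-- the properties of the dual basis -/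
structure IsDual (bX : HB W X) (e' : Fin bX.N → W.H X) : Prop where
  tr : ∀ c b, W.tr X (e' c * bX.e b) = if c = b then 1 else 0
  expand : ∀ y, y = ∑ b, W.tr X (y * bX.e b) • e' b
  hom : ∀ c, ∃ i, e' c ∈ W.gr X i ∧ (Even i ↔ Even (bX.dg c))

lemma neg_one_pow_sgB {bX : HB W X} {b c : Fin bX.N} {i j : ℕ} (hi : Even i ↔ Even (bX.dg b))
    (hj : Even j ↔ Even (bX.dg c)) : (-1 : W.K) ^ (i * j) = sgB W.K (bt bX b && bt bX c) := by
  unfold sgB
  by_cases h1 : Even i
  · rw [(h1.mul_right j).neg_one_pow, bt_false.2 (hi.1 h1)]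
    simp
  · by_cases h2 : Even j
    · rw [(h2.mul_left i).neg_one_pow, bt_false.2 (hj.1 h2)]
      simp
    · rw [((Nat.not_even_iff_odd.1 h1).mul (Nat.not_even_iff_odd.1 h2)).neg_one_pow,
        bt_true.2 (fun h => h1 (hi.2 h)), bt_true.2 (fun h => h2 (hj.2 h))]
      simp

lemma famG_hom {P Q : Type} {bX : HB W X} {e' : Fin bX.N → W.H X} (hd : IsDual bX e')
    (g : P ⊕ Q → (Y ⟶ X)) (a : P ⊕ Q) (b : Fin bX.N) :
    ∃ i, famG bX e' g a b ∈ W.gr Y i ∧ (Even i ↔ Even (bX.dg b)) := by
  rcases a with p | q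
  · exact ⟨bX.dg b, W.map_mem _ (bX.mem b), Iff.rfl⟩
  · obtain ⟨i, hi, hi'⟩ := hd.hom b
    exact ⟨i, W.map_mem _ hi, hi'⟩

lemma famG_comm {P Q : Type} {bX : HB W X} {e' : Fin bX.N → W.H X} (hd : IsDual bX e')
    (g : P ⊕ Q → (Y ⟶ X)) (a a' : P ⊕ Q) (b b' : Fin bX.N) :
    famG bX e' g a b * famG bX e' g a' b' =
      sgB W.K (bt bX b && bt bX b') • (famG bX e' g a' b' * famG bX e' g a b) := by
  obtain ⟨i, hi, hi'⟩ := famG_hom hd g a b
  obtain ⟨j, hj, hj'⟩ := famG_hom hd g a' b'
  rw [W.comm hi hj, neg_one_pow_sgB hi' hj']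

/-- The tensor is algebraic: for all patterns of parities, the classes of the tensor on all
varieties are algebraic. -/
def Good (bX : HB W X) (e' : Fin bX.N → W.H X) (P Q : Type)
    (x : Ten W.K (Fin bX.N) P Q) : Prop :=
  ∀ (_ : Fintype P) (_ : DecidableEq P) (_ : Fintype Q) (_ : DecidableEq Q) (Y : 𝒱.Obj)
    (g : P ⊕ Q → (Y ⟶ X)) (ε : P ⊕ Q → Bool) (l : List (P ⊕ Q)), l.Nodup → (∀ a, a ∈ l) →
    AS W Y (cls (bt bX) x (famG bX e' g) ε l)

section good

variable {bX : HB W X} {e' : Fin bX.N → W.H X}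

lemma perm_of_complete {Λ : Type} {l l' : List Λ} (h : l.Nodup) (h' : ∀ a, a ∈ l)
    (h1 : l'.Nodup) (h1' : ∀ a, a ∈ l') : l.Perm l' :=
  (List.perm_ext_iff_of_nodup h h1).2 fun a => ⟨fun _ => h1' a, fun _ => h' a⟩

/-- It is enough to look at one order. -/
lemma good_of_one (hd : IsDual bX e') {P Q : Type} {x : Ten W.K (Fin bX.N) P Q}
    [j1 : Fintype P] [j2 : DecidableEq P] [j3 : Fintype Q] [j4 : DecidableEq Q]
    (h : ∀ (Y : 𝒱.Obj) (g : P ⊕ Q → (Y ⟶ X)) (ε : P ⊕ Q → Bool), ∃ l : List (P ⊕ Q), l.Nodup ∧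
      (∀ a, a ∈ l) ∧ AS W Y (cls (bt bX) x (famG bX e' g) ε l)) : Good bX e' P Q x := by
  intro i1 i2 i3 i4 Y g ε l hl hl'
  obtain rfl : i1 = j1 := Subsingleton.elim _ _
  obtain rfl : i2 = j2 := Subsingleton.elim _ _
  obtain rfl : i3 = j3 := Subsingleton.elim _ _
  obtain rfl : i4 = j4 := Subsingleton.elim _ _
  obtain ⟨l', h1, h2, h3⟩ := h Y g ε
  obtain ⟨s, hs, h4⟩ := cls_perm x (famG_comm hd g) ε (perm_of_complete hl hl' h1 h2)
  rw [h4]
  have := h3.smul (s : ℚ)
  push_cast at this
  exact this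

lemma good_one (hd : IsDual bX e') : Good bX e' Empty Empty tone := by
  refine good_of_one hd fun Y g ε => ⟨[], List.nodup_nil, fun a => ?_, ?_⟩
  · rcases a with a | a <;> exact a.elim
  · unfold cls
    rw [Fintype.sum_unique, if_pos]
    · change AS W Y ((1 : W.K) • 1)
      rw [one_smul]
      exact AS.one
    · intro a
      rcases a with a | a <;> exact a.elim

lemma good_mul (hd : IsDual bX e') {P Q P' Q' : Type} [Finite P] [Finite Q] [Finite P']
    [Finite Q'] {x : Ten W.K (Fin bX.N) P Q} {y : Ten W.K (Fin bX.N) P' Q'}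
    (hx : Good bX e' P Q x) (hy : Good bX e' P' Q' y) :
    Good bX e' (P ⊕ P') (Q ⊕ Q') (tmul x y) := by
  classical
  have := Fintype.ofFinite P
  have := Fintype.ofFinite Q
  have := Fintype.ofFinite P'
  have := Fintype.ofFinite Q'
  refine good_of_one hd fun Y g ε => ⟨(Finset.univ (α := P ⊕ Q)).toList.map (incl1 P Q P' Q') ++
      (Finset.univ (α := P' ⊕ Q')).toList.map (incl2 P Q P' Q'), ?_, ?_, ?_⟩
  · rw [List.nodup_append]
    refine ⟨(Finset.nodup_toList _).map (Function.Injective.sumMap Sum.inl_injective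
      Sum.inl_injective), (Finset.nodup_toList _).map (Function.Injective.sumMap Sum.inr_injective
      Sum.inr_injective), ?_⟩
    intro a ha b hb
    rw [List.mem_map] at ha hb
    obtain ⟨a, _, rfl⟩ := ha
    obtain ⟨b, _, rfl⟩ := hb
    rcases a with a | a <;> rcases b with b | b <;> simp [incl1, incl2]
  · intro a
    rw [List.mem_append, List.mem_map, List.mem_map]
    rcases a with (a | a) | (a | a)
    · exact Or.inl ⟨Sum.inl a, by simp, rfl⟩
    · exact Or.inr ⟨Sum.inl a, by simp, rfl⟩
    · exact Or.inl ⟨Sum.inr a, by simp, rfl⟩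
    · exact Or.inr ⟨Sum.inr a, by simp, rfl⟩
  · rw [cls_tmul]
    have e1 : (fun a => famG bX e' g (incl1 P Q P' Q' a)) =
        famG bX e' (fun a => g (incl1 P Q P' Q' a)) := by
      funext a
      rcases a with a | a <;> rfl
    have e2 : (fun a => famG bX e' g (incl2 P Q P' Q' a)) =
        famG bX e' (fun a => g (incl2 P Q P' Q' a)) := by
      funext a
      rcases a with a | a <;> rfl
    rw [e1, e2]
    exact (hx _ _ _ _ Y _ _ _ (Finset.nodup_toList _) (by simp)).mul
      (hy _ _ _ _ Y _ _ _ (Finset.nodup_toList _) (by simp))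

lemma good_rel {P Q P' Q' : Type} [Finite P] [Finite Q] (e : P ≃ P') (f : Q ≃ Q')
    {x : Ten W.K (Fin bX.N) P Q} (hx : Good bX e' P Q x) :
    Good bX e' P' Q' (trel e f x) := by
  classical
  have := Fintype.ofFinite P
  have := Fintype.ofFinite Q
  intro i1 i2 i3 i4 Y g ε l hl hl'
  rw [cls_trel]
  have e1 : (fun a => famG bX e' g (Equiv.sumCongr e f a)) =
      famG bX e' (fun a => g (Equiv.sumCongr e f a)) := by
    funext a
    rcases a with a | a <;> rfl
  rw [e1]
  refine hx _ _ _ _ Y _ _ _ (hl.map (Equiv.injective _)) fun a => ?_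
  rw [List.mem_map]
  exact ⟨Equiv.sumCongr e f a, hl' _, Equiv.symm_apply_apply _ _⟩

lemma good_add {P Q : Type} {x y : Ten W.K (Fin bX.N) P Q}
    (hx : Good bX e' P Q x) (hy : Good bX e' P Q y) : Good bX e' P Q (x + y) := by
  intro i1 i2 i3 i4 Y g ε l hl hl'
  rw [cls_add]
  exact (hx _ _ _ _ Y _ _ _ hl hl').add (hy _ _ _ _ Y _ _ _ hl hl')

lemma good_smul {P Q : Type} (q : ℚ) {x : Ten W.K (Fin bX.N) P Q}
    (hx : Good bX e' P Q x) : Good bX e' P Q ((q : W.K) • x) := by
  intro i1 i2 i3 i4 Y g ε l hl hl'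
  rw [cls_smul]
  exact (hx _ _ _ _ Y _ _ _ hl hl').smul q

lemma good_zero {P Q : Type} : Good bX e' P Q 0 := by
  intro i1 i2 i3 i4 Y g ε l hl hl'
  rw [cls_zero]
  exact AS.zero

end good

end Pool.Agent.Run7.h174
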