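import Pool.Agent.Run7.h174.Good

/-!
# Contractions of algebraic tensors, and the identity
-/

set_option autoImplicit false
set_option linter.unusedSectionVars false

open CategoryTheory AlgebraicGeometry Finset

universe u v

namespace Pool.Agent.Run7.h174

open Pool.Agent.H914 Pool.Agent.H914.VarClass Pool.Agent.H914.VarClass.Obj
  Pool.Agent.H914.WeilCohomology Pool.Agent.H281R3.HT Pool.Agent.W552

variable {k : Type u} [Field k] {𝒱 : VarClass k} {ops : CycleOps 𝒱}
  {W : WeilCohomology.{u, v} ops} {X Y Z : 𝒱.Obj} {bX : HB W X} {e' : Fin bX.N → W.H X}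

lemma tr_mul_dual (hd : IsDual bX e') (b c : Fin bX.N) :
    W.tr X (bX.e b * e' c) = if b = c then sgB W.K (bt bX b) else 0 := by
  obtain ⟨i, hi, hi'⟩ := hd.hom c
  rw [W.comm (bX.mem b) hi, map_smul, hd.tr, neg_one_pow_sgB Iff.rfl hi']
  by_cases h : c = b
  · subst h
    rw [if_pos rfl, if_pos rfl, Bool.and_self, smul_eq_mul, mul_one]
  · rw [if_neg h, if_neg (Ne.symm h), smul_zero]

/-- the legs of the contraction on the product -/
noncomputable def gC {P Q : Type} (g : P ⊕ Q → (Y ⟶ X)) : Option P ⊕ Option Q → (X.prod Y ⟶ X)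
  | Sum.inl none => fst X Y
  | Sum.inl (some p) => snd X Y ≫ g (Sum.inl p)
  | Sum.inr none => fst X Y
  | Sum.inr (some q) => snd X Y ≫ g (Sum.inr q)

/-- the pattern of the contraction -/
def eC {P Q : Type} (δ : Bool) (ε : P ⊕ Q → Bool) : Option P ⊕ Option Q → Bool
  | Sum.inl none => δ
  | Sum.inl (some p) => ε (Sum.inl p)
  | Sum.inr none => δ
  | Sum.inr (some q) => ε (Sum.inr q)

/-- inclusion of the remaining legs -/
def iC (P Q : Type) : P ⊕ Q → Option P ⊕ Option Q := Sum.map some some

/-- the multi-indices -/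
def rE (B P Q : Type) : (Option P ⊕ Option Q → B) ≃ ((P ⊕ Q → B) × B × B) where
  toFun r := (fun a => r (iC P Q a), r (Sum.inl none), r (Sum.inr none))
  invFun z := Sum.elim (oext z.2.1 fun p => z.1 (Sum.inl p)) (oext z.2.2 fun q => z.1 (Sum.inr q))
  left_inv r := by
    funext a
    rcases a with (_ | a) | (_ | a) <;> rfl
  right_inv z := by
    obtain ⟨z, b, c⟩ := z
    refine Prod.ext ?_ rfl
    funext a
    rcases a with a | a <;> rfl

lemma LP_hom {K : Type*} [Field K] {H : Type*} {H' : Type*} [Ring H] [Algebra K H] [Ring H']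
    [Algebra K H'] {B Λ : Type} (φ : H →ₐ[K] H') (fam : Λ → B → H) (r : Λ → B) (l : List Λ) :
    LP (fun a b => φ (fam a b)) r l = φ (LP fam r l) := by
  induction l with
  | nil => rw [LP_nil, LP_nil, map_one]
  | cons a l ih => rw [LP_cons, LP_cons, map_mul, ih]

lemma push_cls (hd : IsDual bX e') {P Q : Type} [Fintype P] [DecidableEq P] [Fintype Q]
    [DecidableEq Q] [Fintype (Option P)] [DecidableEq (Option P)] [Fintype (Option Q)]
    [DecidableEq (Option Q)] (x : Ten W.K (Fin bX.N) (Option P) (Option Q))
    (g : P ⊕ Q → (Y ⟶ X)) (ε : P ⊕ Q → Bool) (l : List (P ⊕ Q)) (δ : Bool) :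
    W.push (snd X Y) (cls (bt bX) x (famG bX e' (gC g)) (eC δ ε)
      (Sum.inl none :: Sum.inr none :: l.map (iC P Q))) =
      sgB W.K δ • ∑ r : P ⊕ Q → Fin bX.N, ∑ b : Fin bX.N,
        open Classical in if Pat (bt bX) ε r ∧ bt bX b = δ then
          x (oext b fun p => r (Sum.inl p)) (oext b fun q => r (Sum.inr q)) •
            LP (famG bX e' g) r l else 0 := by
  classical
  have key : ∀ (r : P ⊕ Q → Fin bX.N) (b c : Fin bX.N),
      LP (famG bX e' (gC g)) ((rE (Fin bX.N) P Q).symm (r, b, c))
        (Sum.inl none :: Sum.inr none :: l.map (iC P Q)) =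
      W.map (fst X Y) (bX.e b * e' c) * W.map (snd X Y) (LP (famG bX e' g) r l) := by
    intro r b c
    rw [LP_cons, LP_cons, LP_map, ← LP_hom, map_mul, mul_assoc]
    congr 2
    have e1 : (fun a => famG bX e' (gC g) (iC P Q a)) =
        fun a b => W.map (snd X Y) (famG bX e' g a b) := by
      funext a b
      rcases a with a | a
      · exact W.map_comp _ _ _
      · exact W.map_comp _ _ _
    rw [e1]
    unfold LP
    congr 1
    refine List.map_congr_left fun a _ => ?_
    rcases a with a | a <;> rfl
  have hpat : ∀ (r : P ⊕ Q → Fin bX.N) (b c : Fin bX.N),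
      Pat (bt bX) (eC δ ε) ((rE (Fin bX.N) P Q).symm (r, b, c)) ↔
        Pat (bt bX) ε r ∧ bt bX b = δ ∧ bt bX c = δ := by
    intro r b c
    constructor
    · intro h
      refine ⟨fun a => ?_, h (Sum.inl none), h (Sum.inr none)⟩
      rcases a with a | a
      · exact h (Sum.inl (some a))
      · exact h (Sum.inr (some a))
    · rintro ⟨h1, h2, h3⟩ a
      rcases a with (_ | a) | (_ | a)
      · exact h2
      · exact h1 (Sum.inl a)
      · exact h3
      · exact h1 (Sum.inr a)
  unfold cls
  rw [map_sum, ← Equiv.sum_comp (rE (Fin bX.N) P Q).symm, Fintype.sum_prod_type, Finset.smul_sum]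
  refine Finset.sum_congr rfl fun r _ => ?_
  rw [Fintype.sum_prod_type, Finset.smul_sum]
  refine Finset.sum_congr rfl fun b _ => ?_
  rw [Finset.sum_eq_single b]
  · by_cases h : Pat (bt bX) ε r ∧ bt bX b = δ
    · rw [if_pos ((hpat r b b).2 ⟨h.1, h.2, h.2⟩), if_pos h, key, map_smul, push_snd,
        tr_mul_dual hd, if_pos rfl, h.2, smul_comm]
      rfl
    · rw [if_neg (fun h' => h ⟨((hpat r b b).1 h').1, ((hpat r b b).1 h').2.1⟩), if_neg h,
        map_zero, smul_zero]
  · intro c _ hc
    by_cases h : Pat (bt bX) (eC δ ε) ((rE (Fin bX.N) P Q).symm (r, b, c))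
    · rw [if_pos h, key, map_smul, push_snd, tr_mul_dual hd, if_neg (Ne.symm hc), zero_smul,
        smul_zero]
    · rw [if_neg h, map_zero]
  · intro h; exact absurd (Finset.mem_univ _) h

lemma good_con (hd : IsDual bX e') {P Q : Type} [Finite P] [Finite Q]
    {x : Ten W.K (Fin bX.N) (Option P) (Option Q)} (hx : Good bX e' (Option P) (Option Q) x) :
    Good bX e' P Q (tcon x) := by
  classical
  have := Fintype.ofFinite P
  have := Fintype.ofFinite Q
  refine good_of_one hd fun Y g ε => ?_
  set l := (Finset.univ (α := P ⊕ Q)).toList with hl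
  refine ⟨l, Finset.nodup_toList _, by simp [hl], ?_⟩
  have h1 : ∀ δ, AS W (X.prod Y) (cls (bt bX) x (famG bX e' (gC g)) (eC δ ε)
      (Sum.inl none :: Sum.inr none :: l.map (iC P Q))) := by
    intro δ
    refine hx _ _ _ _ _ _ _ _ ?_ ?_
    · rw [List.nodup_cons, List.nodup_cons]
      refine ⟨?_, ?_, (Finset.nodup_toList _).map (Function.Injective.sumMap
        (Option.some_injective _) (Option.some_injective _))⟩
      · rw [List.mem_cons, List.mem_map]
        rintro (h | ⟨a, _, h⟩)
        · exact absurd h (by simp)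
        · rcases a with a | a <;> simp [iC] at h
      · rw [List.mem_map]
        rintro ⟨a, _, h⟩
        rcases a with a | a <;> simp [iC] at h
    · intro a
      rw [List.mem_cons, List.mem_cons, List.mem_map]
      rcases a with (_ | a) | (_ | a)
      · exact Or.inl rfl
      · exact Or.inr (Or.inr ⟨Sum.inl a, by simp [hl], rfl⟩)
      · exact Or.inr (Or.inl rfl)
      · exact Or.inr (Or.inr ⟨Sum.inr a, by simp [hl], rfl⟩)
  have h2 : cls (bt bX) (tcon x) (famG bX e' g) ε l = ∑ δ : Bool, sgB W.K δ •
      W.push (snd X Y) (cls (bt bX) x (famG bX e' (gC g)) (eC δ ε)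
        (Sum.inl none :: Sum.inr none :: l.map (iC P Q))) := by
    have h3 : ∀ δ : Bool, sgB W.K δ • W.push (snd X Y) (cls (bt bX) x (famG bX e' (gC g)) (eC δ ε)
        (Sum.inl none :: Sum.inr none :: l.map (iC P Q))) =
        ∑ r : P ⊕ Q → Fin bX.N, ∑ b : Fin bX.N, if Pat (bt bX) ε r ∧ bt bX b = δ then
          x (oext b fun p => r (Sum.inl p)) (oext b fun q => r (Sum.inr q)) •
            LP (famG bX e' g) r l else 0 := by
      intro δ
      rw [push_cls hd, smul_smul, sgB_mul_self, one_smul]
    rw [Finset.sum_congr rfl fun δ _ => h3 δ, Finset.sum_comm]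
    unfold cls
    refine Finset.sum_congr rfl fun r _ => ?_
    rw [Finset.sum_comm]
    by_cases hr : Pat (bt bX) ε r
    · rw [if_pos hr]
      simp only [hr, true_and]
      have h4 : ∀ b : Fin bX.N, (∑ δ : Bool, if bt bX b = δ then
          x (oext b fun p => r (Sum.inl p)) (oext b fun q => r (Sum.inr q)) •
            LP (famG bX e' g) r l else 0) =
          x (oext b fun p => r (Sum.inl p)) (oext b fun q => r (Sum.inr q)) •
            LP (famG bX e' g) r l := by
        intro b
        rw [Finset.sum_ite_eq]
        simp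
      rw [Finset.sum_congr rfl fun b _ => h4 b, ← Finset.sum_smul]
      rfl
    · simp only [hr, false_and, if_false, Finset.sum_const_zero]
  rw [h2, Fintype.sum_bool]
  have h5 : ∀ δ, AS W Y (sgB W.K δ • W.push (snd X Y) (cls (bt bX) x (famG bX e' (gC g)) (eC δ ε)
      (Sum.inl none :: Sum.inr none :: l.map (iC P Q)))) := by
    intro δ
    have := ((h1 δ).push (snd X Y)).smul (if δ then -1 else 1)
    unfold sgB
    cases δ
    · simpa using this
    · simpa using this
  exact (h5 true).add (h5 false)

/-- the projector to the classes of a given parity -/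
noncomputable def piE (W : WeilCohomology.{u, v} ops) (X : 𝒱.Obj) (δ : Bool) :
    Module.End W.K (W.H X) :=
  (((1 / 2 : ℚ) : ℚ) : W.K) • ((1 : Module.End W.K (W.H X)) +
    (((bif δ then -1 else 1 : ℚ) : ℚ) : W.K) • par (W.isInternal X))

lemma piE_aop (hp : AOp W X X (par (W.isInternal X))) (δ : Bool) : AOp W X X (piE W X δ) :=
  (AOp.one.add (hp.smul _)).smul _

lemma piE_apply (δ : Bool) {i : ℕ} {x : W.H X} (hx : x ∈ W.gr X i) :
    piE W X δ x = if decide (¬ Even i) = δ then x else 0 := by
  rw [piE, LinearMap.smul_apply, LinearMap.add_apply, LinearMap.smul_apply, par,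
    scal_apply _ _ hx, Module.End.one_apply]
  have h2 : (((1 / 2 : ℚ) : ℚ) : W.K) • (x + x) = x := by
    rw [← two_smul W.K x, smul_smul]
    norm_num
  by_cases hi : Even i
  · have e1 : decide (¬ Even i) = false := by simpa using hi
    rw [hi.neg_one_pow, e1]
    cases δ
    · simp only [cond_false, Rat.cast_one, one_smul, if_true]
      exact h2
    · simp only [cond_true, Rat.cast_neg, Rat.cast_one, neg_smul, one_smul, add_neg_cancel,
        smul_zero]
      rfl
  · have e1 : decide (¬ Even i) = true := by simpa using hi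
    rw [(Nat.not_even_iff_odd.1 hi).neg_one_pow, e1]
    cases δ
    · simp only [cond_false, Rat.cast_one, one_smul, neg_smul, add_neg_cancel, smul_zero]
      rfl
    · simp only [cond_true, Rat.cast_neg, Rat.cast_one, neg_smul, one_smul, neg_neg, if_true]
      exact h2

lemma piE_basis (δ : Bool) (c : Fin bX.N) :
    piE W X δ (bX.e c) = if bt bX c = δ then bX.e c else 0 :=
  piE_apply δ (bX.mem c)

/-- the class of the projector -/
lemma diag_alg (hd : IsDual bX e') (hp : AOp W X X (par (W.isInternal X))) (δ : Bool) :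
    AS W (X.prod X) (∑ b : Fin bX.N, if bt bX b = δ then
      W.map (fst X X) (bX.e b) * W.map (snd X X) (e' b) else 0) := by
  obtain ⟨c, hc, hc'⟩ := piE_aop hp δ
  suffices h : c = ∑ b : Fin bX.N, if bt bX b = δ then
      W.map (fst X X) (bX.e b) * W.map (snd X X) (e' b) else 0 by
    rw [← h]
    exact hc
  have hsum : ∀ (s : Finset (Fin bX.N)) (g : Fin bX.N → W.H (X.prod X)),
      W.corr (∑ b ∈ s, g b) = ∑ b ∈ s, W.corr (g b) := by
    intro s g
    induction s using Finset.induction_on with
    | empty => rw [Finset.sum_empty, Finset.sum_empty, corr_zero]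
    | insert a s ha ih => rw [Finset.sum_insert ha, Finset.sum_insert ha, corr_add, ih]
  have key : W.corr (∑ b : Fin bX.N, if bt bX b = δ then
      W.map (fst X X) (bX.e b) * W.map (snd X X) (e' b) else 0) = piE W X δ := by
    apply bX.e.ext
    intro a
    rw [hsum, LinearMap.sum_apply, piE_basis]
    have h1 : ∀ b, W.corr (if bt bX b = δ then
        W.map (fst X X) (bX.e b) * W.map (snd X X) (e' b) else 0) (bX.e a) =
        if bt bX b = δ then W.tr X (bX.e a * bX.e b) • e' b else 0 := by
      intro b
      by_cases h : bt bX b = δ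
      · rw [if_pos h, if_pos h, corr_apply]
        obtain ⟨i, hi, hi'⟩ := hd.hom b
        rw [mul_assoc, W.comm (W.map_mem (snd X X) hi) (W.map_mem (fst X X) (bX.mem a)),
          mul_smul_comm, ← mul_assoc, ← map_mul, map_smul, push_snd, smul_smul,
          W.comm (bX.mem a) (bX.mem b), map_smul, smul_eq_mul, neg_one_pow_sgB hi' Iff.rfl,
          neg_one_pow_sgB Iff.rfl Iff.rfl, Bool.and_comm]
      · rw [if_neg h, if_neg h, corr_zero]
        rfl
    rw [Finset.sum_congr rfl fun b _ => h1 b]
    by_cases ha : bt bX a = δ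
    · rw [if_pos ha]
      conv_rhs => rw [hd.expand (bX.e a)]
      refine Finset.sum_congr rfl fun b _ => ?_
      by_cases h : bt bX b = δ
      · rw [if_pos h]
      · rw [if_neg h]
        have h2 : bX.dg a + bX.dg b ≠ 2 * X.dim := by
          intro h3
          apply h
          rw [← ha]
          have h4 : Even (bX.dg a + bX.dg b) := by rw [h3]; exact even_two_mul _
          rw [Nat.even_add] at h4
          unfold bt
          simp only [h4]
        rw [W.tr_eq_zero (W.mul_mem (bX.mem a) (bX.mem b)) h2, zero_smul]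
    · rw [if_neg ha]
      refine Finset.sum_eq_zero fun b _ => ?_
      by_cases h : bt bX b = δ
      · rw [if_pos h]
        have h2 : bX.dg a + bX.dg b ≠ 2 * X.dim := by
          intro h3
          apply ha
          rw [← h]
          have h4 : Even (bX.dg a + bX.dg b) := by rw [h3]; exact even_two_mul _
          rw [Nat.even_add] at h4
          unfold bt
          simp only [h4]
        rw [W.tr_eq_zero (W.mul_mem (bX.mem a) (bX.mem b)) h2, zero_smul]
      · rw [if_neg h]
  rw [← sub_eq_zero]
  apply corr_inj
  rw [sub_eq_add_neg, corr_add, hc', ← neg_one_smul W.K, corr_smul, key]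
  apply LinearMap.ext
  intro x
  simp

lemma good_id (hd : IsDual bX e') (hp : AOp W X X (par (W.isInternal X))) :
    Good bX e' Unit Unit tid := by
  classical
  refine good_of_one hd fun Y g ε => ⟨[Sum.inl (), Sum.inr ()], by simp, ?_, ?_⟩
  · rintro (⟨⟩ | ⟨⟩) <;> simp
  · by_cases hε : ε (Sum.inl ()) = ε (Sum.inr ())
    · have h1 : cls (bt bX) (tid : Ten W.K (Fin bX.N) Unit Unit) (famG bX e' g) ε
          [Sum.inl (), Sum.inr ()] = W.map (Obj.lift (g (Sum.inl ())) (g (Sum.inr ())))
          (∑ b : Fin bX.N, if bt bX b = ε (Sum.inl ()) then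
            W.map (fst X X) (bX.e b) * W.map (snd X X) (e' b) else 0) := by
        unfold cls
        rw [map_sum]
        set E : (Unit ⊕ Unit → Fin bX.N) ≃ (Fin bX.N × Fin bX.N) :=
          { toFun := fun r => (r (Sum.inl ()), r (Sum.inr ()))
            invFun := fun z => Sum.elim (fun _ => z.1) (fun _ => z.2)
            left_inv := fun r => by
              funext a
              rcases a with ⟨⟩ | ⟨⟩ <;> rfl
            right_inv := fun z => rfl } with hE
        rw [← Equiv.sum_comp E.symm, Fintype.sum_prod_type]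
        refine Finset.sum_congr rfl fun b _ => ?_
        rw [Finset.sum_eq_single b]
        · have hpat : Pat (bt bX) ε (E.symm (b, b)) ↔ bt bX b = ε (Sum.inl ()) := by
            constructor
            · intro h
              exact h (Sum.inl ())
            · intro h a
              rcases a with ⟨⟩ | ⟨⟩
              · exact h
              · rw [← hε]
                exact h
          by_cases h : bt bX b = ε (Sum.inl ())
          · rw [if_pos (hpat.2 h), if_pos h, LP_cons, LP_cons, LP_nil, mul_one, map_mul,
              ← W.map_comp, ← W.map_comp, lift_fst, lift_snd]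
            have : (tid (fun p => E.symm (b, b) (Sum.inl p)) (fun q => E.symm (b, b) (Sum.inr q)) :
                W.K) = 1 := if_pos rfl
            rw [this, one_smul]
            rfl
          · rw [if_neg (fun h' => h (hpat.1 h')), if_neg h, map_zero]
        · intro c _ hc
          have : (tid (fun p => E.symm (b, c) (Sum.inl p)) (fun q => E.symm (b, c) (Sum.inr q)) :
              W.K) = 0 := if_neg (Ne.symm hc)
          rw [this, zero_smul, ite_self]
        · intro h; exact absurd (Finset.mem_univ _) h
      rw [h1]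
      exact (diag_alg hd hp _).map _
    · have h1 : cls (bt bX) (tid : Ten W.K (Fin bX.N) Unit Unit) (famG bX e' g) ε
          [Sum.inl (), Sum.inr ()] = 0 := by
        unfold cls
        refine Finset.sum_eq_zero fun r _ => ?_
        by_cases h : Pat (bt bX) ε r
        · rw [if_pos h]
          have : (tid (fun p => r (Sum.inl p)) (fun q => r (Sum.inr q)) : W.K) = 0 := by
            refine if_neg fun h0 => hε ?_
            rw [← h (Sum.inl ()), ← h (Sum.inr ())]
            exact congrArg _ h0
          rw [this, zero_smul]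
        · rw [if_neg h]
      rw [h1]
      exact AS.zero

end Pool.Agent.Run7.h174
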