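import Pool.Agent.Run7.h174.Pair

/-!
# Uniqueness of the Gram values of minimal tuples
-/

set_option autoImplicit false
set_option linter.unusedSectionVars false

open Finset Matrix Function

universe u u'

namespace Pool.Agent.Run7.h174

section ops

variable {B : Type} [Fintype B] [DecidableEq B] {P Q P' Q' : Type}

lemma tstar_tone : tstar (tone : Ten ℂ B Empty Empty) = tone := by
  funext u v
  simp [tstar, tconj, tmap, tswap, tone]

lemma tstar_tid : tstar (tid : Ten ℂ B Unit Unit) = tid := by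
  funext u v
  simp only [tstar, tconj, tmap, tswap, tid, eq_comm (a := v ())]
  split_ifs <;> simp

lemma tstar_tmul (x : Ten ℂ B P Q) (y : Ten ℂ B P' Q') :
    tstar (tmul x y) = tmul (tstar x) (tstar y) := by
  funext u v
  simp [tstar, tconj, tmap, tswap, tmul]

lemma tstar_trel (e : P ≃ P') (f : Q ≃ Q') (x : Ten ℂ B P Q) :
    tstar (trel e f x) = trel f e (tstar x) := rfl

lemma tstar_tcon (x : Ten ℂ B (Option P) (Option Q)) : tstar (tcon x) = tcon (tstar x) := by
  funext u v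
  simp [tstar, tconj, tmap, tswap, tcon]

lemma p1_tone : p1 (tone : Ten (ℂ × ℂ) B Empty Empty) = tone := rfl

lemma p2_tone : p2 (tone : Ten (ℂ × ℂ) B Empty Empty) = tone := rfl

lemma p1_tid : p1 (tid : Ten (ℂ × ℂ) B Unit Unit) = tid := by
  funext u v
  change (tid u v : ℂ × ℂ).1 = tid u v
  unfold tid
  split_ifs <;> rfl

lemma p2_tid : p2 (tid : Ten (ℂ × ℂ) B Unit Unit) = tid := by
  funext u v
  change (tid u v : ℂ × ℂ).2 = tid u v
  unfold tid
  split_ifs <;> rfl

lemma p1_tmul (X : Ten (ℂ × ℂ) B P Q) (Y : Ten (ℂ × ℂ) B P' Q') :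
    p1 (tmul X Y) = tmul (p1 X) (p1 Y) := rfl

lemma p2_tmul (X : Ten (ℂ × ℂ) B P Q) (Y : Ten (ℂ × ℂ) B P' Q') :
    p2 (tmul X Y) = tmul (p2 X) (p2 Y) := rfl

lemma p1_trel (e : P ≃ P') (f : Q ≃ Q') (X : Ten (ℂ × ℂ) B P Q) :
    p1 (trel e f X) = trel e f (p1 X) := rfl

lemma p2_trel (e : P ≃ P') (f : Q ≃ Q') (X : Ten (ℂ × ℂ) B P Q) :
    p2 (trel e f X) = trel e f (p2 X) := rfl

lemma p1_tcon (X : Ten (ℂ × ℂ) B (Option P) (Option Q)) : p1 (tcon X) = tcon (p1 X) := by
  funext u v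
  change (tcon X u v : ℂ × ℂ).1 = _
  unfold tcon
  rw [Prod.fst_sum]
  rfl

lemma p2_tcon (X : Ten (ℂ × ℂ) B (Option P) (Option Q)) : p2 (tcon X) = tcon (p2 X) := by
  funext u v
  change (tcon X u v : ℂ × ℂ).2 = _
  unfold tcon
  rw [Prod.snd_sum]
  rfl

end ops

section span

variable {B : Type} [Fintype B] [DecidableEq B] {R : Type u} [CommRing R] {S : Type*} [CommRing S]
  [Algebra S R]

/-- The span of a closed family of tensors is closed. -/
lemma Clo1.span {Pr : ∀ P Q : Type, Ten R B P Q → Prop} (h : Clo1 Pr) :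
    Clo1 (fun P Q x => x ∈ Submodule.span S {y : Ten R B P Q | Pr P Q y}) where
  one := Submodule.subset_span h.one
  id := Submodule.subset_span h.id
  mul := by
    intro P Q P' Q' _ _ _ _ x y hx hy
    induction hx using Submodule.span_induction with
    | mem x hx =>
      induction hy using Submodule.span_induction with
      | mem y hy => exact Submodule.subset_span (h.mul hx hy)
      | zero => rw [tmul_zero]; exact Submodule.zero_mem _
      | add a b _ _ ha hb => rw [tmul_add]; exact Submodule.add_mem _ ha hb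
      | smul c a _ ha => rw [tmul_smul]; exact Submodule.smul_mem _ _ ha
    | zero => rw [zero_tmul]; exact Submodule.zero_mem _
    | add a b _ _ ha hb => rw [add_tmul]; exact Submodule.add_mem _ ha hb
    | smul c a _ ha => rw [smul_tmul']; exact Submodule.smul_mem _ _ ha
  rel := by
    intro P Q P' Q' _ _ e f x hx
    induction hx using Submodule.span_induction with
    | mem x hx => exact Submodule.subset_span (h.rel e f hx)
    | zero => exact Submodule.zero_mem _
    | add a b _ _ ha hb => exact Submodule.add_mem _ ha hb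
    | smul c a _ ha => exact Submodule.smul_mem _ _ ha
  con := by
    intro P Q _ _ x hx
    induction hx using Submodule.span_induction with
    | mem x hx => exact Submodule.subset_span (h.con hx)
    | zero =>
      rw [show tcon (0 : Ten R B (Option P) (Option Q)) = 0 from (tconL (S := S)).map_zero]
      exact Submodule.zero_mem _
    | add a b _ _ ha hb =>
      rw [show tcon (a + b) = tcon a + tcon b from (tconL (S := S)).map_add a b]
      exact Submodule.add_mem _ ha hb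
    | smul c a _ ha =>
      rw [show tcon (c • a) = c • tcon a from (tconL (S := S)).map_smul c a]
      exact Submodule.smul_mem _ _ ha

end span

section spectral

/-- Every vector is a sum of orthogonal eigenvectors of a symmetric operator. -/
lemma spec {E : Type} [NormedAddCommGroup E] [InnerProductSpace ℂ E] (V : Submodule ℂ E)
    [FiniteDimensional ℂ V] (M : V →ₗ[ℂ] V) (hM : M.IsSymmetric) (x : V) :
    ∃ (n : ℕ) (y : Fin n → V) (lam : Fin n → ℝ), (∀ i, M (y i) = (lam i : ℂ) • y i) ∧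
      ∑ i, y i = x ∧ ∀ i k, i ≠ k → inner ℂ (y i) (y k) = 0 := by
  set b := hM.eigenvectorBasis rfl with hb
  refine ⟨_, fun i => (b.repr x).ofLp i • b i, fun i => hM.eigenvalues rfl i, fun i => ?_,
    b.sum_repr x, fun i k hik => ?_⟩
  · rw [map_smul, hb, hM.apply_eigenvectorBasis, smul_comm]
    rfl
  · rw [inner_smul_left, inner_smul_right, b.orthonormal.inner_eq_zero hik]
    simp

end spectral

section gram

variable {B : Type} [Fintype B] [DecidableEq B]
  {J : Type} [Fintype J] {A C : J → Type} [∀ j, Fintype (A j)] [∀ j, DecidableEq (A j)]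
  [∀ j, Fintype (C j)] [∀ j, DecidableEq (C j)] {P Q P' Q' : Type}
  (w w' : ∀ j, Ten ℂ B (A j) (C j))

/-- The relation `z = M x`, where `M` is the product of the isomorphism of the spans of the values
of the networks at `w` and `w'` with its adjoint; `X` is the pair of `x` and its image. -/
def MX (X : Ten (ℂ × ℂ) B P Q) (z : Ten ℂ B P Q) : Prop :=
  X ∈ JJ w w' P Q ∧ ∃ Z ∈ JJ w w' Q P, p1 Z = tstar z ∧ p2 Z = tstar (p2 X)

variable {w w'}

lemma MX.add {X Y : Ten (ℂ × ℂ) B P Q} {z v : Ten ℂ B P Q} (h : MX w w' X z) (h' : MX w w' Y v) :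
    MX w w' (X + Y) (z + v) := by
  obtain ⟨hX, Z, hZ, h1, h2⟩ := h
  obtain ⟨hY, V, hV, h3, h4⟩ := h'
  exact ⟨Submodule.add_mem _ hX hY, Z + V, Submodule.add_mem _ hZ hV,
    by rw [map_add, h1, h3, tstar_add], by rw [map_add, map_add, h2, h4, tstar_add]⟩

lemma MX.smul {X : Ten (ℂ × ℂ) B P Q} {z : Ten ℂ B P Q} (h : MX w w' X z) (c : ℂ) :
    MX w w' (c • X) (c • z) := by
  obtain ⟨hX, Z, hZ, h1, h2⟩ := h
  exact ⟨Submodule.smul_mem _ c hX, starRingEnd ℂ c • Z, Submodule.smul_mem _ _ hZ,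
    by rw [map_smul, h1, tstar_smul], by rw [map_smul, map_smul, h2, tstar_smul]⟩

lemma MX.zero : MX w w' (0 : Ten (ℂ × ℂ) B P Q) 0 :=
  ⟨Submodule.zero_mem _, 0, Submodule.zero_mem _, by rw [map_zero, tstar_zero],
    by rw [map_zero, map_zero, tstar_zero]⟩

lemma MX.sum {ι : Type} (s : Finset ι) {X : ι → Ten (ℂ × ℂ) B P Q} {z : ι → Ten ℂ B P Q}
    (h : ∀ i ∈ s, MX w w' (X i) (z i)) : MX w w' (∑ i ∈ s, X i) (∑ i ∈ s, z i) := by
  classical
  induction s using Finset.induction_on with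
  | empty => exact MX.zero
  | insert i s hi ih =>
    rw [Finset.sum_insert hi, Finset.sum_insert hi]
    exact (h i (Finset.mem_insert_self _ _)).add
      (ih fun k hk => h k (Finset.mem_insert_of_mem hk))

lemma MX.one (hs : Same w w') : MX w w' tone tone :=
  ⟨tone_mem, tone, tone_mem, by rw [tstar_tone, p1_tone], by rw [p2_tone, tstar_tone]⟩

lemma MX.id (hs : Same w w') : MX w w' tid tid :=
  ⟨tid_mem, tid, tid_mem, by rw [tstar_tid, p1_tid], by rw [p2_tid, tstar_tid]⟩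

lemma MX.mul {X : Ten (ℂ × ℂ) B P Q} {z : Ten ℂ B P Q} {Y : Ten (ℂ × ℂ) B P' Q'}
    {v : Ten ℂ B P' Q'} (h : MX w w' X z) (h' : MX w w' Y v) :
    MX w w' (tmul X Y) (tmul z v) := by
  obtain ⟨hX, Z, hZ, h1, h2⟩ := h
  obtain ⟨hY, V, hV, h3, h4⟩ := h'
  exact ⟨tmul_mem hX hY, tmul Z V, tmul_mem hZ hV, by rw [p1_tmul, h1, h3, tstar_tmul],
    by rw [p2_tmul, p2_tmul, h2, h4, tstar_tmul]⟩

lemma MX.rel (e : P ≃ P') (f : Q ≃ Q') {X : Ten (ℂ × ℂ) B P Q} {z : Ten ℂ B P Q}
    (h : MX w w' X z) : MX w w' (trel e f X) (trel e f z) := by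
  obtain ⟨hX, Z, hZ, h1, h2⟩ := h
  exact ⟨trel_mem e f hX, trel f e Z, trel_mem f e hZ, by rw [p1_trel, h1, tstar_trel],
    by rw [p2_trel, p2_trel, h2, tstar_trel]⟩

lemma MX.con {X : Ten (ℂ × ℂ) B (Option P) (Option Q)} {z : Ten ℂ B (Option P) (Option Q)}
    (h : MX w w' X z) : MX w w' (tcon X) (tcon z) := by
  obtain ⟨hX, Z, hZ, h1, h2⟩ := h
  exact ⟨tcon_mem hX, tcon Z, tcon_mem hZ, by rw [p1_tcon, h1, tstar_tcon],
    by rw [p2_tcon, p2_tcon, h2, tstar_tcon]⟩

lemma MX.diag (hs : Same w w') {X : Ten (ℂ × ℂ) B Empty Empty} {z : Ten ℂ B Empty Empty}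
    (h : MX w w' X z) : z = p1 X := by
  obtain ⟨hX, Z, hZ, h1, h2⟩ := h
  have h3 := JJ_diag hs hX
  have h4 := JJ_diag hs hZ
  rw [h1, h2, ← h3] at h4
  have := congrArg tstar h4
  rwa [tstar_tstar, tstar_tstar] at this

variable {a : ∀ j, Ten ℂ B (A j) (C j)} [Fintype P] [DecidableEq P] [Fintype Q] [DecidableEq Q]

lemma MX.herm (hs : Same w w') {X Y : Ten (ℂ × ℂ) B P Q} {v : Ten ℂ B P Q}
    (hX : X ∈ JJ w w' P Q) (h : MX w w' Y v) : hT (p2 X) (p2 Y) = hT (p1 X) v := by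
  obtain ⟨hY, V, hV, h3, h4⟩ := h
  have h5 := JJ_pair hs hX hV
  rw [h3, h4, pairT_tstar, pairT_tstar] at h5
  exact h5.symm

lemma MX.symm (hs : Same w w') {X Y : Ten (ℂ × ℂ) B P Q} {z v : Ten ℂ B P Q}
    (h : MX w w' X z) (h' : MX w w' Y v) : hT (p1 X) v = hT z (p1 Y) := by
  have h1 := MX.herm hs h.1 h'
  have h2 := MX.herm hs h'.1 h
  rw [← h1, ← hT_conj (p2 Y), h2, hT_conj]

lemma MX.unique (hw : IsMin a w) (hw' : IsMin a w') {X Y : Ten (ℂ × ℂ) B P Q}
    {z v : Ten ℂ B P Q} (h : MX w w' X z) (h' : MX w w' Y v) (hXY : p1 X = p1 Y) : z = v := by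
  have hs : Same w w' := hw.1.trans hw'.1.symm
  have h1 := h.add (h'.smul (-1))
  obtain ⟨hX, Z, hZ, h2, h3⟩ := h1
  have h4 : p1 (X + (-1 : ℂ) • Y) = 0 := by
    rw [map_add, map_smul, hXY, neg_one_smul, add_neg_cancel]
  have h5 := JJ_inj1 hs hw' hX h4
  rw [h5, tstar_zero] at h3
  have h6 := JJ_inj2 hs hw hZ h3
  rw [h2] at h6
  have h7 := congrArg tstar h6
  rw [tstar_tstar, tstar_zero, neg_one_smul, ← sub_eq_add_neg] at h7
  exact sub_eq_zero.1 h7

lemma MX.ex (hw : IsMin a w) (hw' : IsMin a w') {X : Ten (ℂ × ℂ) B P Q}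
    (hX : X ∈ JJ w w' P Q) : ∃ z ∈ Sp ℂ w P Q, MX w w' X z := by
  have h1 : p2 X ∈ Sp ℂ w' P Q := by
    rw [← JJ_map2 (w := w)]
    exact Submodule.mem_map_of_mem hX
  have h2 := hw'.tstar_sp h1
  rw [← JJ_map2 (w := w)] at h2
  obtain ⟨Z, hZ, h3⟩ := h2
  refine ⟨tstar (p1 Z), hw.tstar_sp ?_, hX, Z, hZ, ?_, h3⟩
  · rw [← JJ_map1 (w' := w')]
    exact Submodule.mem_map_of_mem hZ
  · rw [tstar_tstar]

end gram

end Pool.Agent.Run7.h174
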