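import Pool.Agent.Run7.h174.Sg
import Pool.Agent.W552.Defs

/-!
# The standard conjecture of Hodge type for numerical equivalence, and the powers of a variety
-/

set_option autoImplicit false

open CategoryTheory AlgebraicGeometry

universe u v

namespace Pool.Agent.Run7.h174

open Pool.Agent.H914 Pool.Agent.H914.VarClass Pool.Agent.H914.VarClass.Obj
  Pool.Agent.H281R3.HT Pool.Agent.W539.Ker Pool.Agent.W552

variable {k : Type u} [Field k] {𝒱 : VarClass k} {ops : CycleOps 𝒱}

/-- The standard conjecture of Hodge type for numerical equivalence, for `X` and the divisor `D`: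
if `2 j ≤ d = dim X`, `z` is a cycle of codimension `j` with primitive class, and some cycle `w` of
codimension `d - j` has `deg (z · w) ≠ 0`, then `(-1) ^ j deg (z · D ^ (d - 2 j) · z)` is
positive. -/
def HodgeNum (W : WeilCohomology.{u, v} ops) (X : 𝒱.Obj) (D : X.Cycles) : Prop :=
  ∀ j, 2 * j ≤ X.dim → ∀ z, Primitive W X D j z →
    (∃ w, X.IsCyc (X.dim - j) w ∧ X.V.degCycle (ops.mul z w) ≠ 0) → 0 < pairing ops X D j z z

/-- The power `X ^ (n + 1)` of a polarized variety, with the sum of the pull-backs of the divisor
along the `n + 1` projections. -/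
noncomputable def pw (ops : CycleOps 𝒱) (P : Polarized 𝒱) (n : ℕ) : Polarized 𝒱 :=
  nest ops n (fun _ => P)

/-- The total Betti number: the dimension of the whole cohomology of `X`. -/
noncomputable def totalBetti (W : WeilCohomology.{u, v} ops) (X : 𝒱.Obj) : ℕ :=
  Module.finrank W.K (W.H X)

end Pool.Agent.Run7.h174
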