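import Pool.Agent.Run7.h174.Min

/-!
# The phase of the matrix coefficient near the identity
-/

set_option autoImplicit false
set_option linter.unusedSectionVars false

open Finset Matrix

universe u u'

namespace Pool.Agent.Run7.h174

section diag

variable {B : Type} [Fintype B] [DecidableEq B]

lemma entry_le_one {k : Matrix B B ℂ} (hk : k ∈ Matrix.unitaryGroup B ℂ) (i j : B) :
    ‖k i j‖ ≤ 1 := entry_norm_bound_of_unitary hk i j

/-- Unitary matrices near the identity are unitarily diagonalizable with small angles. -/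
theorem exists_diag {δ : ℝ} (hδ0 : 0 ≤ δ) (hδ : (Fintype.card B : ℝ) ^ 2 * δ ≤ 1)
    {k : Matrix B B ℂ} (hk : k ∈ Matrix.unitaryGroup B ℂ)
    (hk1 : ∀ i j, ‖k i j - (1 : Matrix B B ℂ) i j‖ ≤ δ) :
    ∃ V ∈ Matrix.unitaryGroup B ℂ, ∃ θ : B → ℝ,
      k = V * Matrix.diagonal (fun b => Complex.exp (θ b * Complex.I)) * Vᴴ ∧
      ∀ b, |θ b| ≤ 2 * ((Fintype.card B : ℝ) ^ 2 * δ) := by
  classical
  rcases isEmpty_or_nonempty B with hB | hB
  · refine ⟨1, one_mem _, fun _ => 0, ?_, fun b => isEmptyElim b⟩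
    ext i
    exact isEmptyElim i
  have hn : (1 : ℝ) ≤ Fintype.card B := by exact_mod_cast Fintype.card_pos
  have hnδ : (Fintype.card B : ℝ) * δ ≤ 1 := by nlinarith
  have hkk : k * kᴴ = 1 := (Matrix.mem_unitaryGroup_iff).1 hk
  have hkk' : kᴴ * k = 1 := (Matrix.mem_unitaryGroup_iff').1 hk
  -- invertibility
  have hdet : (1 + k).det ≠ 0 := by
    apply det_ne_zero_of_sum_row_lt_diag
    intro i
    have h1 : ∑ j ∈ Finset.univ.erase i, ‖(1 + k) i j‖ ≤ ((Fintype.card B : ℝ) - 1) * δ := by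
      calc ∑ j ∈ Finset.univ.erase i, ‖(1 + k) i j‖ ≤ ∑ j ∈ Finset.univ.erase i, δ := by
            refine Finset.sum_le_sum fun j hj => ?_
            have hij : i ≠ j := (Finset.ne_of_mem_erase hj).symm
            have := hk1 i j
            rw [Matrix.one_apply_ne hij, sub_zero] at this
            rw [Matrix.add_apply, Matrix.one_apply_ne hij, zero_add]
            exact this
        _ = ((Fintype.card B : ℝ) - 1) * δ := by
            rw [Finset.sum_const, Finset.card_erase_of_mem (Finset.mem_univ _), nsmul_eq_mul,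
              Finset.card_univ, Nat.cast_sub Fintype.card_pos, Nat.cast_one]
    have h2 : 2 - δ ≤ ‖(1 + k) i i‖ := by
      have h3 := hk1 i i
      rw [Matrix.one_apply_eq] at h3
      rw [Matrix.add_apply, Matrix.one_apply_eq]
      have h4 : (2 : ℂ) = (1 + k i i) - (k i i - 1) := by ring
      have h5 : ‖(2 : ℂ)‖ ≤ ‖1 + k i i‖ + ‖k i i - 1‖ := by
        conv_lhs => rw [h4]
        exact norm_sub_le _ _
      have h6 : ‖(2 : ℂ)‖ = 2 := by simp
      linarith
    nlinarith
  have hu : IsUnit (1 + k).det := isUnit_iff_ne_zero.2 hdet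
  set M := (1 + k)⁻¹ with hM
  have hM1 : M * (1 + k) = 1 := Matrix.nonsing_inv_mul _ hu
  have hM2 : (1 + k) * M = 1 := Matrix.mul_nonsing_inv _ hu
  have hcomm : M * (1 - k) = (1 - k) * M := by
    have h1 : (1 + k) * (1 - k) = (1 - k) * (1 + k) := by noncomm_ring
    calc M * (1 - k) = M * (1 - k) * ((1 + k) * M) := by rw [hM2, mul_one]
      _ = M * ((1 - k) * (1 + k)) * M := by noncomm_ring
      _ = M * ((1 + k) * (1 - k)) * M := by rw [h1]
      _ = (M * (1 + k)) * (1 - k) * M := by noncomm_ring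
      _ = (1 - k) * M := by rw [hM1, one_mul]
  have hMH : Mᴴ = M * k := by
    have h1 : Mᴴ * (1 + kᴴ) = 1 := by
      have := congrArg Matrix.conjTranspose hM2
      rwa [Matrix.conjTranspose_mul, Matrix.conjTranspose_add, Matrix.conjTranspose_one] at this
    have h2 : (1 + kᴴ) * (M * k) = 1 := by
      have : (1 + kᴴ) = kᴴ * (1 + k) := by rw [mul_add, hkk', mul_one, add_comm]
      rw [this]
      calc kᴴ * (1 + k) * (M * k) = kᴴ * ((1 + k) * M) * k := by noncomm_ring
        _ = 1 := by rw [hM2, mul_one, hkk']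
    calc Mᴴ = Mᴴ * ((1 + kᴴ) * (M * k)) := by rw [h2, mul_one]
      _ = (Mᴴ * (1 + kᴴ)) * (M * k) := by noncomm_ring
      _ = M * k := by rw [h1, one_mul]
  set H : Matrix B B ℂ := Complex.I • ((1 - k) * M) with hH
  have hHh : H.IsHermitian := by
    have e1 : ((1 - k) * M)ᴴ = -((1 - k) * M) := by
      rw [Matrix.conjTranspose_mul, Matrix.conjTranspose_sub, Matrix.conjTranspose_one, hMH]
      calc M * k * (1 - kᴴ) = M * (k - k * kᴴ) := by noncomm_ring
        _ = -(M * (1 - k)) := by rw [hkk]; noncomm_ring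
        _ = -((1 - k) * M) := by rw [hcomm]
    change Hᴴ = H
    rw [hH, Matrix.conjTranspose_smul, e1, smul_neg]
    rw [show star Complex.I = -Complex.I from Complex.conj_I, neg_smul, neg_neg]
  have hHk : (H + Complex.I • (1 : Matrix B B ℂ)) * k = Complex.I • (1 : Matrix B B ℂ) - H := by
    have h1 : H * (1 + k) = Complex.I • (1 - k) := by
      rw [hH, smul_mul_assoc, mul_assoc, hM1, mul_one]
    have h2 : H * k = Complex.I • (1 - k) - H := by
      rw [← h1]
      noncomm_ring
    rw [add_mul, h2, smul_mul_assoc, one_mul, smul_sub]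
    abel
  -- the spectral theorem
  set V : Matrix B B ℂ := (hHh.eigenvectorUnitary : Matrix B B ℂ) with hV
  have hVu : V ∈ Matrix.unitaryGroup B ℂ := hHh.eigenvectorUnitary.2
  have hV1 : V * Vᴴ = 1 := (Matrix.mem_unitaryGroup_iff).1 hVu
  have hV2 : Vᴴ * V = 1 := (Matrix.mem_unitaryGroup_iff').1 hVu
  set t : B → ℝ := hHh.eigenvalues with ht
  have hHV : H = V * Matrix.diagonal (fun b => (t b : ℂ)) * Vᴴ := by
    have := hHh.spectral_theorem
    rw [Unitary.conjStarAlgAut_apply] at this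
    exact this
  have hti : ∀ b, (t b : ℂ) + Complex.I ≠ 0 := by
    intro b h0
    have := congrArg Complex.im h0
    simp at this
  set c : B → ℂ := fun b => (Complex.I - t b) / (t b + Complex.I) with hc
  have hkc : k = V * Matrix.diagonal c * Vᴴ := by
    have h1 : (V * Matrix.diagonal (fun b => ((t b : ℂ) + Complex.I)⁻¹) * Vᴴ) *
        (H + Complex.I • (1 : Matrix B B ℂ)) = 1 := by
      have e1 : H + Complex.I • (1 : Matrix B B ℂ) =
          V * Matrix.diagonal (fun b => (t b : ℂ) + Complex.I) * Vᴴ := by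
        have e2 : Matrix.diagonal (fun b => (t b : ℂ) + Complex.I) =
            Matrix.diagonal (fun b => (t b : ℂ)) + Complex.I • (1 : Matrix B B ℂ) := by
          rw [← Matrix.diagonal_one, ← Matrix.diagonal_smul, Matrix.diagonal_add]
          congr 1
          funext b
          simp
        rw [e2, mul_add, add_mul, ← hHV]
        congr 1
        rw [mul_smul_comm, smul_mul_assoc, mul_one, hV1]
      rw [e1]
      calc V * Matrix.diagonal (fun b => ((t b : ℂ) + Complex.I)⁻¹) * Vᴴ *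
            (V * Matrix.diagonal (fun b => (t b : ℂ) + Complex.I) * Vᴴ)
          = V * (Matrix.diagonal (fun b => ((t b : ℂ) + Complex.I)⁻¹) * (Vᴴ * V) *
            Matrix.diagonal (fun b => (t b : ℂ) + Complex.I)) * Vᴴ := by noncomm_ring
        _ = 1 := by
          rw [hV2, mul_one, Matrix.diagonal_mul_diagonal]
          have : (fun b => ((t b : ℂ) + Complex.I)⁻¹ * ((t b : ℂ) + Complex.I)) =
              fun _ => (1 : ℂ) := by
            funext b
            exact inv_mul_cancel₀ (hti b)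
          rw [this, Matrix.diagonal_one, mul_one, hV1]
    have h2 : Complex.I • (1 : Matrix B B ℂ) - H =
        V * Matrix.diagonal (fun b => Complex.I - (t b : ℂ)) * Vᴴ := by
      have e2 : Matrix.diagonal (fun b => Complex.I - (t b : ℂ)) =
          Complex.I • (1 : Matrix B B ℂ) - Matrix.diagonal (fun b => (t b : ℂ)) := by
        rw [← Matrix.diagonal_one, ← Matrix.diagonal_smul, Matrix.diagonal_sub]
        congr 1
        funext b
        simp
      rw [e2, mul_sub, sub_mul, ← hHV]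
      congr 1
      rw [mul_smul_comm, smul_mul_assoc, mul_one, hV1]
    calc k = ((V * Matrix.diagonal (fun b => ((t b : ℂ) + Complex.I)⁻¹) * Vᴴ) *
          (H + Complex.I • (1 : Matrix B B ℂ))) * k := by rw [h1, one_mul]
      _ = (V * Matrix.diagonal (fun b => ((t b : ℂ) + Complex.I)⁻¹) * Vᴴ) *
          (Complex.I • (1 : Matrix B B ℂ) - H) := by rw [mul_assoc, hHk]
      _ = (V * Matrix.diagonal (fun b => ((t b : ℂ) + Complex.I)⁻¹) * Vᴴ) *
          (V * Matrix.diagonal (fun b => Complex.I - (t b : ℂ)) * Vᴴ) := by rw [h2]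
      _ = V * (Matrix.diagonal (fun b => ((t b : ℂ) + Complex.I)⁻¹) * (Vᴴ * V) *
          Matrix.diagonal (fun b => Complex.I - (t b : ℂ))) * Vᴴ := by noncomm_ring
      _ = V * Matrix.diagonal c * Vᴴ := by
          rw [hV2, mul_one, Matrix.diagonal_mul_diagonal]
          congr 2
          congr 1
          funext b
          rw [hc]
          beta_reduce
          rw [div_eq_inv_mul]
  have hc1 : ∀ b, ‖c b‖ = 1 := by
    intro b
    rw [hc]
    beta_reduce
    rw [norm_div]
    have h1 : ‖Complex.I - (t b : ℂ)‖ = ‖(t b : ℂ) + Complex.I‖ := by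
      rw [Complex.norm_def, Complex.norm_def]
      congr 1
      simp [Complex.normSq_apply]
    rw [h1, div_self]
    exact norm_ne_zero_iff.2 (hti b)
  have hcs : ∀ b, ‖c b - 1‖ ≤ (Fintype.card B : ℝ) ^ 2 * δ := by
    intro b
    have h1 : Matrix.diagonal c - 1 = Vᴴ * (k - 1) * V := by
      rw [hkc]
      calc Matrix.diagonal c - 1 = (Vᴴ * V) * Matrix.diagonal c * (Vᴴ * V) - Vᴴ * V := by
            rw [hV2]; noncomm_ring
        _ = _ := by noncomm_ring
    have h2 : c b - 1 = (Vᴴ * (k - 1) * V) b b := by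
      rw [← h1, Matrix.sub_apply, Matrix.diagonal_apply_eq, Matrix.one_apply_eq]
    rw [h2, Matrix.mul_apply]
    calc ‖∑ j, (Vᴴ * (k - 1)) b j * V j b‖ ≤ ∑ j, ‖(Vᴴ * (k - 1)) b j * V j b‖ :=
          norm_sum_le _ _
      _ ≤ ∑ j : B, (Fintype.card B : ℝ) * δ := by
          refine Finset.sum_le_sum fun j _ => ?_
          rw [norm_mul]
          have e1 : ‖(Vᴴ * (k - 1)) b j‖ ≤ (Fintype.card B : ℝ) * δ := by
            rw [Matrix.mul_apply]
            calc ‖∑ i, Vᴴ b i * (k - 1) i j‖ ≤ ∑ i, ‖Vᴴ b i * (k - 1) i j‖ := norm_sum_le _ _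
              _ ≤ ∑ _i : B, δ := by
                  refine Finset.sum_le_sum fun i _ => ?_
                  rw [norm_mul, Matrix.sub_apply]
                  have e2 : ‖Vᴴ b i‖ ≤ 1 := by
                    rw [Matrix.conjTranspose_apply, norm_star]
                    exact entry_le_one hVu _ _
                  calc ‖Vᴴ b i‖ * ‖k i j - (1 : Matrix B B ℂ) i j‖ ≤ 1 * δ :=
                        mul_le_mul e2 (hk1 i j) (norm_nonneg _) zero_le_one
                    _ = δ := one_mul _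
              _ = (Fintype.card B : ℝ) * δ := by
                  rw [Finset.sum_const, Finset.card_univ, nsmul_eq_mul]
          calc ‖(Vᴴ * (k - 1)) b j‖ * ‖V j b‖ ≤ ((Fintype.card B : ℝ) * δ) * 1 :=
                mul_le_mul e1 (entry_le_one hVu _ _) (norm_nonneg _) (by positivity)
            _ = (Fintype.card B : ℝ) * δ := mul_one _
      _ = (Fintype.card B : ℝ) ^ 2 * δ := by
          rw [Finset.sum_const, Finset.card_univ, nsmul_eq_mul]
          ring
  refine ⟨V, hVu, fun b => Complex.arg (c b), ?_, ?_⟩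
  · rw [hkc]
    congr 2
    congr 1
    funext b
    have := Complex.norm_mul_exp_arg_mul_I (c b)
    rw [hc1, Complex.ofReal_one, one_mul] at this
    exact this.symm
  · intro b
    have hre : 0 ≤ (c b).re := by
      have h1 : ‖c b - 1‖ ≤ 1 := (hcs b).trans hδ
      have h2 := Complex.abs_re_le_norm (c b - 1)
      rw [Complex.sub_re, Complex.one_re] at h2
      have h3 := neg_abs_le ((c b).re - 1)
      linarith
    have harg := Complex.abs_arg_le_pi_div_two_iff.2 hre
    have hsin : Real.sin |Complex.arg (c b)| ≤ ‖c b - 1‖ := by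
      have h1 : Real.sin (Complex.arg (c b)) = (c b).im := by
        rw [Complex.sin_arg, hc1, div_one]
      have h2 : |(c b).im| ≤ ‖c b - 1‖ := by
        have := Complex.abs_im_le_norm (c b - 1)
        simpa using this
      rcases abs_cases (Complex.arg (c b)) with ⟨h, _⟩ | ⟨h, _⟩
      · rw [h, h1]
        exact (le_abs_self _).trans h2
      · rw [h, Real.sin_neg, h1]
        exact (neg_le_abs _).trans h2
    have h3 := Real.mul_le_sin (abs_nonneg (Complex.arg (c b))) harg
    have h4 : |Complex.arg (c b)| ≤ 2 * (2 / Real.pi * |Complex.arg (c b)|) := by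
      have hpi := Real.pi_le_four
      have hpi0 := Real.pi_pos
      have h5 : 1 ≤ 2 * (2 / Real.pi) := by
        rw [← mul_div_assoc, le_div_iff₀ hpi0]
        linarith
      nlinarith [abs_nonneg (Complex.arg (c b))]
    linarith [hcs b]

end diag

lemma sin_sub_le {x : ℝ} (hx : |x| ≤ 1) : |Real.sin x - x| ≤ |x| * (1 - Real.cos x) := by
  have h1 := Real.sin_bound hx
  have h2 := Real.cos_bound hx
  have h0 : 0 ≤ |x| := abs_nonneg x
  have hx5 : |x| ^ 5 ≤ |x| ^ 3 := by
    have : |x| ^ 5 = |x| ^ 3 * (|x| * |x|) := by ring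
    rw [this]
    exact mul_le_of_le_one_right (by positivity) (mul_le_one₀ hx h0 hx)
  have hx42 : |x| ^ 4 ≤ |x| ^ 2 := by
    have : |x| ^ 4 = |x| ^ 2 * (|x| * |x|) := by ring
    rw [this]
    exact mul_le_of_le_one_right (by positivity) (mul_le_one₀ hx h0 hx)
  have e1 : |Real.sin x - x| ≤ |x| ^ 3 / 4 := by
    have h3 : Real.sin x - x = (Real.sin x - (x - x ^ 3 / 6)) - x ^ 3 / 6 := by ring
    rw [h3]
    have h4 : |x ^ 3 / 6| = |x| ^ 3 / 6 := by
      rw [abs_div, abs_pow]
      norm_num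
    calc |(Real.sin x - (x - x ^ 3 / 6)) - x ^ 3 / 6| ≤ |Real.sin x - (x - x ^ 3 / 6)| +
          |x ^ 3 / 6| := abs_sub _ _
      _ ≤ |x| ^ 5 / 100 + |x| ^ 3 / 6 := by rw [h4]; linarith
      _ ≤ |x| ^ 3 / 4 := by nlinarith [pow_nonneg h0 3]
  have e2 : |x| ^ 2 / 4 ≤ 1 - Real.cos x := by
    have h5 := (abs_le.1 h2).2
    have h6 : x ^ 2 = |x| ^ 2 := (sq_abs x).symm
    rw [h6] at h5
    nlinarith
  calc |Real.sin x - x| ≤ |x| ^ 3 / 4 := e1
    _ = |x| * (|x| ^ 2 / 4) := by ring
    _ ≤ |x| * (1 - Real.cos x) := mul_le_mul_of_nonneg_left e2 h0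

variable {J : Type} [Fintype J] {A C : J → Type} [∀ j, Fintype (A j)] [∀ j, DecidableEq (A j)]
  [∀ j, Fintype (C j)] [∀ j, DecidableEq (C j)] {B : Type} [Fintype B] [DecidableEq B]

/-- The matrix coefficient. -/
noncomputable def zc (w : ∀ j, Ten ℂ B (A j) (C j)) (k : Matrix B B ℂ) : ℂ :=
  ∑ j, hT (w j) (uact k (w j))

lemma zc_diag (w : ∀ j, Ten ℂ B (A j) (C j)) {V : Matrix B B ℂ}
    (hV : V ∈ Matrix.unitaryGroup B ℂ) (θ : B → ℝ) :
    zc w (V * Matrix.diagonal (fun b => Complex.exp (θ b * Complex.I)) * Vᴴ) =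
      ∑ j, ∑ u : A j → B, ∑ v : C j → B, (‖uact Vᴴ (w j) u v‖ ^ 2 : ℝ) *
        Complex.exp (-(phs θ u v) * Complex.I) := by
  have hV1 : V * Vᴴ = 1 := (Matrix.mem_unitaryGroup_iff).1 hV
  unfold zc
  refine Finset.sum_congr rfl fun j _ => ?_
  set x := uact Vᴴ (w j) with hx
  have h1 : w j = uact V x := by
    rw [hx, ← uact_mul, hV1, uact_one]
  conv_lhs => rw [uact_mul, uact_mul, ← hx, h1]
  rw [hT_uact hV]
  unfold hT dotT
  refine Finset.sum_congr rfl fun u _ => Finset.sum_congr rfl fun v _ => ?_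
  have h2 : cjm (Matrix.diagonal (fun b => Complex.exp (θ b * Complex.I))) =
      Matrix.diagonal (fun b => Complex.exp (-(θ b) * Complex.I)) := by
    rw [cjm, Matrix.diagonal_map (map_zero _)]
    congr 1
    funext b
    rw [← Complex.exp_conj]
    congr 1
    simp
  rw [uact, h2]
  unfold tconj tmap
  rw [act_diagonal, map_mul, map_mul, map_prod, map_prod]
  have e1 : ∀ p, starRingEnd ℂ (Complex.exp (θ (u p) * Complex.I)) =
      Complex.exp (-(θ (u p)) * Complex.I) := by
    intro p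
    rw [← Complex.exp_conj]
    congr 1
    simp
  have e2 : ∀ q, starRingEnd ℂ (Complex.exp (-(θ (v q)) * Complex.I)) =
      Complex.exp ((θ (v q)) * Complex.I) := by
    intro p
    rw [← Complex.exp_conj]
    congr 1
    simp
  simp only [e1, e2]
  rw [← Complex.exp_sum, ← Complex.exp_sum, ← Complex.exp_add]
  have e3 : ∑ p, -(θ (u p) : ℂ) * Complex.I + ∑ q, (θ (v q) : ℂ) * Complex.I =
      -(phs θ u v) * Complex.I := by
    unfold phs
    push_cast
    rw [← Finset.sum_mul, ← Finset.sum_mul, Finset.sum_neg_distrib]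
    ring
  rw [e3]
  have e4 : x u v * (starRingEnd ℂ) (x u v) = ((‖x u v‖ ^ 2 : ℝ) : ℂ) := by
    rw [Complex.mul_conj']
    push_cast
    rfl
  rw [← e4]
  ring

lemma nsq_uact (w : ∀ j, Ten ℂ B (A j) (C j)) {V : Matrix B B ℂ}
    (hV : V ∈ Matrix.unitaryGroup B ℂ) :
    nsq w = ∑ j, ∑ u : A j → B, ∑ v : C j → B, ‖uact V (w j) u v‖ ^ 2 := by
  unfold nsq
  refine Finset.sum_congr rfl fun j _ => ?_
  rw [← nT_uact hV (w j)]
  rfl

/-- **The phase near the identity.** -/
theorem IsMin.local_phase {a w : ∀ j, Ten ℂ B (A j) (C j)} (h : IsMin a w) {η : ℝ}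
    (hη : 0 < η) : ∃ δ > 0, ∀ k ∈ Matrix.unitaryGroup B ℂ,
      (∀ i j, ‖k i j - (1 : Matrix B B ℂ) i j‖ ≤ δ) →
      |(zc w k).im| ≤ η * (nsq w - (zc w k).re) := by
  classical
  set L : ℝ := 1 + ∑ j, ((Fintype.card (A j) : ℝ) + Fintype.card (C j)) with hL
  have hL1 : 1 ≤ L := by
    rw [hL]
    have : (0 : ℝ) ≤ ∑ j, ((Fintype.card (A j) : ℝ) + Fintype.card (C j)) :=
      Finset.sum_nonneg fun j _ => by positivity
    linarith
  set n : ℝ := (Fintype.card B : ℝ) ^ 2 + 1 with hn
  have hn1 : 0 < n := by positivity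
  set m : ℝ := min 1 η with hm
  have hm0 : 0 < m := lt_min one_pos hη
  refine ⟨m / (2 * n * L), by positivity, fun k hk hk1 => ?_⟩
  set δ : ℝ := m / (2 * n * L) with hδ
  have hδ0 : 0 ≤ δ := by positivity
  have hδn : (Fintype.card B : ℝ) ^ 2 * δ ≤ m / (2 * L) := by
    have h1 : (Fintype.card B : ℝ) ^ 2 ≤ n := by rw [hn]; linarith
    calc (Fintype.card B : ℝ) ^ 2 * δ ≤ n * δ := mul_le_mul_of_nonneg_right h1 hδ0
      _ = m / (2 * L) := by
        rw [hδ]
        field_simp
  have hmL : m / (2 * L) ≤ 1 := by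
    rw [div_le_one (by positivity)]
    have : m ≤ 1 := min_le_left _ _
    linarith
  obtain ⟨V, hV, θ, hkV, hθ⟩ := exists_diag hδ0 (hδn.trans hmL) hk hk1
  have hVH : Vᴴ ∈ Matrix.unitaryGroup B ℂ := by
    rw [Matrix.mem_unitaryGroup_iff, Matrix.star_eq_conjTranspose,
      Matrix.conjTranspose_conjTranspose]
    exact (Matrix.mem_unitaryGroup_iff').1 hV
  have hθ' : ∀ b, |θ b| ≤ m / L := by
    intro b
    refine (hθ b).trans ?_
    calc 2 * ((Fintype.card B : ℝ) ^ 2 * δ) ≤ 2 * (m / (2 * L)) := by linarith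
      _ = m / L := by field_simp
  have hphs : ∀ j (u : A j → B) (v : C j → B), |phs θ u v| ≤ m := by
    intro j u v
    have h1 : |phs θ u v| ≤ ((Fintype.card (A j) : ℝ) + Fintype.card (C j)) * (m / L) := by
      unfold phs
      calc |∑ p, θ (u p) - ∑ q, θ (v q)| ≤ |∑ p, θ (u p)| + |∑ q, θ (v q)| := abs_sub _ _
        _ ≤ ∑ p, |θ (u p)| + ∑ q, |θ (v q)| :=
            add_le_add (Finset.abs_sum_le_sum_abs _ _) (Finset.abs_sum_le_sum_abs _ _)
        _ ≤ ∑ _p : A j, m / L + ∑ _q : C j, m / L :=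
            add_le_add (Finset.sum_le_sum fun p _ => hθ' _) (Finset.sum_le_sum fun p _ => hθ' _)
        _ = _ := by
            simp only [Finset.sum_const, Finset.card_univ, nsmul_eq_mul]
            ring
    have h2 : ((Fintype.card (A j) : ℝ) + Fintype.card (C j)) ≤ L := by
      have := Finset.single_le_sum (f := fun j => ((Fintype.card (A j) : ℝ) +
        Fintype.card (C j))) (fun j _ => by positivity) (Finset.mem_univ j)
      rw [hL]
      linarith
    calc |phs θ u v| ≤ ((Fintype.card (A j) : ℝ) + Fintype.card (C j)) * (m / L) := h1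
      _ ≤ L * (m / L) := mul_le_mul_of_nonneg_right h2 (by positivity)
      _ = m := by field_simp
  set x := fun j => uact Vᴴ (w j) with hx
  have hz : zc w k = ∑ j, ∑ u : A j → B, ∑ v : C j → B, (‖x j u v‖ ^ 2 : ℝ) *
        Complex.exp (-(phs θ u v) * Complex.I) := by
    rw [hkV]
    exact zc_diag w hV θ
  have hre : (zc w k).re = ∑ j, ∑ u : A j → B, ∑ v : C j → B,
      ‖x j u v‖ ^ 2 * Real.cos (phs θ u v) := by
    rw [hz]
    simp only [Complex.re_sum]
    refine Finset.sum_congr rfl fun j _ => Finset.sum_congr rfl fun u _ =>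
      Finset.sum_congr rfl fun v _ => ?_
    rw [← Complex.ofReal_neg, Complex.re_ofReal_mul, Complex.exp_ofReal_mul_I_re, Real.cos_neg]
  have him : (zc w k).im = -∑ j, ∑ u : A j → B, ∑ v : C j → B,
      ‖x j u v‖ ^ 2 * Real.sin (phs θ u v) := by
    rw [hz]
    simp only [Complex.im_sum, ← Finset.sum_neg_distrib]
    refine Finset.sum_congr rfl fun j _ => Finset.sum_congr rfl fun u _ =>
      Finset.sum_congr rfl fun v _ => ?_
    rw [← Complex.ofReal_neg, Complex.im_ofReal_mul, Complex.exp_ofReal_mul_I_im, Real.sin_neg]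
    ring
  have hmom := h.moment hV θ
  have hns := nsq_uact w hVH
  have e1 : (zc w k).im = -∑ j, ∑ u : A j → B, ∑ v : C j → B,
      ‖x j u v‖ ^ 2 * (Real.sin (phs θ u v) - phs θ u v) := by
    rw [him]
    simp only [mul_sub, Finset.sum_sub_distrib]
    have : ∑ j, ∑ u : A j → B, ∑ v : C j → B, ‖x j u v‖ ^ 2 * phs θ u v = 0 := by
      rw [← hmom]
      refine Finset.sum_congr rfl fun j _ => Finset.sum_congr rfl fun u _ =>
        Finset.sum_congr rfl fun v _ => mul_comm _ _
    rw [this, sub_zero]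
  have e2 : nsq w - (zc w k).re = ∑ j, ∑ u : A j → B, ∑ v : C j → B,
      ‖x j u v‖ ^ 2 * (1 - Real.cos (phs θ u v)) := by
    rw [hns, hre]
    simp only [mul_sub, Finset.sum_sub_distrib, mul_one]
    rfl
  rw [e1, e2, abs_neg, Finset.mul_sum]
  refine (Finset.abs_sum_le_sum_abs _ _).trans (Finset.sum_le_sum fun j _ => ?_)
  rw [Finset.mul_sum]
  refine (Finset.abs_sum_le_sum_abs _ _).trans (Finset.sum_le_sum fun u _ => ?_)
  rw [Finset.mul_sum]
  refine (Finset.abs_sum_le_sum_abs _ _).trans (Finset.sum_le_sum fun v _ => ?_)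
  rw [abs_mul, abs_of_nonneg (by positivity : (0 : ℝ) ≤ ‖x j u v‖ ^ 2)]
  have h5 := sin_sub_le ((hphs j u v).trans (min_le_left _ _))
  have h6 : |phs θ u v| ≤ η := (hphs j u v).trans (min_le_right _ _)
  have h7 : 0 ≤ 1 - Real.cos (phs θ u v) := by linarith [Real.cos_le_one (phs θ u v)]
  calc ‖x j u v‖ ^ 2 * |Real.sin (phs θ u v) - phs θ u v|
      ≤ ‖x j u v‖ ^ 2 * (η * (1 - Real.cos (phs θ u v))) := by
        refine mul_le_mul_of_nonneg_left ?_ (by positivity)
        exact h5.trans (mul_le_mul_of_nonneg_right h6 h7)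
    _ = η * (‖x j u v‖ ^ 2 * (1 - Real.cos (phs θ u v))) := by ring

end Pool.Agent.Run7.h174
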