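import Pool.Agent.Run7.h174.Laplace
import Pool.Agent.Run7.h174.Phase

/-!
# Averages over the unitary group
-/

set_option autoImplicit false
set_option linter.unusedSectionVars false

open Finset Matrix MeasureTheory

namespace Pool.Agent.Run7.h174

/-- the unitary group as a type -/
abbrev UU (B : Type) [Fintype B] [DecidableEq B] : Type := Matrix.unitaryGroup B ℂ

section haar

variable {B : Type} [Fintype B] [DecidableEq B]

noncomputable instance instMSU : MeasurableSpace (UU B) := borel _

instance instBU : BorelSpace (UU B) := ⟨rfl⟩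

instance instCU : CompactSpace (UU B) := by
  have hc : IsCompact (Matrix.unitaryGroup B ℂ : Set (Matrix B B ℂ)) := ?_
  · exact isCompact_iff_compactSpace.mp hc
  have hcl : IsClosed ((Matrix.unitaryGroup B ℂ : Set (Matrix B B ℂ))) := by
    have : ((Matrix.unitaryGroup B ℂ : Set (Matrix B B ℂ))) = {A | A * star A = 1} := by
      ext A
      simp [Matrix.mem_unitaryGroup_iff]
    rw [this]
    exact isClosed_eq (continuous_id.mul continuous_star) continuous_const
  have hK : IsCompact (Set.pi Set.univ (fun _ : B => Set.pi Set.univ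
      (fun _ : B => Metric.closedBall (0 : ℂ) 1)) : Set (B → B → ℂ)) :=
    isCompact_univ_pi fun _ => isCompact_univ_pi fun _ => isCompact_closedBall _ _
  refine IsCompact.of_isClosed_subset hK hcl ?_
  intro A hA i _ j _
  simp only [Metric.mem_closedBall, dist_zero_right]
  exact entry_norm_bound_of_unitary hA i j

/-- the invariant probability measure -/
noncomputable def muU (B : Type) [Fintype B] [DecidableEq B] : Measure (UU B) :=
  Measure.haarMeasure ⊤

instance instPU : IsProbabilityMeasure (muU B) := by
  refine ⟨?_⟩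
  have := Measure.haarMeasure_self (G := UU B) (K₀ := ⊤)
  exact this

instance instLU : (muU B).IsMulLeftInvariant := by
  unfold muU
  infer_instance

lemma continuous_entry (i j : B) : Continuous fun k : UU B => (k : Matrix B B ℂ) i j :=
  (continuous_apply_apply i j).comp continuous_subtype_val

variable {P Q P' Q' : Type} [Fintype P] [DecidableEq P] [Fintype Q] [DecidableEq Q]
  [Fintype P'] [DecidableEq P'] [Fintype Q'] [DecidableEq Q']

lemma continuous_uact (x : Ten ℂ B P Q) :
    Continuous fun k : UU B => uact (k : Matrix B B ℂ) x := by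
  refine continuous_pi fun u => continuous_pi fun v => ?_
  unfold uact act
  refine continuous_finsetSum _ fun a _ => continuous_finsetSum _ fun c _ => ?_
  refine Continuous.mul (Continuous.mul ?_ ?_) continuous_const
  · exact continuous_finsetProd _ fun p _ => continuous_entry _ _
  · exact continuous_finsetProd _ fun q _ => Complex.continuous_conj.comp (continuous_entry _ _)

variable {J : Type} [Fintype J] {A C : J → Type} [∀ j, Fintype (A j)] [∀ j, DecidableEq (A j)]
  [∀ j, Fintype (C j)] [∀ j, DecidableEq (C j)] (w : ∀ j, Ten ℂ B (A j) (C j))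

lemma continuous_zc : Continuous fun k : UU B => zc w (k : Matrix B B ℂ) := by
  unfold zc hT dotT tconj tmap
  refine continuous_finsetSum _ fun j _ => continuous_finsetSum _ fun a _ =>
    continuous_finsetSum _ fun c _ => ?_
  refine continuous_const.mul (Complex.continuous_conj.comp ?_)
  exact (continuous_apply_apply _ _).comp (continuous_uact (w j))

/-- The average of `z ^ m k y`. -/
noncomputable def av (m : ℕ) (y : Ten ℂ B P Q) : Ten ℂ B P Q :=
  ∫ k : UU B, zc w (k : Matrix B B ℂ) ^ m • uact (k : Matrix B B ℂ) y ∂(muU B)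

/-- contraction with a fixed tensor -/
def contrL (x : Ten ℂ B P Q) : Ten ℂ B (Q ⊕ P') (P ⊕ Q') →ₗ[ℂ] Ten ℂ B P' Q' where
  toFun := contr x
  map_add' y y' := by
    funext u v
    simp [contr, mul_add, Finset.sum_add_distrib]
  map_smul' c y := by
    funext u v
    simp only [contr, Pi.smul_apply, smul_eq_mul, RingHom.id_apply, Finset.mul_sum]
    refine Finset.sum_congr rfl fun a _ => Finset.sum_congr rfl fun b _ => ?_
    ring

lemma zc_smul_uact (k : Matrix B B ℂ) (y : Ten ℂ B P Q) :
    zc w k • uact k y = ∑ j, contr (w j) (uact k (tmul (tstar (w j)) y)) := by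
  have h1 : ∀ j, uact k (tmul (tstar (w j)) y) = tmul (tstar (uact k (w j))) (uact k y) := by
    intro j
    rw [tstar_uact]
    exact act_tmul _ _ _ _
  funext u v
  rw [Finset.sum_apply, Finset.sum_apply, Pi.smul_apply, Pi.smul_apply, smul_eq_mul]
  unfold zc
  rw [Finset.sum_mul]
  refine Finset.sum_congr rfl fun j _ => ?_
  rw [h1]
  unfold hT dotT contr
  rw [Finset.sum_mul]
  refine Finset.sum_congr rfl fun a _ => ?_
  rw [Finset.sum_mul]
  refine Finset.sum_congr rfl fun c _ => ?_
  unfold tmul tstar tswap
  simp only [Sum.elim_inl, Sum.elim_inr]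
  ring

lemma continuous_zuact (m : ℕ) (y : Ten ℂ B P Q) : Continuous fun k : UU B =>
    zc w (k : Matrix B B ℂ) ^ m • uact (k : Matrix B B ℂ) y :=
  ((continuous_zc w).pow m).smul (continuous_uact y)

lemma map_av {E : Type*} [NormedAddCommGroup E] [NormedSpace ℂ E] [CompleteSpace E]
    (f : Ten ℂ B P Q →ₗ[ℂ] E) (m : ℕ) (y : Ten ℂ B P Q) :
    f (av w m y) = ∫ k : UU B, zc w (k : Matrix B B ℂ) ^ m • f (uact (k : Matrix B B ℂ) y)
      ∂(muU B) := by
  have h1 := (LinearMap.toContinuousLinearMap f).integral_comp_comm
    (integrable_cont (μ := muU B) (continuous_zuact w m y))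
  simp only [LinearMap.coe_toContinuousLinearMap', map_smul] at h1
  exact h1.symm

lemma av_succ (m : ℕ) (y : Ten ℂ B P Q) :
    av w (m + 1) y = ∑ j, contr (w j) (av w m (tmul (tstar (w j)) y)) := by
  have h1 : ∀ j, contr (w j) (av w m (tmul (tstar (w j)) y)) =
      ∫ k : UU B, zc w (k : Matrix B B ℂ) ^ m •
        contr (w j) (uact (k : Matrix B B ℂ) (tmul (tstar (w j)) y)) ∂(muU B) := fun j =>
    map_av w (contrL (P' := P) (Q' := Q) (w j)) m (tmul (tstar (w j)) y)
  rw [Finset.sum_congr rfl fun j _ => h1 j, ← integral_finsetSum]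
  · unfold av
    refine integral_congr_ae (Filter.Eventually.of_forall fun k => ?_)
    beta_reduce
    rw [← Finset.smul_sum, ← zc_smul_uact, smul_smul, pow_succ]
  · intro j _
    refine integrable_cont (((continuous_zc w).pow m).smul ?_)
    exact (LinearMap.continuous_of_finiteDimensional (contrL (w j))).comp (continuous_uact _)

/-- The average is invariant. -/
lemma uact_av_zero (l : UU B) (y : Ten ℂ B P Q) :
    uact (l : Matrix B B ℂ) (av w 0 y) = av w 0 y := by
  have h1 : uact (l : Matrix B B ℂ) (av w 0 y) = _ :=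
    map_av w (actL (l : Matrix B B ℂ) (cjm (l : Matrix B B ℂ))) 0 y
  rw [h1]
  unfold av
  have h2 := integral_mul_left_eq_self (μ := muU B)
    (fun k : UU B => zc w (k : Matrix B B ℂ) ^ 0 • uact (k : Matrix B B ℂ) y) l
  rw [← h2]
  refine integral_congr_ae (Filter.Eventually.of_forall fun k => ?_)
  beta_reduce
  rw [pow_zero, pow_zero, one_smul, one_smul]
  exact (uact_mul _ _ _).symm

end haar

end Pool.Agent.Run7.h174
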