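import Pool.Agent.Run7.h174.Act

/-!
# Bilinear and hermitian forms on tensors
-/

set_option autoImplicit false
set_option linter.unusedSectionVars false

open Finset Matrix

universe u u'

namespace Pool.Agent.Run7.h174

section dot

variable {R : Type u} [CommRing R] {B P Q P' Q' : Type} [Fintype B] [DecidableEq B]
  [Fintype P] [DecidableEq P] [Fintype Q] [DecidableEq Q]

/-- The bilinear form of the coordinates. -/
def dotT (x y : Ten R B P Q) : R := ∑ a, ∑ c, x a c * y a c

/-- exchange of the upper and the lower legs -/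
def tswap (x : Ten R B P Q) : Ten R B Q P := fun c a => x a c

lemma tswap_tswap (x : Ten R B P Q) : tswap (tswap x) = x := rfl

lemma dotT_comm (x y : Ten R B P Q) : dotT x y = dotT y x := by
  unfold dotT
  simp only [mul_comm]

lemma dotT_add_left (x y z : Ten R B P Q) : dotT (x + y) z = dotT x z + dotT y z := by
  simp [dotT, add_mul, Finset.sum_add_distrib]

lemma dotT_add_right (x y z : Ten R B P Q) : dotT x (y + z) = dotT x y + dotT x z := by
  simp [dotT, mul_add, Finset.sum_add_distrib]

lemma dotT_smul_left {S : Type*} [CommRing S] [Algebra S R] (c : S) (x y : Ten R B P Q) :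
    dotT (c • x) y = c • dotT x y := by
  simp [dotT, Finset.smul_sum]

lemma dotT_smul_right {S : Type*} [CommRing S] [Algebra S R] (c : S) (x y : Ten R B P Q) :
    dotT x (c • y) = c • dotT x y := by
  simp [dotT, Finset.smul_sum]

lemma dotT_zero_left (x : Ten R B P Q) : dotT (0 : Ten R B P Q) x = 0 := by simp [dotT]

lemma dotT_zero_right (x : Ten R B P Q) : dotT x (0 : Ten R B P Q) = 0 := by simp [dotT]

lemma pairT_eq (x : Ten R B P Q) (y : Ten R B Q P) : pairT x y = dotT x (tswap y) := rfl

lemma pairT_swap (x : Ten R B P Q) (y : Ten R B Q P) : pairT x y = pairT y x := by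
  unfold pairT
  rw [Finset.sum_comm]
  simp only [mul_comm]

lemma tswap_act (g g' : Matrix B B R) (x : Ten R B P Q) :
    tswap (act g g' x) = act g' g (tswap x) := by
  funext c a
  unfold tswap act
  rw [Finset.sum_comm]
  refine Finset.sum_congr rfl fun _ _ => Finset.sum_congr rfl fun _ _ => ?_
  ring

/-- The adjoint of the action. -/
lemma dotT_act (g g' : Matrix B B R) (x y : Ten R B P Q) :
    dotT (act g g' x) y = dotT x (act g.transpose g'.transpose y) := by
  unfold dotT act
  simp only [Finset.sum_mul, Finset.mul_sum, Matrix.transpose_apply]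
  calc ∑ u : P → B, ∑ v : Q → B, ∑ a : P → B, ∑ c : Q → B,
        (∏ p, g (u p) (a p)) * (∏ q, g' (v q) (c q)) * x a c * y u v
      = ∑ u : P → B, ∑ a : P → B, ∑ c : Q → B, ∑ v : Q → B,
        (∏ p, g (u p) (a p)) * (∏ q, g' (v q) (c q)) * x a c * y u v := by
        refine Finset.sum_congr rfl fun u _ => ?_
        rw [Finset.sum_comm]
        refine Finset.sum_congr rfl fun a _ => ?_
        rw [Finset.sum_comm]
    _ = ∑ a : P → B, ∑ c : Q → B, ∑ u : P → B, ∑ v : Q → B,
        (∏ p, g (u p) (a p)) * (∏ q, g' (v q) (c q)) * x a c * y u v := by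
        rw [Finset.sum_comm]
        refine Finset.sum_congr rfl fun a _ => ?_
        rw [Finset.sum_comm]
    _ = _ := by
        refine Finset.sum_congr rfl fun a _ => Finset.sum_congr rfl fun c _ =>
          Finset.sum_congr rfl fun u _ => Finset.sum_congr rfl fun v _ => ?_
        ring

lemma dotT_act_act {g g' h h' : Matrix B B R} (h1 : g.transpose * h = 1)
    (h2 : g'.transpose * h' = 1) (x y : Ten R B P Q) :
    dotT (act g g' x) (act h h' y) = dotT x y := by
  rw [dotT_act, act_act, h1, h2, act_one]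

lemma pairT_act {g g' : Matrix B B R} (h : g.transpose * g' = 1) (x : Ten R B P Q)
    (y : Ten R B Q P) : pairT (act g g' x) (act g g' y) = pairT x y := by
  have h' : g'.transpose * g = 1 := by
    have := congrArg Matrix.transpose h
    rwa [Matrix.transpose_mul, Matrix.transpose_transpose, Matrix.transpose_one] at this
  rw [pairT_eq, tswap_act, dotT_act_act h h', pairT_eq]

lemma act_diagonal (d d' : B → R) (x : Ten R B P Q) (u : P → B) (v : Q → B) :
    act (Matrix.diagonal d) (Matrix.diagonal d') x u v =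
      (∏ p, d (u p)) * (∏ q, d' (v q)) * x u v := by
  have key : ∀ {S : Type} [Fintype S] [DecidableEq S] (d : B → R) (u a : S → B),
      ∏ p, Matrix.diagonal d (u p) (a p) = if u = a then ∏ p, d (u p) else 0 := by
    intro S _ _ d u a
    by_cases h : u = a
    · subst h
      simp
    · rw [if_neg h]
      obtain ⟨p, hp⟩ := Function.ne_iff.1 h
      exact Finset.prod_eq_zero (Finset.mem_univ p) (Matrix.diagonal_apply_ne _ hp)
  unfold act
  simp only [key]
  rw [Finset.sum_eq_single u]
  · rw [Finset.sum_eq_single v]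
    · simp
    · intro c _ hc
      rw [if_neg (Ne.symm hc)]
      ring
    · intro h; exact absurd (Finset.mem_univ _) h
  · intro a _ ha
    refine Finset.sum_eq_zero fun c _ => ?_
    rw [if_neg (Ne.symm ha)]
    ring
  · intro h; exact absurd (Finset.mem_univ _) h

end dot

section map

variable {R : Type u} [CommRing R] {R' : Type u'} [CommRing R'] {B P Q : Type} [Fintype B]
  [DecidableEq B]

/-- change of the coefficients -/
def tmap (σ : R →+* R') (x : Ten R B P Q) : Ten R' B P Q := fun u v => σ (x u v)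

lemma tmap_clo (σ : R →+* R') :
    Clo (B := B) (R := R) (R' := R') (fun _ _ x x' => x' = tmap σ x) where
  one := by
    funext u v
    simp [tmap, tone]
  id := by
    funext u v
    simp only [tmap, tid]
    split_ifs <;> simp
  mul := by
    rintro P Q P' Q' _ _ _ _ x _ y _ rfl rfl
    funext u v
    simp [tmap, tmul]
  rel := by
    rintro P Q P' Q' _ _ e f x _ rfl
    rfl
  con := by
    rintro P Q _ _ x _ rfl
    funext u v
    simp [tmap, tcon]

variable {J : Type} {A C : J → Type} [∀ j, Finite (A j)] [∀ j, Finite (C j)]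

lemma ev_map (σ : R →+* R') (w : ∀ j, Ten R B (A j) (C j)) {P Q : Type} (t : Net A C P Q) :
    ev (fun j => tmap σ (w j)) t = tmap σ (ev w t) :=
  (tmap_clo σ).ev (fun j => inferInstance) (fun j => inferInstance) (fun _ => rfl) t

lemma cv_map (σ : R →+* R') (w : ∀ j, Ten R B (A j) (C j)) (t : Net A C Empty Empty) :
    cv (fun j => tmap σ (w j)) t = σ (cv w t) := by
  unfold cv
  rw [ev_map]
  rfl

lemma tmap_act (σ : R →+* R') [Fintype P] [DecidableEq P] [Fintype Q] [DecidableEq Q]
    (g g' : Matrix B B R) (x : Ten R B P Q) :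
    tmap σ (act g g' x) = act (g.map σ) (g'.map σ) (tmap σ x) := by
  funext u v
  unfold tmap act
  simp [map_sum, map_mul, map_prod]

lemma tmap_dotT (σ : R →+* R') [Fintype P] [DecidableEq P] [Fintype Q] [DecidableEq Q]
    (x y : Ten R B P Q) : dotT (tmap σ x) (tmap σ y) = σ (dotT x y) := by
  unfold dotT tmap
  simp [map_sum, map_mul]

end map

section cplx

variable {B P Q P' Q' : Type} [Fintype B] [DecidableEq B]
  [Fintype P] [DecidableEq P] [Fintype Q] [DecidableEq Q]

/-- complex conjugation of the coordinates -/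
def tconj (x : Ten ℂ B P Q) : Ten ℂ B P Q := tmap (starRingEnd ℂ) x

lemma tconj_tconj (x : Ten ℂ B P Q) : tconj (tconj x) = x := by
  funext u v
  simp [tconj, tmap]

/-- The hermitian form. -/
def hT (x y : Ten ℂ B P Q) : ℂ := dotT x (tconj y)

/-- The square of the norm. -/
noncomputable def nT (x : Ten ℂ B P Q) : ℝ := ∑ a, ∑ c, ‖x a c‖ ^ 2

lemma hT_self (x : Ten ℂ B P Q) : hT x x = (nT x : ℂ) := by
  unfold hT dotT nT tconj tmap
  push_cast
  refine Finset.sum_congr rfl fun a _ => Finset.sum_congr rfl fun c _ => ?_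
  rw [Complex.mul_conj']

lemma nT_nonneg (x : Ten ℂ B P Q) : 0 ≤ nT x := by
  unfold nT
  positivity

lemma nT_eq_zero {x : Ten ℂ B P Q} (h : nT x = 0) : x = 0 := by
  unfold nT at h
  funext a c
  have h1 := (Finset.sum_eq_zero_iff_of_nonneg (fun a _ => by positivity)).1 h a
    (Finset.mem_univ _)
  have h2 := (Finset.sum_eq_zero_iff_of_nonneg (fun c _ => by positivity)).1 h1 c
    (Finset.mem_univ _)
  simpa using h2

lemma hT_conj (x y : Ten ℂ B P Q) : starRingEnd ℂ (hT x y) = hT y x := by
  unfold hT
  rw [← tmap_dotT]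
  change dotT (tconj x) (tconj (tconj y)) = _
  rw [tconj_tconj, dotT_comm]

lemma tconj_act (g g' : Matrix B B ℂ) (x : Ten ℂ B P Q) :
    tconj (act g g' x) = act (g.map (starRingEnd ℂ)) (g'.map (starRingEnd ℂ)) (tconj x) :=
  tmap_act _ _ _ _

/-- the complex conjugate matrix -/
abbrev cjm (g : Matrix B B ℂ) : Matrix B B ℂ := g.map (starRingEnd ℂ)

lemma cjm_cjm (g : Matrix B B ℂ) : cjm (cjm g) = g := by
  ext i j
  simp [cjm]

lemma unitary_one {k : Matrix B B ℂ} (hk : k ∈ Matrix.unitaryGroup B ℂ) :
    k.transpose * cjm k = 1 := by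
  have h1 : kᴴ * k = 1 := by
    have := (Matrix.mem_unitaryGroup_iff').1 hk
    rwa [Matrix.star_eq_conjTranspose] at this
  have h2 := congrArg Matrix.transpose h1
  rw [Matrix.transpose_mul, Matrix.transpose_one] at h2
  exact h2

lemma unitary_two {k : Matrix B B ℂ} (hk : k ∈ Matrix.unitaryGroup B ℂ) :
    (cjm k).transpose * k = 1 := by
  have := congrArg Matrix.transpose (unitary_one hk)
  rwa [Matrix.transpose_mul, Matrix.transpose_transpose, Matrix.transpose_one] at this

/-- the action of the unitary group -/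
def uact (k : Matrix B B ℂ) (x : Ten ℂ B P Q) : Ten ℂ B P Q := act k (cjm k) x

lemma hT_uact {k : Matrix B B ℂ} (hk : k ∈ Matrix.unitaryGroup B ℂ) (x y : Ten ℂ B P Q) :
    hT (uact k x) (uact k y) = hT x y := by
  unfold hT uact
  rw [tconj_act]
  have h3 : (cjm k).map (starRingEnd ℂ) = k := cjm_cjm k
  rw [h3]
  exact dotT_act_act (unitary_one hk) (unitary_two hk) _ _

lemma nT_uact {k : Matrix B B ℂ} (hk : k ∈ Matrix.unitaryGroup B ℂ) (x : Ten ℂ B P Q) :
    nT (uact k x) = nT x := by
  have h1 := hT_uact hk x x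
  rw [hT_self, hT_self] at h1
  exact_mod_cast h1

lemma uact_mul (k l : Matrix B B ℂ) (x : Ten ℂ B P Q) : uact (k * l) x = uact k (uact l x) := by
  unfold uact
  rw [act_act]
  congr 1
  exact Matrix.map_mul

lemma uact_one (x : Ten ℂ B P Q) : uact 1 x = x := by
  unfold uact
  rw [show cjm (1 : Matrix B B ℂ) = 1 from Matrix.map_one _ (map_zero _) (map_one _), act_one]

/-- The adjoint tensor. -/
def tstar (x : Ten ℂ B P Q) : Ten ℂ B Q P := tswap (tconj x)

lemma tstar_tstar (x : Ten ℂ B P Q) : tstar (tstar x) = x := by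
  funext u v
  simp [tstar, tconj, tmap, tswap]

lemma tstar_uact (k : Matrix B B ℂ) (x : Ten ℂ B P Q) : tstar (uact k x) = uact k (tstar x) := by
  unfold tstar uact
  rw [tconj_act, tswap_act]
  congr 1
  exact cjm_cjm k

lemma pairT_tstar (x y : Ten ℂ B P Q) : pairT x (tstar y) = hT x y := rfl

end cplx

end Pool.Agent.Run7.h174
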