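import Pool.Agent.Run7.h174.UE2

/-!
# The stabilizer of a minimal tuple, averages, and the trace formula
-/

set_option autoImplicit false
set_option linter.unusedSectionVars false

open Finset Matrix MeasureTheory Function

namespace Pool.Agent.Run7.h174

variable {B : Type} [Fintype B] [DecidableEq B]
  {J : Type} [Fintype J] {A C : J → Type} [∀ j, Fintype (A j)] [∀ j, DecidableEq (A j)]
  [∀ j, Fintype (C j)] [∀ j, DecidableEq (C j)] (w : ∀ j, Ten ℂ B (A j) (C j))

/-- the stabilizer of the tuple in the unitary group -/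
def stb : Subgroup (UU B) where
  carrier := {k | ∀ j, uact (k : Matrix B B ℂ) (w j) = w j}
  mul_mem' := by
    intro k l hk hl j
    rw [Submonoid.coe_mul, uact_mul, hl j, hk j]
  one_mem' := fun j => uact_one (w j)
  inv_mem' := by
    intro k hk j
    have h1 := uact_inv k (w j)
    rwa [hk j] at h1

lemma mem_stb {k : UU B} : k ∈ stb w ↔ ∀ j, uact (k : Matrix B B ℂ) (w j) = w j := Iff.rfl

lemma isClosed_stb : IsClosed (stb w : Set (UU B)) := by
  have : (stb w : Set (UU B)) = ⋂ j, {k : UU B | uact (k : Matrix B B ℂ) (w j) = w j} := by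
    ext k
    simp [mem_stb]
  rw [this]
  exact isClosed_iInter fun j => isClosed_eq (continuous_uact (w j)) continuous_const

instance instCK : CompactSpace (stb w) :=
  isCompact_iff_compactSpace.mp (isClosed_stb w).isCompact

instance instBK : BorelSpace (stb w) := Subtype.borelSpace _

/-- the invariant probability measure -/
noncomputable def muK : Measure (stb w) := Measure.haarMeasure ⊤

instance instPK : IsProbabilityMeasure (muK w) := by
  refine ⟨?_⟩
  have := Measure.haarMeasure_self (G := stb w) (K₀ := ⊤)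
  exact this

instance instLK : (muK w).IsMulLeftInvariant := by
  unfold muK
  infer_instance

/-- the matrix of an element -/
abbrev mk (k : stb w) : Matrix B B ℂ := ((k : UU B) : Matrix B B ℂ)

variable {P Q : Type} [Fintype P] [DecidableEq P] [Fintype Q] [DecidableEq Q]

lemma continuous_uactK (y : Ten ℂ B P Q) : Continuous fun k : stb w => uact (mk w k) y :=
  (continuous_uact y).comp continuous_subtype_val

lemma integrable_uactK (y : Ten ℂ B P Q) :
    Integrable (fun k : stb w => uact (mk w k) y) (muK w) :=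
  integrable_cont (continuous_uactK w y)

/-- The average over the stabilizer. -/
noncomputable def EK : Ten ℂ B P Q →ₗ[ℂ] Ten ℂ B P Q where
  toFun y := ∫ k : stb w, uact (mk w k) y ∂(muK w)
  map_add' y y' := by
    rw [← integral_add (integrable_uactK w y) (integrable_uactK w y')]
    refine integral_congr_ae (Filter.Eventually.of_forall fun k => ?_)
    exact act_add _ _ _ _
  map_smul' c y := by
    rw [RingHom.id_apply, ← integral_smul]
    refine integral_congr_ae (Filter.Eventually.of_forall fun k => ?_)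
    exact act_smul _ _ _ _

lemma EK_apply (y : Ten ℂ B P Q) : EK w y = ∫ k : stb w, uact (mk w k) y ∂(muK w) := rfl

lemma map_EK {E : Type*} [NormedAddCommGroup E] [NormedSpace ℂ E] [CompleteSpace E]
    (f : Ten ℂ B P Q →ₗ[ℂ] E) (y : Ten ℂ B P Q) :
    f (EK w y) = ∫ k : stb w, f (uact (mk w k) y) ∂(muK w) := by
  have h1 := (LinearMap.toContinuousLinearMap f).integral_comp_comm (integrable_uactK w y)
  simp only [LinearMap.coe_toContinuousLinearMap'] at h1
  exact h1.symm

lemma uact_EK (l : stb w) (y : Ten ℂ B P Q) : uact (mk w l) (EK w y) = EK w y := by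
  have h1 : uact (mk w l) (EK w y) = _ := map_EK w (actL (mk w l) (cjm (mk w l))) y
  rw [h1]
  have h2 := integral_mul_left_eq_self (μ := muK w) (fun k : stb w => uact (mk w k) y) l
  rw [EK_apply, ← h2]
  refine integral_congr_ae (Filter.Eventually.of_forall fun k => ?_)
  exact (uact_mul _ _ _).symm

variable {w} {a : ∀ j, Ten ℂ B (A j) (C j)}

lemma EK_mem (h : IsMin a w) (y : Ten ℂ B P Q) : EK w y ∈ Sp ℂ w P Q :=
  h.inv_mem fun k hk => uact_EK w ⟨k, hk⟩ y

lemma uact_sp {k : UU B} (hk : ∀ j, uact (k : Matrix B B ℂ) (w j) = w j) {y : Ten ℂ B P Q}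
    (hy : y ∈ Sp ℂ w P Q) : uact (k : Matrix B B ℂ) y = y := by
  unfold Sp at hy
  induction hy using Submodule.span_induction with
  | mem y hy =>
    obtain ⟨t, rfl⟩ := hy
    have h1 := ev_act (unitary_one k.2) w t
    have h2 : (fun j => act (k : Matrix B B ℂ) (cjm (k : Matrix B B ℂ)) (w j)) = w :=
      funext hk
    rw [h2] at h1
    exact h1.symm
  | zero => exact act_zero _ _
  | add y z _ _ hy hz =>
    have : uact (k : Matrix B B ℂ) (y + z) = uact (k : Matrix B B ℂ) y +
      uact (k : Matrix B B ℂ) z := act_add _ _ _ _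
    rw [this, hy, hz]
  | smul c y _ hy =>
    have : uact (k : Matrix B B ℂ) (c • y) = c • uact (k : Matrix B B ℂ) y := act_smul _ _ _ _
    rw [this, hy]

lemma EK_of_mem {y : Ten ℂ B P Q} (hy : y ∈ Sp ℂ w P Q) : EK w y = y := by
  rw [EK_apply]
  have h1 : ∀ k : stb w, uact (mk w k) y = y := fun k => uact_sp k.2 hy
  simp only [h1]
  rw [integral_const, probReal_univ, one_smul]

/-- the coordinates -/
def ceq : Ten ℂ B P Q ≃ₗ[ℂ] ((P → B) × (Q → B) → ℂ) where
  toFun x := fun z => x z.1 z.2
  invFun x := fun u v => x (u, v)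
  left_inv _ := rfl
  right_inv _ := rfl
  map_add' _ _ := rfl
  map_smul' _ _ := rfl

/-- the standard tensors -/
def dl (z : (P → B) × (Q → B)) : Ten ℂ B P Q := fun u v => if (u, v) = z then 1 else 0

/-- The trace in coordinates. -/
lemma trace_ten (F : Ten ℂ B P Q →ₗ[ℂ] Ten ℂ B P Q) :
    LinearMap.trace ℂ (Ten ℂ B P Q) F = ∑ z, F (dl z) z.1 z.2 := by
  set b : Module.Basis ((P → B) × (Q → B)) ℂ (Ten ℂ B P Q) := Module.Basis.ofEquivFun ceq with hb
  rw [LinearMap.trace_eq_matrix_trace ℂ b F, Matrix.trace]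
  refine Finset.sum_congr rfl fun z _ => ?_
  rw [Matrix.diag_apply, LinearMap.toMatrix_apply]
  have h1 : b z = dl z := by
    rw [hb, Module.Basis.coe_ofEquivFun]
    funext u v
    change (Pi.single z 1 : ((P → B) × (Q → B)) → ℂ) (u, v) = _
    unfold dl
    rw [Pi.single_apply]
  rw [h1]
  rfl

/-- The trace of the action. -/
lemma trace_act (g g' : Matrix B B ℂ) (n : ℕ) :
    LinearMap.trace ℂ (Ten ℂ B (Fin n) Empty) (actL g g') = g.trace ^ n := by
  rw [trace_ten, Fintype.sum_prod_type]
  have h1 : ∀ (u : Fin n → B) (v : Empty → B),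
      actL g g' (dl (u, v) : Ten ℂ B (Fin n) Empty) u v = ∏ p, g (u p) (u p) := by
    intro u v
    change act g g' (dl (u, v)) u v = _
    unfold act
    rw [Finset.sum_eq_single u]
    · rw [Fintype.sum_unique]
      have h2 : (dl (u, v) : Ten ℂ B (Fin n) Empty) u default = 1 := by
        have h3 : (u, (default : Empty → B)) = (u, v) := Prod.ext rfl (Subsingleton.elim _ _)
        exact if_pos h3
      rw [h2]
      simp
    · intro c _ hc
      refine Finset.sum_eq_zero fun e _ => ?_
      unfold dl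
      rw [if_neg (fun h => hc (congrArg Prod.fst h)), mul_zero]
    · intro h; exact absurd (Finset.mem_univ _) h
  simp only [h1, Finset.sum_const, Finset.card_univ]
  rw [Fintype.card_unique]
  simp only [one_smul]
  have h3 : ∑ u : Fin n → B, ∏ p, g (u p) (u p) = ∏ _p : Fin n, ∑ b, g b b := by
    rw [Finset.prod_univ_sum (fun _ : Fin n => (Finset.univ : Finset B))
      (fun (_ : Fin n) (b : B) => g b b), Fintype.piFinset_univ]
  rw [h3, Finset.prod_const, Finset.card_univ, Fintype.card_fin]
  rfl

/-- **The trace formula.** -/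
theorem trace_formula (h : IsMin a w) (g : Matrix B B ℂ) (n : ℕ)
    (hg : ∀ x ∈ Sp ℂ w (Fin n) Empty, actL g (cjm g) x ∈ Sp ℂ w (Fin n) Empty) :
    LinearMap.trace ℂ (Sp ℂ w (Fin n) Empty) ((actL g (cjm g)).restrict hg) =
      ∫ k : stb w, (g * mk w k).trace ^ n ∂(muK w) := by
  set G : Ten ℂ B (Fin n) Empty →ₗ[ℂ] Ten ℂ B (Fin n) Empty := actL g (cjm g) ∘ₗ EK w with hG
  have h1 : ∀ x, G x ∈ Sp ℂ w (Fin n) Empty := fun x => hg _ (EK_mem h x)
  have h2 : (actL g (cjm g)).restrict hg = G.restrict (fun x _ => h1 x) := by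
    apply LinearMap.ext
    rintro ⟨x, hx⟩
    apply Subtype.ext
    change actL g (cjm g) x = actL g (cjm g) (EK w x)
    rw [EK_of_mem hx]
  rw [h2, LinearMap.trace_restrict_eq_of_forall_mem _ _ h1, trace_ten]
  have h3 : ∀ z : (Fin n → B) × (Empty → B), G (dl z) z.1 z.2 =
      ∫ k : stb w, uact (g * mk w k) (dl z) z.1 z.2 ∂(muK w) := by
    intro z
    have h4 := map_EK w ((LinearMap.proj (R := ℂ) (φ := fun _ : Empty → B => ℂ) z.2) ∘ₗ
      (LinearMap.proj (R := ℂ) (φ := fun _ : Fin n → B => (Empty → B) → ℂ) z.1) ∘ₗ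
      actL g (cjm g)) (dl z)
    refine h4.trans (integral_congr_ae (Filter.Eventually.of_forall fun k => ?_))
    change uact g (uact (mk w k) (dl z)) z.1 z.2 = _
    rw [← uact_mul]
  simp only [h3]
  rw [← integral_finsetSum]
  · refine integral_congr_ae (Filter.Eventually.of_forall fun k => ?_)
    beta_reduce
    rw [← trace_act (g * mk w k) (cjm (g * mk w k)) n, trace_ten]
    rfl
  · intro z _
    refine integrable_cont ?_
    have h5 : Continuous fun k : stb w => uact g (uact (mk w k) (dl z)) :=
      (LinearMap.continuous_of_finiteDimensional (actL g (cjm g))).comp (continuous_uactK w (dl z))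
    have h6 : (fun k : stb w => uact (g * mk w k) (dl z) z.1 z.2) =
        fun k : stb w => uact g (uact (mk w k) (dl z)) z.1 z.2 := by
      funext k
      rw [uact_mul]
    rw [h6]
    exact (continuous_apply_apply z.1 z.2).comp h5

/-- The dimension formula. -/
theorem dim_formula (h : IsMin a w) (n : ℕ) :
    (Module.finrank ℂ (Sp ℂ w (Fin n) Empty) : ℂ) =
      ∫ k : stb w, (mk w k).trace ^ n ∂(muK w) := by
  have h1 : ∀ x : Ten ℂ B (Fin n) Empty, actL (1 : Matrix B B ℂ) (cjm 1) x = x := fun x =>
    uact_one x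
  have h2 := trace_formula h 1 n (fun x hx => by rw [h1]; exact hx)
  have h3 : (actL (1 : Matrix B B ℂ) (cjm 1)).restrict (p := Sp ℂ w (Fin n) Empty)
      (q := Sp ℂ w (Fin n) Empty) (fun x hx => by rw [h1]; exact hx) = LinearMap.id := by
    apply LinearMap.ext
    rintro ⟨x, hx⟩
    apply Subtype.ext
    exact h1 x
  rw [h3, LinearMap.trace_id] at h2
  rw [h2]
  simp only [one_mul]

end Pool.Agent.Run7.h174
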