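import Pool.Agent.Run7.h174.Base

/-!
# Ordered products of families of elements which commute up to signs
-/

set_option autoImplicit false
set_option linter.unusedSectionVars false

open Finset

universe u v

namespace Pool.Agent.Run7.h174

section LP

variable {K : Type u} [Field K] {H : Type v} [Ring H] [Algebra K H] {B Λ : Type}

/-- the sign -/
def sgB (K : Type u) [Field K] (b : Bool) : K := if b then -1 else 1

lemma sgB_mul_self (b : Bool) : sgB K b * sgB K b = 1 := by
  cases b <;> simp [sgB]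

/-- The ordered product. -/
def LP (fam : Λ → B → H) (r : Λ → B) (l : List Λ) : H := (l.map fun a => fam a (r a)).prod

lemma LP_nil (fam : Λ → B → H) (r : Λ → B) : LP fam r [] = 1 := rfl

lemma LP_cons (fam : Λ → B → H) (r : Λ → B) (a : Λ) (l : List Λ) :
    LP fam r (a :: l) = fam a (r a) * LP fam r l := by
  simp [LP]

lemma LP_append (fam : Λ → B → H) (r : Λ → B) (l l' : List Λ) :
    LP fam r (l ++ l') = LP fam r l * LP fam r l' := by
  simp [LP]

lemma LP_map {Λ' : Type} (fam : Λ → B → H) (r : Λ → B) (g : Λ' → Λ) (l : List Λ') :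
    LP fam r (l.map g) = LP (fun a => fam (g a)) (fun a => r (g a)) l := by
  simp only [LP, List.map_map]
  rfl

/-- the pattern of the parities -/
def Pat (β : B → Bool) (ε : Λ → Bool) (r : Λ → B) : Prop := ∀ a, β (r a) = ε a

/-- Change of the order. -/
lemma LP_perm {β : B → Bool} {fam : Λ → B → H}
    (hc : ∀ a a' b b', fam a b * fam a' b' = sgB K (β b && β b') • (fam a' b' * fam a b))
    (ε : Λ → Bool) {l l' : List Λ} (h : l.Perm l') :
    ∃ s : ℤ, (s = 1 ∨ s = -1) ∧ ∀ r, Pat β ε r → LP fam r l = (s : K) • LP fam r l' := by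
  induction h with
  | nil => exact ⟨1, Or.inl rfl, fun r _ => by rw [Int.cast_one, one_smul]⟩
  | cons a _ ih =>
    obtain ⟨s, hs, h⟩ := ih
    exact ⟨s, hs, fun r hr => by rw [LP_cons, LP_cons, h r hr, mul_smul_comm]⟩
  | swap a b l =>
    refine ⟨if ε b && ε a then -1 else 1, by split_ifs <;> simp, fun r hr => ?_⟩
    rw [LP_cons, LP_cons, LP_cons, LP_cons, ← mul_assoc, hc, hr, hr, smul_mul_assoc, mul_assoc]
    congr 1
    unfold sgB
    split_ifs <;> simp
  | trans _ _ ih ih' =>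
    obtain ⟨s, hs, h⟩ := ih
    obtain ⟨s', hs', h'⟩ := ih'
    refine ⟨s * s', ?_, fun r hr => ?_⟩
    · rcases hs with rfl | rfl <;> rcases hs' with rfl | rfl <;> simp
    · rw [h r hr, h' r hr, smul_smul, Int.cast_mul]

variable [Fintype B] [DecidableEq B]

open Classical in
/-- The element given by a tensor. -/
noncomputable def cls {P Q : Type} [Fintype P] [DecidableEq P] [Fintype Q] [DecidableEq Q]
    (β : B → Bool) (x : Ten K B P Q) (fam : P ⊕ Q → B → H) (ε : P ⊕ Q → Bool)
    (l : List (P ⊕ Q)) : H :=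
  ∑ r : P ⊕ Q → B, if Pat β ε r then
    x (fun p => r (Sum.inl p)) (fun q => r (Sum.inr q)) • LP fam r l else 0

lemma cls_perm {P Q : Type} [Fintype P] [DecidableEq P] [Fintype Q] [DecidableEq Q]
    {β : B → Bool} (x : Ten K B P Q) {fam : P ⊕ Q → B → H}
    (hc : ∀ a a' b b', fam a b * fam a' b' = sgB K (β b && β b') • (fam a' b' * fam a b))
    (ε : P ⊕ Q → Bool) {l l' : List (P ⊕ Q)} (h : l.Perm l') :
    ∃ s : ℤ, (s = 1 ∨ s = -1) ∧ cls β x fam ε l = (s : K) • cls β x fam ε l' := by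
  obtain ⟨s, hs, h⟩ := LP_perm hc ε h
  refine ⟨s, hs, ?_⟩
  unfold cls
  rw [Finset.smul_sum]
  refine Finset.sum_congr rfl fun r _ => ?_
  split_ifs with hr
  · rw [h r hr, smul_comm]
  · rw [smul_zero]

lemma cls_add {P Q : Type} [Fintype P] [DecidableEq P] [Fintype Q] [DecidableEq Q]
    {β : B → Bool} (x y : Ten K B P Q) (fam : P ⊕ Q → B → H)
    (ε : P ⊕ Q → Bool) (l : List (P ⊕ Q)) :
    cls β (x + y) fam ε l = cls β x fam ε l + cls β y fam ε l := by
  unfold cls
  rw [← Finset.sum_add_distrib]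
  refine Finset.sum_congr rfl fun r _ => ?_
  split_ifs
  · simp [add_smul]
  · rw [add_zero]

lemma cls_smul {P Q : Type} [Fintype P] [DecidableEq P] [Fintype Q] [DecidableEq Q]
    {β : B → Bool} (c : K) (x : Ten K B P Q) (fam : P ⊕ Q → B → H)
    (ε : P ⊕ Q → Bool) (l : List (P ⊕ Q)) :
    cls β (c • x) fam ε l = c • cls β x fam ε l := by
  unfold cls
  rw [Finset.smul_sum]
  refine Finset.sum_congr rfl fun r _ => ?_
  split_ifs
  · rw [smul_smul]
    rfl
  · rw [smul_zero]

lemma cls_zero {P Q : Type} [Fintype P] [DecidableEq P] [Fintype Q] [DecidableEq Q]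
    {β : B → Bool} (fam : P ⊕ Q → B → H) (ε : P ⊕ Q → Bool) (l : List (P ⊕ Q)) :
    cls β (0 : Ten K B P Q) fam ε l = 0 := by
  have := cls_smul (β := β) (0 : K) (0 : Ten K B P Q) fam ε l
  rwa [zero_smul, zero_smul] at this

/-- renaming -/
lemma cls_trel {P Q P' Q' : Type} [Fintype P] [DecidableEq P] [Fintype Q] [DecidableEq Q]
    [Fintype P'] [DecidableEq P'] [Fintype Q'] [DecidableEq Q'] {β : B → Bool}
    (e : P ≃ P') (f : Q ≃ Q') (x : Ten K B P Q) (fam : P' ⊕ Q' → B → H) (ε : P' ⊕ Q' → Bool)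
    (l : List (P' ⊕ Q')) : cls β (trel e f x) fam ε l =
      cls β x (fun a => fam (Equiv.sumCongr e f a)) (fun a => ε (Equiv.sumCongr e f a))
        (l.map (Equiv.sumCongr e f).symm) := by
  classical
  unfold cls
  refine Fintype.sum_equiv (Equiv.arrowCongr (Equiv.sumCongr e f).symm (Equiv.refl B)) _ _
    fun r => ?_
  have h1 : Pat β ε r ↔ Pat β (fun a => ε (Equiv.sumCongr e f a))
      ((Equiv.arrowCongr (Equiv.sumCongr e f).symm (Equiv.refl B)) r) := by
    constructor
    · intro h a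
      exact h _
    · intro h a
      have := h ((Equiv.sumCongr e f).symm a)
      simpa [Equiv.arrowCongr] using this
  have h2 : LP fam r l = LP (fun a => fam (Equiv.sumCongr e f a))
      ((Equiv.arrowCongr (Equiv.sumCongr e f).symm (Equiv.refl B)) r)
      (l.map (Equiv.sumCongr e f).symm) := by
    unfold LP
    rw [List.map_map]
    congr 1
    refine List.map_congr_left fun a _ => ?_
    simp [Equiv.arrowCongr]
  rw [h2]
  by_cases h : Pat β ε r
  · rw [if_pos h, if_pos (h1.1 h)]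
    rfl
  · rw [if_neg h, if_neg (fun h' => h (h1.2 h'))]

/-- the legs of a product -/
def incl1 (P Q P' Q' : Type) : P ⊕ Q → (P ⊕ P') ⊕ (Q ⊕ Q') :=
  Sum.map Sum.inl Sum.inl

/-- the legs of a product -/
def incl2 (P Q P' Q' : Type) : P' ⊕ Q' → (P ⊕ P') ⊕ (Q ⊕ Q') :=
  Sum.map Sum.inr Sum.inr

/-- products -/
lemma cls_tmul {P Q P' Q' : Type} [Fintype P] [DecidableEq P] [Fintype Q] [DecidableEq Q]
    [Fintype P'] [DecidableEq P'] [Fintype Q'] [DecidableEq Q'] {β : B → Bool}
    (x : Ten K B P Q) (y : Ten K B P' Q') (fam : (P ⊕ P') ⊕ (Q ⊕ Q') → B → H)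
    (ε : (P ⊕ P') ⊕ (Q ⊕ Q') → Bool) (l : List (P ⊕ Q)) (l' : List (P' ⊕ Q')) :
    cls β (tmul x y) fam ε (l.map (incl1 P Q P' Q') ++ l'.map (incl2 P Q P' Q')) =
      cls β x (fun a => fam (incl1 P Q P' Q' a)) (fun a => ε (incl1 P Q P' Q' a)) l *
        cls β y (fun a => fam (incl2 P Q P' Q' a)) (fun a => ε (incl2 P Q P' Q' a)) l' := by
  classical
  unfold cls
  rw [Finset.sum_mul_sum, ← Fintype.sum_prod_type']
  set E : ((P ⊕ P') ⊕ (Q ⊕ Q') → B) ≃ ((P ⊕ Q → B) × (P' ⊕ Q' → B)) :=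
    { toFun := fun r => (fun a => r (incl1 P Q P' Q' a), fun a => r (incl2 P Q P' Q' a))
      invFun := fun z => Sum.elim (Sum.elim (fun p => z.1 (Sum.inl p)) (fun p => z.2 (Sum.inl p)))
        (Sum.elim (fun q => z.1 (Sum.inr q)) (fun q => z.2 (Sum.inr q)))
      left_inv := fun r => by
        funext a
        rcases a with (a | a) | (a | a) <;> rfl
      right_inv := fun z => by
        apply Prod.ext
        · funext a
          rcases a with a | a <;> rfl
        · funext a
          rcases a with a | a <;> rfl } with hE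
  refine Fintype.sum_equiv E _ _ fun r => ?_
  have h1 : Pat β ε r ↔ Pat β (fun a => ε (incl1 P Q P' Q' a)) (E r).1 ∧
      Pat β (fun a => ε (incl2 P Q P' Q' a)) (E r).2 := by
    constructor
    · intro h
      exact ⟨fun a => h _, fun a => h _⟩
    · rintro ⟨h, h'⟩ a
      rcases a with (a | a) | (a | a)
      · exact h (Sum.inl a)
      · exact h' (Sum.inl a)
      · exact h (Sum.inr a)
      · exact h' (Sum.inr a)
  by_cases h : Pat β ε r
  · have h2 := h1.1 h
    rw [if_pos h, if_pos h2.1, if_pos h2.2, LP_append, LP_map, LP_map, smul_mul_smul_comm]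
    rfl
  · rw [if_neg h]
    by_cases h3 : Pat β (fun a => ε (incl1 P Q P' Q' a)) (E r).1
    · rw [if_neg (fun h4 : Pat β (fun a => ε (incl2 P Q P' Q' a)) (E r).2 => h (h1.2 ⟨h3, h4⟩)),
        mul_zero]
    · rw [if_neg h3, zero_mul]

end LP

end Pool.Agent.Run7.h174
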