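import Mathlib

/-!
# A Laplace type lemma

A continuous function on a compact group is orthogonal to all powers of a matrix coefficient; if
the phase of the coefficient is small near its maximum, the function vanishes on the maximum.
-/

set_option autoImplicit false
set_option linter.unusedSectionVars false

open Finset MeasureTheory

namespace Pool.Agent.Run7.h174

lemma norm_pow_sub_pow_le {u v : ℂ} {r η : ℝ} (hv : ‖v‖ ≤ r) (hu : ‖u‖ ≤ r)
    (h : ‖u - v‖ ≤ η * r) (M : ℕ) : ‖u ^ M - v ^ M‖ ≤ M * η * r ^ M := by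
  have hr : 0 ≤ r := (norm_nonneg v).trans hv
  induction M with
  | zero => simp
  | succ M ih =>
    have e : u ^ (M + 1) - v ^ (M + 1) = u ^ M * (u - v) + (u ^ M - v ^ M) * v := by ring
    rw [e]
    refine (norm_add_le _ _).trans ?_
    rw [norm_mul, norm_mul, norm_pow]
    have h1 : ‖u‖ ^ M * ‖u - v‖ ≤ r ^ M * (η * r) :=
      mul_le_mul (pow_le_pow_left₀ (norm_nonneg _) hu M) h (norm_nonneg _) (by positivity)
    have h2 : ‖u ^ M - v ^ M‖ * ‖v‖ ≤ M * η * r ^ M * r :=
      mul_le_mul ih hv (norm_nonneg _) ((norm_nonneg _).trans ih)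
    have h3 : r ^ M * (η * r) + M * η * r ^ M * r = ((M + 1 : ℕ) : ℝ) * η * r ^ (M + 1) := by
      push_cast
      ring
    linarith

section laplace

variable {K : Type} [TopologicalSpace K] [CompactSpace K] [MeasurableSpace K] [BorelSpace K]
  {μ : Measure K} [IsFiniteMeasure μ]

lemma integrable_cont {E : Type*} [NormedAddCommGroup E] [SecondCountableTopology E]
    {f : K → E} (hf : Continuous f) : Integrable f μ := by
  obtain ⟨C, hC⟩ := (isCompact_range hf).isBounded.exists_norm_le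
  refine Integrable.of_bound (hf.stronglyMeasurable_of_hasCompactSupport ?_).aestronglyMeasurable C
    (Filter.Eventually.of_forall fun k => hC _ ⟨k, rfl⟩)
  exact HasCompactSupport.of_compactSpace f

/-- Polynomials in the coefficient. -/
lemma integral_poly {z ψ : K → ℂ} (hz : Continuous z) (hψ : Continuous ψ)
    (h1 : ∀ m : ℕ, ∫ k, z k ^ m * ψ k ∂μ = 0) (p : Polynomial ℂ) :
    ∫ k, p.eval (z k) * ψ k ∂μ = 0 := by
  have h2 : ∀ k, p.eval (z k) * ψ k = ∑ i ∈ Finset.range (p.natDegree + 1),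
      p.coeff i * (z k ^ i * ψ k) := by
    intro k
    rw [Polynomial.eval_eq_sum_range, Finset.sum_mul]
    exact Finset.sum_congr rfl fun i _ => by ring
  simp only [h2]
  rw [integral_finsetSum]
  · refine Finset.sum_eq_zero fun i _ => ?_
    rw [integral_const_mul, h1, mul_zero]
  · intro i _
    exact integrable_cont (continuous_const.mul ((hz.pow i).mul hψ))

/-- The resolvent. -/
lemma integral_resolvent {z ψ : K → ℂ} (hz : Continuous z) (hψ : Continuous ψ)
    (h1 : ∀ m : ℕ, ∫ k, z k ^ m * ψ k ∂μ = 0) {N : ℝ} (hN : ∀ k, ‖z k‖ ≤ N) {t : ℝ} (ht : 0 < t)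
    (hN0 : 0 ≤ N) (M : ℕ) : ∫ k, (((t + N : ℝ) : ℂ) - z k)⁻¹ ^ M * ψ k ∂μ = 0 := by
  set s : ℂ := ((t + N : ℝ) : ℂ) with hs
  have hsn : ‖s‖ = t + N := by
    rw [hs, Complex.norm_real, Real.norm_of_nonneg (by linarith)]
  have hs0 : s ≠ 0 := by
    rw [← norm_pos_iff, hsn]
    linarith
  -- geometric sums
  set P : ℕ → Polynomial ℂ := fun n => ∑ i ∈ Finset.range n, Polynomial.C (s⁻¹ ^ (i + 1)) *
    Polynomial.X ^ i with hP
  have hPe : ∀ n k, (P n).eval (z k) = ∑ i ∈ Finset.range n, s⁻¹ * (s⁻¹ * z k) ^ i := by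
    intro n k
    rw [hP, Polynomial.eval_finsetSum]
    refine Finset.sum_congr rfl fun i _ => ?_
    simp only [Polynomial.eval_mul, Polynomial.eval_C, Polynomial.eval_pow, Polynomial.eval_X]
    rw [mul_pow]
    ring
  have hq : ∀ k, ‖s⁻¹ * z k‖ ≤ N / (t + N) := by
    intro k
    rw [norm_mul, norm_inv, hsn, inv_mul_eq_div]
    exact div_le_div_of_nonneg_right (hN k) (by linarith)
  have hq1 : N / (t + N) < 1 := by
    rw [div_lt_one (by linarith)]
    linarith
  have hlim : ∀ k, Filter.Tendsto (fun n => (P n).eval (z k)) Filter.atTop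
      (nhds (s - z k)⁻¹) := by
    intro k
    have h3 : HasSum (fun i : ℕ => (s⁻¹ * z k) ^ i) (1 - s⁻¹ * z k)⁻¹ :=
      hasSum_geometric_of_norm_lt_one ((hq k).trans_lt hq1)
    have h4 := (h3.mul_left s⁻¹).tendsto_sum_nat
    simp only [hPe]
    convert h4 using 2
    rw [← mul_inv]
    congr 1
    field_simp
  have hbd : ∀ n k, ‖(P n).eval (z k)‖ ≤ t⁻¹ := by
    intro n k
    rw [hPe]
    refine (norm_sum_le _ _).trans ?_
    have h5 : ∀ i ∈ Finset.range n, ‖s⁻¹ * (s⁻¹ * z k) ^ i‖ ≤ (t + N)⁻¹ * (N / (t + N)) ^ i := by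
      intro i _
      rw [norm_mul, norm_pow, norm_inv, hsn]
      refine mul_le_mul_of_nonneg_left ?_ (by positivity)
      exact pow_le_pow_left₀ (norm_nonneg _) (hq k) i
    refine (Finset.sum_le_sum h5).trans ?_
    rw [← Finset.mul_sum]
    have h6 : ∑ i ∈ Finset.range n, (N / (t + N)) ^ i ≤ (1 - N / (t + N))⁻¹ :=
      (summable_geometric_of_lt_one (by positivity) hq1).sum_le_tsum _
        (fun i _ => by positivity) |>.trans (by rw [tsum_geometric_of_lt_one (by positivity) hq1])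
    calc (t + N)⁻¹ * ∑ i ∈ Finset.range n, (N / (t + N)) ^ i
        ≤ (t + N)⁻¹ * (1 - N / (t + N))⁻¹ := mul_le_mul_of_nonneg_left h6 (by positivity)
      _ = t⁻¹ := by
        rw [← mul_inv]
        congr 1
        have : t + N ≠ 0 := by linarith
        field_simp
        ring
  obtain ⟨Ψ, hΨ⟩ := (isCompact_range hψ).isBounded.exists_norm_le
  have h7 : ∀ n, ∫ k, (P n).eval (z k) ^ M * ψ k ∂μ = 0 := by
    intro n
    have := integral_poly hz hψ h1 (P n ^ M)
    simpa only [Polynomial.eval_pow] using this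
  have h8 := tendsto_integral_of_dominated_convergence (μ := μ)
    (F := fun n k => (P n).eval (z k) ^ M * ψ k) (f := fun k => (s - z k)⁻¹ ^ M * ψ k)
    (fun _ => t⁻¹ ^ M * Ψ) (fun n => by
      refine (integrable_cont ?_).aestronglyMeasurable
      exact (((P n).continuous.comp hz).pow M).mul hψ) (integrable_const _)
    (fun n => Filter.Eventually.of_forall fun k => by
      rw [norm_mul, norm_pow]
      exact mul_le_mul (pow_le_pow_left₀ (norm_nonneg _) (hbd n k) M) (hΨ _ ⟨k, rfl⟩)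
        (norm_nonneg _) (by positivity))
    (Filter.Eventually.of_forall fun k => ((hlim k).pow M).mul_const _)
  simp only [h7] at h8
  exact (tendsto_nhds_unique h8 tendsto_const_nhds)

/-- **The Laplace type lemma.** -/
theorem laplace {z ψ : K → ℂ} (hz : Continuous z) (hψ : Continuous ψ)
    (h1 : ∀ m : ℕ, ∫ k, z k ^ m * ψ k ∂μ = 0) {N : ℝ} (hN : ∀ k, ‖z k‖ ≤ N) (hN0 : 0 ≤ N) {c : ℂ}
    (h2 : ∀ η : ℝ, 0 < η → ∃ r > 0, ∀ k, N - (z k).re ≤ r →
      |(z k).im| ≤ η * (N - (z k).re) ∧ ‖ψ k - c‖ ≤ η)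
    {D : ℕ} {C : ℝ} (hC : 0 < C)
    (h3 : ∀ n : ℕ, 0 < n → ((n : ℝ) ^ D)⁻¹ ≤ μ.real {k | N - (z k).re ≤ C / (n : ℝ) ^ 2}) :
    c = 0 := by
  by_contra hc
  have hc0 : 0 < ‖c‖ := norm_pos_iff.2 hc
  set M : ℕ := D + 1 with hM
  set a : K → ℝ := fun k => N - (z k).re with ha
  have hacont : Continuous a := continuous_const.sub (Complex.continuous_re.comp hz)
  have ha0 : ∀ k, 0 ≤ a k := fun k => by
    have := (Complex.re_le_norm (z k)).trans (hN k)
    simp only [ha]
    linarith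
  set η : ℝ := min (‖c‖ / 4) (1 / (4 * M)) with hη
  have hM0 : (0 : ℝ) < M := by rw [hM]; positivity
  have hη0 : 0 < η := lt_min (by positivity) (by positivity)
  have hη1 : η ≤ ‖c‖ / 4 := min_le_left _ _
  have hη2 : M * η ≤ 1 / 4 := by
    have : η ≤ 1 / (4 * M) := min_le_right _ _
    calc (M : ℝ) * η ≤ M * (1 / (4 * M)) := mul_le_mul_of_nonneg_left this hM0.le
      _ = 1 / 4 := by field_simp
  obtain ⟨r, hr0, hr⟩ := h2 η hη0
  obtain ⟨Ψ, hΨ⟩ := (isCompact_range hψ).isBounded.exists_norm_le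
  have hΨ' : ∀ k, ‖ψ k‖ ≤ Ψ := fun k => hΨ _ ⟨k, rfl⟩
  set A : Set K := {k | a k ≤ r} with hA
  have hAm : MeasurableSet A := (isClosed_le hacont continuous_const).measurableSet
  -- the key estimate
  have key : ∀ t : ℝ, 0 < t → t ≤ r →
      ‖c‖ / 2 * ((2 * t)⁻¹ ^ M * μ.real {k | a k ≤ t}) ≤ μ.real Set.univ * (r⁻¹ ^ M * Ψ) := by
    intro t ht htr
    have hden : ∀ k, (((t + N : ℝ) : ℂ) - z k) = ((t + a k : ℝ) : ℂ) - (z k).im * Complex.I := by
      intro k
      apply Complex.ext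
      · simp [ha]
        ring
      · simp
    have hlow : ∀ k, t + a k ≤ ‖((t + N : ℝ) : ℂ) - z k‖ := by
      intro k
      refine le_trans (le_of_eq ?_) (Complex.re_le_norm _)
      simp [ha]
      ring
    have hpos : ∀ k, 0 < t + a k := fun k => by linarith [ha0 k]
    have hinv : ∀ k, ‖(((t + N : ℝ) : ℂ) - z k)⁻¹‖ ≤ (t + a k)⁻¹ := by
      intro k
      rw [norm_inv]
      exact inv_anti₀ (hpos k) (hlow k)
    have hcts : Continuous fun k => (((t + N : ℝ) : ℂ) - z k)⁻¹ ^ M * ψ k := by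
      refine ((continuous_const.sub hz).inv₀ ?_).pow M |>.mul hψ
      intro k h0
      have h0' : ((t + N : ℝ) : ℂ) - z k = 0 := h0
      have := hlow k
      rw [h0', norm_zero] at this
      linarith [hpos k]
    have hint := integrable_cont (μ := μ) hcts
    have h0 := integral_resolvent hz hψ h1 hN ht hN0 M
    have hsplit := integral_add_compl hAm hint
    rw [h0] at hsplit
    -- the far part
    have hfar : ‖∫ k in Aᶜ, (((t + N : ℝ) : ℂ) - z k)⁻¹ ^ M * ψ k ∂μ‖ ≤
        μ.real Set.univ * (r⁻¹ ^ M * Ψ) := by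
      have hΨ0 : 0 ≤ r⁻¹ ^ M * Ψ ∨ IsEmpty K := by
        rcases isEmpty_or_nonempty K with h | ⟨⟨k⟩⟩
        · exact Or.inr h
        · exact Or.inl (mul_nonneg (by positivity) ((norm_nonneg _).trans (hΨ' k)))
      rcases hΨ0 with hΨ0 | hE
      · refine (norm_setIntegral_le_of_norm_le_const (C := r⁻¹ ^ M * Ψ) (measure_lt_top _ _)
          ?_).trans ?_
        · intro k hk
          rw [norm_mul, norm_pow]
          have h5 : r < a k := not_le.1 hk
          refine mul_le_mul (pow_le_pow_left₀ (norm_nonneg _) ((hinv k).trans ?_) M) (hΨ' k)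
            (norm_nonneg _) (by positivity)
          exact inv_anti₀ hr0 (by linarith)
        · rw [mul_comm]
          exact mul_le_mul_of_nonneg_right (measureReal_mono (Set.subset_univ _)) hΨ0
      · have : μ = 0 := by
          ext s _
          rw [Set.eq_empty_of_isEmpty s]
          simp
        rw [this]
        simp
    -- the near part
    have hg : Continuous fun k => (((t + a k)⁻¹ ^ M : ℝ) : ℂ) := by
      refine Complex.continuous_ofReal.comp (((continuous_const.add hacont).inv₀ ?_).pow M)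
      intro k
      exact (hpos k).ne'
    have hgr : Continuous fun k => (t + a k)⁻¹ ^ M := by
      refine ((continuous_const.add hacont).inv₀ ?_).pow M
      intro k
      exact (hpos k).ne'
    have hnear : ∀ k ∈ A, ‖(((t + N : ℝ) : ℂ) - z k)⁻¹ ^ M * ψ k -
        c * (((t + a k)⁻¹ ^ M : ℝ) : ℂ)‖ ≤ ‖c‖ / 2 * (t + a k)⁻¹ ^ M := by
      intro k hk
      obtain ⟨h5, h6⟩ := hr k hk
      have h5' : |(z k).im| ≤ η * a k := h5
      set u : ℂ := (((t + N : ℝ) : ℂ) - z k)⁻¹ with hu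
      set v : ℂ := (((t + a k)⁻¹ : ℝ) : ℂ) with hv
      have hvn : ‖v‖ = (t + a k)⁻¹ := by
        rw [hv, Complex.norm_real, Real.norm_of_nonneg (inv_nonneg.2 (hpos k).le)]
      have hne : (((t + N : ℝ) : ℂ) - z k) ≠ 0 := by
        rw [← norm_pos_iff]
        exact (hpos k).trans_le (hlow k)
      have hne' : ((t + a k : ℝ) : ℂ) ≠ 0 := by
        exact_mod_cast (hpos k).ne'
      have huv : u - v = ((z k).im * Complex.I) * (u * v) := by
        rw [hu, hv, Complex.ofReal_inv]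
        rw [hden] at hne ⊢
        field_simp
        ring
      have huv' : ‖u - v‖ ≤ η * (t + a k)⁻¹ := by
        rw [huv, norm_mul, norm_mul, norm_mul, hvn, Complex.norm_I, mul_one, Complex.norm_real,
          Real.norm_eq_abs]
        have h7 : ‖u‖ ≤ (t + a k)⁻¹ := hinv k
        have h8 : |(z k).im| ≤ η * (t + a k) := by
          refine h5'.trans (mul_le_mul_of_nonneg_left (by linarith) hη0.le)
        calc |(z k).im| * (‖u‖ * (t + a k)⁻¹) ≤ (η * (t + a k)) * ((t + a k)⁻¹ * (t + a k)⁻¹) := by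
              refine mul_le_mul h8 (mul_le_mul_of_nonneg_right h7 (inv_nonneg.2 (hpos k).le))
                (mul_nonneg (norm_nonneg _) (inv_nonneg.2 (hpos k).le))
                (mul_nonneg hη0.le (hpos k).le)
          _ = η * (t + a k)⁻¹ := by
            have := (hpos k).ne'
            field_simp
      have h9 := norm_pow_sub_pow_le hvn.le (hinv k) huv' M
      have h10 : u ^ M * ψ k - c * (((t + a k)⁻¹ ^ M : ℝ) : ℂ) =
          u ^ M * (ψ k - c) + c * (u ^ M - v ^ M) := by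
        rw [hv]
        push_cast
        ring
      rw [h10]
      refine (norm_add_le _ _).trans ?_
      rw [norm_mul, norm_mul, norm_pow]
      have hp : 0 ≤ (t + a k)⁻¹ ^ M := by
        have := (hpos k).le
        positivity
      have h11 : ‖u‖ ^ M * ‖ψ k - c‖ ≤ (t + a k)⁻¹ ^ M * (‖c‖ / 4) :=
        mul_le_mul (pow_le_pow_left₀ (norm_nonneg _) (hinv k) M) (h6.trans hη1)
          (norm_nonneg _) hp
      have h12 : ‖c‖ * ‖u ^ M - v ^ M‖ ≤ ‖c‖ * (1 / 4 * (t + a k)⁻¹ ^ M) := by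
        refine mul_le_mul_of_nonneg_left (h9.trans ?_) hc0.le
        exact mul_le_mul_of_nonneg_right hη2 hp
      linarith
    have hi1 : IntegrableOn (fun k => (((t + N : ℝ) : ℂ) - z k)⁻¹ ^ M * ψ k) A μ :=
      hint.integrableOn
    have hi2 : IntegrableOn (fun k => c * (((t + a k)⁻¹ ^ M : ℝ) : ℂ)) A μ :=
      (integrable_cont (continuous_const.mul hg)).integrableOn
    have hi3 : IntegrableOn (fun k => (t + a k)⁻¹ ^ M) A μ :=
      (integrable_cont hgr).integrableOn
    have h13 : ‖(∫ k in A, (((t + N : ℝ) : ℂ) - z k)⁻¹ ^ M * ψ k ∂μ) -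
        ∫ k in A, c * (((t + a k)⁻¹ ^ M : ℝ) : ℂ) ∂μ‖ ≤
        ‖c‖ / 2 * ∫ k in A, (t + a k)⁻¹ ^ M ∂μ := by
      rw [← integral_sub hi1 hi2, ← integral_const_mul]
      refine norm_integral_le_of_norm_le (hi3.const_mul _) ?_
      exact (ae_restrict_mem hAm).mono hnear
    have h14 : ‖∫ k in A, c * (((t + a k)⁻¹ ^ M : ℝ) : ℂ) ∂μ‖ =
        ‖c‖ * ∫ k in A, (t + a k)⁻¹ ^ M ∂μ := by
      have h21 : ∫ k in A, (((t + a k)⁻¹ ^ M : ℝ) : ℂ) ∂μ =
          ((∫ k in A, (t + a k)⁻¹ ^ M ∂μ : ℝ) : ℂ) := integral_ofReal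
      rw [integral_const_mul, h21, norm_mul]
      congr 1
      rw [Complex.norm_real, Real.norm_of_nonneg]
      refine integral_nonneg fun k => ?_
      have := (hpos k).le
      positivity
    have h15 : (2 * t)⁻¹ ^ M * μ.real {k | a k ≤ t} ≤ ∫ k in A, (t + a k)⁻¹ ^ M ∂μ := by
      have hsub : {k | a k ≤ t} ⊆ A := fun k hk => le_trans hk htr
      have hm2 : MeasurableSet {k | a k ≤ t} := (isClosed_le hacont continuous_const).measurableSet
      calc (2 * t)⁻¹ ^ M * μ.real {k | a k ≤ t} = ∫ k in {k | a k ≤ t}, (2 * t)⁻¹ ^ M ∂μ := by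
            rw [setIntegral_const, smul_eq_mul, mul_comm]
        _ ≤ ∫ k in {k | a k ≤ t}, (t + a k)⁻¹ ^ M ∂μ := by
            refine setIntegral_mono_on (integrable_const _).integrableOn
              (hi3.mono_set hsub) hm2 fun k hk => ?_
            have h16 : a k ≤ t := hk
            refine pow_le_pow_left₀ (by positivity) (inv_anti₀ (hpos k) (by linarith)) M
        _ ≤ ∫ k in A, (t + a k)⁻¹ ^ M ∂μ := by
            refine setIntegral_mono_set hi3 (Filter.Eventually.of_forall fun k => ?_)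
              (Filter.Eventually.of_forall hsub)
            have := (hpos k).le
            simp only [Pi.zero_apply]
            positivity
    have h17 : ‖∫ k in A, (((t + N : ℝ) : ℂ) - z k)⁻¹ ^ M * ψ k ∂μ‖ ≤
        μ.real Set.univ * (r⁻¹ ^ M * Ψ) := by
      have h18 : ∫ k in A, (((t + N : ℝ) : ℂ) - z k)⁻¹ ^ M * ψ k ∂μ =
          -∫ k in Aᶜ, (((t + N : ℝ) : ℂ) - z k)⁻¹ ^ M * ψ k ∂μ :=
        eq_neg_of_add_eq_zero_left hsplit
      rw [h18, norm_neg]
      exact hfar
    have h19 : ‖∫ k in A, c * (((t + a k)⁻¹ ^ M : ℝ) : ℂ) ∂μ‖ -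
        ‖∫ k in A, (((t + N : ℝ) : ℂ) - z k)⁻¹ ^ M * ψ k ∂μ‖ ≤
        ‖(∫ k in A, (((t + N : ℝ) : ℂ) - z k)⁻¹ ^ M * ψ k ∂μ) -
        ∫ k in A, c * (((t + a k)⁻¹ ^ M : ℝ) : ℂ) ∂μ‖ := by
      rw [norm_sub_rev]
      exact norm_sub_norm_le _ _
    have h20 : ‖c‖ / 2 * ((2 * t)⁻¹ ^ M * μ.real {k | a k ≤ t}) ≤
        ‖c‖ / 2 * ∫ k in A, (t + a k)⁻¹ ^ M ∂μ :=
      mul_le_mul_of_nonneg_left h15 (by positivity)
    linarith
  -- growth
  set W : ℝ := μ.real Set.univ * (r⁻¹ ^ M * Ψ) with hW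
  obtain ⟨n, hn⟩ := exists_nat_gt (max 1 (max (C / r) (W * (2 * C) ^ M / (‖c‖ / 2))))
  have hn1 : (1 : ℝ) < n := (le_max_left _ _).trans_lt hn
  have hn2 : C / r < n := ((le_max_left _ _).trans (le_max_right _ _)).trans_lt hn
  have hn3 : W * (2 * C) ^ M / (‖c‖ / 2) < n :=
    ((le_max_right _ _).trans (le_max_right _ _)).trans_lt hn
  have hn0 : 0 < n := by
    have : (0 : ℝ) < n := by linarith
    exact_mod_cast this
  have hnr : (0 : ℝ) < n := by exact_mod_cast hn0
  have ht : (0 : ℝ) < C / (n : ℝ) ^ 2 := by positivity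
  have htr : C / (n : ℝ) ^ 2 ≤ r := by
    rw [div_le_iff₀ (by positivity)]
    have h4 : C < n * r := by rwa [div_lt_iff₀ hr0] at hn2
    have h5 : (n : ℝ) * r ≤ r * (n : ℝ) ^ 2 := by
      have : (n : ℝ) ≤ (n : ℝ) ^ 2 := by nlinarith
      nlinarith
    linarith
  have h6 := key _ ht htr
  have h7 := h3 n hn0
  have h8 : (2 * (C / (n : ℝ) ^ 2))⁻¹ ^ M * ((n : ℝ) ^ D)⁻¹ = ((2 * C) ^ M)⁻¹ * (n : ℝ) ^ (D + 2) := by
    have e1 : (2 * (C / (n : ℝ) ^ 2))⁻¹ = (2 * C)⁻¹ * (n : ℝ) ^ 2 := by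
      field_simp
    have e2 : ((n : ℝ) ^ 2) ^ M = (n : ℝ) ^ (D + 2) * (n : ℝ) ^ D := by
      rw [← pow_mul, ← pow_add]
      congr 1
      rw [hM]
      ring
    rw [e1, mul_pow, e2, inv_pow]
    have e3 : (n : ℝ) ^ D ≠ 0 := by positivity
    field_simp
  have h9 : ‖c‖ / 2 * (((2 * C) ^ M)⁻¹ * (n : ℝ) ^ (D + 2)) ≤ W := by
    rw [← h8]
    refine le_trans ?_ h6
    refine mul_le_mul_of_nonneg_left ?_ (by positivity)
    exact mul_le_mul_of_nonneg_left h7 (by positivity)
  have h10 : (n : ℝ) ≤ (n : ℝ) ^ (D + 2) := by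
    calc (n : ℝ) = (n : ℝ) ^ 1 := (pow_one _).symm
      _ ≤ (n : ℝ) ^ (D + 2) := pow_le_pow_right₀ hn1.le (by omega)
  have h11 : W * (2 * C) ^ M < (‖c‖ / 2) * n := by
    rwa [div_lt_iff₀ (by positivity), mul_comm (n : ℝ)] at hn3
  have h12 : ‖c‖ / 2 * n ≤ W * (2 * C) ^ M := by
    have h13 : ‖c‖ / 2 * (n : ℝ) ^ (D + 2) ≤ W * (2 * C) ^ M := by
      have h14 := mul_le_mul_of_nonneg_right h9 (by positivity : (0 : ℝ) ≤ (2 * C) ^ M)
      calc ‖c‖ / 2 * (n : ℝ) ^ (D + 2) =
          ‖c‖ / 2 * (((2 * C) ^ M)⁻¹ * (n : ℝ) ^ (D + 2)) * (2 * C) ^ M := by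
            have : (2 * C) ^ M ≠ 0 := by positivity
            field_simp
        _ ≤ _ := h14
    refine le_trans ?_ h13
    exact mul_le_mul_of_nonneg_left h10 (by positivity)
  linarith

end laplace

section volume

variable {K : Type} [Group K] [MeasurableSpace K] [MeasurableMul K] {μ : Measure K}
  [IsProbabilityMeasure μ] [μ.IsMulLeftInvariant]

/-- The volume of small neighbourhoods is bounded below by a power of the radius. -/
theorem volume_bound {I : Type} [Fintype I] [DecidableEq I] {a : K → ℝ} {g : I → K → ℝ} {R C : ℝ}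
    (hR : 0 ≤ R) (hg : ∀ i k, |g i k| ≤ R)
    (ha : ∀ δ : ℝ, 0 ≤ δ → ∀ k k' : K, (∀ i, |g i k - g i k'| ≤ δ) → a (k⁻¹ * k') ≤ C * δ ^ 2) :
    ∀ n : ℕ, 0 < n → ((n : ℝ) ^ Fintype.card I)⁻¹ ≤
      μ.real {k | a k ≤ (C * (2 * R + 1) ^ 2 + 1) / (n : ℝ) ^ 2} := by
  intro n hn
  have hnr : (0 : ℝ) < n := by exact_mod_cast hn
  have hS : (0 : ℝ) < 2 * R + 1 := by linarith
  -- the code
  have hcode : ∀ i k, ⌊(n : ℝ) * ((g i k + R) / (2 * R + 1))⌋₊ < n := by
    intro i k
    have h1 := abs_le.1 (hg i k)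
    have h2 : (g i k + R) / (2 * R + 1) < 1 := by
      rw [div_lt_one hS]
      linarith
    have h3 : 0 ≤ (g i k + R) / (2 * R + 1) := div_nonneg (by linarith) hS.le
    rw [Nat.floor_lt (by positivity)]
    nlinarith
  set code : K → I → Fin n := fun k i => ⟨_, hcode i k⟩ with hcd
  have hclose : ∀ k k', code k = code k' → ∀ i, |g i k - g i k'| ≤ (2 * R + 1) / n := by
    intro k k' h i
    have h1 : ⌊(n : ℝ) * ((g i k + R) / (2 * R + 1))⌋₊ =
        ⌊(n : ℝ) * ((g i k' + R) / (2 * R + 1))⌋₊ := congrArg Fin.val (congrFun h i)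
    have hx : 0 ≤ (n : ℝ) * ((g i k + R) / (2 * R + 1)) := by
      have h1 := abs_le.1 (hg i k)
      have h3 : 0 ≤ (g i k + R) / (2 * R + 1) := div_nonneg (by linarith) hS.le
      positivity
    have hy : 0 ≤ (n : ℝ) * ((g i k' + R) / (2 * R + 1)) := by
      have h1 := abs_le.1 (hg i k')
      have h3 : 0 ≤ (g i k' + R) / (2 * R + 1) := div_nonneg (by linarith) hS.le
      positivity
    have h2 := Nat.floor_le hx
    have h3 := Nat.lt_floor_add_one ((n : ℝ) * ((g i k + R) / (2 * R + 1)))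
    have h4 := Nat.floor_le hy
    have h5 := Nat.lt_floor_add_one ((n : ℝ) * ((g i k' + R) / (2 * R + 1)))
    rw [h1] at h2 h3
    have h6 : |(n : ℝ) * ((g i k + R) / (2 * R + 1)) - (n : ℝ) * ((g i k' + R) / (2 * R + 1))| ≤
        1 := by
      rw [abs_le]
      constructor <;> linarith
    have h7 : (n : ℝ) * ((g i k + R) / (2 * R + 1)) - (n : ℝ) * ((g i k' + R) / (2 * R + 1)) =
        (n / (2 * R + 1)) * (g i k - g i k') := by
      field_simp
      ring
    rw [h7, abs_mul, abs_of_pos (by positivity)] at h6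
    rw [le_div_iff₀ hnr]
    have h8 : (n : ℝ) / (2 * R + 1) * |g i k - g i k'| * (2 * R + 1) ≤ 1 * (2 * R + 1) :=
      mul_le_mul_of_nonneg_right h6 hS.le
    have h9 : (n : ℝ) / (2 * R + 1) * |g i k - g i k'| * (2 * R + 1) =
        |g i k - g i k'| * n := by
      field_simp
    linarith
  -- a code of large measure
  have hex : ∃ c : I → Fin n, ((n : ℝ) ^ Fintype.card I)⁻¹ ≤ μ.real (code ⁻¹' {c}) := by
    by_contra hcon
    push Not at hcon
    have h1 : μ.real Set.univ ≤ ∑ c : I → Fin n, μ.real (code ⁻¹' {c}) := by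
      have h2 : (Set.univ : Set K) = ⋃ c : I → Fin n, code ⁻¹' {c} := by
        ext k
        simp
      rw [h2]
      exact measureReal_iUnion_fintype_le _
    have h3 : ∑ c : I → Fin n, μ.real (code ⁻¹' {c}) <
        ∑ _c : I → Fin n, ((n : ℝ) ^ Fintype.card I)⁻¹ := by
      refine Finset.sum_lt_sum_of_nonempty ?_ fun c _ => hcon c
      exact ⟨fun _ => ⟨0, hn⟩, Finset.mem_univ _⟩
    rw [Finset.sum_const, Finset.card_univ, Fintype.card_fun, Fintype.card_fin, nsmul_eq_mul] at h3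
    push_cast at h3
    rw [mul_inv_cancel₀ (by positivity), probReal_univ] at *
    linarith
  obtain ⟨c, hc⟩ := hex
  have hpos : 0 < μ.real (code ⁻¹' {c}) := lt_of_lt_of_le (by positivity) hc
  have hne : (code ⁻¹' {c}).Nonempty := by
    by_contra h0
    rw [Set.not_nonempty_iff_eq_empty] at h0
    rw [h0, measureReal_empty] at hpos
    exact lt_irrefl _ hpos
  obtain ⟨k0, hk0⟩ := hne
  have hsub : code ⁻¹' {c} ⊆ (fun k => k0⁻¹ * k) ⁻¹'
      {k | a k ≤ (C * (2 * R + 1) ^ 2 + 1) / (n : ℝ) ^ 2} := by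
    intro k hk
    have h1 : code k0 = code k := by
      rw [Set.mem_preimage, Set.mem_singleton_iff] at hk hk0
      rw [hk, hk0]
    have h2 := ha ((2 * R + 1) / n) (by positivity) k0 k (hclose k0 k h1)
    change a (k0⁻¹ * k) ≤ _
    refine h2.trans ?_
    rw [div_pow, ← mul_div_assoc]
    exact div_le_div_of_nonneg_right (by linarith) (by positivity)
  refine hc.trans ((measureReal_mono hsub).trans (le_of_eq ?_))
  unfold Measure.real
  rw [measure_preimage_mul]

end volume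

end Pool.Agent.Run7.h174
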