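import Pool.Agent.Run7.h174.Gram

/-!
# Uniqueness of the Gram values of minimal tuples: the end of the proof
-/

set_option autoImplicit false
set_option linter.unusedSectionVars false

open Finset Matrix Function

universe u u'

namespace Pool.Agent.Run7.h174

section hT

variable {B : Type} [Fintype B] [DecidableEq B] {P Q : Type} [Fintype P] [DecidableEq P]
  [Fintype Q] [DecidableEq Q]

/-- the coordinates in euclidean space -/
def eu : Ten ℂ B P Q ≃ₗ[ℂ] EuclideanSpace ℂ ((P → B) × (Q → B)) where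
  toFun x := WithLp.toLp 2 fun z => x z.1 z.2
  invFun y := fun u v => y.ofLp (u, v)
  left_inv _ := rfl
  right_inv _ := rfl
  map_add' _ _ := rfl
  map_smul' _ _ := rfl

lemma inner_eu (x y : Ten ℂ B P Q) : inner ℂ (eu x) (eu y) = hT y x := by
  rw [PiLp.inner_apply, Fintype.sum_prod_type]
  rfl

lemma hT_zero_left (x : Ten ℂ B P Q) : hT 0 x = 0 := dotT_zero_left _

lemma hT_zero_right (x : Ten ℂ B P Q) : hT x 0 = 0 := by
  rw [← hT_conj, hT_zero_left, map_zero]

lemma hT_sum_left {ι : Type} (s : Finset ι) (x : ι → Ten ℂ B P Q) (y : Ten ℂ B P Q) :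
    hT (∑ i ∈ s, x i) y = ∑ i ∈ s, hT (x i) y := by
  classical
  induction s using Finset.induction_on with
  | empty => exact hT_zero_left y
  | insert i s hi ih => rw [Finset.sum_insert hi, Finset.sum_insert hi, hT_add_left, ih]

lemma hT_sum_right {ι : Type} (s : Finset ι) (x : ι → Ten ℂ B P Q) (y : Ten ℂ B P Q) :
    hT y (∑ i ∈ s, x i) = ∑ i ∈ s, hT y (x i) := by
  classical
  induction s using Finset.induction_on with
  | empty => exact hT_zero_right y
  | insert i s hi ih => rw [Finset.sum_insert hi, Finset.sum_insert hi, hT_add_right, ih]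

/-- orthogonal sums -/
lemma hT_orth {n : ℕ} {y : Fin n → Ten ℂ B P Q} (ho : ∀ i k, i ≠ k → hT (y i) (y k) = 0)
    (c d : Fin n → ℝ) : hT (∑ i, (c i : ℂ) • y i) (∑ i, (d i : ℂ) • y i) =
      ((∑ i, c i * d i * nT (y i) : ℝ) : ℂ) := by
  rw [hT_sum_left]
  push_cast
  refine Finset.sum_congr rfl fun i _ => ?_
  rw [hT_sum_right, Finset.sum_eq_single i]
  · rw [hT_smul_left, hT_smul_right, hT_self, Complex.conj_ofReal]
    ring
  · intro k _ hk
    rw [hT_smul_left, hT_smul_right, ho i k (Ne.symm hk)]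
    ring
  · intro h; exact absurd (Finset.mem_univ _) h

end hT

section decomp

variable {B : Type} [Fintype B] [DecidableEq B]
  {J : Type} [Fintype J] {A C : J → Type} [∀ j, Fintype (A j)] [∀ j, DecidableEq (A j)]
  [∀ j, Fintype (C j)] [∀ j, DecidableEq (C j)] {P Q : Type}
  [Fintype P] [DecidableEq P] [Fintype Q] [DecidableEq Q]
  {a w w' : ∀ j, Ten ℂ B (A j) (C j)}

lemma JJ_ext (hw : IsMin a w) (hw' : IsMin a w') {X Y : Ten (ℂ × ℂ) B P Q}
    (hX : X ∈ JJ w w' P Q) (hY : Y ∈ JJ w w' P Q) (h : p1 X = p1 Y) : X = Y := by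
  have hs : Same w w' := hw.1.trans hw'.1.symm
  have h1 := JJ_inj1 hs hw' (Submodule.sub_mem _ hX hY) (by rw [map_sub, h, sub_self])
  rw [map_sub, sub_eq_zero] at h1
  rw [← pr_p X, ← pr_p Y, h, h1]

/-- Decomposition into eigenvectors. -/
lemma decomp (hw : IsMin a w) (hw' : IsMin a w') {X : Ten (ℂ × ℂ) B P Q}
    (hX : X ∈ JJ w w' P Q) : ∃ (n : ℕ) (y : Fin n → Ten (ℂ × ℂ) B P Q) (lam : Fin n → ℝ),
      (∀ i, MX w w' (y i) ((lam i : ℂ) • p1 (y i))) ∧ ∑ i, y i = X ∧
      ∀ i k, i ≠ k → hT (p1 (y i)) (p1 (y k)) = 0 := by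
  have hs : Same w w' := hw.1.trans hw'.1.symm
  set V : Submodule ℂ (EuclideanSpace ℂ ((P → B) × (Q → B))) :=
    (Sp ℂ w P Q).map (eu (B := B) (P := P) (Q := Q)).toLinearMap with hV
  have hex : ∀ v : V, ∃ (Y : Ten (ℂ × ℂ) B P Q) (z : Ten ℂ B P Q), MX w w' Y z ∧
      z ∈ Sp ℂ w P Q ∧ eu (p1 Y) = v.1 := by
    rintro ⟨v, hv⟩
    obtain ⟨x, hx, rfl⟩ := hv
    have hx' := hx
    rw [← JJ_map1 (w' := w')] at hx'
    obtain ⟨Y, hY, hYx⟩ := hx'
    obtain ⟨z, hz, hYz⟩ := MX.ex hw hw' hY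
    exact ⟨Y, z, hYz, hz, by rw [hYx]; rfl⟩
  choose Y z hYz hz hYe using hex
  have hp1 : ∀ v : V, p1 (Y v) = eu.symm v.1 := fun v => by
    rw [← hYe v, LinearEquiv.symm_apply_apply]
  set M : V →ₗ[ℂ] V :=
    { toFun := fun v => ⟨eu (z v), Submodule.mem_map_of_mem (hz v)⟩
      map_add' := fun v v' => by
        apply Subtype.ext
        change eu (z (v + v')) = eu (z v) + eu (z v')
        rw [← map_add]
        congr 1
        refine MX.unique hw hw' (hYz (v + v')) ((hYz v).add (hYz v')) ?_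
        rw [map_add, hp1, hp1, hp1, ← map_add]
        rfl
      map_smul' := fun c v => by
        apply Subtype.ext
        change eu (z (c • v)) = c • eu (z v)
        rw [← map_smul]
        congr 1
        refine MX.unique hw hw' (hYz (c • v)) ((hYz v).smul c) ?_
        rw [map_smul, hp1, hp1, ← map_smul]
        rfl } with hM
  have hMs : ∀ v v' : V, inner ℂ (M v) v' = inner ℂ v (M v') := by
    intro v v'
    change inner ℂ (eu (z v)) v'.1 = inner ℂ v.1 (eu (z v'))
    rw [← hYe v, ← hYe v', inner_eu, inner_eu]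
    exact MX.symm hs (hYz v') (hYz v)
  have hXV : eu (p1 X) ∈ V := by
    refine Submodule.mem_map_of_mem ?_
    rw [← JJ_map1 (w' := w')]
    exact Submodule.mem_map_of_mem hX
  obtain ⟨n, y, lam, h1, h2, h3⟩ := spec V M hMs ⟨eu (p1 X), hXV⟩
  refine ⟨n, fun i => Y (y i), lam, fun i => ?_, ?_, fun i k hik => ?_⟩
  · have h4 : eu (z (y i)) = (lam i : ℂ) • (y i).1 := congrArg Subtype.val (h1 i)
    have h5 : z (y i) = (lam i : ℂ) • p1 (Y (y i)) := by
      rw [← hYe (y i), ← map_smul] at h4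
      exact eu.injective h4
    rw [← h5]
    exact hYz (y i)
  · refine JJ_ext hw hw' (Submodule.sum_mem _ fun i _ => (hYz (y i)).1) hX ?_
    have h4 := congrArg Subtype.val h2
    rw [Submodule.coe_sum] at h4
    apply eu.injective
    rw [map_sum, map_sum]
    refine Eq.trans (Finset.sum_congr rfl fun i _ => hYe (y i)) h4
  · have h4 : inner ℂ ((y k).1) ((y i).1) = 0 := h3 k i (Ne.symm hik)
    rw [← hYe, ← hYe, inner_eu] at h4
    exact h4

end decomp

section final

variable {B : Type} [Fintype B] [DecidableEq B]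
  {J : Type} [Fintype J] {A C : J → Type} [∀ j, Fintype (A j)] [∀ j, DecidableEq (A j)]
  [∀ j, Fintype (C j)] [∀ j, DecidableEq (C j)]
  {a w w' : ∀ j, Ten ℂ B (A j) (C j)}

/-- the predicate for the fourth root -/
def PrG (w w' : ∀ j, Ten ℂ B (A j) (C j)) (P Q : Type) (G : Ten (ℂ × ℂ) B P Q) : Prop :=
  ∃ (X : Ten (ℂ × ℂ) B P Q) (α : ℝ), 0 < α ∧ p1 X = p1 G ∧ MX w w' X ((α : ℂ) • p1 X) ∧
    p2 G = ((α ^ (1 / 4 : ℝ) : ℝ) : ℂ) • p1 G

lemma PrG_clo (hs : Same w w') : Clo1 (B := B) (R := ℂ × ℂ) (PrG w w') where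
  one := ⟨tone, 1, one_pos, rfl, by
    rw [Complex.ofReal_one, one_smul]
    exact MX.one hs, by
    rw [Real.one_rpow, Complex.ofReal_one, one_smul]
    rfl⟩
  id := ⟨tid, 1, one_pos, rfl, by
    rw [Complex.ofReal_one, one_smul, p1_tid]
    exact MX.id hs, by
    rw [Real.one_rpow, Complex.ofReal_one, one_smul, p1_tid, p2_tid]⟩
  mul := by
    rintro P Q P' Q' _ _ _ _ G H ⟨X, α, hα, h1, h2, h3⟩ ⟨Y, β, hβ, h4, h5, h6⟩
    refine ⟨tmul X Y, α * β, mul_pos hα hβ, by rw [p1_tmul, p1_tmul, h1, h4], ?_, ?_⟩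
    · have := h2.mul h5
      rw [smul_tmul', tmul_smul, smul_smul] at this
      rw [p1_tmul, Complex.ofReal_mul]
      exact this
    · rw [p2_tmul, p1_tmul, h3, h6, Real.mul_rpow hα.le hβ.le, smul_tmul', tmul_smul, smul_smul,
        Complex.ofReal_mul]
  rel := by
    rintro P Q P' Q' _ _ e f G ⟨X, α, hα, h1, h2, h3⟩
    refine ⟨trel e f X, α, hα, by rw [p1_trel, p1_trel, h1], h2.rel e f, ?_⟩
    rw [p2_trel, h3]
    rfl
  con := by
    rintro P Q _ _ G ⟨X, α, hα, h1, h2, h3⟩
    have h4 : ∀ (c : ℂ) (x : Ten ℂ B (Option P) (Option Q)), tcon (c • x) = c • tcon x :=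
      fun c x => (tconL (S := ℂ)).map_smul c x
    refine ⟨tcon X, α, hα, by rw [p1_tcon, p1_tcon, h1], ?_, ?_⟩
    · have := h2.con
      rw [h4] at this
      rw [p1_tcon]
      exact this
    · rw [p2_tcon, h3, h4, p1_tcon]

lemma PrG_diag (hs : Same w w') {G : Ten (ℂ × ℂ) B Empty Empty} (h : PrG w w' _ _ G) :
    p1 G = p2 G := by
  obtain ⟨X, α, hα, h1, h2, h3⟩ := h
  have h4 := MX.diag hs h2
  rw [h3]
  by_cases h0 : p1 X = 0
  · rw [← h1, h0, smul_zero]
  · have h5 : α = 1 := by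
      have h6 : ((α : ℂ) - 1) • p1 X = 0 := by rw [sub_smul, h4, one_smul, sub_self]
      rcases smul_eq_zero.1 h6 with h7 | h7
      · have h8 := sub_eq_zero.1 h7
        exact_mod_cast h8
      · exact absurd h7 h0
    rw [h5, Real.one_rpow, Complex.ofReal_one, one_smul]

lemma span_diag {S : Set (Ten (ℂ × ℂ) B Empty Empty)} (h : ∀ G ∈ S, p1 G = p2 G)
    {G : Ten (ℂ × ℂ) B Empty Empty} (hG : G ∈ Submodule.span ℂ S) : p1 G = p2 G := by
  induction hG using Submodule.span_induction with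
  | mem G hG => exact h G hG
  | zero => rw [map_zero, map_zero]
  | add x y _ _ hx hy => rw [map_add, map_add, hx, hy]
  | smul c x _ hx => rw [map_smul, map_smul, hx]

/-- **Uniqueness of the Gram values of minimal tuples.** -/
theorem gram_unique (hw : IsMin a w) (hw' : IsMin a w') {P Q : Type} [Fintype P] [DecidableEq P]
    [Fintype Q] [DecidableEq Q] (s t : Net A C P Q) :
    hT (ev w s) (ev w t) = hT (ev w' s) (ev w' t) := by
  classical
  have hs : Same w w' := hw.1.trans hw'.1.symm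
  have hN : nsq w = nsq w' := le_antisymm (hw.2 w' hw'.1) (hw'.2 w hw.1)
  -- the decomposition of the members of the tuple
  have hdec := fun j => decomp hw hw' (X := pr (w j) (w' j))
    (show pr (w j) (w' j) ∈ JJ w w' (A j) (C j) from gen_mem j)
  choose n y lam h1 h2 h3 using hdec
  have hlam0 : ∀ j i, 0 ≤ lam j i ∨ p1 (y j i) = 0 := by
    intro j i
    have h4 := MX.herm hs (h1 j i).1 (h1 j i)
    rw [hT_self, hT_smul_right, hT_self, Complex.conj_ofReal] at h4
    have h5 : nT (p2 (y j i)) = lam j i * nT (p1 (y j i)) := by exact_mod_cast h4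
    rcases (nT_nonneg (p1 (y j i))).eq_or_lt with h6 | h6
    · exact Or.inr (nT_eq_zero h6.symm)
    · left
      by_contra hneg
      push Not at hneg
      have : lam j i * nT (p1 (y j i)) < 0 := mul_neg_of_neg_of_pos hneg h6
      linarith [nT_nonneg (p2 (y j i))]
  have hlam : ∀ j i, 0 < lam j i ∨ p1 (y j i) = 0 := by
    intro j i
    rcases hlam0 j i with h4 | h4
    · rcases h4.eq_or_lt with h5 | h5
      · right
        have h6 := MX.herm hs (h1 j i).1 (h1 j i)
        rw [hT_self, ← h5, Complex.ofReal_zero, zero_smul, hT_zero_right] at h6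
        have h7 : p2 (y j i) = 0 := nT_eq_zero (by exact_mod_cast h6)
        exact JJ_inj2 hs hw (h1 j i).1 h7
      · exact Or.inl h5
    · exact Or.inr h4
  -- the new tuple
  set wm : ∀ j, Ten ℂ B (A j) (C j) := fun j =>
    ∑ i, (((lam j i) ^ (1 / 4 : ℝ) : ℝ) : ℂ) • p1 (y j i) with hwm
  have hsum : ∀ j, w j = ∑ i, p1 (y j i) := by
    intro j
    have := congrArg p1 (h2 j)
    rw [map_sum] at this
    exact this.symm
  have hmem : ∀ j, pr (w j) (wm j) ∈ Submodule.span ℂ {G | PrG w w' (A j) (C j) G} := by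
    intro j
    have h4 : pr (w j) (wm j) = ∑ i, pr (p1 (y j i))
        ((((lam j i) ^ (1 / 4 : ℝ) : ℝ) : ℂ) • p1 (y j i)) := by
      have h5 : ∀ X Y : Ten (ℂ × ℂ) B (A j) (C j), p1 X = p1 Y → p2 X = p2 Y → X = Y := by
        intro X Y hX hY
        rw [← pr_p X, ← pr_p Y, hX, hY]
      refine h5 _ _ ?_ ?_
      · rw [map_sum]
        exact hsum j
      · rw [map_sum]
        rfl
    rw [h4]
    refine Submodule.sum_mem _ fun i _ => ?_
    rcases hlam j i with h5 | h5
    · exact Submodule.subset_span ⟨y j i, lam j i, h5, rfl, h1 j i, rfl⟩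
    · rw [h5, smul_zero]
      have : (pr (0 : Ten ℂ B (A j) (C j)) 0) = 0 := rfl
      rw [this]
      exact Submodule.zero_mem _
  have hsame : Same wm w := by
    intro t
    have h4 := Clo1.ev (fun j => inferInstance) (fun j => inferInstance)
      (Clo1.span (S := ℂ) (PrG_clo hs)) (w := fun j => pr (w j) (wm j)) hmem t
    have h5 := span_diag (fun G hG => PrG_diag hs hG) h4
    rw [p1_ev, p2_ev] at h5
    unfold cv
    rw [h5]
  have hmin : nsq w ≤ nsq wm := hw.2 wm (hsame.trans hw.1)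
  -- the norms
  have e1 : ∀ j, nT (w j) = ∑ i, nT (p1 (y j i)) := by
    intro j
    have h4 := hT_orth (h3 j) (fun _ => 1) (fun _ => 1)
    simp only [Complex.ofReal_one, one_smul, one_mul] at h4
    rw [← hsum j, hT_self] at h4
    exact_mod_cast h4
  have e2 : ∀ j, nT (wm j) = ∑ i, Real.sqrt (lam j i) * nT (p1 (y j i)) := by
    intro j
    have h4 := hT_orth (h3 j) (fun i => (lam j i) ^ (1 / 4 : ℝ)) (fun i => (lam j i) ^ (1 / 4 : ℝ))
    have h5 : hT (wm j) (wm j) = _ := h4
    rw [hT_self] at h5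
    have h6 : nT (wm j) = ∑ i, (lam j i) ^ (1 / 4 : ℝ) * (lam j i) ^ (1 / 4 : ℝ) *
      nT (p1 (y j i)) := by exact_mod_cast h5
    rw [h6]
    refine Finset.sum_congr rfl fun i _ => ?_
    rcases hlam j i with h7 | h7
    · rw [← Real.rpow_add h7, Real.sqrt_eq_rpow]
      norm_num
    · rw [h7]
      have : nT (0 : Ten ℂ B (A j) (C j)) = 0 := by simp [nT]
      rw [this]
      ring
  have hMw : ∀ j, MX w w' (pr (w j) (w' j)) (∑ i, (lam j i : ℂ) • p1 (y j i)) := by
    intro j
    have := MX.sum Finset.univ fun i _ => h1 j i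
    rwa [h2 j] at this
  have e3 : ∀ j, nT (w' j) = ∑ i, lam j i * nT (p1 (y j i)) := by
    intro j
    have h4 := MX.herm hs (hMw j).1 (hMw j)
    rw [hT_self, p1_pr, p2_pr] at h4
    have h5 := hT_orth (h3 j) (fun _ => 1) (lam j)
    simp only [Complex.ofReal_one, one_smul, one_mul] at h5
    rw [← hsum j] at h5
    rw [h5] at h4
    exact_mod_cast h4
  have e4 : ∑ j, ∑ i, (Real.sqrt (lam j i) - 1) ^ 2 * nT (p1 (y j i)) =
      nsq w' + nsq w - 2 * nsq wm := by
    unfold nsq
    rw [Finset.mul_sum, ← Finset.sum_add_distrib, ← Finset.sum_sub_distrib]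
    refine Finset.sum_congr rfl fun j _ => ?_
    rw [e1, e2, e3, Finset.mul_sum, ← Finset.sum_add_distrib, ← Finset.sum_sub_distrib]
    refine Finset.sum_congr rfl fun i _ => ?_
    rcases hlam j i with h7 | h7
    · have h8 := Real.sq_sqrt h7.le
      have h9 : (Real.sqrt (lam j i) - 1) ^ 2 = lam j i - 2 * Real.sqrt (lam j i) + 1 := by
        linarith [sub_sq (Real.sqrt (lam j i)) 1]
      rw [h9]
      ring
    · rw [h7]
      have : nT (0 : Ten ℂ B (A j) (C j)) = 0 := by simp [nT]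
      rw [this]
      ring
  have hterm : ∀ j i, 0 ≤ (Real.sqrt (lam j i) - 1) ^ 2 * nT (p1 (y j i)) := fun j i =>
    mul_nonneg (sq_nonneg _) (nT_nonneg _)
  have e5 : ∀ j i, (Real.sqrt (lam j i) - 1) ^ 2 * nT (p1 (y j i)) = 0 := by
    have h4 : ∑ j, ∑ i, (Real.sqrt (lam j i) - 1) ^ 2 * nT (p1 (y j i)) = 0 := by
      refine le_antisymm ?_ (Finset.sum_nonneg fun j _ => Finset.sum_nonneg fun i _ => hterm j i)
      rw [e4]
      linarith
    intro j i
    have h5 := (Finset.sum_eq_zero_iff_of_nonneg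
      (fun j _ => Finset.sum_nonneg fun i _ => hterm j i)).1 h4 j (Finset.mem_univ j)
    exact (Finset.sum_eq_zero_iff_of_nonneg (fun i _ => hterm j i)).1 h5 i (Finset.mem_univ i)
  have e6 : ∀ j, (∑ i, (lam j i : ℂ) • p1 (y j i)) = w j := by
    intro j
    rw [hsum j]
    refine Finset.sum_congr rfl fun i _ => ?_
    rcases mul_eq_zero.1 (e5 j i) with h4 | h4
    · rcases hlam j i with h7 | h7
      · have h8 : Real.sqrt (lam j i) = 1 := by
          have := pow_eq_zero_iff (two_ne_zero) |>.1 h4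
          linarith
        have h9 : lam j i = 1 := by
          rw [← Real.sq_sqrt h7.le, h8, one_pow]
        rw [h9, Complex.ofReal_one, one_smul]
      · rw [h7, smul_zero]
    · rw [nT_eq_zero h4, smul_zero]
  have hall : ∀ {P Q : Type} (t : Net A C P Q), MX w w' (ev (fun j => pr (w j) (w' j)) t)
      (p1 (ev (fun j => pr (w j) (w' j)) t)) := by
    intro P Q t
    refine Clo1.ev (B := B) (R := ℂ × ℂ) (fun j => inferInstance) (fun j => inferInstance)
      (Pr := fun P Q X => MX w w' X (p1 X)) ⟨MX.one hs, ?_, ?_, ?_, ?_⟩ (fun j => ?_) t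
    · rw [p1_tid]
      exact MX.id hs
    · intro P Q P' Q' _ _ _ _ x y hx hy
      exact hx.mul hy
    · intro P Q P' Q' _ _ e f x hx
      exact hx.rel e f
    · intro P Q _ _ x hx
      rw [p1_tcon]
      exact hx.con
    · have := hMw j
      rwa [e6] at this
  have h4 := MX.herm hs (hall s).1 (hall t)
  rw [p1_ev, p1_ev, p2_ev, p2_ev] at h4
  exact h4.symm

end final

end Pool.Agent.Run7.h174
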