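import Pool.Agent.Run7.h174.Fam3

/-!
# The complex tuple of a complete family of algebraic classes on a power
-/

set_option autoImplicit false
set_option linter.unusedSectionVars false

open CategoryTheory AlgebraicGeometry Finset

universe u v

namespace Pool.Agent.Run7.h174

open Pool.Agent.H914 Pool.Agent.H914.VarClass Pool.Agent.H914.VarClass.Obj
  Pool.Agent.H914.WeilCohomology Pool.Agent.H281R3.HT Pool.Agent.W552 Pool.Agent.W539.Ker

variable {k : Type u} [Field k] {𝒱 : VarClass k} {ops : CycleOps 𝒱}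
  {W : WeilCohomology.{u, v} ops} {P : Polarized 𝒱}
  {f : Module.End W.K (W.H P.X)} {bX : HB W P.X}

/-- the numbers of the factors of the generators -/
def mI (n0 n : ℕ) {ι : Type} : Option (Option (Option (Option ι))) → ℕ
  | none => 1
  | some none => 0
  | some (some none) => n0
  | some (some (some none)) => n0
  | some (some (some (some _))) => n

/-- the generators -/
noncomputable def zI (n0 n : ℕ) {ι : Type} (c : W.H (NP ops P 1).X) (z0 v0 : W.H (NP ops P n0).X)
    (x : ι → W.H (NP ops P n).X) : ∀ i : Option (Option (Option (Option ι))),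
      W.H (NP ops P (mI n0 n i)).X
  | none => c
  | some none => (1 : W.H P.X)
  | some (some none) => z0
  | some (some (some none)) => v0
  | some (some (some (some s))) => x s

lemma sy_N (G : Gd W P.X P.D f) (m : ℕ) :
    Sy W (NP ops P m).X (NP ops P m).D (fN W P f m) := by
  induction m with
  | zero => exact G.sy
  | succ m ih => exact Sy.prod G.fr (fr_N G.fr m) G.sy ih

/-- The degree of the polarization is the value of the trace. -/
lemma tr_deg (hD : P.X.IsCyc 1 P.D) :
    W.tr P.X (W.cl P.X (divPow ops P.D P.X.dim P.X.V.fundCycle)) =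
      ((P.X.V.degCycle (divPow ops P.D P.X.dim P.X.V.fundCycle) : ℚ) : W.K) := by
  have h1 := divPow_mem (ops := ops) hD P.X.dim P.X.V.fundCycle_mem
  rw [zero_add] at h1
  exact W.tr_cl h1

lemma bf_one (F : Fr W P.X P.D f) : bf W P.X P.D f 1 1 =
    (((P.X.dim.factorial : ℚ)⁻¹ *
      P.X.V.degCycle (divPow ops P.D P.X.dim P.X.V.fundCycle) : ℚ) : W.K) := by
  have h0 : ((LinearMap.mulLeft W.K (W.cl P.X P.D)) ^ (P.X.dim - 2 * 0 + 1)) (1 : W.H P.X) = 0 := by
    have h1 := pow_L_mem (mulLeft_isHom F.hD) (alg_gr (alg_one (W := W) (X := P.X)))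
      (P.X.dim - 2 * 0 + 1)
    rw [W.gr_eq_bot P.X _ (by omega)] at h1
    exact (Submodule.mem_bot _).1 h1
  have h1 := bf_L_pow F (n := 0) (by omega) (x := (1 : W.H P.X))
    (alg_gr (alg_one (W := W) (X := P.X))) h0 (j := 0) (by omega) 1
  have h2 := tr_deg (ops := ops) (W := W) F.hD
  rw [cl_divPow, W.cl_fund] at h2
  rw [pow_zero, Module.End.one_apply] at h1
  simp only [Nat.factorial_zero, Nat.mul_zero, Nat.sub_zero, pow_zero, one_mul, Nat.cast_one,
    h2] at h1
  rw [h1, Rat.cast_mul]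

set_option maxHeartbeats 1000000 in
/-- **The complex tuple.** -/
theorem exists_abs (G : Gd W P.X P.D f) (bX : HB W P.X)
    (hdeg : 0 < P.X.V.degCycle (divPow ops P.D P.X.dim P.X.V.fundCycle)) (n0 n : ℕ)
    {z0 v0 : W.H (NP ops P n0).X} (hz0 : AS W _ z0) (hv0 : AS W _ v0) {q0 q1 : ℚ}
    (h0 : bf W (NP ops P n0).X (NP ops P n0).D (fN W P f n0) z0 z0 = q0)
    (h1 : bf W (NP ops P n0).X (NP ops P n0).D (fN W P f n0) z0 v0 = q1) :
    ∃ (I : Type) (_ : Fintype I) (m : I → ℕ) (i0 : I) (e0 : LI m i0 ≃ Option Unit)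
      (a : ∀ j, Ten ℂ (Fin bX.N) (UA (LI m) j) (LC (LI m) j)),
      (∀ t : Net (UA (LI m)) (LC (LI m)) Empty Empty, starRingEnd ℂ (cv a t) = cv a t) ∧
      Met e0 a ∧
      (∃ (ι : Type) (_ : Fintype ι) (_ : DecidableEq ι)
        (x : ι → Ten ℂ (Fin bX.N) (Fin (n + 1)) Empty) (c : ι → ℝ), OrF e0 a x c ∧
        (univ.filter fun i => 0 < c i).card = posT W (NP ops P n).X (NP ops P n).D ∧
        (univ.filter fun i => c i < 0).card = negT W (NP ops P n).X (NP ops P n).D) ∧
      (∃ η ∈ Sp ℝ a (Fin 1) Empty, 0 < (bw e0 a η η).re) ∧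
      ∃ ζ ∈ Sp ℝ a (Fin (n0 + 1)) Empty, bw e0 a ζ ζ = q0 ∧
        ∃ t : Net (UA (LI m)) (LC (LI m)) Empty (Fin (n0 + 1)), pairT ζ (ev a t) = q1 := by
  classical
  obtain ⟨e', he'⟩ := exists_dual bX
  have hd : IsDual bX e' := ⟨he'.1, he'.2.1, he'.2.2⟩
  obtain ⟨c, hc, hps⟩ := exists_psi G bX
  obtain ⟨ι, hι, hι', x, cf, hcf, hpos, hneg⟩ := exists_cf (fr_N G.fr (ops := ops) n) (sy_N G n)
  set m : Option (Option (Option (Option ι))) → ℕ := mI n0 n with hm
  set z := zI (W := W) (P := P) n0 n c z0 v0 x with hzdef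
  have hz : ∀ i, AS W _ (z i) := by
    rintro (_ | _ | _ | _ | s)
    · exact hc
    · exact AS.one (W := W) (X := P.X)
    · exact hz0
    · exact hv0
    · exact hcf.as s
  set e0 : LI m none ≃ Option Unit := eTwo with he0
  set w := tup bX f (psT bX c) m z with hw
  have h2 : psM e0 w = psT bX c := by
    ext b b'
    change tn bX 1 c (fun p : Fin 2 => oext b (fun _ => b') (eTwo p)) (fun e => Empty.elim e) =
      tn bX 1 c ![b, b'] (fun e => Empty.elim e)
    rw [eTwo_vec]
  have h3 : phM e0 w = phG bX f * psT bX c * (phG bX f).transpose := by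
    have h4 : phM e0 w = m2 (act (phG bX f) (psT bX c) (tn bX 1 c)) := by
      ext b b'
      change act (phG bX f) (psT bX c) (tn bX 1 c)
        (fun p : Fin 2 => oext b (fun _ => b') (eTwo p)) (fun e => Empty.elim e) = _
      rw [eTwo_vec]
      rfl
    rw [h4, m2_act]
    rfl
  have h3' : phM e0 w = phG bX f := by
    rw [h3, Matrix.mul_assoc, mul_eq_one_comm.1 hps, Matrix.mul_one]
  have hmet : Met e0 w := tup_met G e0 hz hps h2 h3
  obtain ⟨a, ha, hlink⟩ := exists_complex w hmet
  have hrat : ∀ t : Net (UA (LI m)) (LC (LI m)) Empty Empty, ∃ q : ℚ, cv w t = q :=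
    cv_rat G hd hz (psT bX c) ⟨_, AS.of ⟨_, divPow_mem (ops := ops) G.fr.hD P.X.dim
      P.X.V.fundCycle_mem, rfl⟩, _, hdeg.ne', tr_deg G.fr.hD⟩
  refine ⟨_, inferInstance, m, none, e0, a, fun t => ?_, ha, ?_, ?_, ?_⟩
  · obtain ⟨q, hq⟩ := hrat t
    rw [hlink t q hq]
    exact map_ratCast (starRingEnd ℂ) q
  · refine ⟨ι, hι, hι', _, _, orf_of_cf G hd hz h3' ha hlink hcf
      (fun s => Net.gen (some (some (some (some s))), false)) (fun s => nt_tn bX n (x s)), ?_, ?_⟩
    · rw [← hpos]
      congr 1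
      ext s
      simp
    · rw [← hneg]
      congr 1
      ext s
      simp
  · refine ⟨ev a (Net.gen (some none, false)), ev_mem _, ?_⟩
    have h4 := bw_link G.fr h3' hlink (n := 0) (Net.gen (some none, false))
      (Net.gen (some none, false)) (q := (P.X.dim.factorial : ℚ)⁻¹ *
      P.X.V.degCycle (divPow ops P.D P.X.dim P.X.V.fundCycle)) (by
        have e1 : nt (ops := ops) bX 0 (tn (ops := ops) bX 0 (1 : W.H P.X)) = (1 : W.H P.X) :=
          nt_tn bX 0 _
        exact (congrArg₂ (fun a b => bf W P.X P.D f a b) e1 e1).trans (bf_one G.fr))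
    have h6 : (0 : ℚ) < P.X.dim.factorial := by exact_mod_cast Nat.factorial_pos _
    refine lt_of_lt_of_eq (b := (((P.X.dim.factorial : ℚ)⁻¹ *
      P.X.V.degCycle (divPow ops P.D P.X.dim P.X.V.fundCycle) : ℚ) : ℝ)) ?_
      ((congrArg Complex.re h4).trans (Complex.ratCast_re _)).symm
    exact_mod_cast mul_pos (inv_pos.2 h6) hdeg
  · refine ⟨ev a (Net.gen (some (some none), false)), ev_mem _, ?_, ?_⟩
    · refine bw_link G.fr h3' hlink (n := n0) (Net.gen (some (some none), false))
        (Net.gen (some (some none), false)) (q := q0) ?_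
      change bf W _ _ _ (nt bX n0 (tn bX n0 z0)) (nt bX n0 (tn bX n0 z0)) = _
      rw [nt_tn]
      exact h0
    · obtain ⟨s, hs, hs'⟩ := exists_low2.{v} (B := Fin bX.N) e0
        (Net.gen (some (some (some none)), false) : Net (UA (LI m)) (LC (LI m)) (Fin (n0 + 1)) Empty)
      refine ⟨s, ?_⟩
      have h4 := bw_link G.fr h3' hlink (n := n0) (Net.gen (some (some none), false))
        (Net.gen (some (some (some none)), false)) (q := q1) (by
          change bf W _ _ _ (nt bX n0 (tn bX n0 z0)) (nt bX n0 (tn bX n0 v0)) = _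
          rw [nt_tn, nt_tn]
          exact h1)
      exact Eq.trans (congrArg (fun y : Ten ℂ (Fin bX.N) Empty (Fin (n0 + 1)) =>
        pairT (ev a (Net.gen (some (some none), false)) :
          Ten ℂ (Fin bX.N) (Fin (n0 + 1)) Empty) y) (hs' a)) h4

end Pool.Agent.Run7.h174
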