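import Pool.Agent.Run7.h174.Main1

/-!
# The numbers of positive and of negative squares on the powers of a variety
-/

set_option autoImplicit false
set_option linter.unusedSectionVars false

open CategoryTheory AlgebraicGeometry Finset

universe u v

namespace Pool.Agent.Run7.h174

open Pool.Agent.H914 Pool.Agent.H914.VarClass Pool.Agent.H914.VarClass.Obj
  Pool.Agent.H914.WeilCohomology Pool.Agent.H281R3.HT Pool.Agent.W552 Pool.Agent.W539.Ker

variable {k : Type u} [Field k] {𝒱 : VarClass k} {ops : CycleOps 𝒱}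
  {W : WeilCohomology.{u, v} ops} {P : Polarized 𝒱}

lemma HB.N_eq {X : 𝒱.Obj} (bX : HB W X) : bX.N = Module.finrank W.K (W.H X) := by
  rw [Module.finrank_eq_card_basis bX.e, Fintype.card_fin]

lemma card_split {ι : Type} [Fintype ι] [DecidableEq ι] {c : ι → ℝ} (hc : ∀ s, c s ≠ 0) :
    Fintype.card ι = (univ.filter fun i => 0 < c i).card +
      (univ.filter fun i => c i < 0).card := by
  rw [← Finset.card_univ, ← Finset.card_filter_add_card_filter_not (s := univ) (fun i => 0 < c i)]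
  congr 2
  ext i
  simp only [Finset.mem_filter, Finset.mem_univ, true_and, not_lt]
  exact ⟨fun h => lt_of_le_of_ne h (hc i), fun h => h.le⟩

/-- **The number of the algebraic classes on the powers, up to numerical equivalence.** -/
theorem rank_main (hD : P.X.IsCyc 1 P.D) (hHL : HardLefschetz W P.X P.D)
    (hB : LefschetzB W P.X P.D)
    (hdeg : 0 < P.X.V.degCycle (divPow ops P.D P.X.dim P.X.V.fundCycle)) (n : ℕ) :
    (Module.finrank W.K (W.H P.X) : ℝ) ^ (n + 1) ≤ 2 * (Module.finrank W.K (W.H P.X) : ℝ) *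
      (2 * (9 * (Module.finrank W.K (W.H P.X) : ℝ) ^ 2 + 1) * (n + 1)) ^
        (2 * Module.finrank W.K (W.H P.X) ^ 2) *
      (posT W (NP ops P n).X (NP ops P n).D + negT W (NP ops P n).X (NP ops P n).D) := by
  obtain ⟨f, G⟩ := exists_gd hD hHL hB
  obtain ⟨bX⟩ := exists_HB W P.X
  have hone := bf_one (ops := ops) G.fr
  obtain ⟨I, hI, m, i0, e0, a, hr, ha, ⟨ι, hι, hι', x, c, h, hpos, hneg⟩, ⟨η, hη, hη0⟩, _⟩ :=
    exists_abs G bX hdeg 0 n (AS.one (W := W) (X := P.X)) (AS.one (W := W) (X := P.X)) hone hone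
  have h1 := rank_bound hr ha (Nat.succ_pos n) h hη hη0
  rw [card_split h.ne, hpos, hneg] at h1
  have h2 : dE (Fin bX.N) = 2 * bX.N ^ 2 := by
    unfold dE
    rw [Fintype.card_prod, Fintype.card_prod, Fintype.card_fin, Fintype.card_bool]
    ring
  rw [h2] at h1
  unfold dC at h1
  rw [Fintype.card_fin, HB.N_eq bX] at h1
  push_cast at h1
  exact h1

/-- **The signature on the powers of a variety with a primitive class of the wrong sign.** -/
theorem sig_main (hD : P.X.IsCyc 1 P.D) (hHL : HardLefschetz W P.X P.D)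
    (hB : LefschetzB W P.X P.D)
    (hdeg : 0 < P.X.V.degCycle (divPow ops P.D P.X.dim P.X.V.fundCycle)) (n0 : ℕ) {j : ℕ}
    (hj : 2 * j ≤ (NP ops P n0).X.dim) {z : (NP ops P n0).X.Cycles}
    (hz : Primitive W (NP ops P n0).X (NP ops P n0).D j z)
    (hw : ∃ w, (NP ops P n0).X.IsCyc ((NP ops P n0).X.dim - j) w ∧
      (NP ops P n0).X.V.degCycle (ops.mul z w) ≠ 0)
    (hneg0 : pairing ops (NP ops P n0).X (NP ops P n0).D j z z ≤ 0) (n : ℕ) :
    |(posT W (NP ops P n).X (NP ops P n).D : ℝ) - negT W (NP ops P n).X (NP ops P n).D| ≤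
      ((Module.finrank W.K (W.H P.X) : ℝ) - 2 / (((n0 : ℝ) + 1) ^ 2 *
        (1 + Real.sqrt (Module.finrank W.K (W.H P.X))) ^ 2)) ^ (n + 1) := by
  obtain ⟨f, G⟩ := exists_gd hD hHL hB
  obtain ⟨bX⟩ := exists_HB W P.X
  obtain ⟨w, hwm, hdw⟩ := hw
  have F := fr_N G.fr (ops := ops) n0
  obtain ⟨v, hv, hvw⟩ := F.lefschetzA j hj w hwm
  have hfac : (0 : ℚ) < ((NP ops P n0).X.dim - 2 * j).factorial := by
    exact_mod_cast Nat.factorial_pos _
  have h0 : bf W (NP ops P n0).X (NP ops P n0).D (fN W P f n0) (W.cl _ z) (W.cl _ z) =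
      ((((NP ops P n0).X.dim - 2 * j).factorial : ℚ)⁻¹ *
        pairing ops (NP ops P n0).X (NP ops P n0).D j z z : ℚ) := by
    rw [F.form_prim hj hz.1 hz.2]
    congr 1
    unfold pairing
    ring
  have hp : ((LinearMap.mulLeft W.K (W.cl (NP ops P n0).X (NP ops P n0).D)) ^
      ((NP ops P n0).X.dim - 2 * j + 1)) (W.cl _ z) = 0 := by
    rw [← cl_divPow]
    exact hz.2
  have h1 : bf W (NP ops P n0).X (NP ops P n0).D (fN W P f n0) (W.cl _ z) (W.cl _ v) =
      ((((NP ops P n0).X.dim - 2 * j).factorial : ℚ)⁻¹ * ((-1) ^ j *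
        (NP ops P n0).X.V.degCycle (ops.mul z w)) : ℚ) := by
    rw [bf_symm_AS (sy_N G n0) (AS.of ⟨v, hv, rfl⟩)]
    have h2 := bf_L_pow F hj (W.cl_mem hz.1) hp (j := 0) (Nat.zero_le _) (W.cl _ v)
    rw [pow_zero, Module.End.one_apply] at h2
    have h3 : W.tr (NP ops P n0).X (W.cl _ v *
        ((LinearMap.mulLeft W.K (W.cl (NP ops P n0).X (NP ops P n0).D)) ^
        ((NP ops P n0).X.dim - 2 * j - 0)) (W.cl _ z)) =
        (((NP ops P n0).X.V.degCycle (ops.mul z w) : ℚ) : W.K) := by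
      rw [Nat.sub_zero, ← L_pow_self F.hD, ← cl_divPow, hvw, W.even_comm (W.cl_mem hwm),
        ← W.cl_mul, W.tr_cl]
      have h4 := ops.mul_mem hz.1 hwm
      rwa [show j + ((NP ops P n0).X.dim - j) = (NP ops P n0).X.dim by omega] at h4
    rw [h2, h3]
    push_cast
    simp
  obtain ⟨I, hI, m, i0, e0, a, hr, ha, ⟨ι, hι, hι', x, c, h, hpos, hneg⟩, ⟨η, hη, hη0⟩,
    ζ, hζ, hζ0, t, ht⟩ :=
    exists_abs G bX hdeg n0 n (AS.of ⟨z, hz.1, rfl⟩) (AS.of ⟨v, hv, rfl⟩) h0 h1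
  have h5 := sig_bound hr ha h hη hη0 (Nat.succ_pos n0) hζ (by
      rw [hζ0, Complex.ratCast_re]
      exact_mod_cast mul_nonpos_of_nonneg_of_nonpos (inv_pos.2 hfac).le hneg0) ⟨t, by
      rw [ht]
      have h6 : (((NP ops P n0).X.dim - 2 * j).factorial : ℚ)⁻¹ * ((-1) ^ j *
        (NP ops P n0).X.V.degCycle (ops.mul z w)) ≠ 0 :=
        mul_ne_zero (inv_pos.2 hfac).ne' (mul_ne_zero (pow_ne_zero _ (by norm_num)) hdw)
      exact_mod_cast h6⟩
  rw [hpos, hneg, Fintype.card_fin, HB.N_eq bX] at h5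
  push_cast at h5
  exact h5

end Pool.Agent.Run7.h174
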