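import Pool.Agent.Run7.h174.Main2
import Pool.Agent.Run7.h174.HDefs

/-!
# No negative square on any power, or asymptotically half of the squares are negative
-/

set_option autoImplicit false
set_option linter.unusedSectionVars false

open CategoryTheory AlgebraicGeometry Finset Filter Topology

universe u v

namespace Pool.Agent.Run7.h174

open Pool.Agent.H914 Pool.Agent.H914.VarClass Pool.Agent.H914.VarClass.Obj
  Pool.Agent.H914.WeilCohomology Pool.Agent.H281R3.HT Pool.Agent.W552 Pool.Agent.W539.Ker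

/-- An elementary limit. -/
lemma tendsto_half {b : ℕ} {δ : ℝ} (hb : 0 < b) (hδ : 0 < δ) (hδb : δ ≤ b) {p q : ℕ → ℕ}
    (h1 : ∀ n, (b : ℝ) ^ (n + 1) ≤ 2 * (b : ℝ) *
      (2 * (9 * (b : ℝ) ^ 2 + 1) * (n + 1)) ^ (2 * b ^ 2) * (p n + q n))
    (h2 : ∀ n, |(p n : ℝ) - q n| ≤ ((b : ℝ) - δ) ^ (n + 1)) :
    Tendsto (fun n => (q n : ℝ) / (p n + q n)) atTop (𝓝 (1 / 2)) := by
  have hb' : (0 : ℝ) < b := by exact_mod_cast hb
  set r : ℝ := (b - δ) / b with hr
  have hr0 : 0 ≤ r := div_nonneg (by linarith) hb'.le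
  have hr1 : r < 1 := by
    rw [hr, div_lt_one hb']
    linarith
  set A : ℝ := b * (2 * (9 * (b : ℝ) ^ 2 + 1)) ^ (2 * b ^ 2) with hA
  have hkey : ∀ n, |(q n : ℝ) / (p n + q n) - 1 / 2| ≤
      A * (((n + 1 : ℕ) : ℝ) ^ (2 * b ^ 2) * r ^ (n + 1)) := by
    intro n
    have hC : 0 < 2 * (b : ℝ) * (2 * (9 * (b : ℝ) ^ 2 + 1) * (n + 1)) ^ (2 * b ^ 2) := by positivity
    have hS : (0 : ℝ) < p n + q n := by
      have h3 := h1 n
      have h4 : (0 : ℝ) < (b : ℝ) ^ (n + 1) := by positivity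
      by_contra hcon
      have h5 : (p n : ℝ) + q n ≤ 0 := not_lt.1 hcon
      have := mul_nonpos_of_nonneg_of_nonpos hC.le h5
      linarith
    have e1 : (q n : ℝ) / (p n + q n) - 1 / 2 = -((p n : ℝ) - q n) / (2 * (p n + q n)) := by
      field_simp
      ring
    rw [e1, abs_div, abs_neg, abs_of_pos (by positivity : (0 : ℝ) < 2 * (p n + q n)),
      div_le_iff₀ (by positivity)]
    have e2 : ((b : ℝ) - δ) ^ (n + 1) = r ^ (n + 1) * (b : ℝ) ^ (n + 1) := by
      rw [← mul_pow, hr, div_mul_cancel₀ _ hb'.ne']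
    calc |(p n : ℝ) - q n| ≤ r ^ (n + 1) * (b : ℝ) ^ (n + 1) := by rw [← e2]; exact h2 n
      _ ≤ r ^ (n + 1) * (2 * (b : ℝ) *
          (2 * (9 * (b : ℝ) ^ 2 + 1) * (n + 1)) ^ (2 * b ^ 2) * (p n + q n)) :=
        mul_le_mul_of_nonneg_left (h1 n) (pow_nonneg hr0 _)
      _ = A * (((n + 1 : ℕ) : ℝ) ^ (2 * b ^ 2) * r ^ (n + 1)) * (2 * (p n + q n)) := by
        rw [hA, mul_pow]
        push_cast
        ring
  have hlim : Tendsto (fun n : ℕ => A * (((n + 1 : ℕ) : ℝ) ^ (2 * b ^ 2) * r ^ (n + 1))) atTop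
      (𝓝 0) := by
    have h3 := tendsto_pow_const_mul_const_pow_of_abs_lt_one (2 * b ^ 2)
      (r := r) (by rwa [abs_of_nonneg hr0])
    have h4 := (h3.comp (tendsto_add_atTop_nat 1)).const_mul A
    rw [mul_zero] at h4
    exact h4
  rw [tendsto_iff_norm_sub_tendsto_zero]
  exact squeeze_zero (fun n => norm_nonneg _) (fun n => by rw [Real.norm_eq_abs]; exact hkey n) hlim

variable {k : Type u} [Field k] {𝒱 : VarClass k} {ops : CycleOps 𝒱}
  {W : WeilCohomology.{u, v} ops} {P : Polarized 𝒱}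

/-- No negative squares. -/
lemma negT_eq_zero {X : 𝒱.Obj} {D : X.Cycles} (hD : X.IsCyc 1 D) (h : HodgeNum W X D) :
    negT W X D = 0 := by
  refine Finset.sum_eq_zero fun n hn => ?_
  rw [Finset.mem_range] at hn
  have h1 : {r | HasFamily W X D n (-1) r} ⊆ {0} := by
    rintro r ⟨z, hz, hneg, _⟩
    rw [Set.mem_singleton_iff]
    by_contra hr
    have h2 := hneg ⟨0, Nat.pos_of_ne_zero hr⟩
    set z0 := z ⟨0, Nat.pos_of_ne_zero hr⟩ with hz0
    have h3 : pairing ops X D n z0 z0 < 0 := by linarith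
    have h4 := h n (by omega) z0 (hz _) ⟨divPow ops D (X.dim - 2 * n) z0, ?_, ?_⟩
    · linarith
    · have := divPow_mem (ops := ops) hD (X.dim - 2 * n) (hz ⟨0, Nat.pos_of_ne_zero hr⟩).1
      rwa [show n + (X.dim - 2 * n) = X.dim - n by omega] at this
    · intro h5
      unfold pairing at h3
      rw [h5, mul_zero] at h3
      exact lt_irrefl _ h3
  have h2 : negN W X D n = 0 := by
    unfold negN
    rcases Set.subset_singleton_iff_eq.1 h1 with h3 | h3
    · rw [h3]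
      exact csSup_empty
    · rw [h3]
      exact csSup_singleton 0
  rw [h2, mul_zero]

lemma betti_pos (hD : P.X.IsCyc 1 P.D)
    (hdeg : 0 < P.X.V.degCycle (divPow ops P.D P.X.dim P.X.V.fundCycle)) :
    0 < totalBetti W P.X := by
  unfold totalBetti
  rw [Module.finrank_pos_iff_exists_ne_zero]
  refine ⟨W.cl P.X (divPow ops P.D P.X.dim P.X.V.fundCycle), fun h => ?_⟩
  have h1 := tr_deg (ops := ops) (W := W) hD
  rw [h, map_zero] at h1
  have h2 : P.X.V.degCycle (divPow ops P.D P.X.dim P.X.V.fundCycle) = 0 := by exact_mod_cast h1.symm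
  exact hdeg.ne' h2

/-- **The dichotomy.** -/
theorem dichotomy (hD : P.X.IsCyc 1 P.D) (hHL : HardLefschetz W P.X P.D)
    (hB : LefschetzB W P.X P.D)
    (hdeg : 0 < P.X.V.degCycle (divPow ops P.D P.X.dim P.X.V.fundCycle)) :
    (∀ n, HodgeNum W (pw ops P n).X (pw ops P n).D ∧ negT W (pw ops P n).X (pw ops P n).D = 0) ∨
      Tendsto (fun n => (negT W (pw ops P n).X (pw ops P n).D : ℝ) /
        (posT W (pw ops P n).X (pw ops P n).D + negT W (pw ops P n).X (pw ops P n).D)) atTop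
          (𝓝 (1 / 2)) := by
  by_cases hall : ∀ n, HodgeNum W (pw ops P n).X (pw ops P n).D
  · left
    obtain ⟨f, G⟩ := exists_gd hD hHL hB
    exact fun n => ⟨hall n, negT_eq_zero (fr_N G.fr (ops := ops) n).hD (hall n)⟩
  · right
    push Not at hall
    obtain ⟨n0, hn0⟩ := hall
    unfold HodgeNum at hn0
    push Not at hn0
    obtain ⟨j, hj, z, hz, hw, hneg⟩ := hn0
    have hb := betti_pos (W := W) hD hdeg
    unfold totalBetti at hb
    have hb1 : (1 : ℝ) ≤ Module.finrank W.K (W.H P.X) := by exact_mod_cast hb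
    refine tendsto_half (b := Module.finrank W.K (W.H P.X)) (δ := 2 / (((n0 : ℝ) + 1) ^ 2 *
        (1 + Real.sqrt (Module.finrank W.K (W.H P.X))) ^ 2)) hb (by positivity) ?_
      (fun n => rank_main hD hHL hB hdeg n)
      (fun n => sig_main hD hHL hB hdeg n0 hj hz hw hneg n)
    rw [div_le_iff₀ (by positivity)]
    have h1 : (1 : ℝ) ≤ Real.sqrt (Module.finrank W.K (W.H P.X)) := Real.one_le_sqrt.2 hb1
    have h2 : (1 : ℝ) ≤ ((n0 : ℝ) + 1) ^ 2 := by
      have : (0 : ℝ) ≤ n0 := Nat.cast_nonneg _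
      nlinarith
    have h3 : (4 : ℝ) ≤ (1 + Real.sqrt (Module.finrank W.K (W.H P.X))) ^ 2 := by nlinarith
    nlinarith [mul_le_mul h2 h3 (by norm_num) (by positivity),
      mul_le_mul hb1 (mul_le_mul h2 h3 (by norm_num) (by positivity)) (by norm_num)
        (by positivity)]

end Pool.Agent.Run7.h174
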