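import Pool.Agent.Run7.h174.Inner

/-!
# Tuples of tensors of minimal norm with given values of the closed networks
-/

set_option autoImplicit false
set_option linter.unusedSectionVars false

open Finset Matrix

universe u u'

namespace Pool.Agent.Run7.h174

variable {J : Type} [Fintype J] {A C : J → Type} [∀ j, Fintype (A j)] [∀ j, DecidableEq (A j)]
  [∀ j, Fintype (C j)] [∀ j, DecidableEq (C j)] {B : Type} [Fintype B] [DecidableEq B]

/-- The square of the norm of a tuple. -/
noncomputable def nsq (w : ∀ j, Ten ℂ B (A j) (C j)) : ℝ := ∑ j, nT (w j)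

/-- The tuples have the same values of all closed networks. -/
def Same (w a : ∀ j, Ten ℂ B (A j) (C j)) : Prop := ∀ t : Net A C Empty Empty, cv w t = cv a t

/-- The tuple `w` has minimal norm under all tuples with the same values of the closed networks
as `a`. -/
def IsMin (a w : ∀ j, Ten ℂ B (A j) (C j)) : Prop := Same w a ∧ ∀ w', Same w' a → nsq w ≤ nsq w'

lemma continuous_ev {P Q : Type} (t : Net A C P Q) :
    Continuous fun w : ∀ j, Ten ℂ B (A j) (C j) => ev w t := by
  induction t with
  | one => exact continuous_const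
  | id => exact continuous_const
  | gen j => exact continuous_apply j
  | mul s t ihs iht =>
    refine continuous_pi fun u => continuous_pi fun v => ?_
    change Continuous fun w => ev w s _ _ * ev w t _ _
    exact ((continuous_apply_apply _ _).comp ihs).mul ((continuous_apply_apply _ _).comp iht)
  | rel e f t ih =>
    refine continuous_pi fun u => continuous_pi fun v => ?_
    change Continuous fun w => ev w t _ _
    exact (continuous_apply_apply _ _).comp ih
  | con t ih =>
    refine continuous_pi fun u => continuous_pi fun v => ?_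
    change Continuous fun w => ∑ b, ev w t _ _
    exact continuous_finsetSum _ fun b _ => (continuous_apply_apply _ _).comp ih

lemma continuous_nsq : Continuous fun w : ∀ j, Ten ℂ B (A j) (C j) => nsq w := by
  unfold nsq nT
  refine continuous_finsetSum _ fun j _ => continuous_finsetSum _ fun a _ =>
    continuous_finsetSum _ fun c _ => ?_
  have h1 : Continuous fun w : ∀ j, Ten ℂ B (A j) (C j) => w j a c :=
    (continuous_apply_apply a c).comp (continuous_apply j)
  exact h1.norm.pow 2

lemma norm_le_nsq (w : ∀ j, Ten ℂ B (A j) (C j)) (j : J) (a : A j → B) (c : C j → B) :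
    ‖w j a c‖ ^ 2 ≤ nsq w := by
  have h1 : ‖w j a c‖ ^ 2 ≤ ∑ c, ‖w j a c‖ ^ 2 :=
    Finset.single_le_sum (f := fun c => ‖w j a c‖ ^ 2) (fun c _ => by positivity)
      (Finset.mem_univ c)
  have h2 : ∑ c, ‖w j a c‖ ^ 2 ≤ nT (w j) :=
    Finset.single_le_sum (f := fun a => ∑ c, ‖w j a c‖ ^ 2) (fun c _ => by positivity)
      (Finset.mem_univ a)
  have h3 : nT (w j) ≤ nsq w :=
    Finset.single_le_sum (f := fun j => nT (w j)) (fun j _ => nT_nonneg _) (Finset.mem_univ j)
  linarith

lemma nsq_nonneg (w : ∀ j, Ten ℂ B (A j) (C j)) : 0 ≤ nsq w :=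
  Finset.sum_nonneg fun _ _ => nT_nonneg _

/-- Existence of tuples of minimal norm. -/
theorem exists_min (a : ∀ j, Ten ℂ B (A j) (C j)) : ∃ w, IsMin a w := by
  set K : Set (∀ j, Ten ℂ B (A j) (C j)) := {w | Same w a ∧ nsq w ≤ nsq a} with hK
  have hcl : IsClosed K := by
    refine IsClosed.inter ?_ (isClosed_le continuous_nsq continuous_const)
    have : {w : ∀ j, Ten ℂ B (A j) (C j) | Same w a} =
        ⋂ t : Net A C Empty Empty, {w | cv w t = cv a t} := by
      ext w
      simp [Same]
    change IsClosed {w : ∀ j, Ten ℂ B (A j) (C j) | Same w a}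
    rw [this]
    refine isClosed_iInter fun t => isClosed_eq ?_ continuous_const
    exact (continuous_apply_apply _ _).comp (continuous_ev t)
  have hbd : Bornology.IsBounded K := by
    rw [isBounded_iff_forall_norm_le]
    refine ⟨Real.sqrt (nsq a), fun w hw => ?_⟩
    refine (pi_norm_le_iff_of_nonneg (Real.sqrt_nonneg _)).2 fun j => ?_
    refine (pi_norm_le_iff_of_nonneg (Real.sqrt_nonneg _)).2 fun x => ?_
    refine (pi_norm_le_iff_of_nonneg (Real.sqrt_nonneg _)).2 fun y => ?_
    exact Real.le_sqrt_of_sq_le ((norm_le_nsq w j x y).trans hw.2)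
  have hc : IsCompact K := Metric.isCompact_of_isClosed_isBounded hcl hbd
  obtain ⟨w, hw, hmin⟩ := hc.exists_isMinOn ⟨a, ⟨fun _ => rfl, le_rfl⟩⟩
    continuous_nsq.continuousOn
  refine ⟨w, hw.1, fun w' hw' => ?_⟩
  by_cases h : nsq w' ≤ nsq a
  · exact hmin ⟨hw', h⟩
  · exact (hw.2).trans (not_le.1 h).le

lemma Same.refl (a : ∀ j, Ten ℂ B (A j) (C j)) : Same a a := fun _ => rfl

lemma Same.symm {a b : ∀ j, Ten ℂ B (A j) (C j)} (h : Same a b) : Same b a := fun t => (h t).symm

lemma Same.trans {a b c : ∀ j, Ten ℂ B (A j) (C j)} (h : Same a b) (h' : Same b c) : Same a c :=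
  fun t => (h t).trans (h' t)

/-- the phase -/
def phs (θ : B → ℝ) {P Q : Type} [Fintype P] [Fintype Q] (u : P → B) (v : Q → B) : ℝ :=
  ∑ p, θ (u p) - ∑ q, θ (v q)

/-- **The moment condition** for tuples of minimal norm. -/
theorem IsMin.moment {a w : ∀ j, Ten ℂ B (A j) (C j)} (h : IsMin a w) {k : Matrix B B ℂ}
    (hk : k ∈ Matrix.unitaryGroup B ℂ) (θ : B → ℝ) :
    ∑ j, ∑ u : A j → B, ∑ v : C j → B, phs θ u v * ‖uact kᴴ (w j) u v‖ ^ 2 = 0 := by
  have hk' : kᴴ ∈ Matrix.unitaryGroup B ℂ := by
    rw [Matrix.mem_unitaryGroup_iff, Matrix.star_eq_conjTranspose,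
      Matrix.conjTranspose_conjTranspose]
    exact (Matrix.mem_unitaryGroup_iff').1 hk
  have hkk : k * kᴴ = 1 := (Matrix.mem_unitaryGroup_iff).1 hk
  set w' : ∀ j, Ten ℂ B (A j) (C j) := fun j => uact kᴴ (w j) with hw'
  -- the curve
  set d : ℝ → B → ℂ := fun s b => ((Real.exp (s * θ b) : ℝ) : ℂ) with hd
  have hdd : ∀ s, (Matrix.diagonal (d s)).transpose * Matrix.diagonal (d (-s)) = 1 := by
    intro s
    rw [Matrix.diagonal_transpose, Matrix.diagonal_mul_diagonal, ← Matrix.diagonal_one]
    congr 1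
    funext b
    rw [hd]
    beta_reduce
    rw [← Complex.ofReal_mul, ← Real.exp_add]
    simp
  have hval : ∀ s, nsq w ≤ ∑ j, ∑ u : A j → B, ∑ v : C j → B,
      Real.exp (2 * s * phs θ u v) * ‖w' j u v‖ ^ 2 := by
    intro s
    have h1 : Same (fun j => uact k (act (Matrix.diagonal (d s)) (Matrix.diagonal (d (-s)))
        (w' j))) a := by
      intro t
      have e1 : cv (fun j => uact k (act (Matrix.diagonal (d s)) (Matrix.diagonal (d (-s)))
        (w' j))) t = _ := cv_act (unitary_one hk) _ t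
      rw [e1, cv_act (hdd s)]
      have e2 : cv w' t = _ := cv_act (unitary_one hk') _ t
      rw [e2]
      exact h.1 t
    refine (h.2 _ h1).trans (le_of_eq ?_)
    unfold nsq
    refine Finset.sum_congr rfl fun j _ => ?_
    rw [nT_uact hk]
    unfold nT
    refine Finset.sum_congr rfl fun u _ => Finset.sum_congr rfl fun v _ => ?_
    rw [act_diagonal, norm_mul, norm_mul, norm_prod, norm_prod, mul_pow, mul_pow]
    congr 1
    simp only [hd, Complex.norm_real, Real.norm_eq_abs, Real.abs_exp]
    rw [← Real.exp_sum, ← Real.exp_sum, ← Real.exp_nat_mul, ← Real.exp_nat_mul, ← Real.exp_add]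
    congr 1
    unfold phs
    simp only [← Finset.mul_sum]
    push_cast
    ring
  have h0 : nsq w = ∑ j, ∑ u : A j → B, ∑ v : C j → B, ‖w' j u v‖ ^ 2 := by
    unfold nsq
    refine Finset.sum_congr rfl fun j _ => ?_
    rw [← nT_uact hk' (w j)]
    rfl
  -- the derivative
  set f : ℝ → ℝ := fun s => ∑ j, ∑ u : A j → B, ∑ v : C j → B,
      Real.exp (2 * s * phs θ u v) * ‖w' j u v‖ ^ 2 with hf
  have hf0 : f 0 = nsq w := by
    rw [h0, hf]
    simp
  have hder : HasDerivAt f (∑ j, ∑ u : A j → B, ∑ v : C j → B,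
      (2 * phs θ u v) * ‖w' j u v‖ ^ 2) 0 := by
    rw [hf]
    refine HasDerivAt.fun_sum fun j _ => HasDerivAt.fun_sum fun u _ =>
      HasDerivAt.fun_sum fun v _ => ?_
    refine HasDerivAt.mul_const ?_ _
    have h1 : HasDerivAt (fun s : ℝ => 2 * s * phs θ u v) (2 * phs θ u v) 0 := by
      have := ((hasDerivAt_id (0 : ℝ)).const_mul 2).mul_const (phs θ u v)
      simpa using this
    have h2 := h1.exp
    simpa using h2
  have hmin : IsLocalMin f 0 := by
    refine Filter.Eventually.of_forall fun s => ?_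
    rw [hf0]
    exact hval s
  have h3 := hmin.hasDerivAt_eq_zero hder
  have h4 : ∑ j, ∑ u : A j → B, ∑ v : C j → B, (2 * phs θ u v) * ‖w' j u v‖ ^ 2 =
      2 * ∑ j, ∑ u : A j → B, ∑ v : C j → B, phs θ u v * ‖w' j u v‖ ^ 2 := by
    simp only [Finset.mul_sum, mul_assoc]
  rw [h4] at h3
  linarith

end Pool.Agent.Run7.h174
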