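import Pool.Agent.Run7.h174.Good2
import Pool.Agent.Run7.h174.AT

/-!
# Powers of a polarized variety in coordinates
-/

set_option autoImplicit false
set_option linter.unusedSectionVars false

open CategoryTheory AlgebraicGeometry Finset

universe u v

namespace Pool.Agent.Run7.h174

open Pool.Agent.H914 Pool.Agent.H914.VarClass Pool.Agent.H914.VarClass.Obj
  Pool.Agent.H914.WeilCohomology Pool.Agent.H281R3.HT Pool.Agent.W552

variable {k : Type u} [Field k] {𝒱 : VarClass k} {ops : CycleOps 𝒱}
  {W : WeilCohomology.{u, v} ops} {Y : 𝒱.Obj} {P : Polarized 𝒱}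

/-- the powers -/
noncomputable abbrev NP (ops : CycleOps 𝒱) (P : Polarized 𝒱) (m : ℕ) : Polarized 𝒱 :=
  nest ops m (fun _ => P)

/-- external products -/
noncomputable def monV (W : WeilCohomology.{u, v} ops) (P : Polarized 𝒱) :
    ∀ m, (Fin (m + 1) → W.H P.X) → W.H (NP ops P m).X
  | 0, v => v 0
  | m + 1, v => W.map (fst P.X (NP ops P m).X) (v 0) *
      W.map (snd P.X (NP ops P m).X) (monV W P m (fun i => v i.succ))

/-- external products of operators -/
noncomputable def opN (W : WeilCohomology.{u, v} ops) (P : Polarized 𝒱) :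
    ∀ m, (Fin (m + 1) → Module.End W.K (W.H P.X)) → Module.End W.K (W.H (NP ops P m).X)
  | 0, u => u 0
  | m + 1, u => extOp W (u 0) (opN W P m (fun i => u i.succ))

/-- the morphism to a power -/
noncomputable def nestLift (ops : CycleOps 𝒱) (P : Polarized 𝒱) :
    ∀ m, (Fin (m + 1) → (Y ⟶ P.X)) → (Y ⟶ (NP ops P m).X)
  | 0, g => g 0
  | m + 1, g => Obj.lift (X := P.X) (Y := (NP ops P m).X) (g 0)
      (nestLift ops P m (fun i => g i.succ))

lemma opN_monV (m : ℕ) (u : Fin (m + 1) → Module.End W.K (W.H P.X))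
    (v : Fin (m + 1) → W.H P.X) :
    opN W P m u (monV W P m v) = monV W P m (fun i => u i (v i)) := by
  induction m with
  | zero => rfl
  | succ m ih =>
    change extOp W (u 0) (opN W P m (fun i => u i.succ)) (W.map (fst P.X (NP ops P m).X) (v 0) *
      W.map (snd P.X (NP ops P m).X) (monV W P m (fun i => v i.succ))) = _
    rw [extOp_tmul, ih]
    rfl

lemma opN_aop (m : ℕ) {u : Fin (m + 1) → Module.End W.K (W.H P.X)}
    (h : ∀ i, AOp W P.X P.X (u i)) : AOp W _ _ (opN W P m u) := by
  induction m with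
  | zero => exact h 0
  | succ m ih => exact (h 0).ext (ih fun i => h i.succ)

lemma map_nestLift (m : ℕ) (g : Fin (m + 1) → (Y ⟶ P.X)) (v : Fin (m + 1) → W.H P.X) :
    W.map (nestLift ops P m g) (monV W P m v) =
      ((List.finRange (m + 1)).map fun a => W.map (g a) (v a)).prod := by
  induction m with
  | zero =>
    rw [List.finRange_succ]
    simp [List.finRange_zero]
    rfl
  | succ m ih =>
    rw [List.finRange_succ, List.map_cons, List.prod_cons, List.map_map]
    have h1 := ih (fun i => g i.succ) (fun i => v i.succ)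
    change W.map (Obj.lift (X := P.X) (Y := (NP ops P m).X) (g 0)
      (nestLift ops P m (fun i => g i.succ))) (W.map (fst P.X (NP ops P m).X) (v 0) *
      W.map (snd P.X (NP ops P m).X) (monV W P m (fun i => v i.succ))) = _
    rw [map_mul, ← W.map_comp, ← W.map_comp, lift_fst, lift_snd, h1]
    rfl

lemma monV_zero (m : ℕ) (v : Fin (m + 1) → W.H P.X) {a : Fin (m + 1)} (h : v a = 0) :
    monV W P m v = 0 := by
  induction m with
  | zero =>
    rw [Fin.eq_zero a] at h
    exact h
  | succ m ih =>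
    change W.map (fst P.X (NP ops P m).X) (v 0) *
      W.map (snd P.X (NP ops P m).X) (monV W P m (fun i => v i.succ)) = 0
    by_cases h0 : a = 0
    · rw [h0] at h
      rw [h, map_zero, zero_mul]
    · obtain ⟨i, rfl⟩ := Fin.exists_succ_eq.2 h0
      rw [ih (fun i => v i.succ) (a := i) h, map_zero, mul_zero]

/-- Multilinear expansion. -/
lemma monV_sum {B : Type} [Fintype B] [DecidableEq B] (m : ℕ) (c : Fin (m + 1) → B → W.K)
    (y : Fin (m + 1) → B → W.H P.X) :
    monV W P m (fun a => ∑ s, c a s • y a s) =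
      ∑ s : Fin (m + 1) → B, (∏ a, c a (s a)) • monV W P m (fun a => y a (s a)) := by
  induction m with
  | zero =>
    rw [← Equiv.sum_comp (Equiv.funUnique (Fin 1) B).symm]
    change ∑ s, c 0 s • y 0 s = _
    refine Finset.sum_congr rfl fun s _ => ?_
    rw [Fin.prod_univ_one]
    rfl
  | succ m ih =>
    rw [← Equiv.sum_comp (Fin.consEquiv (fun _ : Fin (m + 2) => B)), Fintype.sum_prod_type]
    change W.map (fst P.X (NP ops P m).X) (∑ s, c 0 s • y 0 s) *
      W.map (snd P.X (NP ops P m).X) (monV W P m (fun i => ∑ s, c i.succ s • y i.succ s)) = _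
    rw [ih, map_sum, map_sum, Finset.sum_mul_sum]
    refine Finset.sum_congr rfl fun s _ => Finset.sum_congr rfl fun t _ => ?_
    rw [map_smul, map_smul, smul_mul_smul_comm]
    conv_rhs => rw [Fin.prod_univ_succ]
    rfl

/-- the basis of external products -/
noncomputable def bN (bX : HB W P.X) :
    ∀ m, Module.Basis (Fin (m + 1) → Fin bX.N) W.K (W.H (NP ops P m).X)
  | 0 => bX.e.reindex (Equiv.funUnique (Fin 1) (Fin bX.N)).symm
  | m + 1 => ((bX.e.tensorProduct (bN bX m)).map (kappa W P.X (NP ops P m).X)).reindex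
      (Fin.consEquiv (fun _ : Fin (m + 2) => Fin bX.N))

lemma bN_apply (bX : HB W P.X) (m : ℕ) (r : Fin (m + 1) → Fin bX.N) :
    bN bX m r = monV W P m (fun a => bX.e (r a)) := by
  induction m with
  | zero =>
    change (bX.e.reindex (Equiv.funUnique (Fin 1) (Fin bX.N)).symm) r = _
    rw [Module.Basis.reindex_apply]
    rfl
  | succ m ih =>
    change (((bX.e.tensorProduct (bN bX m)).map (kappa W P.X (NP ops P m).X)).reindex
      (Fin.consEquiv (fun _ : Fin (m + 2) => Fin bX.N))) r = _
    rw [Module.Basis.reindex_apply, Module.Basis.map_apply, Module.Basis.tensorProduct_apply,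
      kappa_tmul, ih]
    rfl

/-- the coordinates of a class -/
noncomputable def tn (bX : HB W P.X) (m : ℕ) (z : W.H (NP ops P m).X) :
    Ten W.K (Fin bX.N) (Fin (m + 1)) Empty := fun r _ => (bN bX m).repr z r

/-- the class of a tensor -/
noncomputable def nt (bX : HB W P.X) (m : ℕ) (x : Ten W.K (Fin bX.N) (Fin (m + 1)) Empty) :
    W.H (NP ops P m).X := ∑ r, x r (fun e => Empty.elim e) • bN bX m r

lemma nt_tn (bX : HB W P.X) (m : ℕ) (z : W.H (NP ops P m).X) : nt bX m (tn bX m z) = z :=
  (bN bX m).sum_repr z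

lemma tn_nt (bX : HB W P.X) (m : ℕ) (x : Ten W.K (Fin bX.N) (Fin (m + 1)) Empty) :
    tn bX m (nt bX m x) = x := by
  funext r e
  unfold tn nt
  rw [Module.Basis.repr_sum_self]
  congr 1
  exact Subsingleton.elim _ _

lemma nt_add (bX : HB W P.X) (m : ℕ) (x y : Ten W.K (Fin bX.N) (Fin (m + 1)) Empty) :
    nt bX m (x + y) = nt bX m x + nt bX m y := by
  unfold nt
  rw [← Finset.sum_add_distrib]
  exact Finset.sum_congr rfl fun r _ => add_smul _ _ _

lemma nt_smul (bX : HB W P.X) (m : ℕ) (c : W.K) (x : Ten W.K (Fin bX.N) (Fin (m + 1)) Empty) :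
    nt bX m (c • x) = c • nt bX m x := by
  unfold nt
  rw [Finset.smul_sum]
  refine Finset.sum_congr rfl fun r _ => ?_
  rw [← mul_smul]
  rfl

lemma tn_add (bX : HB W P.X) (m : ℕ) (z z' : W.H (NP ops P m).X) :
    tn bX m (z + z') = tn bX m z + tn bX m z' := by
  funext r e
  simp [tn]

lemma tn_smul (bX : HB W P.X) (m : ℕ) (c : W.K) (z : W.H (NP ops P m).X) :
    tn bX m (c • z) = c • tn bX m z := by
  funext r e
  simp [tn]

/-- the lowering operator of the power -/
noncomputable def fN (W : WeilCohomology.{u, v} ops) (P : Polarized 𝒱)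
    (f : Module.End W.K (W.H P.X)) : ∀ m, Module.End W.K (W.H (NP ops P m).X)
  | 0 => f
  | m + 1 => extSum W f (fN W P f m)

variable {f : Module.End W.K (W.H P.X)}

lemma fr_N (F : Fr W P.X P.D f) (m : ℕ) :
    Fr W (NP ops P m).X (NP ops P m).D (fN W P f m) := by
  induction m with
  | zero => exact F
  | succ m ih => exact F.prod ih

lemma bf_N (F : Fr W P.X P.D f) (m : ℕ) (v v' : Fin (m + 1) → W.H P.X) :
    bf W (NP ops P m).X (NP ops P m).D (fN W P f m) (monV W P m v) (monV W P m v') =
      ∏ a, bf W P.X P.D f (v a) (v' a) := by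
  induction m with
  | zero =>
    rw [Fin.prod_univ_one]
    rfl
  | succ m ih =>
    rw [Fin.prod_univ_succ, ← ih]
    exact F.bf_ext (fr_N F m) (v 0) (v' 0) _ _

/-- the Gram matrix -/
noncomputable def phG (bX : HB W P.X) (f : Module.End W.K (W.H P.X)) :
    Matrix (Fin bX.N) (Fin bX.N) W.K := fun b c => bf W P.X P.D f (bX.e b) (bX.e c)

lemma bf_nt (F : Fr W P.X P.D f) (bX : HB W P.X) (m : ℕ) (ps : Matrix (Fin bX.N) (Fin bX.N) W.K)
    (x y : Ten W.K (Fin bX.N) (Fin (m + 1)) Empty) :
    bf W (NP ops P m).X (NP ops P m).D (fN W P f m) (nt bX m x) (nt bX m y) =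
      dotT x (act (phG bX f) ps y) := by
  have h1 : ∀ G : (Empty → Fin bX.N) → W.K, ∑ c, G c = G (fun e => Empty.elim e) := by
    intro G
    rw [Fintype.sum_unique]
    congr 1
    exact Subsingleton.elim _ _
  unfold nt dotT
  rw [map_sum (bf W (NP ops P m).X (NP ops P m).D (fN W P f m)), LinearMap.sum_apply]
  refine Finset.sum_congr rfl fun r _ => ?_
  rw [h1, map_smul (bf W (NP ops P m).X (NP ops P m).D (fN W P f m)),
    LinearMap.smul_apply, map_sum, smul_eq_mul]
  congr 1
  unfold act
  refine Finset.sum_congr rfl fun s _ => ?_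
  rw [h1, map_smul, bN_apply, bN_apply, bf_N F, smul_eq_mul]
  simp only [Finset.univ_eq_empty, Finset.prod_empty, mul_one]
  rw [mul_comm]
  rfl

end Pool.Agent.Run7.h174
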