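import Pool.Agent.Run7.h174.Tup

/-!
# The classes of algebraic tensors
-/

set_option autoImplicit false
set_option linter.unusedSectionVars false

open CategoryTheory AlgebraicGeometry Finset

universe u v u'

namespace Pool.Agent.Run7.h174

open Pool.Agent.H914 Pool.Agent.H914.VarClass Pool.Agent.H914.VarClass.Obj
  Pool.Agent.H914.WeilCohomology Pool.Agent.H281R3.HT Pool.Agent.W552 Pool.Agent.W539.Ker

variable {k : Type u} [Field k] {𝒱 : VarClass k} {ops : CycleOps 𝒱}
  {W : WeilCohomology.{u, v} ops} {Y : 𝒱.Obj} {P : Polarized 𝒱}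
  {f : Module.End W.K (W.H P.X)} {bX : HB W P.X} {e' : Fin bX.N → W.H P.X}

lemma monV_prj (n : ℕ) (v : Fin (n + 1) → W.H P.X) :
    monV W P n v = ((List.finRange (n + 1)).map fun a =>
      W.map (prj ops n (fun _ => P) a) (v a)).prod := by
  induction n with
  | zero =>
    rw [List.finRange_succ]
    simp only [List.finRange_zero, List.map_nil, List.map_cons, List.prod_cons, List.prod_nil,
      mul_one]
    change v 0 = W.map (𝟙 P.X) (v 0)
    rw [W.map_id]
  | succ n ih =>
    rw [List.finRange_succ, List.map_cons, List.prod_cons, List.map_map]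
    change W.map (fst P.X (NP ops P n).X) (v 0) *
      W.map (snd P.X (NP ops P n).X) (monV W P n (fun i => v i.succ)) = _
    rw [ih, map_list_prod, List.map_map]
    congr 2
    refine List.map_congr_left fun a _ => ?_
    exact (W.map_comp _ _ _).symm

/-- **The class of an algebraic tensor is algebraic.** -/
lemma nt_AS {n : ℕ} {x : Ten W.K (Fin bX.N) (Fin (n + 1)) Empty}
    (hx : Good bX e' (Fin (n + 1)) Empty x) : AS W _ (nt bX n x) := by
  classical
  set g : Fin (n + 1) ⊕ Empty → ((NP ops P n).X ⟶ P.X) :=
    Sum.elim (fun a => prj ops n (fun _ => P) a) (fun e => e.elim) with hg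
  set l : List (Fin (n + 1) ⊕ Empty) := (List.finRange (n + 1)).map Sum.inl with hl
  have hcls : ∀ ε : Fin (n + 1) → Bool, AS W _ (cls (bt bX) x (famG bX e' g)
      (Sum.elim ε (fun e => e.elim)) l) := fun ε => hx _ _ _ _ _ _ _ _
    ((List.nodup_finRange _).map Sum.inl_injective) (by
      rintro (a | a)
      · exact List.mem_map.2 ⟨a, List.mem_finRange a, rfl⟩
      · exact a.elim)
  have key : nt bX n x = ∑ ε : Fin (n + 1) → Bool, cls (bt bX) x (famG bX e' g)
      (Sum.elim ε (fun e => e.elim)) l := by
    unfold nt cls
    rw [Finset.sum_comm]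
    set E : (Fin (n + 1) ⊕ Empty → Fin bX.N) ≃ (Fin (n + 1) → Fin bX.N) :=
      { toFun := fun r a => r (Sum.inl a)
        invFun := fun r => Sum.elim r (fun e => e.elim)
        left_inv := fun r => by
          funext a
          rcases a with a | a
          · rfl
          · exact a.elim
        right_inv := fun r => rfl } with hE
    rw [← Equiv.sum_comp E.symm]
    refine Finset.sum_congr rfl fun r _ => ?_
    rw [Finset.sum_eq_single (fun a => bt bX (r a))]
    · rw [if_pos, bN_apply, monV_prj]
      · have e1 : (fun q : Empty => E.symm r (Sum.inr q)) = fun e => Empty.elim e :=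
          Subsingleton.elim _ _
        rw [e1, hl, LP_map]
        rfl
      · rintro (a | a)
        · rfl
        · exact a.elim
    · intro ε _ hε
      rw [if_neg]
      intro h
      apply hε
      funext a
      exact (h (Sum.inl a)).symm
    · intro h; exact absurd (Finset.mem_univ _) h
  rw [key]
  exact AS.ratSub.sum _ fun ε _ => hcls ε

end Pool.Agent.Run7.h174
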