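import Pool.Agent.Run7.h174.Base

/-!
# Contractions of several legs, pairings, and identities
-/

set_option autoImplicit false
set_option linter.unusedSectionVars false

open Finset

universe u u'

namespace Pool.Agent.Run7.h174

section equivs

variable {S P A C : Type}

/-- moving a new leg -/
def optSum (S P : Type) : (Option S ⊕ P) ≃ Option (S ⊕ P) where
  toFun := Sum.elim (Option.map Sum.inl) (fun p => some (Sum.inr p))
  invFun o := o.elim (Sum.inl none) (Sum.elim (fun s => Sum.inl (some s)) Sum.inr)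
  left_inv := by rintro ((_ | s) | p) <;> rfl
  right_inv := by rintro (_ | s | p) <;> rfl

end equivs

section conS

variable {R : Type u} [CommRing R] {B S P Q : Type} [Fintype B]

/-- The contraction of several legs. -/
def tconS [Fintype S] [DecidableEq S] (x : Ten R B (S ⊕ P) (S ⊕ Q)) : Ten R B P Q :=
  fun u v => ∑ s : S → B, x (Sum.elim s u) (Sum.elim s v)

lemma tconS_equiv {S S' : Type} [Fintype S] [DecidableEq S] [Fintype S'] [DecidableEq S']
    (e : S ≃ S') (x : Ten R B (S' ⊕ P) (S' ⊕ Q)) :
    tconS (trel (Equiv.sumCongr e.symm (Equiv.refl P)) (Equiv.sumCongr e.symm (Equiv.refl Q)) x) =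
      tconS x := by
  funext u v
  unfold tconS trel
  refine Fintype.sum_equiv (Equiv.arrowCongr e (Equiv.refl B)) _ _ fun s => ?_
  congr 1
  · funext p
    rcases p with p | p <;> rfl
  · funext p
    rcases p with p | p <;> rfl

lemma tconS_empty [Fintype S] [DecidableEq S] [IsEmpty S] (x : Ten R B (S ⊕ P) (S ⊕ Q)) :
    tconS x = trel (Equiv.emptySum S P) (Equiv.emptySum S Q) x := by
  funext u v
  unfold tconS trel
  rw [Fintype.sum_unique]
  congr 1
  · funext p
    rcases p with p | p
    · exact isEmptyElim p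
    · rfl
  · funext p
    rcases p with p | p
    · exact isEmptyElim p
    · rfl

lemma tconS_option [Fintype S] [DecidableEq S] [Fintype (Option S)] [DecidableEq (Option S)]
    (x : Ten R B (Option S ⊕ P) (Option S ⊕ Q)) :
    tconS x = tconS (tcon (trel (optSum S P) (optSum S Q) x)) := by
  funext u v
  unfold tconS tcon trel
  rw [Fintype.sum_equiv (Equiv.piOptionEquivProd (β := fun _ : Option S => B)) _
    (fun z : B × (S → B) => x (Sum.elim (oext z.1 z.2) u) (Sum.elim (oext z.1 z.2) v)),
    Fintype.sum_prod_type_right]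
  · refine Finset.sum_congr rfl fun s _ => Finset.sum_congr rfl fun b _ => ?_
    congr 1
    · funext p
      rcases p with (_ | p) | p <;> rfl
    · funext p
      rcases p with (_ | p) | p <;> rfl
  · intro s
    congr 1
    · funext p
      rcases p with (_ | p) | p <;> rfl
    · funext p
      rcases p with (_ | p) | p <;> rfl

end conS

section nets

variable {J : Type} {A C : J → Type} {B : Type} [Fintype B] [DecidableEq B]

/-- Several legs of a network can be contracted. -/
lemma exists_conS (S : Type) [Finite S] : ∀ {P Q : Type} (t : Net A C (S ⊕ P) (S ⊕ Q)),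
    ∃ t' : Net A C P Q, ∀ (R : Type u) [CommRing R] (w : ∀ j, Ten R B (A j) (C j)) [Fintype S]
      [DecidableEq S], ev w t' = tconS (ev w t) := by
  classical
  induction S using Finite.induction_empty_option with
  | @of_equiv S S' e ih =>
    intro P Q t
    obtain ⟨t', ht'⟩ := ih (t.rel (Equiv.sumCongr e.symm (Equiv.refl P))
      (Equiv.sumCongr e.symm (Equiv.refl Q)))
    refine ⟨t', fun R _ w _ _ => ?_⟩
    have := Fintype.ofEquiv _ e.symm
    rw [ht', ← tconS_equiv e]
    rfl
  | h_empty =>
    intro P Q t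
    refine ⟨t.rel (Equiv.emptySum PEmpty P) (Equiv.emptySum PEmpty Q), fun R _ w _ _ => ?_⟩
    rw [tconS_empty]
    rfl
  | @h_option S _ ih =>
    intro P Q t
    obtain ⟨t', ht'⟩ := ih (t.rel (optSum S P) (optSum S Q)).con
    refine ⟨t', fun R _ w _ _ => ?_⟩
    rw [ht', tconS_option]
    rfl

/-- The value of a closed network. -/
def cv {R : Type u} [CommRing R] (w : ∀ j, Ten R B (A j) (C j)) (t : Net A C Empty Empty) : R :=
  ev w t (fun e => e.elim) (fun e => e.elim)

/-- The pairing. -/
def pairT {R : Type u} [CommRing R] {P Q : Type} [Fintype P] [DecidableEq P] [Fintype Q]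
    [DecidableEq Q] (x : Ten R B P Q) (y : Ten R B Q P) : R := ∑ a, ∑ c, x a c * y c a

/-- Contraction of all legs of a tensor with legs of another one. -/
def contr {R : Type u} [CommRing R] {P Q P' Q' : Type} [Fintype P] [DecidableEq P] [Fintype Q]
    [DecidableEq Q] (x : Ten R B P Q) (y : Ten R B (Q ⊕ P') (P ⊕ Q')) : Ten R B P' Q' :=
  fun u v => ∑ a, ∑ c, x a c * y (Sum.elim c u) (Sum.elim a v)

/-- the relabelling for the contraction -/
def contrE (P Q P' : Type) : (P ⊕ (Q ⊕ P')) ≃ ((P ⊕ Q) ⊕ P') := (Equiv.sumAssoc P Q P').symm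

/-- the relabelling for the contraction -/
def contrF (P Q Q' : Type) : (Q ⊕ (P ⊕ Q')) ≃ ((P ⊕ Q) ⊕ Q') :=
  (Equiv.sumAssoc Q P Q').symm.trans (Equiv.sumCongr (Equiv.sumComm Q P) (Equiv.refl Q'))

lemma contr_eq {R : Type u} [CommRing R] {P Q P' Q' : Type} [Fintype P] [DecidableEq P]
    [Fintype Q] [DecidableEq Q] (x : Ten R B P Q) (y : Ten R B (Q ⊕ P') (P ⊕ Q')) :
    contr x y = tconS (trel (contrE P Q P') (contrF P Q Q') (tmul x y)) := by
  funext u v
  unfold tconS trel contr tmul
  rw [Fintype.sum_equiv (Equiv.sumArrowEquivProdArrow P Q B) _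
    (fun z : (P → B) × (Q → B) => x z.1 z.2 * y (Sum.elim z.2 u) (Sum.elim z.1 v)),
    Fintype.sum_prod_type]
  intro s
  congr 2
  · funext p
    rcases p with p | p <;> rfl
  · funext p
    rcases p with p | p <;> rfl

/-- Contractions of networks. -/
lemma exists_contr {P Q P' Q' : Type} [Fintype P] [DecidableEq P] [Fintype Q] [DecidableEq Q]
    (s : Net A C P Q) (t : Net A C (Q ⊕ P') (P ⊕ Q')) :
    ∃ t' : Net A C P' Q', ∀ (R : Type u) [CommRing R] (w : ∀ j, Ten R B (A j) (C j)),
      ev w t' = contr (ev w s) (ev w t) := by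
  obtain ⟨t', ht'⟩ := exists_conS (B := B) (P ⊕ Q) ((s.mul t).rel (contrE P Q P') (contrF P Q Q'))
  refine ⟨t', fun R _ w => ?_⟩
  rw [ht', contr_eq]
  rfl

/-- Pairings of networks. -/
lemma exists_pair {P Q : Type} [Fintype P] [DecidableEq P] [Fintype Q] [DecidableEq Q]
    (s : Net A C P Q) (t : Net A C Q P) :
    ∃ t' : Net A C Empty Empty, ∀ (R : Type u) [CommRing R] (w : ∀ j, Ten R B (A j) (C j)),
      cv w t' = pairT (ev w s) (ev w t) := by
  obtain ⟨t', ht'⟩ := exists_contr (B := B) s (t.rel (Equiv.sumEmpty Q Empty).symm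
    (Equiv.sumEmpty P Empty).symm)
  refine ⟨t', fun R _ w => ?_⟩
  rw [cv, ht']
  unfold contr pairT
  rfl

/-- The identity on several legs, renamed. -/
def dten {R : Type u} [CommRing R] {P Q : Type} [Fintype P] (π : P ≃ Q) : Ten R B P Q :=
  fun u v => ∏ p, if u p = v (π p) then 1 else 0

lemma exists_dten (P : Type) [Finite P] : ∀ {Q : Type} (π : P ≃ Q),
    ∃ t' : Net A C P Q, ∀ (R : Type u) [CommRing R] (w : ∀ j, Ten R B (A j) (C j)) [Fintype P],
      ev w t' = dten π := by
  classical
  induction P using Finite.induction_empty_option with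
  | @of_equiv P P' e ih =>
    intro Q π
    obtain ⟨t', ht'⟩ := ih (e.trans π)
    refine ⟨t'.rel e (Equiv.refl Q), fun R _ w _ => ?_⟩
    have := Fintype.ofEquiv _ e.symm
    change trel _ _ (ev w t') = _
    rw [ht']
    funext u v
    unfold trel dten
    exact Fintype.prod_equiv e _ _ fun p => rfl
  | h_empty =>
    intro Q π
    refine ⟨Net.one.rel (Equiv.equivOfIsEmpty _ _) ((Equiv.equivOfIsEmpty _ _).trans π),
      fun R _ w _ => ?_⟩
    funext u v
    unfold dten
    rw [Fintype.prod_empty]
    rfl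
  | @h_option P _ ih =>
    intro Q π
    obtain ⟨t', ht'⟩ := ih (Equiv.refl P)
    refine ⟨(Net.id.mul t').rel ((Equiv.sumComm Unit P).trans (Equiv.optionEquivSumPUnit P).symm)
      (((Equiv.sumComm Unit P).trans (Equiv.optionEquivSumPUnit P).symm).trans π),
      fun R _ w i => ?_⟩
    change trel _ _ (tmul tid (ev w t')) = _
    rw [ht', show i = instFintypeOption from Subsingleton.elim _ _]
    funext u v
    unfold trel tmul dten tid
    rw [Fintype.prod_option]
    rfl

end nets

section span

variable {J : Type} {A C : J → Type} {B : Type} [Fintype B] [DecidableEq B]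
  {R : Type u} [CommRing R] {S : Type*} [CommRing S] [Algebra S R]
  {w : ∀ j, Ten R B (A j) (C j)} {P Q P' Q' : Type}

lemma dten_mem [Fintype P] (π : P ≃ Q) : (dten π : Ten R B P Q) ∈ Sp S w P Q := by
  obtain ⟨t, ht⟩ := exists_dten (A := A) (C := C) (B := B) P π
  rw [← ht R w]
  exact ev_mem t

lemma contr_mem [Fintype P] [DecidableEq P] [Fintype Q] [DecidableEq Q] {x : Ten R B P Q}
    {y : Ten R B (Q ⊕ P') (P ⊕ Q')} (hx : x ∈ Sp S w P Q)
    (hy : y ∈ Sp S w (Q ⊕ P') (P ⊕ Q')) : contr x y ∈ Sp S w P' Q' := by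
  have h0 : ∀ y : Ten R B (Q ⊕ P') (P ⊕ Q'), contr 0 y = 0 := by
    intro y; funext u v; simp [contr]
  have h1 : ∀ (x x' : Ten R B P Q) (y : Ten R B (Q ⊕ P') (P ⊕ Q')),
      contr (x + x') y = contr x y + contr x' y := by
    intro x x' y; funext u v; simp [contr, add_mul, Finset.sum_add_distrib]
  have h2 : ∀ (c : S) (x : Ten R B P Q) (y : Ten R B (Q ⊕ P') (P ⊕ Q')),
      contr (c • x) y = c • contr x y := by
    intro c x y; funext u v; simp [contr, Finset.smul_sum]
  have h0' : ∀ x : Ten R B P Q, contr x (0 : Ten R B (Q ⊕ P') (P ⊕ Q')) = 0 := by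
    intro y; funext u v; simp [contr]
  have h1' : ∀ (x : Ten R B P Q) (y y' : Ten R B (Q ⊕ P') (P ⊕ Q')),
      contr x (y + y') = contr x y + contr x y' := by
    intro x x' y; funext u v; simp [contr, mul_add, Finset.sum_add_distrib]
  have h2' : ∀ (c : S) (x : Ten R B P Q) (y : Ten R B (Q ⊕ P') (P ⊕ Q')),
      contr x (c • y) = c • contr x y := by
    intro c x y; funext u v; simp [contr, Finset.smul_sum]
  unfold Sp at hx hy
  induction hx using Submodule.span_induction with
  | mem x hx =>
    obtain ⟨s, rfl⟩ := hx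
    induction hy using Submodule.span_induction with
    | mem y hy =>
      obtain ⟨t, rfl⟩ := hy
      obtain ⟨t', ht'⟩ := exists_contr (B := B) s t
      change contr (ev w s) (ev w t) ∈ _
      rw [← ht' R w]
      exact ev_mem t'
    | zero => rw [h0']; exact Submodule.zero_mem _
    | add a b _ _ ha hb => rw [h1']; exact Submodule.add_mem _ ha hb
    | smul c a _ ha => rw [h2']; exact Submodule.smul_mem _ _ ha
  | zero => rw [h0]; exact Submodule.zero_mem _
  | add a b _ _ ha hb => rw [h1]; exact Submodule.add_mem _ ha hb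
  | smul c a _ ha => rw [h2]; exact Submodule.smul_mem _ _ ha

end span

end Pool.Agent.Run7.h174
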