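import Pool.Agent.Run7.h174.PropA

/-!
# Pairs of tuples with the same values of the closed networks
-/

set_option autoImplicit false
set_option linter.unusedSectionVars false

open Finset Matrix Function

universe u u'

namespace Pool.Agent.Run7.h174

section pr

variable {B P Q P' Q' : Type}

/-- the tensor of pairs -/
def pr (x x' : Ten ℂ B P Q) : Ten (ℂ × ℂ) B P Q := fun u v => (x u v, x' u v)

/-- first component -/
def p1 : Ten (ℂ × ℂ) B P Q →ₗ[ℂ] Ten ℂ B P Q where
  toFun X := tmap (RingHom.fst ℂ ℂ) X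
  map_add' _ _ := rfl
  map_smul' _ _ := rfl

/-- second component -/
def p2 : Ten (ℂ × ℂ) B P Q →ₗ[ℂ] Ten ℂ B P Q where
  toFun X := tmap (RingHom.snd ℂ ℂ) X
  map_add' _ _ := rfl
  map_smul' _ _ := rfl

lemma p1_pr (x x' : Ten ℂ B P Q) : p1 (pr x x') = x := rfl

lemma p2_pr (x x' : Ten ℂ B P Q) : p2 (pr x x') = x' := rfl

lemma pr_p (X : Ten (ℂ × ℂ) B P Q) : pr (p1 X) (p2 X) = X := rfl

end pr

section star

variable {B : Type} [Fintype B] [DecidableEq B]
  {J : Type} [Fintype J] {A C : J → Type} [∀ j, Fintype (A j)] [∀ j, DecidableEq (A j)]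
  [∀ j, Fintype (C j)] [∀ j, DecidableEq (C j)] {P Q : Type}

lemma tstar_add (x y : Ten ℂ B P Q) : tstar (x + y) = tstar x + tstar y := by
  funext u v
  simp [tstar, tconj, tmap, tswap]

lemma tstar_smul (c : ℂ) (x : Ten ℂ B P Q) :
    tstar (c • x) = (starRingEnd ℂ c) • tstar x := by
  funext u v
  simp [tstar, tconj, tmap, tswap]

lemma tstar_smul_real (c : ℝ) (x : Ten ℂ B P Q) : tstar (c • x) = c • tstar x := by
  funext u v
  simp [tstar, tconj, tmap, tswap]

lemma tstar_zero : tstar (0 : Ten ℂ B P Q) = 0 := by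
  funext u v
  simp [tstar, tconj, tmap, tswap]

lemma tstar_clo : Clo (B := B) (R := ℂ) (R' := ℂ) (fun P Q x x' => x' = tconj x) :=
  tmap_clo (starRingEnd ℂ)

variable {w w' a : ∀ j, Ten ℂ B (A j) (C j)}

lemma IsMin.tstar_ev (h : IsMin a w) (t : Net A C P Q) : tstar (ev w t) ∈ Sp ℂ w Q P := by
  refine Clo1.ev (B := B) (R := ℂ) (fun j => inferInstance) (fun j => inferInstance)
    (Pr := fun P Q x => tstar x ∈ Sp ℂ w Q P) ⟨?_, ?_, ?_, ?_, ?_⟩ (fun j => h.tstar_mem j) t
  · have : tstar (tone : Ten ℂ B Empty Empty) = tone := by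
      funext u v
      simp [tstar, tconj, tmap, tswap, tone]
    rw [this]
    exact tone_mem
  · have : tstar (tid : Ten ℂ B Unit Unit) = tid := by
      funext u v
      simp only [tstar, tconj, tmap, tswap, tid, eq_comm (a := v ())]
      split_ifs <;> simp
    rw [this]
    exact tid_mem
  · intro P Q P' Q' _ _ _ _ x y hx hy
    have : tstar (tmul x y) = tmul (tstar x) (tstar y) := by
      funext u v
      simp [tstar, tconj, tmap, tswap, tmul]
    rw [this]
    exact tmul_mem hx hy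
  · intro P Q P' Q' _ _ e f x hx
    exact trel_mem f e hx
  · intro P Q _ _ x hx
    have : tstar (tcon x) = tcon (tstar x) := by
      funext u v
      simp [tstar, tconj, tmap, tswap, tcon]
    rw [this]
    exact tcon_mem hx

/-- The span of the values of networks at a minimal tuple is closed under adjoints. -/
lemma IsMin.tstar_sp (h : IsMin a w) {x : Ten ℂ B P Q} (hx : x ∈ Sp ℂ w P Q) :
    tstar x ∈ Sp ℂ w Q P := by
  unfold Sp at hx
  induction hx using Submodule.span_induction with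
  | mem x hx =>
    obtain ⟨t, rfl⟩ := hx
    exact h.tstar_ev t
  | zero => rw [tstar_zero]; exact Submodule.zero_mem _
  | add x y _ _ hx hy => rw [tstar_add]; exact Submodule.add_mem _ hx hy
  | smul c x _ hx => rw [tstar_smul]; exact Submodule.smul_mem _ _ hx

variable [Fintype P] [DecidableEq P] [Fintype Q] [DecidableEq Q]

lemma pairT_add_right {R : Type u} [CommRing R] (x : Ten R B P Q) (y z : Ten R B Q P) :
    pairT x (y + z) = pairT x y + pairT x z := by
  simp [pairT, mul_add, Finset.sum_add_distrib]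

lemma pairT_smul_right {R : Type u} [CommRing R] {S : Type*} [CommRing S] [Algebra S R] (c : S)
    (x : Ten R B P Q) (y : Ten R B Q P) : pairT x (c • y) = c • pairT x y := by
  simp [pairT, Finset.smul_sum]

lemma pairT_zero_right {R : Type u} [CommRing R] (x : Ten R B P Q) :
    pairT x (0 : Ten R B Q P) = 0 := by simp [pairT]

lemma pairT_add_left {R : Type u} [CommRing R] (x y : Ten R B P Q) (z : Ten R B Q P) :
    pairT (x + y) z = pairT x z + pairT y z := by
  simp [pairT, add_mul, Finset.sum_add_distrib]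

lemma pairT_smul_left {R : Type u} [CommRing R] {S : Type*} [CommRing S] [Algebra S R] (c : S)
    (x : Ten R B P Q) (y : Ten R B Q P) : pairT (c • x) y = c • pairT x y := by
  simp [pairT, Finset.smul_sum]

lemma pairT_zero_left {R : Type u} [CommRing R] (y : Ten R B Q P) :
    pairT (0 : Ten R B P Q) y = 0 := by simp [pairT]

/-- A tensor in the span which is orthogonal to all values of networks vanishes. -/
lemma IsMin.nondeg (h : IsMin a w) {x : Ten ℂ B P Q} (hx : x ∈ Sp ℂ w P Q)
    (h0 : ∀ t : Net A C Q P, pairT x (ev w t) = 0) : x = 0 := by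
  have h1 : ∀ y ∈ Sp ℂ w Q P, pairT x y = 0 := by
    intro y hy
    unfold Sp at hy
    induction hy using Submodule.span_induction with
    | mem y hy =>
      obtain ⟨t, rfl⟩ := hy
      exact h0 t
    | zero => exact pairT_zero_right x
    | add y z _ _ hy hz => rw [pairT_add_right, hy, hz, add_zero]
    | smul c y _ hy => rw [pairT_smul_right, hy, smul_zero]
  have h2 := h1 _ (h.tstar_sp hx)
  rw [pairT_tstar, hT_self] at h2
  exact nT_eq_zero (by exact_mod_cast h2)

/-- the span of the values at a pair -/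
def JJ (w w' : ∀ j, Ten ℂ B (A j) (C j)) (P Q : Type) : Submodule ℂ (Ten (ℂ × ℂ) B P Q) :=
  Sp ℂ (fun j => pr (w j) (w' j)) P Q

omit [Fintype P] [DecidableEq P] [Fintype Q] [DecidableEq Q] in
lemma p1_ev (t : Net A C P Q) : p1 (ev (fun j => pr (w j) (w' j)) t) = ev w t :=
  (ev_map (RingHom.fst ℂ ℂ) (fun j => pr (w j) (w' j)) t).symm

omit [Fintype P] [DecidableEq P] [Fintype Q] [DecidableEq Q] in
lemma p2_ev (t : Net A C P Q) : p2 (ev (fun j => pr (w j) (w' j)) t) = ev w' t :=
  (ev_map (RingHom.snd ℂ ℂ) (fun j => pr (w j) (w' j)) t).symm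

omit [Fintype P] [DecidableEq P] [Fintype Q] [DecidableEq Q] in
lemma JJ_map1 : (JJ w w' P Q).map p1 = Sp ℂ w P Q := by
  unfold JJ Sp
  rw [Submodule.map_span, ← Set.range_comp]
  congr 2
  funext t
  exact p1_ev t

omit [Fintype P] [DecidableEq P] [Fintype Q] [DecidableEq Q] in
lemma JJ_map2 : (JJ w w' P Q).map p2 = Sp ℂ w' P Q := by
  unfold JJ Sp
  rw [Submodule.map_span, ← Set.range_comp]
  congr 2
  funext t
  exact p2_ev t

omit [Fintype P] [DecidableEq P] [Fintype Q] [DecidableEq Q] in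
lemma JJ_diag (h : Same w w') {X : Ten (ℂ × ℂ) B Empty Empty} (hX : X ∈ JJ w w' Empty Empty) :
    p1 X = p2 X := by
  unfold JJ Sp at hX
  induction hX using Submodule.span_induction with
  | mem X hX =>
    obtain ⟨t, rfl⟩ := hX
    rw [p1_ev, p2_ev]
    funext u v
    have h1 := h t
    unfold cv at h1
    rw [show u = fun e => e.elim from Subsingleton.elim _ _,
      show v = fun e => e.elim from Subsingleton.elim _ _]
    exact h1
  | zero => rw [map_zero, map_zero]
  | add x y _ _ hx hy => rw [map_add, map_add, hx, hy]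
  | smul c x _ hx => rw [map_smul, map_smul, hx]

lemma JJ_pair (h : Same w w') {X : Ten (ℂ × ℂ) B P Q} {Y : Ten (ℂ × ℂ) B Q P}
    (hX : X ∈ JJ w w' P Q) (hY : Y ∈ JJ w w' Q P) :
    pairT (p1 X) (p1 Y) = pairT (p2 X) (p2 Y) := by
  have h1 : contr X (trel (Equiv.sumEmpty Q Empty).symm (Equiv.sumEmpty P Empty).symm Y) ∈
      JJ w w' Empty Empty := contr_mem hX (trel_mem _ _ hY)
  have h2 := congrFun (congrFun (JJ_diag h h1) (fun e => e.elim)) (fun e => e.elim)
  have h3 : ∀ σ : (ℂ × ℂ) →+* ℂ, σ (pairT X Y) = pairT (tmap σ X) (tmap σ Y) := by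
    intro σ
    unfold pairT tmap
    simp [map_sum, map_mul]
  have h4 := h3 (RingHom.fst ℂ ℂ)
  have h5 := h3 (RingHom.snd ℂ ℂ)
  change pairT (tmap (RingHom.fst ℂ ℂ) X) (tmap (RingHom.fst ℂ ℂ) Y) =
    pairT (tmap (RingHom.snd ℂ ℂ) X) (tmap (RingHom.snd ℂ ℂ) Y)
  rw [← h4, ← h5]
  exact h2

lemma JJ_inj1 (h : Same w w') (hw' : IsMin a w') {X : Ten (ℂ × ℂ) B P Q} (hX : X ∈ JJ w w' P Q)
    (h0 : p1 X = 0) : p2 X = 0 := by
  refine hw'.nondeg (x := p2 X) ?_ ?_
  · rw [← JJ_map2 (w := w)]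
    exact Submodule.mem_map_of_mem hX
  · intro t
    have h1 := JJ_pair h hX (ev_mem t)
    rw [p1_ev, p2_ev, h0, pairT_zero_left] at h1
    exact h1.symm

lemma JJ_inj2 (h : Same w w') (hw : IsMin a w) {X : Ten (ℂ × ℂ) B P Q} (hX : X ∈ JJ w w' P Q)
    (h0 : p2 X = 0) : p1 X = 0 := by
  refine hw.nondeg (x := p1 X) ?_ ?_
  · rw [← JJ_map1 (w' := w')]
    exact Submodule.mem_map_of_mem hX
  · intro t
    have h1 := JJ_pair h hX (ev_mem t)
    rw [p1_ev, p2_ev, h0, pairT_zero_left] at h1
    exact h1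

/-- Relations between values of networks hold for minimal tuples. -/
lemma IsMin.transfer (h : IsMin a w) {s t : Net A C P Q} (hst : ev a s = ev a t) :
    ev w s = ev w t := by
  have h1 : ev (fun j => pr (a j) (w j)) s - ev (fun j => pr (a j) (w j)) t ∈ JJ a w P Q :=
    Submodule.sub_mem _ (ev_mem s) (ev_mem t)
  have h2 := JJ_inj1 h.1.symm h h1 (by rw [map_sub, p1_ev, p1_ev, hst, sub_self])
  rw [map_sub, p2_ev, p2_ev] at h2
  exact sub_eq_zero.1 h2

end star

end Pool.Agent.Run7.h174
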