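import Pool.Agent.Run7.h174.Nst
import Pool.Agent.W539.Ker.Ops

/-!
# Parities of algebraic classes in coordinates, and the class of the inverse form
-/

set_option autoImplicit false
set_option linter.unusedSectionVars false

open CategoryTheory AlgebraicGeometry Finset

universe u v

namespace Pool.Agent.Run7.h174

open Pool.Agent.H914 Pool.Agent.H914.VarClass Pool.Agent.H914.VarClass.Obj
  Pool.Agent.H914.WeilCohomology Pool.Agent.H281R3.HT Pool.Agent.W552 Pool.Agent.W539.Ker

variable {k : Type u} [Field k] {𝒱 : VarClass k} {ops : CycleOps 𝒱}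
  {W : WeilCohomology.{u, v} ops} {X : 𝒱.Obj} {P : Polarized 𝒱}
  {f : Module.End W.K (W.H P.X)}

lemma monV_mem (m : ℕ) {v : Fin (m + 1) → W.H P.X} {i : Fin (m + 1) → ℕ}
    (h : ∀ a, v a ∈ W.gr P.X (i a)) : monV W P m v ∈ W.gr (NP ops P m).X (∑ a, i a) := by
  induction m with
  | zero =>
    rw [Fin.sum_univ_one]
    exact h 0
  | succ m ih =>
    rw [Fin.sum_univ_succ]
    exact W.mul_mem (W.map_mem _ (h 0)) (W.map_mem _ (ih fun a => h a.succ))

lemma par_AS {x : W.H X} (hx : AS W X x) : H914.par (W.isInternal X) x = x := by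
  refine AS.ind (p := fun y => H914.par (W.isInternal X) y = y) ?_ ?_ hx
  · intro j y hy
    rw [H914.par, scal_apply _ _ (alg_gr hy), pow_mul]
    simp
  · intro y y' hy hy'
    rw [map_add, hy, hy']

/-- The coordinates of algebraic classes are even. -/
lemma tn_even (bX : HB W P.X) (m : ℕ) {z : W.H (NP ops P m).X} (hz : AS W _ z)
    (r : Fin (m + 1) → Fin bX.N) (e : Empty → Fin bX.N) :
    (∏ a, (-1 : W.K) ^ bX.dg (r a)) * tn bX m z r e = tn bX m z r e := by
  have h1 : H914.par (W.isInternal (NP ops P m).X) z = ∑ r : Fin (m + 1) → Fin bX.N,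
      ((∏ a, (-1 : W.K) ^ bX.dg (r a)) * tn bX m z r (fun e => Empty.elim e)) • bN bX m r := by
    conv_lhs => rw [← nt_tn bX m z]
    unfold nt
    rw [map_sum]
    refine Finset.sum_congr rfl fun r _ => ?_
    rw [map_smul, bN_apply, H914.par, scal_apply _ _ (monV_mem m fun a => bX.mem (r a)),
      smul_smul, Finset.prod_pow_eq_pow_sum, mul_comm]
  rw [par_AS hz] at h1
  have h2 := congrArg (fun y => (bN bX m).repr y r) h1
  beta_reduce at h2
  rw [Module.Basis.repr_sum_self] at h2
  exact h2.symm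

/-- The sign matrix. -/
noncomputable def epM (bX : HB W X) : Matrix (Fin bX.N) (Fin bX.N) W.K :=
  Matrix.diagonal fun b => (-1 : W.K) ^ bX.dg b

lemma act_right_empty {R : Type*} [CommRing R] {B S : Type} [Fintype B] [DecidableEq B]
    [Fintype S] [DecidableEq S] (g g' h' : Matrix B B R) (x : Ten R B S Empty) :
    act g g' x = act g h' x := by
  funext u v
  unfold act
  refine Finset.sum_congr rfl fun a _ => Finset.sum_congr rfl fun c _ => ?_
  rw [Fintype.prod_empty (fun q : Empty => g' (v q) (c q)),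
    Fintype.prod_empty (fun q : Empty => h' (v q) (c q))]

lemma act_ep (bX : HB W P.X) (m : ℕ) {z : W.H (NP ops P m).X} (hz : AS W _ z)
    (g' : Matrix (Fin bX.N) (Fin bX.N) W.K) :
    act (epM bX) g' (tn bX m z) = tn bX m z := by
  rw [act_right_empty _ g' (epM bX)]
  funext r e
  unfold epM
  rw [act_diagonal, Fintype.prod_empty (fun q : Empty => (-1 : W.K) ^ bX.dg (e q)), mul_one]
  exact tn_even bX m hz r e

lemma phG_symm (G : Gd W P.X P.D f) (bX : HB W P.X) :
    phG bX f = (phG bX f).transpose * epM bX := by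
  ext b c
  unfold epM
  rw [Matrix.mul_diagonal, Matrix.transpose_apply]
  unfold phG
  rw [G.symm (bX.mem c) (bX.mem b), mul_comm]

/-- the matrix of a class on the square -/
noncomputable def psT (bX : HB W P.X) (c : W.H (NP ops P 1).X) :
    Matrix (Fin bX.N) (Fin bX.N) W.K := fun b b' => tn bX 1 c ![b, b'] (fun e => Empty.elim e)

/-- The class of the inverse form is algebraic. -/
lemma exists_psi (G : Gd W P.X P.D f) (bX : HB W P.X) :
    ∃ c : W.H (NP ops P 1).X, AS W _ c ∧ (phG bX f).transpose * psT bX c = 1 := by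
  obtain ⟨c, hc, hcu⟩ := G.pa.mul G.sa
  refine ⟨c, hc, ?_⟩
  -- the action of the class
  have hsum : ∀ (s : Finset (Fin 2 → Fin bX.N)) (g : (Fin 2 → Fin bX.N) → W.H (P.X.prod P.X)),
      W.corr (∑ b ∈ s, g b) = ∑ b ∈ s, W.corr (g b) := by
    intro s g
    induction s using Finset.induction_on with
    | empty => rw [Finset.sum_empty, Finset.sum_empty, corr_zero]
    | insert a s ha ih => rw [Finset.sum_insert ha, Finset.sum_insert ha, corr_add, ih]
  have hone : ∀ (r : Fin 2 → Fin bX.N) (a : Fin bX.N),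
      W.corr (W.map (fst P.X P.X) (bX.e (r 0)) * W.map (snd P.X P.X) (bX.e (r 1)))
        (st W P.X P.D f (bX.e a)) = ((-1 : W.K) ^ (bX.dg (r 1) * bX.dg a) *
          phG bX f (r 0) a) • bX.e (r 1) := by
    intro r a
    have ha : bX.dg a ≤ 2 * P.X.dim := by
      by_contra hcon
      have h2 := bX.mem a
      rw [W.gr_eq_bot P.X _ (by omega)] at h2
      exact bX.e.ne_zero a ((Submodule.mem_bot _).1 h2)
    have hst : st W P.X P.D f (bX.e a) ∈ W.gr P.X (2 * P.X.dim - bX.dg a) :=
      G.ls.star_mem ha (bX.mem a)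
    rw [corr_apply, mul_assoc, W.comm (W.map_mem (snd P.X P.X) (bX.mem (r 1)))
      (W.map_mem (fst P.X P.X) hst), mul_smul_comm, ← mul_assoc, ← map_mul, map_smul, push_snd,
      smul_smul]
    congr 1
    have h3 : (-1 : W.K) ^ (bX.dg (r 1) * (2 * P.X.dim - bX.dg a)) =
        (-1 : W.K) ^ (bX.dg (r 1) * bX.dg a) := by
      have h4 : Even (bX.dg (r 1) * (2 * P.X.dim - bX.dg a)) ↔
          Even (bX.dg (r 1) * bX.dg a) := by
        rw [Nat.even_mul, Nat.even_mul, Nat.even_sub ha]
        simp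
      by_cases h5 : Even (bX.dg (r 1) * bX.dg a)
      · rw [h5.neg_one_pow, (h4.2 h5).neg_one_pow]
      · rw [(Nat.not_even_iff_odd.1 h5).neg_one_pow,
          (Nat.not_even_iff_odd.1 (fun h => h5 (h4.1 h))).neg_one_pow]
    rw [h3]
    rfl
  have hact : ∀ a, W.corr c (st W P.X P.D f (bX.e a)) = ∑ b', ((-1 : W.K) ^
      (bX.dg b' * bX.dg a) * ((phG bX f).transpose * psT bX c) a b') • bX.e b' := by
    intro a
    have e1 : c = ∑ r : Fin 2 → Fin bX.N, tn bX 1 c r (fun e => Empty.elim e) •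
        (W.map (fst P.X P.X) (bX.e (r 0)) * W.map (snd P.X P.X) (bX.e (r 1))) := by
      conv_lhs => rw [← nt_tn bX 1 c]
      unfold nt
      refine Finset.sum_congr rfl fun r _ => ?_
      rw [bN_apply]
      rfl
    conv_lhs => rw [e1]
    rw [hsum, LinearMap.sum_apply]
    have e2 : ∀ r : Fin 2 → Fin bX.N, W.corr (tn bX 1 c r (fun e => Empty.elim e) •
        (W.map (fst P.X P.X) (bX.e (r 0)) * W.map (snd P.X P.X) (bX.e (r 1))))
        (st W P.X P.D f (bX.e a)) = (tn bX 1 c r (fun e => Empty.elim e) *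
          ((-1 : W.K) ^ (bX.dg (r 1) * bX.dg a) * phG bX f (r 0) a)) • bX.e (r 1) := by
      intro r
      rw [corr_smul, LinearMap.smul_apply, hone, smul_smul]
    rw [Finset.sum_congr rfl fun r _ => e2 r, ← Equiv.sum_comp (finTwoArrowEquiv (Fin bX.N)).symm,
      Fintype.sum_prod_type_right]
    refine Finset.sum_congr rfl fun b' _ => ?_
    rw [Matrix.mul_apply, Finset.mul_sum, Finset.sum_smul]
    refine Finset.sum_congr rfl fun b _ => ?_
    rw [Matrix.transpose_apply]
    unfold psT
    change (tn bX 1 c ![b, b'] (fun e => Empty.elim e) * ((-1 : W.K) ^ (bX.dg b' * bX.dg a) *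
      phG bX f b a)) • bX.e b' = _
    congr 1
    ring
  ext a b'
  have h1 := hact a
  rw [hcu, Module.End.mul_apply, G.st_st_apply, H914.par, scal_apply _ _ (bX.mem a)] at h1
  have h2 := congrArg (fun y => bX.e.repr y b') h1
  beta_reduce at h2
  rw [map_smul, Module.Basis.repr_self, Finsupp.smul_apply, Module.Basis.repr_sum_self,
    smul_eq_mul] at h2
  rw [Matrix.one_apply]
  by_cases hab : a = b'
  · subst hab
    rw [Finsupp.single_eq_same, mul_one] at h2
    rw [if_pos rfl]
    have h3 : (-1 : W.K) ^ (bX.dg a * bX.dg a) = (-1 : W.K) ^ bX.dg a := by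
      by_cases h5 : Even (bX.dg a)
      · rw [h5.neg_one_pow, (h5.mul_left _).neg_one_pow]
      · rw [(Nat.not_even_iff_odd.1 h5).neg_one_pow,
          ((Nat.not_even_iff_odd.1 h5).mul (Nat.not_even_iff_odd.1 h5)).neg_one_pow]
    rw [h3] at h2
    have h4 : (-1 : W.K) ^ bX.dg a * (((phG bX f).transpose * psT bX c) a a - 1) = 0 := by
      rw [mul_sub, ← h2, mul_one, sub_self]
    rcases mul_eq_zero.1 h4 with h5 | h5
    · exact absurd h5 (pow_ne_zero _ (neg_ne_zero.2 one_ne_zero))
    · exact sub_eq_zero.1 h5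
  · rw [Finsupp.single_eq_of_ne (fun h => hab h.symm), mul_zero] at h2
    rw [if_neg hab]
    rcases mul_eq_zero.1 h2.symm with h5 | h5
    · exact absurd h5 (pow_ne_zero _ (neg_ne_zero.2 one_ne_zero))
    · exact h5

end Pool.Agent.Run7.h174
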