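import Pool.Agent.W539.Ker.Lef
import Pool.Agent.R908.AbDefs

/-!
# Operators on the cohomology of an abelian variety induced by operators on the first cohomology
-/

set_option autoImplicit false

open CategoryTheory AlgebraicGeometry Finset

universe u v

namespace Pool.Agent.Run7.h174.PI

open Pool.Agent.H914 Pool.Agent.H914.VarClass Pool.Agent.H914.VarClass.Obj
  Pool.Agent.H914.WeilCohomology Pool.Agent.H281R3.HT Pool.Agent.W552 Pool.Agent.R908

variable {k : Type u} [Field k] {𝒱 : VarClass k} {ops : CycleOps 𝒱}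
  {W : WeilCohomology.{u, v} ops} {X Y A : 𝒱.Obj} {m : A.prod A ⟶ A}

/-- Pull-backs are algebraic operators. -/
lemma aop_map (f : X ⟶ Y) : AOp W Y X (W.map f).toLinearMap := by
  refine ⟨W.push (lift f (𝟙 X)) 1, AS.one.push _, ?_⟩
  apply LinearMap.ext
  intro b
  rw [corr_apply, ← W.push_mul, ← W.push_comp, ← W.map_comp, lift_snd, lift_fst, W.push_id,
    one_mul]
  rfl

/-- `a ⊗ b ↦ φ a · ψ b`. -/
noncomputable def TT (φ ψ : Module.End W.K (W.H A)) : W.H (A.prod A) →ₗ[W.K] W.H A :=
  (W.map (diag A)).toLinearMap ∘ₗ extOp W φ ψ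

lemma TT_tmul (φ ψ : Module.End W.K (W.H A)) (a b : W.H A) :
    TT φ ψ (W.map (fst A A) a * W.map (snd A A) b) = φ a * ψ b := by
  rw [TT, LinearMap.comp_apply, extOp_tmul]
  change W.map (diag A) (_ * _) = _
  have e1 : diag A ≫ fst A A = 𝟙 A := Obj.lift_fst _ _
  have e2 : diag A ≫ snd A A = 𝟙 A := Obj.lift_snd _ _
  rw [map_mul, ← W.map_comp, ← W.map_comp, e1, e2, W.map_id, W.map_id]

/-- The operator vanishes outside the degree one. -/
def D1 (u : Module.End W.K (W.H A)) : Prop := ∀ i, i ≠ 1 → ∀ a ∈ W.gr A i, u a = 0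

lemma snd_fst {x a : W.H A} {i : ℕ} (hx : x ∈ W.gr A 1) (ha : a ∈ W.gr A i) (b : W.H A) :
    W.map (snd A A) x * (W.map (fst A A) a * W.map (snd A A) b) =
      (-1 : W.K) ^ i • (W.map (fst A A) a * W.map (snd A A) (x * b)) := by
  rw [← mul_assoc, W.comm (W.map_mem (snd A A) hx) (W.map_mem (fst A A) ha), smul_mul_assoc,
    mul_assoc, ← map_mul, one_mul]

/-- Multiplication by `1 ⊗ x`. -/
lemma TT_snd {φ ψ ψ' : Module.End W.K (W.H A)} (hφ : D1 φ) {x y : W.H A} {ε : W.K}
    (hx : x ∈ W.gr A 1) (hψ : ∀ b, ψ (x * b) = y * ψ' b)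
    (hc : ∀ a ∈ W.gr A 1, φ a * y = -ε • (y * φ a)) (z : W.H (A.prod A)) :
    TT φ ψ (W.map (snd A A) x * z) = ε • (y * TT φ ψ' z) := by
  refine W.kunneth_induction (p := fun z => TT φ ψ (W.map (snd A A) x * z) =
    ε • (y * TT φ ψ' z)) ?_ ?_ z
  · intro a b ha hb
    rw [mul_add, map_add, map_add, ha, hb, mul_add, smul_add]
  · intro i j a ha b _
    rw [snd_fst hx ha, map_smul, TT_tmul, TT_tmul, hψ]
    by_cases hi : i = 1
    · subst hi
      rw [← mul_assoc, hc a ha, pow_one, neg_smul, one_smul, neg_smul, neg_mul, neg_neg,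
        smul_mul_assoc, mul_assoc]
    · rw [hφ i hi a ha, zero_mul, smul_zero, zero_mul, mul_zero, smul_zero]

/-- Multiplication by `x ⊗ 1`. -/
lemma TT_fst {φ ψ : Module.End W.K (W.H A)} (hφ : D1 φ) {x : W.H A}
    (hx : x ∈ W.gr A 1) (z : W.H (A.prod A)) :
    TT φ ψ (W.map (fst A A) x * z) = φ x * TT (proj (W.isInternal A) 0) ψ z := by
  refine W.kunneth_induction (p := fun z => TT φ ψ (W.map (fst A A) x * z) =
    φ x * TT (proj (W.isInternal A) 0) ψ z) ?_ ?_ z
  · intro a b ha hb
    rw [mul_add, map_add, map_add, ha, hb, mul_add]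
  · intro i j a ha b _
    rw [← mul_assoc, ← map_mul, TT_tmul, TT_tmul]
    by_cases hi : i = 0
    · subst hi
      rw [proj_same _ ha]
      rw [W.gr_zero A, Submodule.mem_span_singleton] at ha
      obtain ⟨c, rfl⟩ := ha
      rw [mul_smul_comm, mul_one, map_smul, smul_mul_assoc, smul_mul_assoc, one_mul,
        mul_smul_comm]
    · rw [hφ (1 + i) (by omega) _ (W.mul_mem hx ha), zero_mul, proj_ne _ ha hi, zero_mul, mul_zero]

/-- The counit. -/
lemma TT_counit (hA : IsAbelianLike W A m) (ψ : Module.End W.K (W.H A)) (y : W.H A) :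
    TT (proj (W.isInternal A) 0) ψ (W.map m y) = ψ y := by
  have key : ∀ i, ∀ y ∈ W.gr A 1 ^ i, extOp W (proj (W.isInternal A) 0)
      (1 : Module.End W.K (W.H A)) (W.map m y) = W.map (snd A A) y := by
    have h1 : extOp W (proj (W.isInternal A) 0) (1 : Module.End W.K (W.H A)) 1 =
        (1 : W.H (A.prod A)) := by
      have h := extOp_tmul (W := W) (proj (W.isInternal A) 0) (1 : Module.End W.K (W.H A)) 1 1
      rw [proj_same _ (W.one_mem A), Module.End.one_apply, map_one, map_one, one_mul] at h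
      exact h
    have hf : ∀ x ∈ W.gr A 1, ∀ z, extOp W (proj (W.isInternal A) 0)
        (1 : Module.End W.K (W.H A)) (W.map (fst A A) x * z) = 0 := by
      intro x hx z
      refine W.kunneth_induction (p := fun z => extOp W (proj (W.isInternal A) 0)
        (1 : Module.End W.K (W.H A)) (W.map (fst A A) x * z) = 0) ?_ ?_ z
      · intro a b ha hb; rw [mul_add, map_add, ha, hb, add_zero]
      · intro i j a ha b _
        rw [← mul_assoc, ← map_mul, extOp_tmul, proj_ne _ (W.mul_mem hx ha) (by omega), map_zero,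
          zero_mul]
    have hs : ∀ x ∈ W.gr A 1, ∀ z, extOp W (proj (W.isInternal A) 0)
        (1 : Module.End W.K (W.H A)) (W.map (snd A A) x * z) = W.map (snd A A) x *
          extOp W (proj (W.isInternal A) 0) (1 : Module.End W.K (W.H A)) z := by
      intro x hx z
      refine W.kunneth_induction (p := fun z => extOp W (proj (W.isInternal A) 0)
        (1 : Module.End W.K (W.H A)) (W.map (snd A A) x * z) = W.map (snd A A) x *
          extOp W (proj (W.isInternal A) 0) (1 : Module.End W.K (W.H A)) z) ?_ ?_ z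
      · intro a b ha hb; rw [mul_add, map_add, ha, hb, map_add, mul_add]
      · intro i j a ha b _
        rw [snd_fst hx ha, map_smul, extOp_tmul, extOp_tmul, Module.End.one_apply,
          Module.End.one_apply, snd_fst hx (show proj (W.isInternal A) 0 a ∈ W.gr A i by
            by_cases hi : i = 0
            · subst hi; exact proj_mem _ _ _
            · rw [proj_ne _ ha hi]; exact Submodule.zero_mem _)]
    intro i
    induction i with
    | zero =>
      intro y hy
      rw [pow_zero, Submodule.mem_one] at hy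
      obtain ⟨c, rfl⟩ := hy
      rw [Algebra.algebraMap_eq_smul_one, map_smul, map_smul, map_one, h1, map_smul, map_one]
    | succ i ih =>
      intro y hy
      rw [pow_succ'] at hy
      refine Submodule.mul_induction_on hy ?_ ?_
      · intro x hx y hy
        rw [map_mul, hA.add x hx, add_mul, map_add, hf x hx, hs x hx, ih y hy, zero_add, map_mul]
      · intro x y hx hy
        rw [map_add, map_add, hx, hy, map_add]
  have key2 : extOp W (proj (W.isInternal A) 0) (1 : Module.End W.K (W.H A)) (W.map m y) =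
      W.map (snd A A) y := by
    refine gr_induction (W.isInternal A) (p := fun y => extOp W (proj (W.isInternal A) 0)
      (1 : Module.End W.K (W.H A)) (W.map m y) = W.map (snd A A) y) ?_ ?_ y
    · intro i y hy; exact key i y (hA.gen i hy)
    · intro a b ha hb; rw [map_add, map_add, ha, hb, map_add]
  have h2 : extOp W (proj (W.isInternal A) 0) ψ =
      extOp W (1 : Module.End W.K (W.H A)) ψ * extOp W (proj (W.isInternal A) 0) 1 := by
    rw [extOp_mul, one_mul, mul_one]
  rw [TT, LinearMap.comp_apply, h2, Module.End.mul_apply, key2]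
  have h3 := extOp_tmul (W := W) (1 : Module.End W.K (W.H A)) ψ 1 y
  rw [map_one, one_mul, Module.End.one_apply, map_one, one_mul] at h3
  rw [h3]
  change W.map (diag A) _ = _
  have e2 : diag A ≫ snd A A = 𝟙 A := Obj.lift_snd _ _
  rw [← W.map_comp, e2, W.map_id]

/-- The operator `TT φ ψ` on the coproduct. -/
noncomputable def cop (m : A.prod A ⟶ A) (φ ψ : Module.End W.K (W.H A)) :
    Module.End W.K (W.H A) := TT φ ψ ∘ₗ (W.map m).toLinearMap

lemma cop_apply (φ ψ : Module.End W.K (W.H A)) (z : W.H A) :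
    cop m φ ψ z = TT φ ψ (W.map m z) := rfl

/-- The basic recursion. -/
lemma cop_mul (hA : IsAbelianLike W A m) {φ ψ ψ' : Module.End W.K (W.H A)} (hφ : D1 φ)
    {x y : W.H A} {ε : W.K} (hx : x ∈ W.gr A 1) (hψ : ∀ b, ψ (x * b) = y * ψ' b)
    (hc : ∀ a ∈ W.gr A 1, φ a * y = -ε • (y * φ a)) (z : W.H A) :
    cop m φ ψ (x * z) = φ x * ψ z + ε • (y * cop m φ ψ' z) := by
  rw [cop_apply, map_mul, hA.add x hx, add_mul, map_add, TT_fst hφ hx, TT_counit hA,
    TT_snd hφ hx hψ hc]
  rfl

lemma cop_one {φ ψ : Module.End W.K (W.H A)} (hφ : D1 φ) : cop m φ ψ 1 = 0 := by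
  rw [cop_apply, map_one]
  have h := TT_tmul (W := W) φ ψ (1 : W.H A) 1
  rw [map_one, map_one, mul_one, hφ 0 (by omega) _ (W.one_mem A), zero_mul] at h
  exact h

lemma cop_aop {φ ψ : Module.End W.K (W.H A)} (hφ : AOp W A A φ) (hψ : AOp W A A ψ) :
    AOp W A A (cop m φ ψ) :=
  ((aop_map (diag A)).comp (hφ.ext hψ)).comp (aop_map m)

end Pool.Agent.Run7.h174.PI
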