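import Pool.Agent.Run7.h174.PiA

/-!
# Exterior powers, derivations and contractions
-/

set_option autoImplicit false

open CategoryTheory AlgebraicGeometry Finset

universe u v

namespace Pool.Agent.Run7.h174.PI

open Pool.Agent.H914 Pool.Agent.H914.VarClass Pool.Agent.H914.VarClass.Obj
  Pool.Agent.H914.WeilCohomology Pool.Agent.H281R3.HT Pool.Agent.W552 Pool.Agent.R908

variable {k : Type u} [Field k] {𝒱 : VarClass k} {ops : CycleOps 𝒱}
  {W : WeilCohomology.{u, v} ops} {A : 𝒱.Obj} {m : A.prod A ⟶ A}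

/-- An operator on the first cohomology. -/
structure DO (u : Module.End W.K (W.H A)) : Prop where
  d1 : D1 u
  mem : ∀ a ∈ W.gr A 1, u a ∈ W.gr A 1

/-- A functional on the first cohomology. -/
def F1 (h : W.H A →ₗ[W.K] W.K) : Prop := ∀ i, i ≠ 1 → ∀ a ∈ W.gr A i, h a = 0

lemma anti {a b : W.H A} (ha : a ∈ W.gr A 1) (hb : b ∈ W.gr A 1) : a * b = -(b * a) := by
  rw [W.comm ha hb, mul_one, pow_one, neg_one_smul]

lemma proj_zero_mul {x : W.H A} (hx : x ∈ W.gr A 1) (b : W.H A) :
    proj (W.isInternal A) 0 (x * b) = 0 := by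
  refine gr_induction (W.isInternal A) (p := fun b => proj (W.isInternal A) 0 (x * b) = 0) ?_ ?_ b
  · intro j b hb
    exact proj_ne _ (W.mul_mem hx hb) (by omega)
  · intro a b ha hb; rw [mul_add, map_add, ha, hb, add_zero]

/-- The exterior powers of `u`. -/
noncomputable def lam (m : A.prod A ⟶ A) (u : Module.End W.K (W.H A)) :
    ℕ → Module.End W.K (W.H A)
  | 0 => proj (W.isInternal A) 0
  | n + 1 => (((((n + 1 : ℕ) : ℚ)⁻¹ : ℚ)) : W.K) • cop m u (lam m u n)

lemma lam_cop (u : Module.End W.K (W.H A)) (n : ℕ) (z : W.H A) :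
    cop m u (lam m u n) z = ((n + 1 : ℕ) : W.K) • lam m u (n + 1) z := by
  have h : ((n + 1 : ℕ) : W.K) ≠ 0 := by exact_mod_cast Nat.succ_ne_zero n
  rw [lam, LinearMap.smul_apply, smul_smul, Rat.cast_inv, Rat.cast_natCast, mul_inv_cancel₀ h,
    one_smul]

section

variable (hA : IsAbelianLike W A m) {u : Module.End W.K (W.H A)} (hu : DO u)

include hA hu

lemma lam_mul : ∀ n, ∀ x ∈ W.gr A 1, ∀ y, lam m u (n + 1) (x * y) = u x * lam m u n y := by
  intro n
  induction n with
  | zero =>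
    intro x hx y
    have h1 := cop_mul hA hu.d1 (ψ := proj (W.isInternal A) 0) (ψ' := 0) (y := 0) (ε := 0) hx
      (fun b => by rw [proj_zero_mul hx, zero_mul])
      (fun a _ => by rw [mul_zero, zero_mul, smul_zero]) y
    rw [zero_smul, add_zero] at h1
    have h2 := lam_cop (m := m) u 0 (x * y)
    rw [zero_add, Nat.cast_one, one_smul] at h2
    rw [zero_add, ← h2]
    exact h1
  | succ n ih =>
    intro x hx y
    have h1 := cop_mul hA hu.d1 (ψ := lam m u (n + 1)) (ψ' := lam m u n) (y := u x) (ε := 1) hx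
      (fun b => ih x hx b)
      (fun a ha => by rw [anti (hu.mem a ha) (hu.mem x hx), neg_one_smul]) y
    rw [one_smul, lam_cop, lam_cop, mul_smul_comm] at h1
    have h2 : ((n + 1 + 1 : ℕ) : W.K) ≠ 0 := by exact_mod_cast Nat.succ_ne_zero (n + 1)
    have h3 : ((n + 1 + 1 : ℕ) : W.K) • lam m u (n + 1 + 1) (x * y) =
        ((n + 1 + 1 : ℕ) : W.K) • (u x * lam m u (n + 1) y) := by
      rw [h1, Nat.cast_succ (n + 1), add_smul, one_smul, add_comm]
    exact smul_right_injective _ h2 h3

lemma lam_ne : ∀ i n, i ≠ n → ∀ z ∈ W.gr A 1 ^ i, lam m u n z = 0 := by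
  intro i
  induction i with
  | zero =>
    intro n hn z hz
    rw [pow_zero, Submodule.mem_one] at hz
    obtain ⟨c, rfl⟩ := hz
    obtain ⟨n, rfl⟩ : ∃ l, n = l + 1 := ⟨n - 1, by omega⟩
    rw [Algebra.algebraMap_eq_smul_one, map_smul, lam, LinearMap.smul_apply, cop_one hu.d1,
      smul_zero, smul_zero]
  | succ i ih =>
    intro n hn z hz
    rw [pow_succ'] at hz
    refine Submodule.mul_induction_on hz ?_ ?_
    · intro x hx y hy
      rcases n with _ | n
      · exact proj_zero_mul hx y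
      · rw [lam_mul hA hu n x hx, ih n (by omega) y hy, mul_zero]
    · intro a b ha hb
      rw [map_add, ha, hb, add_zero]

lemma lam_mem : ∀ n, ∀ z ∈ W.gr A 1 ^ n, lam m u n z ∈ W.gr A n := by
  intro n
  induction n with
  | zero => intro z _; exact proj_mem _ _ _
  | succ n ih =>
    intro z hz
    rw [pow_succ'] at hz
    refine Submodule.mul_induction_on hz ?_ ?_
    · intro x hx y hy
      rw [lam_mul hA hu n x hx, add_comm]
      exact W.mul_mem (hu.mem x hx) (ih y hy)
    · intro a b ha hb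
      rw [map_add]; exact Submodule.add_mem _ ha hb

lemma lam_top : lam m u (2 * A.dim + 1) = 0 := by
  apply gr_ext (W.isInternal A)
  intro i a ha
  rw [LinearMap.zero_apply]
  by_cases hi : i = 2 * A.dim + 1
  · rw [W.gr_eq_bot A i (by omega), Submodule.mem_bot] at ha
    rw [ha, map_zero]
  · exact lam_ne hA hu i _ hi a (hA.gen i ha)

end

/-- The algebra endomorphism induced by `u`. -/
noncomputable def Psi (m : A.prod A ⟶ A) (u : Module.End W.K (W.H A)) : Module.End W.K (W.H A) :=
  ∑ n ∈ range (2 * A.dim + 1), lam m u n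

section

variable (hA : IsAbelianLike W A m) {u : Module.End W.K (W.H A)} (hu : DO u)

include hA hu

lemma Psi_apply (y : W.H A) : Psi m u y = ∑ n ∈ range (2 * A.dim + 1), lam m u n y := by
  rw [Psi, LinearMap.sum_apply]

lemma Psi_one : Psi m u 1 = 1 := by
  rw [Psi_apply hA hu, sum_eq_single 0]
  · exact proj_same _ (W.one_mem A)
  · intro n _ hn
    exact lam_ne hA hu 0 n hn.symm 1 (by
      rw [pow_zero, Submodule.mem_one]; exact ⟨1, map_one _⟩)
  · intro h; exact absurd (mem_range.2 (Nat.succ_pos _)) h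

lemma Psi_mul1 {x : W.H A} (hx : x ∈ W.gr A 1) (y : W.H A) : Psi m u (x * y) = u x * Psi m u y := by
  have h1 : ∑ n ∈ range (2 * A.dim + 1), lam m u (n + 1) (x * y) =
      ∑ n ∈ range (2 * A.dim + 1), u x * lam m u n y :=
    sum_congr rfl fun n _ => lam_mul hA hu n x hx y
  rw [sum_range_succ, lam_top hA hu, LinearMap.zero_apply, add_zero] at h1
  rw [Psi_apply hA hu, Psi_apply hA hu, mul_sum, ← h1, sum_range_succ']
  have h2 : lam m u 0 (x * y) = 0 := proj_zero_mul hx y
  rw [h2, add_zero]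

lemma Psi_mul (z y : W.H A) : Psi m u (z * y) = Psi m u z * Psi m u y := by
  have key : ∀ i, ∀ z ∈ W.gr A 1 ^ i, ∀ y, Psi m u (z * y) = Psi m u z * Psi m u y := by
    intro i
    induction i with
    | zero =>
      intro z hz y
      rw [pow_zero, Submodule.mem_one] at hz
      obtain ⟨c, rfl⟩ := hz
      rw [Algebra.algebraMap_eq_smul_one, smul_mul_assoc, map_smul, map_smul, one_mul,
        Psi_one hA hu, smul_mul_assoc, one_mul]
    | succ i ih =>
      intro z hz y
      rw [pow_succ'] at hz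
      refine Submodule.mul_induction_on hz ?_ ?_
      · intro x hx w hw
        rw [mul_assoc, Psi_mul1 hA hu hx, Psi_mul1 hA hu hx, ih w hw, mul_assoc]
      · intro a b ha hb
        rw [add_mul, map_add, ha, hb, map_add, add_mul]
  refine gr_induction (W.isInternal A) (p := fun z => Psi m u (z * y) = Psi m u z * Psi m u y)
    ?_ ?_ z
  · intro i z hz; exact key i z (hA.gen i hz) y
  · intro a b ha hb; rw [add_mul, map_add, ha, hb, map_add, add_mul]

lemma Psi_pow (z : W.H A) (n : ℕ) : Psi m u (z ^ n) = Psi m u z ^ n := by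
  induction n with
  | zero => rw [pow_zero, pow_zero, Psi_one hA hu]
  | succ n ih => rw [pow_succ, Psi_mul hA hu, ih, pow_succ]

lemma Psi_mem {i : ℕ} {z : W.H A} (hz : z ∈ W.gr A i) : Psi m u z ∈ W.gr A i := by
  rw [Psi_apply hA hu]
  refine Submodule.sum_mem _ fun n _ => ?_
  by_cases hn : i = n
  · subst hn; exact lam_mem hA hu i z (hA.gen i hz)
  · rw [lam_ne hA hu i n hn z (hA.gen i hz)]; exact Submodule.zero_mem _

end

lemma lam_aop (hp : ∀ i, AOp W A A (proj (W.isInternal A) i)) {u : Module.End W.K (W.H A)}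
    (hu : AOp W A A u) (n : ℕ) : AOp W A A (lam m u n) := by
  induction n with
  | zero => exact hp 0
  | succ n ih => exact (cop_aop hu ih).smul _

lemma Psi_aop (hp : ∀ i, AOp W A A (proj (W.isInternal A) i)) {u : Module.End W.K (W.H A)}
    (hu : AOp W A A u) : AOp W A A (Psi m u) :=
  AOp.ratSub.sum (range (2 * A.dim + 1)) fun n _ => lam_aop hp hu n

/-- The derivation induced by `u`. -/
noncomputable def der (m : A.prod A ⟶ A) (u : Module.End W.K (W.H A)) : Module.End W.K (W.H A) :=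
  cop m u 1

/-- The contraction with a functional. -/
noncomputable def io (m : A.prod A ⟶ A) (h : W.H A →ₗ[W.K] W.K) : Module.End W.K (W.H A) :=
  cop m (h.smulRight 1) 1

lemma F1.d1 {h : W.H A →ₗ[W.K] W.K} (hh : F1 h) : D1 (h.smulRight (1 : W.H A)) := by
  intro i hi a ha
  rw [LinearMap.smulRight_apply, hh i hi a ha, zero_smul]

section

variable (hA : IsAbelianLike W A m)

include hA

lemma der_mul {u : Module.End W.K (W.H A)} (hu : DO u) {x : W.H A} (hx : x ∈ W.gr A 1)
    (y : W.H A) : der m u (x * y) = u x * y + x * der m u y := by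
  have h := cop_mul hA hu.d1 (ψ := 1) (ψ' := 1) (y := x) (ε := 1) hx
    (fun b => rfl) (fun a ha => by rw [anti (hu.mem a ha) hx, neg_one_smul]) y
  rw [one_smul] at h
  exact h

lemma io_mul {h : W.H A →ₗ[W.K] W.K} (hh : F1 h) {x : W.H A} (hx : x ∈ W.gr A 1)
    (y : W.H A) : io m h (x * y) = h x • y - x * io m h y := by
  have h1 := cop_mul hA hh.d1 (ψ := 1) (ψ' := 1) (y := x) (ε := -1) hx
    (fun b => rfl) (fun a ha => by
      rw [LinearMap.smulRight_apply, smul_mul_assoc, mul_smul_comm, one_mul, mul_one, neg_neg,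
        one_smul]) y
  rw [LinearMap.smulRight_apply, smul_mul_assoc, one_mul, neg_one_smul, ← sub_eq_add_neg] at h1
  exact h1

lemma io_one {h : W.H A →ₗ[W.K] W.K} (hh : F1 h) : io m h 1 = 0 := cop_one hh.d1

lemma io_deg1 {h : W.H A →ₗ[W.K] W.K} (hh : F1 h) {x : W.H A} (hx : x ∈ W.gr A 1) :
    io m h x = h x • (1 : W.H A) := by
  have := io_mul hA hh hx 1
  rwa [mul_one, io_one hA hh, mul_zero, sub_zero] at this

lemma io_pair {h : W.H A →ₗ[W.K] W.K} (hh : F1 h) {x y : W.H A} (hx : x ∈ W.gr A 1)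
    (hy : y ∈ W.gr A 1) : io m h (x * y) = h x • y - h y • x := by
  rw [io_mul hA hh hx, io_deg1 hA hh hy, mul_smul_comm, mul_one]

lemma der_one {u : Module.End W.K (W.H A)} (hu : DO u) : der m u 1 = 0 := cop_one hu.d1

lemma der_pair {u : Module.End W.K (W.H A)} (hu : DO u) {x y : W.H A} (hx : x ∈ W.gr A 1)
    (hy : y ∈ W.gr A 1) : der m u (x * y) = u x * y + x * u y := by
  rw [der_mul hA hu hx]
  congr 2
  have := der_mul hA hu hy 1
  rwa [mul_one, der_one hA hu, mul_zero, mul_one, add_zero] at this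

lemma Psi_pair {u : Module.End W.K (W.H A)} (hu : DO u) {x y : W.H A} (hx : x ∈ W.gr A 1)
    (hy : y ∈ W.gr A 1) : Psi m u (x * y) = u x * u y := by
  have h := Psi_mul1 hA hu hy 1
  rw [mul_one, Psi_one hA hu, mul_one] at h
  rw [Psi_mul1 hA hu hx, h]

/-- Induction for classes of degree two. -/
lemma ind2 {p : W.H A → Prop} (h1 : ∀ x ∈ W.gr A 1, ∀ y ∈ W.gr A 1, p (x * y))
    (h2 : ∀ x y, p x → p y → p (x + y)) {z : W.H A} (hz : z ∈ W.gr A 2) : p z := by
  have h := hA.gen 2 hz
  rw [pow_two] at h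
  exact Submodule.mul_induction_on h h1 h2

lemma io_mem {h : W.H A →ₗ[W.K] W.K} (hh : F1 h) {z : W.H A} (hz : z ∈ W.gr A 2) :
    io m h z ∈ W.gr A 1 := by
  refine ind2 hA (p := fun z => io m h z ∈ W.gr A 1) ?_ ?_ hz
  · intro x hx y hy
    rw [io_pair hA hh hx hy]
    exact Submodule.sub_mem _ (Submodule.smul_mem _ _ hy) (Submodule.smul_mem _ _ hx)
  · intro a b ha hb; rw [map_add]; exact Submodule.add_mem _ ha hb

lemma der_mem {u : Module.End W.K (W.H A)} (hu : DO u) {z : W.H A} (hz : z ∈ W.gr A 2) :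
    der m u z ∈ W.gr A 2 := by
  refine ind2 hA (p := fun z => der m u z ∈ W.gr A 2) ?_ ?_ hz
  · intro x hx y hy
    rw [der_pair hA hu hx hy]
    exact Submodule.add_mem _ (W.mul_mem (hu.mem x hx) hy) (W.mul_mem hx (hu.mem y hy))
  · intro a b ha hb; rw [map_add]; exact Submodule.add_mem _ ha hb

omit hA in
lemma F1.comp {h : W.H A →ₗ[W.K] W.K} {u : Module.End W.K (W.H A)} (hu : DO u) :
    F1 (h ∘ₗ u) := by
  intro i hi a ha
  rw [LinearMap.comp_apply, hu.d1 i hi a ha, map_zero]

lemma io_der {h : W.H A →ₗ[W.K] W.K} (hh : F1 h) {u : Module.End W.K (W.H A)} (hu : DO u)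
    {z : W.H A} (hz : z ∈ W.gr A 2) :
    io m h (der m u z) = u (io m h z) + io m (h ∘ₗ u) z := by
  refine ind2 hA (p := fun z => io m h (der m u z) = u (io m h z) + io m (h ∘ₗ u) z) ?_ ?_ hz
  · intro x hx y hy
    rw [der_pair hA hu hx hy, map_add, io_pair hA hh (hu.mem x hx) hy,
      io_pair hA hh hx (hu.mem y hy), io_pair hA hh hx hy, io_pair hA (F1.comp hu) hx hy,
      LinearMap.comp_apply, LinearMap.comp_apply, map_sub, map_smul, map_smul]
    abel
  · intro a b ha hb
    rw [map_add, map_add, ha, hb, map_add, map_add, map_add]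
    abel

lemma io_Psi {h : W.H A →ₗ[W.K] W.K} (hh : F1 h) {u : Module.End W.K (W.H A)} (hu : DO u)
    {z : W.H A} (hz : z ∈ W.gr A 2) : io m h (Psi m u z) = u (io m (h ∘ₗ u) z) := by
  refine ind2 hA (p := fun z => io m h (Psi m u z) = u (io m (h ∘ₗ u) z)) ?_ ?_ hz
  · intro x hx y hy
    rw [Psi_pair hA hu hx hy, io_pair hA hh (hu.mem x hx) (hu.mem y hy),
      io_pair hA (F1.comp hu) hx hy, map_sub, map_smul, map_smul, LinearMap.comp_apply,
      LinearMap.comp_apply]
  · intro a b ha hb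
    rw [map_add, map_add, ha, hb, map_add, map_add]

lemma io_anti {h h' : W.H A →ₗ[W.K] W.K} (hh : F1 h) (hh' : F1 h') {z : W.H A}
    (hz : z ∈ W.gr A 2) : h' (io m h z) = -h (io m h' z) := by
  refine ind2 hA (p := fun z => h' (io m h z) = -h (io m h' z)) ?_ ?_ hz
  · intro x hx y hy
    rw [io_pair hA hh hx hy, io_pair hA hh' hx hy, map_sub, map_sub, map_smul, map_smul, map_smul,
      map_smul]
    simp only [smul_eq_mul]
    ring
  · intro a b ha hb
    rw [map_add, map_add, ha, hb, map_add, map_add]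
    ring

end

/-- Extension of a functional by zero. -/
noncomputable def exf (f : Module.Dual W.K (W.gr A 1)) : W.H A →ₗ[W.K] W.K :=
  f ∘ₗ (proj (W.isInternal A) 1).codRestrict (W.gr A 1) (fun a => proj_mem (W.isInternal A) 1 a)

lemma exf_F1 (f : Module.Dual W.K (W.gr A 1)) : F1 (exf f) := by
  intro i hi a ha
  have : (proj (W.isInternal A) 1).codRestrict (W.gr A 1)
      (fun a => proj_mem (W.isInternal A) 1 a) a = 0 := Subtype.ext (proj_ne _ ha hi)
  rw [exf, LinearMap.comp_apply, this, map_zero]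

lemma exf_apply (f : Module.Dual W.K (W.gr A 1)) (x : W.gr A 1) : exf f (x : W.H A) = f x := by
  have : (proj (W.isInternal A) 1).codRestrict (W.gr A 1)
      (fun a => proj_mem (W.isInternal A) 1 a) (x : W.H A) = x := Subtype.ext (proj_same _ x.2)
  rw [exf, LinearMap.comp_apply, this]

/-- Functionals on the first cohomology separate points. -/
lemma eq_of_F1 {x y : W.H A} (hx : x ∈ W.gr A 1) (hy : y ∈ W.gr A 1)
    (h : ∀ f : W.H A →ₗ[W.K] W.K, F1 f → f x = f y) : x = y := by
  have h1 : (⟨x, hx⟩ : W.gr A 1) = ⟨y, hy⟩ := by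
    rw [← sub_eq_zero, ← Module.forall_dual_apply_eq_zero_iff W.K]
    intro f
    have h2 := h (exf f) (exf_F1 f)
    rw [map_sub, ← exf_apply f ⟨x, hx⟩, ← exf_apply f ⟨y, hy⟩, h2, sub_self]
  exact congrArg Subtype.val h1

/-- Contractions separate the classes of degree two. -/
lemma eq_of_io (hA : IsAbelianLike W A m) {z z' : W.H A} (hz : z ∈ W.gr A 2) (hz' : z' ∈ W.gr A 2)
    (h : ∀ f : W.H A →ₗ[W.K] W.K, F1 f → io m f z = io m f z') : z = z' := by
  classical
  let b := Module.finBasis W.K (W.gr A 1)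
  have key : ∀ z ∈ W.gr A 2, ∑ i, (b i : W.H A) * io m (exf (b.coord i)) z = (2 : W.K) • z := by
    intro z hz
    refine ind2 hA (p := fun z => ∑ i, (b i : W.H A) * io m (exf (b.coord i)) z = (2 : W.K) • z)
      ?_ ?_ hz
    · intro x hx y hy
      have hsum : ∀ x : W.gr A 1, ∑ i, b.coord i x • (b i : W.H A) = x := by
        intro x
        have h1 := congrArg Subtype.val (b.sum_repr x)
        rw [AddSubmonoidClass.coe_finsetSum] at h1
        exact h1
      have h2 : ∀ i, (b i : W.H A) * io m (exf (b.coord i)) (x * y) =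
          (b.coord i ⟨x, hx⟩ • (b i : W.H A)) * y - (b.coord i ⟨y, hy⟩ • (b i : W.H A)) * x := by
        intro i
        rw [io_pair hA (exf_F1 _) hx hy]
        have h3 := exf_apply (b.coord i) ⟨x, hx⟩
        have h4 := exf_apply (b.coord i) ⟨y, hy⟩
        change exf (b.coord i) x = _ at h3
        change exf (b.coord i) y = _ at h4
        rw [h3, h4, mul_sub, mul_smul_comm, mul_smul_comm, smul_mul_assoc, smul_mul_assoc]
      rw [sum_congr rfl fun i _ => h2 i, sum_sub_distrib, ← sum_mul, ← sum_mul, hsum, hsum,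
        two_smul, anti hy hx, sub_neg_eq_add]
    · intro a b ha hb
      simp only [map_add, mul_add, sum_add_distrib, smul_add, ha, hb]
  have h1 : (2 : W.K) • z = (2 : W.K) • z' := by
    rw [← key z hz, ← key z' hz']
    exact sum_congr rfl fun i _ => by rw [h _ (exf_F1 _)]
  exact smul_right_injective _ (two_ne_zero (α := W.K)) h1

end Pool.Agent.Run7.h174.PI
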