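import Pool.Agent.Run7.h174.PiB

/-!
# The operator relating two divisor classes on an abelian variety
-/

set_option autoImplicit false

open CategoryTheory AlgebraicGeometry Finset Polynomial

universe u v

namespace Pool.Agent.Run7.h174.PI

open Pool.Agent.H914 Pool.Agent.H914.VarClass Pool.Agent.H914.VarClass.Obj
  Pool.Agent.H914.WeilCohomology Pool.Agent.H281R3.HT Pool.Agent.W552 Pool.Agent.R908

variable {k : Type u} [Field k] {𝒱 : VarClass k} {ops : CycleOps 𝒱}
  {W : WeilCohomology.{u, v} ops} {A : 𝒱.Obj} {m : A.prod A ⟶ A}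

lemma TT_add (φ φ' ψ : Module.End W.K (W.H A)) : TT (φ + φ') ψ = TT φ ψ + TT φ' ψ := by
  rw [TT, extOp_add_left, LinearMap.comp_add]; rfl

lemma TT_smul (c : W.K) (φ ψ : Module.End W.K (W.H A)) : TT (c • φ) ψ = c • TT φ ψ := by
  rw [TT, extOp_smul_left, LinearMap.comp_smul]; rfl

lemma der_add (u u' : Module.End W.K (W.H A)) : der m (u + u') = der m u + der m u' := by
  rw [der, cop, TT_add, LinearMap.add_comp]; rfl

lemma der_smul (c : W.K) (u : Module.End W.K (W.H A)) : der m (c • u) = c • der m u := by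
  rw [der, cop, TT_smul, LinearMap.smul_comp]; rfl

lemma io_add (h h' : W.H A →ₗ[W.K] W.K) : io m (h + h') = io m h + io m h' := by
  have : (h + h').smulRight (1 : W.H A) = h.smulRight 1 + h'.smulRight 1 := by
    ext x; simp [add_smul]
  rw [io, this, cop, TT_add, LinearMap.add_comp]; rfl

lemma io_smul (c : W.K) (h : W.H A →ₗ[W.K] W.K) : io m (c • h) = c • io m h := by
  have : (c • h).smulRight (1 : W.H A) = c • h.smulRight 1 := by
    ext x; simp [mul_smul]
  rw [io, this, cop, TT_smul, LinearMap.smul_comp]; rfl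

lemma F1.add {h h' : W.H A →ₗ[W.K] W.K} (hh : F1 h) (hh' : F1 h') : F1 (h + h') := by
  intro i hi a ha
  rw [LinearMap.add_apply, hh i hi a ha, hh' i hi a ha, add_zero]

lemma F1.smul {h : W.H A →ₗ[W.K] W.K} (hh : F1 h) (c : W.K) : F1 (c • h) := by
  intro i hi a ha
  rw [LinearMap.smul_apply, hh i hi a ha, smul_zero]

lemma F1.ext {h h' : W.H A →ₗ[W.K] W.K} (hh : F1 h) (hh' : F1 h')
    (heq : ∀ x ∈ W.gr A 1, h x = h' x) : h = h' := by
  apply gr_ext (W.isInternal A)
  intro i a ha
  by_cases hi : i = 1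
  · subst hi; exact heq a ha
  · rw [hh i hi a ha, hh' i hi a ha]

lemma pow2 {e : W.H A} (he : e ∈ W.gr A 2) (n : ℕ) : e ^ n ∈ W.gr A (2 * n) := by
  induction n with
  | zero => rw [pow_zero, mul_zero]; exact W.one_mem A
  | succ n ih =>
    rw [pow_succ, show 2 * (n + 1) = 2 * n + 2 by ring]
    exact W.mul_mem ih he

lemma ecomm {e : W.H A} (he : e ∈ W.gr A 2) (n : ℕ) (y : W.H A) : e ^ n * y = y * e ^ n :=
  W.even_comm (p := n) (pow2 he n) y

section

variable (hA : IsAbelianLike W A m) {e : W.H A} (he : e ∈ W.gr A 2)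

include hA

lemma io_even {h : W.H A →ₗ[W.K] W.K} (hh : F1 h) {z : W.H A} (hz : z ∈ W.gr A 2) (y : W.H A) :
    io m h (z * y) = io m h z * y + z * io m h y := by
  refine ind2 hA (p := fun z => io m h (z * y) = io m h z * y + z * io m h y) ?_ ?_ hz
  · intro a ha b hb
    rw [mul_assoc, io_mul hA hh ha, io_mul hA hh hb, io_pair hA hh ha hb]
    simp only [mul_sub, sub_mul, smul_mul_assoc, mul_smul_comm, mul_assoc]
    abel
  · intro a b ha hb
    rw [add_mul, map_add, ha, hb, map_add, add_mul, add_mul]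
    abel

include he

lemma io_pow {h : W.H A →ₗ[W.K] W.K} (hh : F1 h) (n : ℕ) :
    io m h (e ^ (n + 1)) = ((n + 1 : ℕ) : W.K) • (e ^ n * io m h e) := by
  induction n with
  | zero => rw [zero_add, pow_one, pow_zero, one_mul, Nat.cast_one, one_smul]
  | succ n ih =>
    rw [pow_succ' e (n + 1), io_even hA hh he, ih, ← ecomm he, mul_smul_comm, ← mul_assoc,
      ← pow_succ', Nat.cast_succ (n + 1), add_smul, one_smul, add_comm]

/-- The functional `y ↦ tr (e ^ g x y)`. -/
noncomputable def hh (W : WeilCohomology.{u, v} ops) (g : ℕ) (e x : W.H A) : W.H A →ₗ[W.K] W.K :=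
  W.tr A ∘ₗ LinearMap.mulLeft W.K (e ^ g * x)

omit hA in
lemma hh_F1 {g : ℕ} (hg : A.dim = g + 1) {x : W.H A} (hx : x ∈ W.gr A 1) : F1 (hh W g e x) := by
  intro i hi a ha
  exact W.tr_eq_zero (W.mul_mem (W.mul_mem (pow2 he g) hx) ha) (by omega)

lemma lieb1 {g : ℕ} (hg : A.dim = g + 1) {h : W.H A →ₗ[W.K] W.K} (hh : F1 h) {y : W.H A}
    (hy : y ∈ W.gr A 1) : h y * W.tr A (e ^ (g + 1)) =
      -(((g + 1 : ℕ) : W.K) * W.tr A (e ^ g * io m h e * y)) := by
  have h1 : y * e ^ (g + 1) = 0 := by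
    have h2 := W.mul_mem hy (pow2 he (g + 1))
    rwa [W.gr_eq_bot A _ (by omega), Submodule.mem_bot] at h2
  have h2 := io_mul hA hh hy (e ^ (g + 1))
  rw [h1, map_zero, io_pow hA he hh] at h2
  have h3 := congrArg (W.tr A) h2
  have h5 : y * (e ^ g * io m h e) = -(e ^ g * io m h e * y) := by
    rw [← mul_assoc, ← ecomm he, mul_assoc, anti hy (io_mem hA hh he), mul_neg, mul_assoc]
  rw [map_zero, map_sub, map_smul, mul_smul_comm, map_smul, h5, map_neg, smul_eq_mul,
    smul_eq_mul] at h3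
  linear_combination -h3

lemma io_inj {g : ℕ} (hg : A.dim = g + 1) (htop : W.tr A (e ^ (g + 1)) ≠ 0)
    {h h' : W.H A →ₗ[W.K] W.K} (hh : F1 h) (hh' : F1 h') (heq : io m h e = io m h' e) :
    h = h' := by
  apply hh.ext hh'
  intro y hy
  have h1 := lieb1 hA he hg hh hy
  have h2 := lieb1 hA he hg hh' hy
  rw [heq, ← h2] at h1
  exact mul_right_cancel₀ htop h1

variable {g : ℕ} (hg : A.dim = g + 1) (htop : W.tr A (e ^ (g + 1)) ≠ 0)
  (hHL : ∀ x ∈ W.gr A 1, e ^ g * x = 0 → x = 0)

include hg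

include hHL in
lemma lieb2 {x : W.H A} (hx : x ∈ W.gr A 1) :
    io m (hh W g e x) e = (-(W.tr A (e ^ (g + 1)) * ((g + 1 : ℕ) : W.K)⁻¹)) • x := by
  have hF := hh_F1 (W := W) he hg hx
  set v := io m (hh W g e x) e with hv
  have hvm : v ∈ W.gr A 1 := io_mem hA hF he
  have h0 : ((g + 1 : ℕ) : W.K) ≠ 0 := by exact_mod_cast Nat.succ_ne_zero g
  have key : W.tr A (e ^ (g + 1)) • x + ((g + 1 : ℕ) : W.K) • v = 0 := by
    apply hHL _ (Submodule.add_mem _ (Submodule.smul_mem _ _ hx) (Submodule.smul_mem _ _ hvm))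
    apply W.nondeg
    intro b
    refine gr_induction (W.isInternal A) (p := fun b => W.tr A (e ^ g *
      (W.tr A (e ^ (g + 1)) • x + ((g + 1 : ℕ) : W.K) • v) * b) = 0) ?_ ?_ b
    · intro i b hb
      by_cases hi : i = 1
      · subst hi
        have h1 := lieb1 hA he hg hF hb
        have h2 : hh W g e x b = W.tr A (e ^ g * x * b) := rfl
        rw [h2, ← hv] at h1
        rw [mul_add, add_mul, mul_smul_comm, mul_smul_comm, smul_mul_assoc, smul_mul_assoc,
          map_add, map_smul, map_smul, smul_eq_mul, smul_eq_mul]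
        linear_combination h1
      · exact W.tr_eq_zero (W.mul_mem (W.mul_mem (pow2 he g) (Submodule.add_mem _
          (Submodule.smul_mem _ _ hx) (Submodule.smul_mem _ _ hvm))) hb) (by omega)
    · intro a b ha hb
      rw [mul_add, map_add, ha, hb, add_zero]
  have h1 : ((g + 1 : ℕ) : W.K) • v = -(W.tr A (e ^ (g + 1)) • x) := by
    rw [eq_neg_iff_add_eq_zero, add_comm]; exact key
  have h2 : v = ((g + 1 : ℕ) : W.K)⁻¹ • (((g + 1 : ℕ) : W.K) • v) := by
    rw [smul_smul, inv_mul_cancel₀ h0, one_smul]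
  rw [h2, h1, smul_neg, smul_smul, neg_smul, mul_comm]

end

/-- The correspondence given by the part of bidegree `(1, *)`. -/
lemma corr_ext1 {c : W.H (A.prod A)} (hc : AS W (A.prod A) c)
    (hp : AOp W A A (proj (W.isInternal A) 1)) (y : W.H A) :
    W.corr (extOp W (proj (W.isInternal A) 1) 1 c) y =
      TT ((W.tr A ∘ₗ LinearMap.mulLeft W.K y ∘ₗ proj (W.isInternal A) 1).smulRight 1) 1 c := by
  have hM : AS W (A.prod A) (extOp W (proj (W.isInternal A) 1) 1 c) := (hp.ext AOp.one).apply hc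
  rw [corr_apply, hM.comm]
  refine W.kunneth_induction (p := fun c => W.push (snd A A) (W.map (fst A A) y *
    extOp W (proj (W.isInternal A) 1) 1 c) =
      TT ((W.tr A ∘ₗ LinearMap.mulLeft W.K y ∘ₗ proj (W.isInternal A) 1).smulRight 1) 1 c)
    ?_ ?_ c
  · intro a b ha hb
    rw [map_add, mul_add, map_add, ha, hb, map_add]
  · intro i j a _ b _
    rw [extOp_tmul, TT_tmul, ← mul_assoc, ← map_mul, push_snd, LinearMap.smulRight_apply,
      smul_mul_assoc, one_mul]
    rfl

/-- The operator `φ_{e'} φ_e⁻¹`. -/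
noncomputable def sop (W : WeilCohomology.{u, v} ops) (m : A.prod A ⟶ A) (g : ℕ)
    (e e' : W.H A) : Module.End W.K (W.H A) :=
  (-(W.tr A (e ^ (g + 1)) * ((g + 1 : ℕ) : W.K)⁻¹))⁻¹ •
    (W.corr (extOp W (proj (W.isInternal A) 1) 1 (W.map m e')) ∘ₗ
      LinearMap.mulLeft W.K (e ^ g) ∘ₗ proj (W.isInternal A) 1)

section

variable (hA : IsAbelianLike W A m) {e e' : W.H A} (he : e ∈ W.gr A 2) (he' : e' ∈ W.gr A 2)
  {g : ℕ} (hg : A.dim = g + 1) (htop : W.tr A (e ^ (g + 1)) ≠ 0)
  (hHL : ∀ x ∈ W.gr A 1, e ^ g * x = 0 → x = 0) (hS' : AS W A e')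
  (hp : AOp W A A (proj (W.isInternal A) 1))

include hg he hS' hp in
lemma sop_apply {x : W.H A} (hx : x ∈ W.gr A 1) : sop W m g e e' x =
    (-(W.tr A (e ^ (g + 1)) * ((g + 1 : ℕ) : W.K)⁻¹))⁻¹ • io m (hh W g e x) e' := by
  rw [sop, LinearMap.smul_apply, LinearMap.comp_apply, LinearMap.comp_apply, proj_same _ hx,
    LinearMap.mulLeft_apply, corr_ext1 (hS'.map m) hp]
  have h1 : W.tr A ∘ₗ LinearMap.mulLeft W.K (e ^ g * x) ∘ₗ proj (W.isInternal A) 1 =
      hh W g e x := by
    apply F1.ext (W := W) (A := A)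
    · intro i hi a ha
      rw [LinearMap.comp_apply, LinearMap.comp_apply, proj_ne _ ha hi, map_zero, map_zero]
    · exact hh_F1 he hg hx
    · intro y hy
      rw [LinearMap.comp_apply, LinearMap.comp_apply, proj_same _ hy]
      rfl
  rw [h1]
  rfl

include hA he he' hg hS' hp in
lemma sop_DO : DO (sop W m g e e') := by
  refine ⟨fun i hi a ha => ?_, fun a ha => ?_⟩
  · rw [sop, LinearMap.smul_apply, LinearMap.comp_apply, LinearMap.comp_apply, proj_ne _ ha hi,
      map_zero, map_zero, smul_zero]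
  · rw [sop_apply he hg hS' hp ha]
    exact Submodule.smul_mem _ _ (io_mem hA (hh_F1 he hg ha) he')

include hA he hg htop hHL hS' hp in
lemma sop_io {h : W.H A →ₗ[W.K] W.K} (hf : F1 h) :
    sop W m g e e' (io m h e) = io m h e' := by
  set κ := -(W.tr A (e ^ (g + 1)) * ((g + 1 : ℕ) : W.K)⁻¹) with hκ
  have h0 : ((g + 1 : ℕ) : W.K) ≠ 0 := by exact_mod_cast Nat.succ_ne_zero g
  have hκ0 : κ ≠ 0 := neg_ne_zero.2 (mul_ne_zero htop (inv_ne_zero h0))
  have hx := io_mem hA hf he
  have h1 : hh W g e (io m h e) = κ • h := by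
    apply io_inj hA he hg htop (hh_F1 he hg hx) (hf.smul κ)
    rw [lieb2 hA he hg hHL hx, io_smul, LinearMap.smul_apply]
  rw [sop_apply he hg hS' hp hx, h1, io_smul, LinearMap.smul_apply, smul_smul,
    inv_mul_cancel₀ hκ0, one_smul]

/-- Symmetric operators. -/
def Sy (m : A.prod A ⟶ A) (e : W.H A) (u : Module.End W.K (W.H A)) : Prop :=
  ∀ h : W.H A →ₗ[W.K] W.K, F1 h → u (io m h e) = io m (h ∘ₗ u) e

include hA he he' hg htop hHL hS' hp in
lemma sop_Sy : Sy m e (sop W m g e e') := by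
  intro h hf
  have hs := sop_DO hA he he' hg hS' hp (m := m)
  apply eq_of_F1 (hs.mem _ (io_mem hA hf he)) (io_mem hA (F1.comp hs) he)
  intro f hf'
  rw [sop_io hA he hg htop hHL hS' hp hf, io_anti hA hf hf' he',
    ← sop_io hA he hg htop hHL hS' hp hf', io_anti hA (F1.comp hs) hf' he]
  rfl

end

/-- Polynomials in `s`, restricted to the first cohomology. -/
noncomputable def up (s : Module.End W.K (W.H A)) (p : W.K[X]) : Module.End W.K (W.H A) :=
  aeval s p * proj (W.isInternal A) 1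

section

variable {s : Module.End W.K (W.H A)} (hs : DO s)

lemma up_add (p q : W.K[X]) : up s (p + q) = up s p + up s q := by
  rw [up, map_add, add_mul]; rfl

lemma up_smul (c : W.K) (p : W.K[X]) : up s (c • p) = c • up s p := by
  rw [up, map_smul, smul_mul_assoc]; rfl

include hs

lemma DO.comm : s * proj (W.isInternal A) 1 = proj (W.isInternal A) 1 * s := by
  apply gr_ext (W.isInternal A)
  intro i a ha
  rw [Module.End.mul_apply, Module.End.mul_apply]
  by_cases hi : i = 1
  · subst hi; rw [proj_same _ ha, proj_same _ (hs.mem a ha)]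
  · rw [proj_ne _ ha hi, hs.d1 i hi a ha, map_zero, map_zero]

lemma DO.mul_proj : s * proj (W.isInternal A) 1 = s := by
  apply gr_ext (W.isInternal A)
  intro i a ha
  rw [Module.End.mul_apply]
  by_cases hi : i = 1
  · subst hi; rw [proj_same _ ha]
  · rw [proj_ne _ ha hi, hs.d1 i hi a ha, map_zero]

lemma up_comm (p : W.K[X]) : aeval s p * proj (W.isInternal A) 1 =
    proj (W.isInternal A) 1 * aeval s p := by
  have h1 : Commute s (proj (W.isInternal A) 1) := hs.comm
  exact (Algebra.commute_of_mem_adjoin_singleton_of_commute (R := W.K)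
    (aeval_mem_adjoin_singleton _ _) h1.symm).symm.eq

lemma up_mul (p q : W.K[X]) : up s (p * q) = up s p * up s q := by
  rw [up, up, up, map_mul, mul_assoc, mul_assoc, ← mul_assoc (proj (W.isInternal A) 1),
    ← up_comm hs, mul_assoc, proj_mul_proj]

lemma up_X : up s X = s := by rw [up, aeval_X, hs.mul_proj]

omit hs in
lemma up_one : up s 1 = proj (W.isInternal A) 1 := by rw [up, map_one, one_mul]

lemma up_DO (p : W.K[X]) : DO (up s p) := by
  refine ⟨fun i hi a ha => ?_, fun a _ => ?_⟩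
  · rw [up, Module.End.mul_apply, proj_ne _ ha hi, map_zero]
  · rw [up, up_comm hs, Module.End.mul_apply]; exact proj_mem _ _ _

end

/-- The class `E` with `φ_E = p(s) φ_e`. -/
noncomputable def EE (m : A.prod A ⟶ A) (s : Module.End W.K (W.H A)) (e : W.H A) (p : W.K[X]) :
    W.H A := (2 : W.K)⁻¹ • der m (up s p) e

lemma EE_add (s : Module.End W.K (W.H A)) (e : W.H A) (p q : W.K[X]) :
    EE m s e (p + q) = EE m s e p + EE m s e q := by
  rw [EE, up_add, der_add, LinearMap.add_apply, smul_add]; rfl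

lemma EE_smul (s : Module.End W.K (W.H A)) (e : W.H A) (c : W.K) (p : W.K[X]) :
    EE m s e (c • p) = c • EE m s e p := by
  rw [EE, up_smul, der_smul, LinearMap.smul_apply, smul_comm]; rfl

lemma EE_zero_of {s : Module.End W.K (W.H A)} {e : W.H A} {p : W.K[X]} (h : up s p = 0) :
    EE m s e p = 0 := by
  have h1 : der m (0 : Module.End W.K (W.H A)) = 0 := by
    have := der_smul (m := m) (0 : W.K) (0 : Module.End W.K (W.H A))
    rwa [zero_smul, zero_smul] at this
  rw [EE, h, h1, LinearMap.zero_apply, smul_zero]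

section

variable (hA : IsAbelianLike W A m) {e e' : W.H A} (he : e ∈ W.gr A 2) (he' : e' ∈ W.gr A 2)
  {s : Module.End W.K (W.H A)} (hs : DO s) (hsy : Sy m e s)

include hA he hs

lemma EE_mem (p : W.K[X]) : EE m s e p ∈ W.gr A 2 :=
  Submodule.smul_mem _ _ (der_mem hA (up_DO hs p) he)

include hsy

lemma up_Sy (p : W.K[X]) : Sy m e (up s p) := by
  induction p using Polynomial.induction_on' with
  | add p q hp hq =>
    intro h hf
    rw [up_add, LinearMap.add_apply, hp h hf, hq h hf, LinearMap.comp_add, io_add]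
    rfl
  | monomial n c =>
    have key : ∀ n, Sy m e (up s (X ^ n)) := by
      intro n
      induction n with
      | zero =>
        intro h hf
        have h1 : h ∘ₗ proj (W.isInternal A) 1 = h := by
          apply F1.ext (W := W) (A := A) _ hf
          · intro x hx
            rw [LinearMap.comp_apply, proj_same _ hx]
          · intro i hi a ha
            rw [LinearMap.comp_apply, proj_ne _ ha hi, map_zero]
        rw [pow_zero, up_one, proj_same _ (io_mem hA hf he), h1]
      | succ n ih =>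
        intro h hf
        have h1 : up s (X ^ (n + 1)) = s * up s (X ^ n) := by
          rw [pow_succ', up_mul hs, up_X hs]
        have h2 : up s (X ^ (n + 1)) = up s (X ^ n) * s := by
          rw [pow_succ, up_mul hs, up_X hs]
        have h3 : up s (X ^ (n + 1)) (io m h e) = s (up s (X ^ n) (io m h e)) := by
          rw [h1]; rfl
        rw [h3, ih h hf, hsy _ (F1.comp (up_DO hs _)), h2]
        rfl
    intro h hf
    rw [← C_mul_X_pow_eq_monomial, ← smul_eq_C_mul, up_smul, LinearMap.smul_apply, key n h hf,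
      LinearMap.comp_smul, io_smul]
    rfl

lemma io_EE (p : W.K[X]) {h : W.H A →ₗ[W.K] W.K} (hf : F1 h) :
    io m h (EE m s e p) = up s p (io m h e) := by
  have h2 : (2 : W.K) ≠ 0 := two_ne_zero
  rw [EE, map_smul, io_der hA hf (up_DO hs p) he, ← up_Sy hA he hs hsy p h hf, ← two_smul W.K,
    smul_smul, inv_mul_cancel₀ h2, one_smul]

lemma EE_one : EE m s e 1 = e := by
  apply eq_of_io hA (EE_mem hA he hs 1) he
  intro f hf
  rw [io_EE hA he hs hsy 1 hf, up_one, proj_same _ (io_mem hA hf he)]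

include he' in
lemma EE_X (h : ∀ f : W.H A →ₗ[W.K] W.K, F1 f → s (io m f e) = io m f e') :
    EE m s e X = e' := by
  apply eq_of_io hA (EE_mem hA he hs X) he'
  intro f hf
  rw [io_EE hA he hs hsy X hf, up_X hs, h f hf]

lemma Psi_EE (f : W.K[X]) : Psi m (up s f) e = EE m s e (f * f) := by
  apply eq_of_io hA (Psi_mem hA (up_DO hs f) he) (EE_mem hA he hs _)
  intro h hf
  rw [io_EE hA he hs hsy _ hf, io_Psi hA hf (up_DO hs f) he, ← up_Sy hA he hs hsy f h hf,
    up_mul hs]
  rfl

end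

end Pool.Agent.Run7.h174.PI
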