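import Mathlib

/-!
# Square roots of `X` modulo real polynomials without non-positive roots, and rational approximation
-/

set_option autoImplicit false

open Polynomial Filter Topology

namespace Pool.Agent.Run7.h174.PI

/-- A product of divisors divides a power. -/
lemma prod_dvd_pow {R : Type*} [CommMonoid R] (S : Multiset R) (b : R) (h : ∀ a ∈ S, a ∣ b) :
    S.prod ∣ b ^ Multiset.card S := by
  induction S using Multiset.induction_on with
  | empty => simp
  | cons a S ih =>
    rw [Multiset.prod_cons, Multiset.card_cons, pow_succ']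
    exact mul_dvd_mul (h a (Multiset.mem_cons_self _ _))
      (ih fun x hx => h x (Multiset.mem_cons_of_mem hx))

/-- A split polynomial whose roots are roots of `b` divides a power of `b`. -/
lemma dvd_pow_of_roots {F : Type*} [Field F] [IsAlgClosed F] {q b : F[X]} (hq : q ≠ 0)
    (h : ∀ x, q.IsRoot x → b.IsRoot x) : q ∣ b ^ Multiset.card q.roots := by
  have h1 := (IsAlgClosed.splits q).eq_prod_roots
  have h2 : (q.roots.map fun a => X - C a).prod ∣ b ^ Multiset.card q.roots := by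
    have := prod_dvd_pow (q.roots.map fun a => X - C a) b (by
      intro a ha
      obtain ⟨x, hx, rfl⟩ := Multiset.mem_map.1 ha
      exact dvd_iff_isRoot.2 (h x ((mem_roots hq).1 hx)))
    rwa [Multiset.card_map] at this
  obtain ⟨c, hc⟩ := h2
  refine ⟨C (q.leadingCoeff)⁻¹ * c, ?_⟩
  have h3 : C q.leadingCoeff * C (q.leadingCoeff)⁻¹ = 1 := by
    rw [← C_mul, mul_inv_cancel₀ (leadingCoeff_ne_zero.2 hq), C_1]
  calc b ^ Multiset.card q.roots = (q.roots.map fun a => X - C a).prod * c := hc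
    _ = (C q.leadingCoeff * C (q.leadingCoeff)⁻¹) * ((q.roots.map fun a => X - C a).prod * c) := by
        rw [h3, one_mul]
    _ = (C q.leadingCoeff * (q.roots.map fun a => X - C a).prod) *
        (C (q.leadingCoeff)⁻¹ * c) := by ring
    _ = q * (C (q.leadingCoeff)⁻¹ * c) := by rw [← h1]

/-- The real polynomial whose coefficients are the real parts. -/
noncomputable def rePoly (G : ℂ[X]) : ℝ[X] :=
  ∑ i ∈ Finset.range (G.natDegree + 1), C ((G.coeff i).re) * X ^ i

lemma rePoly_eval (G : ℂ[X]) (z : ℂ) :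
    ((rePoly G).map (algebraMap ℝ ℂ)).eval z =
      (G.eval z + (starRingEnd ℂ) (G.eval ((starRingEnd ℂ) z))) / 2 := by
  have h1 : G.eval z = ∑ i ∈ Finset.range (G.natDegree + 1), G.coeff i * z ^ i :=
    eval_eq_sum_range z
  have h2 : (starRingEnd ℂ) (G.eval ((starRingEnd ℂ) z)) =
      ∑ i ∈ Finset.range (G.natDegree + 1), (starRingEnd ℂ) (G.coeff i) * z ^ i := by
    rw [eval_eq_sum_range, map_sum]
    refine Finset.sum_congr rfl fun i _ => ?_
    rw [map_mul, map_pow, Complex.conj_conj]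
  rw [h1, h2, ← Finset.sum_add_distrib, rePoly, Polynomial.map_sum, eval_finsetSum,
    Finset.sum_div]
  refine Finset.sum_congr rfl fun i _ => ?_
  rw [Polynomial.map_mul, Polynomial.map_pow, map_X, map_C, eval_mul, eval_C, eval_pow, eval_X]
  have h3 : (algebraMap ℝ ℂ) (G.coeff i).re = (G.coeff i + (starRingEnd ℂ) (G.coeff i)) / 2 := by
    rw [Complex.add_conj]
    simp
  rw [h3]
  ring

/-- Lifting of square roots modulo nilpotent elements. -/
lemma newton {R : Type*} [CommRing R] (x y : R) (hn : IsNilpotent (y * y - x)) (hy : IsUnit y)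
    (h2 : IsUnit (2 : R)) : ∃ r : R, r * r = x := by
  obtain ⟨r, ⟨-, hr⟩, -⟩ := Polynomial.existsUnique_nilpotent_sub_and_aeval_eq_zero
    (R := R) (S := R) (x := y) (P := X ^ 2 - C x)
    (by
      have h1 : aeval y (X ^ 2 - C x) = y * y - x := by
        rw [coe_aeval_eq_eval, eval_sub, eval_pow, eval_X, eval_C, pow_two]
      rw [h1]; exact hn)
    (by
      have h1 : aeval y (derivative (X ^ 2 - C x)) = 2 * y := by
        rw [coe_aeval_eq_eval, derivative_sub, derivative_X_pow, derivative_C, sub_zero, eval_mul,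
          eval_pow, eval_X, eval_C]
        simp
      rw [h1]; exact h2.mul hy)
  refine ⟨r, ?_⟩
  rw [coe_aeval_eq_eval, eval_sub, eval_pow, eval_X, eval_C, pow_two, sub_eq_zero] at hr
  exact hr

/-- **Square roots modulo a polynomial without non-positive roots.** -/
theorem exists_sqrt {μ : ℝ[X]} (hμ : μ ≠ 0) (h : ∀ x ≤ 0, μ.eval x ≠ 0) :
    ∃ f q : ℝ[X], f * f = X + μ * q := by
  classical
  set μc := μ.map (algebraMap ℝ ℂ) with hμc
  have hμc0 : μc ≠ 0 := (Polynomial.map_ne_zero_iff (algebraMap ℝ ℂ).injective).2 hμ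
  have hroot : ∀ z : ℂ, μc.IsRoot z → z.arg ≠ Real.pi := by
    intro z hz harg
    rw [Complex.arg_eq_pi_iff] at harg
    have h1 : z = ((z.re : ℝ) : ℂ) := by
      apply Complex.ext
      · simp
      · simp [harg.2]
    have h2 : μc.eval z = ((μ.eval z.re : ℝ) : ℂ) := by
      rw [h1, hμc, eval_map_algebraMap, Complex.ofReal_re]
      exact (aeval_algebraMap_apply ℂ z.re μ)
    rw [IsRoot.def, h2, Complex.ofReal_eq_zero] at hz
    exact h _ harg.1.le hz
  have hconj : ∀ z : ℂ, μc.IsRoot z → μc.IsRoot ((starRingEnd ℂ) z) := by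
    intro z hz
    rw [IsRoot.def] at hz ⊢
    have h1 : μc.eval ((starRingEnd ℂ) z) = (starRingEnd ℂ) (μc.eval z) := by
      rw [hμc, eval_map_algebraMap, eval_map_algebraMap]
      exact aeval_conj μ z
    rw [h1, hz, map_zero]
  set S : Finset ℂ := μc.roots.toFinset with hS
  have hmem : ∀ z, z ∈ S ↔ μc.IsRoot z := by
    intro z
    rw [hS, Multiset.mem_toFinset, mem_roots hμc0]
  set G : ℂ[X] := Lagrange.interpolate S id (fun z => z ^ (1 / 2 : ℂ)) with hG
  have hGev : ∀ z ∈ S, G.eval z = z ^ (1 / 2 : ℂ) := by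
    intro z hz
    exact Lagrange.eval_interpolate_at_node (fun z : ℂ => z ^ (1 / 2 : ℂ)) Function.injective_id.injOn hz
  set g := rePoly G with hg
  have hgev : ∀ z, μc.IsRoot z → (g.map (algebraMap ℝ ℂ)).eval z = z ^ (1 / 2 : ℂ) := by
    intro z hz
    rw [hg, rePoly_eval, hGev z ((hmem z).2 hz), hGev _ ((hmem _).2 (hconj z hz))]
    have h1 : (starRingEnd ℂ) z ^ (1 / 2 : ℂ) = (starRingEnd ℂ) (z ^ (1 / 2 : ℂ)) := by
      have h2 := Complex.cpow_conj z (1 / 2 : ℂ) (hroot z hz)
      have h3 : (starRingEnd ℂ) (1 / 2 : ℂ) = 1 / 2 := by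
        rw [map_div₀, map_one, Complex.conj_ofNat]
      have h4 := Complex.conj_cpow z (1 / 2 : ℂ) (hroot z hz)
      rw [h3] at h4
      exact h4
    rw [h1, Complex.conj_conj]
    ring
  -- the defect is nilpotent modulo `μ`
  have hdvd : μ ∣ (g * g - X) ^ Multiset.card μc.roots := by
    rw [← Polynomial.map_dvd_map' (algebraMap ℝ ℂ), Polynomial.map_pow]
    apply dvd_pow_of_roots hμc0
    intro z hz
    rw [IsRoot.def, Polynomial.map_sub, Polynomial.map_mul, map_X, eval_sub, eval_mul, eval_X,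
      hgev z hz, sub_eq_zero]
    by_cases hz0 : z = 0
    · exfalso
      have h1 : μc.eval (0 : ℂ) = ((μ.eval 0 : ℝ) : ℂ) := by
        rw [hμc, eval_map_algebraMap]
        have := aeval_algebraMap_apply ℂ (0 : ℝ) μ
        rw [map_zero] at this
        exact this
      rw [hz0, IsRoot.def, h1, Complex.ofReal_eq_zero] at hz
      exact h 0 le_rfl hz
    · rw [← Complex.cpow_add _ _ hz0]
      norm_num
  -- lifting
  let B := ℝ[X] ⧸ Ideal.span {μ}
  let π : ℝ[X] →+* B := Ideal.Quotient.mk (Ideal.span {μ})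
  have hπ : ∀ p, π p = 0 ↔ μ ∣ p := fun p => by
    rw [Ideal.Quotient.eq_zero_iff_mem, Ideal.mem_span_singleton]
  have hnil : IsNilpotent (π (g * g - X)) := ⟨_, by rw [← map_pow, hπ]; exact hdvd⟩
  have hXu : IsUnit (π X) := by
    have h1 : μ.divX * X + C (μ.coeff 0) = μ := divX_mul_X_add μ
    have h2 : μ.coeff 0 ≠ 0 := by
      rw [coeff_zero_eq_eval_zero]; exact h 0 le_rfl
    have h3 : π X * π (-(C (μ.coeff 0)⁻¹ * μ.divX)) = 1 := by
      rw [← map_mul, ← sub_eq_zero, ← map_one π, ← map_sub, hπ]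
      refine ⟨-C (μ.coeff 0)⁻¹, ?_⟩
      have h4 : C (μ.coeff 0)⁻¹ * C (μ.coeff 0) = (1 : ℝ[X]) := by
        rw [← C_mul, inv_mul_cancel₀ h2, C_1]
      linear_combination (-C (μ.coeff 0)⁻¹) * h1 + h4
    exact IsUnit.of_mul_eq_one _ h3
  have hgg : IsUnit (π g * π g) := by
    have h1 : π g * π g = π (g * g - X) + π X := by
      rw [← map_add, ← map_mul]; congr 1; ring
    rw [h1]
    exact hnil.isUnit_add_right_of_commute hXu (Commute.all _ _)
  have hgu : IsUnit (π g) := isUnit_of_mul_isUnit_left hgg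
  have h2u : IsUnit (2 : B) := by
    have : IsUnit (algebraMap ℝ B 2) := (isUnit_iff_ne_zero.2 (two_ne_zero (α := ℝ))).map _
    rwa [map_ofNat] at this
  obtain ⟨r, hr⟩ := newton (R := B) (π X) (π g)
    (by rw [← map_mul, ← map_sub]; exact hnil) hgu h2u
  obtain ⟨f, hf⟩ := Ideal.Quotient.mk_surjective (I := Ideal.span {μ}) r
  have h5 : π f = r := hf
  have h6 : π (f * f - X) = 0 := by
    rw [map_sub, map_mul, h5, hr, sub_self]
  obtain ⟨q, hq⟩ := (hπ _).1 h6
  exact ⟨f, q, by rw [← hq]; ring⟩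

/-- Rational approximation of real polynomials. -/
lemma exists_approx (f : ℝ[X]) : ∃ F : ℕ → ℚ[X], (∀ t, (F t).natDegree ≤ f.natDegree) ∧
    ∀ j, Tendsto (fun t => (((F t).coeff j : ℚ) : ℝ)) atTop (𝓝 (f.coeff j)) := by
  have h1 : ∀ x : ℝ, ∃ u : ℕ → ℚ, Tendsto (fun t => ((u t : ℚ) : ℝ)) atTop (𝓝 x) := by
    intro x
    obtain ⟨u, -, hu⟩ := Real.exists_seq_rat_strictMono_tendsto x
    exact ⟨u, hu.2⟩
  choose u hu using h1
  refine ⟨fun t => ∑ i ∈ Finset.range (f.natDegree + 1), C (u (f.coeff i) t) * X ^ i, ?_, ?_⟩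
  · intro t
    apply natDegree_sum_le_of_forall_le
    intro i hi
    exact (natDegree_C_mul_X_pow_le _ _).trans (Nat.lt_succ_iff.1 (Finset.mem_range.1 hi))
  · intro j
    have h2 : ∀ t, (∑ i ∈ Finset.range (f.natDegree + 1), C (u (f.coeff i) t) * X ^ i).coeff j =
        if j < f.natDegree + 1 then u (f.coeff j) t else 0 := by
      intro t
      rw [finsetSum_coeff]
      simp only [coeff_C_mul, coeff_X_pow, mul_ite, mul_one, mul_zero]
      rw [Finset.sum_ite_eq]
      simp only [Finset.mem_range]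
    by_cases hj : j < f.natDegree + 1
    · simp only [h2, if_pos hj]
      exact hu _
    · simp only [h2, if_neg hj, Rat.cast_zero]
      rw [coeff_eq_zero_of_natDegree_lt (by omega)]
      exact tendsto_const_nhds

/-- **Approximate rational square roots.** -/
theorem exists_seq {μ : ℚ[X]} (hμ : μ ≠ 0) (h : ∀ x : ℝ, x ≤ 0 → aeval x μ ≠ 0) :
    ∃ (N : ℕ) (F P Q : ℕ → ℚ[X]), (∀ t, (P t).natDegree < N) ∧
      (∀ t, F t * F t = P t + μ * Q t) ∧
      ∀ j, Tendsto (fun t => (((P t).coeff j : ℚ) : ℝ)) atTop (𝓝 (((X : ℚ[X]).coeff j : ℚ) : ℝ)) := by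
  have hμr : μ.map (algebraMap ℚ ℝ) ≠ 0 :=
    (Polynomial.map_ne_zero_iff (algebraMap ℚ ℝ).injective).2 hμ
  obtain ⟨f, q, hfq⟩ := exists_sqrt hμr (fun x hx => by
    rw [eval_map_algebraMap]; exact h x hx)
  obtain ⟨F, hF1, hF2⟩ := exists_approx f
  obtain ⟨Q, hQ1, hQ2⟩ := exists_approx q
  refine ⟨max (2 * f.natDegree) (μ.natDegree + q.natDegree) + 1, F,
    fun t => F t * F t - μ * Q t, Q, ?_, ?_, ?_⟩
  · intro t
    refine Nat.lt_succ_of_le ((natDegree_sub_le _ _).trans (max_le_max ?_ ?_))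
    · exact natDegree_mul_le.trans (by have := hF1 t; omega)
    · exact natDegree_mul_le.trans (by have := hQ1 t; omega)
  · intro t; ring
  · intro j
    have h1 : (((X : ℚ[X]).coeff j : ℚ) : ℝ) =
        ∑ x ∈ Finset.HasAntidiagonal.antidiagonal j, f.coeff x.1 * f.coeff x.2 -
          ∑ x ∈ Finset.HasAntidiagonal.antidiagonal j, ((μ.coeff x.1 : ℚ) : ℝ) * q.coeff x.2 := by
      have h2 := congrArg (fun p => p.coeff j) hfq
      simp only [coeff_add, coeff_mul, coeff_map] at h2
      rw [eq_sub_iff_add_eq, h2]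
      congr 1
      rw [coeff_X, coeff_X]
      split_ifs <;> simp
    rw [h1]
    simp only [coeff_sub, coeff_mul, Rat.cast_sub, Rat.cast_sum, Rat.cast_mul]
    apply Tendsto.sub
    · apply tendsto_finset_sum
      intro x _
      exact (hF2 _).mul (hF2 _)
    · apply tendsto_finset_sum
      intro x _
      exact tendsto_const_nhds.mul (hQ2 _)

end Pool.Agent.Run7.h174.PI
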