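import Pool.Agent.Run7.h174.PiC
import Pool.Agent.Run7.h174.PiE

/-!
# The characteristic polynomial given by the mixed intersection numbers
-/

set_option autoImplicit false

open CategoryTheory AlgebraicGeometry Finset Polynomial

universe u v

namespace Pool.Agent.Run7.h174.PI

open Pool.Agent.H914 Pool.Agent.H914.VarClass Pool.Agent.H914.VarClass.Obj
  Pool.Agent.H914.WeilCohomology Pool.Agent.H281R3.HT Pool.Agent.W552 Pool.Agent.R908

/-- The polynomial `∑ i, (n choose i) (-1) ^ (n - i) a i X ^ i`. -/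
noncomputable def chP (n : ℕ) (a : ℕ → ℚ) : ℚ[X] :=
  ∑ i ∈ range (n + 1), C ((n.choose i : ℚ) * (-1) ^ (n - i) * a i) * X ^ i

lemma chP_ne {n : ℕ} {a : ℕ → ℚ} (ha : ∀ i ≤ n, 0 < a i) {x : ℝ} (hx : x ≤ 0) :
    aeval x (chP n a) ≠ 0 := by
  have h1 : aeval x (chP n a) = (-1) ^ n * ∑ i ∈ range (n + 1),
      (n.choose i : ℝ) * (a i : ℝ) * (-x) ^ i := by
    rw [chP, map_sum, mul_sum]
    refine sum_congr rfl fun i hi => ?_
    have hi' : i ≤ n := Nat.lt_succ_iff.1 (mem_range.1 hi)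
    rw [map_mul, aeval_C, map_pow, aeval_X]
    have h2 : (-1 : ℝ) ^ n = (-1) ^ (n - i) * (-1) ^ i := by rw [← pow_add]; congr 1; omega
    have h3 : (-x) ^ i = (-1) ^ i * x ^ i := by rw [← mul_pow, neg_one_mul]
    have h4 : (-1 : ℝ) ^ i * (-1) ^ i = 1 := by rw [← mul_pow]; simp
    rw [h2, h3]
    simp only [eq_ratCast, Rat.cast_mul, Rat.cast_natCast, Rat.cast_pow, Rat.cast_neg,
      Rat.cast_one]
    linear_combination (-(n.choose i : ℝ) * (-1) ^ (n - i) * (a i : ℝ) * x ^ i) * h4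
  rw [h1]
  apply mul_ne_zero (pow_ne_zero _ (by norm_num))
  apply ne_of_gt
  have h5 : ∀ i ∈ range (n + 1), 0 ≤ (n.choose i : ℝ) * (a i : ℝ) * (-x) ^ i := by
    intro i hi
    have h6 : (0 : ℝ) < a i := by exact_mod_cast ha i (Nat.lt_succ_iff.1 (mem_range.1 hi))
    have h7 : 0 ≤ (-x) ^ i := pow_nonneg (by linarith) _
    positivity
  refine sum_pos' h5 ⟨0, mem_range.2 (Nat.succ_pos _), ?_⟩
  have h6 : (0 : ℝ) < a 0 := by exact_mod_cast ha 0 (Nat.zero_le _)
  rw [pow_zero, mul_one, Nat.choose_zero_right, Nat.cast_one, one_mul]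
  exact h6

variable {k : Type u} [Field k] {𝒱 : VarClass k} {ops : CycleOps 𝒱}
  {W : WeilCohomology.{u, v} ops} {A : 𝒱.Obj} {m : A.prod A ⟶ A}

lemma chP_eval {e e' : W.H A} (he : e ∈ W.gr A 2) {n : ℕ} {a : ℕ → ℚ}
    (ha : ∀ i ≤ n, W.tr A (e ^ i * e' ^ (n - i)) = (a i : W.K)) (c : W.K) :
    ((chP n a).map (algebraMap ℚ W.K)).eval c = W.tr A ((c • e - e') ^ n) := by
  have hcomm : Commute (c • e) (-e') := by
    have h1 : e * e' = e' * e := W.even_comm (p := 1) he e'
    have h2 : Commute e e' := h1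
    exact (h2.smul_left c).neg_right
  rw [sub_eq_add_neg, hcomm.add_pow, map_sum, chP, Polynomial.map_sum, eval_finsetSum]
  refine sum_congr rfl fun i hi => ?_
  have hi' : i ≤ n := Nat.lt_succ_iff.1 (mem_range.1 hi)
  rw [Polynomial.map_mul, Polynomial.map_pow, map_X, map_C, eval_mul, eval_C, eval_pow, eval_X]
  have h3 : (c • e) ^ i * (-e') ^ (n - i) * (n.choose i : W.H A) =
      ((n.choose i : W.K) * (-1) ^ (n - i) * c ^ i) • (e ^ i * e' ^ (n - i)) := by
    rw [_root_.smul_pow, neg_eq_neg_one_mul e', (Commute.neg_one_left e').mul_pow]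
    have h4 : (-1 : W.H A) ^ (n - i) = algebraMap W.K (W.H A) ((-1) ^ (n - i)) := by
      rw [map_pow, map_neg, map_one]
    have h5 : (n.choose i : W.H A) = algebraMap W.K (W.H A) (n.choose i : W.K) := by
      rw [map_natCast]
    rw [h4, h5, Algebra.algebraMap_eq_smul_one, Algebra.algebraMap_eq_smul_one]
    simp only [smul_mul_assoc, mul_smul_comm, one_mul, mul_one, smul_smul]
    congr 1
    ring
  rw [h3, map_smul, smul_eq_mul, ha i hi']
  simp only [eq_ratCast, Rat.cast_mul, Rat.cast_natCast, Rat.cast_pow, Rat.cast_neg,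
    Rat.cast_one]
  ring

section

variable (hA : IsAbelianLike W A m) {e e' : W.H A} (he : e ∈ W.gr A 2) (he' : e' ∈ W.gr A 2)
  {g : ℕ} (hg : A.dim = g + 1) (htop : W.tr A (e ^ (g + 1)) ≠ 0)
  (hHL : ∀ x ∈ W.gr A 1, e ^ g * x = 0 → x = 0)
  {s : Module.End W.K (W.H A)} (hs : DO s)
  (hse : ∀ f : W.H A →ₗ[W.K] W.K, F1 f → s (io m f e) = io m f e')

include hA he he' hg htop hHL hse in
lemma eig_root {a : ℕ → ℚ}
    (ha : ∀ i ≤ g + 1, W.tr A (e ^ i * e' ^ (g + 1 - i)) = (a i : W.K)) {v : W.H A}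
    (hv : v ∈ W.gr A 1) (hv0 : v ≠ 0) {c : W.K} (hc : s v = c • v) :
    ((chP (g + 1) a).map (algebraMap ℚ W.K)).IsRoot c := by
  rw [IsRoot.def, chP_eval he ha]
  set κ := -(W.tr A (e ^ (g + 1)) * ((g + 1 : ℕ) : W.K)⁻¹) with hκ
  have h0 : ((g + 1 : ℕ) : W.K) ≠ 0 := by exact_mod_cast Nat.succ_ne_zero g
  have hκ0 : κ ≠ 0 := neg_ne_zero.2 (mul_ne_zero htop (inv_ne_zero h0))
  set h := κ⁻¹ • hh W g e v with hh'
  have hF : F1 h := (hh_F1 he hg hv).smul _
  have h1 : io m h e = v := by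
    rw [hh', io_smul, LinearMap.smul_apply, lieb2 hA he hg hHL hv, smul_smul,
      inv_mul_cancel₀ hκ0, one_smul]
  have h2 : io m h e' = c • v := by rw [← hse h hF, h1, hc]
  set z := c • e - e' with hz
  have hz2 : z ∈ W.gr A 2 := Submodule.sub_mem _ (Submodule.smul_mem _ _ he) he'
  have h3 : io m h z = 0 := by rw [hz, map_sub, map_smul, h1, h2, sub_self]
  obtain ⟨y, hy, hy0⟩ : ∃ y ∈ W.gr A 1, h y ≠ 0 := by
    by_contra hcon
    push Not at hcon
    apply hv0
    have h4 : h = 0 := hF.ext (fun i _ a _ => rfl) (fun x hx => by rw [hcon x hx]; rfl)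
    have h5 := io_smul (m := m) (0 : W.K) (0 : W.H A →ₗ[W.K] W.K)
    rw [zero_smul, zero_smul] at h5
    rw [← h1, h4, h5, LinearMap.zero_apply]
  have h6 : y * z ^ (g + 1) = 0 := by
    have h7 := W.mul_mem hy (pow2 hz2 (g + 1))
    rwa [W.gr_eq_bot A _ (by omega), Submodule.mem_bot] at h7
  have h8 := io_mul hA hF hy (z ^ (g + 1))
  rw [h6, map_zero, io_pow hA hz2 hF, h3, mul_zero, smul_zero, mul_zero, sub_zero] at h8
  have h9 : z ^ (g + 1) = 0 := (smul_eq_zero.1 h8.symm).resolve_left hy0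
  rw [h9, map_zero]

include hs in
lemma aeval_restrict (q : W.K[X]) (x : W.gr A 1) :
    ((aeval (s.restrict hs.mem) q x : W.gr A 1) : W.H A) = aeval s q (x : W.H A) := by
  induction q using Polynomial.induction_on' with
  | add p q hp hq =>
    rw [map_add, map_add, LinearMap.add_apply, LinearMap.add_apply, Submodule.coe_add, hp, hq]
  | monomial n c =>
    have h1 : ∀ n, (((s.restrict hs.mem) ^ n) x : W.H A) = (s ^ n) (x : W.H A) := by
      intro n
      induction n with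
      | zero => rfl
      | succ n ih =>
        rw [pow_succ', pow_succ', Module.End.mul_apply, Module.End.mul_apply, ← ih]
        rfl
    rw [aeval_monomial, aeval_monomial, Module.End.mul_apply, Module.End.mul_apply,
      Module.algebraMap_end_apply, Module.algebraMap_end_apply, Submodule.coe_smul, h1]

include hA he he' hg htop hHL hs hse in
/-- **The operator `s` is annihilated by a power of the characteristic polynomial.** -/
lemma exists_pow_zero [IsAlgClosed W.K] {a : ℕ → ℚ}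
    (ha : ∀ i ≤ g + 1, W.tr A (e ^ i * e' ^ (g + 1 - i)) = (a i : W.K)) :
    ∃ r, up s ((chP (g + 1) a ^ r).map (algebraMap ℚ W.K)) = 0 := by
  set T : Module.End W.K (W.gr A 1) := s.restrict hs.mem with hT
  have hq : minpoly W.K T ≠ 0 := minpoly.ne_zero (Algebra.IsIntegral.isIntegral T)
  have h1 := dvd_pow_of_roots (b := (chP (g + 1) a).map (algebraMap ℚ W.K)) hq (by
    intro c hc
    obtain ⟨v, hv⟩ := (Module.End.hasEigenvalue_of_isRoot hc).exists_hasEigenvector
    have h2 := hv.apply_eq_smul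
    have h3 := hv.2
    apply eig_root hA he he' hg htop hHL hse ha v.2 (fun h => h3 (Subtype.ext h))
    exact congrArg Subtype.val h2)
  refine ⟨Multiset.card (minpoly W.K T).roots, ?_⟩
  apply gr_ext (W.isInternal A)
  intro i x hx
  rw [LinearMap.zero_apply]
  by_cases hi : i = 1
  swap
  · exact (up_DO hs _).d1 i hi x hx
  subst hi
  obtain ⟨c, hc⟩ := h1
  have h4 : aeval T (((chP (g + 1) a).map (algebraMap ℚ W.K)) ^
      Multiset.card (minpoly W.K T).roots) = 0 := by
    have h5 : aeval T (minpoly W.K T) = 0 := minpoly.aeval W.K T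
    rw [hc, map_mul, h5, zero_mul]
  rw [up, Module.End.mul_apply, proj_same _ hx, Polynomial.map_pow]
  have h5 := aeval_restrict hs (((chP (g + 1) a).map (algebraMap ℚ W.K)) ^
      Multiset.card (minpoly W.K T).roots) ⟨x, hx⟩
  rw [← hT, h4] at h5
  exact h5.symm

end

/-- Multiplication by an algebraic class. -/
lemma mulLeft_aop {D : A.Cycles} (hD : A.IsCyc 1 D) :
    AOp W A A (LinearMap.mulLeft W.K (W.cl A D)) := AOp.of_rop (rop_mulLeft hD)

lemma mulLeft_pow (x : W.H A) (n : ℕ) :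
    LinearMap.mulLeft W.K (x ^ n) = (LinearMap.mulLeft W.K x) ^ n := by
  induction n with
  | zero => rw [pow_zero, pow_zero]; ext y; simp
  | succ n ih =>
    rw [pow_succ, pow_succ, ← ih]
    ext y
    rw [Module.End.mul_apply, LinearMap.mulLeft_apply, LinearMap.mulLeft_apply,
      LinearMap.mulLeft_apply, mul_assoc]

lemma sop_aop {D : A.Cycles} (hD : A.IsCyc 1 D) {e' : W.H A} (hS' : AS W A e')
    (hp : AOp W A A (proj (W.isInternal A) 1)) (g : ℕ) : AOp W A A (sop W m g (W.cl A D) e') := by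
  have h1 : AS W A (W.cl A D) := AS.of ⟨D, hD, rfl⟩
  have h2 : ∀ n, AS W A (W.cl A D ^ n) := by
    intro n
    induction n with
    | zero => rw [pow_zero]; exact AS.one
    | succ n ih => rw [pow_succ]; exact ih.mul h1
  obtain ⟨q, hq⟩ := (h2 (g + 1)).tr
  have h3 : (-(W.tr A (W.cl A D ^ (g + 1)) * ((g + 1 : ℕ) : W.K)⁻¹))⁻¹ =
      (((-(q * ((g + 1 : ℕ) : ℚ)⁻¹))⁻¹ : ℚ) : W.K) := by
    rw [hq]; push_cast; ring
  rw [sop, h3]
  refine AOp.smul _ ?_
  refine AOp.comp ?_ (AOp.comp ?_ hp)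
  · exact ⟨_, (hp.ext AOp.one).apply (hS'.map m), rfl⟩
  · rw [mulLeft_pow]; exact (mulLeft_aop hD).pow g

lemma up_aop {s : Module.End W.K (W.H A)} (hs : AOp W A A s)
    (hp : AOp W A A (proj (W.isInternal A) 1)) (p : ℚ[X]) :
    AOp W A A (up s (p.map (algebraMap ℚ W.K))) := by
  refine AOp.mul ?_ hp
  induction p using Polynomial.induction_on' with
  | add p q hp hq =>
    rw [Polynomial.map_add, map_add]; exact hp.add hq
  | monomial n c =>
    rw [Polynomial.map_monomial, aeval_monomial, ← Algebra.smul_def, eq_ratCast]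
    exact (hs.pow n).smul c

lemma EE_AS {s : Module.End W.K (W.H A)} (hs : AOp W A A s)
    (hp : AOp W A A (proj (W.isInternal A) 1)) {e : W.H A} (he : AS W A e) (p : ℚ[X]) :
    AS W A (EE m s e (p.map (algebraMap ℚ W.K))) := by
  rw [EE]
  have h1 : ((2 : W.K)⁻¹) = (((2 : ℚ)⁻¹ : ℚ) : W.K) := by push_cast; ring
  rw [h1]
  exact ((cop_aop (up_aop hs hp p) AOp.one).apply he).smul _

end Pool.Agent.Run7.h174.PI
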