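import Pool.Agent.R908.AbDefs
import Pool.Agent.W539.Ker.Defs

/-!
# Polarizations and isogenies of abelian varieties: definitions
-/

set_option autoImplicit false

open CategoryTheory AlgebraicGeometry

universe u v

namespace Pool.Agent.Run7.h174.PI

open Pool.Agent.H914 Pool.Agent.H914.VarClass Pool.Agent.H914.VarClass.Obj Pool.Agent.W539.Ker

variable {k : Type u} [Field k] {𝒱 : VarClass k}

/-- The mixed intersection number `deg (D ^ i · D' ^ (d - i))`, where `d = dim A`. -/
noncomputable def mixed (ops : CycleOps 𝒱) (A : 𝒱.Obj) (D D' : A.Cycles) (i : ℕ) : ℚ :=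
  A.V.degCycle (divPow ops D i (divPow ops D' (A.dim - i) A.V.fundCycle))

/-- The cycle `z` of codimension `n` is primitive modulo numerical equivalence: the cycle
`D ^ (d - 2 n + 1) · z`, where `d = dim A`, is numerically equivalent to zero. -/
def NumPrimitive (ops : CycleOps 𝒱) (A : 𝒱.Obj) (D : A.Cycles) (n : ℕ) (z : A.Cycles) : Prop :=
  A.IsCyc n z ∧ ∀ q w, A.IsCyc q w → q + 1 = n →
    A.V.degCycle (ops.mul z (divPow ops D (A.dim - 2 * n + 1) w)) = 0

/-- There are `r` pairwise orthogonal numerically primitive cycles `z` of codimension `n` for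
which the number `s * ⟨z, z⟩` is positive. -/
def HasSquares (ops : CycleOps 𝒱) (A : 𝒱.Obj) (D : A.Cycles) (n : ℕ) (s : ℚ) (r : ℕ) : Prop :=
  ∃ z : Fin r → A.Cycles, (∀ i, NumPrimitive ops A D n (z i)) ∧
    (∀ i, 0 < s * pairing ops A D n (z i) (z i)) ∧
    ∀ i j, i ≠ j → pairing ops A D n (z i) (z j) = 0

/-- The numerical standard conjecture of Hodge type for `A`, the divisor `D` and the
codimension `n`: the form `⟨z, w⟩ = (-1) ^ n deg (z · D ^ (d - 2 n) · w)` is positive at each
numerically primitive cycle of codimension `n` which is not numerically equivalent to zero. -/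
def HodgeTypeNum (ops : CycleOps 𝒱) (A : 𝒱.Obj) (D : A.Cycles) (n : ℕ) : Prop :=
  ∀ z, NumPrimitive ops A D n z →
    (∃ w, A.IsCyc (A.dim - n) w ∧ A.V.degCycle (ops.mul z w) ≠ 0) → 0 < pairing ops A D n z z

/-- The morphisms `f : A ⟶ A'` and `g : A' ⟶ A` are isogenies of abelian varieties whose
composites are, on the first cohomology, the multiplication by the positive integer `N`. -/
structure IsIsog {ops : CycleOps 𝒱} (W : WeilCohomology.{u, v} ops) {A A' : 𝒱.Obj} (f : A ⟶ A')
    (g : A' ⟶ A) (N : ℕ) : Prop where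
  pos : 0 < N
  dim : A.dim = A'.dim
  fg : ∀ x ∈ W.gr A 1, W.map (f ≫ g) x = (N : W.K) • x
  gf : ∀ x ∈ W.gr A' 1, W.map (g ≫ f) x = (N : W.K) • x

end Pool.Agent.Run7.h174.PI
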