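import Pool.Agent.W539.Ker.Inertia

/-!
# Rational forms: continuity of the index
-/

set_option autoImplicit false

open Finset

namespace Pool.Agent.Run7.h174.PI

open Pool.Agent.W539.Ker

variable {M : Type*} [AddCommGroup M] [Module ℚ M] {B B₀ B₁ : M →ₗ[ℚ] M →ₗ[ℚ] ℚ}

/-- A vector orthogonal to a maximal orthogonal family is in the radical. -/
lemma OM_rad (hB : ∀ x y, B x y = B y x) {ι : Type*} [Fintype ι] {x : ι → M} (h : OM B x) {u : M}
    (hu : ∀ i, B u (x i) = 0) (v : M) : B u v = 0 := by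
  classical
  set p := ∑ i, (B v (x i) / B (x i) (x i)) • x i with hp
  have hpx : ∀ i, B p (x i) = B v (x i) := by
    intro i
    rw [hp, map_sum B, LinearMap.sum_apply, Finset.sum_eq_single i]
    · rw [map_smul, LinearMap.smul_apply, smul_eq_mul, div_mul_cancel₀ _ (h.ne i)]
    · intro j _ hj
      rw [map_smul, LinearMap.smul_apply, h.orth j i hj, smul_zero]
    · intro h0; exact absurd (Finset.mem_univ _) h0
  have hup : B u p = 0 := by
    rw [hp, map_sum]
    apply Finset.sum_eq_zero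
    intro i _
    rw [map_smul, hu i, smul_zero]
  have h1 := h.max u hu
  have h2 := h.max (v - p) (fun i => by rw [map_sub, LinearMap.sub_apply, hpx, sub_self])
  have h3 := h.max (u + (v - p)) (fun i => by
    rw [map_add, LinearMap.add_apply, hu i, map_sub, LinearMap.sub_apply, hpx, sub_self, add_zero])
  have h5 : B (u + (v - p)) (u + (v - p)) = B u u + B u (v - p) + (B (v - p) u +
      B (v - p) (v - p)) := by
    rw [map_add B, LinearMap.add_apply, map_add (B u), map_add (B (v - p))]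
  rw [h5, h1, h2, hB (v - p) u] at h3
  have h4 : B u (v - p) = 0 := by linarith
  rwa [map_sub, hup, sub_zero] at h4

lemma comb_apply {r : ℕ} (z : Fin r → M) (c : Fin r → ℚ) (v : M) :
    B (∑ i, c i • z i) v = ∑ i, c i * B (z i) v := by
  rw [map_sum, LinearMap.sum_apply]
  exact Finset.sum_congr rfl fun i _ => by rw [map_smul, LinearMap.smul_apply, smul_eq_mul]

/-- The ranks. -/
lemma size_le {N : Submodule ℚ M} (hB₀ : ∀ x y, B₀ x y = B₀ y x)
    (nd : ∀ u, (∀ v, B₀ u v = 0) → u ∈ N) {m₀ : ℕ} {x₀ : Fin m₀ → M} (h₀ : OM B₀ x₀)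
    (hN : ∀ u ∈ N, ∀ v, B u v = 0) {m : ℕ} {x : Fin m → M} (h : OM B x) : m ≤ m₀ := by
  classical
  by_contra hcon
  have hcon := not_le.1 hcon
  let F : (Fin m → ℚ) →ₗ[ℚ] (Fin m₀ → ℚ) :=
    LinearMap.pi (fun i => (B₀.flip (x₀ i)) ∘ₗ Fintype.linearCombination ℚ x)
  obtain ⟨c, hc, hc0⟩ : ∃ c, F c = 0 ∧ c ≠ 0 := by
    by_contra hno
    push Not at hno
    have hinj : Function.Injective F := by
      rw [← LinearMap.ker_eq_bot, LinearMap.ker_eq_bot']
      intro c hc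
      exact hno c hc
    have h1 := LinearMap.finrank_le_finrank_of_injective hinj
    rw [Module.finrank_fintype_fun_eq_card, Module.finrank_fintype_fun_eq_card,
      Fintype.card_fin, Fintype.card_fin] at h1
    omega
  set u := ∑ i, c i • x i with hu
  have hux : ∀ i, B₀ u (x₀ i) = 0 := by
    intro i
    have h1 := congrFun hc i
    change B₀ (Fintype.linearCombination ℚ x c) (x₀ i) = 0 at h1
    rwa [Fintype.linearCombination_apply] at h1
  have huN : u ∈ N := nd u (OM_rad hB₀ h₀ hux)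
  apply hc0
  funext j
  have h1 := hN u huN (x j)
  rw [hu, comb_apply, Finset.sum_eq_single j] at h1
  · exact (mul_eq_zero.1 h1).resolve_right (h.ne j)
  · intro i _ hij
    rw [h.orth i j hij, mul_zero]
  · intro h0; exact absurd (Finset.mem_univ _) h0

/-- The rank is the sum of the indices. -/
lemma card_split (hB : ∀ x y, B x y = B y x) {m : ℕ} {x : Fin m → M} (h : OM B x) :
    posIdx (fun x y => B x y) + posIdx (fun x y => -B x y) = m := by
  classical
  have h1 := h.posIdx_eq hB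
  have h2 : posIdx (fun x y => -B x y) = (univ.filter (fun i => B (x i) (x i) < 0)).card := by
    have h3 := h.neg.posIdx_eq (B := -B) (fun x y => by
      rw [LinearMap.neg_apply, LinearMap.neg_apply, LinearMap.neg_apply, LinearMap.neg_apply, hB])
    have h4 : (fun x y => (-B) x y) = fun x y => -B x y := rfl
    rw [h4] at h3
    rw [h3]
    congr 1
    ext i
    rw [Finset.mem_filter, Finset.mem_filter, LinearMap.neg_apply, LinearMap.neg_apply,
      neg_pos]
  have h5 : univ.filter (fun i => B (x i) (x i) < 0) =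
      univ.filter (fun i => ¬ 0 < B (x i) (x i)) := by
    ext i
    rw [Finset.mem_filter, Finset.mem_filter]
    have := h.ne i
    constructor
    · rintro ⟨ha, hb⟩; exact ⟨ha, not_lt.2 hb.le⟩
    · rintro ⟨ha, hb⟩; exact ⟨ha, lt_of_le_of_ne (not_lt.1 hb) this⟩
  rw [h1, h2, h5, Finset.card_filter_add_card_filter_not, Finset.card_univ, Fintype.card_fin]

/-- A family with a positive definite Gram matrix. -/
lemma pos_le (hB : ∀ x y, B x y = B y x) {m : ℕ} {x : Fin m → M} (h : OM B x) {r : ℕ}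
    {z : Fin r → M} (hz : ∀ c : Fin r → ℚ, c ≠ 0 → 0 < B (∑ i, c i • z i) (∑ i, c i • z i)) :
    r ≤ posIdx (fun x y => B x y) := by
  classical
  rw [h.posIdx_eq hB]
  by_contra hcon
  have hcon := not_le.1 hcon
  let F : (Fin r → ℚ) →ₗ[ℚ] ({i // 0 < B (x i) (x i)} → ℚ) :=
    LinearMap.pi (fun i => (B.flip (x i.1)) ∘ₗ Fintype.linearCombination ℚ z)
  obtain ⟨c, hc, hc0⟩ : ∃ c, F c = 0 ∧ c ≠ 0 := by
    by_contra hno
    push Not at hno
    have hinj : Function.Injective F := by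
      rw [← LinearMap.ker_eq_bot, LinearMap.ker_eq_bot']
      intro c hc
      exact hno c hc
    have h1 := LinearMap.finrank_le_finrank_of_injective hinj
    rw [Module.finrank_fintype_fun_eq_card, Module.finrank_fintype_fun_eq_card,
      Fintype.card_subtype, Fintype.card_fin] at h1
    omega
  set u := ∑ i, c i • z i with hu
  have huu : 0 < B u u := hz c hc0
  have hux : ∀ i, 0 < B (x i) (x i) → B u (x i) = 0 := by
    intro i hi
    have h1 := congrFun hc ⟨i, hi⟩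
    change B (Fintype.linearCombination ℚ z c) (x i) = 0 at h1
    rwa [Fintype.linearCombination_apply] at h1
  set p := ∑ i, (B u (x i) / B (x i) (x i)) • x i with hp
  have hpx : ∀ i, B p (x i) = B u (x i) := by
    intro i
    rw [hp, map_sum B, LinearMap.sum_apply, Finset.sum_eq_single i]
    · rw [map_smul, LinearMap.smul_apply, smul_eq_mul, div_mul_cancel₀ _ (h.ne i)]
    · intro j _ hj
      rw [map_smul, LinearMap.smul_apply, h.orth j i hj, smul_zero]
    · intro h0; exact absurd (Finset.mem_univ _) h0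
  have hmax := h.max (u - p) (fun i => by rw [map_sub, LinearMap.sub_apply, hpx, sub_self])
  have hpp : B u p = ∑ i, B u (x i) * B u (x i) / B (x i) (x i) := by
    rw [hp, map_sum]
    apply Finset.sum_congr rfl
    intro i _
    rw [map_smul, smul_eq_mul]; ring
  have hpp2 : B p p = B u p := by
    rw [hpp]
    have h1 : B p p = B (∑ i, (B u (x i) / B (x i) (x i)) • x i) p := by rw [← hp]
    rw [h1, map_sum B, LinearMap.sum_apply]
    apply Finset.sum_congr rfl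
    intro i _
    rw [map_smul, LinearMap.smul_apply, smul_eq_mul, hB (x i) p, hpx]; ring
  have hle : B u p ≤ 0 := by
    rw [hpp]
    apply Finset.sum_nonpos
    intro i _
    by_cases hi : 0 < B (x i) (x i)
    · rw [hux i hi]; simp
    · exact div_nonpos_of_nonneg_of_nonpos (mul_self_nonneg _) (not_lt.1 hi)
  rw [map_sub, map_sub, LinearMap.sub_apply, LinearMap.sub_apply, hpp2, hB p u] at hmax
  linarith

lemma sum_aux {r : ℕ} (c : Fin r → ℚ) (ε : ℚ) :
    ∑ i, ∑ j, (ε / 2 * c i ^ 2 + ε / 2 * c j ^ 2) = ε * r * ∑ i, c i ^ 2 := by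
  have h1 : ∀ i, ∑ j, (ε / 2 * c i ^ 2 + ε / 2 * c j ^ 2) =
      r * (ε / 2 * c i ^ 2) + ε / 2 * ∑ j, c j ^ 2 := by
    intro i
    rw [Finset.sum_add_distrib, Finset.sum_const, Finset.card_univ, Fintype.card_fin,
      nsmul_eq_mul, ← Finset.mul_sum]
  rw [Finset.sum_congr rfl fun i _ => h1 i, Finset.sum_add_distrib, ← Finset.mul_sum,
    ← Finset.mul_sum, Finset.sum_const, Finset.card_univ, Fintype.card_fin, nsmul_eq_mul]
  ring

lemma frac_lt {δ : ℚ} (hδ : 0 < δ) (r : ℕ) : δ / ((r : ℚ) + 1) * r < δ := by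
  have h1 : (0 : ℚ) < (r : ℚ) + 1 := by positivity
  have h2 : δ / ((r : ℚ) + 1) * ((r : ℚ) + 1) = δ := div_mul_cancel₀ _ h1.ne'
  have h3 : 0 < δ / ((r : ℚ) + 1) := div_pos hδ h1
  calc δ / ((r : ℚ) + 1) * r < δ / ((r : ℚ) + 1) * ((r : ℚ) + 1) :=
        mul_lt_mul_of_pos_left (by linarith) h3
    _ = δ := h2

lemma pos_of_near {r : ℕ} {G G₁ : Fin r → Fin r → ℚ} {δ ε : ℚ} (hr : ε * r < δ)
    (hd : ∀ i, δ ≤ G₁ i i) (ho : ∀ i j, i ≠ j → G₁ i j = 0)
    (hcl : ∀ i j, |G i j - G₁ i j| ≤ ε) {c : Fin r → ℚ} (hc : c ≠ 0) :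
    0 < ∑ i, ∑ j, c i * (c j * G i j) := by
  have h2 : ∑ i, ∑ j, c i * (c j * G₁ i j) = ∑ i, c i ^ 2 * G₁ i i := by
    refine Finset.sum_congr rfl fun i _ => ?_
    rw [Finset.sum_eq_single i]
    · ring
    · intro j _ hj
      rw [ho i j (Ne.symm hj), mul_zero, mul_zero]
    · intro h0; exact absurd (Finset.mem_univ _) h0
  have h3 : ∀ i j : Fin r, c i * (c j * G₁ i j) - (ε / 2 * c i ^ 2 + ε / 2 * c j ^ 2) ≤
      c i * (c j * G i j) := by
    intro i j
    have h5 : |c i * c j * (G i j - G₁ i j)| ≤ (c i ^ 2 + c j ^ 2) / 2 * ε := by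
      rw [abs_mul, abs_mul]
      have h6 : |c i| * |c j| ≤ (c i ^ 2 + c j ^ 2) / 2 := by
        have := sq_nonneg (|c i| - |c j|)
        rw [sub_sq, sq_abs, sq_abs] at this
        linarith
      exact mul_le_mul h6 (hcl i j) (abs_nonneg _) (by positivity)
    have h8 := (abs_le.1 h5).1
    linarith
  have h9 : ∑ i, ∑ j, (c i * (c j * G₁ i j) - (ε / 2 * c i ^ 2 + ε / 2 * c j ^ 2)) ≤
      ∑ i, ∑ j, c i * (c j * G i j) :=
    Finset.sum_le_sum fun i _ => Finset.sum_le_sum fun j _ => h3 i j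
  have h10 : ∑ i, ∑ j, (c i * (c j * G₁ i j) - (ε / 2 * c i ^ 2 + ε / 2 * c j ^ 2)) =
      ∑ i, c i ^ 2 * G₁ i i - ε * r * ∑ i, c i ^ 2 := by
    rw [← sum_aux, ← h2, ← Finset.sum_sub_distrib]
    exact Finset.sum_congr rfl fun i _ => Finset.sum_sub_distrib _ _
  have h12 : δ * ∑ i, c i ^ 2 ≤ ∑ i, c i ^ 2 * G₁ i i := by
    rw [Finset.mul_sum]
    refine Finset.sum_le_sum fun i _ => ?_
    have := mul_le_mul_of_nonneg_left (hd i) (sq_nonneg (c i))
    linarith
  have h13 : 0 < ∑ i, c i ^ 2 := by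
    obtain ⟨i, hi⟩ : ∃ i, c i ≠ 0 := by
      by_contra hall
      push Not at hall
      exact hc (funext hall)
    exact Finset.sum_pos' (fun j _ => sq_nonneg _) ⟨i, Finset.mem_univ _, by positivity⟩
  have h15 : ε * r * ∑ i, c i ^ 2 < δ * ∑ i, c i ^ 2 := mul_lt_mul_of_pos_right hr h13
  linarith

/-- **Semicontinuity of the index.** -/
lemma near (hB₁ : ∀ x y, B₁ x y = B₁ y x) {m₁ : ℕ} {x₁ : Fin m₁ → M} (h₁ : OM B₁ x₁) :
    ∃ ε : ℚ, 0 < ε ∧ ∀ B : M →ₗ[ℚ] M →ₗ[ℚ] ℚ, (∀ x y, B x y = B y x) →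
      (∃ m, ∃ x : Fin m → M, OM B x) →
      (∀ i j, |B (x₁ i) (x₁ j) - B₁ (x₁ i) (x₁ j)| < ε) →
      posIdx (fun x y => B₁ x y) ≤ posIdx (fun x y => B x y) := by
  classical
  set r := (univ.filter (fun i => 0 < B₁ (x₁ i) (x₁ i))).card with hr
  let e := Fintype.equivFinOfCardEq (α := {i // 0 < B₁ (x₁ i) (x₁ i)})
    (Fintype.card_subtype (fun i => 0 < B₁ (x₁ i) (x₁ i)))
  let z : Fin r → M := fun i => x₁ (e.symm i).1
  obtain ⟨δ, hδ0, hδ⟩ : ∃ δ : ℚ, 0 < δ ∧ ∀ i : Fin r, δ ≤ B₁ (z i) (z i) := by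
    by_cases hr0 : Nonempty (Fin r)
    · obtain ⟨i₀, hi₀⟩ := Finite.exists_min (fun i : Fin r => B₁ (z i) (z i))
      exact ⟨_, (e.symm i₀).2, hi₀⟩
    · exact ⟨1, one_pos, fun i => absurd ⟨i⟩ hr0⟩
  refine ⟨δ / (r + 1), by positivity, fun B hB hOM hclose => ?_⟩
  obtain ⟨m, x, hx⟩ := hOM
  rw [h₁.posIdx_eq hB₁]
  refine pos_le hB hx (z := z) fun c hc => ?_
  set ε := δ / (r + 1) with hε
  have hε0 : 0 < ε := by positivity
  have horth : ∀ i j : Fin r, i ≠ j → B₁ (z i) (z j) = 0 := fun i j hij =>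
    h₁.orth _ _ (fun h0 => hij (e.symm.injective (Subtype.ext h0)))
  have h1 : B (∑ i, c i • z i) (∑ i, c i • z i) = ∑ i, ∑ j, c i * (c j * B (z i) (z j)) := by
    rw [comb_apply]
    refine Finset.sum_congr rfl fun i _ => ?_
    rw [map_sum, Finset.mul_sum]
    exact Finset.sum_congr rfl fun j _ => by rw [map_smul, smul_eq_mul]
  rw [h1]
  exact pos_of_near (δ := δ) (ε := ε) (frac_lt hδ0 r) hδ horth
    (fun i j => (hclose (e.symm i).1 (e.symm j).1).le) hc

/-- An orthogonal family of positive vectors gives a bound for the index. -/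
lemma transport_le (hB₀ : ∀ x y, B₀ x y = B₀ y x) {m₀ : ℕ} {x₀ : Fin m₀ → M} (h₀ : OM B₀ x₀)
    (hB : ∀ x y, B x y = B y x) {m : ℕ} {x : Fin m → M} (h : OM B x) {T : M → M} {d : ℚ}
    (hd : 0 < d) (hT : ∀ i j, B (T (x₀ i)) (T (x₀ j)) = d * B₀ (x₀ i) (x₀ j)) :
    posIdx (fun x y => B₀ x y) ≤ posIdx (fun x y => B x y) := by
  classical
  rw [h₀.posIdx_eq hB₀, h.posIdx_eq hB]
  let e := Fintype.equivFinOfCardEq (α := {i // 0 < B₀ (x₀ i) (x₀ i)})
    (Fintype.card_subtype (fun i => 0 < B₀ (x₀ i) (x₀ i)))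
  refine h.sylvester hB (z := fun i => T (x₀ (e.symm i).1)) (fun i => ?_) (fun i j hij => ?_)
  · rw [hT]; exact mul_pos hd (e.symm i).2
  · rw [hT, h₀.orth _ _ (fun h0 => hij (e.symm.injective (Subtype.ext h0))), mul_zero]

lemma neg_symm (hB : ∀ x y, B x y = B y x) (x y : M) : (-B) x y = (-B) y x := by
  rw [LinearMap.neg_apply, LinearMap.neg_apply, LinearMap.neg_apply, LinearMap.neg_apply, hB]

/-- **Forms which can be deformed into each other.** -/
theorem index_eq {N : Submodule ℚ M} (hB₀ : ∀ x y, B₀ x y = B₀ y x)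
    (hB₁ : ∀ x y, B₁ x y = B₁ y x) (nd₀ : ∀ u, (∀ v, B₀ u v = 0) → u ∈ N)
    (nd₁ : ∀ u, (∀ v, B₁ u v = 0) → u ∈ N) {m₀ m₁ : ℕ} {x₀ : Fin m₀ → M} {x₁ : Fin m₁ → M}
    (h₀ : OM B₀ x₀) (h₁ : OM B₁ x₁)
    (H : ∀ ε : ℚ, 0 < ε → ∃ B : M →ₗ[ℚ] M →ₗ[ℚ] ℚ, (∀ x y, B x y = B y x) ∧
      (∀ u ∈ N, ∀ v, B u v = 0) ∧ (∃ m, ∃ x : Fin m → M, OM B x) ∧
      (∀ i j, |B (x₁ i) (x₁ j) - B₁ (x₁ i) (x₁ j)| < ε) ∧
      ∃ (T : M → M) (d : ℚ), 0 < d ∧
        ∀ i j, B (T (x₀ i)) (T (x₀ j)) = d * B₀ (x₀ i) (x₀ j)) :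
    posIdx (fun x y => B₀ x y) = posIdx (fun x y => B₁ x y) ∧
      posIdx (fun x y => -B₀ x y) = posIdx (fun x y => -B₁ x y) := by
  obtain ⟨ε, hε, hn⟩ := near hB₁ h₁
  obtain ⟨ε', hε', hn'⟩ := near (B₁ := -B₁) (neg_symm hB₁) h₁.neg
  obtain ⟨B, hB, hN, ⟨m, x, hx⟩, hcl, T, d, hd, hT⟩ := H (min ε ε') (lt_min hε hε')
  have e1 := hn B hB ⟨m, x, hx⟩ (fun i j => (hcl i j).trans_le (min_le_left _ _))
  have e2 := hn' (-B) (neg_symm hB) ⟨m, x, hx.neg⟩ (fun i j => by
    have h5 : (-B) (x₁ i) (x₁ j) - (-B₁) (x₁ i) (x₁ j) = -(B (x₁ i) (x₁ j) - B₁ (x₁ i) (x₁ j)) := by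
      rw [LinearMap.neg_apply, LinearMap.neg_apply, LinearMap.neg_apply, LinearMap.neg_apply]
      ring
    rw [h5, abs_neg]
    exact (hcl i j).trans_le (min_le_right _ _))
  have e3 := transport_le hB₀ h₀ hB hx hd hT
  have e4 := transport_le (B₀ := -B₀) (B := -B) (neg_symm hB₀) h₀.neg (neg_symm hB) hx.neg hd
    (fun i j => by
      rw [LinearMap.neg_apply, LinearMap.neg_apply, LinearMap.neg_apply, LinearMap.neg_apply,
        hT i j]
      ring)
  have e5 := card_split hB hx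
  have e6 := card_split hB₀ h₀
  have e7 := card_split hB₁ h₁
  have e8 := size_le hB₀ nd₀ h₀ hN hx
  have e9 := size_le hB₁ nd₁ h₁ hN hx
  have f1 : (fun x y => (-B) x y) = fun x y => -B x y := rfl
  have f2 : (fun x y => (-B₀) x y) = fun x y => -B₀ x y := rfl
  have f3 : (fun x y => (-B₁) x y) = fun x y => -B₁ x y := rfl
  rw [f1, f3] at e2
  rw [f1, f2] at e4
  constructor <;> omega

end Pool.Agent.Run7.h174.PI
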