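import Pool.Agent.Run7.h174.PiD
import Pool.Agent.Run7.h174.PiF

/-!
# The forms on the cycles of a given codimension
-/

set_option autoImplicit false

open CategoryTheory AlgebraicGeometry Finset Polynomial

universe u v

namespace Pool.Agent.Run7.h174.PI

open Pool.Agent.H914 Pool.Agent.H914.VarClass Pool.Agent.H914.VarClass.Obj
  Pool.Agent.H914.WeilCohomology Pool.Agent.H281R3.HT Pool.Agent.W552 Pool.Agent.R908
  Pool.Agent.W539.Ker

variable {k : Type u} [Field k] {𝒱 : VarClass k} {ops : CycleOps 𝒱}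
  {W : WeilCohomology.{u, v} ops} {A : 𝒱.Obj} {m : A.prod A ⟶ A}

/-- The cycles of codimension `n`. -/
def CM (A : 𝒱.Obj) (n : ℕ) : Submodule ℚ A.Cycles where
  carrier := {z | A.IsCyc n z}
  add_mem' := fun hz hw => SmVar.IsCyc.add hz hw
  zero_mem' := SmVar.IsCyc.zero _ _
  smul_mem' := fun q _ hz => SmVar.IsCyc.smul q hz

lemma mulLeft_pow_apply (x y : W.H A) (n : ℕ) :
    ((LinearMap.mulLeft W.K x) ^ n) y = x ^ n * y := by
  rw [← mulLeft_pow, LinearMap.mulLeft_apply]

/-- The intersection number `z · C ^ (dim A - 2 n) · w`. -/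
noncomputable def num (ops : CycleOps 𝒱) (C : A.Cycles) (n : ℕ) (z w : A.Cycles) : ℚ :=
  A.V.degCycle (ops.mul z (divPow ops C (A.dim - 2 * n) w))

lemma num_cast (W : WeilCohomology.{u, v} ops) {C : A.Cycles} (hC : A.IsCyc 1 C) {n : ℕ}
    (hn : 2 * n ≤ A.dim) {z w : A.Cycles} (hz : A.IsCyc n z) (hw : A.IsCyc n w) :
    ((num ops C n z w : ℚ) : W.K) =
      W.tr A (W.cl A z * (W.cl A C ^ (A.dim - 2 * n) * W.cl A w)) := by
  have h1 := ops.mul_mem hz (divPow_mem (ops := ops) hC (A.dim - 2 * n) hw)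
  rw [show n + (n + (A.dim - 2 * n)) = A.dim by omega] at h1
  rw [num, ← W.tr_cl h1, W.cl_mul, cl_divPow, mulLeft_pow_apply]

/-- The form. -/
noncomputable def frm (W : WeilCohomology.{u, v} ops) {C : A.Cycles} (hC : A.IsCyc 1 C) (n : ℕ)
    (hn : 2 * n ≤ A.dim) : CM A n →ₗ[ℚ] CM A n →ₗ[ℚ] ℚ :=
  LinearMap.mk₂ ℚ (fun z w => num ops C n (z : A.Cycles) (w : A.Cycles))
    (fun z z' w => by
      have h1 : ((num ops C n ((z + z' : CM A n) : A.Cycles) (w : A.Cycles) : ℚ) : W.K) =
          ((num ops C n (z : A.Cycles) (w : A.Cycles) +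
            num ops C n (z' : A.Cycles) (w : A.Cycles) : ℚ) : W.K) := by
        rw [Rat.cast_add, num_cast W hC hn (z + z').2 w.2, num_cast W hC hn z.2 w.2,
          num_cast W hC hn z'.2 w.2, Submodule.coe_add, map_add, add_mul, map_add]
      exact_mod_cast h1)
    (fun q z w => by
      have h1 : ((num ops C n ((q • z : CM A n) : A.Cycles) (w : A.Cycles) : ℚ) : W.K) =
          ((q * num ops C n (z : A.Cycles) (w : A.Cycles) : ℚ) : W.K) := by
        rw [Rat.cast_mul, num_cast W hC hn (q • z).2 w.2, num_cast W hC hn z.2 w.2,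
          Submodule.coe_smul, W.cl_smul, smul_mul_assoc, map_smul, smul_eq_mul]
      exact_mod_cast h1)
    (fun z w w' => by
      have h1 : ((num ops C n (z : A.Cycles) ((w + w' : CM A n) : A.Cycles) : ℚ) : W.K) =
          ((num ops C n (z : A.Cycles) (w : A.Cycles) +
            num ops C n (z : A.Cycles) (w' : A.Cycles) : ℚ) : W.K) := by
        rw [Rat.cast_add, num_cast W hC hn z.2 (w + w').2, num_cast W hC hn z.2 w.2,
          num_cast W hC hn z.2 w'.2, Submodule.coe_add, map_add, mul_add, mul_add, map_add]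
      exact_mod_cast h1)
    (fun q z w => by
      have h1 : ((num ops C n (z : A.Cycles) ((q • w : CM A n) : A.Cycles) : ℚ) : W.K) =
          ((q * num ops C n (z : A.Cycles) (w : A.Cycles) : ℚ) : W.K) := by
        rw [Rat.cast_mul, num_cast W hC hn z.2 (q • w).2, num_cast W hC hn z.2 w.2,
          Submodule.coe_smul, W.cl_smul, mul_smul_comm, mul_smul_comm, map_smul, smul_eq_mul]
      exact_mod_cast h1)

lemma frm_apply {C : A.Cycles} (hC : A.IsCyc 1 C) {n : ℕ} (hn : 2 * n ≤ A.dim) (z w : CM A n) :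
    frm W hC n hn z w = num ops C n (z : A.Cycles) (w : A.Cycles) := rfl

lemma frm_cast {C : A.Cycles} (hC : A.IsCyc 1 C) {n : ℕ} (hn : 2 * n ≤ A.dim) (z w : CM A n) :
    ((frm W hC n hn z w : ℚ) : W.K) =
      W.tr A (W.cl A z * (W.cl A C ^ (A.dim - 2 * n) * W.cl A w)) :=
  num_cast W hC hn z.2 w.2

lemma frm_symm {C : A.Cycles} (hC : A.IsCyc 1 C) {n : ℕ} (hn : 2 * n ≤ A.dim) (z w : CM A n) :
    frm W hC n hn z w = frm W hC n hn w z := by
  have h1 : ((frm W hC n hn z w : ℚ) : W.K) = ((frm W hC n hn w z : ℚ) : W.K) := by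
    rw [frm_cast, frm_cast, ecomm (W.cl_mem hC) _ (W.cl A w), ecomm (W.cl_mem hC) _ (W.cl A z),
      ← mul_assoc, ← mul_assoc, W.even_comm (W.cl_mem z.2) (W.cl A w)]
  exact_mod_cast h1


/-- Linear independence of orthogonal families: the existence of maximal ones. -/
lemma exists_OM_frm (W : WeilCohomology.{u, v} ops) {C : A.Cycles} (hC : A.IsCyc 1 C) {n : ℕ}
    (hn : 2 * n ≤ A.dim) : ∃ m, ∃ x : Fin m → CM A n, OM (frm W hC n hn) x := by
  apply exists_OM (frm_symm hC hn) (N := Module.finrank W.K (W.H A))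
  intro m x h1 h2
  have hli : LinearIndependent W.K (fun i => W.cl A (x i : A.Cycles)) := by
    rw [Fintype.linearIndependent_iff]
    intro g hg i
    have h3 := congrArg (fun a => W.tr A (a *
      (W.cl A C ^ (A.dim - 2 * n) * W.cl A (x i : A.Cycles)))) hg
    simp only [Finset.sum_mul, zero_mul, map_zero, map_sum, smul_mul_assoc, map_smul,
      smul_eq_mul] at h3
    rw [Finset.sum_eq_single i] at h3
    · rw [← frm_cast hC hn] at h3
      rcases mul_eq_zero.1 h3 with h | h
      · exact h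
      · exfalso
        apply h1 i
        exact_mod_cast h
    · intro j _ hj
      rw [← frm_cast hC hn, h2 j i hj, Rat.cast_zero, mul_zero]
    · intro h; exact absurd (Finset.mem_univ _) h
  have := hli.fintype_card_le_finrank
  rwa [Fintype.card_fin] at this

/-- The cycles of codimension `n` that are numerically equivalent to zero. -/
def NZ (W : WeilCohomology.{u, v} ops) (A : 𝒱.Obj) (n : ℕ) (hn : n ≤ A.dim) :
    Submodule ℚ (CM A n) where
  carrier := {z | ∀ w, A.IsCyc (A.dim - n) w → A.V.degCycle (ops.mul (z : A.Cycles) w) = 0}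
  add_mem' := by
    intro z z' hz hz' w hw
    have e : ∀ z : CM A n, ((A.V.degCycle (ops.mul (z : A.Cycles) w) : ℚ) : W.K) =
        W.tr A (W.cl A z * W.cl A w) := fun z => by
      have h1 := ops.mul_mem z.2 hw
      rw [show n + (A.dim - n) = A.dim by omega] at h1
      rw [← W.tr_cl h1, W.cl_mul]
    have h2 : ((A.V.degCycle (ops.mul ((z + z' : CM A n) : A.Cycles) w) : ℚ) : W.K) = 0 := by
      rw [e, Submodule.coe_add, map_add, add_mul, map_add, ← e, ← e, hz w hw, hz' w hw,
        Rat.cast_zero, add_zero]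
    exact_mod_cast h2
  zero_mem' := by
    intro w hw
    have h1 := ops.mul_mem (SmVar.IsCyc.zero A.V n) hw
    rw [show n + (A.dim - n) = A.dim by omega] at h1
    have h2 : ((A.V.degCycle (ops.mul ((0 : CM A n) : A.Cycles) w) : ℚ) : W.K) = 0 := by
      rw [Submodule.coe_zero, ← W.tr_cl h1, W.cl_mul, map_zero, zero_mul, map_zero]
    exact_mod_cast h2
  smul_mem' := by
    intro q z hz w hw
    have e : ∀ z : CM A n, ((A.V.degCycle (ops.mul (z : A.Cycles) w) : ℚ) : W.K) =
        W.tr A (W.cl A z * W.cl A w) := fun z => by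
      have h1 := ops.mul_mem z.2 hw
      rw [show n + (A.dim - n) = A.dim by omega] at h1
      rw [← W.tr_cl h1, W.cl_mul]
    have h2 : ((A.V.degCycle (ops.mul ((q • z : CM A n) : A.Cycles) w) : ℚ) : W.K) = 0 := by
      rw [e, Submodule.coe_smul, W.cl_smul, smul_mul_assoc, map_smul, ← e, hz w hw,
        Rat.cast_zero, smul_zero]
    exact_mod_cast h2

lemma mem_NZ {n : ℕ} {hn : n ≤ A.dim} {z : CM A n} : z ∈ NZ W A n hn ↔
    ∀ w, A.IsCyc (A.dim - n) w → A.V.degCycle (ops.mul (z : A.Cycles) w) = 0 := Iff.rfl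

lemma frm_NZ {C : A.Cycles} (hC : A.IsCyc 1 C) {n : ℕ} (hn : 2 * n ≤ A.dim) {u : CM A n}
    (hu : u ∈ NZ W A n (by omega)) (w : CM A n) : frm W hC n hn u w = 0 := by
  apply hu
  have h1 := divPow_mem (ops := ops) hC (A.dim - 2 * n) w.2
  rwa [show n + (A.dim - 2 * n) = A.dim - n by omega] at h1

/-- Nondegeneracy modulo numerical equivalence. -/
lemma frm_nd {D : A.Cycles} (hD : A.IsCyc 1 D) (hL : LefschetzA W A D) {n : ℕ}
    (hn : 2 * n ≤ A.dim) (u : CM A n) (h : ∀ w, frm W hD n hn u w = 0) :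
    u ∈ NZ W A n (by omega) := by
  intro w hw
  obtain ⟨w', hw', h1⟩ := hL n hn w hw
  have h2 := ops.mul_mem u.2 hw
  rw [show n + (A.dim - n) = A.dim by omega] at h2
  have h3 : ((A.V.degCycle (ops.mul (u : A.Cycles) w) : ℚ) : W.K) = 0 := by
    rw [← W.tr_cl h2, W.cl_mul, ← h1, cl_divPow, mulLeft_pow_apply]
    have h4 := frm_cast (W := W) hD hn u ⟨w', hw'⟩
    rw [h ⟨w', hw'⟩, Rat.cast_zero] at h4
    exact h4.symm
  exact_mod_cast h3

end Pool.Agent.Run7.h174.PI
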