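import Pool.Agent.Run7.h174.PiC

/-!
# The Lefschetz standard conjecture for abelian varieties
-/

set_option autoImplicit false

open CategoryTheory AlgebraicGeometry Finset Polynomial

universe u v

namespace Pool.Agent.Run7.h174.PI

open Pool.Agent.H914 Pool.Agent.H914.VarClass Pool.Agent.H914.VarClass.Obj
  Pool.Agent.H914.WeilCohomology Pool.Agent.H281R3.HT Pool.Agent.W552 Pool.Agent.R908

variable {k : Type u} [Field k] {𝒱 : VarClass k} {ops : CycleOps 𝒱}
  {W : WeilCohomology.{u, v} ops} {A : 𝒱.Obj} {m : A.prod A ⟶ A}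

lemma aop_aeval {u : Module.End W.K (W.H A)} (hu : AOp W A A u) (p : ℚ[X]) :
    AOp W A A (aeval u (p.map (algebraMap ℚ W.K))) := by
  induction p using Polynomial.induction_on' with
  | add p q hp hq => rw [Polynomial.map_add, map_add]; exact hp.add hq
  | monomial n a =>
    rw [Polynomial.map_monomial, aeval_monomial, Algebra.algebraMap_eq_smul_one, smul_mul_assoc,
      one_mul, eq_ratCast]
    exact (hu.pow n).smul a

lemma aeval_eig' {φ : Module.End W.K (W.H A)} {x : W.H A}
    {c : W.K} (h : φ x = c • x) (f : W.K[X]) : Polynomial.aeval φ f x = f.eval c • x := by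
  induction f using Polynomial.induction_on' with
  | add f g hf hg => rw [map_add, LinearMap.add_apply, hf, hg, eval_add, add_smul]
  | monomial n a =>
    have h1 : ∀ n : ℕ, (φ ^ n) x = c ^ n • x := by
      intro n
      induction n with
      | zero => rw [pow_zero, pow_zero, one_smul]; rfl
      | succ n ih =>
        rw [pow_succ', Module.End.mul_apply, ih, map_smul, h, smul_smul, pow_succ]
    rw [aeval_monomial, eval_monomial, Module.End.mul_apply, h1, Module.algebraMap_end_apply,
      smul_smul]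

/-- An endomorphism acting as `c` on the first cohomology. -/
lemma map_pow_gr (hA : IsAbelianLike W A m) {f : A ⟶ A} {c : W.K}
    (hf : ∀ x ∈ W.gr A 1, W.map f x = c • x) : ∀ i, ∀ x ∈ W.gr A i, W.map f x = c ^ i • x := by
  have hfi : ∀ i, ∀ x ∈ W.gr A 1 ^ i, W.map f x = (c ^ i) • x := by
    intro i
    induction i with
    | zero =>
      intro x hx
      rw [pow_zero, Submodule.mem_one] at hx
      obtain ⟨c, rfl⟩ := hx
      rw [AlgHom.commutes, pow_zero, one_smul]
    | succ i ih =>
      intro x hx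
      rw [pow_succ'] at hx
      refine Submodule.mul_induction_on hx ?_ ?_
      · intro a ha b hb
        rw [map_mul, hf a ha, ih b hb, smul_mul_smul_comm, pow_succ']
      · intro a b ha hb
        rw [map_add, ha, hb, smul_add]
  intro i x hx
  exact hfi i x (hA.gen i hx)

/-- The projectors to the degrees are algebraic. -/
theorem proj_ab (hA : IsAbelianLike W A m) (i : ℕ) : AOp W A A (proj (W.isInternal A) i) := by
  classical
  set f : A ⟶ A := diag A ≫ m with hf
  have hf1 : ∀ x ∈ W.gr A 1, W.map f x = (2 : W.K) • x := by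
    intro x hx
    have e1 : diag A ≫ fst A A = 𝟙 A := Obj.lift_fst _ _
    have e2 : diag A ≫ snd A A = 𝟙 A := Obj.lift_snd _ _
    rw [hf, W.map_comp, hA.add x hx, map_add, ← W.map_comp, ← W.map_comp, e1, e2, W.map_id,
      two_smul]
  have hfi := map_pow_gr hA hf1
  by_cases hi : i ≤ 2 * A.dim
  · set v : ℕ → ℚ := fun j => (2 : ℚ) ^ j with hv
    have hinj : Set.InjOn v (Finset.range (2 * A.dim + 1) : Set ℕ) := by
      intro i _ j _ hij
      have h1 : (2 : ℚ) ^ i = (2 : ℚ) ^ j := hij
      have h2 : ((2 ^ i : ℕ) : ℚ) = ((2 ^ j : ℕ) : ℚ) := by push_cast; exact h1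
      exact Nat.pow_right_injective le_rfl (Nat.cast_injective h2)
    have key : proj (W.isInternal A) i = aeval (W.map f).toLinearMap
        ((Lagrange.basis (Finset.range (2 * A.dim + 1)) v i).map (algebraMap ℚ W.K)) := by
      apply gr_ext (W.isInternal A)
      intro j x hx
      by_cases hj : 2 * A.dim < j
      · rw [W.gr_eq_bot A j hj, Submodule.mem_bot] at hx
        rw [hx, map_zero, map_zero]
      · have h1 : (W.map f).toLinearMap x = (algebraMap ℚ W.K (v j)) • x := by
          rw [hv, map_pow, map_ofNat]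
          exact hfi j x hx
        rw [aeval_eig' h1, Polynomial.eval_map, Polynomial.eval₂_at_apply]
        by_cases hij : j = i
        · subst hij
          rw [Lagrange.eval_basis_self hinj (Finset.mem_range.2 (by omega)), map_one, one_smul,
            proj_same _ hx]
        · rw [Lagrange.eval_basis_of_ne (Ne.symm hij) (Finset.mem_range.2 (by omega)), map_zero,
            zero_smul, proj_ne _ hx hij]
    rw [key]
    exact aop_aeval (aop_map f) _
  · have key : proj (W.isInternal A) i = 0 := by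
      apply gr_ext (W.isInternal A)
      intro j x hx
      by_cases hj : 2 * A.dim < j
      · rw [W.gr_eq_bot A j hj, Submodule.mem_bot] at hx
        rw [hx, map_zero, map_zero]
      · rw [proj_ne _ hx (by omega), LinearMap.zero_apply]
    rw [key]
    exact AOp.zero

/-- A functional on the second cohomology. -/
def F2 (h : W.H A →ₗ[W.K] W.K) : Prop := ∀ i, i ≠ 2 → ∀ a ∈ W.gr A i, h a = 0

/-- The contraction with a functional on the second cohomology. -/
noncomputable def io2 (m : A.prod A ⟶ A) (φ : W.H A →ₗ[W.K] W.K) : Module.End W.K (W.H A) :=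
  cop m (φ.smulRight 1) 1

lemma F2.left {φ : W.H A →ₗ[W.K] W.K} (hφ : F2 φ) {x : W.H A} (hx : x ∈ W.gr A 1) :
    F1 (φ ∘ₗ LinearMap.mulLeft W.K x) := by
  intro i hi a ha
  exact hφ (1 + i) (by omega) _ (W.mul_mem hx ha)

lemma TT_fst2 (φ : W.H A →ₗ[W.K] W.K) (x : W.H A) (z : W.H (A.prod A)) :
    TT (φ.smulRight 1) (1 : Module.End W.K (W.H A)) (W.map (fst A A) x * z) =
      TT ((φ ∘ₗ LinearMap.mulLeft W.K x).smulRight 1) 1 z := by
  refine W.kunneth_induction (p := fun z => TT (φ.smulRight 1) (1 : Module.End W.K (W.H A))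
    (W.map (fst A A) x * z) = TT ((φ ∘ₗ LinearMap.mulLeft W.K x).smulRight 1) 1 z) ?_ ?_ z
  · intro a b ha hb
    rw [mul_add, map_add, map_add, ha, hb]
  · intro i j a _ b _
    rw [← mul_assoc, ← map_mul, TT_tmul, TT_tmul]
    rfl

lemma TT_snd2 {φ : W.H A →ₗ[W.K] W.K} (hφ : F2 φ) {x : W.H A} (hx : x ∈ W.gr A 1)
    (z : W.H (A.prod A)) :
    TT (φ.smulRight 1) (1 : Module.End W.K (W.H A)) (W.map (snd A A) x * z) =
      x * TT (φ.smulRight 1) (1 : Module.End W.K (W.H A)) z := by
  refine W.kunneth_induction (p := fun z => TT (φ.smulRight 1) (1 : Module.End W.K (W.H A))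
    (W.map (snd A A) x * z) = x * TT (φ.smulRight 1) (1 : Module.End W.K (W.H A)) z) ?_ ?_ z
  · intro a b ha hb
    rw [mul_add, map_add, map_add, ha, hb, mul_add]
  · intro i j a ha b _
    rw [snd_fst hx ha, map_smul, TT_tmul, TT_tmul, LinearMap.smulRight_apply]
    by_cases hi : i = 2
    · subst hi
      rw [smul_mul_assoc, one_mul, smul_mul_assoc, one_mul, mul_smul_comm]
      simp
    · rw [hφ i hi a ha, zero_smul, zero_mul, zero_mul, smul_zero, mul_zero]

lemma io2_one {φ : W.H A →ₗ[W.K] W.K} (hφ : F2 φ) : io2 m φ 1 = 0 := by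
  rw [io2, cop_apply, map_one]
  have h := TT_tmul (W := W) (φ.smulRight (1 : W.H A)) 1 (1 : W.H A) 1
  rw [map_one, map_one, mul_one, LinearMap.smulRight_apply, hφ 0 (by omega) _ (W.one_mem A),
    zero_smul, zero_mul] at h
  exact h

section

variable (hA : IsAbelianLike W A m)

include hA

lemma io2_mul {φ : W.H A →ₗ[W.K] W.K} (hφ : F2 φ) {x : W.H A} (hx : x ∈ W.gr A 1) (y : W.H A) :
    io2 m φ (x * y) = io m (φ ∘ₗ LinearMap.mulLeft W.K x) y + x * io2 m φ y := by
  rw [io2, cop_apply, map_mul, hA.add x hx, add_mul, map_add, TT_fst2, TT_snd2 hφ hx]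
  rfl

lemma io2_deg1 {φ : W.H A →ₗ[W.K] W.K} (hφ : F2 φ) {x : W.H A} (hx : x ∈ W.gr A 1) :
    io2 m φ x = 0 := by
  have h := io2_mul hA hφ hx 1
  rwa [mul_one, io_one hA (hφ.left hx), io2_one hφ, mul_zero, add_zero] at h

lemma io2_two {φ : W.H A →ₗ[W.K] W.K} (hφ : F2 φ) {z : W.H A} (hz : z ∈ W.gr A 2) :
    io2 m φ z = φ z • (1 : W.H A) := by
  refine ind2 hA (p := fun z => io2 m φ z = φ z • (1 : W.H A)) ?_ ?_ hz
  · intro x hx y hy
    rw [io2_mul hA hφ hx, io2_deg1 hA hφ hy, mul_zero, add_zero, io_deg1 hA (hφ.left hx) hy]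
    rfl
  · intro a b ha hb
    rw [map_add, ha, hb, map_add, add_smul]

omit hA in
lemma pow_gr_le (i : ℕ) : W.gr A 1 ^ i ≤ W.gr A i := by
  induction i with
  | zero =>
    intro x hx
    rw [pow_zero, Submodule.mem_one] at hx
    obtain ⟨c, rfl⟩ := hx
    rw [Algebra.algebraMap_eq_smul_one]
    exact Submodule.smul_mem _ _ (W.one_mem A)
  | succ i ih =>
    rw [pow_succ', Submodule.mul_le]
    intro a ha b hb
    rw [add_comm]
    exact W.mul_mem ha (ih hb)

lemma io_gr {h : W.H A →ₗ[W.K] W.K} (hh : F1 h) : ∀ i, ∀ y ∈ W.gr A 1 ^ (i + 1),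
    io m h y ∈ W.gr A i := by
  intro i
  induction i with
  | zero =>
    intro y hy
    rw [zero_add, pow_one] at hy
    rw [io_deg1 hA hh hy]
    exact Submodule.smul_mem _ _ (W.one_mem A)
  | succ i ih =>
    intro y hy
    rw [pow_succ'] at hy
    refine Submodule.mul_induction_on hy ?_ ?_
    · intro x hx w hw
      rw [io_mul hA hh hx]
      refine Submodule.sub_mem _ (Submodule.smul_mem _ _ (pow_gr_le _ hw)) ?_
      rw [add_comm]
      exact W.mul_mem hx (ih w hw)
    · intro a b ha hb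
      rw [map_add]; exact Submodule.add_mem _ ha hb

lemma io2_gr {φ : W.H A →ₗ[W.K] W.K} (hφ : F2 φ) : ∀ i, ∀ y ∈ W.gr A 1 ^ (i + 2),
    io2 m φ y ∈ W.gr A i := by
  intro i
  induction i with
  | zero =>
    intro y hy
    rw [io2_two hA hφ (pow_gr_le _ hy)]
    exact Submodule.smul_mem _ _ (W.one_mem A)
  | succ i ih =>
    intro y hy
    rw [show i + 1 + 2 = i + 2 + 1 by ring, pow_succ'] at hy
    refine Submodule.mul_induction_on hy ?_ ?_
    · intro x hx w hw
      rw [io2_mul hA hφ hx]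
      refine Submodule.add_mem _ (io_gr hA (hφ.left hx) _ w hw) ?_
      rw [add_comm]
      exact W.mul_mem hx (ih w hw)
    · intro a b ha hb
      rw [map_add]; exact Submodule.add_mem _ ha hb

end

section

variable (hA : IsAbelianLike W A m) {e : W.H A} (he : e ∈ W.gr A 2) {g : ℕ}
  (hg : A.dim = g + 1) (htop : W.tr A (e ^ (g + 1)) ≠ 0)

include he hg in
lemma hh2_F2 : F2 (W.tr A ∘ₗ LinearMap.mulLeft W.K (e ^ g)) := by
  intro i hi a ha
  exact W.tr_eq_zero (W.mul_mem (pow2 he g) ha) (by omega)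

include hA he hg htop

/-- The first step of the hard Lefschetz theorem. -/
lemma hl1 : ∀ x ∈ W.gr A 1, e ^ g * x = 0 → x = 0 := by
  intro x hx h0
  apply eq_of_F1 hx (Submodule.zero_mem _)
  intro f hf
  have h1 := lieb1 hA he hg hf hx
  have h2 : e ^ g * io m f e * x = -(io m f e * (e ^ g * x)) * 0 + -(e ^ g * x * io m f e) := by
    rw [mul_zero, zero_add, mul_assoc, anti (io_mem hA hf he) hx, mul_neg, mul_assoc]
  rw [h2, h0, zero_mul, mul_zero, neg_zero, add_zero, map_zero, mul_zero, neg_zero] at h1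
  rw [map_zero]
  exact (mul_eq_zero.1 h1).resolve_right htop

/-- The commutation relation. -/
lemma io2_e : ∀ i : ℕ, ∀ y ∈ W.gr A 1 ^ i,
    io2 m (W.tr A ∘ₗ LinearMap.mulLeft W.K (e ^ g)) (e * y) =
      W.tr A (e ^ (g + 1)) • y + e * io2 m (W.tr A ∘ₗ LinearMap.mulLeft W.K (e ^ g)) y -
        ((W.tr A (e ^ (g + 1)) * ((g + 1 : ℕ) : W.K)⁻¹) * i) • y := by
  have hφ := hh2_F2 (W := W) he hg
  have hHL := hl1 hA he hg htop
  intro i
  induction i with
  | zero =>
    intro y hy
    rw [pow_zero, Submodule.mem_one] at hy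
    obtain ⟨c, rfl⟩ := hy
    rw [Algebra.algebraMap_eq_smul_one, mul_smul_comm, mul_one, map_smul, io2_two hA hφ he,
      map_smul, io2_one hφ, smul_zero, mul_zero, Nat.cast_zero, mul_zero, zero_smul, sub_zero,
      add_zero, smul_comm, LinearMap.comp_apply, LinearMap.mulLeft_apply, ← pow_succ]
  | succ i ih =>
    intro y hy
    rw [pow_succ'] at hy
    refine Submodule.mul_induction_on hy ?_ ?_
    · intro x hx w hw
      have h1 : (W.tr A ∘ₗ LinearMap.mulLeft W.K (e ^ g)) ∘ₗ LinearMap.mulLeft W.K x =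
          hh W g e x := by
        ext a
        change W.tr A (e ^ g * (x * a)) = W.tr A (e ^ g * x * a)
        rw [mul_assoc]
      have h2 : e * (x * w) = x * (e * w) := by
        rw [← mul_assoc, ← mul_assoc]
        congr 1
        exact W.even_comm (p := 1) he x
      have h3 : x * e = e * x := (W.even_comm (p := 1) he x).symm
      rw [h2, io2_mul hA hφ hx, h1, io_even hA (hh_F1 he hg hx) he, lieb2 hA he hg hHL hx,
        ih w hw, io2_mul hA hφ hx, h1]
      simp only [mul_add, mul_sub, mul_smul_comm, smul_mul_assoc, ← mul_assoc, h3, neg_smul,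
        neg_mul]
      rw [Nat.cast_succ i, mul_add, mul_one, add_smul]
      abel
    · intro a b ha hb
      rw [mul_add, map_add, ha, hb, map_add, mul_add, smul_add, smul_add]
      abel

end

lemma trOp_aop : AOp W A A ((W.tr A).smulRight (1 : W.H A)) := by
  refine ⟨1, AS.one, ?_⟩
  apply LinearMap.ext
  intro b
  have h1 := W.push_snd (X := A) (Y := A) b 1
  rw [map_one, mul_one] at h1
  rw [corr_apply, one_mul, h1]
  rfl

/-- **The Lefschetz frame of an abelian variety.** -/
theorem exists_fr_ab (hA : IsAbelianLike W A m) {D : A.Cycles} (hD : A.IsCyc 1 D) {g : ℕ}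
    (hg : A.dim = g + 1) (htop : W.tr A (W.cl A D ^ (g + 1)) ≠ 0) : ∃ f, Fr W A D f := by
  set e := W.cl A D with he_def
  have he : e ∈ W.gr A 2 := W.cl_mem hD
  have hφ := hh2_F2 (W := W) he hg
  have hLop : AOp W A A (LinearMap.mulLeft W.K e) := AOp.of_rop (rop_mulLeft hD)
  set φ := W.tr A ∘ₗ LinearMap.mulLeft W.K (e ^ g) with hφ_def
  have hN : ((g + 1 : ℕ) : W.K) ≠ 0 := by exact_mod_cast Nat.succ_ne_zero g
  obtain ⟨q, hq⟩ : ∃ q : ℚ, W.tr A (e ^ (g + 1)) = q := by
    have h1 : AS W A (e ^ (g + 1)) := by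
      have h2 : ∀ n, AS W A (e ^ n) := by
        intro n
        induction n with
        | zero => rw [pow_zero]; exact AS.one
        | succ n ih => rw [pow_succ]; exact ih.mul (AS.of ⟨D, hD, rfl⟩)
      exact h2 _
    exact h1.tr
  have hq0 : (q : W.K) ≠ 0 := by rw [← hq]; exact htop
  have hq1 : q ≠ 0 := by
    rintro rfl
    exact hq0 Rat.cast_zero
  have hE : AOp W A A (io2 m φ) := by
    have h1 : (φ.smulRight (1 : W.H A) : Module.End W.K (W.H A)) =
        (W.tr A).smulRight (1 : W.H A) * (LinearMap.mulLeft W.K e) ^ g := by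
      apply LinearMap.ext
      intro a
      rw [Module.End.mul_apply, LinearMap.pow_mulLeft, hφ_def]
      rfl
    rw [io2]
    refine cop_aop ?_ AOp.one
    rw [h1]
    exact trOp_aop.mul (hLop.pow g)
  set c : ℚ := (q * ((g + 1 : ℕ) : ℚ)⁻¹)⁻¹ with hc
  refine ⟨(c : W.K) • io2 m φ, hD, ?_, hE.smul c⟩
  have hcK : (c : W.K) * (W.tr A (e ^ (g + 1)) * ((g + 1 : ℕ) : W.K)⁻¹) = 1 := by
    rw [hq, hc]
    push_cast
    rw [inv_mul_cancel₀]
    exact mul_ne_zero hq0 (inv_ne_zero (by exact_mod_cast hN))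
  have hwt : ∀ {i : ℕ} {a : W.H A}, a ∈ W.gr A i →
      wt (W.isInternal A) A.dim a = ((i : W.K) - A.dim) • a := fun ha => Fr.wt_gr ha
  refine ⟨?_, ?_, ?_⟩
  · apply gr_ext (W.isInternal A)
    intro i a ha
    rw [LinearMap.sub_apply, Module.End.mul_apply, Module.End.mul_apply, hwt ha,
      LinearMap.smul_apply, LinearMap.smul_apply, LinearMap.mulLeft_apply, LinearMap.mulLeft_apply,
      io2_e hA he hg htop i a (hA.gen i ha), mul_smul_comm, hg]
    have h1 : W.tr A (e ^ (g + 1)) = (((g + 1 : ℕ) : W.K)) *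
        (W.tr A (e ^ (g + 1)) * ((g + 1 : ℕ) : W.K)⁻¹) := by
      field_simp
    set κ := W.tr A (e ^ (g + 1)) * ((g + 1 : ℕ) : W.K)⁻¹ with hκ
    rw [h1, smul_sub, smul_add, smul_smul, smul_smul, ← mul_assoc, mul_comm (c : W.K),
      mul_assoc, hcK, mul_one, ← mul_assoc, hcK, one_mul, sub_smul]
    abel
  · apply gr_ext (W.isInternal A)
    intro i a ha
    have h1 : e * a ∈ W.gr A (i + 2) := by rw [add_comm]; exact W.mul_mem he ha
    have h2 : (2 : Module.End W.K (W.H A)) (e * a) = (2 : W.K) • (e * a) := by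
      rw [ofNat_smul_eq_nsmul]; rfl
    rw [LinearMap.sub_apply, Module.End.mul_apply, Module.End.mul_apply, Module.End.mul_apply,
      hwt ha, LinearMap.mulLeft_apply, hwt h1, map_smul, LinearMap.mulLeft_apply, h2, ← sub_smul]
    congr 1
    push_cast
    ring
  · apply gr_ext (W.isInternal A)
    intro i a ha
    rw [LinearMap.sub_apply, Module.End.mul_apply, Module.End.mul_apply, LinearMap.neg_apply,
      Module.End.mul_apply, hwt ha, LinearMap.smul_apply, map_smul, map_smul, LinearMap.smul_apply]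
    have h2 : ∀ y : W.H A, (2 : Module.End W.K (W.H A)) y = (2 : W.K) • y := by
      intro y
      rw [ofNat_smul_eq_nsmul]; rfl
    rw [h2]
    by_cases hi : i < 2
    · have h3 : io2 m φ a = 0 := by
        interval_cases i
        · rw [W.gr_zero A, Submodule.mem_span_singleton] at ha
          obtain ⟨c, rfl⟩ := ha
          rw [map_smul, io2_one hφ, smul_zero]
        · exact io2_deg1 hA hφ ha
      rw [h3]
      simp
    · obtain ⟨j, rfl⟩ : ∃ j, i = j + 2 := ⟨i - 2, by omega⟩
      have h3 : io2 m φ a ∈ W.gr A j := io2_gr hA hφ j a (hA.gen _ ha)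
      rw [hwt h3, smul_smul, smul_smul, smul_smul, ← sub_smul, ← neg_smul]
      congr 1
      push_cast
      ring

/-- **The Lefschetz standard conjecture for abelian varieties.** -/
theorem lefschetzA_ab (hA : IsAbelianLike W A m) {D : A.Cycles} (hD : A.IsCyc 1 D)
    (htop : W.tr A (W.cl A D ^ A.dim) ≠ 0) : LefschetzA W A D := by
  rcases Nat.eq_zero_or_pos A.dim with h0 | h0
  · intro j hj z hz
    refine ⟨z, ?_, ?_⟩
    · rwa [show A.dim - j = j by omega] at hz
    · rw [show A.dim - 2 * j = 0 by omega]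
      rfl
  · obtain ⟨g, hg⟩ : ∃ g, A.dim = g + 1 := ⟨A.dim - 1, by omega⟩
    rw [hg] at htop
    obtain ⟨f, F⟩ := exists_fr_ab hA hD hg htop
    exact F.lefschetzA

end Pool.Agent.Run7.h174.PI
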