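import Pool.Agent.Run7.h174.PiG
import Pool.Agent.Run7.h174.PiK
import Pool.Agent.Run7.h174.PiDefs

/-!
# The indices do not depend on the polarization
-/

set_option autoImplicit false

open CategoryTheory AlgebraicGeometry Finset Polynomial Filter Topology

universe u v

namespace Pool.Agent.Run7.h174.PI

open Pool.Agent.H914 Pool.Agent.H914.VarClass Pool.Agent.H914.VarClass.Obj
  Pool.Agent.H914.WeilCohomology Pool.Agent.H281R3.HT Pool.Agent.W552 Pool.Agent.R908
  Pool.Agent.W539.Ker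

variable {k : Type u} [Field k] {𝒱 : VarClass k} {ops : CycleOps 𝒱}
  {W : WeilCohomology.{u, v} ops} {A : 𝒱.Obj} {m : A.prod A ⟶ A}

lemma tendsto_eval (R : MvPolynomial ℕ ℚ) {c : ℕ → ℕ → ℚ} {c' : ℕ → ℚ}
    (h : ∀ j, Tendsto (fun t => ((c t j : ℚ) : ℝ)) atTop (𝓝 ((c' j : ℚ) : ℝ))) :
    Tendsto (fun t => ((MvPolynomial.eval (c t) R : ℚ) : ℝ)) atTop
      (𝓝 ((MvPolynomial.eval c' R : ℚ) : ℝ)) := by
  have h1 : ∀ x : ℕ → ℚ, ((MvPolynomial.eval x R : ℚ) : ℝ) =
      MvPolynomial.eval (fun j => ((x j : ℚ) : ℝ)) (MvPolynomial.map (algebraMap ℚ ℝ) R) := by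
    intro x
    rw [MvPolynomial.eval_map]
    have h2 := MvPolynomial.eval₂_comp_left (algebraMap ℚ ℝ) (RingHom.id ℚ) x R
    rw [MvPolynomial.eval₂_id] at h2
    rw [← eq_ratCast (algebraMap ℚ ℝ), h2, RingHom.comp_id]
    rfl
  simp only [h1]
  have h3 := MvPolynomial.continuous_eval (MvPolynomial.map (algebraMap ℚ ℝ) R)
  exact (h3.tendsto _).comp (tendsto_pi_nhds.2 h)

lemma AS_pow {x : W.H A} (hx : AS W A x) (n : ℕ) : AS W A (x ^ n) := by
  induction n with
  | zero => rw [pow_zero]; exact AS.one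
  | succ n ih => rw [pow_succ]; exact ih.mul hx

/-- Intersection numbers are polynomials in the coefficients. -/
lemma poly_fn (N : ℕ) {G : ℕ → W.H A} (hG : ∀ j, AS W A (G j)) : ∀ (l : ℕ) (a : W.H A),
    AS W A a → ∃ R : MvPolynomial ℕ ℚ, ∀ c : ℕ → ℚ,
      W.tr A (a * (∑ j ∈ range N, ((c j : ℚ) : W.K) • G j) ^ l) =
        ((MvPolynomial.eval c R : ℚ) : W.K) := by
  intro l
  induction l with
  | zero =>
    intro a ha
    obtain ⟨q, hq⟩ := ha.tr
    exact ⟨MvPolynomial.C q, fun c => by rw [pow_zero, mul_one, hq, MvPolynomial.eval_C]⟩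
  | succ l ih =>
    intro a ha
    choose R hR using fun j => ih (a * G j) (ha.mul (hG j))
    refine ⟨∑ j ∈ range N, MvPolynomial.X j * R j, fun c => ?_⟩
    rw [pow_succ', ← mul_assoc, mul_sum, sum_mul, map_sum, map_sum, Rat.cast_sum]
    refine sum_congr rfl fun j _ => ?_
    rw [mul_smul_comm, smul_mul_assoc, map_smul, hR j c, map_mul, MvPolynomial.eval_X,
      smul_eq_mul, Rat.cast_mul]

/-- The top degree. -/
lemma tr_Psi (hA : IsAbelianLike W A m) {u : Module.End W.K (W.H A)} (hu : DO u) {e : W.H A}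
    (he : e ∈ W.gr A 2) {g : ℕ} (hg : A.dim = g + 1) (htop : W.tr A (e ^ (g + 1)) ≠ 0)
    {a : W.H A} (ha : a ∈ W.gr A (2 * A.dim)) :
    W.tr A (Psi m u a) * W.tr A (e ^ (g + 1)) = W.tr A (Psi m u e ^ (g + 1)) * W.tr A a := by
  have h1 : a = (W.tr A a * (W.tr A (e ^ (g + 1)))⁻¹) • e ^ (g + 1) := by
    rw [← sub_eq_zero]
    apply W.nondeg
    intro b
    refine gr_induction (W.isInternal A) (p := fun b => W.tr A
      ((a - (W.tr A a * (W.tr A (e ^ (g + 1)))⁻¹) • e ^ (g + 1)) * b) = 0) ?_ ?_ b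
    · intro i b hb
      by_cases hi : i = 0
      · subst hi
        rw [W.gr_zero A, Submodule.mem_span_singleton] at hb
        obtain ⟨c, rfl⟩ := hb
        rw [mul_smul_comm, mul_one, map_smul, map_sub, map_smul, smul_eq_mul, smul_eq_mul,
          mul_assoc, inv_mul_cancel₀ htop, mul_one, sub_self, mul_zero]
      · refine W.tr_eq_zero (W.mul_mem (Submodule.sub_mem _ ha (Submodule.smul_mem _ _ ?_)) hb)
          (by omega)
        rw [hg]; exact pow2 he (g + 1)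
    · intro x y hx hy
      rw [mul_add, map_add, hx, hy, add_zero]
  have h2 : Psi m u a = (W.tr A a * (W.tr A (e ^ (g + 1)))⁻¹) • Psi m u e ^ (g + 1) := by
    conv_lhs => rw [h1]
    rw [map_smul, Psi_pow hA hu]
  rw [h2, map_smul, smul_eq_mul]
  field_simp

lemma mixed_cast (W : WeilCohomology.{u, v} ops) {D D' : A.Cycles} (hD : A.IsCyc 1 D)
    (hD' : A.IsCyc 1 D') {i : ℕ} (hi : i ≤ A.dim) : ((mixed ops A D D' i : ℚ) : W.K) =
      W.tr A (W.cl A D ^ i * W.cl A D' ^ (A.dim - i)) := by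
  have h1 := divPow_mem (ops := ops) hD i (divPow_mem (ops := ops) hD' (A.dim - i)
    A.V.fundCycle_mem)
  rw [show 0 + (A.dim - i) + i = A.dim by omega] at h1
  rw [mixed, ← W.tr_cl h1, cl_divPow, cl_divPow, mulLeft_pow_apply, mulLeft_pow_apply, W.cl_fund,
    mul_one]

lemma mixed_top {D D' : A.Cycles} (hD : A.IsCyc 1 D) (hD' : A.IsCyc 1 D')
    (h : 0 < mixed ops A D D' A.dim) : W.tr A (W.cl A D ^ A.dim) ≠ 0 := by
  have h1 := mixed_cast W hD hD' (i := A.dim) le_rfl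
  rw [Nat.sub_self, pow_zero, mul_one] at h1
  rw [← h1]
  exact_mod_cast h.ne'

lemma mixed_zero {D D' : A.Cycles} (hD : A.IsCyc 1 D) (hD' : A.IsCyc 1 D')
    (h : 0 < mixed ops A D D' 0) : W.tr A (W.cl A D' ^ A.dim) ≠ 0 := by
  have h1 := mixed_cast W hD hD' (i := 0) (Nat.zero_le _)
  rw [Nat.sub_zero, pow_zero, one_mul] at h1
  rw [← h1]
  exact_mod_cast h.ne'

/-- **Independence of the polarization for the forms on all cycles of codimension `n`.** -/
theorem index_indep [IsAlgClosed W.K] (hA : IsAbelianLike W A m)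
    {D D' : A.Cycles} (hD : A.IsCyc 1 D)
    (hD' : A.IsCyc 1 D') (hmix : ∀ i ≤ A.dim, 0 < mixed ops A D D' i) {n : ℕ}
    (hn : 2 * n ≤ A.dim) :
    posIdx (fun x y => frm W hD n hn x y) = posIdx (fun x y => frm W hD' n hn x y) ∧
      posIdx (fun x y => -frm W hD n hn x y) = posIdx (fun x y => -frm W hD' n hn x y) := by
  have hp := proj_ab hA
  have hL : LefschetzA W A D := lefschetzA_ab hA hD (mixed_top hD hD' (hmix _ le_rfl))
  have hL' : LefschetzA W A D' := lefschetzA_ab hA hD' (mixed_zero hD hD' (hmix _ (Nat.zero_le _)))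
  by_cases hdim : A.dim = 0
  · have h1 : ∀ x y, frm W hD n hn x y = frm W hD' n hn x y := by
      intro x y
      rw [frm_apply, frm_apply, num, num, show A.dim - 2 * n = 0 by omega]
      rfl
    simp only [h1, and_self]
  obtain ⟨g, hg⟩ : ∃ g, A.dim = g + 1 := ⟨A.dim - 1, by omega⟩
  set e := W.cl A D with he_def
  set e' := W.cl A D' with he'_def
  have he : e ∈ W.gr A 2 := W.cl_mem hD
  have he' : e' ∈ W.gr A 2 := W.cl_mem hD'
  have hS : AS W A e := AS.of ⟨D, hD, rfl⟩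
  have hS' : AS W A e' := AS.of ⟨D', hD', rfl⟩
  have ha : ∀ i ≤ g + 1, W.tr A (e ^ i * e' ^ (g + 1 - i)) =
      ((mixed ops A D D' i : ℚ) : W.K) := by
    intro i hi
    rw [mixed_cast W hD hD' (by omega), hg]
  have htop : W.tr A (e ^ (g + 1)) ≠ 0 := by
    have h1 := ha (g + 1) le_rfl
    rw [Nat.sub_self, pow_zero, mul_one] at h1
    rw [h1]
    exact_mod_cast (hmix (g + 1) (by omega)).ne'
  have hHL1 : ∀ x ∈ W.gr A 1, e ^ g * x = 0 → x = 0 := hl1 hA he hg htop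
  set s := sop W m g e e' with hs_def
  have hs : DO s := sop_DO hA he he' hg hS' (hp 1)
  have hsy : Sy m e s := sop_Sy hA he he' hg htop hHL1 hS' (hp 1)
  have hse : ∀ f : W.H A →ₗ[W.K] W.K, F1 f → s (io m f e) = io m f e' :=
    fun f hf => sop_io hA he hg htop hHL1 hS' (hp 1) hf
  have hsa : AOp W A A s := sop_aop hD hS' (hp 1) g
  obtain ⟨r, hr⟩ := exists_pow_zero hA he he' hg htop hHL1 hs hse ha
  set μ := chP (g + 1) (mixed ops A D D') ^ r with hμ
  have hμ1 : ∀ x : ℝ, x ≤ 0 → aeval x μ ≠ 0 := by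
    intro x hx
    rw [hμ, map_pow]
    exact pow_ne_zero _ (chP_ne (fun i hi => hmix i (by omega)) hx)
  have hμ0 : μ ≠ 0 := by
    intro h0
    apply hμ1 0 le_rfl
    rw [h0, map_zero]
  obtain ⟨N₀, F, P, Q, hPN₀, hFP, hlim⟩ := exists_seq hμ0 hμ1
  set N := max N₀ 2 with hN
  have hPN : ∀ t, (P t).natDegree < N := fun t => (hPN₀ t).trans_le (le_max_left _ _)
  set G : ℕ → W.H A := fun j => EE m s e ((X ^ j : ℚ[X]).map (algebraMap ℚ W.K)) with hG
  have hGS : ∀ j, AS W A (G j) := fun j => EE_AS hsa (hp 1) hS _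
  -- the classes as combinations
  have hcomb : ∀ p : ℚ[X], p.natDegree < N → EE m s e (p.map (algebraMap ℚ W.K)) =
      ∑ j ∈ range N, ((p.coeff j : ℚ) : W.K) • G j := by
    intro p hpN
    have h1 : ∀ (S : Finset ℕ), EE m s e ((∑ j ∈ S, monomial j (p.coeff j) : ℚ[X]).map
        (algebraMap ℚ W.K)) = ∑ j ∈ S, ((p.coeff j : ℚ) : W.K) • G j := by
      intro S
      classical
      induction S using Finset.induction_on with
      | empty =>
        rw [sum_empty, sum_empty, Polynomial.map_zero]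
        exact EE_zero_of (by rw [up, map_zero, zero_mul])
      | insert j S hj ih =>
        rw [sum_insert hj, sum_insert hj, Polynomial.map_add, EE_add, ih,
          ← C_mul_X_pow_eq_monomial, Polynomial.map_mul, map_C, ← smul_eq_C_mul, EE_smul,
          eq_ratCast]
    conv_lhs => rw [p.as_sum_range' N hpN]
    exact h1 _
  have hX : EE m s e ((X : ℚ[X]).map (algebraMap ℚ W.K)) = e' := by
    rw [map_X]; exact EE_X hA he he' hs hsy hse
  have hFPK : ∀ t, Psi m (up s ((F t).map (algebraMap ℚ W.K))) e =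
      EE m s e ((P t).map (algebraMap ℚ W.K)) := by
    intro t
    rw [Psi_EE hA he hs hsy, ← Polynomial.map_mul, hFP t, Polynomial.map_add, EE_add,
      Polynomial.map_mul, EE_zero_of (p := μ.map (algebraMap ℚ W.K) * _), add_zero]
    rw [up_mul hs, hr, zero_mul]
  have hEt : ∀ t, ∃ C : A.Cycles, A.IsCyc 1 C ∧
      W.cl A C = EE m s e ((P t).map (algebraMap ℚ W.K)) := by
    intro t
    obtain ⟨z, hz, hz'⟩ := (EE_AS (m := m) hsa (hp 1) hS (P t)).alg (j := 1)
      (EE_mem hA he hs _)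
    exact ⟨z, hz, hz'⟩
  choose C hC hCl using hEt
  obtain ⟨m₀, x₀, hx₀⟩ := exists_OM_frm W hD hn
  obtain ⟨m₁, x₁, hx₁⟩ := exists_OM_frm W hD' hn
  refine index_eq (N := NZ W A n (by omega)) (frm_symm hD hn) (frm_symm hD' hn)
    (frm_nd hD hL hn) (frm_nd hD' hL' hn) hx₀ hx₁ ?_
  intro ε hε
  obtain ⟨R₀, hR₀⟩ := poly_fn N hGS (g + 1) 1 AS.one
  have hSz : ∀ z : CM A n, AS W A (W.cl A z) := fun z => AS.of ⟨z, z.2, rfl⟩
  choose R hR using fun ij : Fin m₁ × Fin m₁ => poly_fn N hGS (A.dim - 2 * n)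
    (W.cl A (x₁ ij.1) * W.cl A (x₁ ij.2)) ((hSz _).mul (hSz _))
  have hPsum : ∀ t, W.cl A (C t) = ∑ j ∈ range N, (((P t).coeff j : ℚ) : W.K) • G j := fun t => by
    rw [hCl t, hcomb _ (hPN t)]
  have hXsum : e' = ∑ j ∈ range N, (((X : ℚ[X]).coeff j : ℚ) : W.K) • G j := by
    rw [← hX, hcomb X (by rw [natDegree_X]; exact lt_of_lt_of_le (by norm_num) (le_max_right _ _))]
  have hfC : ∀ t i j, frm W (hC t) n hn (x₁ i) (x₁ j) =
      MvPolynomial.eval (fun j => (P t).coeff j) (R (i, j)) := by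
    intro t i j
    have h1 := frm_cast (W := W) (hC t) hn (x₁ i) (x₁ j)
    rw [ecomm (W.cl_mem (hC t)) _ (W.cl A (x₁ j)), ← mul_assoc, hPsum t,
      hR (i, j) (fun j => (P t).coeff j)] at h1
    exact_mod_cast h1
  have hfD : ∀ i j, frm W hD' n hn (x₁ i) (x₁ j) =
      MvPolynomial.eval (fun j => (X : ℚ[X]).coeff j) (R (i, j)) := by
    intro i j
    have h1 := frm_cast (W := W) hD' hn (x₁ i) (x₁ j)
    rw [ecomm he' _ (W.cl A (x₁ j)), ← mul_assoc, hXsum,
      hR (i, j) (fun j => (X : ℚ[X]).coeff j)] at h1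
    exact_mod_cast h1
  have hev1 : ∀ ij : Fin m₁ × Fin m₁, ∀ᶠ t in atTop,
      |frm W (hC t) n hn (x₁ ij.1) (x₁ ij.2) - frm W hD' n hn (x₁ ij.1) (x₁ ij.2)| < ε := by
    intro ij
    have h1 := (tendsto_eval (R ij) hlim).eventually
      (Metric.ball_mem_nhds _ (show (0 : ℝ) < (ε : ℝ) by exact_mod_cast hε))
    filter_upwards [h1] with t ht
    rw [Real.dist_eq] at ht
    rw [hfC, hfD]
    exact_mod_cast ht
  have htopX : MvPolynomial.eval (fun j => (X : ℚ[X]).coeff j) R₀ = mixed ops A D D' 0 := by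
    have h1 := hR₀ (fun j => (X : ℚ[X]).coeff j)
    rw [← hXsum, one_mul] at h1
    have h2 := ha 0 (Nat.zero_le _)
    rw [pow_zero, one_mul, Nat.sub_zero, h1] at h2
    exact_mod_cast h2
  have hev2 : ∀ᶠ t in atTop, 0 < MvPolynomial.eval (fun j => (P t).coeff j) R₀ := by
    have h0 : (0 : ℝ) < ((MvPolynomial.eval (fun j => (X : ℚ[X]).coeff j) R₀ : ℚ) : ℝ) := by
      rw [htopX]; exact_mod_cast hmix 0 (Nat.zero_le _)
    filter_upwards [(tendsto_eval R₀ hlim).eventually (lt_mem_nhds h0)] with t ht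
    exact_mod_cast ht
  obtain ⟨t, ht1, ht2⟩ := ((Filter.eventually_all.2 hev1).and hev2).exists
  refine ⟨frm W (hC t) n hn, frm_symm (hC t) hn, fun u hu v => frm_NZ (hC t) hn hu v,
    exists_OM_frm W (hC t) hn, fun i j => ht1 (i, j), ?_⟩
  -- the transport
  set u := up s ((F t).map (algebraMap ℚ W.K)) with hu_def
  have hu : DO u := up_DO hs _
  have hua : AOp W A A u := up_aop hsa (hp 1) (F t)
  have hPe : Psi m u e = W.cl A (C t) := by rw [hFPK t, hCl t]
  have hT : ∀ z : CM A n, ∃ z' : CM A n, W.cl A (z' : A.Cycles) = Psi m u (W.cl A z) := by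
    intro z
    obtain ⟨z', hz', hz''⟩ := ((Psi_aop (m := m) hp hua).apply (hSz z)).alg (j := n)
      (Psi_mem hA hu (W.cl_mem z.2))
    exact ⟨⟨z', hz'⟩, hz''⟩
  choose T hT using hT
  refine ⟨T, MvPolynomial.eval (fun j => (P t).coeff j) R₀ / mixed ops A D D' (g + 1),
    div_pos ht2 (hmix _ (by omega)), fun i j => ?_⟩
  have h1 : W.tr A (e ^ (g + 1)) = ((mixed ops A D D' (g + 1) : ℚ) : W.K) := by
    have := ha (g + 1) le_rfl
    rwa [Nat.sub_self, pow_zero, mul_one] at this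
  have h2 : W.tr A (Psi m u e ^ (g + 1)) =
      ((MvPolynomial.eval (fun j => (P t).coeff j) R₀ : ℚ) : W.K) := by
    have := hR₀ (fun j => (P t).coeff j)
    rwa [← hPsum t, one_mul, ← hPe] at this
  have h3 : W.cl A (x₀ i) * (e ^ (A.dim - 2 * n) * W.cl A (x₀ j)) ∈ W.gr A (2 * A.dim) := by
    have := W.mul_mem (W.cl_mem (x₀ i).2) (W.mul_mem (pow2 he (A.dim - 2 * n))
      (W.cl_mem (x₀ j).2))
    rwa [show 2 * n + (2 * (A.dim - 2 * n) + 2 * n) = 2 * A.dim by omega] at this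
  have h4 := tr_Psi hA hu he hg htop h3
  have h5 : ((frm W (hC t) n hn (T (x₀ i)) (T (x₀ j)) : ℚ) : W.K) =
      W.tr A (Psi m u (W.cl A (x₀ i) * (e ^ (A.dim - 2 * n) * W.cl A (x₀ j)))) := by
    rw [frm_cast, hT, hT, ← hPe, Psi_mul hA hu, Psi_mul hA hu, Psi_pow hA hu]
  have h6 : ((frm W hD n hn (x₀ i) (x₀ j) : ℚ) : W.K) =
      W.tr A (W.cl A (x₀ i) * (e ^ (A.dim - 2 * n) * W.cl A (x₀ j))) := frm_cast hD hn _ _
  rw [← h5, ← h6, h1, h2] at h4
  have h7 : frm W (hC t) n hn (T (x₀ i)) (T (x₀ j)) * mixed ops A D D' (g + 1) =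
      MvPolynomial.eval (fun j => (P t).coeff j) R₀ * frm W hD n hn (x₀ i) (x₀ j) := by
    exact_mod_cast h4
  have h8 : mixed ops A D D' (g + 1) ≠ 0 := (hmix _ (by omega)).ne'
  rw [div_mul_eq_mul_div, eq_div_iff h8, h7]

end Pool.Agent.Run7.h174.PI
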