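import Pool.Agent.Run7.h174.PiG

/-!
# The primitive part modulo numerical equivalence
-/

set_option autoImplicit false

open CategoryTheory AlgebraicGeometry Finset

universe u v

namespace Pool.Agent.Run7.h174.PI

open Pool.Agent.H914 Pool.Agent.H914.VarClass Pool.Agent.H914.VarClass.Obj
  Pool.Agent.H914.WeilCohomology Pool.Agent.H281R3.HT Pool.Agent.W552 Pool.Agent.R908
  Pool.Agent.W539.Ker

variable {k : Type u} [Field k] {𝒱 : VarClass k} {ops : CycleOps 𝒱}
  {W : WeilCohomology.{u, v} ops} {A : 𝒱.Obj}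

/-- The product of `D` and `y`. -/
noncomputable def dm (ops : CycleOps 𝒱) {D : A.Cycles} (hD : A.IsCyc 1 D) {l : ℕ} (y : CM A l) :
    CM A (l + 1) := ⟨ops.mul D y, by
  have := ops.mul_mem hD y.2
  rw [add_comm] at this
  exact this⟩

lemma cl_dm {D : A.Cycles} (hD : A.IsCyc 1 D) {l : ℕ} (y : CM A l) :
    W.cl A (dm ops hD y : A.Cycles) = W.cl A D * W.cl A y := W.cl_mul _ _

/-- The functional `z ↦ z · D ^ (d - 2 l - 1) · y`. -/
lemma frm_dm {D : A.Cycles} (hD : A.IsCyc 1 D) {l : ℕ} (hn : 2 * (l + 1) ≤ A.dim)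
    (y y' : CM A l) : frm W hD (l + 1) hn (dm ops hD y) (dm ops hD y') =
      frm W hD l (by omega) y y' := by
  have h1 : ((frm W hD (l + 1) hn (dm ops hD y) (dm ops hD y') : ℚ) : W.K) =
      ((frm W hD l (by omega) y y' : ℚ) : W.K) := by
    rw [frm_cast, frm_cast, cl_dm, cl_dm, show A.dim - 2 * l = A.dim - 2 * (l + 1) + 1 + 1 by omega,
      pow_succ, pow_succ']
    have h2 : W.cl A D * W.cl A (y : A.Cycles) = W.cl A (y : A.Cycles) * W.cl A D :=
      W.even_comm (W.cl_mem hD) _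
    rw [h2]
    simp only [mul_assoc]
  exact_mod_cast h1

/-- `D` times a numerically trivial cycle. -/
lemma frm_dm_NZ {D : A.Cycles} (hD : A.IsCyc 1 D) {l : ℕ} (hn : 2 * (l + 1) ≤ A.dim)
    {r : CM A l} (hr : r ∈ NZ W A l (by omega)) (u : CM A (l + 1)) :
    frm W hD (l + 1) hn u (dm ops hD r) = 0 := by
  have h1 := divPow_mem (ops := ops) hD (A.dim - 2 * (l + 1) + 1) u.2
  rw [show l + 1 + (A.dim - 2 * (l + 1) + 1) = A.dim - l by omega] at h1
  have h2 := hr _ h1
  have h3 := ops.mul_mem r.2 h1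
  rw [show l + (A.dim - l) = A.dim by omega] at h3
  have h4 : ((frm W hD (l + 1) hn u (dm ops hD r) : ℚ) : W.K) = 0 := by
    rw [frm_cast, cl_dm, ← mul_assoc (W.cl A D ^ _), ← pow_succ]
    have h5 := W.tr_cl h3
    rw [h2, Rat.cast_zero, W.cl_mul, cl_divPow, mulLeft_pow_apply] at h5
    have h6 : W.cl A (u : A.Cycles) * (W.cl A D ^ (A.dim - 2 * (l + 1) + 1) *
        W.cl A (r : A.Cycles)) = W.cl A (r : A.Cycles) *
          (W.cl A D ^ (A.dim - 2 * (l + 1) + 1) * W.cl A (u : A.Cycles)) := by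
      rw [ecomm (W.cl_mem hD) _ (W.cl A (r : A.Cycles)),
        ecomm (W.cl_mem hD) _ (W.cl A (u : A.Cycles)), ← mul_assoc, ← mul_assoc,
        W.even_comm (W.cl_mem u.2) (W.cl A (r : A.Cycles))]
    rw [h6, h5]
  exact_mod_cast h4

/-- Numerically primitive cycles of codimension `l + 1`. -/
noncomputable def PN (W : WeilCohomology.{u, v} ops) {D : A.Cycles} (hD : A.IsCyc 1 D) (l : ℕ)
    (hn : 2 * (l + 1) ≤ A.dim) : Submodule ℚ (CM A (l + 1)) where
  carrier := {z | ∀ y : CM A l, frm W hD (l + 1) hn z (dm ops hD y) = 0}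
  add_mem' := fun {z z'} hz hz' y => by rw [map_add, LinearMap.add_apply, hz y, hz' y, add_zero]
  zero_mem' := fun y => by rw [map_zero, LinearMap.zero_apply]
  smul_mem' := fun q z hz y => by rw [map_smul, LinearMap.smul_apply, hz y, smul_zero]

lemma mem_PN {D : A.Cycles} {hD : A.IsCyc 1 D} {l : ℕ} {hn : 2 * (l + 1) ≤ A.dim}
    {z : CM A (l + 1)} : z ∈ PN W hD l hn ↔
      ∀ y : CM A l, frm W hD (l + 1) hn z (dm ops hD y) = 0 := Iff.rfl

/-- The form on the primitive cycles. -/
noncomputable def pfrm (W : WeilCohomology.{u, v} ops) {D : A.Cycles} (hD : A.IsCyc 1 D) (l : ℕ)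
    (hn : 2 * (l + 1) ≤ A.dim) : PN W hD l hn →ₗ[ℚ] PN W hD l hn →ₗ[ℚ] ℚ :=
  (frm W hD (l + 1) hn).compl₁₂ (PN W hD l hn).subtype (PN W hD l hn).subtype

lemma pfrm_apply {D : A.Cycles} (hD : A.IsCyc 1 D) {l : ℕ} (hn : 2 * (l + 1) ≤ A.dim)
    (z w : PN W hD l hn) : pfrm W hD l hn z w = frm W hD (l + 1) hn (z : CM A (l + 1)) w := rfl

lemma pfrm_symm {D : A.Cycles} (hD : A.IsCyc 1 D) {l : ℕ} (hn : 2 * (l + 1) ≤ A.dim)
    (z w : PN W hD l hn) : pfrm W hD l hn z w = pfrm W hD l hn w z :=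
  frm_symm (W := W) hD hn _ _

section

variable {D : A.Cycles} (hD : A.IsCyc 1 D) (hL : LefschetzA W A D) {l : ℕ}
  (hn : 2 * (l + 1) ≤ A.dim)

include hL

/-- Expansion in a maximal orthogonal family. -/
lemma frm_expand {ι : Type*} [Fintype ι] {x : ι → CM A l}
    (hx : OM (frm W hD l (by omega)) x) (u : CM A (l + 1)) (y : CM A l) :
    frm W hD (l + 1) hn u (dm ops hD y) =
      ∑ i, (frm W hD l (by omega) y (x i) / frm W hD l (by omega) (x i) (x i)) *
        frm W hD (l + 1) hn u (dm ops hD (x i)) := by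
  classical
  set B := frm W hD l (show 2 * l ≤ A.dim by omega) with hB
  set p := ∑ i, (B y (x i) / B (x i) (x i)) • x i with hp
  have hpx : ∀ i, B p (x i) = B y (x i) := by
    intro i
    rw [hp, map_sum B, LinearMap.sum_apply, Finset.sum_eq_single i]
    · rw [map_smul, LinearMap.smul_apply, smul_eq_mul, div_mul_cancel₀ _ (hx.ne i)]
    · intro j _ hj
      rw [map_smul, LinearMap.smul_apply, hx.orth j i hj, smul_zero]
    · intro h0; exact absurd (Finset.mem_univ _) h0
  have hr : y - p ∈ NZ W A l (by omega) := by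
    apply frm_nd hD hL (show 2 * l ≤ A.dim by omega)
    exact OM_rad (frm_symm hD _) hx (fun i => by
      rw [map_sub, LinearMap.sub_apply, hpx, sub_self])
  have h1 := frm_dm_NZ hD hn hr u
  have hcast : ∀ z : CM A l, ((frm W hD (l + 1) hn u (dm ops hD z) : ℚ) : W.K) =
      W.tr A (W.cl A u * (W.cl A D ^ (A.dim - 2 * (l + 1)) * (W.cl A D * W.cl A z))) := by
    intro z; rw [frm_cast, cl_dm]
  have h2 : ((frm W hD (l + 1) hn u (dm ops hD y) : ℚ) : W.K) =
      ((∑ i, (B y (x i) / B (x i) (x i)) * frm W hD (l + 1) hn u (dm ops hD (x i)) : ℚ) :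
        W.K) := by
    have h3 : ((frm W hD (l + 1) hn u (dm ops hD (y - p)) : ℚ) : W.K) =
        ((frm W hD (l + 1) hn u (dm ops hD y) : ℚ) : W.K) -
          ((frm W hD (l + 1) hn u (dm ops hD p) : ℚ) : W.K) := by
      rw [hcast, hcast, hcast, Submodule.coe_sub, map_sub, mul_sub, mul_sub, mul_sub, map_sub]
    rw [h1, Rat.cast_zero] at h3
    rw [sub_eq_zero.1 h3.symm, hcast, Rat.cast_sum, hp, Submodule.coe_sum, map_sum]
    simp only [mul_sum, map_sum]
    refine sum_congr rfl fun i _ => ?_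
    rw [Submodule.coe_smul, W.cl_smul, mul_smul_comm, mul_smul_comm, mul_smul_comm, map_smul,
      Rat.cast_mul, hcast, smul_eq_mul]
  exact_mod_cast h2

/-- The Lefschetz decomposition of maximal orthogonal families. -/
lemma OM_join {a b : ℕ} {x : Fin a → CM A l} (hx : OM (frm W hD l (by omega)) x)
    {p : Fin b → PN W hD l hn} (hp : OM (pfrm W hD l hn) p) :
    OM (frm W hD (l + 1) hn)
      (Sum.elim (fun i => dm ops hD (x i)) (fun j => (p j : CM A (l + 1)))) where
  ne := by
    rintro (i | j)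
    · rw [Sum.elim_inl, frm_dm]; exact hx.ne i
    · exact hp.ne j
  orth := by
    rintro (i | i) (j | j) hij
    · rw [Sum.elim_inl, Sum.elim_inl, frm_dm]
      exact hx.orth i j (fun h => hij (by rw [h]))
    · rw [Sum.elim_inl, Sum.elim_inr, frm_symm]
      exact (p j).2 (x i)
    · rw [Sum.elim_inl, Sum.elim_inr]
      exact (p i).2 (x j)
    · exact hp.orth i j (fun h => hij (by rw [h]))
  max := by
    intro u hu
    have h1 : u ∈ PN W hD l hn := by
      intro y
      rw [frm_expand hD hL hn hx u y]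
      refine sum_eq_zero fun i _ => ?_
      have h := hu (Sum.inl i)
      rw [Sum.elim_inl] at h
      rw [h, mul_zero]
    exact hp.max ⟨u, h1⟩ (fun j => hu (Sum.inr j))

lemma posIdx_join {a b : ℕ} {x : Fin a → CM A l} (hx : OM (frm W hD l (by omega)) x)
    {p : Fin b → PN W hD l hn} (hp : OM (pfrm W hD l hn) p) :
    posIdx (fun x y => frm W hD (l + 1) hn x y) =
      posIdx (fun x y => frm W hD l (show 2 * l ≤ A.dim by omega) x y) +
        posIdx (fun x y => pfrm W hD l hn x y) := by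
  classical
  rw [(OM_join hD hL hn hx hp).posIdx_eq (frm_symm hD hn), hx.posIdx_eq (frm_symm hD _),
    hp.posIdx_eq (pfrm_symm hD hn), card_filter, card_filter, card_filter,
    Fintype.sum_sum_type]
  congr 1
  refine sum_congr rfl fun i _ => ?_
  rw [Sum.elim_inl, frm_dm]

lemma posIdx_join_neg {a b : ℕ} {x : Fin a → CM A l} (hx : OM (frm W hD l (by omega)) x)
    {p : Fin b → PN W hD l hn} (hp : OM (pfrm W hD l hn) p) :
    posIdx (fun x y => -frm W hD (l + 1) hn x y) =
      posIdx (fun x y => -frm W hD l (show 2 * l ≤ A.dim by omega) x y) +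
        posIdx (fun x y => -pfrm W hD l hn x y) := by
  classical
  have h1 := (OM_join hD hL hn hx hp).neg.posIdx_eq (neg_symm (frm_symm hD hn))
  have h2 := hx.neg.posIdx_eq (neg_symm (frm_symm hD _))
  have h3 := hp.neg.posIdx_eq (neg_symm (pfrm_symm hD hn))
  change posIdx (fun x y => -frm W hD (l + 1) hn x y) = _ at h1
  change posIdx (fun x y => -frm W hD l _ x y) = _ at h2
  change posIdx (fun x y => -pfrm W hD l hn x y) = _ at h3
  rw [h1, h2, h3, card_filter, card_filter, card_filter, Fintype.sum_sum_type]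
  congr 1
  refine sum_congr rfl fun i _ => ?_
  rw [Sum.elim_inl, LinearMap.neg_apply, LinearMap.neg_apply, LinearMap.neg_apply,
    LinearMap.neg_apply, frm_dm]

/-- Nondegeneracy of the form on the primitive cycles. -/
lemma pfrm_nd {z : PN W hD l hn} (hz : ∀ w, pfrm W hD l hn z w = 0) :
    (z : CM A (l + 1)) ∈ NZ W A (l + 1) (by omega) := by
  classical
  obtain ⟨a, x, hx⟩ := exists_OM_frm W hD (n := l) (show 2 * l ≤ A.dim by omega)
  apply frm_nd hD hL hn
  intro v
  set y := ∑ i, (frm W hD (l + 1) hn v (dm ops hD (x i)) /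
    frm W hD l (show 2 * l ≤ A.dim by omega) (x i) (x i)) • x i with hy
  have hyx : ∀ i, frm W hD l (show 2 * l ≤ A.dim by omega) y (x i) =
      frm W hD (l + 1) hn v (dm ops hD (x i)) := by
    intro i
    rw [hy, map_sum, LinearMap.sum_apply, Finset.sum_eq_single i]
    · rw [map_smul, LinearMap.smul_apply, smul_eq_mul, div_mul_cancel₀ _ (hx.ne i)]
    · intro j _ hj
      rw [map_smul, LinearMap.smul_apply, hx.orth j i hj, smul_zero]
    · intro h0; exact absurd (Finset.mem_univ _) h0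
  have h1 : v - dm ops hD y ∈ PN W hD l hn := by
    intro y'
    rw [frm_expand hD hL hn hx _ y']
    apply sum_eq_zero
    intro i _
    rw [map_sub, LinearMap.sub_apply, frm_dm, hyx, sub_self, mul_zero]
  have h2 := hz ⟨_, h1⟩
  rw [pfrm_apply] at h2
  change frm W hD (l + 1) hn (z : CM A (l + 1)) (v - dm ops hD y) = 0 at h2
  rw [map_sub, z.2 y, sub_zero] at h2
  exact h2

end

end Pool.Agent.Run7.h174.PI
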