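import Pool.Agent.Run7.h174.PiL
import Pool.Agent.Run7.h174.PiI

/-!
# The indices on the primitive part
-/

set_option autoImplicit false

open CategoryTheory AlgebraicGeometry Finset

universe u v

namespace Pool.Agent.Run7.h174.PI

open Pool.Agent.H914 Pool.Agent.H914.VarClass Pool.Agent.H914.VarClass.Obj
  Pool.Agent.H914.WeilCohomology Pool.Agent.H281R3.HT Pool.Agent.W552 Pool.Agent.R908
  Pool.Agent.W539.Ker

variable {k : Type u} [Field k] {𝒱 : VarClass k} {ops : CycleOps 𝒱}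
  {W : WeilCohomology.{u, v} ops} {A : 𝒱.Obj} {m : A.prod A ⟶ A}

/-- Orthogonal families of anisotropic cycles are bounded. -/
lemma frm_bound (W : WeilCohomology.{u, v} ops) {C : A.Cycles} (hC : A.IsCyc 1 C) {n : ℕ}
    (hn : 2 * n ≤ A.dim) {m : ℕ} (x : Fin m → CM A n) (h1 : ∀ i, frm W hC n hn (x i) (x i) ≠ 0)
    (h2 : ∀ i j, i ≠ j → frm W hC n hn (x i) (x j) = 0) : m ≤ Module.finrank W.K (W.H A) := by
  have hli : LinearIndependent W.K (fun i => W.cl A (x i : A.Cycles)) := by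
    rw [Fintype.linearIndependent_iff]
    intro g hg i
    have h3 := congrArg (fun a => W.tr A (a *
      (W.cl A C ^ (A.dim - 2 * n) * W.cl A (x i : A.Cycles)))) hg
    simp only [Finset.sum_mul, zero_mul, map_zero, map_sum, smul_mul_assoc, map_smul,
      smul_eq_mul] at h3
    rw [Finset.sum_eq_single i] at h3
    · rw [← frm_cast hC hn] at h3
      rcases mul_eq_zero.1 h3 with h | h
      · exact h
      · exfalso
        apply h1 i
        exact_mod_cast h
    · intro j _ hj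
      rw [← frm_cast hC hn, h2 j i hj, Rat.cast_zero, mul_zero]
    · intro h; exact absurd (Finset.mem_univ _) h
  have := hli.fintype_card_le_finrank
  rwa [Fintype.card_fin] at this

lemma exists_OM_pfrm (W : WeilCohomology.{u, v} ops) {C : A.Cycles} (hC : A.IsCyc 1 C) {l : ℕ}
    (hn : 2 * (l + 1) ≤ A.dim) : ∃ m, ∃ x : Fin m → PN W hC l hn, OM (pfrm W hC l hn) x := by
  apply exists_OM (pfrm_symm hC hn) (N := Module.finrank W.K (W.H A))
  intro m x h1 h2
  exact frm_bound W hC hn (fun i => (x i : CM A (l + 1))) h1 h2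

/-- The indices of the primitive part. -/
theorem pfrm_isog [IsAlgClosed W.K] {A' : 𝒱.Obj} {m' : A'.prod A' ⟶ A'} {f : A ⟶ A'}
    {g : A' ⟶ A} {N : ℕ} (hI : IsIsog W f g N) (hA : IsAbelianLike W A m)
    (hA' : IsAbelianLike W A' m') {D : A.Cycles} {D' : A'.Cycles} (hD : A.IsCyc 1 D)
    (hD' : A'.IsCyc 1 D') (h' : 0 < topDeg ops A' D')
    (hmix : ∀ i ≤ A.dim, 0 < mixed ops A D (ops.pull f D') i) {l : ℕ}
    (hn : 2 * (l + 1) ≤ A.dim) (hn' : 2 * (l + 1) ≤ A'.dim) :
    posIdx (fun x y => pfrm W hD l hn x y) = posIdx (fun x y => pfrm W hD' l hn' x y) ∧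
      posIdx (fun x y => -pfrm W hD l hn x y) = posIdx (fun x y => -pfrm W hD' l hn' x y) := by
  have hD2 := ops.pull_mem f hD'
  have hL : LefschetzA W A D := lefschetzA_ab hA hD (mixed_top hD hD2 (hmix _ le_rfl))
  have hL' : LefschetzA W A' D' := lefschetzA_ab hA' hD' (by
    rw [← topDeg_cast W hD']
    exact_mod_cast h'.ne')
  obtain ⟨a, x, hx⟩ := exists_OM_frm W hD (n := l) (show 2 * l ≤ A.dim by omega)
  obtain ⟨a', x', hx'⟩ := exists_OM_frm W hD' (n := l) (show 2 * l ≤ A'.dim by omega)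
  obtain ⟨b, p, hp1⟩ := exists_OM_pfrm W hD hn
  obtain ⟨b', p', hp1'⟩ := exists_OM_pfrm W hD' hn'
  have h1 := posIdx_join hD hL hn hx hp1
  have h2 := posIdx_join hD' hL' hn' hx' hp1'
  have h3 := posIdx_join_neg hD hL hn hx hp1
  have h4 := posIdx_join_neg hD' hL' hn' hx' hp1'
  obtain ⟨h5, h6⟩ := index_isog hI hA hA' hD hD' h' hmix hn hn'
  obtain ⟨h7, h8⟩ := index_isog hI hA hA' hD hD' h' hmix (n := l)
    (show 2 * l ≤ A.dim by omega) (show 2 * l ≤ A'.dim by omega)
  constructor <;> omega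

end Pool.Agent.Run7.h174.PI
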