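import Pool.Agent.Run7.h174.PiH

/-!
# The indices depend only on the isogeny class
-/

set_option autoImplicit false

open CategoryTheory AlgebraicGeometry Finset

universe u v

namespace Pool.Agent.Run7.h174.PI

open Pool.Agent.H914 Pool.Agent.H914.VarClass Pool.Agent.H914.VarClass.Obj
  Pool.Agent.H914.WeilCohomology Pool.Agent.H281R3.HT Pool.Agent.W552 Pool.Agent.R908
  Pool.Agent.W539.Ker

/-- Transport of an index. -/
lemma transport2 {M M' : Type*} [AddCommGroup M] [Module ℚ M] [AddCommGroup M'] [Module ℚ M']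
    {B : M →ₗ[ℚ] M →ₗ[ℚ] ℚ} {B₀ : M' →ₗ[ℚ] M' →ₗ[ℚ] ℚ}
    (hB₀ : ∀ x y, B₀ x y = B₀ y x) {m₀ : ℕ} {x₀ : Fin m₀ → M'} (h₀ : OM B₀ x₀)
    (hB : ∀ x y, B x y = B y x) {m : ℕ} {x : Fin m → M} (h : OM B x) {T : M' → M} {d : ℚ}
    (hd : 0 < d) (hT : ∀ i j, B (T (x₀ i)) (T (x₀ j)) = d * B₀ (x₀ i) (x₀ j)) :
    posIdx (fun x y => B₀ x y) ≤ posIdx (fun x y => B x y) := by
  classical
  rw [h₀.posIdx_eq hB₀, h.posIdx_eq hB]
  let e := Fintype.equivFinOfCardEq (α := {i // 0 < B₀ (x₀ i) (x₀ i)})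
    (Fintype.card_subtype (fun i => 0 < B₀ (x₀ i) (x₀ i)))
  refine h.sylvester hB (z := fun i => T (x₀ (e.symm i).1)) (fun i => ?_) (fun i j hij => ?_)
  · rw [hT]; exact mul_pos hd (e.symm i).2
  · rw [hT, h₀.orth _ _ (fun h0 => hij (e.symm.injective (Subtype.ext h0))), mul_zero]

lemma transport2_neg {M M' : Type*} [AddCommGroup M] [Module ℚ M] [AddCommGroup M'] [Module ℚ M']
    {B : M →ₗ[ℚ] M →ₗ[ℚ] ℚ} {B₀ : M' →ₗ[ℚ] M' →ₗ[ℚ] ℚ}
    (hB₀ : ∀ x y, B₀ x y = B₀ y x) {m₀ : ℕ} {x₀ : Fin m₀ → M'} (h₀ : OM B₀ x₀)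
    (hB : ∀ x y, B x y = B y x) {m : ℕ} {x : Fin m → M} (h : OM B x) {T : M' → M} {d : ℚ}
    (hd : 0 < d) (hT : ∀ i j, B (T (x₀ i)) (T (x₀ j)) = d * B₀ (x₀ i) (x₀ j)) :
    posIdx (fun x y => -B₀ x y) ≤ posIdx (fun x y => -B x y) :=
  transport2 (B := -B) (B₀ := -B₀) (neg_symm hB₀) h₀.neg (neg_symm hB) h.neg hd
    (fun i j => by
      rw [LinearMap.neg_apply, LinearMap.neg_apply, LinearMap.neg_apply, LinearMap.neg_apply,
        hT i j]
      ring)

variable {k : Type u} [Field k] {𝒱 : VarClass k} {ops : CycleOps 𝒱}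
  {W : WeilCohomology.{u, v} ops} {A A' : 𝒱.Obj} {m : A.prod A ⟶ A} {m' : A'.prod A' ⟶ A'}

/-- The top degree. -/
lemma top_smul {e : W.H A} (he : e ∈ W.gr A 2) (htop : W.tr A (e ^ A.dim) ≠ 0)
    {a : W.H A} (ha : a ∈ W.gr A (2 * A.dim)) :
    a = (W.tr A a * (W.tr A (e ^ A.dim))⁻¹) • e ^ A.dim := by
  rw [← sub_eq_zero]
  apply W.nondeg
  intro b
  refine gr_induction (W.isInternal A) (p := fun b => W.tr A
    ((a - (W.tr A a * (W.tr A (e ^ A.dim))⁻¹) • e ^ A.dim) * b) = 0) ?_ ?_ b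
  · intro i b hb
    by_cases hi : i = 0
    · subst hi
      rw [W.gr_zero A, Submodule.mem_span_singleton] at hb
      obtain ⟨c, rfl⟩ := hb
      rw [mul_smul_comm, mul_one, map_smul, map_sub, map_smul, smul_eq_mul, smul_eq_mul,
        mul_assoc, inv_mul_cancel₀ htop, mul_one, sub_self, mul_zero]
    · refine W.tr_eq_zero (W.mul_mem (Submodule.sub_mem _ ha (Submodule.smul_mem _ _ ?_)) hb)
        (by omega)
      exact pow2 he A.dim
  · intro x y hx hy
    rw [mul_add, map_add, hx, hy, add_zero]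

/-- The degree of `D ^ dim`. -/
noncomputable def topDeg (ops : CycleOps 𝒱) (A : 𝒱.Obj) (D : A.Cycles) : ℚ :=
  A.V.degCycle (divPow ops D A.dim A.V.fundCycle)

lemma topDeg_cast (W : WeilCohomology.{u, v} ops) {D : A.Cycles} (hD : A.IsCyc 1 D) :
    ((topDeg ops A D : ℚ) : W.K) = W.tr A (W.cl A D ^ A.dim) := by
  have h1 := divPow_mem (ops := ops) hD A.dim A.V.fundCycle_mem
  rw [zero_add] at h1
  rw [topDeg, ← W.tr_cl h1, cl_divPow, mulLeft_pow_apply, W.cl_fund, mul_one]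

section

variable {f : A ⟶ A'} {g : A' ⟶ A} {N : ℕ} (hI : IsIsog W f g N)

include hI

/-- Pull-back and the trace. -/
lemma tr_isog {D' : A'.Cycles} (hD' : A'.IsCyc 1 D')
    (h' : 0 < topDeg ops A' D') {x : W.H A'} (hx : x ∈ W.gr A' (2 * A'.dim)) :
    W.tr A (W.map f x) = ((topDeg ops A (ops.pull f D') / topDeg ops A' D' : ℚ) : W.K) *
      W.tr A' x := by
  have h1 : W.tr A' (W.cl A' D' ^ A'.dim) ≠ 0 := by
    rw [← topDeg_cast W hD']
    exact_mod_cast h'.ne'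
  have h2 := topDeg_cast W (ops.pull_mem f hD')
  rw [W.cl_pull, hI.dim] at h2
  have h3 := top_smul (W.cl_mem hD') h1 hx
  have h4 : W.map f x = (W.tr A' x * (W.tr A' (W.cl A' D' ^ A'.dim))⁻¹) •
      (W.map f (W.cl A' D')) ^ A'.dim := by
    conv_lhs => rw [h3]
    rw [map_smul, map_pow (W.map f)]
  rw [h4, map_smul, smul_eq_mul, ← h2, ← topDeg_cast W hD', Rat.cast_div]
  ring

/-- **The indices of the forms on all cycles depend only on the isogeny class.** -/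
theorem index_isog [IsAlgClosed W.K] (hA : IsAbelianLike W A m) (hA' : IsAbelianLike W A' m')
    {D : A.Cycles} {D' : A'.Cycles} (hD : A.IsCyc 1 D) (hD' : A'.IsCyc 1 D')
    (h' : 0 < topDeg ops A' D') (hmix : ∀ i ≤ A.dim, 0 < mixed ops A D (ops.pull f D') i) {n : ℕ}
    (hn : 2 * n ≤ A.dim) (hn' : 2 * n ≤ A'.dim) :
    posIdx (fun x y => frm W hD n hn x y) = posIdx (fun x y => frm W hD' n hn' x y) ∧
      posIdx (fun x y => -frm W hD n hn x y) = posIdx (fun x y => -frm W hD' n hn' x y) := by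
  have hD2 := ops.pull_mem f hD'
  have h0 := index_indep hA hD hD2 hmix hn
  rw [h0.1, h0.2]
  obtain ⟨a, x, hx⟩ := exists_OM_frm W hD2 hn
  obtain ⟨a', x', hx'⟩ := exists_OM_frm W hD' hn'
  have hdeg : 0 < topDeg ops A (ops.pull f D') := by
    have h1 := hmix 0 (Nat.zero_le _)
    exact h1
  have hN : (0 : ℚ) < N := by exact_mod_cast hI.pos
  have hNK : (N : W.K) ≠ 0 := by exact_mod_cast hI.pos.ne'
  set c : ℚ := topDeg ops A (ops.pull f D') / topDeg ops A' D' with hc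
  have hc0 : 0 < c := div_pos hdeg h'
  have hcK : (c : W.K) ≠ 0 := by exact_mod_cast hc0.ne'
  have hfg := map_pow_gr hA hI.fg
  have hgf := map_pow_gr hA' hI.gf
  set e' := W.cl A' D' with he'
  have he'm : e' ∈ W.gr A' 2 := W.cl_mem hD'
  -- the first transport
  have hT : ∀ y z : CM A' n, frm W hD2 n hn (⟨ops.pull f y, ops.pull_mem f y.2⟩ : CM A n)
      (⟨ops.pull f z, ops.pull_mem f z.2⟩ : CM A n) = c * frm W hD' n hn' y z := by
    intro y z
    have h1 : W.cl A' y * (e' ^ (A'.dim - 2 * n) * W.cl A' z) ∈ W.gr A' (2 * A'.dim) := by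
      have := W.mul_mem (W.cl_mem y.2) (W.mul_mem (pow2 he'm (A'.dim - 2 * n))
        (W.cl_mem z.2))
      rwa [show 2 * n + (2 * (A'.dim - 2 * n) + 2 * n) = 2 * A'.dim by omega] at this
    have h2 : ((frm W hD2 n hn (⟨ops.pull f y, ops.pull_mem f y.2⟩ : CM A n)
        (⟨ops.pull f z, ops.pull_mem f z.2⟩ : CM A n) : ℚ) : W.K) =
          ((c * frm W hD' n hn' y z : ℚ) : W.K) := by
      rw [frm_cast, Rat.cast_mul, frm_cast, ← tr_isog hI hD' h' h1, map_mul (W.map f),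
        map_mul (W.map f), map_pow (W.map f), hI.dim]
      change W.tr A (W.cl A (ops.pull f (y : A'.Cycles)) * (W.cl A (ops.pull f D') ^ _ *
        W.cl A (ops.pull f (z : A'.Cycles)))) = _
      rw [W.cl_pull, W.cl_pull, W.cl_pull]
    exact_mod_cast h2
  -- the second transport
  have hT2 : ∀ y z : CM A n, frm W hD' n hn' (⟨ops.pull g y, ops.pull_mem g y.2⟩ : CM A' n)
      (⟨ops.pull g z, ops.pull_mem g z.2⟩ : CM A' n) =
        ((N : ℚ) ^ (2 * A.dim) * c⁻¹ * ((N : ℚ) ^ (2 * (A.dim - 2 * n)))⁻¹) *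
          frm W hD2 n hn y z := by
    intro y z
    have he2 : W.map g (W.map f e') = (N : W.K) ^ 2 • e' := by
      rw [← W.map_comp]; exact hgf 2 _ he'm
    have h1 : W.cl A y * (W.map f e' ^ (A.dim - 2 * n) * W.cl A z) ∈ W.gr A (2 * A.dim) := by
      have := W.mul_mem (W.cl_mem y.2) (W.mul_mem (pow2 (W.map_mem f he'm) (A.dim - 2 * n))
        (W.cl_mem z.2))
      rwa [show 2 * n + (2 * (A.dim - 2 * n) + 2 * n) = 2 * A.dim by omega] at this
    have h3 : ∀ t ∈ W.gr A (2 * A.dim), (c : W.K) * W.tr A' (W.map g t) =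
        (N : W.K) ^ (2 * A.dim) * W.tr A t := by
      intro t ht
      have h4 := W.map_mem g ht
      rw [show 2 * A.dim = 2 * A'.dim by rw [hI.dim]] at h4
      rw [← tr_isog hI hD' h' h4, ← W.map_comp, hfg _ t ht, map_smul, smul_eq_mul]
    have h2 : ((frm W hD' n hn' (⟨ops.pull g y, ops.pull_mem g y.2⟩ : CM A' n)
        (⟨ops.pull g z, ops.pull_mem g z.2⟩ : CM A' n) : ℚ) : W.K) =
          ((((N : ℚ) ^ (2 * A.dim) * c⁻¹ * ((N : ℚ) ^ (2 * (A.dim - 2 * n)))⁻¹) *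
            frm W hD2 n hn y z : ℚ) : W.K) := by
      have h5 := h3 _ h1
      rw [map_mul (W.map g), map_mul (W.map g), map_pow (W.map g), he2, smul_pow, smul_mul_assoc,
        mul_smul_comm, map_smul, smul_eq_mul, ← pow_mul] at h5
      have h6 := frm_cast (W := W) hD2 hn y z
      rw [W.cl_pull] at h6
      rw [frm_cast, Rat.cast_mul, h6]
      change W.tr A' (W.cl A' (ops.pull g (y : A.Cycles)) * (_ * W.cl A' (ops.pull g
        (z : A.Cycles)))) = _
      rw [W.cl_pull, W.cl_pull, ← hI.dim]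
      push_cast
      have h7 : (N : W.K) ^ (2 * (A.dim - 2 * n)) ≠ 0 := pow_ne_zero _ hNK
      field_simp
      linear_combination h5
    exact_mod_cast h2
  have hd2 : (0 : ℚ) < (N : ℚ) ^ (2 * A.dim) * c⁻¹ * ((N : ℚ) ^ (2 * (A.dim - 2 * n)))⁻¹ :=
    mul_pos (mul_pos (pow_pos hN _) (inv_pos.2 hc0)) (inv_pos.2 (pow_pos hN _))
  constructor
  · apply le_antisymm
    · exact transport2 (frm_symm hD2 hn) hx (frm_symm hD' hn') hx'
        (T := fun y => ⟨ops.pull g y, ops.pull_mem g y.2⟩) hd2 (fun i j => hT2 _ _)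
    · exact transport2 (frm_symm hD' hn') hx' (frm_symm hD2 hn) hx
        (T := fun y => ⟨ops.pull f y, ops.pull_mem f y.2⟩) hc0 (fun i j => hT _ _)
  · apply le_antisymm
    · exact transport2_neg (frm_symm hD2 hn) hx (frm_symm hD' hn') hx'
        (T := fun y => ⟨ops.pull g y, ops.pull_mem g y.2⟩) hd2 (fun i j => hT2 _ _)
    · exact transport2_neg (frm_symm hD' hn') hx' (frm_symm hD2 hn) hx
        (T := fun y => ⟨ops.pull f y, ops.pull_mem f y.2⟩) hc0 (fun i j => hT _ _)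

end

end Pool.Agent.Run7.h174.PI
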