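import Pool.Agent.Run7.h174.PiJ

/-!
# The final form of the result
-/

set_option autoImplicit false

open CategoryTheory AlgebraicGeometry Finset

universe u v

namespace Pool.Agent.Run7.h174.PI

open Pool.Agent.H914 Pool.Agent.H914.VarClass Pool.Agent.H914.VarClass.Obj
  Pool.Agent.H914.WeilCohomology Pool.Agent.H281R3.HT Pool.Agent.W552 Pool.Agent.R908
  Pool.Agent.W539.Ker

section Abs

variable {M : Type*} [AddCommGroup M] [Module ℚ M] {B : M →ₗ[ℚ] M →ₗ[ℚ] ℚ}

lemma posFam_mono {β : M → M → ℚ} {r r' : ℕ} (h : PosFam β r) (hr : r' ≤ r) : PosFam β r' := by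
  obtain ⟨z, h1, h2⟩ := h
  exact ⟨fun i => z (Fin.castLE hr i), fun i => h1 _,
    fun i j hij => h2 _ _ (fun h => hij (Fin.castLE_injective hr h))⟩

lemma posFam_iff (hB : ∀ x y, B x y = B y x) {m : ℕ} {x : Fin m → M} (h : OM B x) (r : ℕ) :
    PosFam (fun x y => B x y) r ↔ r ≤ posIdx (fun x y => B x y) := by
  constructor
  · intro h1; exact le_csSup (h.bddAbove hB) h1
  · intro h1
    have h2 : posIdx (fun x y => B x y) ∈ {r | PosFam (fun x y => B x y) r} :=
      Nat.sSup_mem ⟨0, Fin.elim0, fun i => i.elim0, fun i => i.elim0⟩ (h.bddAbove hB)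
    exact posFam_mono h2 h1

lemma posFam_neg_iff (hB : ∀ x y, B x y = B y x) {m : ℕ} {x : Fin m → M} (h : OM B x) (r : ℕ) :
    PosFam (fun x y => -B x y) r ↔ r ≤ posIdx (fun x y => -B x y) :=
  posFam_iff (B := -B) (neg_symm hB) h.neg r

end Abs

variable {k : Type u} [Field k] {𝒱 : VarClass k} {ops : CycleOps 𝒱}
  {W : WeilCohomology.{u, v} ops} {A A' : 𝒱.Obj} {m : A.prod A ⟶ A} {m' : A'.prod A' ⟶ A'}

/-- The numerically primitive cycles are parametrized by the module `M`. -/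
structure Dict (ops : CycleOps 𝒱) (A : 𝒱.Obj) (D : A.Cycles) (n : ℕ) {M : Type*}
    [AddCommGroup M] [Module ℚ M] (B : M →ₗ[ℚ] M →ₗ[ℚ] ℚ) (ι : M → A.Cycles) : Prop where
  prim : ∀ x, NumPrimitive ops A D n (ι x)
  surj : ∀ z, NumPrimitive ops A D n z → ∃ x, ι x = z
  form : ∀ x y, pairing ops A D n (ι x) (ι y) = (-1) ^ n * B x y
  symm : ∀ x y, B x y = B y x
  om : ∃ m, ∃ x : Fin m → M, OM B x
  nd : ∀ x, (∀ y, B x y = 0) →
    ∀ w, A.IsCyc (A.dim - n) w → A.V.degCycle (ops.mul (ι x) w) = 0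

namespace Dict

variable {D : A.Cycles} {D' : A'.Cycles} {n : ℕ} {M M' : Type*} [AddCommGroup M] [Module ℚ M]
  [AddCommGroup M'] [Module ℚ M'] {B : M →ₗ[ℚ] M →ₗ[ℚ] ℚ} {B' : M' →ₗ[ℚ] M' →ₗ[ℚ] ℚ}
  {ι : M → A.Cycles} {ι' : M' → A'.Cycles}

lemma hasSquares (d : Dict ops A D n B ι) {s : ℚ} (hs : s ≠ 0) (r : ℕ) :
    HasSquares ops A D n s r ↔ PosFam (fun x y => (s * (-1) ^ n) * B x y) r := by
  have ht : s * (-1 : ℚ) ^ n ≠ 0 := mul_ne_zero hs (pow_ne_zero _ (by norm_num))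
  constructor
  · rintro ⟨z, h1, h2, h3⟩
    choose x hx using fun i => d.surj (z i) (h1 i)
    refine ⟨x, fun i => ?_, fun i j hij => ?_⟩
    · have h4 := h2 i
      rw [← hx i, d.form, ← mul_assoc] at h4
      exact h4
    · have h4 := h3 i j hij
      rw [← hx i, ← hx j, d.form] at h4
      change s * (-1) ^ n * B (x i) (x j) = 0
      rw [mul_assoc, h4, mul_zero]
  · rintro ⟨x, h1, h2⟩
    refine ⟨fun i => ι (x i), fun i => d.prim _, fun i => ?_, fun i j hij => ?_⟩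
    · rw [d.form, ← mul_assoc]
      exact h1 i
    · have h4 := h2 i j hij
      have h5 : B (x i) (x j) = 0 := (mul_eq_zero.1 h4).resolve_left ht
      rw [d.form, h5, mul_zero]

lemma hasSquares_iff (d : Dict ops A D n B ι) (d' : Dict ops A' D' n B' ι')
    (h1 : posIdx (fun x y => B x y) = posIdx (fun x y => B' x y))
    (h2 : posIdx (fun x y => -B x y) = posIdx (fun x y => -B' x y)) {s : ℚ}
    (hs : s = 1 ∨ s = -1) (r : ℕ) : HasSquares ops A D n s r ↔ HasSquares ops A' D' n s r := by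
  have hs0 : s ≠ 0 := by rcases hs with rfl | rfl <;> norm_num
  obtain ⟨m, x, hx⟩ := d.om
  obtain ⟨m', x', hx'⟩ := d'.om
  rw [d.hasSquares hs0, d'.hasSquares hs0]
  have ht : s * (-1 : ℚ) ^ n = 1 ∨ s * (-1 : ℚ) ^ n = -1 := by
    rcases neg_one_pow_eq_or ℚ n with h | h <;> rcases hs with rfl | rfl <;> rw [h] <;> norm_num
  rcases ht with h | h
  · rw [h]
    simp only [one_mul]
    rw [posFam_iff d.symm hx, posFam_iff d'.symm hx', h1]
  · rw [h]
    simp only [neg_one_mul]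
    rw [posFam_neg_iff d.symm hx, posFam_neg_iff d'.symm hx', h2]

/-- Positivity means that there are no negative squares. -/
lemma hodge_iff (d : Dict ops A D n B ι) (hD : A.IsCyc 1 D) (hn : 2 * n ≤ A.dim) :
    HodgeTypeNum ops A D n ↔ ¬ HasSquares ops A D n (-1) 1 := by
  constructor
  · rintro h ⟨z, h1, h2, -⟩
    have h3 := h2 0
    have h4 := h (z 0) (h1 0) ⟨divPow ops D (A.dim - 2 * n) (z 0), by
      have := divPow_mem (ops := ops) hD (A.dim - 2 * n) (h1 0).1
      rwa [show n + (A.dim - 2 * n) = A.dim - n by omega] at this, fun h0 => by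
      rw [pairing, h0, mul_zero, mul_zero] at h3
      exact lt_irrefl _ h3⟩
    linarith
  · rintro h z hz ⟨w, hw, hw0⟩
    obtain ⟨x, rfl⟩ := d.surj z hz
    by_contra hcon
    apply hw0
    apply d.nd x _ w hw
    intro y
    have hnn : ∀ y : M, 0 ≤ (-1 : ℚ) ^ n * B y y := by
      intro y
      by_contra h0
      apply h
      rw [d.hasSquares (by norm_num)]
      refine ⟨fun _ => y, fun _ => ?_, fun i j hij => (hij (Subsingleton.elim _ _)).elim⟩
      have h1 := not_le.1 h0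
      change 0 < -1 * (-1 : ℚ) ^ n * B y y
      rw [mul_assoc]
      linarith
    have hxx : (-1 : ℚ) ^ n * B x x = 0 := by
      apply le_antisymm _ (hnn x)
      have h1 := not_lt.1 hcon
      rwa [d.form] at h1
    set ε : ℚ := (-1 : ℚ) ^ n with hε
    have hε0 : ε ≠ 0 := pow_ne_zero _ (by norm_num)
    by_contra hxy
    have hb : ε * B x y ≠ 0 := mul_ne_zero hε0 hxy
    have h2 := hnn (y + (-(ε * B y y + 1) / (2 * (ε * B x y))) • x)
    set t : ℚ := -(ε * B y y + 1) / (2 * (ε * B x y)) with ht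
    have h3 : ε * B (y + t • x) (y + t • x) = ε * B y y + 2 * t * (ε * B x y) +
        t * t * (ε * B x x) := by
      rw [map_add B, LinearMap.add_apply, map_add (B y), map_add (B (t • x)), map_smul (B y),
        map_smul B, LinearMap.smul_apply, LinearMap.smul_apply, map_smul (B x), d.symm y x]
      simp only [smul_eq_mul]
      ring
    have h4 : 2 * t * (ε * B x y) = -(ε * B y y + 1) := by
      rw [ht]
      field_simp
    rw [h3, hxx, h4] at h2
    linarith

end Dict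

/-- Codimension zero. -/
lemma dict_zero (hA : IsAbelianLike W A m) {D : A.Cycles} (hD : A.IsCyc 1 D)
    (htop : W.tr A (W.cl A D ^ A.dim) ≠ 0) :
    Dict ops A D 0 (frm W hD 0 (Nat.zero_le _)) (fun x => (x : A.Cycles)) where
  prim x := ⟨x.2, fun q w _ h => by omega⟩
  surj z hz := ⟨⟨z, hz.1⟩, rfl⟩
  form x y := rfl
  symm := frm_symm hD _
  om := exists_OM_frm W hD _
  nd x hx w hw := frm_nd hD (lefschetzA_ab hA hD htop) _ x hx w hw

/-- Positive codimension. -/
lemma dict_succ (hA : IsAbelianLike W A m) {D : A.Cycles} (hD : A.IsCyc 1 D)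
    (htop : W.tr A (W.cl A D ^ A.dim) ≠ 0) {l : ℕ} (hn : 2 * (l + 1) ≤ A.dim) :
    Dict ops A D (l + 1) (pfrm W hD l hn) (fun x => ((x : CM A (l + 1)) : A.Cycles)) where
  prim x := by
    refine ⟨(x : CM A (l + 1)).2, fun q w hw h => ?_⟩
    obtain rfl : q = l := by omega
    have h1 := x.2 ⟨w, hw⟩
    have h2 := ops.mul_mem (x : CM A (q + 1)).2 (divPow_mem (ops := ops) hD
      (A.dim - 2 * (q + 1) + 1) hw)
    rw [show q + 1 + (q + (A.dim - 2 * (q + 1) + 1)) = A.dim by omega] at h2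
    have h3 : ((A.V.degCycle (ops.mul ((x : CM A (q + 1)) : A.Cycles)
        (divPow ops D (A.dim - 2 * (q + 1) + 1) w)) : ℚ) : W.K) =
          ((frm W hD (q + 1) hn (x : CM A (q + 1)) (dm ops hD ⟨w, hw⟩) : ℚ) : W.K) := by
      rw [← W.tr_cl h2, W.cl_mul, cl_divPow, mulLeft_pow_apply, frm_cast, cl_dm, ← mul_assoc
        (W.cl A D ^ _), ← pow_succ]
    rw [h1, Rat.cast_zero] at h3
    exact_mod_cast h3
  surj z hz := by
    refine ⟨⟨⟨z, hz.1⟩, fun y => ?_⟩, rfl⟩
    have h1 := hz.2 l y y.2 rfl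
    have h2 := ops.mul_mem hz.1 (divPow_mem (ops := ops) hD
      (A.dim - 2 * (l + 1) + 1) y.2)
    rw [show l + 1 + (l + (A.dim - 2 * (l + 1) + 1)) = A.dim by omega] at h2
    have h3 : ((A.V.degCycle (ops.mul z
        (divPow ops D (A.dim - 2 * (l + 1) + 1) (y : A.Cycles))) : ℚ) : W.K) =
          ((frm W hD (l + 1) hn (⟨z, hz.1⟩ : CM A (l + 1)) (dm ops hD y) : ℚ) : W.K) := by
      rw [← W.tr_cl h2, W.cl_mul, cl_divPow, mulLeft_pow_apply, frm_cast, cl_dm, ← mul_assoc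
        (W.cl A D ^ _), ← pow_succ]
    rw [h1, Rat.cast_zero] at h3
    exact_mod_cast h3.symm
  form x y := rfl
  symm := pfrm_symm hD _
  om := exists_OM_pfrm W hD _
  nd x hx w hw := pfrm_nd hD (lefschetzA_ab hA hD htop) _ hx w hw

/-- **The form depends only on the isogeny class, up to real isometry.** -/
theorem main_isog [IsAlgClosed W.K] (hA : IsAbelianLike W A m) (hA' : IsAbelianLike W A' m')
    {f : A ⟶ A'} {g : A' ⟶ A} {N : ℕ} (hI : IsIsog W f g N) {D : A.Cycles} {D' : A'.Cycles}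
    (hD : A.IsCyc 1 D) (hD' : A'.IsCyc 1 D') (h' : 0 < mixed ops A' D' D' 0)
    (hmix : ∀ i ≤ A.dim, 0 < mixed ops A D (ops.pull f D') i) {n : ℕ} (hn : 2 * n ≤ A.dim) :
    (∀ s : ℚ, s = 1 ∨ s = -1 → ∀ r,
      (HasSquares ops A D n s r ↔ HasSquares ops A' D' n s r)) ∧
      (HodgeTypeNum ops A D n ↔ HodgeTypeNum ops A' D' n) := by
  have hD2 := ops.pull_mem f hD'
  have htop := mixed_top hD hD2 (hmix _ le_rfl) (W := W)
  have h'' : 0 < topDeg ops A' D' := h'
  have htop' : W.tr A' (W.cl A' D' ^ A'.dim) ≠ 0 := by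
    rw [← topDeg_cast W hD']
    exact_mod_cast h''.ne'
  have hn' : 2 * n ≤ A'.dim := by rw [← hI.dim]; exact hn
  rcases n with _ | l
  · have d := dict_zero (ops := ops) hA hD htop
    have d' := dict_zero (ops := ops) hA' hD' htop'
    obtain ⟨h1, h2⟩ := index_isog hI hA hA' hD hD' h'' hmix (n := 0) (Nat.zero_le _)
      (Nat.zero_le _)
    refine ⟨fun s hs r => d.hasSquares_iff d' h1 h2 hs r, ?_⟩
    rw [d.hodge_iff hD hn, d'.hodge_iff hD' hn', d.hasSquares_iff d' h1 h2 (Or.inr rfl) 1]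
  · have d := dict_succ (ops := ops) hA hD htop hn
    have d' := dict_succ (ops := ops) hA' hD' htop' hn'
    obtain ⟨h1, h2⟩ := pfrm_isog hI hA hA' hD hD' h'' hmix hn hn'
    refine ⟨fun s hs r => d.hasSquares_iff d' h1 h2 hs r, ?_⟩
    rw [d.hodge_iff hD hn, d'.hodge_iff hD' hn', d.hasSquares_iff d' h1 h2 (Or.inr rfl) 1]

end Pool.Agent.Run7.h174.PI
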