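import Pool.Agent.Run7.h174.Fft

/-!
# The adjoints of a tuple of minimal norm are values of networks
-/

set_option autoImplicit false
set_option linter.unusedSectionVars false

open Finset Matrix MeasureTheory Function

namespace Pool.Agent.Run7.h174

variable {B : Type} [Fintype B] [DecidableEq B]
  {J : Type} [Fintype J] {A C : J → Type} [∀ j, Fintype (A j)] [∀ j, DecidableEq (A j)]
  [∀ j, Fintype (C j)] [∀ j, DecidableEq (C j)] (w : ∀ j, Ten ℂ B (A j) (C j))

lemma av_mem (m : ℕ) : ∀ {P Q : Type} [Fintype P] [DecidableEq P] [Fintype Q] [DecidableEq Q]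
    (y : Ten ℂ B P Q), av w m y ∈ Sp ℂ w P Q := by
  induction m with
  | zero =>
    intro P Q _ _ _ _ y
    have h1 := inv_mem_span (fun l => uact_av_zero w l y)
    refine (Submodule.span_le.2 ?_) h1
    rintro _ ⟨π, rfl⟩
    exact dten_mem π
  | succ m ih =>
    intro P Q _ _ _ _ y
    rw [av_succ]
    refine Submodule.sum_mem _ fun j _ => ?_
    exact contr_mem (gen_mem j) (ih _)

lemma unitary_mem (k : UU B) : (k : Matrix B B ℂ) ∈ Matrix.unitaryGroup B ℂ := k.2

lemma uact_inv (k : UU B) {P Q : Type} [Fintype P] [DecidableEq P] [Fintype Q] [DecidableEq Q]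
    (x : Ten ℂ B P Q) : uact ((k⁻¹ : UU B) : Matrix B B ℂ) (uact (k : Matrix B B ℂ) x) = x := by
  rw [← uact_mul, ← Submonoid.coe_mul, inv_mul_cancel]
  exact uact_one x

lemma hT_add_left {P Q : Type} [Fintype P] [DecidableEq P] [Fintype Q] [DecidableEq Q]
    (x y z : Ten ℂ B P Q) : hT (x + y) z = hT x z + hT y z := dotT_add_left _ _ _

lemma tconj_add {P Q : Type} [Fintype P] [DecidableEq P] [Fintype Q] [DecidableEq Q]
    (x y : Ten ℂ B P Q) : tconj (x + y) = tconj x + tconj y := by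
  funext u v
  simp [tconj, tmap]

lemma tconj_smul {P Q : Type} [Fintype P] [DecidableEq P] [Fintype Q] [DecidableEq Q]
    (c : ℂ) (x : Ten ℂ B P Q) : tconj (c • x) = (starRingEnd ℂ c) • tconj x := by
  funext u v
  simp [tconj, tmap]

lemma hT_add_right {P Q : Type} [Fintype P] [DecidableEq P] [Fintype Q] [DecidableEq Q]
    (x y z : Ten ℂ B P Q) : hT x (y + z) = hT x y + hT x z := by
  unfold hT
  rw [tconj_add, dotT_add_right]

lemma hT_smul_left {P Q : Type} [Fintype P] [DecidableEq P] [Fintype Q] [DecidableEq Q]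
    (c : ℂ) (x y : Ten ℂ B P Q) : hT (c • x) y = c * hT x y := dotT_smul_left _ _ _

lemma hT_smul_right {P Q : Type} [Fintype P] [DecidableEq P] [Fintype Q] [DecidableEq Q]
    (c : ℂ) (x y : Ten ℂ B P Q) : hT x (c • y) = starRingEnd ℂ c * hT x y := by
  unfold hT
  rw [tconj_smul, dotT_smul_right, smul_eq_mul]

lemma nT_sub {P Q : Type} [Fintype P] [DecidableEq P] [Fintype Q] [DecidableEq Q]
    (x y : Ten ℂ B P Q) : nT (x - y) = nT x + nT y - 2 * (hT x y).re := by
  have h1 : ((nT (x - y) : ℝ) : ℂ) = (nT x : ℂ) + (nT y : ℂ) - (hT x y + hT y x) := by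
    rw [← hT_self, ← hT_self, ← hT_self, sub_eq_add_neg, ← neg_one_smul ℂ y, hT_add_left,
      hT_add_right, hT_add_right, hT_smul_left, hT_smul_left, hT_smul_right, hT_smul_right]
    simp only [map_neg, map_one]
    ring
  rw [← hT_conj x y, Complex.add_conj] at h1
  exact_mod_cast h1

/-- the distance function -/
noncomputable def ac (k : UU B) : ℝ := nsq w - (zc w (k : Matrix B B ℂ)).re

lemma ac_eq (k : UU B) :
    ac w k = (1 / 2) * ∑ j, nT (uact (k : Matrix B B ℂ) (w j) - w j) := by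
  unfold ac nsq zc
  rw [Complex.re_sum, Finset.mul_sum, ← Finset.sum_sub_distrib]
  refine Finset.sum_congr rfl fun j _ => ?_
  rw [nT_sub, nT_uact k.2, ← hT_conj (w j)]
  rw [Complex.conj_re]
  ring

lemma ac_inv_mul (k l : UU B) : ac w (k⁻¹ * l) =
    (1 / 2) * ∑ j, nT (uact (l : Matrix B B ℂ) (w j) - uact (k : Matrix B B ℂ) (w j)) := by
  rw [ac_eq]
  refine congrArg (fun t : ℝ => (1 / 2) * t) (Finset.sum_congr rfl fun j _ => ?_)
  have h1 : uact ((k⁻¹ * l : UU B) : Matrix B B ℂ) (w j) - w j =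
      uact ((k⁻¹ : UU B) : Matrix B B ℂ) (uact (l : Matrix B B ℂ) (w j) -
        uact (k : Matrix B B ℂ) (w j)) := by
    have h2 : ∀ x y : Ten ℂ B (A j) (C j), uact ((k⁻¹ : UU B) : Matrix B B ℂ) (x - y) =
        uact ((k⁻¹ : UU B) : Matrix B B ℂ) x - uact ((k⁻¹ : UU B) : Matrix B B ℂ) y := fun x y =>
      map_sub (actL ((k⁻¹ : UU B) : Matrix B B ℂ) (cjm ((k⁻¹ : UU B) : Matrix B B ℂ))) x y
    rw [h2, uact_inv, ← uact_mul, ← Submonoid.coe_mul]
  exact (congrArg nT h1).trans (nT_uact (unitary_mem (k⁻¹)) _)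

lemma ac_nonneg (k : UU B) : 0 ≤ ac w k := by
  rw [ac_eq]
  have : 0 ≤ ∑ j, nT (uact (k : Matrix B B ℂ) (w j) - w j) :=
    Finset.sum_nonneg fun j _ => nT_nonneg _
  linarith

lemma ac_eq_zero {k : UU B} (h : ac w k = 0) (j : J) : uact (k : Matrix B B ℂ) (w j) = w j := by
  rw [ac_eq] at h
  have h1 : ∑ j, nT (uact (k : Matrix B B ℂ) (w j) - w j) = 0 := by linarith
  have h2 := (Finset.sum_eq_zero_iff_of_nonneg (fun j _ => nT_nonneg _)).1 h1 j
    (Finset.mem_univ j)
  exact sub_eq_zero.1 (nT_eq_zero h2)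

lemma continuous_ac : Continuous (ac w : UU B → ℝ) :=
  continuous_const.sub (Complex.continuous_re.comp (continuous_zc w))

/-- the volume bound -/
lemma vol : ∃ (D : ℕ) (c : ℝ), 0 < c ∧ ∀ n : ℕ, 0 < n →
    ((n : ℝ) ^ D)⁻¹ ≤ (muU B).real {k | ac w k ≤ c / (n : ℝ) ^ 2} := by
  classical
  set I : Type := (Σ j, (A j → B) × (C j → B)) × Bool with hI
  set g : I → UU B → ℝ := fun i k => bif i.2 then
    (uact (k : Matrix B B ℂ) (w i.1.1) i.1.2.1 i.1.2.2).im else
    (uact (k : Matrix B B ℂ) (w i.1.1) i.1.2.1 i.1.2.2).re with hg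
  have hnsq : ∀ k : UU B, nsq (fun j => uact (k : Matrix B B ℂ) (w j)) = nsq w := by
    intro k
    unfold nsq
    exact Finset.sum_congr rfl fun j _ => nT_uact k.2 _
  refine ⟨Fintype.card I, _, ?_, volume_bound (a := ac w) (g := g) (R := Real.sqrt (nsq w))
    (C := Fintype.card (Σ j, (A j → B) × (C j → B))) (Real.sqrt_nonneg _) ?_ ?_⟩
  · positivity
  · rintro ⟨⟨j, u, v⟩, b⟩ k
    have h1 := norm_le_nsq (fun j => uact (k : Matrix B B ℂ) (w j)) j u v
    rw [hnsq] at h1
    have h2 : ‖uact (k : Matrix B B ℂ) (w j) u v‖ ≤ Real.sqrt (nsq w) := Real.le_sqrt_of_sq_le h1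
    cases b
    · exact (Complex.abs_re_le_norm _).trans h2
    · exact (Complex.abs_im_le_norm _).trans h2
  · intro δ hδ k l h
    rw [ac_inv_mul]
    have h1 : ∀ (j : J) (u : A j → B) (v : C j → B),
        ‖(uact (l : Matrix B B ℂ) (w j) - uact (k : Matrix B B ℂ) (w j)) u v‖ ^ 2 ≤
          2 * δ ^ 2 := by
      intro j u v
      have h2 := h (⟨j, u, v⟩, false)
      have h3 := h (⟨j, u, v⟩, true)
      have h2' : |(uact (k : Matrix B B ℂ) (w j) u v).re -
        (uact (l : Matrix B B ℂ) (w j) u v).re| ≤ δ := h2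
      have h3' : |(uact (k : Matrix B B ℂ) (w j) u v).im -
        (uact (l : Matrix B B ℂ) (w j) u v).im| ≤ δ := h3
      rw [Complex.sq_norm, Complex.normSq_apply]
      simp only [Pi.sub_apply, Complex.sub_re, Complex.sub_im]
      have h4 := sq_le_sq' (abs_le.1 h2').1 (abs_le.1 h2').2
      have h5 := sq_le_sq' (abs_le.1 h3').1 (abs_le.1 h3').2
      nlinarith
    have h6 : ∑ j, nT (uact (l : Matrix B B ℂ) (w j) - uact (k : Matrix B B ℂ) (w j)) ≤
        ∑ x : (Σ j, (A j → B) × (C j → B)), 2 * δ ^ 2 := by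
      unfold nT
      rw [Fintype.sum_sigma]
      refine Finset.sum_le_sum fun j _ => ?_
      rw [Fintype.sum_prod_type]
      exact Finset.sum_le_sum fun u _ => Finset.sum_le_sum fun v _ => h1 j u v
    rw [Finset.sum_const, Finset.card_univ, nsmul_eq_mul] at h6
    linarith

/-- The phase is small where the coefficient is large. -/
lemma IsMin.phase {a w : ∀ j, Ten ℂ B (A j) (C j)} (h : IsMin a w) {η : ℝ} (hη : 0 < η) :
    ∃ r > 0, ∀ k : UU B, ac w k ≤ r → |(zc w (k : Matrix B B ℂ)).im| ≤ η * ac w k := by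
  obtain ⟨δ, hδ, hloc⟩ := h.local_phase hη
  set U : Set (UU B) := {k | ∃ l : UU B, (∀ j, uact (l : Matrix B B ℂ) (w j) = w j) ∧
    ∀ i j, ‖(k * l : UU B).1 i j - (1 : Matrix B B ℂ) i j‖ < δ} with hU
  have hUo : IsOpen U := by
    have : U = ⋃ l ∈ {l : UU B | ∀ j, uact (l : Matrix B B ℂ) (w j) = w j},
        {k : UU B | ∀ i j, ‖(k * l : UU B).1 i j - (1 : Matrix B B ℂ) i j‖ < δ} := by
      ext k
      simp [hU]
    rw [this]
    refine isOpen_biUnion fun l _ => ?_
    have h2 : {k : UU B | ∀ i j, ‖(k * l : UU B).1 i j - (1 : Matrix B B ℂ) i j‖ < δ} =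
        ⋂ i, ⋂ j, {k : UU B | ‖(k * l : UU B).1 i j - (1 : Matrix B B ℂ) i j‖ < δ} := by
      ext k
      simp
    rw [h2]
    refine isOpen_iInter_of_finite fun i => isOpen_iInter_of_finite fun j => ?_
    refine isOpen_lt ?_ continuous_const
    refine Continuous.norm (Continuous.sub ?_ continuous_const)
    exact (continuous_entry i j).comp (continuous_id.mul continuous_const)
  have hUin : ∀ k, ac w k = 0 → k ∈ U := by
    intro k hk
    refine ⟨k⁻¹, fun j => ?_, fun i j => ?_⟩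
    · have h1 := ac_eq_zero w hk j
      have h2 := uact_inv k (w j)
      rw [h1] at h2
      exact h2
    · rw [mul_inv_cancel]
      simp [hδ]
  have hout : ∀ k ∈ U, |(zc w (k : Matrix B B ℂ)).im| ≤ η * ac w k := by
    rintro k ⟨l, hl, hkl⟩
    have hz : zc w ((k * l : UU B) : Matrix B B ℂ) = zc w (k : Matrix B B ℂ) := by
      unfold zc
      refine Finset.sum_congr rfl fun j _ => ?_
      rw [Submonoid.coe_mul, uact_mul, hl]
    have h3 := hloc _ (k * l : UU B).2 (fun i j => (hkl i j).le)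
    rw [hz] at h3
    exact h3
  rcases Set.eq_empty_or_nonempty Uᶜ with hE | hE
  · refine ⟨1, one_pos, fun k _ => hout k ?_⟩
    rw [Set.compl_empty_iff] at hE
    rw [hE]
    trivial
  · obtain ⟨k0, hk0, hmin⟩ := (hUo.isClosed_compl.isCompact).exists_isMinOn hE
      (continuous_ac w).continuousOn
    have hpos : 0 < ac w k0 := lt_of_le_of_ne (ac_nonneg w k0) fun h0 => hk0 (hUin _ h0.symm)
    refine ⟨ac w k0 / 2, by positivity, fun k hk => hout k ?_⟩
    by_contra hkU
    have := hmin hkU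
    simp only [Set.mem_ofPred_eq] at this
    linarith

/-- continuity at the maximum -/
lemma near (ψ : UU B → ℂ) (hψ : Continuous ψ) {c : ℂ} (hc : ∀ k, ac w k = 0 → ψ k = c) {η : ℝ}
    (hη : 0 < η) : ∃ r > 0, ∀ k : UU B, ac w k ≤ r → ‖ψ k - c‖ ≤ η := by
  set U : Set (UU B) := {k | ‖ψ k - c‖ < η} with hU
  have hUo : IsOpen U := isOpen_lt (hψ.sub continuous_const).norm continuous_const
  rcases Set.eq_empty_or_nonempty Uᶜ with hE | hE
  · refine ⟨1, one_pos, fun k _ => ?_⟩
    rw [Set.compl_empty_iff] at hE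
    have : k ∈ U := by rw [hE]; trivial
    exact le_of_lt this
  · obtain ⟨k0, hk0, hmin⟩ := (hUo.isClosed_compl.isCompact).exists_isMinOn hE
      (continuous_ac w).continuousOn
    have hpos : 0 < ac w k0 := lt_of_le_of_ne (ac_nonneg w k0) fun h0 => hk0 (by
      change ‖ψ k0 - c‖ < η
      rw [hc k0 h0.symm, sub_self, norm_zero]
      exact hη)
    refine ⟨ac w k0 / 2, by positivity, fun k hk => ?_⟩
    by_contra hkU
    have := hmin (a := k) (show k ∈ Uᶜ from fun h' => hkU (le_of_lt h'))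
    simp only [Set.mem_ofPred_eq] at this
    linarith

lemma zc_norm_le (k : UU B) : ‖zc w (k : Matrix B B ℂ)‖ ≤ nsq w := by
  unfold zc nsq
  refine (norm_sum_le _ _).trans (Finset.sum_le_sum fun j _ => ?_)
  unfold hT dotT
  refine (norm_sum_le _ _).trans ?_
  have h1 : ∀ u : A j → B, ‖∑ v : C j → B, w j u v * tconj (uact (k : Matrix B B ℂ) (w j)) u v‖ ≤
      ∑ v : C j → B, (‖w j u v‖ ^ 2 + ‖uact (k : Matrix B B ℂ) (w j) u v‖ ^ 2) / 2 := by
    intro u
    refine (norm_sum_le _ _).trans (Finset.sum_le_sum fun v _ => ?_)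
    unfold tconj tmap
    rw [norm_mul, RCLike.norm_conj]
    nlinarith [sq_nonneg (‖w j u v‖ - ‖uact (k : Matrix B B ℂ) (w j) u v‖)]
  refine (Finset.sum_le_sum fun u _ => h1 u).trans ?_
  have h2 := nT_uact k.2 (w j)
  have h3 : ∑ u : A j → B, ∑ v : C j → B, (‖w j u v‖ ^ 2 +
      ‖uact (k : Matrix B B ℂ) (w j) u v‖ ^ 2) / 2 =
      (nT (w j) + nT (uact (k : Matrix B B ℂ) (w j))) / 2 := by
    unfold nT
    simp only [← Finset.sum_div, Finset.sum_add_distrib]
  rw [h3, h2]
  linarith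

/-- **The adjoints of the members of a tuple of minimal norm are combinations of values of
networks.** -/
theorem IsMin.tstar_mem {a w : ∀ j, Ten ℂ B (A j) (C j)} (h : IsMin a w) (j : J) :
    tstar (w j) ∈ Sp ℂ w (C j) (A j) := by
  by_contra hcon
  obtain ⟨f, hf1, hf2⟩ := Submodule.exists_le_ker_of_notMem hcon
  set ψ : UU B → ℂ := fun k => f (uact (k : Matrix B B ℂ) (tstar (w j))) with hψ
  have hψc : Continuous ψ :=
    (LinearMap.continuous_of_finiteDimensional f).comp (continuous_uact _)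
  have hc : ∀ k, ac w k = 0 → ψ k = f (tstar (w j)) := by
    intro k hk
    change f (uact (k : Matrix B B ℂ) (tstar (w j))) = _
    rw [← tstar_uact, ac_eq_zero w hk]
  have h1 : ∀ m : ℕ, ∫ k : UU B, zc w (k : Matrix B B ℂ) ^ m * ψ k ∂(muU B) = 0 := by
    intro m
    have h2 := map_av w f m (tstar (w j))
    rw [hf2 (av_mem w m _)] at h2
    exact h2.symm
  obtain ⟨D, c, hc0, hvol⟩ := vol w
  refine hf1 (laplace (continuous_zc w) hψc h1 (N := nsq w) (zc_norm_le w) (nsq_nonneg w) ?_ hc0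
    hvol)
  intro η hη
  obtain ⟨r1, hr1, hr1'⟩ := h.phase hη
  obtain ⟨r2, hr2, hr2'⟩ := near w ψ hψc hc hη
  refine ⟨min r1 r2, lt_min hr1 hr2, fun k hk => ⟨hr1' k (hk.trans (min_le_left _ _)),
    hr2' k (hk.trans (min_le_right _ _))⟩⟩

end Pool.Agent.Run7.h174
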