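import Pool.Agent.Run7.h174.RvDefs

/-!
# Primitive classes on the exceptional divisor of a blow-up
-/

set_option autoImplicit false

open CategoryTheory AlgebraicGeometry Finset

universe u v

namespace Pool.Agent.Run7.h174.RV

open Pool.Agent.H914 Pool.Agent.H914.VarClass Pool.Agent.H914.VarClass.Obj Pool.Agent.H281R3.HT
  Pool.Agent.H914.WeilCohomology

variable {k : Type u} [Field k] {𝒱 : VarClass k} {ops : CycleOps 𝒱}
  {W : WeilCohomology.{u, v} ops}

lemma evpow {X : 𝒱.Obj} {e : W.H X} (he : e ∈ W.gr X 2) (n : ℕ) : e ^ n ∈ W.gr X (2 * n) := by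
  induction n with
  | zero => rw [pow_zero, mul_zero]; exact W.one_mem X
  | succ n ih =>
    rw [pow_succ, show 2 * (n + 1) = 2 * n + 2 by ring]
    exact W.mul_mem ih he

lemma evc {X : 𝒱.Obj} {e : W.H X} (he : e ∈ W.gr X 2) (n : ℕ) (y : W.H X) :
    e ^ n * y = y * e ^ n := W.even_comm (p := n) (evpow he n) y

lemma evc1 {X : 𝒱.Obj} {e : W.H X} (he : e ∈ W.gr X 2) (y : W.H X) :
    e * y = y * e := W.even_comm (p := 1) he y

/-- A family of subspaces of the cohomology groups whose elements are regarded as zero: it is stable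
under pull-back, push-forward and the product with the classes of cycles, and its elements are
orthogonal to the classes of cycles. -/
structure Null (W : WeilCohomology.{u, v} ops) where
  /-- the subspaces -/
  N : ∀ X : 𝒱.Obj, Submodule W.K (W.H X)
  map_mem : ∀ {X Y : 𝒱.Obj} (f : X ⟶ Y) {v : W.H Y}, v ∈ N Y → W.map f v ∈ N X
  push_mem : ∀ {X Y : 𝒱.Obj} (f : X ⟶ Y) {v : W.H X}, v ∈ N X → W.push f v ∈ N Y
  cyc_mul : ∀ {X : 𝒱.Obj} {p : ℕ} {z : X.Cycles}, X.IsCyc p z → ∀ {v : W.H X}, v ∈ N X →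
    W.cl X z * v ∈ N X
  tr_mul : ∀ {X : 𝒱.Obj} {p : ℕ} {z : X.Cycles}, X.IsCyc p z → ∀ {v : W.H X}, v ∈ N X →
    W.tr X (v * W.cl X z) = 0

variable {𝒩 : Null W}

lemma Null.pow_mul {X : 𝒱.Obj} {T v : W.H X} (hT : ∀ v ∈ 𝒩.N X, T * v ∈ 𝒩.N X) (hv : v ∈ 𝒩.N X)
    (n : ℕ) : T ^ n * v ∈ 𝒩.N X := by
  induction n with
  | zero => rwa [pow_zero, one_mul]
  | succ n ih => rw [pow_succ', mul_assoc]; exact hT _ ih

section

variable {Z R Y : 𝒱.Obj} {b : Square Z R Y} {c : ℕ} {T : W.H Y} {a : ℕ → ℚ}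

lemma IsBlowUp.relation (hb : IsBlowUp W b c T a) : ∑ k ∈ range (c + 1),
    ((a k : ℚ) : W.K) • (W.map b.g T ^ k * W.cl b.E b.ξ ^ (c - k)) = 0 := hb.isBundle.relation

lemma IsBlowUp.bundle (hb : IsBlowUp W b c T a) :
    W.push b.g (W.cl b.E b.ξ ^ (c - 1)) = 1 := hb.isBundle.bundle

lemma IsBlowUp.normal (hb : IsBlowUp W b c T a) (y : W.H b.E) :
    W.map b.j (W.push b.j y) = -(W.cl b.E b.ξ * y) := hb.isNormal y

lemma IsBlowUp.key (hb : IsBlowUp W b c T a) (w : W.H Y) :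
    W.map b.π (W.push b.i w) = W.push b.j ((∑ k ∈ range c,
      ((a k : ℚ) : W.K) • (W.map b.g T ^ k * W.cl b.E b.ξ ^ (c - 1 - k))) * W.map b.g w) :=
  hb.isKey w

lemma exc_cyc (hb : IsBlowUp W b c T a) : Z.IsCyc 1 (ops.push b.j b.E.V.fundCycle) :=
  ops.push_mem b.j b.E.V.fundCycle_mem (by have := hb.dim_E; omega)

lemma cl_exc (W : WeilCohomology.{u, v} ops) (b : Square Z R Y) :
    W.cl Z (ops.push b.j b.E.V.fundCycle) = W.push b.j 1 := by
  rw [W.cl_push, W.cl_fund]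

lemma eps_mem (hb : IsBlowUp W b c T a) : W.push b.j 1 ∈ W.gr Z 2 := by
  rw [← cl_exc]
  exact W.cl_mem (exc_cyc hb)

lemma xi_mem (hb : IsBlowUp W b c T a) : W.cl b.E b.ξ ∈ W.gr b.E 2 := W.cl_mem hb.cyc_ξ

lemma map_eps (hb : IsBlowUp W b c T a) : W.map b.j (W.push b.j 1) = -W.cl b.E b.ξ := by
  rw [hb.normal, mul_one]

/-- Multiplication by the exceptional divisor. -/
lemma eps_push (hb : IsBlowUp W b c T a) (l : ℕ) (x : W.H b.E) :
    W.push b.j 1 ^ l * W.push b.j x = (-1 : W.K) ^ l • W.push b.j (W.cl b.E b.ξ ^ l * x) := by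
  rw [W.mul_push b.j (p := l) (evpow (eps_mem hb) l), map_pow (W.map b.j), map_eps hb, neg_pow,
    mul_assoc, ← map_smul]
  congr 1
  rcases neg_one_pow_eq_or W.K l with h | h <;> rcases Nat.even_or_odd l with h' | h'
  · rw [h, h'.neg_one_pow, one_mul, one_smul]
  · rw [h, h'.neg_one_pow]
    exfalso
    rw [h'.neg_one_pow] at h
    have : (2 : W.K) = 0 := by linear_combination -h
    norm_num at this
  · exfalso
    rw [h'.neg_one_pow] at h
    have : (2 : W.K) = 0 := by linear_combination h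
    norm_num at this
  · rw [h, h'.neg_one_pow, neg_mul, one_mul, neg_one_smul]

lemma t_zero {u : W.H Y} {s : ℕ} (hu : T ^ (s + 1) * u = 0) {n : ℕ} (hn : s + 1 ≤ n) :
    T ^ n * u = 0 := by
  obtain ⟨r, rfl⟩ := Nat.exists_eq_add_of_le hn
  rw [add_comm (s + 1) r, pow_add, mul_assoc, hu, mul_zero]

lemma t_null (hT : ∀ v ∈ 𝒩.N Y, T * v ∈ 𝒩.N Y) {u : W.H Y} {s : ℕ}
    (hu : T ^ (s + 1) * u ∈ 𝒩.N Y) {n : ℕ} (hn : s + 1 ≤ n) : T ^ n * u ∈ 𝒩.N Y := by
  obtain ⟨r, rfl⟩ := Nat.exists_eq_add_of_le hn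
  rw [add_comm (s + 1) r, pow_add, mul_assoc]
  exact 𝒩.pow_mul hT hu r

lemma xi_null (𝒩 : Null W) (hb : IsBlowUp W b c T a) {v : W.H b.E} (hv : v ∈ 𝒩.N b.E) (n : ℕ) :
    W.cl b.E b.ξ ^ n * v ∈ 𝒩.N b.E :=
  𝒩.pow_mul (fun _ h => 𝒩.cyc_mul hb.cyc_ξ h) hv n

/-- Vanishing of the classes of large degree. -/
lemma van (hb : IsBlowUp W b c T a) (hT : T ∈ W.gr Y 2) (hTN : ∀ v ∈ 𝒩.N Y, T * v ∈ 𝒩.N Y)
    {u : W.H Y} {s : ℕ} (hu : T ^ (s + 1) * u ∈ 𝒩.N Y)
    (hi : ∀ n, W.push b.i (T ^ n * u) = 0) :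
    ∀ l m, s ≤ m + l →
      W.push b.j (W.cl b.E b.ξ ^ (c - 1 + l) * W.map b.g (T ^ m * u)) ∈ 𝒩.N Z := by
  intro l
  induction l using Nat.strong_induction_on with
  | _ l ih =>
    intro m hm
    set X := W.cl b.E b.ξ with hX
    have hXm : X ∈ W.gr b.E 2 := xi_mem hb
    have hG : W.map b.g T ∈ W.gr b.E 2 := W.map_mem b.g hT
    have h1 := hb.key (T ^ m * u)
    rw [hi, map_zero] at h1
    have h2 : W.push b.j (X ^ l * ((∑ k ∈ range c,
        ((a k : ℚ) : W.K) • (W.map b.g T ^ k * X ^ (c - 1 - k))) * W.map b.g (T ^ m * u))) = 0 := by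
      have h3 := eps_push hb l ((∑ k ∈ range c,
        ((a k : ℚ) : W.K) • (W.map b.g T ^ k * X ^ (c - 1 - k))) * W.map b.g (T ^ m * u))
      rw [← h1, mul_zero] at h3
      have h4 : (-1 : W.K) ^ l ≠ 0 := pow_ne_zero _ (by norm_num)
      exact (smul_eq_zero.1 h3.symm).resolve_left h4
    have h5 : X ^ l * ((∑ k ∈ range c,
        ((a k : ℚ) : W.K) • (W.map b.g T ^ k * X ^ (c - 1 - k))) * W.map b.g (T ^ m * u)) =
        ∑ k ∈ range c, ((a k : ℚ) : W.K) •
          (X ^ (c - 1 - k + l) * W.map b.g (T ^ (m + k) * u)) := by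
      rw [Finset.sum_mul, Finset.mul_sum]
      refine Finset.sum_congr rfl fun k _ => ?_
      rw [smul_mul_assoc, mul_smul_comm, evc hG k (X ^ (c - 1 - k)), mul_assoc, ← mul_assoc,
        ← pow_add, add_comm l, ← map_pow (W.map b.g), ← map_mul (W.map b.g), ← mul_assoc,
        ← pow_add, add_comm k m]
    rw [h5, map_sum] at h2
    have hc : c = (c - 1) + 1 := by have := hb.two_le; omega
    rw [hc, Finset.sum_range_succ', map_smul _ ((a 0 : ℚ) : W.K), hb.a_zero, Rat.cast_one,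
      one_smul, Nat.add_sub_cancel, Nat.sub_zero, add_zero] at h2
    rw [eq_neg_of_add_eq_zero_right h2]
    refine Submodule.neg_mem _ (Submodule.sum_mem _ fun k hk => ?_)
    rw [Finset.mem_range] at hk
    rw [map_smul]
    refine Submodule.smul_mem _ _ ?_
    by_cases hkl : k + 1 ≤ l
    · have h6 := ih (l - (k + 1)) (by omega) (m + (k + 1)) (by omega)
      rwa [show c - 1 - (k + 1) + l = c - 1 + (l - (k + 1)) by omega]
    · exact 𝒩.push_mem b.j (xi_null 𝒩 hb (𝒩.map_mem b.g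
        (t_null hTN hu (show s + 1 ≤ m + (k + 1) by omega))) _)

/-- The restriction of `N π^* A - E` to `E`. -/
lemma map_H (hb : IsBlowUp W b c T a) {A : W.H R} (hA : W.map b.i A = T) (N : W.K) :
    W.map b.j (N • W.map b.π A - W.push b.j 1) = N • W.map b.g T + W.cl b.E b.ξ := by
  rw [map_sub, map_smul, ← W.map_comp, hb.comm, W.map_comp, hA, map_eps hb, sub_neg_eq_add]

lemma H_mem (hb : IsBlowUp W b c T a) {A : W.H R} (hA2 : A ∈ W.gr R 2) (N : W.K) :
    N • W.map b.π A - W.push b.j 1 ∈ W.gr Z 2 :=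
  Submodule.sub_mem _ (Submodule.smul_mem _ _ (W.map_mem b.π hA2)) (eps_mem hb)

lemma H_pow_push (hb : IsBlowUp W b c T a) {A : W.H R} (hA : W.map b.i A = T)
    (hA2 : A ∈ W.gr R 2) (N : W.K) (e : ℕ) (x : W.H b.E) :
    (N • W.map b.π A - W.push b.j 1) ^ e * W.push b.j x =
      W.push b.j ((N • W.map b.g T + W.cl b.E b.ξ) ^ e * x) := by
  rw [W.mul_push b.j (p := e) (evpow (H_mem hb hA2 N) e), map_pow (W.map b.j), map_H hb hA]

/-- The binomial formula. -/
lemma binom_g (hb : IsBlowUp W b c T a) (hT : T ∈ W.gr Y 2) (N : W.K) (e : ℕ) (u : W.H Y) :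
    (N • W.map b.g T + W.cl b.E b.ξ) ^ e * W.map b.g u =
      ∑ k ∈ range (e + 1), ((e.choose k : W.K) * N ^ k) •
        (W.cl b.E b.ξ ^ (e - k) * W.map b.g (T ^ k * u)) := by
  have hG : W.map b.g T ∈ W.gr b.E 2 := W.map_mem b.g hT
  have hcom : Commute (N • W.map b.g T) (W.cl b.E b.ξ) := by
    rw [commute_iff_eq, smul_mul_assoc, mul_smul_comm, evc1 hG]
  rw [hcom.add_pow, Finset.sum_mul]
  refine Finset.sum_congr rfl fun k _ => ?_
  rw [smul_pow, smul_mul_assoc, smul_mul_assoc, smul_mul_assoc, ← Nat.cast_comm, mul_assoc,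
    evc hG k (W.cl b.E b.ξ ^ (e - k)), mul_assoc, ← map_pow (W.map b.g), ← map_mul (W.map b.g),
    mul_comm ((e.choose k : W.K)) (N ^ k), mul_smul]
  congr 1
  rw [Algebra.smul_def, map_natCast]

/-- The class `j_* g^* u` is primitive for `N π^* A - E`. -/
lemma prim (hb : IsBlowUp W b c T a) (hT : T ∈ W.gr Y 2) (hTN : ∀ v ∈ 𝒩.N Y, T * v ∈ 𝒩.N Y)
    {A : W.H R} (hA : W.map b.i A = T) (hA2 : A ∈ W.gr R 2) {u : W.H Y} {s : ℕ}
    (hu : T ^ (s + 1) * u ∈ 𝒩.N Y) (hi : ∀ n, W.push b.i (T ^ n * u) = 0) (N : W.K) {e : ℕ}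
    (he : s + c ≤ e + 1) :
    (N • W.map b.π A - W.push b.j 1) ^ e * W.push b.j (W.map b.g u) ∈ 𝒩.N Z := by
  rw [H_pow_push hb hA hA2, binom_g hb hT, map_sum]
  refine Submodule.sum_mem _ fun k hk => ?_
  rw [Finset.mem_range] at hk
  rw [map_smul]
  refine Submodule.smul_mem _ _ ?_
  by_cases hks : s + 1 ≤ k
  · exact 𝒩.push_mem b.j (xi_null 𝒩 hb (𝒩.map_mem b.g (t_null hTN hu hks)) _)
  · have h1 := van hb hT hTN hu hi (e - k - (c - 1)) k (by have := hb.two_le; omega)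
    rwa [show c - 1 + (e - k - (c - 1)) = e - k by have := hb.two_le; omega] at h1

/-- The Segre classes. -/
lemma segre (hb : IsBlowUp W b c T a) (hT : T ∈ W.gr Y 2) {v : W.H Y} {s : ℕ}
    (hv : T ^ (s + 1) * v = 0) : ∀ l, ∃ β : ℚ, (l = 0 → β = 1) ∧ ∀ m, m + l = s →
      W.tr b.E (W.cl b.E b.ξ ^ (c - 1 + l) * W.map b.g (T ^ m * v)) =
        (β : W.K) * W.tr Y (T ^ s * v) := by
  intro l
  induction l using Nat.strong_induction_on with
  | _ l ih =>
    set X := W.cl b.E b.ξ with hX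
    have hXm : X ∈ W.gr b.E 2 := xi_mem hb
    have hG : W.map b.g T ∈ W.gr b.E 2 := W.map_mem b.g hT
    rcases Nat.eq_zero_or_pos l with rfl | hl
    · refine ⟨1, fun _ => rfl, fun m hm => ?_⟩
      rw [add_zero] at hm
      subst hm
      rw [add_zero, ← W.tr_push, hb.bundle, one_mul, Rat.cast_one, one_mul]
    · choose! β hβ0 hβ using ih
      refine ⟨-∑ k ∈ range c, if k + 1 ≤ l then a (k + 1) * β (l - (k + 1)) else 0,
        fun h => absurd h hl.ne', fun m hm => ?_⟩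
      have h1 : X ^ (c - 1 + l) * W.map b.g (T ^ m * v) =
          X ^ (l - 1) * (X ^ c * W.map b.g (T ^ m * v)) := by
        rw [← mul_assoc, ← pow_add]
        congr 2
        have := hb.two_le
        omega
      have h2 : X ^ c = -∑ k ∈ range c, ((a (k + 1) : ℚ) : W.K) •
          (W.map b.g T ^ (k + 1) * X ^ (c - (k + 1))) := by
        have h3 := hb.relation
        rw [Finset.sum_range_succ', hb.a_zero, Rat.cast_one, one_smul, pow_zero, one_mul,
          Nat.sub_zero] at h3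
        exact eq_neg_of_add_eq_zero_right h3
      rw [h1, h2, neg_mul, mul_neg, map_neg, Finset.sum_mul, Finset.mul_sum, map_sum,
        Rat.cast_neg, neg_mul, Rat.cast_sum, Finset.sum_mul]
      congr 1
      refine Finset.sum_congr rfl fun k hk => ?_
      rw [Finset.mem_range] at hk
      have h4 : X ^ (l - 1) * (((a (k + 1) : ℚ) : W.K) •
          (W.map b.g T ^ (k + 1) * X ^ (c - (k + 1))) * W.map b.g (T ^ m * v)) =
          ((a (k + 1) : ℚ) : W.K) • (X ^ (l - 1 + (c - (k + 1))) *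
            W.map b.g (T ^ (m + (k + 1)) * v)) := by
        rw [smul_mul_assoc, mul_smul_comm, evc hG (k + 1) (X ^ (c - (k + 1))), mul_assoc,
          ← mul_assoc, ← pow_add, ← map_pow (W.map b.g), ← map_mul (W.map b.g), ← mul_assoc,
          ← pow_add, add_comm (k + 1) m]
      rw [h4, map_smul, smul_eq_mul]
      by_cases hkl : k + 1 ≤ l
      · have h5 := hβ (l - (k + 1)) (by omega) (m + (k + 1)) (by omega)
        rw [show l - 1 + (c - (k + 1)) = c - 1 + (l - (k + 1)) by omega, h5, if_pos hkl]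
        push_cast
        ring
      · rw [t_zero hv (show s + 1 ≤ m + (k + 1) by omega), map_zero (W.map b.g), mul_zero,
          map_zero, mul_zero, if_neg hkl, Rat.cast_zero, zero_mul]

/-- The square of the class `j_* g^* u`. -/
lemma square (hb : IsBlowUp W b c T a) (hT : T ∈ W.gr Y 2) {A : W.H R} (hA : W.map b.i A = T)
    (hA2 : A ∈ W.gr R 2) {u : W.H Y} {s : ℕ} (huu : T ^ (s + 1) * (u * u) = 0) {p : ℕ}
    (hup : u ∈ W.gr Y (2 * p)) :
    ∃ β : ℕ → ℚ, β 0 = 1 ∧ ∀ N : ℕ,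
      W.tr Z (W.push b.j (W.map b.g u) * (((N : W.K) • W.map b.π A - W.push b.j 1) ^ (s + c - 2) *
        W.push b.j (W.map b.g u))) =
      ((-∑ k ∈ range (s + 1), ((s + c - 2).choose k : ℚ) * (N : ℚ) ^ k * β (s - k) : ℚ) : W.K) *
        W.tr Y (T ^ s * (u * u)) := by
  have hG : W.map b.g T ∈ W.gr b.E 2 := W.map_mem b.g hT
  have hX : W.cl b.E b.ξ ∈ W.gr b.E 2 := xi_mem hb
  choose β hβ0 hβ using segre hb hT huu
  refine ⟨β, hβ0 0 rfl, fun N => ?_⟩
  have hgu : W.map b.g u ∈ W.gr b.E (2 * p) := W.map_mem b.g hup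
  rw [W.tr_push, H_pow_push hb hA hA2, hb.normal, mul_neg, map_neg]
  have h1 : W.map b.g u * (W.cl b.E b.ξ * (((N : W.K) • W.map b.g T + W.cl b.E b.ξ) ^ (s + c - 2) *
      W.map b.g u)) = W.cl b.E b.ξ * (((N : W.K) • W.map b.g T + W.cl b.E b.ξ) ^ (s + c - 2) *
      W.map b.g (u * u)) := by
    rw [W.even_comm hgu, map_mul (W.map b.g)]
    simp only [mul_assoc]
  rw [h1, binom_g hb hT, Finset.mul_sum, map_sum]
  have hsub : range (s + 1) ⊆ range (s + c - 2 + 1) := by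
    intro x hx
    rw [Finset.mem_range] at hx ⊢
    have := hb.two_le
    omega
  rw [← Finset.sum_subset hsub]
  · push_cast
    rw [neg_mul, Finset.sum_mul]
    congr 1
    refine Finset.sum_congr rfl fun k hk => ?_
    rw [Finset.mem_range] at hk
    have h2 := hβ (s - k) k (by omega)
    rw [mul_smul_comm, map_smul, smul_eq_mul, ← mul_assoc (W.cl b.E b.ξ), ← pow_succ',
      show s + c - 2 - k + 1 = c - 1 + (s - k) by have := hb.two_le; omega, h2]
    ring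
  · intro k _ hk
    rw [Finset.mem_range, not_lt] at hk
    rw [t_zero huu hk, map_zero (W.map b.g), mul_zero, smul_zero, mul_zero, map_zero]

/-- The class `j_* g^* u` determines `u`. -/
lemma exc_ne (hb : IsBlowUp W b c T a) {u : W.H Y} (hu : u ∉ 𝒩.N Y) :
    W.push b.j (W.map b.g u) ∉ 𝒩.N Z := by
  intro h
  apply hu
  have h1 := 𝒩.map_mem b.j h
  rw [hb.normal] at h1
  have h2 : W.cl b.E b.ξ * W.map b.g u ∈ 𝒩.N b.E := by
    have h3 := Submodule.neg_mem _ h1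
    rwa [neg_neg] at h3
  have h3 : W.cl b.E b.ξ ^ (c - 1) * W.map b.g u ∈ 𝒩.N b.E := by
    rw [show c - 1 = c - 2 + 1 by have := hb.two_le; omega, pow_succ, mul_assoc]
    exact xi_null 𝒩 hb h2 _
  have h4 := W.push_mul b.g (W.cl b.E b.ξ ^ (c - 1)) u
  rw [hb.bundle, one_mul] at h4
  rw [← h4]
  exact 𝒩.push_mem b.g h3

end

end Pool.Agent.Run7.h174.RV
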