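import Pool.Agent.Run7.h174.RvA

/-!
# From a primitive class to the middle codimension of a product
-/

set_option autoImplicit false

open CategoryTheory AlgebraicGeometry Finset

universe u v

namespace Pool.Agent.Run7.h174.RV

open Pool.Agent.H914 Pool.Agent.H914.VarClass Pool.Agent.H914.VarClass.Obj Pool.Agent.H281R3.HT
  Pool.Agent.H914.WeilCohomology

variable {k : Type u} [Field k] {𝒱 : VarClass k} {ops : CycleOps 𝒱}
  {W : WeilCohomology.{u, v} ops} {𝒩 : Null W}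

lemma isCyc_sum {X : 𝒱.Obj} {n : ℕ} {ι : Type*} (s : Finset ι) {f : ι → X.Cycles}
    (h : ∀ i ∈ s, X.IsCyc n (f i)) : X.IsCyc n (∑ i ∈ s, f i) := by
  classical
  induction s using Finset.induction_on with
  | empty => rw [Finset.sum_empty]; exact SmVar.IsCyc.zero _ _
  | insert i s hi ih =>
    rw [Finset.sum_insert hi]
    exact SmVar.IsCyc.add (h i (Finset.mem_insert_self _ _))
      (ih fun j hj => h j (Finset.mem_insert_of_mem hj))

section

variable {Z F : 𝒱.Obj}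

/-- The sum `∑ (-1) ^ l H ^ l h ^ (m - l)` in the cohomology of `Z × F`. -/
noncomputable def alt (W : WeilCohomology.{u, v} ops) (H : W.H Z) (h : W.H F) (m : ℕ) :
    W.H (Z.prod F) :=
  ∑ l ∈ range (m + 1), (-W.map (fst Z F) H) ^ l * W.map (snd Z F) h ^ (m + 1 - 1 - l)

variable {H : W.H Z} {h : W.H F} {m : ℕ}

lemma comm_ab (hH : H ∈ W.gr Z 2) (x : W.H (Z.prod F)) :
    W.map (fst Z F) H * x = x * W.map (fst Z F) H := evc1 (W.map_mem _ hH) x

lemma alt_mul (hH : H ∈ W.gr Z 2) :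
    (W.map (fst Z F) H + W.map (snd Z F) h) * alt W H h m =
      W.map (snd Z F) h ^ (m + 1) - (-W.map (fst Z F) H) ^ (m + 1) := by
  have hcom : Commute (-W.map (fst Z F) H) (W.map (snd Z F) h) := by
    rw [commute_iff_eq, neg_mul, mul_neg, comm_ab hH]
  have h1 := hcom.mul_geom_sum₂ (m + 1)
  rw [alt, ← neg_inj, ← neg_mul, neg_add, ← sub_eq_add_neg, h1]
  abel

lemma h_top {X : 𝒱.Obj} {e : W.H X} (he : e ∈ W.gr X 2) {n : ℕ} (hn : X.dim < n) : e ^ n = 0 := by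
  have h1 := evpow he n
  rw [W.gr_eq_bot X (2 * n) (by omega)] at h1
  exact (Submodule.mem_bot _).1 h1

/-- The class `w = ∑ (-1) ^ l H ^ l ζ × h ^ (m - l)` is annihilated by the polarization. -/
lemma pol_alt (hH : H ∈ W.gr Z 2) (hh : h ∈ W.gr F 2) (hm : F.dim = m) {ζ : W.H Z}
    (hζ : H ^ (m + 1) * ζ ∈ 𝒩.N Z) :
    (W.map (fst Z F) H + W.map (snd Z F) h) * (alt W H h m * W.map (fst Z F) ζ) ∈
      𝒩.N (Z.prod F) := by
  rw [← mul_assoc, alt_mul hH, ← map_pow (W.map (snd Z F)), h_top hh (by omega), map_zero,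
    zero_sub, neg_pow, ← map_pow (W.map (fst Z F)), neg_mul, mul_assoc, ← map_mul (W.map (fst Z F))]
  refine Submodule.neg_mem _ ?_
  have h1 := 𝒩.map_mem (fst Z F) hζ
  rcases Nat.even_or_odd (m + 1) with h' | h'
  · rwa [h'.neg_one_pow, one_mul]
  · rw [h'.neg_one_pow, neg_one_mul]
    exact Submodule.neg_mem _ h1

/-- The number `w · w`. -/
lemma tr_sq (𝒩 : Null W) (hH : H ∈ W.gr Z 2) (hh : h ∈ W.gr F 2)
    (hHN : ∀ v ∈ 𝒩.N (Z.prod F), W.map (fst Z F) H * v ∈ 𝒩.N (Z.prod F))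
    (hhN : ∀ v ∈ 𝒩.N (Z.prod F), W.map (snd Z F) h * v ∈ 𝒩.N (Z.prod F)) (hm : F.dim = m)
    {ζ : Z.Cycles} {q : ℕ} (hζq : Z.IsCyc q ζ) (hζ : H ^ (m + 1) * W.cl Z ζ ∈ 𝒩.N Z) :
    W.tr (Z.prod F) ((alt W H h m * W.map (fst Z F) (W.cl Z ζ)) *
      (alt W H h m * W.map (fst Z F) (W.cl Z ζ))) =
      (m + 1 : ℕ) * (-1 : W.K) ^ m * (W.tr Z (W.cl Z ζ * (H ^ m * W.cl Z ζ)) *
        W.tr F (h ^ m)) := by
  have hζ' : W.map (fst Z F) (W.cl Z ζ) ∈ W.gr (Z.prod F) (2 * q) :=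
    W.map_mem _ (W.cl_mem hζq)
  have hcy : (Z.prod F).IsCyc q (ops.pull (fst Z F) ζ) := ops.pull_mem _ hζq
  set a := W.map (fst Z F) H with ha
  set b := W.map (snd Z F) h with hb
  set z := W.map (fst Z F) (W.cl Z ζ) with hz
  have hbm : b ∈ W.gr (Z.prod F) 2 := W.map_mem _ hh
  set w := alt W H h m * z with hw
  have htr : ∀ v ∈ 𝒩.N (Z.prod F), W.tr (Z.prod F) (z * v) = 0 := fun v hv => by
    rw [W.even_comm hζ', hz, ← W.cl_pull]
    exact 𝒩.tr_mul hcy hv
  have h1 : (a + b) * w ∈ 𝒩.N (Z.prod F) := pol_alt hH hh hm hζ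
  have hcomm : Commute (-a) b := by
    rw [commute_iff_eq, neg_mul, mul_neg, comm_ab hH]
  have h3 : ∀ l, (-a) ^ l * w - b ^ l * w ∈ 𝒩.N (Z.prod F) := by
    intro l
    induction l with
    | zero =>
      rw [pow_zero, pow_zero, sub_self]
      exact Submodule.zero_mem _
    | succ l ih =>
      have h4 : (-a) ^ (l + 1) * w - b ^ (l + 1) * w =
          -(a * ((-a) ^ l * w - b ^ l * w)) - b ^ l * ((a + b) * w) := by
        have h5 : b ^ l * (a * w) = a * (b ^ l * w) := by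
          rw [← mul_assoc, evc hbm l a, mul_assoc]
        rw [add_mul, mul_add, h5, mul_sub, pow_succ' (-a), pow_succ b]
        simp only [neg_mul, mul_assoc]
        abel
      rw [h4]
      exact Submodule.sub_mem _ (Submodule.neg_mem _ (hHN _ ih)) (𝒩.pow_mul hhN h1 l)
  have h4 : W.tr (Z.prod F) (z * (alt W H h m * w)) =
      (m + 1 : ℕ) * W.tr (Z.prod F) (z * (b ^ m * w)) := by
    rw [alt, Finset.sum_mul, Finset.mul_sum, map_sum]
    have h5 : ∀ l ∈ range (m + 1), W.tr (Z.prod F) (z * ((-W.map (fst Z F) H) ^ l *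
        W.map (snd Z F) h ^ (m + 1 - 1 - l) * w)) = W.tr (Z.prod F) (z * (b ^ m * w)) := by
      intro l hl
      rw [Finset.mem_range] at hl
      rw [← ha, ← hb, (hcomm.pow_pow l (m + 1 - 1 - l)).eq, mul_assoc, ← sub_eq_zero, ← map_sub,
        ← mul_sub]
      apply htr
      have h6 := 𝒩.pow_mul hhN (h3 l) (m + 1 - 1 - l)
      rwa [mul_sub, ← mul_assoc (b ^ (m + 1 - 1 - l)) (b ^ l), ← pow_add,
        show m + 1 - 1 - l + l = m by omega] at h6
    rw [Finset.sum_congr rfl h5, Finset.sum_const, Finset.card_range, nsmul_eq_mul]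
  -- `b ^ m` kills all terms but one
  have h6 : b ^ m * alt W H h m = (-a) ^ m * b ^ m := by
    rw [alt, Finset.mul_sum, Finset.sum_eq_single m]
    · rw [← ha, ← hb, show m + 1 - 1 - m = 0 by omega, pow_zero, mul_one,
        (hcomm.pow_pow m m).eq]
    · intro l hl hlm
      rw [Finset.mem_range] at hl
      rw [← ha, ← hb, (hcomm.pow_pow l (m + 1 - 1 - l)).eq, ← mul_assoc, ← pow_add, hb,
        ← map_pow (W.map (snd Z F)), h_top hh (by omega), map_zero, zero_mul]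
    · intro hm'
      exact absurd (Finset.mem_range.2 (Nat.lt_succ_self m)) hm'
  have h7 : b ^ m * w = (-1 : W.K) ^ m • (a ^ m * (b ^ m * z)) := by
    rw [hw, ← mul_assoc, h6, neg_pow, mul_assoc, mul_assoc]
    rcases neg_one_pow_eq_or W.K m with h8 | h8 <;> rcases Nat.even_or_odd m with h' | h'
    · rw [h8, h'.neg_one_pow, one_mul, one_smul]
    · exfalso
      rw [h'.neg_one_pow] at h8
      have : (2 : W.K) = 0 := by linear_combination -h8
      norm_num at this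
    · exfalso
      rw [h'.neg_one_pow] at h8
      have : (2 : W.K) = 0 := by linear_combination h8
      norm_num at this
    · rw [h8, h'.neg_one_pow, neg_mul, one_mul, neg_one_smul]
  have h8 : w * w = z * (alt W H h m * w) := by
    have e : z * alt W H h m = w := W.even_comm hζ' _
    exact (congrArg (· * w) e.symm).trans (mul_assoc _ _ _)
  have h9 : a ^ m * (b ^ m * z) = W.map (fst Z F) (H ^ m * W.cl Z ζ) * W.map (snd Z F) (h ^ m) := by
    rw [evc hbm m, ← mul_assoc, ha, hb, hz, ← map_pow (W.map (fst Z F)),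
      ← map_pow (W.map (snd Z F)), ← map_mul (W.map (fst Z F))]
  rw [h8, h4, h7, h9, mul_smul_comm, hz, ← mul_assoc, ← map_mul (W.map (fst Z F)), map_smul,
    W.tr_prod, smul_eq_mul]
  ring

lemma push_fst (x : W.H Z) {y : W.H F} {p : ℕ} (hy : y ∈ W.gr F (2 * p)) :
    W.push (fst Z F) (W.map (fst Z F) x * W.map (snd Z F) y) = W.tr F y • x := by
  apply W.tr_ext
  intro c
  rw [W.tr_push, mul_assoc, W.even_comm (W.map_mem (snd Z F) hy), ← mul_assoc,
    ← map_mul (W.map (fst Z F)), W.tr_prod, smul_mul_assoc, map_smul, smul_eq_mul, mul_comm]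

/-- The class `w` determines `ζ`. -/
lemma push_alt (hh : h ∈ W.gr F 2) (hm : F.dim = m) (ζ : W.H Z) :
    W.push (fst Z F) (alt W H h m * W.map (fst Z F) ζ) = W.tr F (h ^ m) • ζ := by
  have h2 : ∀ l ∈ range (m + 1), (-W.map (fst Z F) H) ^ l * W.map (snd Z F) h ^ (m + 1 - 1 - l) *
      W.map (fst Z F) ζ = W.map (fst Z F) ((-H) ^ l * ζ) *
        W.map (snd Z F) (h ^ (m + 1 - 1 - l)) := by
    intro l _
    rw [mul_assoc, ← map_pow (W.map (snd Z F)),
      W.even_comm (p := m + 1 - 1 - l) (W.map_mem (snd Z F) (evpow hh _)), ← mul_assoc,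
      ← map_neg (W.map (fst Z F)), ← map_pow (W.map (fst Z F)), ← map_mul (W.map (fst Z F))]
  rw [alt, Finset.sum_mul, Finset.sum_congr rfl h2, map_sum, Finset.sum_eq_single 0]
  · rw [push_fst _ (p := m + 1 - 1 - 0) (evpow hh _), pow_zero, one_mul,
      show m + 1 - 1 - 0 = m by omega]
  · intro l hl hl0
    rw [Finset.mem_range] at hl
    rw [push_fst _ (p := m + 1 - 1 - l) (evpow hh _),
      W.tr_eq_zero (evpow hh (m + 1 - 1 - l)) (by omega), zero_smul]
  · intro h'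
    exact absurd (Finset.mem_range.2 (Nat.succ_pos m)) h'

/-- The class `w` is not zero. -/
lemma alt_ne (𝒩 : Null W) (hh : h ∈ W.gr F 2) (hm : F.dim = m)
    (htop : W.tr F (h ^ m) ≠ 0) {ζ : W.H Z} (hζ : ζ ∉ 𝒩.N Z) :
    alt W H h m * W.map (fst Z F) ζ ∉ 𝒩.N (Z.prod F) := by
  intro h0
  apply hζ
  have h1 := 𝒩.push_mem (fst Z F) h0
  rw [push_alt hh hm] at h1
  have h2 := Submodule.smul_mem _ (W.tr F (h ^ m))⁻¹ h1
  rwa [smul_smul, inv_mul_cancel₀ htop, one_smul] at h2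

end

/-- The conjecture of Hodge type in the middle codimension, relative to the family `𝒩`. -/
def MiddleN (𝒩 : Null W) (P : Polarized 𝒱) : Prop :=
  ∀ q, P.X.dim = 2 * q → ∀ z, P.X.IsCyc q z → W.cl P.X (ops.mul P.D z) ∈ 𝒩.N P.X →
    W.cl P.X z ∉ 𝒩.N P.X → 0 < (-1 : ℚ) ^ q * P.X.V.degCycle (ops.mul z z)

/-- The conjecture of Hodge type, relative to the family `𝒩`. -/
def HodgeN (𝒩 : Null W) (P : Polarized 𝒱) : Prop :=
  ∀ p, 2 * p ≤ P.X.dim → ∀ z, P.X.IsCyc p z →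
    W.cl P.X (divPow ops P.D (P.X.dim - 2 * p + 1) z) ∈ 𝒩.N P.X → W.cl P.X z ∉ 𝒩.N P.X →
    0 < (-1 : ℚ) ^ p * P.X.V.degCycle (ops.mul z (divPow ops P.D (P.X.dim - 2 * p) z))

/-- **Positivity in the middle codimension of a product implies positivity.** -/
theorem hodge_of_middle {Z : 𝒱.Obj} {C : Z.Cycles} (hC : Z.IsCyc 1 C) {F : Polarized 𝒱}
    (hF : F.X.IsCyc 1 F.D) (hF0 : 0 < F.X.V.degCycle (divPow ops F.D F.X.dim F.X.V.fundCycle))
    {q : ℕ} (hq : F.X.dim + 2 * q = Z.dim) (hM : MiddleN 𝒩 (Polarized.prod ops ⟨Z, C⟩ F))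
    {z : Z.Cycles} (hz : Z.IsCyc q z) (hprim : W.cl Z C ^ (F.X.dim + 1) * W.cl Z z ∈ 𝒩.N Z)
    (hne : W.cl Z z ∉ 𝒩.N Z) : 0 < (-1 : ℚ) ^ q * Z.V.degCycle (ops.mul z (divPow ops C F.X.dim z)) := by
  set m := F.X.dim with hm
  have hH : W.cl Z C ∈ W.gr Z 2 := W.cl_mem hC
  have hh : W.cl F.X F.D ∈ W.gr F.X 2 := W.cl_mem hF
  have htop : ((F.X.V.degCycle (divPow ops F.D F.X.dim F.X.V.fundCycle) : ℚ) : W.K) =
      W.tr F.X (W.cl F.X F.D ^ m) := by
    have h1 := divPow_mem (ops := ops) hF F.X.dim F.X.V.fundCycle_mem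
    rw [zero_add] at h1
    rw [← W.tr_cl h1, cl_divPow, mulLeft_pow_apply, W.cl_fund, mul_one]
  have htop0 : W.tr F.X (W.cl F.X F.D ^ m) ≠ 0 := by
    rw [← htop]
    exact_mod_cast hF0.ne'
  -- the cycle
  let w : (Z.prod F.X).Cycles := ∑ l ∈ range (m + 1), ((-1 : ℚ) ^ l) •
    ops.mul (ops.pull (fst Z F.X) (divPow ops C l z))
      (ops.pull (snd Z F.X) (divPow ops F.D (m - l) F.X.V.fundCycle))
  have hw : (Z.prod F.X).IsCyc (q + m) w := by
    refine isCyc_sum _ fun l hl => SmVar.IsCyc.smul _ ?_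
    rw [Finset.mem_range] at hl
    have h1 := ops.mul_mem (ops.pull_mem (fst Z F.X) (divPow_mem (ops := ops) hC l hz))
      (ops.pull_mem (snd Z F.X) (divPow_mem (ops := ops) hF (m - l) F.X.V.fundCycle_mem))
    rwa [show q + l + (0 + (m - l)) = q + m by omega] at h1
  have hclw : W.cl (Z.prod F.X) w = alt W (W.cl Z C) (W.cl F.X F.D) m *
      W.map (fst Z F.X) (W.cl Z z) := by
    rw [map_sum, alt, Finset.sum_mul]
    refine Finset.sum_congr rfl fun l hl => ?_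
    rw [Finset.mem_range] at hl
    rw [W.cl_smul, W.cl_mul, W.cl_pull, W.cl_pull, cl_divPow, cl_divPow, mulLeft_pow_apply,
      mulLeft_pow_apply, W.cl_fund, mul_one, map_mul (W.map (fst Z F.X)), mul_assoc,
      mul_assoc, ← map_pow (W.map (snd Z F.X)), W.even_comm (p := m + 1 - 1 - l)
        (W.map_mem (snd Z F.X) (evpow hh _)) (W.map (fst Z F.X) (W.cl Z z)),
      show m + 1 - 1 - l = m - l by omega, neg_pow (W.map (fst Z F.X) (W.cl Z C)),
      map_pow (W.map (fst Z F.X))]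
    rcases Nat.even_or_odd l with h' | h'
    · rw [h'.neg_one_pow, h'.neg_one_pow, Rat.cast_one, one_smul, one_mul]
    · rw [h'.neg_one_pow, h'.neg_one_pow, Rat.cast_neg, Rat.cast_one, neg_one_smul, neg_one_mul,
        neg_mul]
  have h1 := hM (q + m) (by
    change Z.dim + F.X.dim = _
    omega) w hw (by
    change W.cl (Z.prod F.X) (ops.mul (ops.pull (fst Z F.X) C + ops.pull (snd Z F.X) F.D) w) ∈
      𝒩.N (Z.prod F.X)
    rw [W.cl_mul, hclw, map_add, W.cl_pull, W.cl_pull]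
    exact pol_alt hH hh hm.symm hprim) (by
    change W.cl (Z.prod F.X) w ∉ 𝒩.N (Z.prod F.X)
    rw [hclw]
    exact alt_ne 𝒩 hh hm.symm htop0 hne)
  have h2 : (((Z.prod F.X).V.degCycle (ops.mul w w) : ℚ) : W.K) =
      (((m + 1 : ℕ) * (-1 : ℚ) ^ m * (Z.V.degCycle (ops.mul z (divPow ops C m z)) *
        F.X.V.degCycle (divPow ops F.D F.X.dim F.X.V.fundCycle)) : ℚ) : W.K) := by
    have h3 := ops.mul_mem hw hw
    rw [show q + m + (q + m) = (Z.prod F.X).dim by
      change _ = Z.dim + F.X.dim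
      omega] at h3
    have h4 := ops.mul_mem hz (divPow_mem (ops := ops) hC m hz)
    rw [show q + (q + m) = Z.dim by omega] at h4
    rw [← W.tr_cl h3, W.cl_mul, hclw, tr_sq 𝒩 hH hh (fun v hv => by
        rw [← W.cl_pull]
        exact 𝒩.cyc_mul (ops.pull_mem _ hC) hv) (fun v hv => by
        rw [← W.cl_pull]
        exact 𝒩.cyc_mul (ops.pull_mem _ hF) hv) hm.symm hz hprim]
    push_cast
    rw [htop, ← W.tr_cl h4, W.cl_mul, cl_divPow, mulLeft_pow_apply]
  have h5 : (Z.prod F.X).V.degCycle (ops.mul w w) =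
      (m + 1 : ℕ) * (-1 : ℚ) ^ m * (Z.V.degCycle (ops.mul z (divPow ops C m z)) *
        F.X.V.degCycle (divPow ops F.D F.X.dim F.X.V.fundCycle)) := by
    exact_mod_cast h2
  change 0 < (-1 : ℚ) ^ (q + m) * (Z.prod F.X).V.degCycle (ops.mul w w) at h1
  rw [h5] at h1
  have h6 : (-1 : ℚ) ^ m * (-1 : ℚ) ^ m = 1 := by
    rw [← mul_pow]; norm_num
  have h7 : (-1 : ℚ) ^ (q + m) * ((m + 1 : ℕ) * (-1 : ℚ) ^ m *
      (Z.V.degCycle (ops.mul z (divPow ops C m z)) *
        F.X.V.degCycle (divPow ops F.D F.X.dim F.X.V.fundCycle))) =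
      ((m + 1 : ℕ) * F.X.V.degCycle (divPow ops F.D F.X.dim F.X.V.fundCycle)) *
        ((-1 : ℚ) ^ q * Z.V.degCycle (ops.mul z (divPow ops C m z))) := by
    rw [pow_add]
    linear_combination ((-1 : ℚ) ^ q * (m + 1 : ℕ) *
      (Z.V.degCycle (ops.mul z (divPow ops C m z)) *
        F.X.V.degCycle (divPow ops F.D F.X.dim F.X.V.fundCycle))) * h6
  rw [h7] at h1
  exact (mul_pos_iff_of_pos_left (mul_pos (by exact_mod_cast Nat.succ_pos m) hF0)).1 h1

end Pool.Agent.Run7.h174.RV
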