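import Pool.Agent.Run7.h174.RvB

/-!
# The conjecture of Hodge type follows from the test varieties
-/

set_option autoImplicit false

open CategoryTheory AlgebraicGeometry
open Finset hiding ext

universe u v

namespace Pool.Agent.Run7.h174.RV

open Pool.Agent.H914 Pool.Agent.H914.VarClass Pool.Agent.H914.VarClass.Obj Pool.Agent.H281R3.HT
  Pool.Agent.H914.WeilCohomology

variable {k : Type u} [Field k] {𝒱 : VarClass k} {ops : CycleOps 𝒱}
  {W : WeilCohomology.{u, v} ops} {𝒩 : Null W}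

/-- A polynomial with positive leading coefficient is positive for large numbers. -/
lemma pos_large (f : ℕ → ℚ) (s : ℕ) (hf : 0 < f s) :
    ∃ N₁ : ℕ, ∀ N : ℕ, N₁ ≤ N → 0 < ∑ k ∈ range (s + 1), f k * (N : ℚ) ^ k := by
  obtain ⟨M, hM⟩ := exists_nat_gt ((∑ k ∈ range s, |f k|) / f s)
  refine ⟨M + 1, fun N hN => ?_⟩
  have hN1 : (1 : ℚ) ≤ N := by exact_mod_cast (by omega : 1 ≤ N)
  have hNM : (M : ℚ) < N := by exact_mod_cast (by omega : M < N)
  rw [Finset.sum_range_succ]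
  rcases Nat.eq_zero_or_pos s with rfl | hs
  · simpa using hf
  have h1 : |∑ k ∈ range s, f k * (N : ℚ) ^ k| ≤ (∑ k ∈ range s, |f k|) * (N : ℚ) ^ (s - 1) := by
    refine (Finset.abs_sum_le_sum_abs _ _).trans ?_
    rw [Finset.sum_mul]
    refine Finset.sum_le_sum fun k hk => ?_
    rw [Finset.mem_range] at hk
    rw [abs_mul, abs_of_nonneg (pow_nonneg (by linarith : (0 : ℚ) ≤ N) k)]
    exact mul_le_mul_of_nonneg_left (pow_le_pow_right₀ hN1 (by omega)) (abs_nonneg _)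
  have h2 : (∑ k ∈ range s, |f k|) < f s * N := by
    have h3 : (∑ k ∈ range s, |f k|) / f s < N := hM.trans hNM
    rw [div_lt_iff₀ hf] at h3
    linarith
  have h4 : (∑ k ∈ range s, |f k|) * (N : ℚ) ^ (s - 1) < f s * (N : ℚ) ^ s := by
    have h5 : (N : ℚ) ^ s = N * (N : ℚ) ^ (s - 1) := by
      rw [← pow_succ']
      congr 1
      omega
    rw [h5, ← mul_assoc]
    exact mul_lt_mul_of_pos_right h2 (pow_pos (by linarith) _)
  have h6 := neg_abs_le (∑ k ∈ range s, f k * (N : ℚ) ^ k)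
  linarith

section

variable {X Q : 𝒱.Obj} {t : W.H X} {t' y : W.H Q}

lemma pol_ext (ht' : t' ∈ W.gr Q 2) (h0 : t' * y = 0) (c : W.K) (x : W.H X) :
    (c • (W.map (fst X Q) t + W.map (snd X Q) t')) * ext W x y = c • ext W (t * x) y := by
  rw [ext, ext, smul_mul_assoc, add_mul, ← mul_assoc, ← map_mul (W.map (fst X Q)), ← mul_assoc,
    evc1 (W.map_mem (snd X Q) ht') (W.map (fst X Q) x), mul_assoc (W.map (fst X Q) x),
    ← map_mul (W.map (snd X Q)), h0, map_zero, mul_zero, add_zero]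

lemma pol_ext_pow (ht' : t' ∈ W.gr Q 2) (h0 : t' * y = 0) (c : W.K) (x : W.H X) (n : ℕ) :
    (c • (W.map (fst X Q) t + W.map (snd X Q) t')) ^ n * ext W x y =
      c ^ n • ext W (t ^ n * x) y := by
  induction n with
  | zero => rw [pow_zero, pow_zero, pow_zero, one_mul, one_mul, one_smul]
  | succ n ih =>
    rw [pow_succ', mul_assoc, ih, mul_smul_comm, pol_ext ht' h0, ← mul_assoc, ← pow_succ',
      smul_smul, ← pow_succ]

lemma ext_mul_ext {p : ℕ} (hy : y ∈ W.gr Q (2 * p)) (x x' : W.H X) :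
    ext W x y * ext W x' y = W.map (fst X Q) (x * x') * W.map (snd X Q) (y * y) := by
  rw [ext, ext, mul_assoc, ← mul_assoc (W.map (snd X Q) y),
    W.even_comm (W.map_mem (snd X Q) hy) (W.map (fst X Q) x'), mul_assoc (W.map (fst X Q) x'),
    ← map_mul (W.map (snd X Q)), ← mul_assoc, ← map_mul (W.map (fst X Q))]

lemma ext_ne (𝒩 : Null W) {y : Q.Cycles} {p : ℕ} (hy : Q.IsCyc p y)
    (hyy : W.tr Q (W.cl Q y * W.cl Q y) ≠ 0) {x : W.H X}
    (hx : x ∉ 𝒩.N X) : ext W x (W.cl Q y) ∉ 𝒩.N (X.prod Q) := by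
  intro h0
  apply hx
  have h1 := 𝒩.push_mem (fst X Q) (𝒩.cyc_mul (ops.pull_mem (snd X Q) hy) h0)
  have h2 : W.cl (X.prod Q) (ops.pull (snd X Q) y) * ext W x (W.cl Q y) =
      W.map (fst X Q) x * W.map (snd X Q) (W.cl Q y * W.cl Q y) := by
    rw [W.cl_pull, ext, W.even_comm (W.map_mem (snd X Q) (W.cl_mem hy)), mul_assoc,
      ← map_mul (W.map (snd X Q))]
  rw [h2, push_fst x (p := p + p) (by
    have h3 := W.mul_mem (W.cl_mem hy) (W.cl_mem hy)
    rwa [show 2 * p + 2 * p = 2 * (p + p) by ring] at h3)] at h1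
  have h3 := Submodule.smul_mem _ (W.tr Q (W.cl Q y * W.cl Q y))⁻¹ h1
  rwa [smul_smul, inv_mul_cancel₀ hyy, one_smul] at h3

end

/-- **The conjecture of Hodge type for `X` follows from the conjecture in the middle codimension
for the test varieties.** -/
theorem hodge_of_test (𝒩 : Null W) {S : Set (Polarized 𝒱)} {P : Polarized 𝒱} (τ : Test W S P)
    (hS : ∀ T ∈ S, MiddleN 𝒩 T) : HodgeN 𝒩 P := by
  intro p hp z₀ hz₀ hprim hne
  obtain ⟨F, hFdim, hFcyc, hFpos, N₀, hN₀⟩ := τ.mem p hp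
  set s := P.X.dim - 2 * p with hs
  have hb : IsBlowUp W τ.b τ.c (W.cl (P.X.prod τ.Q) (ops.pull τ.b.i τ.A)) τ.a := τ.blow
  have hres : W.cl (P.X.prod τ.Q) (ops.pull τ.b.i τ.A) = (τ.lam : W.K) •
      (W.map (fst P.X τ.Q) (W.cl P.X P.D) + W.map (snd P.X τ.Q) (W.cl τ.Q τ.DQ)) := by
    have h0 := τ.restrict
    change W.cl (P.X.prod τ.Q) (ops.pull τ.b.i τ.A) = W.cl (P.X.prod τ.Q)
      (τ.lam • (ops.pull (fst P.X τ.Q) P.D + ops.pull (snd P.X τ.Q) τ.DQ) - 0) at h0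
    rw [h0, sub_zero, W.cl_smul, map_add, W.cl_pull, W.cl_pull]
  have horth : ∀ x : W.H P.X, W.push τ.b.i (ext W x (W.cl τ.Q τ.y)) = 0 := τ.orth
  -- the classes
  set t := W.cl P.X P.D with ht
  set t' := W.cl τ.Q τ.DQ with ht'
  set y := W.cl τ.Q τ.y with hy
  set x := W.cl P.X z₀ with hx
  have htm : t ∈ W.gr P.X 2 := W.cl_mem τ.cyc_D
  have ht'm : t' ∈ W.gr τ.Q 2 := W.cl_mem τ.cyc_DQ
  have hym : y ∈ W.gr τ.Q (2 * 1) := W.cl_mem τ.cyc_y
  have hxm : x ∈ W.gr P.X (2 * p) := W.cl_mem hz₀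
  have hty : t' * y = 0 := by
    rw [ht', hy, ← W.cl_mul]
    exact τ.DQ_y
  have hdimQ := τ.dim_Q
  have hyy : W.tr τ.Q (y * y) = ((τ.Q.V.degCycle (ops.mul τ.y τ.y) : ℚ) : W.K) := by
    have h1 := ops.mul_mem τ.cyc_y τ.cyc_y
    rw [show 1 + 1 = τ.Q.dim by omega] at h1
    rw [← W.tr_cl h1, W.cl_mul]
  have hyy0 : W.tr τ.Q (y * y) ≠ 0 := by
    rw [hyy]
    exact_mod_cast τ.y_y.ne
  set T := W.cl (P.X.prod τ.Q) (ops.pull τ.b.i τ.A) with hT
  have hTeq : T = (τ.lam : W.K) • (W.map (fst P.X τ.Q) t + W.map (snd P.X τ.Q) t') := hres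
  have hTm : T ∈ W.gr (P.X.prod τ.Q) 2 := W.cl_mem (ops.pull_mem τ.b.i τ.cyc_A)
  set u := ext W x y with hu
  have hTu : ∀ n, T ^ n * u = (τ.lam : W.K) ^ n • ext W (t ^ n * x) y := fun n => by
    rw [hTeq, hu, pol_ext_pow ht'm hty]
  have hx0 : t ^ (s + 1) * x ∈ 𝒩.N P.X := by
    rw [cl_divPow, mulLeft_pow_apply] at hprim
    exact hprim
  have hTN : ∀ v ∈ 𝒩.N (P.X.prod τ.Q), T * v ∈ 𝒩.N (P.X.prod τ.Q) := fun v hv =>
    𝒩.cyc_mul (ops.pull_mem τ.b.i τ.cyc_A) hv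
  have hTs : T ^ (s + 1) * u ∈ 𝒩.N (P.X.prod τ.Q) := by
    rw [hTu, ext, ← W.even_comm (W.map_mem (snd P.X τ.Q) hym), hy, ← W.cl_pull]
    exact Submodule.smul_mem _ _ (𝒩.cyc_mul (ops.pull_mem _ τ.cyc_y) (𝒩.map_mem _ hx0))
  have hi : ∀ n, W.push τ.b.i (T ^ n * u) = 0 := fun n => by
    rw [hTu, map_smul, horth, smul_zero]
  have hA : W.map τ.b.i (W.cl τ.R τ.A) = T := by rw [hT, W.cl_pull]
  have hA2 : W.cl τ.R τ.A ∈ W.gr τ.R 2 := W.cl_mem τ.cyc_A
  have hum : u ∈ W.gr (P.X.prod τ.Q) (2 * (p + 1)) := by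
    have h1 := W.mul_mem (W.map_mem (fst P.X τ.Q) hxm) (W.map_mem (snd P.X τ.Q) hym)
    rwa [show 2 * p + 2 * 1 = 2 * (p + 1) by ring] at h1
  have hu0 : u ∉ 𝒩.N (P.X.prod τ.Q) := ext_ne 𝒩 τ.cyc_y hyy0 hne
  have huu : T ^ (s + 1) * (u * u) = 0 := by
    have h1 := W.mul_mem (evpow hTm (s + 1)) (W.mul_mem hum hum)
    rw [W.gr_eq_bot _ _ (by rw [dim_prod]; omega)] at h1
    exact (Submodule.mem_bot _).1 h1
  -- the cycle on the blow-up
  let v : (P.X.prod τ.Q).Cycles := ops.mul (ops.pull (fst P.X τ.Q) z₀) (ops.pull (snd P.X τ.Q) τ.y)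
  have hv : (P.X.prod τ.Q).IsCyc (p + 1) v :=
    ops.mul_mem (ops.pull_mem _ hz₀) (ops.pull_mem _ τ.cyc_y)
  have hclv : W.cl (P.X.prod τ.Q) v = u := by rw [W.cl_mul, W.cl_pull, W.cl_pull, hu, ext]
  let z : τ.Z.Cycles := ops.push τ.b.j (ops.pull τ.b.g v)
  have hz : τ.Z.IsCyc (p + 2) z :=
    ops.push_mem τ.b.j (ops.pull_mem τ.b.g hv) (by have := hb.dim_E; omega)
  have hclz : W.cl τ.Z z = W.push τ.b.j (W.map τ.b.g u) := by
    rw [W.cl_push, W.cl_pull, hclv]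
  have hdimZ : τ.Z.dim = P.X.dim + 2 + τ.c := by
    rw [hb.dim_Z, hb.dim_R, dim_prod, hdimQ]
  have hF1 : F.X.dim = s + τ.c - 2 := by
    have := hb.two_le
    omega
  -- the numbers
  obtain ⟨β, hβ0, hβ⟩ := square hb hTm hA hA2 huu hum
  obtain ⟨N₁, hN₁⟩ := pos_large (fun k => ((s + τ.c - 2).choose k : ℚ) * β (s - k)) s (by
    rw [Nat.sub_self, hβ0, mul_one]
    have := hb.two_le
    exact_mod_cast Nat.choose_pos (show s ≤ s + τ.c - 2 by omega))
  set N := max N₀ N₁ with hN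
  have hmem := hN₀ N (le_max_left _ _)
  have hpos := hN₁ N (le_max_right _ _)
  set C := blowDiv ops τ.b τ.A N with hC
  have hCcyc : τ.Z.IsCyc 1 C := by
    rw [hC, blowDiv, comb, sub_eq_add_neg, ← neg_one_smul ℚ (ops.push τ.b.j τ.b.E.V.fundCycle)]
    exact SmVar.IsCyc.add (SmVar.IsCyc.smul _ (ops.pull_mem _ τ.cyc_A))
      (SmVar.IsCyc.smul _ (exc_cyc hb))
  have hclC : W.cl τ.Z C = (N : W.K) • W.map τ.b.π (W.cl τ.R τ.A) - W.push τ.b.j 1 := by
    rw [hC, blowDiv, comb, map_sub, W.cl_smul, W.cl_pull, cl_exc, Rat.cast_natCast]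
  have hzprim : W.cl τ.Z C ^ (F.X.dim + 1) * W.cl τ.Z z ∈ 𝒩.N τ.Z := by
    rw [hclC, hclz]
    exact prim hb hTm hTN hA hA2 hTs hi _ (by have := hb.two_le; omega)
  have hzne : W.cl τ.Z z ∉ 𝒩.N τ.Z := by
    rw [hclz]
    exact exc_ne hb hu0
  have hfin := hodge_of_middle hCcyc hFcyc hFpos (q := p + 2) hFdim (hS _ hmem) hz hzprim hzne
  -- comparison of the numbers
  set dX := P.X.V.degCycle (ops.mul z₀ (divPow ops P.D s z₀)) with hdX
  set dQ := τ.Q.V.degCycle (ops.mul τ.y τ.y) with hdQ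
  set PN := ∑ k ∈ range (s + 1), ((s + τ.c - 2).choose k : ℚ) * β (s - k) * (N : ℚ) ^ k with hPN
  have hdXc : ((dX : ℚ) : W.K) = W.tr P.X (x * (t ^ s * x)) := by
    have h1 := ops.mul_mem hz₀ (divPow_mem (ops := ops) τ.cyc_D s hz₀)
    rw [show p + (p + s) = P.X.dim by omega] at h1
    rw [hdX, ← W.tr_cl h1, W.cl_mul, cl_divPow, mulLeft_pow_apply]
  have hTuu : W.tr (P.X.prod τ.Q) (T ^ s * (u * u)) =
      (τ.lam : W.K) ^ s * (((dX : ℚ) : W.K) * ((dQ : ℚ) : W.K)) := by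
    rw [← mul_assoc, hTu, smul_mul_assoc, map_smul, hu, ext_mul_ext hym, W.tr_prod, hyy, hdXc,
      W.even_comm hxm (t ^ s * x), smul_eq_mul]
  have hkey : τ.Z.V.degCycle (ops.mul z (divPow ops C F.X.dim z)) =
      -PN * (τ.lam ^ s * (dX * dQ)) := by
    have h1 := ops.mul_mem hz (divPow_mem (ops := ops) hCcyc F.X.dim hz)
    rw [show p + 2 + (p + 2 + F.X.dim) = τ.Z.dim by omega] at h1
    have h2 : ((τ.Z.V.degCycle (ops.mul z (divPow ops C F.X.dim z)) : ℚ) : W.K) =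
        ((-PN * (τ.lam ^ s * (dX * dQ)) : ℚ) : W.K) := by
      rw [← W.tr_cl h1, W.cl_mul, cl_divPow, mulLeft_pow_apply, hclz, hclC, hF1, hβ N, hTuu]
      have h3 : -∑ k ∈ range (s + 1), ((s + τ.c - 2).choose k : ℚ) * (N : ℚ) ^ k * β (s - k) =
          -PN := by
        rw [hPN]
        congr 1
        exact Finset.sum_congr rfl fun k _ => by ring
      rw [h3]
      push_cast
      ring
    exact_mod_cast h2
  rw [hkey] at hfin
  have hlam : 0 < τ.lam ^ s := pow_pos τ.lam_pos s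
  have hQ := τ.y_y
  rw [← hdQ] at hQ
  have hfac : (-1 : ℚ) ^ (p + 2) * (-PN * (τ.lam ^ s * (dX * dQ))) =
      (PN * τ.lam ^ s * (-dQ)) * ((-1 : ℚ) ^ p * dX) := by
    rw [pow_add]
    ring
  rw [hfac] at hfin
  exact (mul_pos_iff_of_pos_left (mul_pos (mul_pos hpos hlam) (by linarith))).1 hfin

/-- The middle codimension is a special case of the conjecture. -/
lemma middle_of_hodge (𝒩 : Null W) {P : Polarized 𝒱} (h : HodgeN 𝒩 P) : MiddleN 𝒩 P := by
  intro q hq z hz h1 h2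
  have h3 := h q (by omega) z hz (by
    rw [show P.X.dim - 2 * q + 1 = 1 by omega]
    exact h1) h2
  rw [show P.X.dim - 2 * q = 0 by omega] at h3
  exact h3

theorem main_null (𝒩 : Null W) {Pol S : Set (Polarized 𝒱)} (hSP : S ⊆ Pol)
    (hτ : ∀ P ∈ Pol, Nonempty (Test W S P)) :
    (∀ P ∈ Pol, HodgeN 𝒩 P) ↔ ∀ T ∈ S, MiddleN 𝒩 T := by
  constructor
  · intro h T hT
    exact middle_of_hodge 𝒩 (h T (hSP hT))
  · intro h P hP
    obtain ⟨τ⟩ := hτ P hP
    exact hodge_of_test 𝒩 τ h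

/-- The zero subspaces. -/
def zeroNull (W : WeilCohomology.{u, v} ops) : Null W where
  N _ := ⊥
  map_mem f v hv := by
    rw [Submodule.mem_bot] at hv ⊢
    rw [hv, map_zero]
  push_mem f v hv := by
    rw [Submodule.mem_bot] at hv ⊢
    rw [hv, map_zero]
  cyc_mul _ v hv := by
    rw [Submodule.mem_bot] at hv ⊢
    rw [hv, mul_zero]
  tr_mul _ v hv := by
    rw [Submodule.mem_bot] at hv
    rw [hv, zero_mul, map_zero]

/-- The classes which are orthogonal to all classes of cycles. -/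
def numNull (W : WeilCohomology.{u, v} ops) : Null W where
  N X :=
    { carrier := {v | ∀ q z, X.IsCyc q z → W.tr X (v * W.cl X z) = 0}
      zero_mem' := fun q z _ => by rw [zero_mul, map_zero]
      add_mem' := fun {x y} hx hy q z hz => by rw [add_mul, map_add, hx q z hz, hy q z hz, add_zero]
      smul_mem' := fun c x hx q z hz => by
        rw [smul_mul_assoc, map_smul, hx q z hz, smul_zero] }
  map_mem {X Y} f v hv q z hz := by
    rw [← W.even_comm (W.cl_mem hz), ← W.tr_push, ← W.cl_push]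
    rcases Nat.lt_or_ge (q + Y.dim) X.dim with h | h
    · have h1 := W.push_mem f (W.cl_mem hz)
      rw [grZ_of_neg (by push_cast; omega)] at h1
      rw [W.cl_push, (Submodule.mem_bot _).1 h1, zero_mul, map_zero]
    · have h1 : Y.IsCyc (q + Y.dim - X.dim) (ops.push f z) := ops.push_mem f hz (by omega)
      rw [W.even_comm (W.cl_mem h1)]
      exact hv _ _ h1
  push_mem {X Y} f v hv q z hz := by
    rw [W.tr_push, ← W.cl_pull]
    exact hv _ _ (ops.pull_mem f hz)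
  cyc_mul {X p z} hz v hv q w hw := by
    rw [W.even_comm (W.cl_mem hz), mul_assoc, ← W.cl_mul]
    exact hv _ _ (ops.mul_mem hz hw)
  tr_mul {X p z} hz v hv := hv _ _ hz

end Pool.Agent.Run7.h174.RV
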