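import Pool.Agent.Run7.h174.RvC

/-!
# Numerical and homological equivalence
-/

set_option autoImplicit false

open CategoryTheory AlgebraicGeometry
open Finset hiding ext

universe u v

namespace Pool.Agent.Run7.h174.RV

open Pool.Agent.H914 Pool.Agent.H914.VarClass Pool.Agent.H914.VarClass.Obj Pool.Agent.H281R3.HT
  Pool.Agent.H914.WeilCohomology

variable {k : Type u} [Field k] {𝒱 : VarClass k} {ops : CycleOps 𝒱}
  {W : WeilCohomology.{u, v} ops}

/-- The class of a cycle is orthogonal to the classes of cycles if and only if the cycle is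
numerically trivial. -/
lemma mem_num {X : 𝒱.Obj} {p : ℕ} {z : X.Cycles} (hz : X.IsCyc p z) :
    W.cl X z ∈ (numNull W).N X ↔
      ∀ r, r + p = X.dim → ∀ w, X.IsCyc r w → X.V.degCycle (ops.mul z w) = 0 := by
  constructor
  · intro h r hr w hw
    have h1 := h r w hw
    have h2 := ops.mul_mem hz hw
    rw [show p + r = X.dim by omega] at h2
    rw [← W.cl_mul, W.tr_cl h2] at h1
    exact_mod_cast h1
  · intro h q w hw
    by_cases hq : q + p = X.dim
    · have h2 := ops.mul_mem hz hw
      rw [show p + q = X.dim by omega] at h2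
      rw [← W.cl_mul, W.tr_cl h2, h q hq w hw, Rat.cast_zero]
    · exact W.tr_eq_zero (W.mul_mem (W.cl_mem hz) (W.cl_mem hw)) (by omega)

lemma hodgeNum_iff {P : Polarized 𝒱} (hD : P.X.IsCyc 1 P.D) :
    HodgeNum ops P ↔ HodgeN (numNull W) P := by
  have key : ∀ p, 2 * p ≤ P.X.dim → ∀ z, P.X.IsCyc p z →
      ((∀ r, r + 1 = p → ∀ w, P.X.IsCyc r w →
        P.X.V.degCycle (ops.mul (divPow ops P.D (P.X.dim - 2 * p + 1) z) w) = 0) ↔
      W.cl P.X (divPow ops P.D (P.X.dim - 2 * p + 1) z) ∈ (numNull W).N P.X) ∧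
      ((∃ w, P.X.IsCyc (P.X.dim - p) w ∧ P.X.V.degCycle (ops.mul z w) ≠ 0) ↔
        W.cl P.X z ∉ (numNull W).N P.X) := by
    intro p hp z hz
    constructor
    · rw [mem_num (divPow_mem (ops := ops) hD (P.X.dim - 2 * p + 1) hz)]
      constructor
      · intro h r hr w hw
        exact h r (by omega) w hw
      · intro h r hr w hw
        exact h r (by omega) w hw
    · rw [mem_num hz]
      push Not
      constructor
      · rintro ⟨w, hw, h⟩
        exact ⟨P.X.dim - p, by omega, w, hw, h⟩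
      · rintro ⟨r, hr, w, hw, h⟩
        exact ⟨w, by rwa [show P.X.dim - p = r by omega], h⟩
  constructor
  · intro h p hp z hz h1 h2
    obtain ⟨k1, k2⟩ := key p hp z hz
    exact h p hp z hz (k1.2 h1) (k2.2 h2)
  · intro h p hp z hz h1 h2
    obtain ⟨k1, k2⟩ := key p hp z hz
    exact h p hp z hz (k1.1 h1) (k2.1 h2)

lemma middleNum_iff {P : Polarized 𝒱} (hD : P.X.IsCyc 1 P.D) :
    MiddleNum ops P ↔ MiddleN (numNull W) P := by
  have key : ∀ q, P.X.dim = 2 * q → ∀ z, P.X.IsCyc q z →
      ((∀ r, r + 1 = q → ∀ w, P.X.IsCyc r w →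
        P.X.V.degCycle (ops.mul (ops.mul P.D z) w) = 0) ↔
      W.cl P.X (ops.mul P.D z) ∈ (numNull W).N P.X) ∧
      ((∃ w, P.X.IsCyc q w ∧ P.X.V.degCycle (ops.mul z w) ≠ 0) ↔
        W.cl P.X z ∉ (numNull W).N P.X) := by
    intro q hq z hz
    constructor
    · rw [mem_num (ops.mul_mem hD hz)]
      constructor
      · intro h r hr w hw
        exact h r (by omega) w hw
      · intro h r hr w hw
        exact h r (by omega) w hw
    · rw [mem_num hz]
      push Not
      constructor
      · rintro ⟨w, hw, h⟩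
        exact ⟨q, by omega, w, hw, h⟩
      · rintro ⟨r, hr, w, hw, h⟩
        exact ⟨w, by rwa [show q = r by omega], h⟩
  constructor
  · intro h q hq z hz h1 h2
    obtain ⟨k1, k2⟩ := key q hq z hz
    exact h q hq z hz (k1.2 h1) (k2.2 h2)
  · intro h q hq z hz h1 h2
    obtain ⟨k1, k2⟩ := key q hq z hz
    exact h q hq z hz (k1.1 h1) (k2.1 h2)

/-- **The conjecture for all polarized varieties and for the test varieties.** -/
theorem main (W : WeilCohomology.{u, v} ops) {Pol S : Set (Polarized 𝒱)} (hSP : S ⊆ Pol)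
    (hτ : ∀ P ∈ Pol, Nonempty (Test W S P)) :
    ((∀ P ∈ Pol, HodgeNum ops P) ↔ ∀ T ∈ S, MiddleNum ops T) ∧
      ((∀ P ∈ Pol, HodgeType W P.X P.D) ↔ ∀ T ∈ S, MiddleHodge W T) := by
  have hcyc : ∀ P ∈ Pol, P.X.IsCyc 1 P.D := fun P hP => by
    obtain ⟨τ⟩ := hτ P hP
    exact τ.cyc_D
  constructor
  · have h1 := main_null (numNull W) hSP hτ
    constructor
    · intro h T hT
      rw [middleNum_iff (W := W) (hcyc T (hSP hT))]
      refine h1.1 (fun P hP => ?_) T hT
      rw [← hodgeNum_iff (hcyc P hP)]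
      exact h P hP
    · intro h P hP
      rw [hodgeNum_iff (W := W) (hcyc P hP)]
      refine h1.2 (fun T hT => ?_) P hP
      rw [← middleNum_iff (hcyc T (hSP hT))]
      exact h T hT
  · have h1 := main_null (zeroNull W) hSP hτ
    have hm : ∀ {X : 𝒱.Obj} (v : W.H X), v ∈ (zeroNull W).N X ↔ v = 0 := fun v =>
      Submodule.mem_bot _
    constructor
    · intro h T hT q hq z hz hp hn
      refine h1.1 (fun P hP p hp z hz hp' hn' => ?_) T hT q hq z hz ((hm _).2 hp)
        (fun hc => hn ((hm _).1 hc))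
      exact h P hP p hp z hz ((hm _).1 hp') (fun hc => hn' ((hm _).2 hc))
    · intro h P hP p hp z hz hp' hn'
      refine h1.2 (fun T hT q hq z hz hp hn => ?_) P hP p hp z hz ((hm _).2 hp')
        (fun hc => hn' ((hm _).1 hc))
      exact h T hT q hq z hz ((hm _).1 hp) (fun hc => hn ((hm _).2 hc))

end Pool.Agent.Run7.h174.RV
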