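import Pool.Agent.H281R3.HT.Defs
import Pool.Agent.W539.Ker.Defs

/-!
# The standard conjecture of Hodge type and rational varieties: definitions

`VarClass`, `CycleOps`, `WeilCohomology`, `divPow` and `HodgeType` are those of the starting files
`Pool/Agent/H914R2`.
-/

set_option autoImplicit false

open CategoryTheory AlgebraicGeometry Finset

universe u v

namespace Pool.Agent.Run7.h174.RV

open Pool.Agent.H914 Pool.Agent.H914.VarClass Pool.Agent.H914.VarClass.Obj Pool.Agent.H281R3.HT

section Alg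

variable {K : Type v} [Field K] {HR : Type v} [Ring HR] [Algebra K HR] {HZ : Type v} [Ring HZ]
  [Algebra K HZ] {HY : Type v} [Ring HY] [Algebra K HY] {HE : Type v} [Ring HE] [Algebra K HE]

variable (K) in
/-- The sum `ξ ^ (c - 1) + a₁ T ξ ^ (c - 2) + ⋯ + a_(c - 1) T ^ (c - 1)`: the Chern class of degree
`c - 1` of the excess normal bundle. -/
def excess (ξ T : HE) (c : ℕ) (a : ℕ → ℚ) : HE :=
  ∑ k ∈ range c, ((a k : ℚ) : K) • (T ^ k * ξ ^ (c - 1 - k))

/-- The relation `ξ ^ c + a₁ T ξ ^ (c - 1) + ⋯ + a_c T ^ c = 0` of Grothendieck, and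
`g_* (ξ ^ (c - 1)) = 1`. -/
structure IsBundle (pg : HY →ₐ[K] HE) (sg : HE →ₗ[K] HY) (ξ : HE) (c : ℕ) (T : HY) (a : ℕ → ℚ) :
    Prop where
  relation : ∑ k ∈ range (c + 1), ((a k : ℚ) : K) • (pg T ^ k * ξ ^ (c - k)) = 0
  bundle : sg (ξ ^ (c - 1)) = 1

/-- The formula `j^* j_* y = - ξ y`. -/
def IsNormal (pj : HZ →ₐ[K] HE) (sj : HE →ₗ[K] HZ) (ξ : HE) : Prop := ∀ y, pj (sj y) = -(ξ * y)

/-- The key formula `π^* i_* w = j_* (e g^* w)`. -/
def IsKey (pπ : HR →ₐ[K] HZ) (si : HY →ₗ[K] HR) (sj : HE →ₗ[K] HZ) (pg : HY →ₐ[K] HE) (e : HE) :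
    Prop :=
  ∀ w, pπ (si w) = sj (e * pg w)

end Alg

variable {k : Type u} [Field k] {𝒱 : VarClass k}

/-- The varieties and morphisms of a blow-up: the blow-up `π : Z ⟶ R` with the centre `i : Y ⟶ R`,
the exceptional divisor `j : E ⟶ Z` with its projection `g : E ⟶ Y` to the centre (the bundle of
the lines in the normal bundle), and the relative hyperplane class `ξ` on `E`. -/
structure Square (Z R Y : 𝒱.Obj) where
  /-- the exceptional divisor -/
  E : 𝒱.Obj
  /-- the blow-up -/
  π : Z ⟶ R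
  /-- the centre -/
  i : Y ⟶ R
  /-- the inclusion of the exceptional divisor -/
  j : E ⟶ Z
  /-- the projection to the centre -/
  g : E ⟶ Y
  /-- the relative hyperplane class -/
  ξ : E.Cycles

/-- The cohomology class of a cycle. -/
noncomputable def clOf {ops : CycleOps 𝒱} (W : WeilCohomology.{u, v} ops) (X : 𝒱.Obj) (z : X.Cycles) : W.H X :=
  W.cl X z

/-- All classes of the form `x × y` have the image `0` under the push-forward along `i`. -/
def KillsExt {ops : CycleOps 𝒱} (W : WeilCohomology.{u, v} ops) {X Q R : 𝒱.Obj}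
    (i : X.prod Q ⟶ R) (y : Q.Cycles) : Prop :=
  ∀ x : W.H X, W.push i (ext W x (clOf W Q y)) = 0

/-- The cycle `N z - w`. -/
noncomputable def comb {X : 𝒱.Obj} (N : ℚ) (z w : X.Cycles) : X.Cycles := N • z - w

/-- `Z` is the blow-up of `R` along the subvariety `Y` of codimension `c`, and the Chern classes of
the normal bundle of `Y` are `a k • T ^ k`, with rational numbers `a k`: the standard formulas in
cohomology. -/
structure IsBlowUp {ops : CycleOps 𝒱} (W : WeilCohomology.{u, v} ops) {Z R Y : 𝒱.Obj}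
    (b : Square Z R Y) (c : ℕ) (T : W.H Y) (a : ℕ → ℚ) : Prop where
  dim_Z : Z.dim = R.dim
  dim_R : R.dim = Y.dim + c
  dim_E : b.E.dim + 1 = Z.dim
  two_le : 2 ≤ c
  comm : b.j ≫ b.π = b.g ≫ b.i
  cyc_ξ : b.E.IsCyc 1 b.ξ
  a_zero : a 0 = 1
  isBundle : IsBundle (W.map b.g) (W.push b.g) (clOf W b.E b.ξ) c T a
  isNormal : IsNormal (W.map b.j) (W.push b.j) (clOf W b.E b.ξ)
  isKey : IsKey (W.map b.π) (W.push b.i) (W.push b.j) (W.map b.g)
    (excess W.K (clOf W b.E b.ξ) (W.map b.g T) c a)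

/-- The divisor `N π^* A - E` on the blow-up. It is ample if `A` is ample and `N` is large. -/
noncomputable def blowDiv (ops : CycleOps 𝒱) {Z R Y : 𝒱.Obj} (b : Square Z R Y) (A : R.Cycles)
    (N : ℕ) : Z.Cycles :=
  comb N (ops.pull b.π A) (ops.push b.j b.E.V.fundCycle)

/-- The conjecture of Hodge type for `X` and the divisor `D` in the middle codimension: if the
dimension of `X` is `2 q`, then `(-1) ^ q z · z` is positive for each cycle `z` of codimension `q`
with `D · z = 0` in the cohomology, whose class is not zero. -/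
def MiddleHodge {ops : CycleOps 𝒱} (W : WeilCohomology.{u, v} ops) (P : Polarized 𝒱) : Prop :=
  ∀ q, P.X.dim = 2 * q → ∀ z, P.X.IsCyc q z → W.cl P.X (ops.mul P.D z) = 0 →
    W.cl P.X z ≠ 0 → 0 < (-1 : ℚ) ^ q * P.X.V.degCycle (ops.mul z z)

/-- The conjecture of Hodge type for `X` and the divisor `D` modulo numerical equivalence: for
`2 p ≤ n = dim X` and every cycle `z` of codimension `p` which is not numerically trivial and such
that `D ^ (n - 2 p + 1) z` is numerically trivial, `(-1) ^ p z · z · D ^ (n - 2 p)` is positive. -/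
def HodgeNum (ops : CycleOps 𝒱) (P : Polarized 𝒱) : Prop :=
  ∀ p, 2 * p ≤ P.X.dim → ∀ z, P.X.IsCyc p z →
    (∀ r, r + 1 = p → ∀ w, P.X.IsCyc r w →
      P.X.V.degCycle (ops.mul (divPow ops P.D (P.X.dim - 2 * p + 1) z) w) = 0) →
    (∃ w, P.X.IsCyc (P.X.dim - p) w ∧ P.X.V.degCycle (ops.mul z w) ≠ 0) →
    0 < (-1 : ℚ) ^ p * P.X.V.degCycle (ops.mul z (divPow ops P.D (P.X.dim - 2 * p) z))

/-- The conjecture of Hodge type modulo numerical equivalence in the middle codimension: if the
dimension of `X` is `2 q`, then `(-1) ^ q z · z` is positive for each cycle `z` of codimension `q`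
which is not numerically trivial and such that `D · z` is numerically trivial. -/
def MiddleNum (ops : CycleOps 𝒱) (P : Polarized 𝒱) : Prop :=
  ∀ q, P.X.dim = 2 * q → ∀ z, P.X.IsCyc q z →
    (∀ r, r + 1 = q → ∀ w, P.X.IsCyc r w →
      P.X.V.degCycle (ops.mul (ops.mul P.D z) w) = 0) →
    (∃ w, P.X.IsCyc q w ∧ P.X.V.degCycle (ops.mul z w) ≠ 0) →
    0 < (-1 : ℚ) ^ q * P.X.V.degCycle (ops.mul z z)

/-- A test variety for `P = (X, D)`: a surface `Q` with a divisor `DQ` and a divisor `y` with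
`DQ · y = 0` and `y · y < 0`, the blow-up `Z` of a variety `R` along `X × Q` and a divisor `A` on `R`
such that

* `A` restricts to a positive multiple of `D × Q + X × DQ` on `X × Q`;
* the Chern classes of the normal bundle of `X × Q` are rational multiples of the powers of the
  restriction of `A` (`blow`);
* the classes of the form `x × y` on `X × Q` have the image `0` in the cohomology of `R`;
* for each codimension `p ≤ dim X / 2` there is a variety `F` of dimension `dim Z - 2 (p + 2)`, with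
  a divisor of positive degree, such that the product of `F` and of `Z` with `N π^* A - E` belongs to
  `S` for all large `N`. -/
structure Test {ops : CycleOps 𝒱} (W : WeilCohomology.{u, v} ops) (S : Set (Polarized 𝒱))
    (P : Polarized 𝒱) where
  /-- the surface -/
  Q : 𝒱.Obj
  /-- the divisor on the surface -/
  DQ : Q.Cycles
  /-- the primitive divisor on the surface -/
  y : Q.Cycles
  /-- the ambient variety -/
  R : 𝒱.Obj
  /-- the divisor on the ambient variety -/
  A : R.Cycles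
  /-- the blow-up -/
  Z : 𝒱.Obj
  /-- the maps of the blow-up -/
  b : Square Z R (P.X.prod Q)
  /-- the codimension of the centre -/
  c : ℕ
  /-- the factor of the restriction of `A` -/
  lam : ℚ
  /-- the coefficients of the Chern classes -/
  a : ℕ → ℚ
  cyc_D : P.X.IsCyc 1 P.D
  dim_Q : Q.dim = 2
  cyc_DQ : Q.IsCyc 1 DQ
  cyc_y : Q.IsCyc 1 y
  DQ_y : clOf W Q (ops.mul DQ y) = 0
  y_y : Q.V.degCycle (ops.mul y y) < 0
  cyc_A : R.IsCyc 1 A
  lam_pos : 0 < lam
  restrict : clOf W (P.X.prod Q) (ops.pull b.i A) =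
    clOf W (P.X.prod Q) (comb lam (Polarized.prod ops P ⟨Q, DQ⟩).D 0)
  orth : KillsExt W b.i y
  blow : IsBlowUp W b c (clOf W (P.X.prod Q) (ops.pull b.i A)) a
  mem : ∀ p, 2 * p ≤ P.X.dim → ∃ F : Polarized 𝒱, F.X.dim + 2 * (p + 2) = Z.dim ∧
    F.X.IsCyc 1 F.D ∧ 0 < F.X.V.degCycle (divPow ops F.D F.X.dim F.X.V.fundCycle) ∧
      ∃ N₀ : ℕ, ∀ N ≥ N₀, Polarized.prod ops ⟨Z, blowDiv ops b A N⟩ F ∈ S

end Pool.Agent.Run7.h174.RV
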