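import Pool.Agent.Run7.h174.RvDefs

/-!
# Test varieties for one codimension and of one dimension
-/

set_option autoImplicit false

open CategoryTheory AlgebraicGeometry
open Finset hiding ext

universe u v

namespace Pool.Agent.Run7.h174.RV

open Pool.Agent.H914 Pool.Agent.H914.VarClass Pool.Agent.H914.VarClass.Obj Pool.Agent.H281R3.HT

variable {k : Type u} [Field k] {𝒱 : VarClass k}

/-- A test variety of dimension `2 q` for `P = (X, D)` and the codimension `p`: a surface `Q` with a
divisor `DQ` and a divisor `y` with `DQ · y = 0` and `y · y < 0`, the blow-up `Z` of a variety `R`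
along `X × Q` and a divisor `A` on `R` such that

* `A` restricts to a positive multiple of `D × Q + X × DQ` on `X × Q`;
* the Chern classes of the normal bundle of `X × Q` are rational multiples of the powers of the
  restriction of `A` (`blow`);
* the classes of the form `x × y` on `X × Q` have the image `0` in the cohomology of `R`;
* there is a variety `F` of dimension `dim Z - 2 (p + 2)`, with a divisor of positive degree, such
  that `Z × F` has the dimension `2 q`, and the product of `F` and of `Z` with `N π^* A - E` belongs to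
  `S` for all large `N`. -/
structure TestAt {ops : CycleOps 𝒱} (W : WeilCohomology.{u, v} ops) (S : Set (Polarized 𝒱))
    (P : Polarized 𝒱) (p q : ℕ) where
  /-- the surface -/
  Q : 𝒱.Obj
  /-- the divisor on the surface -/
  DQ : Q.Cycles
  /-- the primitive divisor on the surface -/
  y : Q.Cycles
  /-- the ambient variety -/
  R : 𝒱.Obj
  /-- the divisor on the ambient variety -/
  A : R.Cycles
  /-- the blow-up -/
  Z : 𝒱.Obj
  /-- the maps of the blow-up -/
  b : Square Z R (P.X.prod Q)
  /-- the codimension of the centre -/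
  c : ℕ
  /-- the factor of the restriction of `A` -/
  lam : ℚ
  /-- the coefficients of the Chern classes -/
  a : ℕ → ℚ
  cyc_D : P.X.IsCyc 1 P.D
  dim_Q : Q.dim = 2
  cyc_DQ : Q.IsCyc 1 DQ
  cyc_y : Q.IsCyc 1 y
  DQ_y : clOf W Q (ops.mul DQ y) = 0
  y_y : Q.V.degCycle (ops.mul y y) < 0
  cyc_A : R.IsCyc 1 A
  lam_pos : 0 < lam
  restrict : clOf W (P.X.prod Q) (ops.pull b.i A) =
    clOf W (P.X.prod Q) (comb lam (Polarized.prod ops P ⟨Q, DQ⟩).D 0)
  orth : KillsExt W b.i y
  blow : IsBlowUp W b c (clOf W (P.X.prod Q) (ops.pull b.i A)) a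
  mem : ∃ F : Polarized 𝒱, F.X.dim + 2 * (p + 2) = Z.dim ∧
    F.X.IsCyc 1 F.D ∧ 0 < F.X.V.degCycle (divPow ops F.D F.X.dim F.X.V.fundCycle) ∧
      (Z.prod F.X).dim = 2 * q ∧ ∃ N₀ : ℕ, ∀ N ≥ N₀, Polarized.prod ops ⟨Z, blowDiv ops b A N⟩ F ∈ S

/-- The intersection form of `X`, of dimension `2 q`, has no zeros on the algebraic classes `z ≠ 0` of
codimension `q` with `D · z = 0`. -/
def IsAnisotropic {ops : CycleOps 𝒱} (W : WeilCohomology.{u, v} ops) (P : Polarized 𝒱) : Prop :=
  ∀ q, P.X.dim = 2 * q → ∀ z, P.X.IsCyc q z → W.cl P.X (ops.mul P.D z) = 0 →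
    W.cl P.X z ≠ 0 → P.X.V.degCycle (ops.mul z z) ≠ 0

/-- The intersection form of `X`, of dimension `2 q`, has no zeros on the cycles `z` of codimension
`q` which are not numerically trivial and such that `D · z` is numerically trivial. -/
def IsAnisotropicNum (ops : CycleOps 𝒱) (P : Polarized 𝒱) : Prop :=
  ∀ q, P.X.dim = 2 * q → ∀ z, P.X.IsCyc q z →
    (∀ r, r + 1 = q → ∀ w, P.X.IsCyc r w →
      P.X.V.degCycle (ops.mul (ops.mul P.D z) w) = 0) →
    (∃ w, P.X.IsCyc q w ∧ P.X.V.degCycle (ops.mul z w) ≠ 0) →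
    P.X.V.degCycle (ops.mul z z) ≠ 0

/-- An auxiliary variety `F` of the dimension `2 q` of `T`, with four orthogonal primitive classes of
codimension `q` with the same square `nu`, of the sign `(-1) ^ q`, such that `T × F` belongs to `S`;
the polarizations of `T` and `F` have positive degrees. -/
structure Aux {ops : CycleOps 𝒱} (W : WeilCohomology.{u, v} ops) (S : Set (Polarized 𝒱))
    (T : Polarized 𝒱) (q : ℕ) where
  /-- the auxiliary variety with its divisor -/
  F : Polarized 𝒱
  /-- the four classes -/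
  f : Fin 4 → F.X.Cycles
  /-- their square -/
  nu : ℚ
  dim_F : F.X.dim = 2 * q
  cyc_T : T.X.IsCyc 1 T.D
  cyc_F : F.X.IsCyc 1 F.D
  deg_T : 0 < T.X.V.degCycle (divPow ops T.D T.X.dim T.X.V.fundCycle)
  deg_F : 0 < F.X.V.degCycle (divPow ops F.D F.X.dim F.X.V.fundCycle)
  cyc_f : ∀ i, F.X.IsCyc q (f i)
  prim : ∀ i, clOf W F.X (ops.mul F.D (f i)) = 0
  square : ∀ i, F.X.V.degCycle (ops.mul (f i) (f i)) = nu
  orth : ∀ i j, i ≠ j → F.X.V.degCycle (ops.mul (f i) (f j)) = 0
  sign : 0 < (-1 : ℚ) ^ q * nu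
  mem : Polarized.prod ops T F ∈ S

end Pool.Agent.Run7.h174.RV
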