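import Pool.Agent.Run7.h174.RvD
import Pool.Agent.Run7.h174.RwDefs

/-!
# The conjecture of Hodge type in one codimension from test varieties of one dimension
-/

set_option autoImplicit false

open CategoryTheory AlgebraicGeometry
open Finset hiding ext

universe u v

namespace Pool.Agent.Run7.h174.RV

open Pool.Agent.H914 Pool.Agent.H914.VarClass Pool.Agent.H914.VarClass.Obj Pool.Agent.H281R3.HT
  Pool.Agent.H914.WeilCohomology

variable {k : Type u} [Field k] {𝒱 : VarClass k} {ops : CycleOps 𝒱}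
  {W : WeilCohomology.{u, v} ops} {𝒩 : Null W}

/-- The conjecture in codimension `p` for the classes outside of the null spaces. -/
def HodgeAt (𝒩 : Null W) (P : Polarized 𝒱) (p : ℕ) : Prop :=
  ∀ z, P.X.IsCyc p z → W.cl P.X (divPow ops P.D (P.X.dim - 2 * p + 1) z) ∈ 𝒩.N P.X →
    W.cl P.X z ∉ 𝒩.N P.X →
    0 < (-1 : ℚ) ^ p * P.X.V.degCycle (ops.mul z (divPow ops P.D (P.X.dim - 2 * p) z))

/-- **The conjecture in codimension `p` for `X` follows from the conjecture in the middle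
codimension for one dimension of test varieties.** -/
theorem hodge_of_testAt (𝒩 : Null W) {S : Set (Polarized 𝒱)} {P : Polarized 𝒱} {p q : ℕ}
    (hp : 2 * p ≤ P.X.dim) (τ : TestAt W S P p q)
    (hS : ∀ T ∈ S, T.X.dim = 2 * q → MiddleN 𝒩 T) : HodgeAt 𝒩 P p := by
  intro z₀ hz₀ hprim hne
  obtain ⟨F, hFdim, hFcyc, hFpos, hTdim, N₀, hN₀⟩ := τ.mem
  set s := P.X.dim - 2 * p with hs
  have hb : IsBlowUp W τ.b τ.c (W.cl (P.X.prod τ.Q) (ops.pull τ.b.i τ.A)) τ.a := τ.blow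
  have hres : W.cl (P.X.prod τ.Q) (ops.pull τ.b.i τ.A) = (τ.lam : W.K) •
      (W.map (fst P.X τ.Q) (W.cl P.X P.D) + W.map (snd P.X τ.Q) (W.cl τ.Q τ.DQ)) := by
    have h0 := τ.restrict
    change W.cl (P.X.prod τ.Q) (ops.pull τ.b.i τ.A) = W.cl (P.X.prod τ.Q)
      (τ.lam • (ops.pull (fst P.X τ.Q) P.D + ops.pull (snd P.X τ.Q) τ.DQ) - 0) at h0
    rw [h0, sub_zero, W.cl_smul, map_add, W.cl_pull, W.cl_pull]
  have horth : ∀ x : W.H P.X, W.push τ.b.i (ext W x (W.cl τ.Q τ.y)) = 0 := τ.orth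
  -- the classes
  set t := W.cl P.X P.D with ht
  set t' := W.cl τ.Q τ.DQ with ht'
  set y := W.cl τ.Q τ.y with hy
  set x := W.cl P.X z₀ with hx
  have htm : t ∈ W.gr P.X 2 := W.cl_mem τ.cyc_D
  have ht'm : t' ∈ W.gr τ.Q 2 := W.cl_mem τ.cyc_DQ
  have hym : y ∈ W.gr τ.Q (2 * 1) := W.cl_mem τ.cyc_y
  have hxm : x ∈ W.gr P.X (2 * p) := W.cl_mem hz₀
  have hty : t' * y = 0 := by
    rw [ht', hy, ← W.cl_mul]
    exact τ.DQ_y
  have hdimQ := τ.dim_Q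
  have hyy : W.tr τ.Q (y * y) = ((τ.Q.V.degCycle (ops.mul τ.y τ.y) : ℚ) : W.K) := by
    have h1 := ops.mul_mem τ.cyc_y τ.cyc_y
    rw [show 1 + 1 = τ.Q.dim by omega] at h1
    rw [← W.tr_cl h1, W.cl_mul]
  have hyy0 : W.tr τ.Q (y * y) ≠ 0 := by
    rw [hyy]
    exact_mod_cast τ.y_y.ne
  set T := W.cl (P.X.prod τ.Q) (ops.pull τ.b.i τ.A) with hT
  have hTeq : T = (τ.lam : W.K) • (W.map (fst P.X τ.Q) t + W.map (snd P.X τ.Q) t') := hres
  have hTm : T ∈ W.gr (P.X.prod τ.Q) 2 := W.cl_mem (ops.pull_mem τ.b.i τ.cyc_A)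
  set u := ext W x y with hu
  have hTu : ∀ n, T ^ n * u = (τ.lam : W.K) ^ n • ext W (t ^ n * x) y := fun n => by
    rw [hTeq, hu, pol_ext_pow ht'm hty]
  have hx0 : t ^ (s + 1) * x ∈ 𝒩.N P.X := by
    rw [cl_divPow, mulLeft_pow_apply] at hprim
    exact hprim
  have hTN : ∀ v ∈ 𝒩.N (P.X.prod τ.Q), T * v ∈ 𝒩.N (P.X.prod τ.Q) := fun v hv =>
    𝒩.cyc_mul (ops.pull_mem τ.b.i τ.cyc_A) hv
  have hTs : T ^ (s + 1) * u ∈ 𝒩.N (P.X.prod τ.Q) := by
    rw [hTu, ext, ← W.even_comm (W.map_mem (snd P.X τ.Q) hym), hy, ← W.cl_pull]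
    exact Submodule.smul_mem _ _ (𝒩.cyc_mul (ops.pull_mem _ τ.cyc_y) (𝒩.map_mem _ hx0))
  have hi : ∀ n, W.push τ.b.i (T ^ n * u) = 0 := fun n => by
    rw [hTu, map_smul, horth, smul_zero]
  have hA : W.map τ.b.i (W.cl τ.R τ.A) = T := by rw [hT, W.cl_pull]
  have hA2 : W.cl τ.R τ.A ∈ W.gr τ.R 2 := W.cl_mem τ.cyc_A
  have hum : u ∈ W.gr (P.X.prod τ.Q) (2 * (p + 1)) := by
    have h1 := W.mul_mem (W.map_mem (fst P.X τ.Q) hxm) (W.map_mem (snd P.X τ.Q) hym)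
    rwa [show 2 * p + 2 * 1 = 2 * (p + 1) by ring] at h1
  have hu0 : u ∉ 𝒩.N (P.X.prod τ.Q) := ext_ne 𝒩 τ.cyc_y hyy0 hne
  have huu : T ^ (s + 1) * (u * u) = 0 := by
    have h1 := W.mul_mem (evpow hTm (s + 1)) (W.mul_mem hum hum)
    rw [W.gr_eq_bot _ _ (by rw [dim_prod]; omega)] at h1
    exact (Submodule.mem_bot _).1 h1
  -- the cycle on the blow-up
  let v : (P.X.prod τ.Q).Cycles := ops.mul (ops.pull (fst P.X τ.Q) z₀) (ops.pull (snd P.X τ.Q) τ.y)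
  have hv : (P.X.prod τ.Q).IsCyc (p + 1) v :=
    ops.mul_mem (ops.pull_mem _ hz₀) (ops.pull_mem _ τ.cyc_y)
  have hclv : W.cl (P.X.prod τ.Q) v = u := by rw [W.cl_mul, W.cl_pull, W.cl_pull, hu, ext]
  let z : τ.Z.Cycles := ops.push τ.b.j (ops.pull τ.b.g v)
  have hz : τ.Z.IsCyc (p + 2) z :=
    ops.push_mem τ.b.j (ops.pull_mem τ.b.g hv) (by have := hb.dim_E; omega)
  have hclz : W.cl τ.Z z = W.push τ.b.j (W.map τ.b.g u) := by
    rw [W.cl_push, W.cl_pull, hclv]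
  have hdimZ : τ.Z.dim = P.X.dim + 2 + τ.c := by
    rw [hb.dim_Z, hb.dim_R, dim_prod, hdimQ]
  have hF1 : F.X.dim = s + τ.c - 2 := by
    have := hb.two_le
    omega
  -- the numbers
  obtain ⟨β, hβ0, hβ⟩ := square hb hTm hA hA2 huu hum
  obtain ⟨N₁, hN₁⟩ := pos_large (fun k => ((s + τ.c - 2).choose k : ℚ) * β (s - k)) s (by
    rw [Nat.sub_self, hβ0, mul_one]
    have := hb.two_le
    exact_mod_cast Nat.choose_pos (show s ≤ s + τ.c - 2 by omega))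
  set N := max N₀ N₁ with hN
  have hmem := hN₀ N (le_max_left _ _)
  have hpos := hN₁ N (le_max_right _ _)
  set C := blowDiv ops τ.b τ.A N with hC
  have hCcyc : τ.Z.IsCyc 1 C := by
    rw [hC, blowDiv, comb, sub_eq_add_neg, ← neg_one_smul ℚ (ops.push τ.b.j τ.b.E.V.fundCycle)]
    exact SmVar.IsCyc.add (SmVar.IsCyc.smul _ (ops.pull_mem _ τ.cyc_A))
      (SmVar.IsCyc.smul _ (exc_cyc hb))
  have hclC : W.cl τ.Z C = (N : W.K) • W.map τ.b.π (W.cl τ.R τ.A) - W.push τ.b.j 1 := by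
    rw [hC, blowDiv, comb, map_sub, W.cl_smul, W.cl_pull, cl_exc, Rat.cast_natCast]
  have hzprim : W.cl τ.Z C ^ (F.X.dim + 1) * W.cl τ.Z z ∈ 𝒩.N τ.Z := by
    rw [hclC, hclz]
    exact prim hb hTm hTN hA hA2 hTs hi _ (by have := hb.two_le; omega)
  have hzne : W.cl τ.Z z ∉ 𝒩.N τ.Z := by
    rw [hclz]
    exact exc_ne hb hu0
  have hfin := hodge_of_middle hCcyc hFcyc hFpos (q := p + 2) hFdim (hS _ hmem (by
    rw [← hTdim]
    rfl)) hz hzprim hzne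
  -- comparison of the numbers
  set dX := P.X.V.degCycle (ops.mul z₀ (divPow ops P.D s z₀)) with hdX
  set dQ := τ.Q.V.degCycle (ops.mul τ.y τ.y) with hdQ
  set PN := ∑ k ∈ range (s + 1), ((s + τ.c - 2).choose k : ℚ) * β (s - k) * (N : ℚ) ^ k with hPN
  have hdXc : ((dX : ℚ) : W.K) = W.tr P.X (x * (t ^ s * x)) := by
    have h1 := ops.mul_mem hz₀ (divPow_mem (ops := ops) τ.cyc_D s hz₀)
    rw [show p + (p + s) = P.X.dim by omega] at h1
    rw [hdX, ← W.tr_cl h1, W.cl_mul, cl_divPow, mulLeft_pow_apply]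
  have hTuu : W.tr (P.X.prod τ.Q) (T ^ s * (u * u)) =
      (τ.lam : W.K) ^ s * (((dX : ℚ) : W.K) * ((dQ : ℚ) : W.K)) := by
    rw [← mul_assoc, hTu, smul_mul_assoc, map_smul, hu, ext_mul_ext hym, W.tr_prod, hyy, hdXc,
      W.even_comm hxm (t ^ s * x), smul_eq_mul]
  have hkey : τ.Z.V.degCycle (ops.mul z (divPow ops C F.X.dim z)) =
      -PN * (τ.lam ^ s * (dX * dQ)) := by
    have h1 := ops.mul_mem hz (divPow_mem (ops := ops) hCcyc F.X.dim hz)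
    rw [show p + 2 + (p + 2 + F.X.dim) = τ.Z.dim by omega] at h1
    have h2 : ((τ.Z.V.degCycle (ops.mul z (divPow ops C F.X.dim z)) : ℚ) : W.K) =
        ((-PN * (τ.lam ^ s * (dX * dQ)) : ℚ) : W.K) := by
      rw [← W.tr_cl h1, W.cl_mul, cl_divPow, mulLeft_pow_apply, hclz, hclC, hF1, hβ N, hTuu]
      have h3 : -∑ k ∈ range (s + 1), ((s + τ.c - 2).choose k : ℚ) * (N : ℚ) ^ k * β (s - k) =
          -PN := by
        rw [hPN]
        congr 1
        exact Finset.sum_congr rfl fun k _ => by ring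
      rw [h3]
      push_cast
      ring
    exact_mod_cast h2
  rw [hkey] at hfin
  have hlam : 0 < τ.lam ^ s := pow_pos τ.lam_pos s
  have hQ := τ.y_y
  rw [← hdQ] at hQ
  have hfac : (-1 : ℚ) ^ (p + 2) * (-PN * (τ.lam ^ s * (dX * dQ))) =
      (PN * τ.lam ^ s * (-dQ)) * ((-1 : ℚ) ^ p * dX) := by
    rw [pow_add]
    ring
  rw [hfac] at hfin
  exact (mul_pos_iff_of_pos_left (mul_pos (mul_pos hpos hlam) (by linarith))).1 hfin

/-- The conjecture for all polarized varieties, and the test varieties of the dimensions `2 q` for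
the numbers `q` in an infinite set. -/
theorem main_nullAt (𝒩 : Null W) {Pol S : Set (Polarized 𝒱)} (hSP : S ⊆ Pol)
    (hτ : ∀ P ∈ Pol, ∀ p, 2 * p ≤ P.X.dim → ∃ q₀, ∀ q, q₀ ≤ q → Nonempty (TestAt W S P p q))
    {I : Set ℕ} (hI : I.Infinite) :
    (∀ P ∈ Pol, HodgeN 𝒩 P) ↔ ∀ T ∈ S, ∀ q ∈ I, T.X.dim = 2 * q → MiddleN 𝒩 T := by
  constructor
  · intro h T hT e _ _
    exact middle_of_hodge 𝒩 (h T (hSP hT))
  · intro h P hP p hp
    obtain ⟨q₀, hq₀⟩ := hτ P hP p hp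
    obtain ⟨q, hqI, hq⟩ := hI.exists_gt q₀
    obtain ⟨τ⟩ := hq₀ q hq.le
    exact hodge_of_testAt 𝒩 hp τ fun T hT hd => h T hT q hqI hd

end Pool.Agent.Run7.h174.RV
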