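import Pool.Agent.Run7.h174.RwA

/-!
# Anisotropic forms on test varieties are definite
-/

set_option autoImplicit false

open CategoryTheory AlgebraicGeometry
open Finset hiding ext

universe u v

namespace Pool.Agent.Run7.h174.RV

open Pool.Agent.H914 Pool.Agent.H914.VarClass Pool.Agent.H914.VarClass.Obj Pool.Agent.H281R3.HT
  Pool.Agent.H914.WeilCohomology

variable {k : Type u} [Field k] {𝒱 : VarClass k} {ops : CycleOps 𝒱}
  {W : WeilCohomology.{u, v} ops} {𝒩 : Null W}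

/-- A positive rational number times the square of a positive integer is a sum of four squares. -/
lemma four_squares {r : ℚ} (hr : 0 < r) :
    ∃ (b : ℚ) (a : Fin 4 → ℚ), b ≠ 0 ∧ ∑ i, a i ^ 2 = r * b ^ 2 := by
  obtain ⟨n, hn⟩ : ∃ n : ℕ, r.num = n := ⟨r.num.toNat, (Int.toNat_of_nonneg (Rat.num_pos.2 hr).le).symm⟩
  obtain ⟨a, b, c, d, h⟩ := Nat.sum_four_squares (n * r.den)
  refine ⟨r.den, ![a, b, c, d], by exact_mod_cast r.den_nz, ?_⟩
  have h1 : (a : ℚ) ^ 2 + b ^ 2 + c ^ 2 + d ^ 2 = n * r.den := by exact_mod_cast h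
  have h2 : r * r.den = n := by
    have h3 := Rat.mul_den_eq_num r
    rw [h3, hn]
    simp
  simp only [Fin.sum_univ_four, Matrix.cons_val_zero, Matrix.cons_val_one, Matrix.cons_val]
  rw [h1, ← h2]
  ring

/-- The form `z · z` has no zeros in the middle codimension on the classes with `D · z = 0`. -/
def AnisoN (𝒩 : Null W) (P : Polarized 𝒱) : Prop :=
  ∀ q, P.X.dim = 2 * q → ∀ z, P.X.IsCyc q z → W.cl P.X (ops.mul P.D z) ∈ 𝒩.N P.X →
    W.cl P.X z ∉ 𝒩.N P.X → P.X.V.degCycle (ops.mul z z) ≠ 0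

lemma aniso_of_middle {P : Polarized 𝒱} (h : MiddleN 𝒩 P) : AnisoN 𝒩 P := by
  intro q hq z hz h1 h2 h3
  have h4 := h q hq z hz h1 h2
  rw [h3, mul_zero] at h4
  exact lt_irrefl _ h4

section

variable {Z F : 𝒱.Obj} {H : W.H Z} {h : W.H F} {m : ℕ}

/-- The class `alt` is orthogonal to the products `ζ × f` with `h f = 0`. -/
lemma alt_ext (hH : H ∈ W.gr Z 2) (hh : h ∈ W.gr F 2) {ζ : W.H Z} {q : ℕ}
    (hζ : ζ ∈ W.gr Z (2 * q)) (hm : Z.dim < q + m) {f : W.H F} (hf : h * f = 0) :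
    alt W H h m * ext W ζ f = 0 := by
  rw [alt, Finset.sum_mul]
  refine Finset.sum_eq_zero fun l hl => ?_
  rw [Finset.mem_range] at hl
  rw [ext, mul_assoc, ← mul_assoc (W.map (snd Z F) h ^ _), evc (W.map_mem (snd Z F) hh), mul_assoc,
    ← map_pow (W.map (snd Z F)), ← map_mul (W.map (snd Z F))]
  rcases Nat.lt_or_ge l m with hlm | hlm
  · have h1 : h ^ (m + 1 - 1 - l) * f = 0 := by
      rw [show m + 1 - 1 - l = (m - 1 - l) + 1 by omega, pow_succ, mul_assoc, hf, mul_zero]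
    rw [h1, map_zero, mul_zero, mul_zero]
  · have h1 : (-H) ^ l * ζ = 0 := by
      have h2 := W.mul_mem (evpow (Submodule.neg_mem _ hH) l) hζ
      rw [show 2 * l + 2 * q = 2 * (l + q) by ring, W.gr_eq_bot Z (2 * (l + q)) (by omega)] at h2
      exact (Submodule.mem_bot _).1 h2
    rw [← mul_assoc, ← map_neg (W.map (fst Z F)), ← map_pow (W.map (fst Z F)),
      ← map_mul (W.map (fst Z F)), h1, map_zero, zero_mul]

end

/-- **If the forms are anisotropic then they are definite.** -/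
theorem middle_of_aniso (𝒩 : Null W) {S : Set (Polarized 𝒱)} {T : Polarized 𝒱} {q : ℕ}
    (hq1 : 1 ≤ q) (hd : T.X.dim = 2 * q) (τ : Aux W S T q)
    (hA : AnisoN 𝒩 (Polarized.prod ops T τ.F)) : MiddleN 𝒩 T := by
  intro q' hq' z hz hp hn
  obtain rfl : q = q' := by omega
  -- the classes
  set H := W.cl T.X T.D with hH
  set h := W.cl τ.F.X τ.F.D with hh
  set ζ := W.cl T.X z with hζ
  have hHm : H ∈ W.gr T.X 2 := W.cl_mem τ.cyc_T
  have hhm : h ∈ W.gr τ.F.X 2 := W.cl_mem τ.cyc_F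
  have hζm : ζ ∈ W.gr T.X (2 * q) := W.cl_mem hz
  have hfm : ∀ i, W.cl τ.F.X (τ.f i) ∈ W.gr τ.F.X (2 * q) := fun i => W.cl_mem (τ.cyc_f i)
  have hhf : ∀ i, h * W.cl τ.F.X (τ.f i) = 0 := fun i => by
    rw [hh, ← W.cl_mul]
    exact τ.prim i
  have hHz : H * ζ ∈ 𝒩.N T.X := by
    rw [hH, hζ, ← W.cl_mul]
    exact hp
  set A := alt W H h (2 * q) with hA'
  set E : Fin 4 → W.H (T.X.prod τ.F.X) := fun i => ext W ζ (W.cl τ.F.X (τ.f i)) with hE
  -- the cycles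
  let e : Fin 4 → (T.X.prod τ.F.X).Cycles := fun i =>
    ops.mul (ops.pull (fst T.X τ.F.X) z) (ops.pull (snd T.X τ.F.X) (τ.f i))
  have he : ∀ i, (T.X.prod τ.F.X).IsCyc (2 * q) (e i) := fun i => by
    have h1 := ops.mul_mem (ops.pull_mem (fst T.X τ.F.X) hz)
      (ops.pull_mem (snd T.X τ.F.X) (τ.cyc_f i))
    rwa [show q + q = 2 * q by ring] at h1
  have hcle : ∀ i, W.cl (T.X.prod τ.F.X) (e i) = E i := fun i => by
    rw [W.cl_mul, W.cl_pull, W.cl_pull]
    rfl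
  let w : (T.X.prod τ.F.X).Cycles := ∑ l ∈ range (2 * q + 1), ((-1 : ℚ) ^ l) •
    ops.mul (ops.pull (fst T.X τ.F.X) (divPow ops T.D l T.X.V.fundCycle))
      (ops.pull (snd T.X τ.F.X) (divPow ops τ.F.D (2 * q - l) τ.F.X.V.fundCycle))
  have hw : (T.X.prod τ.F.X).IsCyc (2 * q) w := by
    refine isCyc_sum _ fun l hl => SmVar.IsCyc.smul _ ?_
    rw [Finset.mem_range] at hl
    have h1 := ops.mul_mem (ops.pull_mem (fst T.X τ.F.X) (divPow_mem (ops := ops) τ.cyc_T l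
        T.X.V.fundCycle_mem))
      (ops.pull_mem (snd T.X τ.F.X) (divPow_mem (ops := ops) τ.cyc_F (2 * q - l)
        τ.F.X.V.fundCycle_mem))
    rwa [show 0 + l + (0 + (2 * q - l)) = 2 * q by omega] at h1
  have hclw : W.cl (T.X.prod τ.F.X) w = A := by
    rw [map_sum, hA', alt]
    refine Finset.sum_congr rfl fun l hl => ?_
    rw [Finset.mem_range] at hl
    rw [W.cl_smul, W.cl_mul, W.cl_pull, W.cl_pull, cl_divPow, cl_divPow, mulLeft_pow_apply,
      mulLeft_pow_apply, W.cl_fund, W.cl_fund, mul_one, mul_one, map_pow, map_pow,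
      show 2 * q + 1 - 1 - l = 2 * q - l by omega, neg_pow (W.map (fst T.X τ.F.X) H)]
    rcases Nat.even_or_odd l with h' | h'
    · rw [h'.neg_one_pow, h'.neg_one_pow, Rat.cast_one, one_smul, one_mul]
    · rw [h'.neg_one_pow, h'.neg_one_pow, Rat.cast_neg, Rat.cast_one, neg_one_smul, neg_one_mul,
        neg_mul]
  -- products
  have hAE : ∀ i, A * E i = 0 := fun i =>
    alt_ext hHm hhm hζm (by omega) (hhf i)
  have hEm : ∀ i, E i ∈ W.gr (T.X.prod τ.F.X) (2 * (2 * q)) := fun i => by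
    rw [← hcle]
    exact W.cl_mem (he i)
  have hEA : ∀ i, E i * A = 0 := fun i => by rw [W.even_comm (hEm i), hAE]
  have hEE : ∀ i j, W.tr (T.X.prod τ.F.X) (E i * E j) =
      W.tr T.X (ζ * ζ) * W.tr τ.F.X (W.cl τ.F.X (τ.f i) * W.cl τ.F.X (τ.f j)) := fun i j => by
    have h1 : E i * E j = W.map (fst T.X τ.F.X) (ζ * ζ) *
        W.map (snd T.X τ.F.X) (W.cl τ.F.X (τ.f i) * W.cl τ.F.X (τ.f j)) := by
      change ext W ζ (W.cl τ.F.X (τ.f i)) * ext W ζ (W.cl τ.F.X (τ.f j)) = _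
      rw [ext, ext, mul_assoc, ← mul_assoc (W.map (snd T.X τ.F.X) (W.cl τ.F.X (τ.f i))),
        W.even_comm (W.map_mem (snd T.X τ.F.X) (hfm i)) (W.map (fst T.X τ.F.X) ζ),
        mul_assoc (W.map (fst T.X τ.F.X) ζ), ← map_mul (W.map (snd T.X τ.F.X)), ← mul_assoc,
        ← map_mul (W.map (fst T.X τ.F.X))]
    rw [h1, W.tr_prod]
  set dz := T.X.V.degCycle (ops.mul z z) with hdz
  have hzz : W.tr T.X (ζ * ζ) = (dz : W.K) := by
    have h1 := ops.mul_mem hz hz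
    rw [show q + q = T.X.dim by omega] at h1
    rw [hdz, ← W.tr_cl h1, W.cl_mul]
  have hff : ∀ i j, W.tr τ.F.X (W.cl τ.F.X (τ.f i) * W.cl τ.F.X (τ.f j)) =
      ((τ.F.X.V.degCycle (ops.mul (τ.f i) (τ.f j)) : ℚ) : W.K) := fun i j => by
    have h1 := ops.mul_mem (τ.cyc_f i) (τ.cyc_f j)
    rw [show q + q = τ.F.X.dim by rw [τ.dim_F]; ring] at h1
    rw [← W.tr_cl h1, W.cl_mul]
  set dT := T.X.V.degCycle (divPow ops T.D T.X.dim T.X.V.fundCycle) with hdT
  set dF := τ.F.X.V.degCycle (divPow ops τ.F.D τ.F.X.dim τ.F.X.V.fundCycle) with hdF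
  have htT : W.tr T.X (H ^ (2 * q)) = (dT : W.K) := by
    have h1 := divPow_mem (ops := ops) τ.cyc_T T.X.dim T.X.V.fundCycle_mem
    rw [zero_add] at h1
    rw [hdT, ← W.tr_cl h1, cl_divPow, mulLeft_pow_apply, W.cl_fund, mul_one, hd]
  have htF : W.tr τ.F.X (h ^ (2 * q)) = (dF : W.K) := by
    have h1 := divPow_mem (ops := ops) τ.cyc_F τ.F.X.dim τ.F.X.V.fundCycle_mem
    rw [zero_add] at h1
    rw [hdF, ← W.tr_cl h1, cl_divPow, mulLeft_pow_apply, W.cl_fund, mul_one, τ.dim_F]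
  have hHN : ∀ v ∈ 𝒩.N (T.X.prod τ.F.X), W.map (fst T.X τ.F.X) H * v ∈ 𝒩.N (T.X.prod τ.F.X) :=
    fun v hv => by
      rw [hH, ← W.cl_pull]
      exact 𝒩.cyc_mul (ops.pull_mem _ τ.cyc_T) hv
  have hhN : ∀ v ∈ 𝒩.N (T.X.prod τ.F.X), W.map (snd T.X τ.F.X) h * v ∈ 𝒩.N (T.X.prod τ.F.X) :=
    fun v hv => by
      rw [hh, ← W.cl_pull]
      exact 𝒩.cyc_mul (ops.pull_mem _ τ.cyc_F) hv
  have hH1 : H ^ (2 * q + 1) * W.cl T.X T.X.V.fundCycle ∈ 𝒩.N T.X := by
    rw [h_top hHm (by omega), zero_mul]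
    exact Submodule.zero_mem _
  have hAA : W.tr (T.X.prod τ.F.X) (A * A) = (((2 * q + 1 : ℕ) * (dT * dF) : ℚ) : W.K) := by
    have h1 := tr_sq 𝒩 hHm hhm hHN hhN τ.dim_F T.X.V.fundCycle_mem hH1
    rw [W.cl_fund, map_one, mul_one, mul_one, one_mul, htT, htF] at h1
    rw [hA', h1]
    have h2 : (-1 : W.K) ^ (2 * q) = 1 := by rw [pow_mul]; norm_num
    rw [h2]
    push_cast
    ring
  have hpolA : (W.map (fst T.X τ.F.X) H + W.map (snd T.X τ.F.X) h) * A ∈
      𝒩.N (T.X.prod τ.F.X) := by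
    have h1 := pol_alt (𝒩 := 𝒩) hHm hhm τ.dim_F hH1
    rwa [W.cl_fund, map_one, mul_one] at h1
  have hpolE : ∀ i, (W.map (fst T.X τ.F.X) H + W.map (snd T.X τ.F.X) h) * E i ∈
      𝒩.N (T.X.prod τ.F.X) := fun i => by
    change _ * ext W ζ (W.cl τ.F.X (τ.f i)) ∈ _
    rw [ext, add_mul, ← mul_assoc, ← map_mul (W.map (fst T.X τ.F.X)), ← mul_assoc,
      evc1 (W.map_mem (snd T.X τ.F.X) hhm) (W.map (fst T.X τ.F.X) ζ), mul_assoc,
      ← map_mul (W.map (snd T.X τ.F.X)), hhf, map_zero, mul_zero, add_zero,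
      ← W.even_comm (W.map_mem (snd T.X τ.F.X) (hfm i)), ← W.cl_pull]
    exact 𝒩.cyc_mul (ops.pull_mem _ (τ.cyc_f i)) (𝒩.map_mem _ hHz)
  -- all combinations
  have hcomb : ∀ (b : ℚ) (a : Fin 4 → ℚ),
      ((b : ℚ) : W.K) • A + ∑ i, ((a i : ℚ) : W.K) • E i ∉ 𝒩.N (T.X.prod τ.F.X) →
      b ^ 2 * ((2 * q + 1 : ℕ) * (dT * dF)) + (∑ i, a i ^ 2) * (dz * τ.nu) ≠ 0 := by
    intro b a hne h0
    let x : (T.X.prod τ.F.X).Cycles := b • w + ∑ i, a i • e i
    have hx : (T.X.prod τ.F.X).IsCyc (2 * q) x :=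
      SmVar.IsCyc.add (SmVar.IsCyc.smul _ hw)
        (isCyc_sum _ fun i _ => SmVar.IsCyc.smul _ (he i))
    have hclx : W.cl (T.X.prod τ.F.X) x =
        ((b : ℚ) : W.K) • A + ∑ i, ((a i : ℚ) : W.K) • E i := by
      rw [map_add, W.cl_smul, hclw, map_sum]
      congr 1
      exact Finset.sum_congr rfl fun i _ => by rw [W.cl_smul, hcle]
    have h1 := hA (2 * q) (by
      change T.X.dim + τ.F.X.dim = _
      rw [hd, τ.dim_F]
      ring) x hx (by
      change W.cl (T.X.prod τ.F.X) (ops.mul (ops.pull (fst T.X τ.F.X) T.D +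
        ops.pull (snd T.X τ.F.X) τ.F.D) x) ∈ 𝒩.N (T.X.prod τ.F.X)
      rw [W.cl_mul, hclx, map_add, W.cl_pull, W.cl_pull, mul_add, mul_smul_comm, Finset.mul_sum]
      refine Submodule.add_mem _ (Submodule.smul_mem _ _ hpolA) (Submodule.sum_mem _ fun i _ => ?_)
      rw [mul_smul_comm]
      exact Submodule.smul_mem _ _ (hpolE i)) (by
      change W.cl (T.X.prod τ.F.X) x ∉ 𝒩.N (T.X.prod τ.F.X)
      rwa [hclx])
    apply h1
    change (T.X.prod τ.F.X).V.degCycle (ops.mul x x) = 0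
    have h2 := ops.mul_mem hx hx
    rw [show 2 * q + 2 * q = (T.X.prod τ.F.X).dim by
      change _ = T.X.dim + τ.F.X.dim
      rw [hd, τ.dim_F]] at h2
    have h3 : (((T.X.prod τ.F.X).V.degCycle (ops.mul x x) : ℚ) : W.K) =
        ((b ^ 2 * ((2 * q + 1 : ℕ) * (dT * dF)) + (∑ i, a i ^ 2) * (dz * τ.nu) : ℚ) : W.K) := by
      rw [← W.tr_cl h2, W.cl_mul, hclx]
      have hAS : A * ∑ i, ((a i : ℚ) : W.K) • E i = 0 := by
        rw [Finset.mul_sum]
        exact Finset.sum_eq_zero fun i _ => by rw [mul_smul_comm, hAE, smul_zero]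
      have hSA : (∑ i, ((a i : ℚ) : W.K) • E i) * A = 0 := by
        rw [Finset.sum_mul]
        exact Finset.sum_eq_zero fun i _ => by rw [smul_mul_assoc, hEA, smul_zero]
      rw [add_mul, mul_add, mul_add, smul_mul_smul_comm, smul_mul_assoc, hAS, smul_zero, add_zero,
        mul_smul_comm, hSA, smul_zero, zero_add, map_add, map_smul, hAA, Finset.sum_mul_sum,
        map_sum]
      have hSS : ∀ i ∈ (Finset.univ : Finset (Fin 4)),
          W.tr (T.X.prod τ.F.X) (∑ j, ((a i : ℚ) : W.K) • E i * ((a j : ℚ) : W.K) • E j) =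
            (((a i) ^ 2 * (dz * τ.nu) : ℚ) : W.K) := by
        intro i _
        rw [map_sum, Finset.sum_eq_single i]
        · rw [smul_mul_smul_comm, map_smul, hEE, hzz, hff, τ.square, smul_eq_mul]
          push_cast
          ring
        · intro j _ hji
          rw [smul_mul_smul_comm, map_smul, hEE, hff, τ.orth i j (Ne.symm hji), Rat.cast_zero,
            mul_zero, smul_zero]
        · intro h'
          exact absurd (Finset.mem_univ i) h'
      rw [Finset.sum_congr rfl hSS, smul_eq_mul, Finset.sum_mul]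
      push_cast
      ring
    rw [h0, Rat.cast_zero] at h3
    exact_mod_cast h3
  have hnu0 : τ.nu ≠ 0 := fun h0 => by
    have h1 := τ.sign
    rw [h0, mul_zero] at h1
    exact lt_irrefl _ h1
  have hV : (0 : ℚ) < (2 * q + 1 : ℕ) * (dT * dF) :=
    mul_pos (by exact_mod_cast Nat.succ_pos _) (mul_pos τ.deg_T τ.deg_F)
  by_contra hneg
  rw [not_lt] at hneg
  rcases eq_or_lt_of_le hneg with h0 | h0
  · -- the class `z × f` is isotropic
    have hdz0 : dz = 0 := by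
      rcases mul_eq_zero.1 h0 with h1 | h1
      · exact absurd h1 (pow_ne_zero _ (by norm_num))
      · exact h1
    refine hcomb 0 (Pi.single 0 1) ?_ ?_
    · rw [Rat.cast_zero, zero_smul, zero_add, Finset.sum_eq_single 0]
      · rw [Pi.single_eq_same, Rat.cast_one, one_smul]
        refine ext_ne 𝒩 (τ.cyc_f 0) ?_ hn
        rw [hff, τ.square]
        exact_mod_cast hnu0
      · intro j _ hj
        rw [Pi.single_eq_of_ne hj, Rat.cast_zero, zero_smul]
      · intro h'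
        exact absurd (Finset.mem_univ _) h'
    · rw [hdz0]
      ring
  · -- a combination with the class of powers of the polarizations is isotropic
    have hprod : dz * τ.nu < 0 := by
      have h1 := mul_neg_of_neg_of_pos h0 τ.sign
      have h2 : (-1 : ℚ) ^ q * dz * ((-1 : ℚ) ^ q * τ.nu) = dz * τ.nu := by
        have h3 : (-1 : ℚ) ^ q * (-1 : ℚ) ^ q = 1 := by
          rw [← mul_pow]
          norm_num
        linear_combination (dz * τ.nu) * h3
      rwa [h2] at h1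
    obtain ⟨b, a, hb, hab⟩ := four_squares (r := (2 * q + 1 : ℕ) * (dT * dF) / (-(dz * τ.nu)))
      (div_pos hV (by linarith))
    refine hcomb b a ?_ ?_
    · intro hc
      have h1 := 𝒩.tr_mul hw hc
      rw [hclw, add_mul, smul_mul_assoc, map_add, map_smul, hAA, Finset.sum_mul, map_sum,
        Finset.sum_eq_zero (fun i _ => by rw [smul_mul_assoc, hEA, smul_zero, map_zero]),
        add_zero, smul_eq_mul] at h1
      have h2 : (b * ((2 * q + 1 : ℕ) * (dT * dF)) : ℚ) = 0 := by exact_mod_cast h1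
      rcases mul_eq_zero.1 h2 with h3 | h3
      · exact hb h3
      · exact hV.ne' h3
    · have hgen : ∀ V P : ℚ, P ≠ 0 → b ^ 2 * V + V / (-P) * b ^ 2 * P = 0 := by
        intro V P hP
        field_simp
        ring
      rw [hab]
      exact hgen _ _ hprod.ne

lemma anisoNum_iff {P : Polarized 𝒱} (hD : P.X.IsCyc 1 P.D) :
    IsAnisotropicNum ops P ↔ AnisoN (numNull W) P := by
  have key : ∀ q, P.X.dim = 2 * q → ∀ z, P.X.IsCyc q z →
      ((∀ r, r + 1 = q → ∀ w, P.X.IsCyc r w →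
        P.X.V.degCycle (ops.mul (ops.mul P.D z) w) = 0) ↔
      W.cl P.X (ops.mul P.D z) ∈ (numNull W).N P.X) ∧
      ((∃ w, P.X.IsCyc q w ∧ P.X.V.degCycle (ops.mul z w) ≠ 0) ↔
        W.cl P.X z ∉ (numNull W).N P.X) := by
    intro q hq z hz
    constructor
    · rw [mem_num (ops.mul_mem hD hz)]
      constructor
      · intro h r hr w hw
        exact h r (by omega) w hw
      · intro h r hr w hw
        exact h r (by omega) w hw
    · rw [mem_num hz]
      push Not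
      constructor
      · rintro ⟨w, hw, h⟩
        exact ⟨q, by omega, w, hw, h⟩
      · rintro ⟨r, hr, w, hw, h⟩
        exact ⟨w, by rwa [show q = r by omega], h⟩
  constructor
  · intro h q hq z hz h1 h2
    obtain ⟨k1, k2⟩ := key q hq z hz
    exact h q hq z hz (k1.2 h1) (k2.2 h2)
  · intro h q hq z hz h1 h2
    obtain ⟨k1, k2⟩ := key q hq z hz
    exact h q hq z hz (k1.1 h1) (k2.1 h2)

lemma aniso_iff {P : Polarized 𝒱} : IsAnisotropic W P ↔ AnisoN (zeroNull W) P := by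
  have hm : ∀ {X : 𝒱.Obj} (v : W.H X), v ∈ (zeroNull W).N X ↔ v = 0 := fun v =>
    Submodule.mem_bot _
  constructor
  · intro h q hq z hz h1 h2
    exact h q hq z hz ((hm _).1 h1) (fun hc => h2 ((hm _).2 hc))
  · intro h q hq z hz h1 h2
    exact h q hq z hz ((hm _).2 h1) (fun hc => h2 ((hm _).1 hc))

theorem aniso_null (𝒩 : Null W) {Pol S : Set (Polarized 𝒱)} (hSP : S ⊆ Pol)
    (hτ : ∀ P ∈ Pol, ∀ p, 2 * p ≤ P.X.dim → ∃ q₀, ∀ q, q₀ ≤ q → Nonempty (TestAt W S P p q))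
    {q₁ : ℕ} (hF : ∀ T ∈ S, ∀ q, q₁ ≤ q → T.X.dim = 2 * q → Nonempty (Aux W S T q))
    {I : Set ℕ} (hI : I.Infinite) :
    (∀ P ∈ Pol, HodgeN 𝒩 P) ↔ ∀ T ∈ S, ∀ q ∈ I, T.X.dim = 4 * q → AnisoN 𝒩 T := by
  constructor
  · intro h T hT e _ _
    exact aniso_of_middle (middle_of_hodge 𝒩 (h T (hSP hT)))
  · intro h
    have hI' : (I \ Set.Iic q₁).Infinite := hI.sdiff (Set.finite_Iic q₁)
    refine (main_nullAt 𝒩 hSP hτ hI').2 fun T hT q hq hd => ?_
    have hq1 : q₁ < q := lt_of_not_ge fun h0 => hq.2 h0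
    obtain ⟨τ⟩ := hF T hT q hq1.le hd
    refine middle_of_aniso 𝒩 (by omega) hd τ (h _ τ.mem q hq.1 ?_)
    change T.X.dim + τ.F.X.dim = _
    rw [hd, τ.dim_F]
    ring

lemma hodgeType_iff {P : Polarized 𝒱} : HodgeType W P.X P.D ↔ HodgeN (zeroNull W) P := by
  have hm : ∀ {X : 𝒱.Obj} (v : W.H X), v ∈ (zeroNull W).N X ↔ v = 0 := fun v =>
    Submodule.mem_bot _
  constructor
  · intro h p hp z hz hp' hn'
    exact h p hp z hz ((hm _).1 hp') (fun hc => hn' ((hm _).2 hc))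
  · intro h p hp z hz hp' hn'
    exact h p hp z hz ((hm _).2 hp') (fun hc => hn' ((hm _).1 hc))

lemma middleHodge_iff {P : Polarized 𝒱} : MiddleHodge W P ↔ MiddleN (zeroNull W) P := by
  have hm : ∀ {X : 𝒱.Obj} (v : W.H X), v ∈ (zeroNull W).N X ↔ v = 0 := fun v =>
    Submodule.mem_bot _
  constructor
  · intro h q hq z hz h1 h2
    exact h q hq z hz ((hm _).1 h1) (fun hc => h2 ((hm _).2 hc))
  · intro h q hq z hz h1 h2
    exact h q hq z hz ((hm _).2 h1) (fun hc => h2 ((hm _).1 hc))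

/-- **The conjecture in cohomology.** -/
theorem main_hom (W : WeilCohomology.{u, v} ops) {Pol S : Set (Polarized 𝒱)} (hSP : S ⊆ Pol)
    (hτ : ∀ P ∈ Pol, ∀ p, 2 * p ≤ P.X.dim → ∃ q₀, ∀ q, q₀ ≤ q → Nonempty (TestAt W S P p q))
    {q₁ : ℕ} (hF : ∀ T ∈ S, ∀ q, q₁ ≤ q → T.X.dim = 2 * q → Nonempty (Aux W S T q))
    {I : Set ℕ} (hI : I.Infinite) :
    ((∀ P ∈ Pol, HodgeType W P.X P.D) ↔
        ∀ T ∈ S, ∀ q ∈ I, T.X.dim = 2 * q → MiddleHodge W T) ∧
      ((∀ P ∈ Pol, HodgeType W P.X P.D) ↔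
        ∀ T ∈ S, ∀ q ∈ I, T.X.dim = 4 * q → IsAnisotropic W T) := by
  have h2 : (∀ P ∈ Pol, HodgeType W P.X P.D) ↔ ∀ P ∈ Pol, HodgeN (zeroNull W) P :=
    forall₂_congr fun P _ => hodgeType_iff
  constructor
  · rw [h2, main_nullAt (zeroNull W) hSP hτ hI]
    exact forall₅_congr fun T _ q _ _ => middleHodge_iff.symm
  · rw [h2, aniso_null (zeroNull W) hSP hτ hF hI]
    exact forall₅_congr fun T _ q _ _ => aniso_iff.symm

/-- **The conjecture modulo numerical equivalence.** -/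
theorem main_num (W : WeilCohomology.{u, v} ops) {Pol S : Set (Polarized 𝒱)} (hSP : S ⊆ Pol)
    (hτ : ∀ P ∈ Pol, ∀ p, 2 * p ≤ P.X.dim → ∃ q₀, ∀ q, q₀ ≤ q → Nonempty (TestAt W S P p q))
    {q₁ : ℕ} (hF : ∀ T ∈ S, ∀ q, q₁ ≤ q → T.X.dim = 2 * q → Nonempty (Aux W S T q))
    {I : Set ℕ} (hI : I.Infinite) :
    ((∀ P ∈ Pol, HodgeNum ops P) ↔
        ∀ T ∈ S, ∀ q ∈ I, T.X.dim = 2 * q → MiddleNum ops T) ∧
      ((∀ P ∈ Pol, HodgeNum ops P) ↔
        ∀ T ∈ S, ∀ q ∈ I, T.X.dim = 4 * q → IsAnisotropicNum ops T) := by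
  have hcyc : ∀ P ∈ Pol, P.X.IsCyc 1 P.D := fun P hP => by
    obtain ⟨q₀, hq₀⟩ := hτ P hP 0 (by omega)
    obtain ⟨τ⟩ := hq₀ q₀ le_rfl
    exact τ.cyc_D
  have h2 : (∀ P ∈ Pol, HodgeNum ops P) ↔ ∀ P ∈ Pol, HodgeN (numNull W) P :=
    forall₂_congr fun P hP => hodgeNum_iff (hcyc P hP)
  constructor
  · rw [h2, main_nullAt (numNull W) hSP hτ hI]
    exact forall₅_congr fun T hT q _ _ => (middleNum_iff (hcyc T (hSP hT))).symm
  · rw [h2, aniso_null (numNull W) hSP hτ hF hI]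
    exact forall₅_congr fun T hT q _ _ => (anisoNum_iff (hcyc T (hSP hT))).symm

end Pool.Agent.Run7.h174.RV
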