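import Pool.Agent.Run7.h174.Gen

/-!
# The tuple of the coordinates of algebraic classes
-/

set_option autoImplicit false
set_option linter.unusedSectionVars false

open CategoryTheory AlgebraicGeometry Finset

universe u v u'

namespace Pool.Agent.Run7.h174

open Pool.Agent.H914 Pool.Agent.H914.VarClass Pool.Agent.H914.VarClass.Obj
  Pool.Agent.H914.WeilCohomology Pool.Agent.H281R3.HT Pool.Agent.W552 Pool.Agent.W539.Ker

section ring

variable {R : Type u} [CommRing R] {B : Type} [Fintype B] [DecidableEq B]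

/-- the matrix of a tensor with two legs -/
def m2 (x : Ten R B (Fin 2) Empty) : Matrix B B R := fun b c => x ![b, c] (fun e => Empty.elim e)

lemma m2_act (g g' : Matrix B B R) (x : Ten R B (Fin 2) Empty) :
    m2 (act g g' x) = g * m2 x * g.transpose := by
  ext b c
  rw [Matrix.mul_apply]
  have h1 : ∀ j, (g * m2 x) b j * g.transpose j c = ∑ i, g b i * g c j * m2 x i j := by
    intro j
    rw [Matrix.mul_apply, Finset.sum_mul]
    refine Finset.sum_congr rfl fun i _ => ?_
    rw [Matrix.transpose_apply]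
    ring
  rw [Finset.sum_congr rfl fun j _ => h1 j, Finset.sum_comm]
  unfold m2 act
  rw [← Equiv.sum_comp (finTwoArrowEquiv B).symm, Fintype.sum_prod_type]
  refine Finset.sum_congr rfl fun i _ => Finset.sum_congr rfl fun j _ => ?_
  rw [Fintype.sum_unique, Fin.prod_univ_two, Fintype.prod_empty (fun q : Empty =>
    g' (Empty.elim q) ((default : Empty → B) q)), mul_one,
    show (default : Empty → B) = fun e => Empty.elim e from Subsingleton.elim _ _]
  rfl

/-- the two legs -/
def eTwo : Fin 2 ≃ Option Unit where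
  toFun := ![none, some ()]
  invFun o := o.elim 0 (fun _ => 1)
  left_inv := by
    intro i
    fin_cases i <;> rfl
  right_inv := by
    rintro (_ | ⟨⟩) <;> rfl

lemma eTwo_vec (b c : B) : (fun p : Fin 2 => oext b (fun _ => c) (eTwo p)) = ![b, c] := by
  funext p
  fin_cases p <;> rfl

end ring

section met

variable {I : Type} {L : I → Type} [∀ i, Fintype (L i)] [∀ i, DecidableEq (L i)] {i0 : I}
  {e0 : L i0 ≃ Option Unit} {R : Type u} [CommRing R] {R' : Type u'} [CommRing R'] {B : Type}
  [Fintype B] [DecidableEq B] {w : ∀ j, Ten R B (UA L j) (LC L j)}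

lemma flip_map (σ : R →+* R') (j : I × Bool) :
    flip (fun j => tmap σ (w j)) j = tmap σ (flip w j) := by
  rcases j with ⟨i, b⟩
  cases b <;> rfl

lemma Met.map (σ : R →+* R') (h : Met e0 w) : Met e0 (fun j => tmap σ (w j)) where
  one := by
    change ((phM e0 w).map σ).transpose * (psM e0 w).map σ = 1
    rw [← Matrix.transpose_map, ← Matrix.map_mul, h.one, Matrix.map_one _ (map_zero σ) (map_one σ)]
  flp := by
    intro j
    rw [flip_map, h.flp, tmap_act]
    rfl

lemma tmap_inj {σ : R →+* R'} (hσ : Function.Injective σ) {P Q : Type} {x y : Ten R B P Q}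
    (h : tmap σ x = tmap σ y) : x = y := by
  funext u v
  exact hσ (congrFun (congrFun h u) v)

lemma Met.of_map {σ : R →+* R'} (hσ : Function.Injective σ)
    (h : Met e0 (fun j => tmap σ (w j))) : Met e0 w where
  one := by
    have h1 := h.one
    change ((phM e0 w).map σ).transpose * (psM e0 w).map σ = 1 at h1
    rw [← Matrix.transpose_map, ← Matrix.map_mul] at h1
    exact Matrix.map_injective hσ (h1.trans (Matrix.map_one σ (map_zero σ) (map_one σ)).symm)
  flp := by
    intro j
    have h1 := h.flp j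
    rw [flip_map] at h1
    have h2 : act (phM e0 fun j => tmap σ (w j)) (psM e0 fun j => tmap σ (w j)) (tmap σ (w j)) =
        tmap σ (act (phM e0 w) (psM e0 w) (w j)) := (tmap_act σ _ _ _).symm
    rw [h2] at h1
    exact tmap_inj hσ h1

end met

variable {k : Type u} [Field k] {𝒱 : VarClass k} {ops : CycleOps 𝒱}
  {W : WeilCohomology.{u, v} ops} {Y : 𝒱.Obj} {P : Polarized 𝒱}
  {f : Module.End W.K (W.H P.X)} {bX : HB W P.X} {e' : Fin bX.N → W.H P.X}

/-- the legs of the generators -/
abbrev LI {I : Type} (m : I → ℕ) (i : I) : Type := Fin (m i + 1)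

/-- The tuple of coordinates. -/
noncomputable def tup (bX : HB W P.X) (f : Module.End W.K (W.H P.X))
    (ps : Matrix (Fin bX.N) (Fin bX.N) W.K) {I : Type} (m : I → ℕ)
    (z : ∀ i, W.H (NP ops P (m i)).X) :
    ∀ j : I × Bool, Ten W.K (Fin bX.N) (UA (LI m) j) (LC (LI m) j)
  | (i, false) => tn bX (m i) (z i)
  | (i, true) => tswap (act (phG bX f) ps (tn bX (m i) (z i)))

section tuple

variable {I : Type} {m : Option I → ℕ} (hm : m none = 1)
  {z : ∀ i, W.H (NP ops P (m i)).X}

/-- The values of networks are algebraic tensors. -/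
lemma good_ev (G : Gd W P.X P.D f) (hd : IsDual bX e') {J : Type} {m : J → ℕ}
    {z : ∀ i, W.H (NP ops P (m i)).X} (hz : ∀ i, AS W _ (z i))
    (ps : Matrix (Fin bX.N) (Fin bX.N) W.K) {P' Q' : Type}
    (t : Net (UA (LI m)) (LC (LI m)) P' Q') : Good bX e' P' Q' (ev (tup bX f ps m z) t) := by
  refine Clo1.ev (fun j => inferInstance) (fun j => inferInstance)
    (Pr := fun P Q x => Good bX e' P Q x) ⟨good_one hd, good_id hd G.pa,
      fun hx hy => good_mul hd hx hy, fun e f _ hx => good_rel e f hx,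
      fun hx => good_con hd hx⟩ ?_ t
  rintro ⟨i, b⟩
  cases b
  · exact good_up hd G.pa (m i) (hz i)
  · exact good_low G hd (m i) (hz i) ps

/-- The values of closed networks are rational. -/
lemma cv_rat (G : Gd W P.X P.D f) (hd : IsDual bX e') {J : Type} {m : J → ℕ}
    {z : ∀ i, W.H (NP ops P (m i)).X} (hz : ∀ i, AS W _ (z i))
    (ps : Matrix (Fin bX.N) (Fin bX.N) W.K)
    (hq : ∃ c, AS W P.X c ∧ ∃ q : ℚ, q ≠ 0 ∧ W.tr P.X c = q)
    (t : Net (UA (LI m)) (LC (LI m)) Empty Empty) : ∃ q : ℚ, cv (tup bX f ps m z) t = q := by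
  have h1 := good_ev G hd hz ps t inferInstance inferInstance inferInstance inferInstance P.X
    (fun a => Sum.elim (fun e => e.elim) (fun e => e.elim) a)
    (fun a => Sum.elim (fun e => e.elim) (fun e => e.elim) a) [] List.nodup_nil
    (by rintro (a | a) <;> exact a.elim)
  have h2 : cls (bt bX) (ev (tup bX f ps m z) t) (famG bX e'
      (fun a => Sum.elim (fun e => e.elim) (fun e => e.elim) a : Empty ⊕ Empty → (P.X ⟶ P.X)))
      (fun a => Sum.elim (fun e => e.elim) (fun e => e.elim) a) [] =
      cv (tup bX f ps m z) t • (1 : W.H P.X) := by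
    unfold cls
    rw [Fintype.sum_unique, if_pos, LP_nil]
    · congr 1
      unfold cv
      congr 1
      · exact Subsingleton.elim _ _
      · exact Subsingleton.elim _ _
    · rintro (a | a) <;> exact a.elim
  rw [h2] at h1
  obtain ⟨c, hc, q, hq0, hcq⟩ := hq
  obtain ⟨r, hr⟩ := (h1.mul hc).tr
  rw [smul_mul_assoc, one_mul, map_smul, hcq, smul_eq_mul] at hr
  refine ⟨r / q, ?_⟩
  have hq1 : (q : W.K) ≠ 0 := by exact_mod_cast hq0
  rw [Rat.cast_div, ← hr, mul_div_assoc, div_self hq1, mul_one]

/-- The relations of the metric. -/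
lemma tup_met (G : Gd W P.X P.D f) {J : Type} {m : J → ℕ} {i0 : J} (e0 : LI m i0 ≃ Option Unit)
    {z : ∀ i, W.H (NP ops P (m i)).X} (hz : ∀ i, AS W _ (z i))
    {ps : Matrix (Fin bX.N) (Fin bX.N) W.K} (hps : (phG bX f).transpose * ps = 1)
    (h1 : psM e0 (tup bX f ps m z) = ps)
    (h2 : phM e0 (tup bX f ps m z) = phG bX f * ps * (phG bX f).transpose) :
    Met e0 (tup bX f ps m z) := by
  have h3 : ps * (phG bX f).transpose = 1 := mul_eq_one_comm.1 hps
  have h4 : phM e0 (tup bX f ps m z) = phG bX f := by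
    rw [h2, Matrix.mul_assoc, h3, Matrix.mul_one]
  have h5 : ps * phG bX f = epM bX := by
    rw [phG_symm G bX, ← Matrix.mul_assoc, h3, Matrix.one_mul]
  refine ⟨by rw [h4, h1, hps], ?_⟩
  rw [h4, h1]
  rintro ⟨i, b⟩
  cases b
  · rfl
  · change tswap (tn bX (m i) (z i)) = act (phG bX f) ps (tswap (act (phG bX f) ps
      (tn bX (m i) (z i))))
    have h6 := tswap_act ps (phG bX f) (act (phG bX f) ps (tn bX (m i) (z i)))
    rw [← h6, act_act, h5, act_ep bX (m i) (hz i)]

end tuple

end Pool.Agent.Run7.h174
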