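import Pool.Agent.Run7.h174.LemD

/-!
# Minimal tuples with the same values of the closed networks are unitarily equivalent
-/

set_option autoImplicit false
set_option linter.unusedSectionVars false

open Finset Matrix MeasureTheory Function

namespace Pool.Agent.Run7.h174

variable {B : Type} [Fintype B] [DecidableEq B]
  {J : Type} [Fintype J] {A C : J → Type} [∀ j, Fintype (A j)] [∀ j, DecidableEq (A j)]
  [∀ j, Fintype (C j)] [∀ j, DecidableEq (C j)] {w w' a : ∀ j, Ten ℂ B (A j) (C j)}

/-- a tensor as a tensor of pairs -/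
def prd {P Q : Type} : Ten ℂ B P Q →ₗ[ℂ] Ten (ℂ × ℂ) B P Q where
  toFun x := pr x x
  map_add' _ _ := rfl
  map_smul' _ _ := rfl

/-- The pairs of functions whose averages are values of networks at the pair. -/
def Bal (w w' : ∀ j, Ten ℂ B (A j) (C j)) (φ φ' : UU B → ℂ) : Prop :=
  Continuous φ ∧ Continuous φ' ∧ ∀ (P Q : Type) [Fintype P] [DecidableEq P] [Fintype Q]
    [DecidableEq Q] (y : Ten ℂ B P Q),
    pr (∫ k : UU B, φ k • uact (k : Matrix B B ℂ) y ∂(muU B))
      (∫ k : UU B, φ' k • uact (k : Matrix B B ℂ) y ∂(muU B)) ∈ JJ w w' P Q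

lemma integrable_uact {φ : UU B → ℂ} (hφ : Continuous φ) {P Q : Type} [Fintype P] [DecidableEq P]
    [Fintype Q] [DecidableEq Q] (y : Ten ℂ B P Q) :
    Integrable (fun k : UU B => φ k • uact (k : Matrix B B ℂ) y) (muU B) :=
  integrable_cont (hφ.smul (continuous_uact y))

lemma prd_inv_mem {P Q : Type} [Fintype P] [DecidableEq P] [Fintype Q] [DecidableEq Q]
    (y : Ten ℂ B P Q) : prd (av w 0 y) ∈ JJ w w' P Q := by
  have h1 := inv_mem_span (fun l => uact_av_zero w l y)
  have h2 : Submodule.span ℂ (Set.range fun π : P ≃ Q => (dten π : Ten ℂ B P Q)) ≤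
      (JJ w w' P Q).comap prd := by
    refine Submodule.span_le.2 ?_
    rintro _ ⟨π, rfl⟩
    have h3 : prd (dten π : Ten ℂ B P Q) = (dten π : Ten (ℂ × ℂ) B P Q) := by
      funext u v
      change ((dten π u v : ℂ), (dten π u v : ℂ)) = _
      unfold dten
      by_cases h : ∀ p, u p = v (π p)
      · have e1 : ∀ p ∈ (Finset.univ : Finset P), (if u p = v (π p) then (1 : ℂ) else 0) = 1 :=
          fun p _ => if_pos (h p)
        have e2 : ∀ p ∈ (Finset.univ : Finset P), (if u p = v (π p) then (1 : ℂ × ℂ) else 0) = 1 :=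
          fun p _ => if_pos (h p)
        rw [Finset.prod_eq_one e1, Finset.prod_eq_one e2]
        rfl
      · push Not at h
        obtain ⟨p, hp⟩ := h
        rw [Finset.prod_eq_zero (Finset.mem_univ p) (if_neg hp),
          Finset.prod_eq_zero (Finset.mem_univ p) (if_neg hp)]
        rfl
    change prd (dten π : Ten ℂ B P Q) ∈ JJ w w' P Q
    rw [h3]
    exact dten_mem π
  exact h2 h1

lemma Bal.const (c : ℂ) : Bal w w' (fun _ => c) (fun _ => c) := by
  refine ⟨continuous_const, continuous_const, fun P Q _ _ _ _ y => ?_⟩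
  have h1 : ∫ k : UU B, c • uact (k : Matrix B B ℂ) y ∂(muU B) = c • av w 0 y := by
    rw [integral_smul]
    unfold av
    simp only [pow_zero, one_smul]
  rw [h1]
  have h2 : prd (c • av w 0 y) ∈ JJ w w' P Q := by
    rw [map_smul]
    exact Submodule.smul_mem _ _ (prd_inv_mem y)
  exact h2

lemma Bal.add {φ φ' ψ ψ' : UU B → ℂ} (h : Bal w w' φ φ') (h' : Bal w w' ψ ψ') :
    Bal w w' (fun k => φ k + ψ k) (fun k => φ' k + ψ' k) := by
  refine ⟨h.1.add h'.1, h.2.1.add h'.2.1, fun P Q _ _ _ _ y => ?_⟩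
  have h1 : ∀ {φ ψ : UU B → ℂ}, Continuous φ → Continuous ψ →
      ∫ k : UU B, (φ k + ψ k) • uact (k : Matrix B B ℂ) y ∂(muU B) =
      ∫ k : UU B, φ k • uact (k : Matrix B B ℂ) y ∂(muU B) +
      ∫ k : UU B, ψ k • uact (k : Matrix B B ℂ) y ∂(muU B) := by
    intro φ ψ hφ hψ
    rw [← integral_add (integrable_uact hφ y) (integrable_uact hψ y)]
    simp only [add_smul]
  rw [h1 h.1 h'.1, h1 h.2.1 h'.2.1]
  exact Submodule.add_mem _ (h.2.2 P Q y) (h'.2.2 P Q y)

lemma Bal.sum {ι : Type} (s : Finset ι) {φ φ' : ι → UU B → ℂ}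
    (h : ∀ i ∈ s, Bal w w' (φ i) (φ' i)) :
    Bal w w' (fun k => ∑ i ∈ s, φ i k) (fun k => ∑ i ∈ s, φ' i k) := by
  classical
  induction s using Finset.induction_on with
  | empty => simpa using Bal.const (w := w) (w' := w') 0
  | insert i s hi ih =>
    have h1 := (h i (Finset.mem_insert_self i s)).add (ih fun j hj =>
      h j (Finset.mem_insert_of_mem hj))
    have e1 : ∀ φ : ι → UU B → ℂ, (fun k => ∑ i ∈ insert i s, φ i k) =
        fun k => φ i k + ∑ i ∈ s, φ i k := by
      intro φ
      funext k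
      rw [Finset.sum_insert hi]
    rw [e1, e1]
    exact h1

lemma contr_tmul {P Q P' Q' : Type} [Fintype P] [DecidableEq P] [Fintype Q] [DecidableEq Q]
    (x : Ten ℂ B P Q) (y : Ten ℂ B Q P) (t : Ten ℂ B P' Q') :
    contr x (tmul y t) = pairT x y • t := by
  funext u v
  unfold contr tmul pairT
  rw [Pi.smul_apply, Pi.smul_apply, smul_eq_mul, Finset.sum_mul]
  refine Finset.sum_congr rfl fun a _ => ?_
  rw [Finset.sum_mul]
  refine Finset.sum_congr rfl fun c _ => ?_
  simp only [Sum.elim_inl, Sum.elim_inr]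
  ring

lemma continuous_pairT {P Q : Type} [Fintype P] [DecidableEq P] [Fintype Q] [DecidableEq Q]
    (x : Ten ℂ B P Q) (y : Ten ℂ B Q P) :
    Continuous fun k : UU B => pairT x (uact (k : Matrix B B ℂ) y) := by
  unfold pairT
  refine continuous_finsetSum _ fun a _ => continuous_finsetSum _ fun c _ => ?_
  exact continuous_const.mul ((continuous_apply_apply _ _).comp (continuous_uact y))

/-- Multiplication with the coefficients of a pair of values of networks. -/
lemma Bal.coef {φ φ' : UU B → ℂ} (h : Bal w w' φ φ') {P Q : Type} [Fintype P] [DecidableEq P]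
    [Fintype Q] [DecidableEq Q] {X : Ten (ℂ × ℂ) B P Q} (hX : X ∈ JJ w w' P Q)
    (y : Ten ℂ B Q P) :
    Bal w w' (fun k => φ k * pairT (p1 X) (uact (k : Matrix B B ℂ) y))
      (fun k => φ' k * pairT (p2 X) (uact (k : Matrix B B ℂ) y)) := by
  refine ⟨h.1.mul (continuous_pairT _ _), h.2.1.mul (continuous_pairT _ _),
    fun P' Q' _ _ _ _ t => ?_⟩
  have key : ∀ (x : Ten ℂ B P Q) {φ : UU B → ℂ}, Continuous φ →
      ∫ k : UU B, (φ k * pairT x (uact (k : Matrix B B ℂ) y)) • uact (k : Matrix B B ℂ) t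
        ∂(muU B) = contr x (∫ k : UU B, φ k • uact (k : Matrix B B ℂ) (tmul y t) ∂(muU B)) := by
    intro x φ hφ
    have h1 := (LinearMap.toContinuousLinearMap (contrL (P' := P') (Q' := Q') x)).integral_comp_comm
      (integrable_uact hφ (tmul y t))
    have h2 : contr x (∫ k : UU B, φ k • uact (k : Matrix B B ℂ) (tmul y t) ∂(muU B)) =
      (LinearMap.toContinuousLinearMap (contrL (P' := P') (Q' := Q') x))
        (∫ k : UU B, φ k • uact (k : Matrix B B ℂ) (tmul y t) ∂(muU B)) := rfl
    rw [h2, ← h1]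
    refine integral_congr_ae (Filter.Eventually.of_forall fun k => ?_)
    beta_reduce
    rw [map_smul]
    have h3 : (LinearMap.toContinuousLinearMap (contrL (P' := P') (Q' := Q') x))
        (uact (k : Matrix B B ℂ) (tmul y t)) = contr x (uact (k : Matrix B B ℂ) (tmul y t)) := rfl
    have h4 : uact (k : Matrix B B ℂ) (tmul y t) =
        tmul (uact (k : Matrix B B ℂ) y) (uact (k : Matrix B B ℂ) t) := act_tmul _ _ _ _
    rw [h3, h4, contr_tmul, smul_smul]
  rw [key _ h.1, key _ h.2.1]
  have h5 : pr (contr (p1 X) (∫ k : UU B, φ k • uact (k : Matrix B B ℂ) (tmul y t) ∂(muU B)))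
      (contr (p2 X) (∫ k : UU B, φ' k • uact (k : Matrix B B ℂ) (tmul y t) ∂(muU B))) =
      contr X (pr (∫ k : UU B, φ k • uact (k : Matrix B B ℂ) (tmul y t) ∂(muU B))
        (∫ k : UU B, φ' k • uact (k : Matrix B B ℂ) (tmul y t) ∂(muU B))) := by
    funext u v
    unfold contr
    refine Prod.ext ?_ ?_
    · rw [Prod.fst_sum]
      simp only [Prod.fst_sum]
      rfl
    · rw [Prod.snd_sum]
      simp only [Prod.snd_sum]
      rfl
  rw [h5]
  exact contr_mem hX (h.2.2 _ _ (tmul y t))

/-- The integrals agree. -/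
lemma Bal.integral_eq {φ φ' : UU B → ℂ} (hs : Same w w') (h : Bal w w' φ φ') :
    ∫ k : UU B, φ k ∂(muU B) = ∫ k : UU B, φ' k ∂(muU B) := by
  have h1 := JJ_diag hs (h.2.2 Empty Empty tone)
  have h2 : ∀ {φ : UU B → ℂ}, Continuous φ →
      (∫ k : UU B, φ k • uact (k : Matrix B B ℂ) (tone : Ten ℂ B Empty Empty) ∂(muU B))
        (fun e => e.elim) (fun e => e.elim) = ∫ k : UU B, φ k ∂(muU B) := by
    intro φ hφ
    have h3 := ((ContinuousLinearMap.proj (R := ℂ) (φ := fun _ : Empty → B => ℂ)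
      (fun e => e.elim)).comp (ContinuousLinearMap.proj (R := ℂ)
      (φ := fun _ : Empty → B => (Empty → B) → ℂ) (fun e => e.elim))).integral_comp_comm
      (integrable_uact hφ (tone : Ten ℂ B Empty Empty))
    refine h3.symm.trans ?_
    refine integral_congr_ae (Filter.Eventually.of_forall fun k => ?_)
    change φ k * uact (k : Matrix B B ℂ) (tone : Ten ℂ B Empty Empty) _ _ = φ k
    have h4 : uact (k : Matrix B B ℂ) (tone : Ten ℂ B Empty Empty) = tone := act_tone _ _
    rw [h4]
    exact mul_one _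
  have h3 := congrFun (congrFun h1 (fun e => e.elim)) (fun e => e.elim)
  rw [p1_pr, p2_pr, h2 h.1, h2 h.2.1] at h3
  exact h3

/-- The adjoints of the members of two minimal tuples are values of the same networks. -/
lemma tstar_pair_mem (hw : IsMin a w) (hw' : IsMin a w') (j : J) :
    pr (tstar (w j)) (tstar (w' j)) ∈ JJ w w' (C j) (A j) := by
  have hs : Same w w' := hw.1.trans hw'.1.symm
  have h1 := hw.tstar_mem j
  rw [← JJ_map1 (w' := w')] at h1
  obtain ⟨X, hX, hX1⟩ := h1
  have h2 : p2 X = tstar (w' j) := by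
    have h3 : p2 X - tstar (w' j) = 0 := by
      refine hw'.nondeg (Submodule.sub_mem _ ?_ (hw'.tstar_mem j)) fun s => ?_
      · rw [← JJ_map2 (w := w)]
        exact Submodule.mem_map_of_mem hX
      · have h4 := JJ_pair hs hX (ev_mem s : ev (fun j => pr (w j) (w' j)) s ∈ _)
        have h5 := gram_unique hw hw' s (Net.gen j)
        rw [p1_ev, p2_ev, hX1, pairT_swap, pairT_tstar] at h4
        rw [sub_eq_add_neg, ← neg_one_smul ℂ (tstar (w' j)), pairT_add_left, pairT_smul_left,
          ← h4, pairT_swap (tstar (w' j)), pairT_tstar, smul_eq_mul]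
        change hT (ev w s) (w j) = hT (ev w' s) (w' j) at h5
        rw [h5]
        ring
    exact sub_eq_zero.1 h3
  rw [← hX1, ← h2]
  exact hX

/-- the coefficient of two tuples -/
noncomputable def zx (x w : ∀ j, Ten ℂ B (A j) (C j)) (k : Matrix B B ℂ) : ℂ :=
  ∑ j, hT (x j) (uact k (w j))

lemma Bal.mulz {φ φ' : UU B → ℂ} (h : Bal w w' φ φ') :
    Bal w w' (fun k => φ k * zx w w (k : Matrix B B ℂ))
      (fun k => φ' k * zx w' w (k : Matrix B B ℂ)) := by
  have h1 := Bal.sum (Finset.univ : Finset J) (fun j _ => h.coef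
    (show pr (w j) (w' j) ∈ JJ w w' (A j) (C j) from gen_mem j) (tstar (w j)))
  have h2 : ∀ (x : ∀ j, Ten ℂ B (A j) (C j)) (φ : UU B → ℂ), (fun k : UU B => ∑ j,
      φ k * pairT (x j) (uact (k : Matrix B B ℂ) (tstar (w j)))) =
      fun k => φ k * zx x w (k : Matrix B B ℂ) := by
    intro x φ
    funext k
    rw [← Finset.mul_sum]
    refine congrArg (fun t : ℂ => φ k * t) (Finset.sum_congr rfl fun j _ => ?_)
    rw [← tstar_uact, pairT_tstar]
  have h3 := h2 w φ
  have h4 := h2 w' φ'
  rw [← h3, ← h4]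
  exact h1

lemma Bal.mulzc (hw : IsMin a w) (hw' : IsMin a w') {φ φ' : UU B → ℂ} (h : Bal w w' φ φ') :
    Bal w w' (fun k => φ k * starRingEnd ℂ (zx w w (k : Matrix B B ℂ)))
      (fun k => φ' k * starRingEnd ℂ (zx w' w (k : Matrix B B ℂ))) := by
  have h1 := Bal.sum (Finset.univ : Finset J) (fun j _ => h.coef
    (tstar_pair_mem hw hw' j) (w j))
  have h2 : ∀ (x : ∀ j, Ten ℂ B (A j) (C j)) (φ : UU B → ℂ), (fun k : UU B => ∑ j,
      φ k * pairT (tstar (x j)) (uact (k : Matrix B B ℂ) (w j))) =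
      fun k => φ k * starRingEnd ℂ (zx x w (k : Matrix B B ℂ)) := by
    intro x φ
    funext k
    rw [← Finset.mul_sum]
    congr 1
    unfold zx
    rw [map_sum]
    refine Finset.sum_congr rfl fun j _ => ?_
    rw [hT_conj, pairT_swap, pairT_tstar]
  have h3 := h2 w φ
  have h4 := h2 w' φ'
  rw [← h3, ← h4]
  exact h1

lemma continuous_zx (x w : ∀ j, Ten ℂ B (A j) (C j)) :
    Continuous fun k : UU B => zx x w (k : Matrix B B ℂ) := by
  unfold zx hT dotT tconj tmap
  refine continuous_finsetSum _ fun j _ => continuous_finsetSum _ fun a _ =>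
    continuous_finsetSum _ fun c _ => ?_
  refine continuous_const.mul (Complex.continuous_conj.comp ?_)
  exact (continuous_apply_apply _ _).comp (continuous_uact (w j))

/-- The moments agree. -/
lemma moments (hw : IsMin a w) (hw' : IsMin a w') (N : ℝ) (m : ℕ) :
    ∫ k : UU B, ‖(N : ℂ) + zx w w (k : Matrix B B ℂ)‖ ^ (2 * m) ∂(muU B) =
      ∫ k : UU B, ‖(N : ℂ) + zx w' w (k : Matrix B B ℂ)‖ ^ (2 * m) ∂(muU B) := by
  have hs : Same w w' := hw.1.trans hw'.1.symm
  have key : ∀ m : ℕ, Bal w w' (fun k => (((N : ℂ) + zx w w (k : Matrix B B ℂ)) *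
      starRingEnd ℂ ((N : ℂ) + zx w w (k : Matrix B B ℂ))) ^ m)
      (fun k => (((N : ℂ) + zx w' w (k : Matrix B B ℂ)) *
      starRingEnd ℂ ((N : ℂ) + zx w' w (k : Matrix B B ℂ))) ^ m) := by
    intro m
    induction m with
    | zero =>
      simp only [pow_zero]
      exact Bal.const 1
    | succ m ih =>
      have h0 : ∀ {φ φ' : UU B → ℂ}, Bal w w' φ φ' →
          Bal w w' (fun k => φ k * ((N : ℂ) + zx w w (k : Matrix B B ℂ)))
          (fun k => φ' k * ((N : ℂ) + zx w' w (k : Matrix B B ℂ))) := by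
        intro φ φ' h
        have h1 := h.coef (show (tone : Ten (ℂ × ℂ) B Empty Empty) ∈ JJ w w' Empty Empty
          from tone_mem) ((N : ℂ) • (tone : Ten ℂ B Empty Empty))
        have h2 : ∀ k : UU B, pairT (tone : Ten ℂ B Empty Empty)
            (uact (k : Matrix B B ℂ) ((N : ℂ) • (tone : Ten ℂ B Empty Empty))) = N := by
          intro k
          have h3 : uact (k : Matrix B B ℂ) ((N : ℂ) • (tone : Ten ℂ B Empty Empty)) =
              (N : ℂ) • tone := act_empty _ _ _
          rw [h3]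
          unfold pairT
          rw [Fintype.sum_unique, Fintype.sum_unique]
          simp [tone]
        rw [p1_tone, p2_tone] at h1
        simp only [h2] at h1
        have h3 := h1.add h.mulz
        simp only [← mul_add] at h3
        exact h3
      have h0' : ∀ {φ φ' : UU B → ℂ}, Bal w w' φ φ' →
          Bal w w' (fun k => φ k * starRingEnd ℂ ((N : ℂ) + zx w w (k : Matrix B B ℂ)))
          (fun k => φ' k * starRingEnd ℂ ((N : ℂ) + zx w' w (k : Matrix B B ℂ))) := by
        intro φ φ' h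
        have h1 := h.coef (show (tone : Ten (ℂ × ℂ) B Empty Empty) ∈ JJ w w' Empty Empty
          from tone_mem) ((N : ℂ) • (tone : Ten ℂ B Empty Empty))
        have h2 : ∀ k : UU B, pairT (tone : Ten ℂ B Empty Empty)
            (uact (k : Matrix B B ℂ) ((N : ℂ) • (tone : Ten ℂ B Empty Empty))) = N := by
          intro k
          have h3 : uact (k : Matrix B B ℂ) ((N : ℂ) • (tone : Ten ℂ B Empty Empty)) =
              (N : ℂ) • tone := act_empty _ _ _
          rw [h3]
          unfold pairT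
          rw [Fintype.sum_unique, Fintype.sum_unique]
          simp [tone]
        rw [p1_tone, p2_tone] at h1
        simp only [h2] at h1
        have h3 := h1.add (h.mulzc hw hw')
        simp only [← mul_add] at h3
        simp only [map_add, Complex.conj_ofReal]
        exact h3
      have h4 := h0' (h0 ih)
      have e1 : ∀ ζ c : ℂ, c ^ m * ζ * starRingEnd ℂ ζ = c ^ m * (ζ * starRingEnd ℂ ζ) :=
        fun ζ c => by ring
      simp only [e1, ← pow_succ] at h4
      exact h4
  have h1 := (key m).integral_eq hs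
  have h2 : ∀ x : UU B → ℂ, ∫ k : UU B, ((((N : ℂ) + x k) *
      starRingEnd ℂ ((N : ℂ) + x k)) ^ m : ℂ) ∂(muU B) =
      ((∫ k : UU B, ‖(N : ℂ) + x k‖ ^ (2 * m) ∂(muU B) : ℝ) : ℂ) := by
    intro x
    rw [← integral_complex_ofReal]
    refine integral_congr_ae (Filter.Eventually.of_forall fun k => ?_)
    beta_reduce
    rw [Complex.mul_conj', pow_mul]
    push_cast
    rfl
  rw [h2, h2] at h1
  exact_mod_cast h1

end Pool.Agent.Run7.h174
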