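import Pool.Agent.Run7.h174.UE

/-!
# Minimal tuples with the same values of the closed networks are unitarily equivalent
-/

set_option autoImplicit false
set_option linter.unusedSectionVars false

open Finset Matrix MeasureTheory Function

namespace Pool.Agent.Run7.h174

variable {B : Type} [Fintype B] [DecidableEq B]
  {J : Type} [Fintype J] {A C : J → Type} [∀ j, Fintype (A j)] [∀ j, DecidableEq (A j)]
  [∀ j, Fintype (C j)] [∀ j, DecidableEq (C j)] {w w' a : ∀ j, Ten ℂ B (A j) (C j)}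

instance instOU : (muU B).IsOpenPosMeasure := by
  unfold muU
  infer_instance

lemma zx_norm_le (x w : ∀ j, Ten ℂ B (A j) (C j)) (k : UU B) :
    ‖zx x w (k : Matrix B B ℂ)‖ ≤ (nsq x + nsq w) / 2 := by
  unfold zx nsq
  rw [← Finset.sum_add_distrib, Finset.sum_div]
  refine (norm_sum_le _ _).trans (Finset.sum_le_sum fun j _ => ?_)
  unfold hT dotT
  refine (norm_sum_le _ _).trans ?_
  have h1 : ∀ u : A j → B, ‖∑ v : C j → B, x j u v * tconj (uact (k : Matrix B B ℂ) (w j)) u v‖ ≤
      ∑ v : C j → B, (‖x j u v‖ ^ 2 + ‖uact (k : Matrix B B ℂ) (w j) u v‖ ^ 2) / 2 := by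
    intro u
    refine (norm_sum_le _ _).trans (Finset.sum_le_sum fun v _ => ?_)
    unfold tconj tmap
    rw [norm_mul, RCLike.norm_conj]
    nlinarith [sq_nonneg (‖x j u v‖ - ‖uact (k : Matrix B B ℂ) (w j) u v‖)]
  refine (Finset.sum_le_sum fun u _ => h1 u).trans ?_
  have h2 := nT_uact k.2 (w j)
  have h3 : ∑ u : A j → B, ∑ v : C j → B, (‖x j u v‖ ^ 2 +
      ‖uact (k : Matrix B B ℂ) (w j) u v‖ ^ 2) / 2 =
      (nT (x j) + nT (uact (k : Matrix B B ℂ) (w j))) / 2 := by
    unfold nT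
    simp only [← Finset.sum_div, Finset.sum_add_distrib]
  rw [h3, h2]

/-- Comparison of the maxima of two functions with the same moments. -/
lemma max_of_moments {F G : UU B → ℝ} (hF : Continuous F) (hG : Continuous G)
    (hG0 : ∀ k, 0 ≤ G k)
    (h : ∀ m : ℕ, ∫ k : UU B, F k ^ (2 * m) ∂(muU B) = ∫ k : UU B, G k ^ (2 * m) ∂(muU B))
    (k1 : UU B) : ∃ k0, F k1 ≤ G k0 := by
  obtain ⟨k0, _, hk0⟩ := isCompact_univ.exists_isMaxOn (Set.univ_nonempty (α := UU B))
    hG.continuousOn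
  refine ⟨k0, ?_⟩
  by_contra hcon
  push Not at hcon
  have hmax : ∀ k, G k ≤ G k0 := fun k => hk0 (Set.mem_univ k)
  obtain ⟨r, hr1, hr2⟩ := exists_between hcon
  have hr0 : 0 < r := lt_of_le_of_lt (hG0 k0) hr1
  set U : Set (UU B) := {k | r < F k} with hU
  have hUo : IsOpen U := isOpen_lt continuous_const hF
  have hUm : MeasurableSet U := hUo.measurableSet
  have hUpos : 0 < (muU B).real U := by
    rw [measureReal_def]
    refine ENNReal.toReal_pos ?_ (measure_ne_top _ _)
    exact (hUo.measure_pos _ ⟨k1, hr2⟩).ne'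
  have h1 : ∀ m : ℕ, (muU B).real U * r ^ (2 * m) ≤ G k0 ^ (2 * m) := by
    intro m
    have e1 : (muU B).real U * r ^ (2 * m) ≤ ∫ k : UU B, F k ^ (2 * m) ∂(muU B) := by
      have e2 : ∫ k : UU B, U.indicator (fun _ => r ^ (2 * m)) k ∂(muU B) =
          (muU B).real U * r ^ (2 * m) := by
        rw [integral_indicator_const _ hUm, smul_eq_mul]
      rw [← e2]
      refine integral_mono ((integrable_const _).indicator hUm)
        (integrable_cont (hF.pow (2 * m))) fun k => ?_
      by_cases hk : k ∈ U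
      · rw [Set.indicator_of_mem hk]
        exact pow_le_pow_left₀ hr0.le (le_of_lt hk) _
      · rw [Set.indicator_of_notMem hk]
        beta_reduce
        rw [pow_mul]
        positivity
    have e3 : ∫ k : UU B, G k ^ (2 * m) ∂(muU B) ≤ G k0 ^ (2 * m) := by
      have e4 : ∫ _k : UU B, G k0 ^ (2 * m) ∂(muU B) = G k0 ^ (2 * m) := by
        rw [integral_const, probReal_univ, one_smul]
      rw [← e4]
      refine integral_mono (integrable_cont (hG.pow (2 * m))) (integrable_const _) fun k => ?_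
      exact pow_le_pow_left₀ (hG0 k) (hmax k) _
    rw [h m] at e1
    exact e1.trans e3
  have h2 : ∀ m : ℕ, (muU B).real U ≤ ((G k0 / r) ^ 2) ^ m := by
    intro m
    rw [← pow_mul, div_pow, le_div_iff₀ (by positivity)]
    exact h1 m
  have h3 : (G k0 / r) ^ 2 < 1 := by
    have h4 : G k0 / r < 1 := (div_lt_one hr0).2 hr1
    have h5 : 0 ≤ G k0 / r := div_nonneg (hG0 k0) hr0.le
    nlinarith
  obtain ⟨m, hm⟩ := exists_pow_lt_of_lt_one hUpos h3
  exact absurd (h2 m) (not_le.2 hm)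

/-- **Two minimal tuples with the same values of the closed networks differ by a unitary
matrix.** -/
theorem unitary_equiv (hw : IsMin a w) (hw' : IsMin a w') :
    ∃ k : UU B, ∀ j, w' j = uact (k : Matrix B B ℂ) (w j) := by
  set N : ℝ := nsq w with hN
  have hN' : nsq w' = N := le_antisymm (hw'.2 w hw.1) (hw.2 w' hw'.1)
  have hN0 : 0 ≤ N := nsq_nonneg w
  have hF : Continuous fun k : UU B => ‖(N : ℂ) + zx w w (k : Matrix B B ℂ)‖ :=
    (continuous_const.add (continuous_zx w w)).norm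
  have hG : Continuous fun k : UU B => ‖(N : ℂ) + zx w' w (k : Matrix B B ℂ)‖ :=
    (continuous_const.add (continuous_zx w' w)).norm
  obtain ⟨k0, hk0⟩ := max_of_moments hF hG (fun k => norm_nonneg _) (moments hw hw' N) 1
  have h1 : zx w w ((1 : UU B) : Matrix B B ℂ) = (N : ℂ) := by
    unfold zx
    rw [hN]
    unfold nsq
    push_cast
    refine Finset.sum_congr rfl fun j _ => ?_
    rw [← hT_self]
    congr 1
    exact uact_one (w j)
  rw [h1] at hk0
  set ζ : ℂ := zx w' w (k0 : Matrix B B ℂ) with hζ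
  have h2 : ‖ζ‖ ≤ N := by
    have := zx_norm_le w' w k0
    rw [hN', ← hN] at this
    linarith
  have h3 : ‖(N : ℂ) + (N : ℂ)‖ = 2 * N := by
    rw [← Complex.ofReal_add, Complex.norm_real, Real.norm_eq_abs, abs_of_nonneg (by linarith)]
    ring
  rw [h3] at hk0
  have h4 : N ≤ ζ.re := by
    have h5 : ‖(N : ℂ) + ζ‖ ^ 2 = N ^ 2 + 2 * N * ζ.re + ‖ζ‖ ^ 2 := by
      rw [Complex.sq_norm, Complex.sq_norm, Complex.normSq_apply, Complex.normSq_apply]
      simp only [Complex.add_re, Complex.add_im, Complex.ofReal_re, Complex.ofReal_im]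
      ring
    have h6 : (2 * N) ^ 2 ≤ ‖(N : ℂ) + ζ‖ ^ 2 := pow_le_pow_left₀ (by linarith) hk0 2
    have h7 : ‖ζ‖ ^ 2 ≤ N ^ 2 := pow_le_pow_left₀ (norm_nonneg _) h2 2
    rcases hN0.eq_or_lt with h8 | h8
    · have h9 : ‖ζ‖ ≤ 0 := by rw [h8]; exact h2
      have h10 : ζ = 0 := norm_le_zero_iff.1 h9
      rw [← h8, h10]
      exact le_rfl
    · by_contra hcon
      push Not at hcon
      nlinarith
  have h5 : ∑ j, nT (w' j - uact (k0 : Matrix B B ℂ) (w j)) = 2 * N - 2 * ζ.re := by
    rw [hζ]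
    unfold zx
    rw [Complex.re_sum, Finset.mul_sum]
    have h6 : 2 * N = ∑ j, (nT (w' j) + nT (w j)) := by
      rw [Finset.sum_add_distrib]
      change 2 * N = nsq w' + nsq w
      rw [hN']
      ring
    rw [h6, ← Finset.sum_sub_distrib]
    refine Finset.sum_congr rfl fun j _ => ?_
    rw [nT_sub, nT_uact k0.2]
  refine ⟨k0, fun j => ?_⟩
  have h6 : ∑ j, nT (w' j - uact (k0 : Matrix B B ℂ) (w j)) = 0 :=
    le_antisymm (by linarith) (Finset.sum_nonneg fun j _ => nT_nonneg _)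
  have h7 := (Finset.sum_eq_zero_iff_of_nonneg (fun j _ => nT_nonneg _)).1 h6 j
    (Finset.mem_univ j)
  exact sub_eq_zero.1 (nT_eq_zero h7)

/-- **The tensors which are invariant under the stabilizer of a minimal tuple are combinations of
values of networks.** -/
theorem IsMin.inv_mem (h : IsMin a w) {P Q : Type} [Fintype P] [DecidableEq P] [Fintype Q]
    [DecidableEq Q] {y : Ten ℂ B P Q} (hy : ∀ k : UU B,
      (∀ j, uact (k : Matrix B B ℂ) (w j) = w j) → uact (k : Matrix B B ℂ) y = y) :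
    y ∈ Sp ℂ w P Q := by
  by_contra hcon
  obtain ⟨f, hf1, hf2⟩ := Submodule.exists_le_ker_of_notMem hcon
  set ψ : UU B → ℂ := fun k => f (uact (k : Matrix B B ℂ) y) with hψ
  have hψc : Continuous ψ :=
    (LinearMap.continuous_of_finiteDimensional f).comp (continuous_uact _)
  have hc : ∀ k, ac w k = 0 → ψ k = f y := by
    intro k hk
    change f (uact (k : Matrix B B ℂ) y) = _
    rw [hy k fun j => ac_eq_zero w hk j]
  have h1 : ∀ m : ℕ, ∫ k : UU B, zc w (k : Matrix B B ℂ) ^ m * ψ k ∂(muU B) = 0 := by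
    intro m
    have h2 := map_av w f m y
    rw [hf2 (av_mem w m _)] at h2
    exact h2.symm
  obtain ⟨D, c, hc0, hvol⟩ := vol w
  refine hf1 (laplace (continuous_zc w) hψc h1 (N := nsq w) (zc_norm_le w) (nsq_nonneg w) ?_ hc0
    hvol)
  intro η hη
  obtain ⟨r1, hr1, hr1'⟩ := h.phase hη
  obtain ⟨r2, hr2, hr2'⟩ := near w ψ hψc hc hη
  refine ⟨min r1 r2, lt_min hr1 hr2, fun k hk => ⟨hr1' k (hk.trans (min_le_left _ _)),
    hr2' k (hk.trans (min_le_right _ _))⟩⟩

end Pool.Agent.Run7.h174
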